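import Mathlib

/-!
# The algebraic half of the reduction: definitions

Chain of reductions: tokens of a sentence → polynomial system (`Con`) → bounded polynomial system
(`Con`) → strict inequalities between small quantities (`QC`) → strict inequalities between the
slopes `V 0 < V 1 < … < V K` (`TC`).
-/

namespace Pool.Agent.Lib.MP_612bca_lc

/-! ### Polynomial systems -/

/-- Constraints `z i = 1`, `z i + z j = z l`, `z i * z j = z l`. -/
inductive Con
  | one (i : ℕ) : Con
  | add (i j l : ℕ) : Con
  | mul (i j l : ℕ) : Con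

/-- The defect of a constraint. -/
def Con.val (z : ℕ → ℝ) : Con → ℝ
  | .one i => z i - 1
  | .add i j l => z i + z j - z l
  | .mul i j l => z i * z j - z l

/-- All indices are below `n`. -/
def Con.Below (n : ℕ) : Con → Prop
  | .one i => i < n
  | .add i j l => i < n ∧ j < n ∧ l < n
  | .mul i j l => i < n ∧ j < n ∧ l < n

/-- `z` solves the system `S`. -/
def Sol (S : List Con) (z : ℕ → ℝ) : Prop := ∀ c ∈ S, c.val z = 0

/-- Exponent of the doubly exponential bounds. -/
def gapExp (n m : ℕ) : ℕ := 10 * (n + m + 10)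

/-! ### From a sentence in Polish form to a system

A token is a pair (kind, name); kinds: 0 zero, 1 one, 2 var, 3 add, 4 mul, 5 lt, 6 eq, 7 and, 8 or,
9 not. Token number `t` owns the variables `10 * t + 2, …, 10 * t + 11`; the first of them is the
value (truth value 0 or 1) of the term (formula) starting at the token. Variable 0 is zero, variable
1 is one. -/

/-- Constraints for the token at position `t`, given the value variables `a`, `b` of its operands. -/
def tokCons (t kind a b : ℕ) : List Con :=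
  let v := 10 * t + 2
  match kind with
  | 0 => [.add 0 0 v]
  | 1 => [.one v]
  | 3 => [.add a b v]
  | 4 => [.mul a b v]
  -- a < b : u = b - a, v * v = v, u * r^2 = v, o = 1 - v, o * (u + s^2) = 0
  | 5 => [.add (v+1) a b, .mul v v v, .mul (v+2) (v+2) (v+3), .mul (v+1) (v+3) v,
          .add (v+4) v 1, .mul (v+5) (v+5) (v+6), .add (v+1) (v+6) (v+7), .mul (v+4) (v+7) 0]
  -- a = b : u = a - b, u * v = 0, u * w = r, r = 1 - v
  | 6 => [.add (v+1) b a, .mul (v+1) v 0, .mul (v+1) (v+2) (v+3), .add (v+3) v 1]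
  | 7 => [.mul a b v]
  | 8 => [.mul a b (v+1), .add v (v+1) (v+2), .add a b (v+2)]
  | 9 => [.add v a 1]
  | _ => []

/-- One step of the evaluation of a sentence in Polish form, read from the right: state = (stack of
value variables, constraints). -/
def tokStep (t : ℕ) (tok : ℕ × List Bool) (s : List ℕ × List Con) : List ℕ × List Con :=
  let a := s.1.headD 0
  let b := s.1.tail.headD 0
  let rest := if tok.1 ≤ 2 then s.1 else if tok.1 = 9 then s.1.tail else s.1.tail.tail
  ((10 * t + 2) :: rest, tokCons t tok.1 a b ++ s.2)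

/-- Processing the tokens at the positions `t, t+1, …`. -/
def tokRun : ℕ → List (ℕ × List Bool) → List ℕ × List Con
  | _, [] => ([], [])
  | t, tok :: l => tokStep t tok (tokRun (t + 1) l)

/-- Equations between the occurrences of the same variable name. -/
def varCons (toks : List (ℕ × List Bool)) : List Con :=
  toks.zipIdx.flatMap fun p => (toks.zipIdx.filter fun q =>
    decide (p.1.1 = 2) && decide (q.1.1 = 2) && decide (p.1.2 = q.1.2)).map fun q =>
      Con.add (10 * p.2 + 2) 0 (10 * q.2 + 2)

/-- The system attached to a list of tokens. -/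
def sysOf (toks : List (ℕ × List Bool)) : List Con :=
  [.add 0 0 0, .one 1, .one ((tokRun 0 toks).1.headD 0)] ++ varCons toks ++ (tokRun 0 toks).2

/-! ### From a system to a bounded system

`n` is the number of variables of the old system `S`. New variables: 0 is one; for `j < B` the
variables `4j+1` (main), `4j+2, 4j+3, 4j+4` (auxiliary for the bound). Main variables:
`j = t ≤ L` : `e_t = 2^(-2^t)`; `j = L + 1 + i` : `y_i = e_L * z_i`; `j = L + 1 + n + r` : product in
the `r`-th constraint. Here `L = gapExp n m`. -/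

/-- Index of the main variable number `j`. -/
def mv (j : ℕ) : ℕ := 4 * j + 1

/-- Scaled version of the `r`-th constraint; `L` as above. -/
def scaleCon (L n r : ℕ) : Con → List Con
  | .one i => [.mul (mv (L + 1 + i)) 0 (mv L)]
  | .add i j l => [.add (mv (L + 1 + i)) (mv (L + 1 + j)) (mv (L + 1 + l))]
  | .mul i j l => [.mul (mv (L + 1 + i)) (mv (L + 1 + j)) (mv (L + 1 + n + r)),
      .mul (mv L) (mv (L + 1 + l)) (mv (L + 1 + n + r))]

/-- Number of main variables of the bounded system. -/
def numMain (n m : ℕ) : ℕ := gapExp n m + 1 + n + m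

/-- The bounded system. -/
def boundSys (n : ℕ) (S : List Con) : List Con :=
  let L := gapExp n S.length
  [.one 0, .add (mv 0) (mv 0) 0] ++
  ((List.range L).map fun t => Con.mul (mv t) (mv t) (mv (t + 1))) ++
  (S.zipIdx.flatMap fun p => scaleCon L n p.2 p.1) ++
  ((List.range (numMain n S.length)).flatMap fun j =>
    [.mul (4*j+1) (4*j+1) (4*j+3), .mul (4*j+2) (4*j+2) (4*j+4), .add (4*j+3) (4*j+4) 0])

/-- Number of variables of the bounded system. -/
def boundNum (n : ℕ) (S : List Con) : ℕ := 4 * numMain n S.length + 1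

/-! ### Strict inequalities between small quantities -/

/-- Constraints on quantities `x i` (where `x 0 = 0`): comparison of two sums with the same number
of summands, `x w < (x b)^2`, `(x b)^2 < x w`. -/
inductive QC
  | lin (I J : List ℕ) : QC
  | sqL (w b : ℕ) : QC
  | sqG (w b : ℕ) : QC

/-- Truth of a constraint. -/
def QC.Holds (x : ℕ → ℝ) : QC → Prop
  | .lin I J => (I.map x).sum < (J.map x).sum
  | .sqL w b => 0 < x b ∧ x w < x b ^ 2
  | .sqG w b => 0 < x b ∧ x b ^ 2 < x w

/-- Well-formed constraints: indices below `n`, sums with the same number (between 1 and 7) of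
summands. -/
def QC.WF (n : ℕ) : QC → Prop
  | .lin I J => I.length = J.length ∧ 1 ≤ I.length ∧ I.length ≤ 7 ∧ (∀ i ∈ I, i < n) ∧
      (∀ j ∈ J, j < n)
  | .sqL w b => w < n ∧ b < n
  | .sqG w b => w < n ∧ b < n

/-- Two constraints and two auxiliary quantities `f`, `f + 1` saying that `x (f + 1)` is larger than
`(x a + x b)^2`. -/
def sqUp (a b f : ℕ) : List QC := [.lin [a, b] [f, 0], .sqG (f + 1) f]

/-- Two constraints and two auxiliary quantities `f`, `f + 1` saying that `x (f + 1)` is smaller
than `(x a + x b)^2`. -/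
def sqLow (a b f : ℕ) : List QC := [.lin [f, 0] [a, b], .sqL (f + 1) f]

/-! Layout of the quantities for a bounded system with `n` variables, `m` constraints, and tolerance
exponent `L`: `0` zero, `1` = ν, `2` = η, `3` = T, `4 + i` = `p_i` (`i < n`), `4 + n + t` = `g_t`
(`t ≤ L + 1`), then blocks of 28 auxiliary quantities: block `t ≤ L` for the step `t` of the chain,
block `L + 1 + r` for the `r`-th constraint. -/

/-- First index of the auxiliary block number `q`. -/
def auxBase (n L q : ℕ) : ℕ := 4 + n + (L + 2) + 28 * q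

/-- `g_{t+1} η < g_t ^ 2`. -/
def chainQC (n L t : ℕ) : List QC :=
  let g := 4 + n + t
  let f := auxBase n L t
  sqUp (g + 1) 2 f ++ sqLow g 0 (f + 2) ++ sqLow (g + 1) 0 (f + 4) ++ sqLow 2 0 (f + 6) ++
  [.lin [f + 1, 0, 0, 0] [f + 3, f + 3, f + 5, f + 7], .lin [0] [g]]

/-- Constraints for the `r`-th constraint of the system. -/
def conQC (n L r : ℕ) : Con → List QC
  | .one i => [.lin [4 + i, 0, 0] [1, 2, 4 + n + L + 1], .lin [1, 2] [4 + i, 4 + n + L + 1]]
  | .add i j l => [.lin [4 + i, 4 + j, 0] [4 + l, 1, 4 + n + L + 1],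
      .lin [4 + l, 1, 0] [4 + i, 4 + j, 4 + n + L + 1]]
  | .mul i j l =>
    let f := auxBase n L (L + 1 + r)
    let pi := 4 + i
    let pj := 4 + j
    let pl := 4 + l
    sqUp pi pj f ++ sqUp 1 0 (f + 2) ++ sqUp 2 1 (f + 4) ++ sqUp pl 0 (f + 6) ++
    sqUp 1 pi (f + 8) ++ sqUp 1 pj (f + 10) ++ sqUp 2 pl (f + 12) ++
    sqLow pi pj (f + 14) ++ sqLow 1 0 (f + 16) ++ sqLow 2 1 (f + 18) ++ sqLow pl 0 (f + 20) ++
    sqLow 1 pi (f + 22) ++ sqLow 1 pj (f + 24) ++ sqLow 2 pl (f + 26) ++
    [.lin [f + 1, f + 3, f + 3, f + 3, f + 5, f + 7] [f + 23, f + 25, f + 27, 3, 0, 0],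
     .lin [f + 9, f + 11, f + 13, 0, 0, 0, 0] [f + 15, f + 17, f + 17, f + 17, f + 19, f + 21, 3]]

/-- The constraints on the quantities. -/
def quantSys (n L : ℕ) (S : List Con) : List QC :=
  [.lin [0] [1], .lin [0] [2], .lin [0] [3], .lin [2, 2] [1, 0],
   .lin [4 + n, 4 + n] [2, 0], .lin [0] [4 + n + L + 1], .sqL 3 (4 + n + L + 1)] ++
  ((List.range n).map fun i => QC.lin [0] [4 + i]) ++
  ((List.range (L + 1)).flatMap fun t => chainQC n L t) ++
  (S.zipIdx.flatMap fun p => conQC n L p.2 p.1)

/-- Number of quantities. -/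
def quantNum (n L : ℕ) (S : List Con) : ℕ := auxBase n L (L + 1 + S.length)

/-! ### Strict inequalities between slopes -/

/-- Constraints on `V 0 < V 1 < … < V K`: `add e f n` is `V (e+n) - V e < V (f+n) - V f`;
`mulL g` is `(V (g+1) - V g) (V (g+4) - V g) < (V (g+2) - V g)^2`; `mulG g` is the reverse. -/
inductive TC
  | add (e f n : ℕ) : TC
  | mulL (g : ℕ) : TC
  | mulG (g : ℕ) : TC

/-- Truth of a constraint. -/
def TC.Holds (V : ℕ → ℝ) : TC → Prop
  | .add e f n => V (e + n) - V e < V (f + n) - V f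
  | .mulL g => (V (g + 1) - V g) * (V (g + 4) - V g) < (V (g + 2) - V g) ^ 2
  | .mulG g => (V (g + 2) - V g) ^ 2 < (V (g + 1) - V g) * (V (g + 4) - V g)

/-- Well-formed constraints: indices at most `K`, the intervals compared are disjoint and not
adjacent. -/
def TC.WF (K : ℕ) : TC → Prop
  | .add e f n => 1 ≤ n ∧ e + n ≤ K ∧ f + n ≤ K ∧ (e + n < f ∨ f + n < e)
  | .mulL g => g + 4 ≤ K
  | .mulG g => g + 4 ≤ K

/-- The instance `(K, cs)` is realizable. -/
def Realizable (K : ℕ) (cs : List TC) : Prop :=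
  ∃ V : ℕ → ℝ, (∀ i < K, V i < V (i + 1)) ∧ ∀ c ∈ cs, c.Holds V

/-- The instance `(K, cs)` is realizable arbitrarily close to `V i = i`. -/
def NearRealizable (K : ℕ) (cs : List TC) : Prop :=
  ∀ δ > 0, ∃ V : ℕ → ℝ, (∀ i ≤ K, |V i - i| < δ) ∧ ∀ c ∈ cs, c.Holds V

/-- The quantity `x i` is `(V (i+1) - V i) / (V 1 - V 0) - 1`. Constraints for the comparison of two
sums of quantities; `β` is the first of 20 fresh indices. -/
def linTC (β : ℕ) (I J : List ℕ) : List TC :=
  (I.zipIdx.map fun p => TC.add p.1 (β + p.2) 1) ++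
  (J.zipIdx.map fun p => TC.add (β + I.length + 1 + p.2) p.1 1) ++
  [.add β (β + I.length + 1) I.length]

/-- The `20`-block number `r` of fresh indices is used for the constraint `c`. -/
def qcTC (β : ℕ) : QC → List TC
  | .lin I J => linTC β I J
  -- block `β .. β+3` with quantities `a, b', c, d`; `0 < a < b' < x b`, `x w < a + c + d - 3 b'`
  | .sqL w b =>
    [.add 0 β 1, .add β (β + 6) 1, .add (β + 6) (β + 1) 1, .add (β + 1) b 1, .mulL β] ++
    linTC (β + 8) [w, β + 1, β + 1, β + 1] [β, β + 2, β + 3, 0]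
  -- `a < 0`, `0 < x b < b'`, `a + c + d - 3 b' < x w`
  | .sqG w b =>
    [.add β 0 1, .add 0 (β + 6) 1, .add (β + 6) b 1, .add b (β + 1) 1, .mulG β] ++
    linTC (β + 8) [β, β + 2, β + 3, 0] [w, β + 1, β + 1, β + 1]

/-- The slope constraints for the quantity constraints `Q` on `n` quantities. -/
def slopeSys (n : ℕ) (Q : List QC) : List TC :=
  Q.zipIdx.flatMap fun p => qcTC (n + 2 + 20 * p.2) p.1

/-- The number `K` for the slope constraints. -/
def slopeNum (n : ℕ) (Q : List QC) : ℕ := n + 2 + 20 * Q.length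

end Pool.Agent.Lib.MP_612bca_lc
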