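import Pool.Agent.Lib.MP_612bca_lc.Defs
import Pool.Agent.Lib.MP_612bca_lc.AlgDefs

/-!
# Tokens of a sentence and the composed algebraic reduction
-/

namespace Pool.Agent.Lib.MP_612bca_lc

/-- Tokens of a term in Polish form. -/
def Term.toks : Term → List (ℕ × List Bool)
  | .zero => [(0, [])]
  | .one => [(1, [])]
  | .var name => [(2, name)]
  | .add s t => (3, []) :: (s.toks ++ t.toks)
  | .mul s t => (4, []) :: (s.toks ++ t.toks)

/-- Tokens of a formula in Polish form. -/
def Formula.toks : Formula → List (ℕ × List Bool)
  | .lt s t => (5, []) :: (s.toks ++ t.toks)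
  | .eq s t => (6, []) :: (s.toks ++ t.toks)
  | .and φ ψ => (7, []) :: (φ.toks ++ ψ.toks)
  | .or φ ψ => (8, []) :: (φ.toks ++ ψ.toks)
  | .not φ => (9, []) :: φ.toks

/-- Number of variables of `sysOf toks`. -/
def sysNum (toks : List (ℕ × List Bool)) : ℕ := 10 * toks.length + 2

/-- The bounded system of a list of tokens. -/
def bSys (toks : List (ℕ × List Bool)) : List Con := boundSys (sysNum toks) (sysOf toks)

/-- Number of variables of the bounded system. -/
def bNum (toks : List (ℕ × List Bool)) : ℕ := boundNum (sysNum toks) (sysOf toks)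

/-- Tolerance exponent. -/
def bExp (toks : List (ℕ × List Bool)) : ℕ := gapExp (bNum toks) (bSys toks).length

/-- The number `K` of the slope instance of a list of tokens. -/
def instK (toks : List (ℕ × List Bool)) : ℕ :=
  slopeNum (quantNum (bNum toks) (bExp toks) (bSys toks)) (quantSys (bNum toks) (bExp toks) (bSys toks))

/-- The constraints of the slope instance of a list of tokens. -/
def instCs (toks : List (ℕ × List Bool)) : List TC :=
  slopeSys (quantNum (bNum toks) (bExp toks) (bSys toks)) (quantSys (bNum toks) (bExp toks) (bSys toks))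

end Pool.Agent.Lib.MP_612bca_lc
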