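import Pool.Agent.Lib.MP_612bca_lc.EncDefs
import Pool.Agent.Lib.MP_612bca_lc.TokDefs

/-!
# The algebraic half of the reduction is computable in polynomial time
-/

namespace Pool.Agent.Lib.MP_612bca_lc
open Pool.Agent.PolyTime

section
variable {α β : Type} [Enc α] [Enc β]

/-! ### Case distinctions -/

theorem ptime_con_cases {f : α → Con} (hf : PTime f) {A : α → ℕ → β}
    {B C : α → ℕ → ℕ → ℕ → β} (hA : PTime (fun p : α × ℕ => A p.1 p.2))
    (hB : PTime (fun p : α × (ℕ × (ℕ × ℕ)) => B p.1 p.2.1 p.2.2.1 p.2.2.2))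
    (hC : PTime (fun p : α × (ℕ × (ℕ × ℕ)) => C p.1 p.2.1 p.2.2.1 p.2.2.2)) :
    PTime (fun a => match f a with
      | .one i => A a i
      | .add i j l => B a i j l
      | .mul i j l => C a i j l) := by
  have h0 : PTime (fun a => (f a).code) := ptime_con_code hf
  have h1 : PTime (fun a => A a (f a).code.2.1) := by
    have := PTime.comp (f := fun p : α × ℕ => A p.1 p.2) (g := fun a => (a, (f a).code.2.1))
      hA (PTime.id.pair (PTime.fst.comp (PTime.snd.comp h0)))
    exact this
  have h2 : PTime (fun a => B a (f a).code.2.1 (f a).code.2.2.1 (f a).code.2.2.2) := by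
    have := PTime.comp (f := fun p : α × (ℕ × (ℕ × ℕ)) => B p.1 p.2.1 p.2.2.1 p.2.2.2)
      (g := fun a => (a, (f a).code.2)) hB (PTime.id.pair (PTime.snd.comp h0))
    exact this
  have h3 : PTime (fun a => C a (f a).code.2.1 (f a).code.2.2.1 (f a).code.2.2.2) := by
    have := PTime.comp (f := fun p : α × (ℕ × (ℕ × ℕ)) => C p.1 p.2.1 p.2.2.1 p.2.2.2)
      (g := fun a => (a, (f a).code.2)) hC (PTime.id.pair (PTime.snd.comp h0))
    exact this
  refine (PTime.ite (PTime.eq (PTime.fst.comp h0) (PTime.const 0)) h1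
    (PTime.ite (PTime.eq (PTime.fst.comp h0) (PTime.const 1)) h2 h3)).of_eq fun a => ?_
  cases f a <;> rfl

theorem ptime_qc_cases {f : α → QC} (hf : PTime f) {A : α → List ℕ → List ℕ → β}
    {B C : α → ℕ → ℕ → β} (hA : PTime (fun p : α × (List ℕ × List ℕ) => A p.1 p.2.1 p.2.2))
    (hB : PTime (fun p : α × (ℕ × ℕ) => B p.1 p.2.1 p.2.2))
    (hC : PTime (fun p : α × (ℕ × ℕ) => C p.1 p.2.1 p.2.2)) :
    PTime (fun a => match f a with
      | .lin I J => A a I J
      | .sqL w b => B a w b
      | .sqG w b => C a w b) := by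
  have h0 : PTime (fun a => (f a).code) := ptime_qc_code hf
  have hd : PTime (fun l : List ℕ => l.head?.getD 0) :=
    PTime.getD (PTime.head? PTime.id) (PTime.const 0)
  have e1 : PTime (fun a => (f a).code.2.1.head?.getD 0) :=
    hd.comp (PTime.fst.comp (PTime.snd.comp h0))
  have e2 : PTime (fun a => (f a).code.2.2.head?.getD 0) :=
    hd.comp (PTime.snd.comp (PTime.snd.comp h0))
  have h1 : PTime (fun a => A a (f a).code.2.1 (f a).code.2.2) := by
    have := PTime.comp (f := fun p : α × (List ℕ × List ℕ) => A p.1 p.2.1 p.2.2)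
      (g := fun a => (a, (f a).code.2)) hA (PTime.id.pair (PTime.snd.comp h0))
    exact this
  have h2 : PTime (fun a => B a ((f a).code.2.1.head?.getD 0) ((f a).code.2.2.head?.getD 0)) := by
    have := PTime.comp (f := fun p : α × (ℕ × ℕ) => B p.1 p.2.1 p.2.2)
      (g := fun a => (a, ((f a).code.2.1.head?.getD 0, (f a).code.2.2.head?.getD 0))) hB
      (PTime.id.pair (e1.pair e2))
    exact this
  have h3 : PTime (fun a => C a ((f a).code.2.1.head?.getD 0) ((f a).code.2.2.head?.getD 0)) := by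
    have := PTime.comp (f := fun p : α × (ℕ × ℕ) => C p.1 p.2.1 p.2.2)
      (g := fun a => (a, ((f a).code.2.1.head?.getD 0, (f a).code.2.2.head?.getD 0))) hC
      (PTime.id.pair (e1.pair e2))
    exact this
  refine (PTime.ite (PTime.eq (PTime.fst.comp h0) (PTime.const 0)) h1
    (PTime.ite (PTime.eq (PTime.fst.comp h0) (PTime.const 1)) h2 h3)).of_eq fun a => ?_
  cases f a <;> rfl

theorem ptime_list1 {f : α → β} (hf : PTime f) : PTime (fun a => [f a]) :=
  hf.cons (PTime.const [])

/-! ### Tokens to constraints -/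

theorem tokCons_eq (t k a b : ℕ) : tokCons t k a b =
    if decide (k = 0) = true then [.add 0 0 (10 * t + 2)] else
    if decide (k = 1) = true then [.one (10 * t + 2)] else
    if decide (k = 3) = true then [.add a b (10 * t + 2)] else
    if decide (k = 4) = true then [.mul a b (10 * t + 2)] else
    if decide (k = 5) = true then
      [.add (10 * t + 2 + 1) a b, .mul (10 * t + 2) (10 * t + 2) (10 * t + 2),
        .mul (10 * t + 2 + 2) (10 * t + 2 + 2) (10 * t + 2 + 3),
        .mul (10 * t + 2 + 1) (10 * t + 2 + 3) (10 * t + 2),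
        .add (10 * t + 2 + 4) (10 * t + 2) 1,
        .mul (10 * t + 2 + 5) (10 * t + 2 + 5) (10 * t + 2 + 6),
        .add (10 * t + 2 + 1) (10 * t + 2 + 6) (10 * t + 2 + 7),
        .mul (10 * t + 2 + 4) (10 * t + 2 + 7) 0] else
    if decide (k = 6) = true then
      [.add (10 * t + 2 + 1) b a, .mul (10 * t + 2 + 1) (10 * t + 2) 0,
        .mul (10 * t + 2 + 1) (10 * t + 2 + 2) (10 * t + 2 + 3),
        .add (10 * t + 2 + 3) (10 * t + 2) 1] else
    if decide (k = 7) = true then [.mul a b (10 * t + 2)] else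
    if decide (k = 8) = true then
      [.mul a b (10 * t + 2 + 1), .add (10 * t + 2) (10 * t + 2 + 1) (10 * t + 2 + 2),
        .add a b (10 * t + 2 + 2)] else
    if decide (k = 9) = true then [.add (10 * t + 2) a 1] else [] := by
  match k with
  | 0 => rfl
  | 1 => rfl
  | 2 => rfl
  | 3 => rfl
  | 4 => rfl
  | 5 => rfl
  | 6 => rfl
  | 7 => rfl
  | 8 => rfl
  | 9 => rfl
  | n + 10 =>
    simp [tokCons]

theorem ptime_tokCons {t k a b : α → ℕ} (ht : PTime t) (hk : PTime k) (ha : PTime a)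
    (hb : PTime b) : PTime (fun x => tokCons (t x) (k x) (a x) (b x)) := by
  have v : PTime (fun x => 10 * t x + 2) := ((PTime.const 10).mul ht).add (PTime.const 2)
  have v1 : PTime (fun x => 10 * t x + 2 + 1) := v.add (PTime.const 1)
  have v2 : PTime (fun x => 10 * t x + 2 + 2) := v.add (PTime.const 2)
  have v3 : PTime (fun x => 10 * t x + 2 + 3) := v.add (PTime.const 3)
  have v4 : PTime (fun x => 10 * t x + 2 + 4) := v.add (PTime.const 4)
  have v5 : PTime (fun x => 10 * t x + 2 + 5) := v.add (PTime.const 5)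
  have v6 : PTime (fun x => 10 * t x + 2 + 6) := v.add (PTime.const 6)
  have v7 : PTime (fun x => 10 * t x + 2 + 7) := v.add (PTime.const 7)
  have c0 : PTime (fun _ : α => (0 : ℕ)) := PTime.const 0
  have c1 : PTime (fun _ : α => (1 : ℕ)) := PTime.const 1
  have e : ∀ i : ℕ, PTime (fun x => decide (k x = i)) := fun i => PTime.eq hk (PTime.const i)
  have L0 : PTime (fun x => [Con.add 0 0 (10 * t x + 2)]) := ptime_list1 (ptime_con_add c0 c0 v)
  have L1 : PTime (fun x => [Con.one (10 * t x + 2)]) := ptime_list1 (ptime_con_one v)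
  have L3 : PTime (fun x => [Con.add (a x) (b x) (10 * t x + 2)]) :=
    ptime_list1 (ptime_con_add ha hb v)
  have L4 : PTime (fun x => [Con.mul (a x) (b x) (10 * t x + 2)]) :=
    ptime_list1 (ptime_con_mul ha hb v)
  have L5 : PTime (fun x => [Con.add (10 * t x + 2 + 1) (a x) (b x),
      Con.mul (10 * t x + 2) (10 * t x + 2) (10 * t x + 2),
        .mul (10 * t x + 2 + 2) (10 * t x + 2 + 2) (10 * t x + 2 + 3),
        .mul (10 * t x + 2 + 1) (10 * t x + 2 + 3) (10 * t x + 2),
        .add (10 * t x + 2 + 4) (10 * t x + 2) 1,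
        .mul (10 * t x + 2 + 5) (10 * t x + 2 + 5) (10 * t x + 2 + 6),
        .add (10 * t x + 2 + 1) (10 * t x + 2 + 6) (10 * t x + 2 + 7),
        .mul (10 * t x + 2 + 4) (10 * t x + 2 + 7) 0]) :=
    (ptime_con_add v1 ha hb).cons ((ptime_con_mul v v v).cons ((ptime_con_mul v2 v2 v3).cons
      ((ptime_con_mul v1 v3 v).cons ((ptime_con_add v4 v c1).cons ((ptime_con_mul v5 v5 v6).cons
        ((ptime_con_add v1 v6 v7).cons (ptime_list1 (ptime_con_mul v4 v7 c0))))))))
  have L6 : PTime (fun x => [Con.add (10 * t x + 2 + 1) (b x) (a x),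
      Con.mul (10 * t x + 2 + 1) (10 * t x + 2) 0,
        .mul (10 * t x + 2 + 1) (10 * t x + 2 + 2) (10 * t x + 2 + 3),
        .add (10 * t x + 2 + 3) (10 * t x + 2) 1]) :=
    (ptime_con_add v1 hb ha).cons ((ptime_con_mul v1 v c0).cons ((ptime_con_mul v1 v2 v3).cons
      (ptime_list1 (ptime_con_add v3 v c1))))
  have L8 : PTime (fun x => [Con.mul (a x) (b x) (10 * t x + 2 + 1),
      Con.add (10 * t x + 2) (10 * t x + 2 + 1) (10 * t x + 2 + 2),
        .add (a x) (b x) (10 * t x + 2 + 2)]) :=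
    (ptime_con_mul ha hb v1).cons ((ptime_con_add v v1 v2).cons
      (ptime_list1 (ptime_con_add ha hb v2)))
  have L9 : PTime (fun x => [Con.add (10 * t x + 2) (a x) 1]) :=
    ptime_list1 (ptime_con_add v ha c1)
  have h9 := PTime.ite (e 9) L9 (PTime.const [])
  have h8 := PTime.ite (e 8) L8 h9
  have h7 := PTime.ite (e 7) L4 h8
  have h6 := PTime.ite (e 6) L6 h7
  have h5 := PTime.ite (e 5) L5 h6
  have h4 := PTime.ite (e 4) L4 h5
  have h3 := PTime.ite (e 3) L3 h4
  have h1 := PTime.ite (e 1) L1 h3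
  have h0 := PTime.ite (e 0) L0 h1
  exact h0.of_eq fun x => (tokCons_eq _ _ _ _).symm

theorem ptime_le {f g : α → ℕ} (hf : PTime f) (hg : PTime g) :
    PTime (fun a => decide (f a ≤ g a)) :=
  (PTime.mem hf (PTime.range hg.succ)).of_eq fun a => by simp

theorem ptime_lt {f g : α → ℕ} (hf : PTime f) (hg : PTime g) :
    PTime (fun a => decide (f a < g a)) :=
  (PTime.mem hf (PTime.range hg)).of_eq fun a => by simp

theorem ptime_headD {f : α → List ℕ} (hf : PTime f) : PTime (fun a => (f a).headD 0) :=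
  (PTime.getD (PTime.head? hf) (PTime.const 0)).of_eq fun a => by cases f a <;> rfl

theorem ptime_tokStep {t : α → ℕ} {tok : α → ℕ × List Bool} {s : α → List ℕ × List Con}
    (ht : PTime t) (htok : PTime tok) (hs : PTime s) :
    PTime (fun x => tokStep (t x) (tok x) (s x)) := by
  have s1 : PTime (fun x => (s x).1) := PTime.fst.comp hs
  have s2 : PTime (fun x => (s x).2) := PTime.snd.comp hs
  have k : PTime (fun x => (tok x).1) := PTime.fst.comp htok
  have a : PTime (fun x => (s x).1.headD 0) := ptime_headD s1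
  have b : PTime (fun x => (s x).1.tail.headD 0) := ptime_headD s1.tail
  have v : PTime (fun x => 10 * t x + 2) := ((PTime.const 10).mul ht).add (PTime.const 2)
  have rest : PTime (fun x => if decide ((tok x).1 ≤ 2) = true then (s x).1 else
      if decide ((tok x).1 = 9) = true then (s x).1.tail else (s x).1.tail.tail) :=
    PTime.ite (ptime_le k (PTime.const 2)) s1
      (PTime.ite (PTime.eq k (PTime.const 9)) s1.tail s1.tail.tail)
  refine ((v.cons rest).pair ((ptime_tokCons ht k a b).append s2)).of_eq fun x => ?_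
  simp only [tokStep, decide_eq_true_eq]

end

/-! ### Size of the state -/

theorem size_con (c : Con) (M : ℕ) (h : c.Below (M + 1)) : size (enc c) ≤ 6 * M + 20 := by
  rw [enc_con]
  cases c with
  | one i =>
    simp only [Con.Below] at h
    simp only [Con.code, size_pair, size_nat]
    omega
  | add i j l =>
    simp only [Con.Below] at h
    simp only [Con.code, size_pair, size_nat]
    omega
  | mul i j l =>
    simp only [Con.Below] at h
    simp only [Con.code, size_pair, size_nat]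
    omega

theorem tokCons_below (t k a b M : ℕ) (ht : 10 * t + 11 ≤ M) (ha : a ≤ M) (hb : b ≤ M) :
    ∀ c ∈ tokCons t k a b, c.Below (M + 1) := by
  intro c hc
  rw [tokCons_eq] at hc
  simp only [decide_eq_true_eq] at hc
  split_ifs at hc <;> simp only [List.mem_cons, List.not_mem_nil, or_false] at hc <;>
    (try rcases hc with rfl | rfl | rfl | rfl | rfl | rfl | rfl | rfl) <;>
    (try simp only [Con.Below]) <;> (try omega)

theorem tokCons_length (t k a b : ℕ) : (tokCons t k a b).length ≤ 8 := by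
  rw [tokCons_eq]
  split_ifs <;> simp

theorem tokStep_stack (t M : ℕ) (tok : ℕ × List Bool) (s : List ℕ × List Con)
    (ht : 10 * t + 11 ≤ M) (hs : ∀ x ∈ s.1, x ≤ M) : ∀ x ∈ (tokStep t tok s).1, x ≤ M := by
  intro x hx
  simp only [tokStep, List.mem_cons] at hx
  rcases hx with rfl | hx
  · omega
  · split_ifs at hx
    · exact hs x hx
    · exact hs x (List.mem_of_mem_tail hx)
    · exact hs x (List.mem_of_mem_tail (List.mem_of_mem_tail hx))

theorem headD_le (l : List ℕ) (M : ℕ) (h : ∀ x ∈ l, x ≤ M) : l.headD 0 ≤ M := by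
  cases l with
  | nil => simp
  | cons x l => exact h x (by simp)

theorem tokStep_size (t M : ℕ) (tok : ℕ × List Bool) (s : List ℕ × List Con)
    (ht : 10 * t + 11 ≤ M) (hs : ∀ x ∈ s.1, x ≤ M) :
    size (enc (tokStep t tok s)) ≤ size (enc s) + (8 * (6 * M + 21) + 2 * M + 2) := by
  obtain ⟨s1, s2⟩ := s
  have h1 : size (enc (if tok.1 ≤ 2 then s1 else if tok.1 = 9 then s1.tail else s1.tail.tail)) ≤
      size (enc s1) := by
    split_ifs
    · exact le_refl _
    · exact size_sublist (List.tail_sublist _)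
    · exact size_sublist ((List.tail_sublist _).trans (List.tail_sublist _))
  have ha : s1.headD 0 ≤ M := headD_le _ _ hs
  have hb : s1.tail.headD 0 ≤ M := headD_le _ _ fun x hx => hs x (List.mem_of_mem_tail hx)
  have h2 : size (enc (tokCons t tok.1 (s1.headD 0) (s1.tail.headD 0))) ≤
      8 * (6 * M + 21) + 1 := by
    refine (size_list_le _ (6 * M + 20) fun c hc =>
      size_con c M (tokCons_below t _ _ _ M ht ha hb c hc)).trans ?_
    have := Nat.mul_le_mul_right (6 * M + 20 + 1) (tokCons_length t tok.1 (s1.headD 0)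
      (s1.tail.headD 0))
    omega
  have h3 := size_append (tokCons t tok.1 (s1.headD 0) (s1.tail.headD 0)) s2
  simp only [tokStep, size_pair, size_lcons, size_nat]
  omega

theorem tokRun_stack (M : ℕ) : ∀ (l : List (ℕ × List Bool)) (t : ℕ),
    10 * (t + l.length) + 1 ≤ M → ∀ x ∈ (tokRun t l).1, x ≤ M := by
  intro l
  induction l with
  | nil => intro t _ x hx; simp [tokRun] at hx
  | cons tok l ih =>
    intro t ht
    rw [List.length_cons] at ht
    exact tokStep_stack t M tok _ (by omega) (ih (t + 1) (by omega))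

theorem tokRun_size (M : ℕ) : ∀ (l : List (ℕ × List Bool)) (t : ℕ),
    10 * (t + l.length) + 1 ≤ M →
      size (enc (tokRun t l)) ≤ l.length * (8 * (6 * M + 21) + 2 * M + 2) + 3 := by
  intro l
  induction l with
  | nil => intro t _; simp [tokRun, size_pair, enc_nil]
  | cons tok l ih =>
    intro t ht
    rw [List.length_cons] at ht
    have h1 := tokStep_size t M tok (tokRun (t + 1) l) (by omega)
      (tokRun_stack M l (t + 1) (by omega))
    have h2 := ih (t + 1) (by omega)
    rw [List.length_cons, Nat.add_mul, one_mul]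
    change size (enc (tokStep t tok (tokRun (t + 1) l))) ≤ _
    omega

theorem tokRun_eq_foldl (l : List (ℕ × List Bool)) (t : ℕ) :
    tokRun t l = (l.zipIdx t).reverse.foldl (fun s p => tokStep p.2 p.1 s) ([], []) := by
  induction l generalizing t with
  | nil => rfl
  | cons tok l ih =>
    rw [List.zipIdx_cons, List.reverse_cons, List.foldl_append, List.foldl_cons, List.foldl_nil,
      ← ih]
    rfl

section
variable {α β : Type} [Enc α] [Enc β]

theorem ptime_tokRun {f : α → List (ℕ × List Bool)} (hf : PTime f) :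
    PTime (fun x => tokRun 0 (f x)) := by
  suffices h : PTime (fun l : List (ℕ × List Bool) => tokRun 0 l) from h.comp hf
  have h1 : PTime (fun l : List (ℕ × List Bool) => l.zipIdx.reverse) := PTime.id.zipIdx.reverse
  have hstep : PTime (fun p : List (ℕ × List Bool) ×
      ((List ℕ × List Con) × ((ℕ × List Bool) × ℕ)) => tokStep p.2.2.2 p.2.2.1 p.2.1) := by
    have e2 : PTime (fun p : List (ℕ × List Bool) ×
      ((List ℕ × List Con) × ((ℕ × List Bool) × ℕ)) => p.2) := PTime.snd
    exact ptime_tokStep (PTime.snd.comp (PTime.snd.comp e2)) (PTime.fst.comp (PTime.snd.comp e2))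
      (PTime.fst.comp e2)
  refine (PTime.foldl (h := fun (_ : List (ℕ × List Bool)) (s : List ℕ × List Con)
    (p : (ℕ × List Bool) × ℕ) => tokStep p.2 p.1 s) h1 (PTime.const ([], [])) hstep
    (B := fun n => n * (8 * (6 * (10 * n + 1) + 21) + 2 * (10 * n + 1) + 2) + 3) ?_ ?_).of_eq
    fun l => (tokRun_eq_foldl l 0).symm
  · have c : ∀ i, PBd (fun _ => i) := PBd.const
    have m : PBd (fun n => 10 * n + 1) := ((c 10).mul PBd.id).add (c 1)
    exact ((PBd.id.mul ((((c 8).mul (((c 6).mul m).add (c 21))).add ((c 2).mul m)).add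
      (c 2))).add (c 3))
  · intro l l₁ l₂ h
    -- `l₁` is the reverse of the list of pairs of a final segment
    have h2 : l.zipIdx = l₂.reverse ++ l₁.reverse := by
      rw [← List.reverse_append, ← h, List.reverse_reverse]
    have hlen := length_le_size l
    have hl : l.length = l₂.length + l₁.length := by
      have := congrArg List.length h2
      simpa using this
    have h3 : l₁.reverse = (l.drop l₂.length).zipIdx l₂.length := by
      have h4 : (l.zipIdx).drop l₂.length = l₁.reverse := by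
        rw [h2, List.drop_left' (by simp)]
      rw [← h4]
      apply List.ext_getElem
      · simp
      · intro i h5 h6
        simp
    have h4 : l₁ = ((l.drop l₂.length).zipIdx l₂.length).reverse := by
      rw [← h3, List.reverse_reverse]
    have h5 := tokRun_size (10 * l.length + 1) (l.drop l₂.length) l₂.length (by
      rw [List.length_drop]; omega)
    rw [tokRun_eq_foldl, ← h4] at h5
    refine h5.trans ?_
    rw [List.length_drop]
    have h6 : l.length - l₂.length ≤ size (enc l) := by omega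
    have h7 : 8 * (6 * (10 * l.length + 1) + 21) + 2 * (10 * l.length + 1) + 2 ≤
      8 * (6 * (10 * size (enc l) + 1) + 21) + 2 * (10 * size (enc l) + 1) + 2 := by omega
    exact Nat.add_le_add_right (Nat.mul_le_mul h6 h7) 3

theorem ptime_varCons {f : α → List (ℕ × List Bool)} (hf : PTime f) :
    PTime (fun x => varCons (f x)) := by
  suffices h : PTime (fun l : List (ℕ × List Bool) => varCons l) from h.comp hf
  let T := List (ℕ × List Bool)
  have z : PTime (fun l : T => l.zipIdx) := PTime.id.zipIdx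
  have hfil : PTime₂ (fun (l : T) (p : (ℕ × List Bool) × ℕ) => l.zipIdx.filter fun q =>
      decide (p.1.1 = 2) && decide (q.1.1 = 2) && decide (p.1.2 = q.1.2)) := by
    have e : PTime (fun y : (T × ((ℕ × List Bool) × ℕ)) × ((ℕ × List Bool) × ℕ) => y.1.2.1) :=
      PTime.fst.comp (PTime.snd.comp PTime.fst)
    have e' : PTime (fun y : (T × ((ℕ × List Bool) × ℕ)) × ((ℕ × List Bool) × ℕ) => y.2.1) :=
      PTime.fst.comp PTime.snd
    have c : PTime (fun y : (T × ((ℕ × List Bool) × ℕ)) × ((ℕ × List Bool) × ℕ) =>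
        decide (y.1.2.1.1 = 2) && decide (y.2.1.1 = 2) && decide (y.1.2.1.2 = y.2.1.2)) :=
      ((PTime.eq (PTime.fst.comp e) (PTime.const 2)).and
        (PTime.eq (PTime.fst.comp e') (PTime.const 2))).and
        (PTime.eq (PTime.snd.comp e) (PTime.snd.comp e'))
    exact PTime.filter (g := fun (x : T × ((ℕ × List Bool) × ℕ)) (q : (ℕ × List Bool) × ℕ) =>
        decide (x.2.1.1 = 2) && decide (q.1.1 = 2) && decide (x.2.1.2 = q.1.2))
      (z.comp PTime.fst) c
  have hmap : PTime₂ (fun (l : T) (p : (ℕ × List Bool) × ℕ) => (l.zipIdx.filter fun q =>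
      decide (p.1.1 = 2) && decide (q.1.1 = 2) && decide (p.1.2 = q.1.2)).map fun q =>
        Con.add (10 * p.2 + 2) 0 (10 * q.2 + 2)) := by
    have e : PTime (fun y : (T × ((ℕ × List Bool) × ℕ)) × ((ℕ × List Bool) × ℕ) =>
        10 * y.1.2.2 + 2) :=
      ((PTime.const 10).mul (PTime.snd.comp (PTime.snd.comp PTime.fst))).add (PTime.const 2)
    have e' : PTime (fun y : (T × ((ℕ × List Bool) × ℕ)) × ((ℕ × List Bool) × ℕ) =>
        10 * y.2.2 + 2) :=
      ((PTime.const 10).mul (PTime.snd.comp PTime.snd)).add (PTime.const 2)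
    exact PTime.map (g := fun (x : T × ((ℕ × List Bool) × ℕ)) (q : (ℕ × List Bool) × ℕ) =>
        Con.add (10 * x.2.2 + 2) 0 (10 * q.2 + 2)) hfil (ptime_con_add e (PTime.const 0) e')
  exact PTime.flatMap z hmap

theorem ptime_sysOf {f : α → List (ℕ × List Bool)} (hf : PTime f) :
    PTime (fun x => sysOf (f x)) := by
  have r := ptime_tokRun hf
  have h1 : PTime (fun x => Con.one ((tokRun 0 (f x)).1.headD 0)) :=
    ptime_con_one (ptime_headD (PTime.fst.comp r))
  have h2 : PTime (fun x => [Con.add 0 0 0, .one 1, .one ((tokRun 0 (f x)).1.headD 0)]) :=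
    (PTime.const (Con.add 0 0 0)).cons ((PTime.const (Con.one 1)).cons (ptime_list1 h1))
  exact (h2.append (ptime_varCons hf)).append (PTime.snd.comp r)

theorem ptime_sysNum {f : α → List (ℕ × List Bool)} (hf : PTime f) :
    PTime (fun x => sysNum (f x)) :=
  ((PTime.const 10).mul hf.length).add (PTime.const 2)

/-! ### Bounded systems -/

theorem ptime_gapExp {n m : α → ℕ} (hn : PTime n) (hm : PTime m) :
    PTime (fun x => gapExp (n x) (m x)) :=
  (PTime.const 10).mul ((hn.add hm).add (PTime.const 10))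

theorem ptime_mv {n : α → ℕ} (hn : PTime n) : PTime (fun x => mv (n x)) :=
  ((PTime.const 4).mul hn).add (PTime.const 1)

theorem ptime_scaleCon {L n r : α → ℕ} {c : α → Con} (hL : PTime L) (hn : PTime n)
    (hr : PTime r) (hc : PTime c) :
    PTime (fun x => scaleCon (L x) (n x) (r x) (c x)) := by
  have A : PTime (fun p : α × ℕ =>
      [Con.mul (mv (L p.1 + 1 + p.2)) 0 (mv (L p.1))]) := by
    have l : PTime (fun p : α × ℕ => L p.1) := hL.comp PTime.fst
    exact ptime_list1 (ptime_con_mul (ptime_mv (l.succ.add PTime.snd)) (PTime.const 0)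
      (ptime_mv l))
  have l : PTime (fun p : α × (ℕ × (ℕ × ℕ)) => L p.1) := hL.comp PTime.fst
  have n' : PTime (fun p : α × (ℕ × (ℕ × ℕ)) => n p.1) := hn.comp PTime.fst
  have r' : PTime (fun p : α × (ℕ × (ℕ × ℕ)) => r p.1) := hr.comp PTime.fst
  have e2 : PTime (fun p : α × (ℕ × (ℕ × ℕ)) => p.2) := PTime.snd
  have i : PTime (fun p : α × (ℕ × (ℕ × ℕ)) => mv (L p.1 + 1 + p.2.1)) :=
    ptime_mv (l.succ.add (PTime.fst.comp e2))
  have j : PTime (fun p : α × (ℕ × (ℕ × ℕ)) => mv (L p.1 + 1 + p.2.2.1)) :=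
    ptime_mv (l.succ.add (PTime.fst.comp (PTime.snd.comp e2)))
  have k : PTime (fun p : α × (ℕ × (ℕ × ℕ)) => mv (L p.1 + 1 + p.2.2.2)) :=
    ptime_mv (l.succ.add (PTime.snd.comp (PTime.snd.comp e2)))
  have q : PTime (fun p : α × (ℕ × (ℕ × ℕ)) => mv (L p.1 + 1 + n p.1 + r p.1)) :=
    ptime_mv ((l.succ.add n').add r')
  have B : PTime (fun p : α × (ℕ × (ℕ × ℕ)) =>
      [Con.add (mv (L p.1 + 1 + p.2.1)) (mv (L p.1 + 1 + p.2.2.1)) (mv (L p.1 + 1 + p.2.2.2))]) :=
    ptime_list1 (ptime_con_add i j k)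
  have C : PTime (fun p : α × (ℕ × (ℕ × ℕ)) =>
      [Con.mul (mv (L p.1 + 1 + p.2.1)) (mv (L p.1 + 1 + p.2.2.1)) (mv (L p.1 + 1 + n p.1 + r p.1)),
        Con.mul (mv (L p.1)) (mv (L p.1 + 1 + p.2.2.2)) (mv (L p.1 + 1 + n p.1 + r p.1))]) :=
    (ptime_con_mul i j q).cons (ptime_list1 (ptime_con_mul (ptime_mv l) k q))
  refine (ptime_con_cases hc (A := fun x i => [Con.mul (mv (L x + 1 + i)) 0 (mv (L x))])
    (B := fun x i j l =>
      [Con.add (mv (L x + 1 + i)) (mv (L x + 1 + j)) (mv (L x + 1 + l))])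
    (C := fun x i j l => [Con.mul (mv (L x + 1 + i)) (mv (L x + 1 + j)) (mv (L x + 1 + n x + r x)),
        Con.mul (mv (L x)) (mv (L x + 1 + l)) (mv (L x + 1 + n x + r x))]) A B C).of_eq
    fun x => ?_
  cases c x <;> rfl

theorem ptime_numMain {n m : α → ℕ} (hn : PTime n) (hm : PTime m) :
    PTime (fun x => numMain (n x) (m x)) :=
  (((ptime_gapExp hn hm).add (PTime.const 1)).add hn).add hm

theorem ptime_boundNum {n : α → ℕ} {S : α → List Con} (hn : PTime n) (hS : PTime S) :
    PTime (fun x => boundNum (n x) (S x)) :=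
  ((PTime.const 4).mul (ptime_numMain hn hS.length)).add (PTime.const 1)

theorem ptime_boundSys {n : α → ℕ} {S : α → List Con} (hn : PTime n) (hS : PTime S) :
    PTime (fun x => boundSys (n x) (S x)) := by
  have L : PTime (fun x => gapExp (n x) (S x).length) := ptime_gapExp hn hS.length
  have h1 : PTime (fun _ : α => [Con.one 0, Con.add (mv 0) (mv 0) 0]) := PTime.const _
  have h2 : PTime (fun x => (List.range (gapExp (n x) (S x).length)).map
      fun t => Con.mul (mv t) (mv t) (mv (t + 1))) := by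
    have e : PTime (fun p : α × ℕ => p.2) := PTime.snd
    exact PTime.map (g := fun (_ : α) (t : ℕ) => Con.mul (mv t) (mv t) (mv (t + 1))) (PTime.range L)
      (ptime_con_mul (ptime_mv e) (ptime_mv e) (ptime_mv e.succ))
  have h3 : PTime (fun x => (S x).zipIdx.flatMap
      fun p => scaleCon (gapExp (n x) (S x).length) (n x) p.2 p.1) := by
    have e : PTime (fun p : α × (Con × ℕ) => p.2) := PTime.snd
    exact PTime.flatMap (g := fun (x : α) (p : Con × ℕ) =>
        scaleCon (gapExp (n x) (S x).length) (n x) p.2 p.1) hS.zipIdx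
      (ptime_scaleCon (L.comp PTime.fst) (hn.comp PTime.fst) (PTime.snd.comp e)
        (PTime.fst.comp e))
  have h4 : PTime (fun x => (List.range (numMain (n x) (S x).length)).flatMap fun j =>
      [Con.mul (4*j+1) (4*j+1) (4*j+3), .mul (4*j+2) (4*j+2) (4*j+4),
        .add (4*j+3) (4*j+4) 0]) := by
    have e : PTime (fun p : α × ℕ => 4 * p.2) := (PTime.const 4).mul PTime.snd
    have v : ∀ i, PTime (fun p : α × ℕ => 4 * p.2 + i) := fun i => e.add (PTime.const i)
    exact PTime.flatMap (g := fun (_ : α) (j : ℕ) =>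
      [Con.mul (4*j+1) (4*j+1) (4*j+3), .mul (4*j+2) (4*j+2) (4*j+4), .add (4*j+3) (4*j+4) 0])
      (PTime.range (ptime_numMain hn hS.length))
      ((ptime_con_mul (v 1) (v 1) (v 3)).cons ((ptime_con_mul (v 2) (v 2) (v 4)).cons
        (ptime_list1 (ptime_con_add (v 3) (v 4) (PTime.const 0)))))
  exact ((h1.append h2).append h3).append h4

/-! ### Quantities -/

theorem ptime_list2 {f g : α → β} (hf : PTime f) (hg : PTime g) : PTime (fun a => [f a, g a]) :=
  hf.cons (ptime_list1 hg)

theorem ptime_sqUp {a b f : α → ℕ} (ha : PTime a) (hb : PTime b) (hf : PTime f) :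
    PTime (fun x => sqUp (a x) (b x) (f x)) :=
  ptime_list2 (ptime_qc_lin (ptime_list2 ha hb) (ptime_list2 hf (PTime.const 0)))
    (ptime_qc_sqG hf.succ hf)

theorem ptime_sqLow {a b f : α → ℕ} (ha : PTime a) (hb : PTime b) (hf : PTime f) :
    PTime (fun x => sqLow (a x) (b x) (f x)) :=
  ptime_list2 (ptime_qc_lin (ptime_list2 hf (PTime.const 0)) (ptime_list2 ha hb))
    (ptime_qc_sqL hf.succ hf)

theorem ptime_auxBase {n L q : α → ℕ} (hn : PTime n) (hL : PTime L) (hq : PTime q) :
    PTime (fun x => auxBase (n x) (L x) (q x)) :=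
  (((PTime.const 4).add hn).add (hL.add (PTime.const 2))).add ((PTime.const 28).mul hq)

theorem ptime_chainQC {n L t : α → ℕ} (hn : PTime n) (hL : PTime L) (ht : PTime t) :
    PTime (fun x => chainQC (n x) (L x) (t x)) := by
  have g : PTime (fun x => 4 + n x + t x) := ((PTime.const 4).add hn).add ht
  have f : PTime (fun x => auxBase (n x) (L x) (t x)) := ptime_auxBase hn hL ht
  have c0 : PTime (fun _ : α => (0 : ℕ)) := PTime.const 0
  have c2 : PTime (fun _ : α => (2 : ℕ)) := PTime.const 2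
  have v : ∀ i, PTime (fun x => auxBase (n x) (L x) (t x) + i) := fun i => f.add (PTime.const i)
  have l1 : PTime (fun x => QC.lin [auxBase (n x) (L x) (t x) + 1, 0, 0, 0]
      [auxBase (n x) (L x) (t x) + 3, auxBase (n x) (L x) (t x) + 3,
        auxBase (n x) (L x) (t x) + 5, auxBase (n x) (L x) (t x) + 7]) :=
    ptime_qc_lin ((v 1).cons (c0.cons (ptime_list2 c0 c0)))
      ((v 3).cons ((v 3).cons (ptime_list2 (v 5) (v 7))))
  have l2 : PTime (fun x => QC.lin [0] [4 + n x + t x]) :=
    ptime_qc_lin (ptime_list1 c0) (ptime_list1 g)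
  exact ((((ptime_sqUp g.succ c2 f).append (ptime_sqLow g c0 (v 2))).append
    (ptime_sqLow g.succ c0 (v 4))).append (ptime_sqLow c2 c0 (v 6))).append (ptime_list2 l1 l2)

theorem ptime_conQC {n L r : α → ℕ} {c : α → Con} (hn : PTime n) (hL : PTime L)
    (hr : PTime r) (hc : PTime c) :
    PTime (fun x => conQC (n x) (L x) (r x) (c x)) := by
  have A : PTime (fun p : α × ℕ =>
      [QC.lin [4 + p.2, 0, 0] [1, 2, 4 + n p.1 + L p.1 + 1],
        .lin [1, 2] [4 + p.2, 4 + n p.1 + L p.1 + 1]]) := by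
    have c : ∀ i, PTime (fun _ : α × ℕ => (i : ℕ)) := PTime.const
    have i : PTime (fun p : α × ℕ => 4 + p.2) := (c 4).add PTime.snd
    have g : PTime (fun p : α × ℕ => 4 + n p.1 + L p.1 + 1) :=
      (((c 4).add (hn.comp PTime.fst)).add (hL.comp PTime.fst)).add (c 1)
    exact ptime_list2 (ptime_qc_lin (i.cons (ptime_list2 (c 0) (c 0)))
      ((c 1).cons (ptime_list2 (c 2) g))) (ptime_qc_lin (ptime_list2 (c 1) (c 2))
        (ptime_list2 i g))
  have c' : ∀ i, PTime (fun _ : α × (ℕ × (ℕ × ℕ)) => (i : ℕ)) := PTime.const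
  have e2 : PTime (fun p : α × (ℕ × (ℕ × ℕ)) => p.2) := PTime.snd
  have i : PTime (fun p : α × (ℕ × (ℕ × ℕ)) => 4 + p.2.1) := (c' 4).add (PTime.fst.comp e2)
  have j : PTime (fun p : α × (ℕ × (ℕ × ℕ)) => 4 + p.2.2.1) :=
    (c' 4).add (PTime.fst.comp (PTime.snd.comp e2))
  have l : PTime (fun p : α × (ℕ × (ℕ × ℕ)) => 4 + p.2.2.2) :=
    (c' 4).add (PTime.snd.comp (PTime.snd.comp e2))
  have g : PTime (fun p : α × (ℕ × (ℕ × ℕ)) => 4 + n p.1 + L p.1 + 1) :=
    (((c' 4).add (hn.comp PTime.fst)).add (hL.comp PTime.fst)).add (c' 1)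
  have B : PTime (fun p : α × (ℕ × (ℕ × ℕ)) =>
      [QC.lin [4 + p.2.1, 4 + p.2.2.1, 0] [4 + p.2.2.2, 1, 4 + n p.1 + L p.1 + 1],
        .lin [4 + p.2.2.2, 1, 0] [4 + p.2.1, 4 + p.2.2.1, 4 + n p.1 + L p.1 + 1]]) :=
    ptime_list2 (ptime_qc_lin (i.cons (ptime_list2 j (c' 0)))
      (l.cons (ptime_list2 (c' 1) g)))
      (ptime_qc_lin (l.cons (ptime_list2 (c' 1) (c' 0))) (i.cons (ptime_list2 j g)))
  have f : PTime (fun p : α × (ℕ × (ℕ × ℕ)) => auxBase (n p.1) (L p.1) (L p.1 + 1 + r p.1)) :=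
    ptime_auxBase (hn.comp PTime.fst) (hL.comp PTime.fst)
      (((hL.comp PTime.fst).add (c' 1)).add (hr.comp PTime.fst))
  have v : ∀ m, PTime (fun p : α × (ℕ × (ℕ × ℕ)) =>
      auxBase (n p.1) (L p.1) (L p.1 + 1 + r p.1) + m) := fun m => f.add (c' m)
  have l1 : PTime (fun p : α × (ℕ × (ℕ × ℕ)) =>
      QC.lin [auxBase (n p.1) (L p.1) (L p.1 + 1 + r p.1) + 1,
        auxBase (n p.1) (L p.1) (L p.1 + 1 + r p.1) + 3,
        auxBase (n p.1) (L p.1) (L p.1 + 1 + r p.1) + 3,
        auxBase (n p.1) (L p.1) (L p.1 + 1 + r p.1) + 3,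
        auxBase (n p.1) (L p.1) (L p.1 + 1 + r p.1) + 5,
        auxBase (n p.1) (L p.1) (L p.1 + 1 + r p.1) + 7]
        [auxBase (n p.1) (L p.1) (L p.1 + 1 + r p.1) + 23,
        auxBase (n p.1) (L p.1) (L p.1 + 1 + r p.1) + 25,
        auxBase (n p.1) (L p.1) (L p.1 + 1 + r p.1) + 27, 3, 0, 0]) :=
    ptime_qc_lin ((v 1).cons ((v 3).cons ((v 3).cons ((v 3).cons (ptime_list2 (v 5) (v 7))))))
      ((v 23).cons ((v 25).cons ((v 27).cons ((c' 3).cons (ptime_list2 (c' 0) (c' 0))))))
  have l2 : PTime (fun p : α × (ℕ × (ℕ × ℕ)) =>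
      QC.lin [auxBase (n p.1) (L p.1) (L p.1 + 1 + r p.1) + 9,
        auxBase (n p.1) (L p.1) (L p.1 + 1 + r p.1) + 11,
        auxBase (n p.1) (L p.1) (L p.1 + 1 + r p.1) + 13, 0, 0, 0, 0]
        [auxBase (n p.1) (L p.1) (L p.1 + 1 + r p.1) + 15,
        auxBase (n p.1) (L p.1) (L p.1 + 1 + r p.1) + 17,
        auxBase (n p.1) (L p.1) (L p.1 + 1 + r p.1) + 17,
        auxBase (n p.1) (L p.1) (L p.1 + 1 + r p.1) + 17,
        auxBase (n p.1) (L p.1) (L p.1 + 1 + r p.1) + 19,
        auxBase (n p.1) (L p.1) (L p.1 + 1 + r p.1) + 21, 3]) :=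
    ptime_qc_lin ((v 9).cons ((v 11).cons ((v 13).cons ((c' 0).cons ((c' 0).cons
      (ptime_list2 (c' 0) (c' 0)))))))
      ((v 15).cons ((v 17).cons ((v 17).cons ((v 17).cons ((v 19).cons
        (ptime_list2 (v 21) (c' 3)))))))
  have C := ((((((((((((((ptime_sqUp i j f).append (ptime_sqUp (c' 1) (c' 0) (v 2))).append
    (ptime_sqUp (c' 2) (c' 1) (v 4))).append (ptime_sqUp l (c' 0) (v 6))).append
    (ptime_sqUp (c' 1) i (v 8))).append (ptime_sqUp (c' 1) j (v 10))).append
    (ptime_sqUp (c' 2) l (v 12))).append (ptime_sqLow i j (v 14))).append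
    (ptime_sqLow (c' 1) (c' 0) (v 16))).append (ptime_sqLow (c' 2) (c' 1) (v 18))).append
    (ptime_sqLow l (c' 0) (v 20))).append (ptime_sqLow (c' 1) i (v 22))).append
    (ptime_sqLow (c' 1) j (v 24))).append (ptime_sqLow (c' 2) l (v 26))).append
    (ptime_list2 l1 l2)
  refine (ptime_con_cases hc (A := fun x i =>
      [QC.lin [4 + i, 0, 0] [1, 2, 4 + n x + L x + 1],
        .lin [1, 2] [4 + i, 4 + n x + L x + 1]])
    (B := fun x i j l => [QC.lin [4 + i, 4 + j, 0] [4 + l, 1, 4 + n x + L x + 1],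
        .lin [4 + l, 1, 0] [4 + i, 4 + j, 4 + n x + L x + 1]])
    (C := fun x i j l => conQC (n x) (L x) (r x) (.mul i j l)) A B C).of_eq
    fun x => ?_
  cases c x <;> rfl

theorem ptime_quantSys {n L : α → ℕ} {S : α → List Con} (hn : PTime n) (hL : PTime L)
    (hS : PTime S) : PTime (fun x => quantSys (n x) (L x) (S x)) := by
  have c : ∀ i, PTime (fun _ : α => (i : ℕ)) := PTime.const
  have n4 : PTime (fun x => 4 + n x) := (c 4).add hn
  have g : PTime (fun x => 4 + n x + L x + 1) := ((n4.add hL).add (c 1))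
  have h1 : PTime (fun x => [QC.lin [0] [1], .lin [0] [2], .lin [0] [3], .lin [2, 2] [1, 0],
      .lin [4 + n x, 4 + n x] [2, 0], .lin [0] [4 + n x + L x + 1],
      .sqL 3 (4 + n x + L x + 1)]) :=
    (PTime.const (QC.lin [0] [1])).cons ((PTime.const (QC.lin [0] [2])).cons
      ((PTime.const (QC.lin [0] [3])).cons ((PTime.const (QC.lin [2, 2] [1, 0])).cons
        ((ptime_qc_lin (ptime_list2 n4 n4) (ptime_list2 (c 2) (c 0))).cons
          (ptime_list2 (ptime_qc_lin (ptime_list1 (c 0)) (ptime_list1 g))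
            (ptime_qc_sqL (c 3) g))))))
  have h2 : PTime (fun x => (List.range (n x)).map fun i => QC.lin [0] [4 + i]) := by
    have e : PTime (fun p : α × ℕ => 4 + p.2) := (PTime.const 4).add PTime.snd
    exact PTime.map (g := fun (_ : α) (i : ℕ) => QC.lin [0] [4 + i]) (PTime.range hn)
      (ptime_qc_lin (PTime.const [0]) (ptime_list1 e))
  have h3 : PTime (fun x => (List.range (L x + 1)).flatMap fun t => chainQC (n x) (L x) t) :=
    PTime.flatMap (g := fun x t => chainQC (n x) (L x) t) (PTime.range hL.succ)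
      (ptime_chainQC (hn.comp PTime.fst) (hL.comp PTime.fst) PTime.snd)
  have h4 : PTime (fun x => (S x).zipIdx.flatMap fun p => conQC (n x) (L x) p.2 p.1) := by
    have e : PTime (fun p : α × (Con × ℕ) => p.2) := PTime.snd
    exact PTime.flatMap (g := fun (x : α) (p : Con × ℕ) => conQC (n x) (L x) p.2 p.1) hS.zipIdx
      (ptime_conQC (hn.comp PTime.fst) (hL.comp PTime.fst) (PTime.snd.comp e)
        (PTime.fst.comp e))
  exact ((h1.append h2).append h3).append h4

theorem ptime_quantNum {n L : α → ℕ} {S : α → List Con} (hn : PTime n) (hL : PTime L)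
    (hS : PTime S) : PTime (fun x => quantNum (n x) (L x) (S x)) :=
  ptime_auxBase hn hL ((hL.add (PTime.const 1)).add hS.length)

/-! ### Slopes -/

theorem ptime_linTC {b : α → ℕ} {I J : α → List ℕ} (hb : PTime b) (hI : PTime I)
    (hJ : PTime J) : PTime (fun x => linTC (b x) (I x) (J x)) := by
  have h1 : PTime (fun x => (I x).zipIdx.map fun p => TC.add p.1 (b x + p.2) 1) := by
    have e : PTime (fun p : α × (ℕ × ℕ) => p.2) := PTime.snd
    exact PTime.map (g := fun (x : α) (p : ℕ × ℕ) => TC.add p.1 (b x + p.2) 1) hI.zipIdx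
      (ptime_tc_add (PTime.fst.comp e) ((hb.comp PTime.fst).add (PTime.snd.comp e))
        (PTime.const 1))
  have f : PTime (fun x => b x + (I x).length + 1) := (hb.add hI.length).add (PTime.const 1)
  have h2 : PTime (fun x => (J x).zipIdx.map fun p =>
      TC.add (b x + (I x).length + 1 + p.2) p.1 1) := by
    have e : PTime (fun p : α × (ℕ × ℕ) => p.2) := PTime.snd
    exact PTime.map (g := fun (x : α) (p : ℕ × ℕ) => TC.add (b x + (I x).length + 1 + p.2) p.1 1)
      hJ.zipIdx (ptime_tc_add ((f.comp PTime.fst).add (PTime.snd.comp e)) (PTime.fst.comp e)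
        (PTime.const 1))
  exact (h1.append h2).append (ptime_list1 (ptime_tc_add hb f hI.length))

theorem ptime_qcTC {b : α → ℕ} {q : α → QC} (hb : PTime b) (hq : PTime q) :
    PTime (fun x => qcTC (b x) (q x)) := by
  have A : PTime (fun p : α × (List ℕ × List ℕ) => linTC (b p.1) p.2.1 p.2.2) := by
    have e : PTime (fun p : α × (List ℕ × List ℕ) => p.2) := PTime.snd
    exact ptime_linTC (hb.comp PTime.fst) (PTime.fst.comp e) (PTime.snd.comp e)
  have c : ∀ i, PTime (fun _ : α × (ℕ × ℕ) => (i : ℕ)) := PTime.const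
  have e : PTime (fun p : α × (ℕ × ℕ) => p.2) := PTime.snd
  have w : PTime (fun p : α × (ℕ × ℕ) => p.2.1) := PTime.fst.comp e
  have d : PTime (fun p : α × (ℕ × ℕ) => p.2.2) := PTime.snd.comp e
  have b' : PTime (fun p : α × (ℕ × ℕ) => b p.1) := hb.comp PTime.fst
  have v : ∀ i, PTime (fun p : α × (ℕ × ℕ) => b p.1 + i) := fun i => b'.add (c i)
  have B := (((ptime_tc_add (c 0) b' (c 1)).cons ((ptime_tc_add b' (v 6) (c 1)).cons
    ((ptime_tc_add (v 6) (v 1) (c 1)).cons (ptime_list2 (ptime_tc_add (v 1) d (c 1))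
      (ptime_tc_mulL b')))))).append
    (ptime_linTC (v 8) (w.cons ((v 1).cons (ptime_list2 (v 1) (v 1))))
      (b'.cons ((v 2).cons (ptime_list2 (v 3) (c 0)))))
  have C := (((ptime_tc_add b' (c 0) (c 1)).cons ((ptime_tc_add (c 0) (v 6) (c 1)).cons
    ((ptime_tc_add (v 6) d (c 1)).cons (ptime_list2 (ptime_tc_add d (v 1) (c 1))
      (ptime_tc_mulG b')))))).append
    (ptime_linTC (v 8) (b'.cons ((v 2).cons (ptime_list2 (v 3) (c 0))))
      (w.cons ((v 1).cons (ptime_list2 (v 1) (v 1)))))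
  refine (ptime_qc_cases hq (A := fun x I J => linTC (b x) I J)
    (B := fun x w d => qcTC (b x) (.sqL w d))
    (C := fun x w d => qcTC (b x) (.sqG w d)) A B C).of_eq fun x => ?_
  cases q x <;> rfl

theorem ptime_slopeSys {n : α → ℕ} {Q : α → List QC} (hn : PTime n) (hQ : PTime Q) :
    PTime (fun x => slopeSys (n x) (Q x)) := by
  have e : PTime (fun p : α × (QC × ℕ) => p.2) := PTime.snd
  have b : PTime (fun p : α × (QC × ℕ) => n p.1 + 2 + 20 * p.2.2) :=
    ((hn.comp PTime.fst).add (PTime.const 2)).add ((PTime.const 20).mul (PTime.snd.comp e))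
  exact PTime.flatMap (g := fun (x : α) (p : QC × ℕ) => qcTC (n x + 2 + 20 * p.2) p.1) hQ.zipIdx
    (ptime_qcTC b (PTime.fst.comp e))

theorem ptime_slopeNum {n : α → ℕ} {Q : α → List QC} (hn : PTime n) (hQ : PTime Q) :
    PTime (fun x => slopeNum (n x) (Q x)) :=
  (hn.add (PTime.const 2)).add ((PTime.const 20).mul hQ.length)

/-! ### The composed reduction -/

theorem ptime_bSys {f : α → List (ℕ × List Bool)} (hf : PTime f) : PTime (fun x => bSys (f x)) :=
  ptime_boundSys (ptime_sysNum hf) (ptime_sysOf hf)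

theorem ptime_bNum {f : α → List (ℕ × List Bool)} (hf : PTime f) : PTime (fun x => bNum (f x)) :=
  ptime_boundNum (ptime_sysNum hf) (ptime_sysOf hf)

theorem ptime_bExp {f : α → List (ℕ × List Bool)} (hf : PTime f) : PTime (fun x => bExp (f x)) :=
  ptime_gapExp (ptime_bNum hf) (ptime_bSys hf).length

theorem ptime_quantN {f : α → List (ℕ × List Bool)} (hf : PTime f) :
    PTime (fun x => quantNum (bNum (f x)) (bExp (f x)) (bSys (f x))) :=
  ptime_quantNum (ptime_bNum hf) (ptime_bExp hf) (ptime_bSys hf)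

theorem ptime_quantS {f : α → List (ℕ × List Bool)} (hf : PTime f) :
    PTime (fun x => quantSys (bNum (f x)) (bExp (f x)) (bSys (f x))) :=
  ptime_quantSys (ptime_bNum hf) (ptime_bExp hf) (ptime_bSys hf)

theorem inst_ptime : PTime (fun toks : List (ℕ × List Bool) => (instK toks, instCs toks)) :=
  (ptime_slopeNum (ptime_quantN PTime.id) (ptime_quantS PTime.id)).pair
    (ptime_slopeSys (ptime_quantN PTime.id) (ptime_quantS PTime.id))

end

end Pool.Agent.Lib.MP_612bca_lc
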