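import Pool.Agent.Lib.MP_612bca_lc.Gap1
import Pool.Agent.Lib.MP_612bca_lc.AlgDefs

/-!
# Gap theorems for polynomial systems

`gap_bounded`: a solvable system has a solution of doubly exponential size. `gap_lower`: an
unsolvable system all of whose approximate solutions are bounded has a defect bounded from below.
-/

namespace Pool.Agent.Lib.MP_612bca_lc

/-- Extension by zero. -/
def g2ext (n : ℕ) (z : Fin n → ℝ) : ℕ → ℝ := fun i => if h : i < n then z ⟨i, h⟩ else 0

/-- Polynomial functions with integer coefficients, degree at most `d`, l1 norm at most `A`. -/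
def G2Rep (n d A : ℕ) (f : (Fin n → ℝ) → ℝ) : Prop :=
  ∃ (J : Type) (_ : Fintype J) (a : J → ℤ) (γ : J → Fin n → ℕ), (∀ j, ∑ s, γ j s ≤ d) ∧
    ∑ j, |a j| ≤ A ∧ ∀ z, f z = ∑ j, (a j : ℝ) * ∏ s, z s ^ γ j s

namespace G2Rep
variable {n : ℕ}

theorem mono {d A d' A' : ℕ} {f : (Fin n → ℝ) → ℝ} (h : G2Rep n d A f) (hd : d ≤ d')
    (hA : A ≤ A') : G2Rep n d' A' f := by
  obtain ⟨J, _, a, γ, h1, h2, h3⟩ := h
  exact ⟨J, _, a, γ, fun j => (h1 j).trans hd, h2.trans (by exact_mod_cast hA), h3⟩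

theorem const (c : ℤ) : G2Rep n 0 c.natAbs (fun _ => (c : ℝ)) :=
  ⟨Unit, inferInstance, fun _ => c, fun _ _ => 0, by simp, by simp, by simp⟩

theorem coord (i : Fin n) : G2Rep n 1 1 (fun z => z i) := by
  refine ⟨Unit, inferInstance, fun _ => 1, fun _ s => if s = i then 1 else 0, by simp, by simp, ?_⟩
  intro z
  simp

theorem ext (i : ℕ) : G2Rep n 1 1 (fun z => g2ext n z i) := by
  by_cases h : i < n
  · simp only [g2ext, h, dite_true]
    exact coord _
  · simp only [g2ext, h, dite_false]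
    have := (const (n := n) 0).mono (d' := 1) (A' := 1) (by simp) (by simp)
    simpa using this

theorem add {d A B : ℕ} {f g : (Fin n → ℝ) → ℝ} (hf : G2Rep n d A f) (hg : G2Rep n d B g) :
    G2Rep n d (A + B) (fun z => f z + g z) := by
  obtain ⟨J, _, a, γ, h1, h2, h3⟩ := hf
  obtain ⟨J', _, a', γ', h1', h2', h3'⟩ := hg
  refine ⟨J ⊕ J', inferInstance, Sum.elim a a', Sum.elim γ γ', ?_, ?_, ?_⟩
  · rintro (j | j)
    · exact h1 j
    · exact h1' j
  · rw [Fintype.sum_sum_type]
    push_cast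
    exact add_le_add h2 h2'
  · intro z
    beta_reduce
    rw [Fintype.sum_sum_type, h3, h3']
    rfl

theorem mul {d e A B : ℕ} {f g : (Fin n → ℝ) → ℝ} (hf : G2Rep n d A f) (hg : G2Rep n e B g) :
    G2Rep n (d + e) (A * B) (fun z => f z * g z) := by
  obtain ⟨J, _, a, γ, h1, h2, h3⟩ := hf
  obtain ⟨J', _, a', γ', h1', h2', h3'⟩ := hg
  refine ⟨J × J', inferInstance, fun p => a p.1 * a' p.2, fun p s => γ p.1 s + γ' p.2 s, ?_, ?_, ?_⟩
  · rintro ⟨j, j'⟩
    rw [Finset.sum_add_distrib]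
    exact add_le_add (h1 j) (h1' j')
  · rw [Fintype.sum_prod_type]
    simp only [abs_mul]
    rw [← Finset.sum_mul_sum]
    push_cast
    exact mul_le_mul h2 h2' (Finset.sum_nonneg fun _ _ => abs_nonneg _) (by positivity)
  · intro z
    beta_reduce
    rw [Fintype.sum_prod_type, h3, h3', Finset.sum_mul_sum]
    apply Finset.sum_congr rfl
    intro j _
    apply Finset.sum_congr rfl
    intro j' _
    simp only [pow_add, Finset.prod_mul_distrib, Int.cast_mul]
    ring

theorem neg {d A : ℕ} {f : (Fin n → ℝ) → ℝ} (hf : G2Rep n d A f) :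
    G2Rep n d A (fun z => - f z) := by
  obtain ⟨J, _, a, γ, h1, h2, h3⟩ := hf
  refine ⟨J, _, fun j => - a j, γ, h1, by simpa using h2, ?_⟩
  intro z
  beta_reduce
  rw [h3, ← Finset.sum_neg_distrib]
  apply Finset.sum_congr rfl
  intro j _
  push_cast
  ring

theorem sub {d A B : ℕ} {f g : (Fin n → ℝ) → ℝ} (hf : G2Rep n d A f) (hg : G2Rep n d B g) :
    G2Rep n d (A + B) (fun z => f z - g z) := by
  simp only [sub_eq_add_neg]
  exact hf.add hg.neg

theorem list {α : Type*} {d A : ℕ} (S : List α) (f : α → (Fin n → ℝ) → ℝ)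
    (h : ∀ c ∈ S, G2Rep n d A (f c)) :
    G2Rep n d (A * S.length) (fun z => (S.map fun c => f c z).sum) := by
  induction S with
  | nil =>
    have := (const (n := n) 0).mono (d' := d) (A' := 0) (by simp) (by simp)
    simpa using this
  | cons c S ih =>
    simp only [List.map_cons, List.sum_cons, List.length_cons]
    have h1 := (h c (by simp)).add (ih fun c hc => h c (by simp [hc]))
    exact h1.mono le_rfl (by rw [mul_add, mul_one, add_comm])

end G2Rep

/-- The function `∑ c.val ^ 2`. -/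
noncomputable def g2F (n : ℕ) (S : List Con) (z : Fin n → ℝ) : ℝ :=
  (S.map fun c => c.val (g2ext n z) * c.val (g2ext n z)).sum

theorem g2_val (n : ℕ) (c : Con) : G2Rep n 2 3 (fun z => c.val (g2ext n z)) := by
  have hc : ∀ i, G2Rep n 2 1 (fun z => g2ext n z i) := fun i => (G2Rep.ext i).mono (by norm_num) le_rfl
  cases c with
  | one i =>
    have h1 := (hc i).sub ((G2Rep.const (n := n) 1).mono (d' := 2) (A' := 1) (by simp) (by simp))
    simp only [Con.val]
    simpa using h1.mono le_rfl (show 1 + 1 ≤ 3 by norm_num)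
  | add i j l =>
    simp only [Con.val]
    exact ((hc i).add (hc j)).sub (hc l)
  | mul i j l =>
    simp only [Con.val]
    exact (((G2Rep.ext i).mul (G2Rep.ext j)).sub (hc l)).mono le_rfl (by norm_num)

theorem g2_F (n : ℕ) (S : List Con) : G2Rep n 4 (9 * S.length) (g2F n S) := by
  apply G2Rep.list S (fun c z => c.val (g2ext n z) * c.val (g2ext n z))
  intro c _
  exact (g2_val n c).mul (g2_val n c)

/-- Derivative of `z i` in the direction `k`. -/
def g2d (k i : ℕ) : ℝ := if i = k then 1 else 0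

/-- Derivative of a constraint. -/
noncomputable def g2D (k : ℕ) (z : ℕ → ℝ) : Con → ℝ
  | .one i => g2d k i
  | .add i j l => g2d k i + g2d k j - g2d k l
  | .mul i j l => g2d k i * z j + z i * g2d k j - g2d k l

theorem g2_d (n : ℕ) (k i : ℕ) : G2Rep n 0 1 (fun _ => g2d k i) := by
  unfold g2d
  split_ifs
  · simpa using G2Rep.const (n := n) 1
  · simpa using (G2Rep.const (n := n) 0).mono (A' := 1) le_rfl (by simp)

theorem g2_D (n k : ℕ) (c : Con) : G2Rep n 1 3 (fun z => g2D k (g2ext n z) c) := by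
  have hd : ∀ i, G2Rep n 1 1 (fun _ => g2d k i) := fun i => (g2_d n k i).mono (by norm_num) le_rfl
  cases c with
  | one i => exact (hd i).mono le_rfl (by norm_num)
  | add i j l => exact ((hd i).add (hd j)).sub (hd l)
  | mul i j l =>
    have h1 := ((g2_d n k i).mul (G2Rep.ext (n := n) j)).mono (d' := 1) (A' := 1) (by norm_num)
      (by norm_num)
    have h2 := ((G2Rep.ext (n := n) i).mul (g2_d n k j)).mono (d' := 1) (A' := 1) (by norm_num)
      (by norm_num)
    exact (h1.add h2).sub (hd l)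

/-- Partial derivative of `g2F`. -/
noncomputable def g2dF (n k : ℕ) (S : List Con) (z : Fin n → ℝ) : ℝ :=
  (S.map fun c => 2 * (c.val (g2ext n z) * g2D k (g2ext n z) c)).sum

theorem g2_dF (n k : ℕ) (S : List Con) : G2Rep n 3 (18 * S.length) (g2dF n k S) := by
  apply G2Rep.list S (fun c z => 2 * (c.val (g2ext n z) * g2D k (g2ext n z) c))
  intro c _
  have h1 : G2Rep n 0 2 (fun _ => (2 : ℝ)) := by simpa using G2Rep.const (n := n) 2
  exact (h1.mul ((g2_val n c).mul (g2_D n k c))).mono (by norm_num) (by norm_num)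

theorem g2_hasDerivAt_ext (n : ℕ) (z : Fin n → ℝ) (k : Fin n) (i : ℕ) :
    HasDerivAt (fun x => g2ext n (Function.update z k x) i) (g2d k i) (z k) := by
  unfold g2ext g2d
  by_cases h : i < n
  · simp only [h, dite_true]
    by_cases hik : (⟨i, h⟩ : Fin n) = k
    · subst hik
      simp only [Function.update_self, ite_true]
      exact hasDerivAt_id _
    · have h' : i ≠ k := fun h' => hik (Fin.ext h')
      rw [if_neg h']
      simp only [Function.update_of_ne hik]
      exact hasDerivAt_const _ _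
  · simp only [h, dite_false]
    have h' : i ≠ k := fun h' => h (h' ▸ k.isLt)
    rw [if_neg h']
    exact hasDerivAt_const _ _

theorem g2_hasDerivAt_val (n : ℕ) (z : Fin n → ℝ) (k : Fin n) (c : Con) :
    HasDerivAt (fun x => c.val (g2ext n (Function.update z k x))) (g2D k (g2ext n z) c) (z k) := by
  have hz : Function.update z k (z k) = z := Function.update_eq_self _ _
  cases c with
  | one i => exact (g2_hasDerivAt_ext n z k i).sub_const 1
  | add i j l =>
    exact ((g2_hasDerivAt_ext n z k i).add (g2_hasDerivAt_ext n z k j)).sub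
      (g2_hasDerivAt_ext n z k l)
  | mul i j l =>
    have h := ((g2_hasDerivAt_ext n z k i).mul (g2_hasDerivAt_ext n z k j)).sub
      (g2_hasDerivAt_ext n z k l)
    rw [hz] at h
    exact h

theorem g2_hasDerivAt_F (n : ℕ) (z : Fin n → ℝ) (k : Fin n) (S : List Con) :
    HasDerivAt (fun x => g2F n S (Function.update z k x)) (g2dF n k S z) (z k) := by
  have hz : Function.update z k (z k) = z := Function.update_eq_self _ _
  unfold g2F g2dF
  induction S with
  | nil => exact hasDerivAt_const _ _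
  | cons c S ih =>
    simp only [List.map_cons, List.sum_cons]
    have h := (g2_hasDerivAt_val n z k c).fun_mul (g2_hasDerivAt_val n z k c)
    rw [hz] at h
    exact (h.fun_add ih).congr_deriv (by ring)

theorem g2_continuous_val (n : ℕ) (c : Con) : Continuous fun z => c.val (g2ext n z) := by
  have h : ∀ i, Continuous fun z => g2ext n z i := by
    intro i
    unfold g2ext
    by_cases h : i < n
    · simp only [h, dite_true]
      exact continuous_apply _
    · simp only [h, dite_false]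
      exact continuous_const
  cases c with
  | one i => exact (h i).sub continuous_const
  | add i j l => exact ((h i).add (h j)).sub (h l)
  | mul i j l => exact ((h i).mul (h j)).sub (h l)

theorem g2_continuous_F (n : ℕ) (S : List Con) : Continuous (g2F n S) := by
  unfold g2F
  induction S with
  | nil => exact continuous_const
  | cons c S ih =>
    simp only [List.map_cons, List.sum_cons]
    exact ((g2_continuous_val n c).mul (g2_continuous_val n c)).add ih

theorem g2_F_nonneg (n : ℕ) (S : List Con) (z : Fin n → ℝ) : 0 ≤ g2F n S z := by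
  unfold g2F
  apply List.sum_nonneg
  intro x hx
  rw [List.mem_map] at hx
  obtain ⟨c, _, rfl⟩ := hx
  exact mul_self_nonneg _

theorem g2_F_le (n : ℕ) (S : List Con) (z : Fin n → ℝ) (c : Con) (hc : c ∈ S) :
    c.val (g2ext n z) ^ 2 ≤ g2F n S z := by
  unfold g2F
  rw [pow_two]
  apply List.single_le_sum (l := S.map fun c => c.val (g2ext n z) * c.val (g2ext n z))
  · intro x hx
    rw [List.mem_map] at hx
    obtain ⟨c, _, rfl⟩ := hx
    exact mul_self_nonneg _
  · exact List.mem_map_of_mem hc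

theorem g2_F_ge (n : ℕ) (S : List Con) (z : Fin n → ℝ) (B : ℝ)
    (h : ∀ c ∈ S, |c.val (g2ext n z)| ≤ B) : g2F n S z ≤ S.length * B ^ 2 := by
  unfold g2F
  induction S with
  | nil => simp
  | cons c S ih =>
    simp only [List.map_cons, List.sum_cons, List.length_cons]
    have h1 := ih fun c hc => h c (by simp [hc])
    have h2 := h c (by simp)
    have h3 : c.val (g2ext n z) * c.val (g2ext n z) ≤ B ^ 2 := by
      rw [← pow_two, ← sq_abs]
      exact pow_le_pow_left₀ (abs_nonneg _) h2 2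
    push_cast
    nlinarith

/-- The penalised function. -/
noncomputable def g2G (n : ℕ) (S : List Con) (N : ℕ) (z : Fin n → ℝ) : ℝ :=
  (N : ℝ) ^ 2 * g2F n S z + N * ∑ i, z i ^ 2 + ∑ i, z i ^ 6 / 6

theorem g2_exists_min (n : ℕ) (S : List Con) (N : ℕ) (hN : 1 ≤ N) :
    ∃ z, ∀ w, g2G n S N z ≤ g2G n S N w := by
  have hN' : (1 : ℝ) ≤ N := by exact_mod_cast hN
  have hcont : Continuous (g2G n S N) := by
    unfold g2G
    have := g2_continuous_F n S
    fun_prop
  apply hcont.exists_forall_le' (x₀ := 0)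
  have h1 := (tendsto_norm_cocompact_atTop (E := Fin n → ℝ)).eventually_ge_atTop
    (max 1 (g2G n S N 0))
  filter_upwards [h1] with z hz
  have h2 : ‖z‖ ^ 2 ≤ ∑ i, z i ^ 2 := by
    have hs : ‖z‖ ≤ Real.sqrt (∑ i, z i ^ 2) := by
      rw [pi_norm_le_iff_of_nonneg (Real.sqrt_nonneg _)]
      intro i
      apply Real.le_sqrt_of_sq_le
      rw [Real.norm_eq_abs, sq_abs]
      exact Finset.single_le_sum (f := fun i => z i ^ 2) (fun _ _ => sq_nonneg _)
        (Finset.mem_univ i)
    calc ‖z‖ ^ 2 ≤ Real.sqrt (∑ i, z i ^ 2) ^ 2 := pow_le_pow_left₀ (norm_nonneg _) hs 2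
      _ = _ := Real.sq_sqrt (Finset.sum_nonneg fun _ _ => sq_nonneg _)
  have h3 : (1 : ℝ) ≤ ‖z‖ := le_trans (le_max_left _ _) hz
  have h4 : g2G n S N 0 ≤ ‖z‖ := le_trans (le_max_right _ _) hz
  have h5 : 0 ≤ ∑ i, z i ^ 6 / 6 := Finset.sum_nonneg fun i _ => by positivity
  have h6 : 0 ≤ (N : ℝ) ^ 2 * g2F n S z := mul_nonneg (by positivity) (g2_F_nonneg n S z)
  have h7 : ∑ i, z i ^ 2 ≤ N * ∑ i, z i ^ 2 :=
    le_mul_of_one_le_left (Finset.sum_nonneg fun _ _ => sq_nonneg _) hN'
  have h8 : ‖z‖ ≤ ‖z‖ ^ 2 := by nlinarith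
  unfold g2G at h4 ⊢
  linarith

theorem g2_critical (n : ℕ) (S : List Con) (N : ℕ) (z : Fin n → ℝ)
    (hz : ∀ w, g2G n S N z ≤ g2G n S N w) (k : Fin n) :
    z k ^ 5 = - ((N : ℝ) ^ 2 * g2dF n k S z) - 2 * N * z k := by
  have hzu : Function.update z k (z k) = z := Function.update_eq_self _ _
  have h1 : HasDerivAt (fun x => g2G n S N (Function.update z k x))
      ((N : ℝ) ^ 2 * g2dF n k S z + N * (2 * z k) + z k ^ 5) (z k) := by
    unfold g2G
    have ha : ∀ m : ℕ, HasDerivAt (fun x => ∑ i, (Function.update z k x i) ^ (m + 1))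
        ((m + 1 : ℕ) * z k ^ m) (z k) := by
      intro m
      have hterm : ∀ i ∈ (Finset.univ : Finset (Fin n)), HasDerivAt
          (fun x => (Function.update z k x i) ^ (m + 1))
          (if i = k then (m + 1 : ℕ) * z k ^ m else 0) (z k) := by
        intro i _
        by_cases hik : i = k
        · subst hik
          simp only [Function.update_self, ite_true]
          have := hasDerivAt_pow (m + 1) (z i)
          simpa using this
        · rw [if_neg hik]
          simp only [Function.update_of_ne hik]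
          exact hasDerivAt_const _ _
      have := HasDerivAt.fun_sum hterm
      simpa using this
    have hb := ha 1
    have hc := ha 5
    have hd : HasDerivAt (fun x => ∑ i, (Function.update z k x i) ^ 6 / 6) (z k ^ 5) (z k) := by
      simp only [← Finset.sum_div]
      exact (hc.div_const 6).congr_deriv (by push_cast; ring)
    have he := (((g2_hasDerivAt_F n z k S).const_mul ((N : ℝ) ^ 2)).fun_add
      (hb.const_mul (N : ℝ))).fun_add hd
    exact he.congr_deriv (by push_cast; ring)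
  have h2 : IsLocalMin (fun x => g2G n S N (Function.update z k x)) (z k) := by
    apply Filter.Eventually.of_forall
    intro x
    beta_reduce
    rw [hzu]
    exact hz _
  have h3 := h2.hasDerivAt_eq_zero h1
  linarith

theorem g2_num (n m : ℕ) :
    (m + 1) * (2 * (18 * m + n + 10 + 1) ^ ((4 * n + 6) * 5 ^ n)) ≤ 2 ^ 2 ^ gapExp n m := by
  have hk : ∀ k : ℕ, k + 1 ≤ 2 ^ k := fun k => Nat.lt_two_pow_self
  have h1 : 18 * m + n + 10 + 1 ≤ 2 ^ (n + m + 5) := by
    have := hk (n + m)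
    rw [pow_add]
    omega
  have h2 : (4 * n + 6) * 5 ^ n ≤ 2 ^ (4 * n + 3) := by
    have h3 : 5 ^ n ≤ 2 ^ (3 * n) := by
      rw [pow_mul]
      exact Nat.pow_le_pow_left (by norm_num) n
    have h4 : 4 * n + 6 ≤ 2 ^ (n + 3) := by
      have := hk n
      rw [pow_add]
      omega
    calc (4 * n + 6) * 5 ^ n ≤ 2 ^ (n + 3) * 2 ^ (3 * n) := Nat.mul_le_mul h4 h3
      _ = 2 ^ (4 * n + 3) := by rw [← pow_add]; congr 1; ring
  have h5 : (18 * m + n + 10 + 1) ^ ((4 * n + 6) * 5 ^ n) ≤ 2 ^ 2 ^ (5 * n + m + 8) := by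
    calc (18 * m + n + 10 + 1) ^ ((4 * n + 6) * 5 ^ n)
        ≤ (2 ^ (n + m + 5)) ^ (2 ^ (4 * n + 3)) :=
          (Nat.pow_le_pow_left h1 _).trans (Nat.pow_le_pow_right (by positivity) h2)
      _ = 2 ^ ((n + m + 5) * 2 ^ (4 * n + 3)) := by rw [← pow_mul]
      _ ≤ 2 ^ (2 ^ (n + m + 5) * 2 ^ (4 * n + 3)) := by
          apply Nat.pow_le_pow_right (by norm_num)
          apply Nat.mul_le_mul_right
          have := hk (n + m + 5)
          omega
      _ = 2 ^ 2 ^ (5 * n + m + 8) := by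
          rw [← pow_add]; congr 2; ring
  have h6 : (m + 1) * 2 ≤ 2 ^ 2 ^ (5 * n + m + 8) := by
    have h7 := hk m
    have h8 := hk (m + 1)
    calc (m + 1) * 2 ≤ 2 ^ m * 2 := Nat.mul_le_mul_right _ h7
      _ = 2 ^ (m + 1) := by rw [pow_succ]
      _ ≤ 2 ^ 2 ^ (5 * n + m + 8) := by
        apply Nat.pow_le_pow_right (by norm_num)
        calc m + 1 ≤ 2 ^ (m + 1) := by omega
          _ ≤ 2 ^ (5 * n + m + 8) := Nat.pow_le_pow_right (by norm_num) (by omega)
  calc (m + 1) * (2 * (18 * m + n + 10 + 1) ^ ((4 * n + 6) * 5 ^ n))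
      = ((m + 1) * 2) * (18 * m + n + 10 + 1) ^ ((4 * n + 6) * 5 ^ n) := by ring
    _ ≤ 2 ^ 2 ^ (5 * n + m + 8) * 2 ^ 2 ^ (5 * n + m + 8) := Nat.mul_le_mul h6 h5
    _ = 2 ^ 2 ^ (5 * n + m + 9) := by
        rw [← pow_add, ← two_mul, ← pow_succ']
    _ ≤ 2 ^ 2 ^ gapExp n m := by
        apply Nat.pow_le_pow_right (by norm_num)
        apply Nat.pow_le_pow_right (by norm_num)
        unfold gapExp
        omega

/-- The key lemma applied to minimisers of the penalised function. -/
theorem g2_key (n : ℕ) (S : List Con) (Q : (Fin n → ℝ) → ℝ)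
    (hQ : G2Rep n 4 (18 * S.length + n + 10) Q) (z : ℕ → Fin n → ℝ) (N : ℕ → ℕ)
    (hN : Filter.Tendsto N Filter.atTop Filter.atTop)
    (hz : ∀ t w, g2G n S (N t) (z t) ≤ g2G n S (N t) w)
    (y : ℝ) (hy : Filter.Tendsto (fun t => Q (z t)) Filter.atTop (nhds y)) :
    |y| ≤ 2 * (((18 * S.length + n + 10 : ℕ) : ℝ) + 1) ^ ((4 * n + 6) * 5 ^ n) ∧
      (y ≠ 0 → 1 / (2 * (((18 * S.length + n + 10 : ℕ) : ℝ) + 1) ^ ((4 * n + 6) * 5 ^ n)) ≤ |y|) := by
  choose J hJ a γ h1 h2 h3 using (fun k : Fin n => g2_dF n k S)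
  obtain ⟨J', hJ', b, δ, h4, h5, h6⟩ := hQ
  simp only [h6] at hy
  refine key_lemma n (18 * S.length + n + 10) (fun i => J i ⊕ Unit)
    (fun i => Sum.elim (fun j => - a i j) (fun _ => -2))
    (fun i => Sum.elim (fun _ => 2) (fun _ => 1))
    (fun i => Sum.elim (γ i) (fun _ s => if s = i then 1 else 0)) ?_ ?_ J' b δ h4 h5 (by omega) z N hN ?_ y hy
  · rintro i (j | j)
    · exact h1 i j
    · simp
  · intro i
    rw [Fintype.sum_sum_type]
    simp only [Sum.elim_inl, Sum.elim_inr, abs_neg, Finset.univ_unique, Finset.sum_const,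
      Finset.card_singleton, one_smul]
    have := h2 i
    have h7 : |(2 : ℤ)| = 2 := rfl
    rw [h7]
    push_cast at this ⊢
    omega
  · intro t i
    rw [g2_critical n S (N t) (z t) (hz t) i, Fintype.sum_sum_type, h3 i (z t)]
    simp only [Sum.elim_inl, Sum.elim_inr, Finset.univ_unique, Finset.sum_const,
      Finset.card_singleton, one_smul]
    have h8 : ∏ s, z t s ^ (if s = i then 1 else 0) = z t i := by simp
    rw [h8, Finset.mul_sum, ← Finset.sum_neg_distrib, sub_eq_add_neg]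
    congr 1
    · apply Finset.sum_congr rfl
      intro j _
      push_cast
      ring
    · push_cast
      ring

theorem g2_val_congr (n : ℕ) (c : Con) (hc : c.Below n) (z : ℕ → ℝ) :
    c.val (g2ext n fun i : Fin n => z i) = c.val z := by
  have h : ∀ i < n, g2ext n (fun i : Fin n => z i) i = z i := by
    intro i hi
    simp [g2ext, hi]
  cases c with
  | one i => simp only [Con.val, h i hc]
  | add i j l => simp only [Con.val, h i hc.1, h j hc.2.1, h l hc.2.2]
  | mul i j l => simp only [Con.val, h i hc.1, h j hc.2.1, h l hc.2.2]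

theorem g2_F_eq_zero (n : ℕ) (S : List Con) (z : Fin n → ℝ) (h : g2F n S z = 0) :
    Sol S (g2ext n z) := by
  intro c hc
  have h1 := g2_F_le n S z c hc
  rw [h] at h1
  have h2 := sq_nonneg (c.val (g2ext n z))
  exact pow_eq_zero_iff (n := 2) (by norm_num) |>.1 (le_antisymm h1 h2)

/-- Comparison of the value of `g2F` at the minimiser. -/
theorem g2_F_min (n : ℕ) (S : List Con) (N : ℕ) (hN : 1 ≤ N) (z w : Fin n → ℝ)
    (hz : g2G n S N z ≤ g2G n S N w) :
    g2F n S z ≤ g2F n S w + (∑ i, w i ^ 2 + ∑ i, w i ^ 6 / 6) / N := by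
  have hN' : (1 : ℝ) ≤ N := by exact_mod_cast hN
  have h1 : 0 ≤ ∑ i, z i ^ 2 := Finset.sum_nonneg fun i _ => by positivity
  have h2 : 0 ≤ ∑ i, z i ^ 6 / 6 := Finset.sum_nonneg fun i _ => by positivity
  have h3 : 0 ≤ ∑ i, w i ^ 6 / 6 := Finset.sum_nonneg fun i _ => by positivity
  have h4 : 0 ≤ ∑ i, w i ^ 2 := Finset.sum_nonneg fun i _ => by positivity
  unfold g2G at hz
  have h5 : (N : ℝ) ^ 2 * g2F n S z ≤
      (N : ℝ) ^ 2 * (g2F n S w + (∑ i, w i ^ 2 + ∑ i, w i ^ 6 / 6) / N) := by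
    have h6 : (N : ℝ) ^ 2 * ((∑ i, w i ^ 2 + ∑ i, w i ^ 6 / 6) / N) =
        N * (∑ i, w i ^ 2 + ∑ i, w i ^ 6 / 6) := by
      field_simp
    rw [mul_add, h6]
    have h7 : 0 ≤ (N : ℝ) * ∑ i, z i ^ 2 := mul_nonneg (by linarith) h1
    have h8 : ∑ i, w i ^ 6 / 6 ≤ (N : ℝ) * ∑ i, w i ^ 6 / 6 := le_mul_of_one_le_left h3 hN'
    rw [mul_add]
    linarith
  exact le_of_mul_le_mul_left h5 (by positivity)

/-- A solvable system has a solution of doubly exponential size. -/
theorem gap_bounded (n : ℕ) (S : List Con) (hS : ∀ c ∈ S, c.Below n) (hz : ∃ z, Sol S z) :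
    ∃ z, Sol S z ∧ ∀ i < n, |z i| ≤ 2 ^ 2 ^ gapExp n S.length := by
  obtain ⟨w', hw'⟩ := hz
  set w : Fin n → ℝ := fun i => w' i with hw
  have hFw : g2F n S w = 0 := by
    apply le_antisymm _ (g2_F_nonneg n S w)
    have := g2_F_ge n S w 0 (by
      intro c hc
      rw [g2_val_congr n c (hS c hc), hw' c hc, abs_zero])
    simpa using this
  choose z hz using fun t : ℕ => g2_exists_min n S (t + 1) (by omega)
  set A : ℝ := ∑ i, w i ^ 2 + ∑ i, w i ^ 6 / 6 with hA
  have hA1 : 0 ≤ ∑ i, w i ^ 6 / 6 := Finset.sum_nonneg fun i _ => by positivity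
  have hA0 : 0 ≤ A := add_nonneg (Finset.sum_nonneg fun i _ => by positivity) hA1
  -- bounded
  have hbdd : ∀ t, ∑ i, z t i ^ 2 ≤ A := by
    intro t
    have h1 := hz t w
    unfold g2G at h1
    rw [hFw, mul_zero, zero_add] at h1
    have h2 : 0 ≤ ((t + 1 : ℕ) : ℝ) ^ 2 * g2F n S (z t) := mul_nonneg (by positivity) (g2_F_nonneg _ _ _)
    have h3 : 0 ≤ ∑ i, z t i ^ 6 / 6 := Finset.sum_nonneg fun i _ => by positivity
    have ht : (1 : ℝ) ≤ ((t + 1 : ℕ) : ℝ) := by push_cast; linarith [Nat.cast_nonneg (α := ℝ) t]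
    have h4 : ((t + 1 : ℕ) : ℝ) * ∑ i, z t i ^ 2 ≤ ((t + 1 : ℕ) : ℝ) * A := by
      rw [hA, mul_add]
      have : ∑ i, w i ^ 6 / 6 ≤ ((t + 1 : ℕ) : ℝ) * ∑ i, w i ^ 6 / 6 := le_mul_of_one_le_left hA1 ht
      linarith
    exact le_of_mul_le_mul_left h4 (by linarith)
  have hball : ∀ t, z t ∈ Metric.closedBall (0 : Fin n → ℝ) (Real.sqrt A) := by
    intro t
    rw [mem_closedBall_zero_iff, pi_norm_le_iff_of_nonneg (Real.sqrt_nonneg _)]
    intro i
    apply Real.le_sqrt_of_sq_le
    rw [Real.norm_eq_abs, sq_abs]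
    exact (Finset.single_le_sum (f := fun i => z t i ^ 2) (fun _ _ => sq_nonneg _)
      (Finset.mem_univ i)).trans (hbdd t)
  obtain ⟨a, _, φ, hφ, hlim⟩ := (isCompact_closedBall (0 : Fin n → ℝ) (Real.sqrt A)).tendsto_subseq hball
  have hφt : Filter.Tendsto φ Filter.atTop Filter.atTop := hφ.tendsto_atTop
  have hNt : Filter.Tendsto (fun t => φ t + 1) Filter.atTop Filter.atTop :=
    (Filter.tendsto_add_atTop_nat 1).comp hφt
  -- limit is a zero
  have hFa : g2F n S a = 0 := by
    apply le_antisymm _ (g2_F_nonneg n S a)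
    have h1 : Filter.Tendsto (fun t => g2F n S (z (φ t))) Filter.atTop (nhds (g2F n S a)) :=
      ((g2_continuous_F n S).tendsto a).comp hlim
    have h2 : Filter.Tendsto (fun t => A / ((φ t + 1 : ℕ) : ℝ)) Filter.atTop (nhds 0) :=
      tendsto_const_nhds.div_atTop (tendsto_natCast_atTop_atTop.comp hNt)
    apply le_of_tendsto_of_tendsto' h1 h2
    intro t
    have := g2_F_min n S (φ t + 1) (by omega) (z (φ t)) w (hz (φ t) w)
    rw [hFw, zero_add] at this
    exact this
  -- norm of the limit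
  have hQ : G2Rep n 4 (18 * S.length + n + 10) (fun z => ∑ i, z i ^ 2) := by
    have h1 : G2Rep n 4 (1 * (List.finRange n).length)
        (fun z => ((List.finRange n).map fun i => z i * z i).sum) := by
      apply G2Rep.list (List.finRange n) (fun i z => z i * z i)
      intro i _
      exact ((G2Rep.coord i).mul (G2Rep.coord i)).mono (by norm_num) (by norm_num)
    have h2 : (fun z : Fin n → ℝ => ∑ i, z i ^ 2) =
        (fun z => ((List.finRange n).map fun i => z i * z i).sum) := by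
      ext1 z
      rw [Fin.sum_univ_def]
      simp only [pow_two]
    rw [h2]
    exact h1.mono le_rfl (by simp; omega)
  have hkey := g2_key n S _ hQ (fun t => z (φ t)) (fun t => φ t + 1) hNt (fun t w => hz (φ t) w)
    (∑ i, a i ^ 2) (by
      have hc : Continuous fun z : Fin n → ℝ => ∑ i, z i ^ 2 := by fun_prop
      exact (hc.tendsto a).comp hlim)
  have hnum := g2_num n S.length
  obtain ⟨W, hW⟩ : ∃ W : ℝ, W = 2 ^ 2 ^ gapExp n S.length := ⟨_, rfl⟩
  have hnum' : (((S.length : ℕ) : ℝ) + 1) *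
      (2 * (((18 * S.length + n + 10 : ℕ) : ℝ) + 1) ^ ((4 * n + 6) * 5 ^ n)) ≤ W := by
    rw [hW]
    exact_mod_cast hnum
  have hW1 : 1 ≤ W := by rw [hW]; exact one_le_pow₀ (by norm_num)
  rw [← hW]
  clear hW hnum
  refine ⟨g2ext n a, g2_F_eq_zero n S a hFa, ?_⟩
  intro i hi
  have h1 : g2ext n a i = a ⟨i, hi⟩ := by simp [g2ext, hi]
  rw [h1]
  have h2 : a ⟨i, hi⟩ ^ 2 ≤ ∑ i, a i ^ 2 :=
    Finset.single_le_sum (f := fun i => a i ^ 2) (fun _ _ => sq_nonneg _) (Finset.mem_univ _)
  have h3 := le_abs_self (∑ i, a i ^ 2)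
  have hk := hkey.1
  obtain ⟨H, hH⟩ : ∃ H : ℝ, H = 2 * (((18 * S.length + n + 10 : ℕ) : ℝ) + 1) ^ ((4 * n + 6) * 5 ^ n) :=
    ⟨_, rfl⟩
  have h4 : 0 ≤ H := by rw [hH]; positivity
  rw [← hH] at hnum' hk
  clear hH hkey
  have h5 : H ≤ W := by
    refine le_trans ?_ hnum'
    apply le_mul_of_one_le_left h4
    linarith [Nat.cast_nonneg (α := ℝ) S.length]
  have h6 : a ⟨i, hi⟩ ^ 2 ≤ W ^ 2 := by
    have h7 : W ≤ W ^ 2 := by nlinarith
    linarith
  exact abs_le_of_sq_le_sq h6 (by linarith)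

/-- The gap theorem for systems all of whose approximate solutions are bounded. -/
theorem gap_lower (n : ℕ) (S : List Con) (hS : ∀ c ∈ S, c.Below n)
    (hb : ∀ z : ℕ → ℝ, (∀ c ∈ S, |c.val z| ≤ 1 / 8) → ∀ i < n, |z i| ≤ 4)
    (hun : ¬ ∃ z, Sol S z) (z : ℕ → ℝ) :
    ∃ c ∈ S, 1 / 2 ^ 2 ^ gapExp n S.length ≤ |c.val z| := by
  by_contra hcon
  push Not at hcon
  obtain ⟨W, hW⟩ : ∃ W : ℝ, W = 2 ^ 2 ^ gapExp n S.length := ⟨_, rfl⟩
  rw [← hW] at hcon
  have hnum := g2_num n S.length
  have hnum' : (((S.length : ℕ) : ℝ) + 1) *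
      (2 * (((18 * S.length + n + 10 : ℕ) : ℝ) + 1) ^ ((4 * n + 6) * 5 ^ n)) ≤ W := by
    rw [hW]
    exact_mod_cast hnum
  clear hW hnum
  obtain ⟨H, hH⟩ : ∃ H : ℝ, H = 2 * (((18 * S.length + n + 10 : ℕ) : ℝ) + 1) ^ ((4 * n + 6) * 5 ^ n) :=
    ⟨_, rfl⟩
  rw [← hH] at hnum'
  have hm0 : (0 : ℝ) ≤ S.length := Nat.cast_nonneg _
  have hH0 : 0 < H := by rw [hH]; positivity
  have hH64 : 64 ≤ H := by
    rw [hH]
    have h1 : (8 : ℝ) ≤ ((18 * S.length + n + 10 : ℕ) : ℝ) + 1 := by
      push_cast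
      have : (0 : ℝ) ≤ n := Nat.cast_nonneg _
      linarith
    obtain ⟨T, hT⟩ : ∃ T : ℝ, T = ((18 * S.length + n + 10 : ℕ) : ℝ) + 1 := ⟨_, rfl⟩
    rw [← hT] at h1 ⊢
    have h2 : T ^ 2 ≤ T ^ ((4 * n + 6) * 5 ^ n) := by
      apply pow_le_pow_right₀ (by linarith)
      have h3 : 1 ≤ 5 ^ n := Nat.one_le_pow _ _ (by norm_num)
      calc 2 ≤ (4 * n + 6) * 1 := by omega
        _ ≤ _ := Nat.mul_le_mul_left _ h3
    have h4 : 64 ≤ T ^ 2 := by nlinarith
    linarith
  have hW64 : 64 * (S.length + 1) ≤ W := by nlinarith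
  have hW1 : 1 ≤ W := by nlinarith
  -- the value at `z`
  set z₁ : Fin n → ℝ := fun i => z i with hz₁
  have hF1 : g2F n S z₁ ≤ S.length * (1 / W) ^ 2 := by
    apply g2_F_ge
    intro c hc
    rw [g2_val_congr n c (hS c hc)]
    exact (hcon c hc).le
  have hF2 : g2F n S z₁ < 1 / H := by
    refine lt_of_le_of_lt hF1 ?_
    have h1 : (S.length : ℝ) * (1 / W) ^ 2 = S.length / (W * W) := by
      field_simp
    rw [h1, div_lt_div_iff₀ (by positivity) hH0]
    have h2 : (S.length : ℝ) * H < W := by nlinarith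
    nlinarith
  have hF3 : g2F n S z₁ < 1 / 64 := by
    refine hF2.trans_le ?_
    exact one_div_le_one_div_of_le (by norm_num) hH64
  -- the infimum is attained
  obtain ⟨w, hw⟩ : ∃ w, ∀ v, g2F n S w ≤ g2F n S v := by
    apply (g2_continuous_F n S).exists_forall_le' (x₀ := z₁)
    have h1 := (tendsto_norm_cocompact_atTop (E := Fin n → ℝ)).eventually_ge_atTop 5
    filter_upwards [h1] with v hv
    by_contra h2
    push Not at h2
    have h3 : ‖v‖ ≤ 4 := by
      rw [pi_norm_le_iff_of_nonneg (by norm_num)]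
      intro i
      have h4 := hb (g2ext n v) (by
        intro c hc
        have h5 := g2_F_le n S v c hc
        have h6 : c.val (g2ext n v) ^ 2 ≤ (1 / 8) ^ 2 := by
          have : ((1 : ℝ) / 8) ^ 2 = 1 / 64 := by norm_num
          rw [this]
          linarith
        exact abs_le_of_sq_le_sq h6 (by norm_num)) i i.isLt
      rw [Real.norm_eq_abs]
      simpa [g2ext] using h4
    linarith
  have hwpos : 0 < g2F n S w := by
    rcases (g2_F_nonneg n S w).lt_or_eq with h | h
    · exact h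
    · exact absurd ⟨_, g2_F_eq_zero n S w h.symm⟩ hun
  -- minimisers
  choose u hu using fun t : ℕ => g2_exists_min n S (t + 1) (by omega)
  have hNt : Filter.Tendsto (fun t : ℕ => t + 1) Filter.atTop Filter.atTop :=
    Filter.tendsto_add_atTop_nat 1
  have hlim : Filter.Tendsto (fun t => g2F n S (u t)) Filter.atTop (nhds (g2F n S w)) := by
    have h2 : Filter.Tendsto (fun t : ℕ => g2F n S w +
        (∑ i, w i ^ 2 + ∑ i, w i ^ 6 / 6) / ((t + 1 : ℕ) : ℝ)) Filter.atTop
        (nhds (g2F n S w + 0)) :=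
      tendsto_const_nhds.add (tendsto_const_nhds.div_atTop (tendsto_natCast_atTop_atTop.comp hNt))
    rw [add_zero] at h2
    apply tendsto_of_tendsto_of_tendsto_of_le_of_le tendsto_const_nhds h2
    · intro t
      exact hw _
    · intro t
      exact g2_F_min n S (t + 1) (by omega) (u t) w (hu t w)
  have hkey := g2_key n S _ ((g2_F n S).mono le_rfl (by omega)) u (fun t => t + 1) hNt hu _ hlim
  have h1 := hkey.2 hwpos.ne'
  rw [abs_of_pos hwpos, ← hH] at h1
  have h2 := hw z₁
  linarith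

end Pool.Agent.Lib.MP_612bca_lc
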