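import Pool.Agent.Lib.MP_612bca_lc.Bound0
import Pool.Agent.Lib.MP_612bca_lc.Gap2

/-!
# From a system to a bounded system

Module B of the reduction for `MP_612bca_lc`.
-/

namespace Pool.Agent.Lib.MP_612bca_lc

theorem boundSys_complete (n : ℕ) (S : List Con) (hS : ∀ c ∈ S, c.Below n) (h : ∃ z, Sol S z) :
    ∃ z, Sol (boundSys n S) z ∧ ∀ i, |z i| ≤ 1 :=
  Bound.complete_of_gap gap_bounded n S hS h

theorem boundSys_sound (n : ℕ) (S : List Con) (hS : ∀ c ∈ S, c.Below n)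
    (h : ∃ z : ℕ → ℝ, ∀ c ∈ boundSys n S,
      |c.val z| < 1 / 2 ^ 2 ^ gapExp (boundNum n S) (boundSys n S).length) :
    ∃ z, Sol S z :=
  Bound.sound_of_gap gap_lower n S hS h

end Pool.Agent.Lib.MP_612bca_lc
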