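import Pool.Agent.Lib.CookLevin.Raw

/-!
# Composition of polynomial-time machines

A function on bit strings which is computed by a polynomial-time machine (in the sense of Mathlib)
is `PTime`; hence such functions can be composed. The simulation of Mathlib's machines is a copy of
`Pool.Agent.Lib.PolyTime.Converse` (which cannot be imported together with the unary encoding of
the natural numbers used here); the names end with `C`.
-/

namespace Pool.Agent.PolyTime

section
variable {α β γ σ : Type} [Enc α] [Enc β] [Enc γ] [Enc σ]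

theorem PTime.fstC {f : α → β × γ} (hf : PTime f) : PTime (fun a => (f a).1) :=
  PTime.fst.comp hf

theorem PTime.sndC {f : α → β × γ} (hf : PTime f) : PTime (fun a => (f a).2) :=
  PTime.snd.comp hf

theorem PTime.iteC {c : α → Prop} [DecidablePred c] {g h : α → γ}
    (hc : PTime (fun a => decide (c a))) (hg : PTime g) (hh : PTime h) :
    PTime (fun a => if c a then g a else h a) :=
  (PTime.ite hc hg hh).of_eq fun a => by by_cases h : c a <;> simp [h]

end

section finite
variable {α β γ σ : Type} [Enc α] [Enc β] [Enc γ] [Enc σ]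

/-- Case distinction over a finite (injectively encoded) type. -/
theorem PTime.finite_casesC [Finite α] [EncInj α] {f : α → β → γ} (hf : ∀ a, PTime (f a)) :
    PTime (fun p : α × β => f p.1 p.2) := by
  classical
  rcases isEmpty_or_nonempty α with hα | ⟨⟨a0⟩⟩
  · have : PTime (fun p : α × β => p) := PTime.id
    obtain ⟨P, p, h⟩ : ∃ P : SP, ∃ p : Polynomial ℕ, ∀ (x : α × β) (m a b c : List Bool),
      Runs P (mk (bits (enc x) ++ m) a b c) (mk (bits (enc (f x.1 x.2)) ++ m) a b c)
        (p.eval (size (enc x))) := ⟨SP.skip, 0, fun x => hα.elim x.1⟩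
    exact PTime.intro P ⟨p, fun _ => le_refl _⟩ h
  · have := Fintype.ofFinite α
    have key : ∀ l : List α, ∃ g : α × β → γ, PTime g ∧ ∀ a ∈ l, ∀ b, g (a, b) = f a b := by
      intro l
      induction l with
      | nil => exact ⟨fun p => f a0 p.2, (hf a0).comp PTime.snd, by simp⟩
      | cons a l ih =>
        obtain ⟨g, hg, hgl⟩ := ih
        refine ⟨fun p => if p.1 = a then f a p.2 else g p, ?_, ?_⟩
        · exact PTime.iteC (PTime.eq PTime.fst (PTime.const a)) ((hf a).comp PTime.snd) hg
        · intro x hx b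
          by_cases h : x = a
          · simp [h]
          · simp only [h, if_false]
            exact hgl x ((List.mem_cons.1 hx).resolve_left h) b
    obtain ⟨g, hg, hgl⟩ := key (Finset.univ : Finset α).toList
    exact hg.of_eq fun p => hgl p.1 (by simp) p.2

/-- Every function on a finite (injectively encoded) type is polynomial-time. -/
theorem PTime.of_finiteC [Finite α] [EncInj α] (f : α → β) : PTime f :=
  (PTime.finite_casesC (β := Unit) (f := fun a _ => f a) fun a => PTime.const (f a)).comp
    (PTime.id.pair (PTime.const ()))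

end finite

/-! ### `Fin n` and functions on `Fin n` -/

instance instEncFinC (n : ℕ) : Enc (Fin n) := ⟨fun i => enc (i : ℕ)⟩

instance instEncInjFinC (n : ℕ) : EncInj (Fin n) :=
  ⟨fun _ _ h => Fin.ext (EncInj.inj (α := ℕ) h)⟩

instance instEncFnC {n : ℕ} {β : Type} [Enc β] : Enc (Fin n → β) := ⟨fun f => enc (List.ofFn f)⟩

instance instEncInjFnC {n : ℕ} {β : Type} [Enc β] [EncInj β] : EncInj (Fin n → β) :=
  ⟨fun _ _ h => List.ofFn_injective (EncInj.inj (α := List β) h)⟩

/-- An encoding of an arbitrary finite type. -/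
@[reducible] noncomputable def finEncC (α : Type) [Finite α] : Enc α :=
  ⟨fun a => enc (Finite.equivFin α a)⟩

theorem finEncC_inj (α : Type) [Finite α] : @EncInj α (finEncC α) :=
  @EncInj.mk α (finEncC α) fun _ _ h =>
    (Finite.equivFin α).injective (EncInj.inj (α := Fin (Nat.card α)) h)

section fn
variable {α β γ : Type} [Enc α] [Enc β] [Enc γ]

theorem PTime.finValC {n : ℕ} {f : α → Fin n} (hf : PTime f) : PTime (fun x => (f x : ℕ)) :=
  hf.of_enc_eq (fun x => x) (fun _ => rfl) (fun _ => rfl)

theorem PTime.finMkC {n : ℕ} {f : α → Fin n} (hf : PTime (fun x => (f x : ℕ))) : PTime f :=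
  hf.of_enc_eq (fun x => x) (fun _ => rfl) (fun _ => rfl)

theorem PTime.ofFnListC {n : ℕ} {f : Fin n → α → β} (hf : ∀ i, PTime (f i)) :
    PTime (fun x => List.ofFn fun i => f i x) := by
  induction n with
  | zero => exact (PTime.const []).of_eq fun x => by simp
  | succ n ih =>
    refine ((hf 0).cons (ih fun i => hf i.succ)).of_eq fun x => ?_
    rw [List.ofFn_succ]

/-- Build a function on `Fin n` from its polynomial-time components. -/
theorem PTime.mkFnC {n : ℕ} {f : Fin n → α → β} (hf : ∀ i, PTime (f i)) :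
    PTime (fun x => (fun i => f i x : Fin n → β)) :=
  (PTime.ofFnListC hf).of_enc_eq (fun x => x) (fun _ => rfl) (fun _ => rfl)

theorem PTime.dropConstC {f : α → List β} (hf : PTime f) (k : ℕ) :
    PTime (fun x => (f x).drop k) := by
  induction k with
  | zero => exact hf.of_eq fun x => by simp
  | succ k ih => exact ih.tail.of_eq fun x => by simp [List.tail_drop]

theorem PTime.getConstC {f : α → List β} (hf : PTime f) (k : ℕ) :
    PTime (fun x => (f x)[k]?) :=
  (hf.dropConstC k).head?.of_eq fun x => by simp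

/-- Evaluate a function on `Fin n` at a fixed argument. -/
theorem PTime.appFnC {n : ℕ} {f : α → (Fin n → β)} (hf : PTime f) (i : Fin n) :
    PTime (fun x => f x i) := by
  have h1 : PTime (fun x => List.ofFn (f x)) :=
    hf.of_enc_eq (fun x => x) (fun _ => rfl) (fun _ => rfl)
  have h2 := h1.getConstC i
  have h3 : PTime (fun x => Option.some (f x i)) := h2.of_eq fun x => by simp
  refine (PTime.fstC (h3.of_enc_eq (g := fun x => ((f x i, ()) : β × Unit)) (fun x => x)
    (fun _ => rfl) (fun _ => rfl)))

/-- Update at a fixed place. -/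
theorem PTime.updateFnC {n : ℕ} {f : α → (Fin n → β)} {g : α → β} (hf : PTime f) (i : Fin n)
    (hg : PTime g) : PTime (fun x => Function.update (f x) i (g x)) := by
  have : ∀ j : Fin n, PTime (fun x => Function.update (f x) i (g x) j) := by
    intro j
    by_cases h : j = i
    · subst h
      exact hg.of_eq fun x => by simp
    · exact (hf.appFnC j).of_eq fun x => by simp [Function.update_of_ne h]
  exact PTime.mkFnC this

end fn

open Turing StateTransition

namespace ConvC

variable {K : Type} [DecidableEq K] {Γ : K → Type} {Λ σ : Type}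

/-- Symbols pushed by a statement. -/
def pushed : TM2.Stmt Γ Λ σ → Set (Σ k, Γ k)
  | TM2.Stmt.push k f q => Set.range (fun v => (⟨k, f v⟩ : Σ k, Γ k)) ∪ pushed q
  | TM2.Stmt.peek _ _ q => pushed q
  | TM2.Stmt.pop _ _ q => pushed q
  | TM2.Stmt.load _ q => pushed q
  | TM2.Stmt.branch _ q₁ q₂ => pushed q₁ ∪ pushed q₂
  | TM2.Stmt.goto _ => ∅
  | TM2.Stmt.halt => ∅

omit [DecidableEq K] in
theorem pushed_finite [Finite σ] : ∀ q : TM2.Stmt Γ Λ σ, (pushed q).Finite
  | TM2.Stmt.push _ _ q => (Set.finite_range _).union (pushed_finite q)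
  | TM2.Stmt.peek _ _ q => pushed_finite q
  | TM2.Stmt.pop _ _ q => pushed_finite q
  | TM2.Stmt.load _ q => pushed_finite q
  | TM2.Stmt.branch _ q₁ q₂ => (pushed_finite q₁).union (pushed_finite q₂)
  | TM2.Stmt.goto _ => Set.finite_empty
  | TM2.Stmt.halt => Set.finite_empty

open Classical in
/-- the coded symbol -/
noncomputable def toSym (R : Set (Σ k, Γ k)) (d : R) (k : K) (a : Γ k) : R :=
  if h : (⟨k, a⟩ : Σ k, Γ k) ∈ R then ⟨⟨k, a⟩, h⟩ else d

/-- decoding -/
def ofSym (R : Set (Σ k, Γ k)) (k : K) (s : R) : Option (Γ k) :=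
  if h : s.1.1 = k then some (h ▸ s.1.2) else none

theorem ofSym_toSym (R : Set (Σ k, Γ k)) (d : R) (k : K) (a : Γ k)
    (h : (⟨k, a⟩ : Σ k, Γ k) ∈ R) : ofSym R k (toSym R d k a) = some a := by
  have h1 : toSym R d k a = ⟨⟨k, a⟩, h⟩ := dif_pos h
  rw [h1]
  simp [ofSym]

/-- coded configurations -/
abbrev CC (R : Set (Σ k, Γ k)) (Λ σ : Type) (n : ℕ) : Type := Option Λ × (σ × (Fin n → List R))

/-- execution of a statement on coded stacks -/
noncomputable def run (R : Set (Σ k, Γ k)) (d : R) {n : ℕ} (e : K ≃ Fin n) :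
    TM2.Stmt Γ Λ σ → σ × (Fin n → List R) → CC R Λ σ n
  | TM2.Stmt.push k f q, p =>
      run R d e q (p.1, Function.update p.2 (e k) (toSym R d k (f p.1) :: p.2 (e k)))
  | TM2.Stmt.peek k f q, p => run R d e q (f p.1 ((p.2 (e k)).head?.bind (ofSym R k)), p.2)
  | TM2.Stmt.pop k f q, p =>
      run R d e q (f p.1 ((p.2 (e k)).head?.bind (ofSym R k)),
        Function.update p.2 (e k) (p.2 (e k)).tail)
  | TM2.Stmt.load f q, p => run R d e q (f p.1, p.2)
  | TM2.Stmt.branch f q₁ q₂, p => if f p.1 = true then run R d e q₁ p else run R d e q₂ p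
  | TM2.Stmt.goto f, p => (some (f p.1), p)
  | TM2.Stmt.halt, p => (none, p)

theorem run_ptime (R : Set (Σ k, Γ k)) [Finite R] [Finite σ] [Enc R] [EncInj R] [Enc σ]
    [EncInj σ] [Enc Λ] (d : R) {n : ℕ} (e : K ≃ Fin n) :
    ∀ q : TM2.Stmt Γ Λ σ, PTime (run R d e q)
  | TM2.Stmt.push k f q => by
      have h1 : PTime (fun p : σ × (Fin n → List R) => p.2 (e k)) := PTime.snd.appFnC (e k)
      have h2 : PTime (fun p : σ × (Fin n → List R) => toSym R d k (f p.1)) :=
        (PTime.of_finiteC fun v => toSym R d k (f v)).comp PTime.fst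
      exact (run_ptime R d e q).comp (PTime.fst.pair (PTime.snd.updateFnC (e k) (h2.cons h1)))
  | TM2.Stmt.peek k f q => by
      have h1 : PTime (fun p : σ × (Fin n → List R) => p.2 (e k)) := PTime.snd.appFnC (e k)
      have h2 : PTime (fun p : σ × (Fin n → List R) =>
          f p.1 ((p.2 (e k)).head?.bind (ofSym R k))) :=
        (PTime.of_finiteC fun v : σ × Option R => f v.1 (v.2.bind (ofSym R k))).comp
          (PTime.fst.pair h1.head?)
      exact (run_ptime R d e q).comp (h2.pair PTime.snd)
  | TM2.Stmt.pop k f q => by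
      have h1 : PTime (fun p : σ × (Fin n → List R) => p.2 (e k)) := PTime.snd.appFnC (e k)
      have h2 : PTime (fun p : σ × (Fin n → List R) =>
          f p.1 ((p.2 (e k)).head?.bind (ofSym R k))) :=
        (PTime.of_finiteC fun v : σ × Option R => f v.1 (v.2.bind (ofSym R k))).comp
          (PTime.fst.pair h1.head?)
      exact (run_ptime R d e q).comp (h2.pair (PTime.snd.updateFnC (e k) h1.tail))
  | TM2.Stmt.load f q =>
      (run_ptime R d e q).comp (((PTime.of_finiteC f).comp PTime.fst).pair PTime.snd)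
  | TM2.Stmt.branch f q₁ q₂ =>
      PTime.ite ((PTime.of_finiteC f).comp PTime.fst) (run_ptime R d e q₁) (run_ptime R d e q₂)
  | TM2.Stmt.goto f => (PTime.some ((PTime.of_finiteC f).comp PTime.fst)).pair PTime.id
  | TM2.Stmt.halt => (PTime.const none).pair PTime.id

/-- the coded stacks represent the stacks -/
def Rep (R : Set (Σ k, Γ k)) (d : R) {n : ℕ} (e : K ≃ Fin n) (S : (k : K) → List (Γ k))
    (T : Fin n → List R) : Prop :=
  (∀ k, ∀ a ∈ S k, (⟨k, a⟩ : Σ k, Γ k) ∈ R) ∧ ∀ k, T (e k) = (S k).map (toSym R d k)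

theorem Rep.head {R : Set (Σ k, Γ k)} {d : R} {n : ℕ} {e : K ≃ Fin n}
    {S : (k : K) → List (Γ k)} {T : Fin n → List R} (h : Rep R d e S T) (k : K) :
    (T (e k)).head?.bind (ofSym R k) = (S k).head? := by
  rw [h.2 k]
  cases hS : S k with
  | nil => rfl
  | cons a l =>
    have := h.1 k a (by rw [hS]; simp)
    simp only [List.map_cons, List.head?_cons, Option.bind_some]
    exact ofSym_toSym R d k a this

theorem Rep.update {R : Set (Σ k, Γ k)} {d : R} {n : ℕ} {e : K ≃ Fin n}
    {S : (k : K) → List (Γ k)} {T : Fin n → List R} (h : Rep R d e S T) (k : K)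
    (l : List (Γ k)) (hl : ∀ a ∈ l, (⟨k, a⟩ : Σ k, Γ k) ∈ R) :
    Rep R d e (Function.update S k l) (Function.update T (e k) (l.map (toSym R d k))) := by
  constructor
  · intro k' a ha
    by_cases hk : k' = k
    · subst hk
      rw [Function.update_self] at ha
      exact hl a ha
    · rw [Function.update_of_ne hk] at ha
      exact h.1 k' a ha
  · intro k'
    by_cases hk : k' = k
    · subst hk
      rw [Function.update_self, Function.update_self]
    · rw [Function.update_of_ne hk, Function.update_of_ne (fun h => hk (e.injective h))]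
      exact h.2 k'

theorem run_spec (R : Set (Σ k, Γ k)) (d : R) {n : ℕ} (e : K ≃ Fin n) :
    ∀ (q : TM2.Stmt Γ Λ σ) (_ : pushed q ⊆ R) (v : σ) (S : (k : K) → List (Γ k))
      (T : Fin n → List R) (_ : Rep R d e S T),
      (run R d e q (v, T)).1 = (TM2.stepAux q v S).l ∧
      (run R d e q (v, T)).2.1 = (TM2.stepAux q v S).var ∧
      Rep R d e (TM2.stepAux q v S).stk (run R d e q (v, T)).2.2
  | TM2.Stmt.push k f q, hq, v, S, T, h => by
      have hk : (⟨k, f v⟩ : Σ k, Γ k) ∈ R := hq (Or.inl ⟨v, rfl⟩)
      have hq' : pushed q ⊆ R := fun x hx => hq (Or.inr hx)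
      have h' := h.update k (f v :: S k) (by
        intro a ha
        rcases List.mem_cons.1 ha with rfl | ha
        · exact hk
        · exact h.1 k a ha)
      rw [List.map_cons, ← h.2 k] at h'
      exact run_spec R d e q hq' v _ _ h'
  | TM2.Stmt.peek k f q, hq, v, S, T, h => by
      have := run_spec R d e q hq (f v (S k).head?) S T h
      simp only [run, TM2.stepAux, h.head k]
      exact this
  | TM2.Stmt.pop k f q, hq, v, S, T, h => by
      have h' := h.update k (S k).tail (fun a ha => h.1 k a (List.mem_of_mem_tail ha))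
      rw [List.map_tail, ← h.2 k] at h'
      have := run_spec R d e q hq (f v (S k).head?) _ _ h'
      simp only [run, TM2.stepAux, h.head k]
      exact this
  | TM2.Stmt.load f q, hq, v, S, T, h => run_spec R d e q hq (f v) S T h
  | TM2.Stmt.branch f q₁ q₂, hq, v, S, T, h => by
      have h1 := run_spec R d e q₁ (fun x hx => hq (Or.inl hx)) v S T h
      have h2 := run_spec R d e q₂ (fun x hx => hq (Or.inr hx)) v S T h
      simp only [run, TM2.stepAux]
      cases f v
      · exact h2
      · exact h1
  | TM2.Stmt.goto f, _, v, S, T, h => ⟨rfl, rfl, h⟩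
  | TM2.Stmt.halt, _, v, S, T, h => ⟨rfl, rfl, h⟩

/-- one machine step on coded configurations -/
noncomputable def stepC (R : Set (Σ k, Γ k)) (d : R) {n : ℕ} (e : K ≃ Fin n)
    (M : Λ → TM2.Stmt Γ Λ σ) (c : CC R Λ σ n) : CC R Λ σ n :=
  match c.1 with
  | none => c
  | some l => run R d e (M l) c.2

theorem stepC_ptime (R : Set (Σ k, Γ k)) [Finite R] [Finite σ] [Finite Λ] [Enc R] [EncInj R]
    [Enc σ] [EncInj σ] [Enc Λ] [EncInj Λ] (d : R) {n : ℕ} (e : K ≃ Fin n)
    (M : Λ → TM2.Stmt Γ Λ σ) : PTime (stepC R d e M) := by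
  have h : ∀ l : Option Λ, PTime (fun p : σ × (Fin n → List R) => stepC R d e M (l, p)) := by
    intro l
    cases l with
    | none => exact (PTime.const none).pair PTime.id
    | some l => exact run_ptime R d e (M l)
  exact (PTime.finite_casesC h).of_eq fun p => rfl

/-- the coded configuration represents the configuration -/
def RepC (R : Set (Σ k, Γ k)) (d : R) {n : ℕ} (e : K ≃ Fin n) (c : TM2.Cfg Γ Λ σ)
    (c' : CC R Λ σ n) : Prop :=
  c'.1 = c.l ∧ c'.2.1 = c.var ∧ Rep R d e c.stk c'.2.2

theorem stepC_spec {R : Set (Σ k, Γ k)} {d : R} {n : ℕ} {e : K ≃ Fin n}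
    {M : Λ → TM2.Stmt Γ Λ σ} (hM : ∀ l, pushed (M l) ⊆ R) {c c₁ : TM2.Cfg Γ Λ σ}
    {c' : CC R Λ σ n} (h : RepC R d e c c') (h1 : TM2.step M c = some c₁) :
    c'.1.isSome = true ∧ RepC R d e c₁ (stepC R d e M c') := by
  obtain ⟨l, v, S⟩ := c
  obtain ⟨l', v', T⟩ := c'
  obtain ⟨e1, e2, h⟩ := h
  cases l with
  | none => simp [TM2.step] at h1
  | some l =>
    simp only at e1 e2 h
    subst e1 e2
    simp only [TM2.step, Option.some.injEq] at h1
    subst h1
    exact ⟨rfl, run_spec R d e (M l) (hM l) v' S T h⟩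

/-- number of symbols, over all stacks -/
def tot {R : Set (Σ k, Γ k)} {n : ℕ} (T : Fin n → List R) : ℕ := ∑ i, (T i).length

/-- number of pushes in a statement -/
def cost : TM2.Stmt Γ Λ σ → ℕ
  | TM2.Stmt.push _ _ q => cost q + 1
  | TM2.Stmt.peek _ _ q => cost q
  | TM2.Stmt.pop _ _ q => cost q
  | TM2.Stmt.load _ q => cost q
  | TM2.Stmt.branch _ q₁ q₂ => cost q₁ + cost q₂
  | TM2.Stmt.goto _ => 0
  | TM2.Stmt.halt => 0

omit [DecidableEq K] in
theorem tot_update {R : Set (Σ k, Γ k)} {n : ℕ} (T : Fin n → List R) (i : Fin n) (l : List R) :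
    tot (Function.update T i l) + (T i).length = tot T + l.length := by
  unfold tot
  rw [← Finset.add_sum_erase Finset.univ _ (Finset.mem_univ i),
    ← Finset.add_sum_erase Finset.univ (fun j => (T j).length) (Finset.mem_univ i)]
  have : ∑ j ∈ Finset.univ.erase i, (Function.update T i l j).length =
      ∑ j ∈ Finset.univ.erase i, (T j).length := by
    refine Finset.sum_congr rfl fun j hj => ?_
    rw [Function.update_of_ne (Finset.ne_of_mem_erase hj)]
  rw [this, Function.update_self]
  ring

theorem run_tot (R : Set (Σ k, Γ k)) (d : R) {n : ℕ} (e : K ≃ Fin n) :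
    ∀ (q : TM2.Stmt Γ Λ σ) (p : σ × (Fin n → List R)),
      tot (run R d e q p).2.2 ≤ tot p.2 + cost q
  | TM2.Stmt.push k f q, p => by
      have h1 := run_tot R d e q
        (p.1, Function.update p.2 (e k) (toSym R d k (f p.1) :: p.2 (e k)))
      have h2 := tot_update p.2 (e k) (toSym R d k (f p.1) :: p.2 (e k))
      rw [List.length_cons] at h2
      simp only [run, cost]
      simp only at h1
      omega
  | TM2.Stmt.peek k f q, p => run_tot R d e q _
  | TM2.Stmt.pop k f q, p => by
      have h1 := run_tot R d e q (f p.1 ((p.2 (e k)).head?.bind (ofSym R k)),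
        Function.update p.2 (e k) (p.2 (e k)).tail)
      have h2 := tot_update p.2 (e k) (p.2 (e k)).tail
      rw [List.length_tail] at h2
      simp only [run, cost]
      simp only at h1
      omega
  | TM2.Stmt.load f q, p => run_tot R d e q _
  | TM2.Stmt.branch f q₁ q₂, p => by
      have h1 := run_tot R d e q₁ p
      have h2 := run_tot R d e q₂ p
      simp only [run, cost]
      split
      · omega
      · omega
  | TM2.Stmt.goto f, p => Nat.le_add_right _ _
  | TM2.Stmt.halt, p => Nat.le_add_right _ _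

theorem stepC_tot (R : Set (Σ k, Γ k)) (d : R) {n : ℕ} (e : K ≃ Fin n)
    (M : Λ → TM2.Stmt Γ Λ σ) (B : ℕ) (hB : ∀ l, cost (M l) ≤ B) (c : CC R Λ σ n) :
    tot (stepC R d e M c).2.2 ≤ tot c.2.2 + B := by
  obtain ⟨l, p⟩ := c
  cases l with
  | none => exact Nat.le_add_right _ _
  | some l => exact (run_tot R d e (M l) p).trans (Nat.add_le_add_left (hB l) _)

theorem size_fn {β : Type} [Enc β] (B : ℕ) (hB : ∀ b : β, size (enc b) ≤ B) :
    ∀ {n : ℕ} (T : Fin n → List β), size (enc T) ≤ (∑ i, (T i).length) * (B + 1) + 2 * n + 1 := by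
  have hl : ∀ l : List β, size (enc l) ≤ l.length * (B + 1) + 1 := fun l =>
    size_list_le l B fun x _ => hB x
  intro n
  induction n with
  | zero => intro T; change size (enc (List.ofFn T)) ≤ _; simp [enc_nil]
  | succ n ih =>
    intro T
    have h1 := ih (fun i => T i.succ)
    have h2 := hl (T 0)
    change size (enc (List.ofFn T)) ≤ _
    change size (enc (List.ofFn fun i => T i.succ)) ≤ _ at h1
    rw [List.ofFn_succ, size_lcons, Fin.sum_univ_succ, Nat.add_mul]
    omega

omit [DecidableEq K] in
theorem size_CC (R : Set (Σ k, Γ k)) [Finite R] [Finite σ] [Finite Λ] [Enc R]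
    [Enc σ] [Enc Λ] (n : ℕ) :
    ∃ B : ℕ, ∀ c : CC R Λ σ n, size (enc c) ≤ tot c.2.2 * B + B := by
  obtain ⟨B1, hB1⟩ : ∃ B, ∀ b : R, size (enc b) ≤ B := by
    obtain ⟨B, hB⟩ := (Set.finite_range fun b : R => size (enc b)).bddAbove
    exact ⟨B, fun b => hB ⟨b, rfl⟩⟩
  obtain ⟨B2, hB2⟩ : ∃ B, ∀ b : Option Λ, size (enc b) ≤ B := by
    obtain ⟨B, hB⟩ := (Set.finite_range fun b : Option Λ => size (enc b)).bddAbove
    exact ⟨B, fun b => hB ⟨b, rfl⟩⟩
  obtain ⟨B3, hB3⟩ : ∃ B, ∀ b : σ, size (enc b) ≤ B := by
    obtain ⟨B, hB⟩ := (Set.finite_range fun b : σ => size (enc b)).bddAbove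
    exact ⟨B, fun b => hB ⟨b, rfl⟩⟩
  refine ⟨B1 + 1 + (2 * n + 1) + B2 + B3 + 2, fun c => ?_⟩
  obtain ⟨l, v, T⟩ := c
  rw [size_pair, size_pair]
  have h1 := hB2 l
  have h2 := hB3 v
  have h3 : size (enc T) ≤ tot T * (B1 + 1) + 2 * n + 1 := size_fn B1 hB1 T
  have h4 : tot T * (B1 + 1) ≤ tot T * (B1 + 1 + (2 * n + 1) + B2 + B3 + 2) :=
    Nat.mul_le_mul_left _ (by omega)
  simp only
  omega

end ConvC

open ConvC in
/-- A function on words computed by a Mathlib machine in polynomial time is `PTime`. -/
theorem ptime_of_machine {f : List Bool → List Bool}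
    (hf : Nonempty (Turing.TM2ComputableInPolyTime (fun x : List Bool => x)
      (fun y : List Bool => y) f)) : PTime f := by
  obtain ⟨⟨⟨tm, ia, oa⟩, time, hout⟩⟩ := hf
  have := tm.kFin
  have := tm.ΛFin
  have := tm.σFin
  have := tm.Γk₀Fin
  simp only at hout
  -- relevant symbols
  let R : Set (Σ k, tm.Γ k) := (⋃ l, pushed (tm.m l)) ∪
    Set.range (fun a => (⟨tm.k₀, a⟩ : Σ k, tm.Γ k))
  have hR : Finite R :=
    ((Set.finite_iUnion fun l => pushed_finite (tm.m l)).union (Set.finite_range _)).to_subtype
  have hM : ∀ l, pushed (tm.m l) ⊆ R := fun l x hx => Or.inl (Set.mem_iUnion.2 ⟨l, hx⟩)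
  let d : R := ⟨⟨tm.k₀, ia.symm true⟩, Or.inr ⟨_, rfl⟩⟩
  let e := Fintype.equivFin tm.K
  let _ : Enc R := finEncC R
  have _ : EncInj R := finEncC_inj R
  let _ : Enc tm.Λ := finEncC tm.Λ
  have _ : EncInj tm.Λ := finEncC_inj tm.Λ
  let _ : Enc tm.σ := finEncC tm.σ
  have _ : EncInj tm.σ := finEncC_inj tm.σ
  -- initial configuration
  let init : List Bool → CC R tm.Λ tm.σ (Fintype.card tm.K) := fun x =>
    (some tm.main, (tm.initialState, Function.update (fun _ => []) (e tm.k₀)
      (x.map fun b => toSym R d tm.k₀ (ia.symm b))))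
  have hinit : PTime init := by
    refine (PTime.const _).pair ((PTime.const _).pair ?_)
    refine PTime.updateFnC (PTime.const _) (e tm.k₀) ?_
    exact PTime.map (g := fun (_ : List Bool) (b : Bool) => toSym R d tm.k₀ (ia.symm b))
      PTime.id ((PTime.of_finiteC fun b : Bool => toSym R d tm.k₀ (ia.symm b)).comp
        PTime.snd)
  have hstep := stepC_ptime R d e tm.m
  -- the runs of the machine
  have hrep0 : ∀ x : List Bool, RepC R d e (initList tm (List.map ia.invFun x)) (init x) := by
    intro x
    refine ⟨rfl, rfl, ?_, ?_⟩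
    · intro k a ha
      by_cases hk : k = tm.k₀
      · subst hk
        exact Or.inr ⟨a, rfl⟩
      · simp [initList, hk] at ha
    · intro k
      by_cases hk : k = tm.k₀
      · subst hk
        simp only [init, Function.update_self, initList]
        simp [List.map_map, Function.comp_def]
      · simp only [init, initList]
        rw [Function.update_of_ne (fun h => hk (e.injective h))]
        simp [hk]
  have hruns : ∀ (n : ℕ) (c c₁ : tm.Cfg) (c' : CC R tm.Λ tm.σ (Fintype.card tm.K)),
      RepC R d e c c' → (flip bind tm.step)^[n] (some c) = some c₁ →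
      (∀ i < n, ((stepC R d e tm.m)^[i] c').1.isSome = true) ∧
      RepC R d e c₁ ((stepC R d e tm.m)^[n] c') := by
    intro n
    induction n with
    | zero =>
      intro c c₁ c' h h1
      simp only [Function.iterate_zero, id_eq, Option.some.injEq] at h1
      subst h1
      exact ⟨fun i hi => absurd hi (Nat.not_lt_zero _), h⟩
    | succ n ih =>
      intro c c₁ c' h h1
      rw [Function.iterate_succ_apply] at h1
      cases hs : tm.step c with
      | none =>
        have hn : ∀ k : ℕ, (flip bind tm.step)^[k] (none : Option tm.Cfg) = none := by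
          intro k
          induction k with
          | zero => rfl
          | succ k ihk => rw [Function.iterate_succ_apply]; exact ihk
        have : flip bind tm.step (some c) = none := hs
        rw [this, hn n] at h1
        exact absurd h1 (by simp)
      | some c₂ =>
        have : flip bind tm.step (some c) = some c₂ := hs
        rw [this] at h1
        obtain ⟨h2, h3⟩ := stepC_spec hM h hs
        obtain ⟨h4, h5⟩ := ih c₂ c₁ _ h3 h1
        refine ⟨fun i hi => ?_, by rw [Function.iterate_succ_apply]; exact h5⟩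
        rcases i with _ | i
        · exact h2
        · rw [Function.iterate_succ_apply]; exact h4 i (by omega)
  -- number of steps
  let n : List Bool → ℕ := fun x => (hout x).steps
  have hev : ∀ x : List Bool, (flip bind tm.step)^[n x] (some (initList tm (List.map ia.invFun
      x))) = some (haltList tm (List.map oa.invFun (f x))) :=
    fun x => (hout x).evals_in_steps
  have hlen : ∀ x : List Bool, x.length ≤ size (enc x) := fun x => by
    have := length_le_size x
    omega
  have hmono : ∀ (p : Polynomial ℕ) (a b : ℕ), a ≤ b → p.eval a ≤ p.eval b := by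
    intro p a b hab
    rw [Polynomial.eval_eq_sum_range, Polynomial.eval_eq_sum_range]
    exact Finset.sum_le_sum fun i _ => Nat.mul_le_mul_left _ (Nat.pow_le_pow_left hab i)
  have hn : ∀ x, n x ≤ time.eval (size (enc x)) := fun x =>
    (hout x).steps_le_m.trans (hmono _ _ _ (hlen x))
  have hfin := fun x => hruns (n x) _ _ _ (hrep0 x) (hev x)
  obtain ⟨B, hB⟩ := size_CC (Γ := tm.Γ) (Λ := tm.Λ) (σ := tm.σ) R (Fintype.card tm.K)
  obtain ⟨C, hC⟩ : ∃ C, ∀ l, cost (tm.m l) ≤ C := by
    obtain ⟨C, hC⟩ := (Set.finite_range fun l => cost (tm.m l)).bddAbove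
    exact ⟨C, fun l => hC ⟨l, rfl⟩⟩
  have htot : ∀ (i : ℕ) (c : CC R tm.Λ tm.σ (Fintype.card tm.K)),
      tot ((stepC R d e tm.m)^[i] c).2.2 ≤ tot c.2.2 + i * C := by
    intro i
    induction i with
    | zero => intro c; simp
    | succ i ih =>
      intro c
      rw [Function.iterate_succ_apply, Nat.add_one_mul]
      have h1 := ih (stepC R d e tm.m c)
      have h2 := stepC_tot R d e tm.m C hC c
      omega
  have htot0 : ∀ x, tot (init x).2.2 ≤ size (enc x) := by
    intro x
    have := tot_update (fun _ : Fin (Fintype.card tm.K) => ([] : List R)) (e tm.k₀)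
      (x.map fun b => toSym R d tm.k₀ (ia.symm b))
    have h0 : tot (fun _ : Fin (Fintype.card tm.K) => ([] : List R)) = 0 := by simp [tot]
    rw [h0, List.length_map, List.length_nil] at this
    change tot (Function.update (fun _ : Fin (Fintype.card tm.K) => ([] : List R)) (e tm.k₀) _) ≤ _
    have := hlen x
    omega
  have hw := PTime.while hinit (cond := fun c => c.1.isSome)
    ((PTime.of_finiteC fun l : Option tm.Λ => l.isSome).comp PTime.fst) hstep n
    (fun x i hi => (hfin x).1 i hi)
    (fun x => by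
      have := (hfin x).2.1
      simp only [this]
      rfl)
    (N := fun k => time.eval k) (B := fun k => (k + time.eval k * C) * B + B)
    ⟨time, fun _ => le_refl _⟩
    (((PBd.id.add (PBd.mul ⟨time, fun _ => le_refl _⟩ (PBd.const C))).mul (PBd.const B)).add
      (PBd.const B)) hn
    (fun x i hi => by
      refine (hB _).trans (Nat.add_le_add_right (Nat.mul_le_mul_right B ?_) B)
      refine (htot i (init x)).trans (Nat.add_le_add (htot0 x) (Nat.mul_le_mul_right C ?_))
      exact hi.trans (hn x))
  -- output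
  have hout' : PTime (fun T : Fin (Fintype.card tm.K) → List R =>
      (T (e tm.k₁)).map fun s => match ofSym R tm.k₁ s with
        | none => false
        | some a => oa a) :=
    PTime.map (g := fun (_ : Fin (Fintype.card tm.K) → List R) (s : R) =>
      match ofSym R tm.k₁ s with
        | none => false
        | some a => oa a) (PTime.appFnC PTime.id (e tm.k₁))
      ((PTime.of_finiteC fun s : R => (match ofSym R tm.k₁ s with
        | none => false
        | some a => oa a : Bool)).comp PTime.snd)
  have hres := hout'.comp hw.sndC.sndC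
  refine hres.of_enc_eq (fun x => x) (fun _ => rfl) fun x => ?_
  have h1 := (hfin x).2.2.2
  rw [h1.2 tm.k₁]
  have h2 : (haltList tm (List.map oa.invFun (f x))).stk tm.k₁ =
      List.map oa.invFun (f x) := by
    simp [haltList]
  rw [h2, List.map_map, List.map_map]
  have h3 : ∀ b ∈ f x, (((fun s => match ofSym R tm.k₁ s with
        | none => false
        | some a => oa a) ∘ toSym R d tm.k₁) ∘ oa.invFun) b = b := by
    intro b hb
    have hmem : (⟨tm.k₁, oa.invFun b⟩ : Σ k, tm.Γ k) ∈ R := by
      refine h1.1 tm.k₁ (oa.invFun b) ?_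
      rw [h2]
      exact List.mem_map.2 ⟨b, hb, rfl⟩
    simp only [Function.comp_apply]
    rw [ofSym_toSym R d tm.k₁ _ hmem]
    simp
  rw [List.map_congr_left h3, List.map_id']

end Pool.Agent.PolyTime

namespace Pool.Agent.CookLevin

open Pool.Agent.PolyTime

/-- Polynomial-time computable functions on words are the `PTime` ones. -/
theorem polyTimeComputable_iff {f : List Bool → List Bool} : PolyTimeComputable f ↔ PTime f :=
  ⟨ptime_of_machine, polyTimeComputable_of_ptime⟩

end Pool.Agent.CookLevin
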