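import Pool.Agent.Lib.CookLevin.Nat
import Pool.Agent.Lib.MP_612bca_lc.TokDefs

/-!
# Reading the tokens of a sentence in polynomial time
-/

namespace Pool.Agent.Lib.MP_612bca_lc
open Pool.Agent.PolyTime

namespace Parse

/-- State: mode, (number, name read so far, reversed), tokens read so far (reversed). Modes:
`(false, _)` reading the number, `(true, false)` expecting a marker, `(true, true)` reading a bit
of the name. -/
abbrev State := (Bool × Bool) × ((ℕ × List Bool) × List (ℕ × List Bool))

/-- One step of the parser. -/
def step (s : State) (x : Bool) : State :=
  if s.1.1 = true then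
    if s.1.2 = true then ((true, false), ((s.2.1.1, x :: s.2.1.2), s.2.2)) else
      if x = true then ((true, true), s.2) else
        ((false, false), ((0, []), (s.2.1.1, s.2.1.2.reverse) :: s.2.2))
  else if x = true then ((false, false), ((s.2.1.1 + 1, s.2.1.2), s.2.2)) else
    ((true, false), s.2)

/-- The parser. -/
def run (w : List Bool) : List (ℕ × List Bool) :=
  (w.foldl step ((false, false), ((0, []), []))).2.2.reverse

theorem run_ones (i : ℕ) (c : ℕ) (out : List (ℕ × List Bool)) :
    (List.replicate i true).foldl step ((false, false), ((c, []), out)) =
      ((false, false), ((c + i, []), out)) := by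
  induction i generalizing c with
  | zero => rfl
  | succ i ih =>
    rw [List.replicate_succ, List.foldl_cons]
    have : step ((false, false), ((c, []), out)) true = ((false, false), ((c + 1, []), out)) := rfl
    rw [this, ih]
    simp only [Prod.mk.injEq, and_true, true_and]
    omega

theorem run_name (name : List Bool) (c : ℕ) (nm : List Bool) (out : List (ℕ × List Bool)) :
    (name.flatMap fun b => [true, b]).foldl step ((true, false), ((c, nm), out)) =
      ((true, false), ((c, name.reverse ++ nm), out)) := by
  induction name generalizing nm with
  | nil => rfl
  | cons b name ih =>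
    rw [List.flatMap_cons, List.foldl_append]
    have : [true, b].foldl step ((true, false), ((c, nm), out)) =
      ((true, false), ((c, b :: nm), out)) := rfl
    rw [this, ih]
    simp

theorem run_symbol (i : ℕ) (name : List Bool) (out : List (ℕ × List Bool)) :
    (symbolWord i name).foldl step ((false, false), ((0, []), out)) =
      ((false, false), ((0, []), (i, name) :: out)) := by
  have h1 : step ((false, false), ((0 + i, []), out)) false = ((true, false), ((i, []), out)) := by
    simp [step]
  have h2 : symbolWord i name = List.replicate i true ++
      (false :: ((name.flatMap fun b => [true, b]) ++ [false])) := by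
    simp [symbolWord]
  rw [h2, List.foldl_append, run_ones, List.foldl_cons, h1, List.foldl_append, run_name]
  simp [step]

theorem run_term (t : Term) (out : List (ℕ × List Bool)) :
    t.word.foldl step ((false, false), ((0, []), out)) =
      ((false, false), ((0, []), t.toks.reverse ++ out)) := by
  induction t generalizing out with
  | zero => exact run_symbol 0 [] out
  | one => exact run_symbol 1 [] out
  | var name => exact run_symbol 2 name out
  | add s t ihs iht =>
    rw [Term.word, List.foldl_append, List.foldl_append, run_symbol, ihs, iht, Term.toks]
    simp
  | mul s t ihs iht =>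
    rw [Term.word, List.foldl_append, List.foldl_append, run_symbol, ihs, iht, Term.toks]
    simp

theorem run_formula (φ : Formula) (out : List (ℕ × List Bool)) :
    φ.word.foldl step ((false, false), ((0, []), out)) =
      ((false, false), ((0, []), φ.toks.reverse ++ out)) := by
  induction φ generalizing out with
  | lt s t =>
    rw [Formula.word, List.foldl_append, List.foldl_append, run_symbol, run_term, run_term,
      Formula.toks]
    simp
  | eq s t =>
    rw [Formula.word, List.foldl_append, List.foldl_append, run_symbol, run_term, run_term,
      Formula.toks]
    simp
  | and φ ψ ih₁ ih₂ =>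
    rw [Formula.word, List.foldl_append, List.foldl_append, run_symbol, ih₁, ih₂, Formula.toks]
    simp
  | or φ ψ ih₁ ih₂ =>
    rw [Formula.word, List.foldl_append, List.foldl_append, run_symbol, ih₁, ih₂, Formula.toks]
    simp
  | not φ ih =>
    rw [Formula.word, List.foldl_append, run_symbol, ih, Formula.toks]
    simp

theorem size_reverse {β : Type} [Enc β] (l : List β) : size (enc l.reverse) = size (enc l) := by
  induction l with
  | nil => rfl
  | cons x l ih =>
    rw [List.reverse_cons, size_lcons]
    have h := size_append l.reverse [x]
    rw [size_lcons, enc_nil, size_nil] at h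
    omega

theorem size_bool (b : Bool) : 1 ≤ size (enc b) ∧ size (enc b) ≤ 3 := by
  cases b <;> simp [enc_true, enc_false]

theorem step_size (s : State) (x : Bool) : size (enc (step s x)) ≤ size (enc s) + 20 := by
  obtain ⟨⟨a, b⟩, ⟨⟨c, nm⟩, out⟩⟩ := s
  have ha := size_bool a
  have hb := size_bool b
  have hx := size_bool x
  have ht := size_bool true
  have hf := size_bool false
  simp only [step]
  split_ifs <;> simp only [size_pair, size_lcons, size_nat, size_reverse, enc_nil, size_nil] <;>
    omega

theorem step_ptime : PTime (fun p : State × Bool => step p.1 p.2) := by
  have s : PTime (fun p : State × Bool => p.1) := PTime.fst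
  have x : PTime (fun p : State × Bool => p.2) := PTime.snd
  have s1 : PTime (fun p : State × Bool => p.1.1) := PTime.fst.comp s
  have s2 : PTime (fun p : State × Bool => p.1.2) := PTime.snd.comp s
  have a : PTime (fun p : State × Bool => p.1.1.1) := PTime.fst.comp s1
  have b : PTime (fun p : State × Bool => p.1.1.2) := PTime.snd.comp s1
  have t : PTime (fun p : State × Bool => p.1.2.1) := PTime.fst.comp s2
  have out : PTime (fun p : State × Bool => p.1.2.2) := PTime.snd.comp s2
  have c : PTime (fun p : State × Bool => p.1.2.1.1) := PTime.fst.comp t
  have nm : PTime (fun p : State × Bool => p.1.2.1.2) := PTime.snd.comp t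
  exact PTime.ite a
    (PTime.ite b ((PTime.const (true, false)).pair ((c.pair (x.cons nm)).pair out))
      (PTime.ite x ((PTime.const (true, true)).pair s2)
        ((PTime.const (false, false)).pair ((PTime.const (0, [])).pair
          ((c.pair nm.reverse).cons out)))))
    (PTime.ite x ((PTime.const (false, false)).pair ((c.succ.pair nm).pair out))
      ((PTime.const (true, false)).pair s2))

theorem foldl_size (l : List Bool) (s : State) :
    size (enc (l.foldl step s)) ≤ size (enc s) + 20 * l.length := by
  induction l generalizing s with
  | nil => simp
  | cons x l ih =>
    rw [List.foldl_cons, List.length_cons]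
    have h1 := ih (step s x)
    have h2 := step_size s x
    omega

theorem run_ptime : PTime run := by
  have h : PTime (fun w : List Bool => w.foldl step ((false, false), ((0, []), []))) := by
    have hs : PTime (fun p : List Bool × (State × Bool) => step p.2.1 p.2.2) :=
      step_ptime.comp PTime.snd
    refine PTime.foldl (g := fun _ : List Bool => (((false, false), ((0, []), [])) : State))
      (h := fun (_ : List Bool) (s : State) (x : Bool) => step s x)
      PTime.id (PTime.const _) hs
      (B := fun n => size (enc (((false, false), ((0, []), [])) : State)) + 20 * n) ?_ ?_
    · exact (PBd.const _).add ((PBd.const 20).mul PBd.id)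
    · intro w l₁ l₂ hw
      have h1 := foldl_size l₁ ((false, false), ((0, []), []))
      have h2 := length_le_size w
      have h3 : l₁.length ≤ w.length := by rw [hw]; simp
      refine h1.trans ?_
      omega
  exact (PTime.snd.comp (PTime.snd.comp h)).reverse

end Parse

theorem parse_exists : ∃ P : List Bool → List (ℕ × List Bool), PTime P ∧
    ∀ φ : Formula, P φ.word = φ.toks :=
  ⟨Parse.run, Parse.run_ptime, fun φ => by
    rw [Parse.run, Parse.run_formula]
    simp⟩

end Pool.Agent.Lib.MP_612bca_lc
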