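import Pool.Agent.Lib.MP_612bca_lc.TokDefs

/-!
# From a sentence to a system of polynomial equations
-/

namespace Pool.Agent.Lib.MP_612bca_lc

set_option linter.unusedSimpArgs false

theorem sys_tokCons_below (t kind a b B : ℕ) (hB : 10 * t + 12 ≤ B) (ha : a < B) (hb : b < B) :
    ∀ c ∈ tokCons t kind a b, c.Below B := by
  intro c hc
  unfold tokCons at hc
  simp only at hc
  split at hc <;> simp only [List.mem_cons, List.not_mem_nil, or_false] at hc
  · subst hc; simp only [Con.Below]; omega
  · subst hc; simp only [Con.Below]; omega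
  · subst hc; simp only [Con.Below]; omega
  · subst hc; simp only [Con.Below]; omega
  · rcases hc with rfl | rfl | rfl | rfl | rfl | rfl | rfl | rfl <;> simp only [Con.Below] <;> omega
  · rcases hc with rfl | rfl | rfl | rfl <;> simp only [Con.Below] <;> omega
  · subst hc; simp only [Con.Below]; omega
  · rcases hc with rfl | rfl | rfl <;> simp only [Con.Below] <;> omega
  · subst hc; simp only [Con.Below]; omega

theorem sys_headD_lt (s : List ℕ) (B : ℕ) (hB : 0 < B) (h : ∀ v ∈ s, v < B) : s.headD 0 < B := by
  cases s with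
  | nil => simpa using hB
  | cons a s => exact h a (by simp)

theorem sys_tokRun_below (l : List (ℕ × List Bool)) : ∀ t,
    (∀ v ∈ (tokRun t l).1, v < 10 * (t + l.length) + 2) ∧
    ∀ c ∈ (tokRun t l).2, c.Below (10 * (t + l.length) + 2) := by
  induction l with
  | nil => intro t; simp [tokRun]
  | cons tok l ih =>
    intro t
    obtain ⟨h1, h2⟩ := ih (t + 1)
    have hlen : t + (tok :: l).length = t + 1 + l.length := by simp; omega
    rw [hlen]
    simp only [tokRun, tokStep]
    constructor
    · intro v hv
      rw [List.mem_cons] at hv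
      rcases hv with rfl | hv
      · omega
      · apply h1
        split_ifs at hv
        · exact hv
        · exact List.mem_of_mem_tail hv
        · exact List.mem_of_mem_tail (List.mem_of_mem_tail hv)
    · intro c hc
      rw [List.mem_append] at hc
      rcases hc with hc | hc
      · refine sys_tokCons_below t tok.1 _ _ _ (by omega) ?_ ?_ c hc
        · exact sys_headD_lt _ _ (by omega) h1
        · exact sys_headD_lt _ _ (by omega) (fun v hv => h1 v (List.mem_of_mem_tail hv))
      · exact h2 c hc

theorem sysOf_below (φ : Formula) : ∀ c ∈ sysOf φ.toks, c.Below (sysNum φ.toks) := by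
  intro c hc
  have h0 := sys_tokRun_below φ.toks 0
  rw [Nat.zero_add] at h0
  unfold sysNum
  simp only [sysOf, List.mem_append, List.mem_cons, List.not_mem_nil, or_false] at hc
  rcases hc with ((rfl | rfl | rfl) | hc) | hc
  · simp only [Con.Below]; omega
  · simp only [Con.Below]; omega
  · simp only [Con.Below]
    exact sys_headD_lt _ _ (by omega) h0.1
  · simp only [varCons, List.mem_flatMap, List.mem_map, List.mem_filter] at hc
    obtain ⟨p, hp, q, ⟨hq, _⟩, rfl⟩ := hc
    have hp' := List.snd_lt_of_mem_zipIdx hp
    have hq' := List.snd_lt_of_mem_zipIdx hq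
    simp only [Con.Below]
    omega
  · exact h0.2 c hc

/-! ### Soundness -/

/-- `z` gives the variable tokens of `l` (starting at position `t`) the values prescribed by `x`. -/
def SysVar (z : ℕ → ℝ) (x : List Bool → ℝ) (t : ℕ) (l : List (ℕ × List Bool)) : Prop :=
  ∀ p ∈ l.zipIdx t, p.1.1 = 2 → z (10 * p.2 + 2) = x p.1.2

theorem sys_var_cons {z : ℕ → ℝ} {x : List Bool → ℝ} {t : ℕ} {tok : ℕ × List Bool}
    {l : List (ℕ × List Bool)} (h : SysVar z x t (tok :: l)) :
    (tok.1 = 2 → z (10 * t + 2) = x tok.2) ∧ SysVar z x (t + 1) l := by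
  unfold SysVar at *
  rw [List.zipIdx_cons] at h
  exact ⟨fun h2 => h (tok, t) (by simp) h2, fun p hp => h p (by simp [hp])⟩

theorem sys_var_append {z : ℕ → ℝ} {x : List Bool → ℝ} {t : ℕ} {l l' : List (ℕ × List Bool)}
    (h : SysVar z x t (l ++ l')) : SysVar z x (t + l.length) l' := by
  unfold SysVar at *
  rw [List.zipIdx_append] at h
  exact fun p hp => h p (by simp only [List.mem_append]; right; exact hp)

theorem sys_sol_append {z : ℕ → ℝ} {S S' : List Con} (h : Sol (S ++ S') z) : Sol S z ∧ Sol S' z :=
  ⟨fun c hc => h c (by simp [hc]), fun c hc => h c (by simp [hc])⟩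

theorem sys_term_sound (z : ℕ → ℝ) (x : List Bool → ℝ) (h0 : z 0 = 0) (s : Term) :
    ∀ t rest, SysVar z x t (s.toks ++ rest) → Sol (tokRun t (s.toks ++ rest)).2 z →
      (tokRun t (s.toks ++ rest)).1 = (10 * t + 2) :: (tokRun (t + s.toks.length) rest).1 ∧
      z (10 * t + 2) = s.eval x ∧ Sol (tokRun (t + s.toks.length) rest).2 z := by
  induction s with
  | zero =>
    intro t rest _ hs
    simp only [Term.toks, List.cons_append, List.nil_append, tokRun, tokStep] at hs ⊢
    obtain ⟨h1, h2⟩ := sys_sol_append hs
    refine ⟨by simp, ?_, by simpa using h2⟩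
    have := h1 (.add 0 0 (10 * t + 2)) (by simp [tokCons])
    simp only [Con.val, h0] at this
    simp only [Term.eval]
    linarith
  | one =>
    intro t rest _ hs
    simp only [Term.toks, List.cons_append, List.nil_append, tokRun, tokStep] at hs ⊢
    obtain ⟨h1, h2⟩ := sys_sol_append hs
    refine ⟨by simp, ?_, by simpa using h2⟩
    have := h1 (.one (10 * t + 2)) (by simp [tokCons])
    simp only [Con.val] at this
    simp only [Term.eval]
    linarith
  | var name =>
    intro t rest hv hs
    simp only [Term.toks, List.cons_append, List.nil_append, tokRun, tokStep] at hs hv ⊢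
    obtain ⟨h1, h2⟩ := sys_sol_append hs
    refine ⟨by simp, ?_, by simpa using h2⟩
    exact (sys_var_cons hv).1 rfl
  | add s u ihs ihu =>
    intro t rest hv hs
    simp only [Term.toks, List.cons_append, List.append_assoc, tokRun, tokStep] at hs hv ⊢
    obtain ⟨h1, h2⟩ := sys_sol_append hs
    have hv' := (sys_var_cons hv).2
    obtain ⟨e1, e2, e3⟩ := ihs (t + 1) _ hv' h2
    obtain ⟨f1, f2, f3⟩ := ihu _ _ (sys_var_append hv') e3
    have hlen : t + ((3, []) :: (s.toks ++ u.toks)).length =
        t + 1 + s.toks.length + u.toks.length := by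
      simp; omega
    rw [hlen]
    rw [e1, f1] at h1
    refine ⟨by rw [e1, f1]; simp, ?_, f3⟩
    have := h1 (.add (10 * (t + 1) + 2) (10 * (t + 1 + s.toks.length) + 2) (10 * t + 2))
      (by simp [tokCons])
    simp only [Con.val, e2, f2] at this
    simp only [Term.eval]
    linarith
  | mul s u ihs ihu =>
    intro t rest hv hs
    simp only [Term.toks, List.cons_append, List.append_assoc, tokRun, tokStep] at hs hv ⊢
    obtain ⟨h1, h2⟩ := sys_sol_append hs
    have hv' := (sys_var_cons hv).2
    obtain ⟨e1, e2, e3⟩ := ihs (t + 1) _ hv' h2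
    obtain ⟨f1, f2, f3⟩ := ihu _ _ (sys_var_append hv') e3
    have hlen : t + ((4, []) :: (s.toks ++ u.toks)).length =
        t + 1 + s.toks.length + u.toks.length := by
      simp; omega
    rw [hlen]
    rw [e1, f1] at h1
    refine ⟨by rw [e1, f1]; simp, ?_, f3⟩
    have := h1 (.mul (10 * (t + 1) + 2) (10 * (t + 1 + s.toks.length) + 2) (10 * t + 2))
      (by simp [tokCons])
    simp only [Con.val, e2, f2] at this
    simp only [Term.eval]
    linarith

open Classical in
theorem sys_formula_sound (z : ℕ → ℝ) (x : List Bool → ℝ) (h0 : z 0 = 0) (h1' : z 1 = 1)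
    (φ : Formula) :
    ∀ t rest, SysVar z x t (φ.toks ++ rest) → Sol (tokRun t (φ.toks ++ rest)).2 z →
      (tokRun t (φ.toks ++ rest)).1 = (10 * t + 2) :: (tokRun (t + φ.toks.length) rest).1 ∧
      z (10 * t + 2) = (if φ.Holds x then 1 else 0) ∧
      Sol (tokRun (t + φ.toks.length) rest).2 z := by
  induction φ with
  | lt s u =>
    intro t rest hv hs
    simp only [Formula.toks, List.cons_append, List.append_assoc, tokRun, tokStep] at hs hv ⊢
    obtain ⟨h1, h2⟩ := sys_sol_append hs
    have hv' := (sys_var_cons hv).2
    obtain ⟨e1, e2, e3⟩ := sys_term_sound z x h0 s (t + 1) _ hv' h2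
    obtain ⟨f1, f2, f3⟩ := sys_term_sound z x h0 u _ _ (sys_var_append hv') e3
    have hlen : t + ((5, []) :: (s.toks ++ u.toks)).length =
        t + 1 + s.toks.length + u.toks.length := by
      simp; omega
    rw [hlen]
    rw [e1, f1] at h1
    refine ⟨by rw [e1, f1]; simp, ?_, f3⟩
    simp only [Sol, tokCons, List.mem_cons, List.not_mem_nil, or_false, forall_eq_or_imp,
      forall_eq, List.headD_cons, List.tail_cons, Con.val, h0, h1', e2, f2] at h1
    obtain ⟨c1, c2, c3, c4, c5, c6, c7, c8⟩ := h1
    have hv01 : z (10 * t + 2) = 0 ∨ z (10 * t + 2) = 1 := by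
      have : z (10 * t + 2) * (z (10 * t + 2) - 1) = 0 := by linarith
      rcases mul_eq_zero.1 this with h | h
      · left; exact h
      · right; linarith
    rcases hv01 with hv0 | hv1
    · rw [hv0] at c4 c5 ⊢
      have : z (10 * t + 2 + 4) = 1 := by linarith
      rw [this] at c8
      have hle : u.eval x ≤ s.eval x := by nlinarith [mul_self_nonneg (z (10 * t + 2 + 5))]
      rw [if_neg (show ¬ (Formula.lt s u).Holds x from not_lt.2 hle)]
    · rw [hv1] at c4 ⊢
      have h3 : z (10 * t + 2 + 1) * (z (10 * t + 2 + 2) * z (10 * t + 2 + 2)) = 1 := by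
        have : z (10 * t + 2 + 3) = z (10 * t + 2 + 2) * z (10 * t + 2 + 2) := by linarith
        rw [← this]; linarith
      have h4 : 0 < z (10 * t + 2 + 1) := by
        by_contra hcon
        push Not at hcon
        nlinarith [mul_self_nonneg (z (10 * t + 2 + 2))]
      rw [if_pos (show (Formula.lt s u).Holds x from by simp only [Formula.Holds]; linarith)]
  | eq s u =>
    intro t rest hv hs
    simp only [Formula.toks, List.cons_append, List.append_assoc, tokRun, tokStep] at hs hv ⊢
    obtain ⟨h1, h2⟩ := sys_sol_append hs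
    have hv' := (sys_var_cons hv).2
    obtain ⟨e1, e2, e3⟩ := sys_term_sound z x h0 s (t + 1) _ hv' h2
    obtain ⟨f1, f2, f3⟩ := sys_term_sound z x h0 u _ _ (sys_var_append hv') e3
    have hlen : t + ((6, []) :: (s.toks ++ u.toks)).length =
        t + 1 + s.toks.length + u.toks.length := by
      simp; omega
    rw [hlen]
    rw [e1, f1] at h1
    refine ⟨by rw [e1, f1]; simp, ?_, f3⟩
    simp only [Sol, tokCons, List.mem_cons, List.not_mem_nil, or_false, forall_eq_or_imp,
      forall_eq, List.headD_cons, List.tail_cons, Con.val, h0, h1', e2, f2] at h1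
    obtain ⟨c1, c2, c3, c4⟩ := h1
    by_cases hu : z (10 * t + 2 + 1) = 0
    · rw [hu] at c1 c3
      rw [if_pos (show (Formula.eq s u).Holds x from by simp only [Formula.Holds]; linarith)]
      linarith
    · have hv0 : z (10 * t + 2) = 0 := by
        have : z (10 * t + 2 + 1) * z (10 * t + 2) = 0 := by linarith
        exact (mul_eq_zero.1 this).resolve_left hu
      rw [if_neg, hv0]
      intro he
      simp only [Formula.Holds] at he
      apply hu
      linarith
  | and φ ψ ihs ihu =>
    intro t rest hv hs
    simp only [Formula.toks, List.cons_append, List.append_assoc, tokRun, tokStep] at hs hv ⊢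
    obtain ⟨h1, h2⟩ := sys_sol_append hs
    have hv' := (sys_var_cons hv).2
    obtain ⟨e1, e2, e3⟩ := ihs (t + 1) _ hv' h2
    obtain ⟨f1, f2, f3⟩ := ihu _ _ (sys_var_append hv') e3
    have hlen : t + ((7, []) :: (φ.toks ++ ψ.toks)).length =
        t + 1 + φ.toks.length + ψ.toks.length := by
      simp; omega
    rw [hlen]
    rw [e1, f1] at h1
    refine ⟨by rw [e1, f1]; simp, ?_, f3⟩
    simp only [Sol, tokCons, List.mem_cons, List.not_mem_nil, or_false, forall_eq_or_imp,
      forall_eq, List.headD_cons, List.tail_cons, Con.val, h0, h1', e2, f2] at h1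
    simp only [Formula.Holds]
    by_cases hp : φ.Holds x <;> by_cases hq : ψ.Holds x <;> simp only [hp, hq, if_true, if_false,
      and_true, and_false] at h1 ⊢ <;> linarith
  | or φ ψ ihs ihu =>
    intro t rest hv hs
    simp only [Formula.toks, List.cons_append, List.append_assoc, tokRun, tokStep] at hs hv ⊢
    obtain ⟨h1, h2⟩ := sys_sol_append hs
    have hv' := (sys_var_cons hv).2
    obtain ⟨e1, e2, e3⟩ := ihs (t + 1) _ hv' h2
    obtain ⟨f1, f2, f3⟩ := ihu _ _ (sys_var_append hv') e3
    have hlen : t + ((8, []) :: (φ.toks ++ ψ.toks)).length =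
        t + 1 + φ.toks.length + ψ.toks.length := by
      simp; omega
    rw [hlen]
    rw [e1, f1] at h1
    refine ⟨by rw [e1, f1]; simp, ?_, f3⟩
    simp only [Sol, tokCons, List.mem_cons, List.not_mem_nil, or_false, forall_eq_or_imp,
      forall_eq, List.headD_cons, List.tail_cons, Con.val, h0, h1', e2, f2] at h1
    obtain ⟨c1, c2, c3⟩ := h1
    simp only [Formula.Holds]
    by_cases hp : φ.Holds x <;> by_cases hq : ψ.Holds x <;> simp only [hp, hq, if_true, if_false,
      or_true, or_false, true_or] at c1 c2 c3 ⊢ <;> linarith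
  | not φ ih =>
    intro t rest hv hs
    simp only [Formula.toks, List.cons_append, tokRun, tokStep] at hs hv ⊢
    obtain ⟨h1, h2⟩ := sys_sol_append hs
    have hv' := (sys_var_cons hv).2
    obtain ⟨e1, e2, e3⟩ := ih (t + 1) _ hv' h2
    have hlen : t + ((9, []) :: φ.toks).length = t + 1 + φ.toks.length := by
      simp; omega
    rw [hlen]
    rw [e1] at h1
    refine ⟨by rw [e1]; simp, ?_, e3⟩
    simp only [Sol, tokCons, List.mem_cons, List.not_mem_nil, or_false, forall_eq_or_imp,
      forall_eq, List.headD_cons, List.tail_cons, Con.val, h0, h1', e2] at h1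
    simp only [Formula.Holds]
    by_cases hp : φ.Holds x <;> simp only [hp, if_true, if_false, not_true, not_false_iff]
      at h1 ⊢ <;> linarith

/-! ### Completeness -/

open Classical in
/-- Values of the variables of a token, given the values of its operands. -/
noncomputable def sysVals (x : List Bool → ℝ) (tok : ℕ × List Bool) (α β : ℝ) : List ℝ :=
  match tok.1 with
  | 1 => [1]
  | 2 => [x tok.2]
  | 3 => [α + β]
  | 4 => [α * β]
  | 5 => [if α < β then 1 else 0, β - α, if α < β then 1 / Real.sqrt (β - α) else 0,
      (if α < β then 1 / Real.sqrt (β - α) else 0) * (if α < β then 1 / Real.sqrt (β - α) else 0),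
      1 - (if α < β then 1 else 0), Real.sqrt (α - β), Real.sqrt (α - β) * Real.sqrt (α - β),
      β - α + Real.sqrt (α - β) * Real.sqrt (α - β)]
  | 6 => [if α = β then 1 else 0, α - β, (α - β)⁻¹, 1 - (if α = β then 1 else 0)]
  | 7 => [α * β]
  | 8 => [α + β - α * β, α * β, α + β]
  | 9 => [1 - α]
  | _ => []

/-- Stack of values. -/
noncomputable def sysRun (x : List Bool → ℝ) : List (ℕ × List Bool) → List ℝ
  | [] => []
  | tok :: l =>
    let s := sysRun x l
    (sysVals x tok (s.headD 0) (s.tail.headD 0)).getD 0 0 ::
      (if tok.1 ≤ 2 then s else if tok.1 = 9 then s.tail else s.tail.tail)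

/-- `z` has the right values on the blocks of the tokens of `l`, starting at position `t`. -/
def SysGood (x : List Bool → ℝ) (z : ℕ → ℝ) : ℕ → List (ℕ × List Bool) → Prop
  | _, [] => True
  | t, tok :: l =>
    (∀ j < 10, z (10 * t + 2 + j) =
      (sysVals x tok ((sysRun x l).headD 0) ((sysRun x l).tail.headD 0)).getD j 0) ∧
    SysGood x z (t + 1) l

theorem sys_headD_map (z : ℕ → ℝ) (h0 : z 0 = 0) (s : List ℕ) :
    z (s.headD 0) = (s.map z).headD 0 := by
  cases s with
  | nil => simpa using h0
  | cons a s => simp

theorem sys_tokCons_complete (x : List Bool → ℝ) (z : ℕ → ℝ) (h0 : z 0 = 0) (h1 : z 1 = 1)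
    (t : ℕ) (tok : ℕ × List Bool) (a b : ℕ)
    (h : ∀ j < 10, z (10 * t + 2 + j) = (sysVals x tok (z a) (z b)).getD j 0) :
    Sol (tokCons t tok.1 a b) z := by
  obtain ⟨k, name⟩ := tok
  have j0 := h 0 (by norm_num)
  have j1 := h 1 (by norm_num)
  have j2 := h 2 (by norm_num)
  have j3 := h 3 (by norm_num)
  have j4 := h 4 (by norm_num)
  have j5 := h 5 (by norm_num)
  have j6 := h 6 (by norm_num)
  have j7 := h 7 (by norm_num)
  rw [add_zero] at j0
  intro c hc
  unfold tokCons at hc
  simp only at hc
  split at hc <;> simp only [List.mem_cons, List.not_mem_nil, or_false] at hc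
  · subst hc
    simp only [sysVals] at j0
    simp only [Con.val, h0, j0]
    simp
  · subst hc
    simp only [sysVals] at j0
    simp only [Con.val, j0]
    simp
  · subst hc
    simp only [sysVals] at j0
    simp only [Con.val, j0]
    simp
  · subst hc
    simp only [sysVals] at j0
    simp only [Con.val, j0]
    simp
  · simp only [sysVals, List.getD_cons_zero, List.getD_cons_succ] at j0 j1 j2 j3 j4 j5 j6 j7
    rcases hc with rfl | rfl | rfl | rfl | rfl | rfl | rfl | rfl
    · simp only [Con.val, j1]; ring
    · simp only [Con.val, j0]; split_ifs <;> norm_num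
    · simp only [Con.val, j2, j3]; ring
    · simp only [Con.val, j0, j1, j3]
      split_ifs with hlt
      · have hpos : 0 < z b - z a := by linarith
        have hs : Real.sqrt (z b - z a) * Real.sqrt (z b - z a) = z b - z a :=
          Real.mul_self_sqrt hpos.le
        have hne : Real.sqrt (z b - z a) ≠ 0 := (Real.sqrt_pos.2 hpos).ne'
        have h3 : 1 / Real.sqrt (z b - z a) * (1 / Real.sqrt (z b - z a)) = 1 / (z b - z a) := by
          rw [div_mul_div_comm, hs, one_mul]
        rw [h3]
        field_simp
        ring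
      · ring
    · simp only [Con.val, j0, j4, h1]; ring
    · simp only [Con.val, j5, j6]; ring
    · simp only [Con.val, j1, j6, j7]; ring
    · simp only [Con.val, j4, j7, h0]
      split_ifs with hlt
      · ring
      · push Not at hlt
        rw [Real.mul_self_sqrt (by linarith)]
        ring
  · simp only [sysVals, List.getD_cons_zero, List.getD_cons_succ] at j0 j1 j2 j3
    rcases hc with rfl | rfl | rfl | rfl
    · simp only [Con.val, j1]; ring
    · simp only [Con.val, j0, j1, h0]
      split_ifs with he
      · rw [he]; ring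
      · ring
    · simp only [Con.val, j1, j2, j3]
      split_ifs with he
      · rw [he]; ring
      · have : z a - z b ≠ 0 := fun h => he (by linarith)
        rw [mul_inv_cancel₀ this]
        ring
    · simp only [Con.val, j0, j3, h1]; ring
  · subst hc
    simp only [sysVals] at j0
    simp only [Con.val, j0]
    simp
  · simp only [sysVals, List.getD_cons_zero, List.getD_cons_succ] at j0 j1 j2
    rcases hc with rfl | rfl | rfl
    · simp only [Con.val, j1]; ring
    · simp only [Con.val, j0, j1, j2]; ring
    · simp only [Con.val, j2]; ring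
  · subst hc
    simp only [sysVals] at j0
    simp only [Con.val, j0, h1]
    simp

theorem sys_complete (x : List Bool → ℝ) (z : ℕ → ℝ) (h0 : z 0 = 0) (h1 : z 1 = 1)
    (l : List (ℕ × List Bool)) : ∀ t, SysGood x z t l →
    (tokRun t l).1.map z = sysRun x l ∧ Sol (tokRun t l).2 z := by
  induction l with
  | nil => intro t _; simp [tokRun, sysRun, Sol]
  | cons tok l ih =>
    intro t hg
    obtain ⟨hg1, hg2⟩ := hg
    obtain ⟨e1, e2⟩ := ih (t + 1) hg2
    have ha : z ((tokRun (t + 1) l).1.headD 0) = (sysRun x l).headD 0 := by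
      rw [sys_headD_map z h0, e1]
    have hb : z ((tokRun (t + 1) l).1.tail.headD 0) = (sysRun x l).tail.headD 0 := by
      rw [sys_headD_map z h0, List.map_tail, e1]
    simp only [tokRun, tokStep, sysRun, List.map_cons]
    constructor
    · congr 1
      · have := hg1 0 (by norm_num)
        rwa [add_zero] at this
      · split_ifs
        · exact e1
        · rw [List.map_tail, e1]
        · rw [List.map_tail, List.map_tail, e1]
    · intro c hc
      rw [List.mem_append] at hc
      rcases hc with hc | hc
      · refine sys_tokCons_complete x z h0 h1 t tok _ _ ?_ c hc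
        rw [ha, hb]
        exact hg1
      · exact e2 c hc

theorem sys_run_term (x : List Bool → ℝ) (s : Term) :
    ∀ rest, sysRun x (s.toks ++ rest) = s.eval x :: sysRun x rest := by
  induction s with
  | zero => intro rest; simp [Term.toks, sysRun, sysVals, Term.eval]
  | one => intro rest; simp [Term.toks, sysRun, sysVals, Term.eval]
  | var name => intro rest; simp [Term.toks, sysRun, sysVals, Term.eval]
  | add s u ihs ihu =>
    intro rest
    simp only [Term.toks, List.cons_append, List.append_assoc, sysRun, ihs, ihu]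
    simp [sysVals, Term.eval]
  | mul s u ihs ihu =>
    intro rest
    simp only [Term.toks, List.cons_append, List.append_assoc, sysRun, ihs, ihu]
    simp [sysVals, Term.eval]

open Classical in
theorem sys_run_formula (x : List Bool → ℝ) (φ : Formula) :
    ∀ rest, sysRun x (φ.toks ++ rest) = (if φ.Holds x then 1 else 0) :: sysRun x rest := by
  induction φ with
  | lt s u =>
    intro rest
    simp only [Formula.toks, List.cons_append, List.append_assoc, sysRun, sys_run_term]
    by_cases hp : s.eval x < u.eval x <;> simp [sysVals, Formula.Holds, hp]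
  | eq s u =>
    intro rest
    simp only [Formula.toks, List.cons_append, List.append_assoc, sysRun, sys_run_term]
    by_cases hp : s.eval x = u.eval x <;> simp [sysVals, Formula.Holds, hp]
  | and φ ψ ihs ihu =>
    intro rest
    simp only [Formula.toks, List.cons_append, List.append_assoc, sysRun, ihs, ihu]
    by_cases hp : φ.Holds x <;> by_cases hq : ψ.Holds x <;> simp [sysVals, Formula.Holds, hp, hq]
  | or φ ψ ihs ihu =>
    intro rest
    simp only [Formula.toks, List.cons_append, List.append_assoc, sysRun, ihs, ihu]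
    by_cases hp : φ.Holds x <;> by_cases hq : ψ.Holds x <;> simp [sysVals, Formula.Holds, hp, hq]
  | not φ ih =>
    intro rest
    simp only [Formula.toks, List.cons_append, sysRun, ih]
    by_cases hp : φ.Holds x <;> simp [sysVals, Formula.Holds, hp]

/-- The solution of the system attached to an assignment. -/
noncomputable def sysZ (x : List Bool → ℝ) (toks : List (ℕ × List Bool)) (i : ℕ) : ℝ :=
  if i = 0 then 0 else if i = 1 then 1 else
    (sysVals x (toks.getD ((i - 2) / 10) (0, [])) ((sysRun x (toks.drop ((i - 2) / 10 + 1))).headD 0)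
      ((sysRun x (toks.drop ((i - 2) / 10 + 1))).tail.headD 0)).getD ((i - 2) % 10) 0

theorem sys_Z_eq (x : List Bool → ℝ) (toks : List (ℕ × List Bool)) (t j : ℕ) (hj : j < 10) :
    sysZ x toks (10 * t + 2 + j) =
      (sysVals x (toks.getD t (0, [])) ((sysRun x (toks.drop (t + 1))).headD 0)
      ((sysRun x (toks.drop (t + 1))).tail.headD 0)).getD j 0 := by
  unfold sysZ
  rw [if_neg (by omega), if_neg (by omega)]
  have h1 : (10 * t + 2 + j - 2) / 10 = t := by omega
  have h2 : (10 * t + 2 + j - 2) % 10 = j := by omega
  rw [h1, h2]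

theorem sys_Z_good (x : List Bool → ℝ) (toks l : List (ℕ × List Bool)) :
    ∀ t, toks.drop t = l → SysGood x (sysZ x toks) t l := by
  induction l with
  | nil => intro t _; trivial
  | cons tok l ih =>
    intro t ht
    have ht1 : toks.drop (t + 1) = l := by
      rw [← List.drop_drop, ht]; simp
    have ht2 : toks.getD t (0, []) = tok := by
      have h3 : (toks.drop t)[0]? = some tok := by rw [ht]; rfl
      rw [List.getElem?_drop, add_zero] at h3
      rw [List.getD_eq_getElem?_getD, h3]
      rfl
    refine ⟨?_, ih (t + 1) ht1⟩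
    intro j hj
    rw [sys_Z_eq x toks t j hj, ht1, ht2]

theorem sysOf_iff (φ : Formula) : (∃ z, Sol (sysOf φ.toks) z) ↔ φ.Satisfiable := by
  classical
  constructor
  · rintro ⟨z, hz⟩
    unfold sysOf at hz
    obtain ⟨hz', h4⟩ := sys_sol_append hz
    obtain ⟨hz'', h3⟩ := sys_sol_append hz'
    have h0 : z 0 = 0 := by
      have := hz'' (.add 0 0 0) (by simp)
      simp only [Con.val] at this
      linarith
    have h1 : z 1 = 1 := by
      have := hz'' (.one 1) (by simp)
      simp only [Con.val] at this
      linarith
    have h2 : z ((tokRun 0 φ.toks).1.headD 0) = 1 := by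
      have := hz'' (.one ((tokRun 0 φ.toks).1.headD 0)) (by simp)
      simp only [Con.val] at this
      linarith
    let x : List Bool → ℝ := fun name =>
      if h : ∃ p ∈ φ.toks.zipIdx, p.1.1 = 2 ∧ p.1.2 = name then z (10 * (Classical.choose h).2 + 2)
      else 0
    have hv : SysVar z x 0 φ.toks := by
      intro p hp hp2
      have hex : ∃ q ∈ φ.toks.zipIdx, q.1.1 = 2 ∧ q.1.2 = p.1.2 := ⟨p, hp, hp2, rfl⟩
      have hx : x p.1.2 = z (10 * (Classical.choose hex).2 + 2) := dif_pos hex
      rw [hx]
      obtain ⟨hq1, hq2, hq3⟩ := Classical.choose_spec hex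
      have h5 := h3 (.add (10 * p.2 + 2) 0 (10 * (Classical.choose hex).2 + 2)) (by
        simp only [varCons, List.mem_flatMap, List.mem_map, List.mem_filter]
        refine ⟨p, hp, Classical.choose hex, ⟨hq1, ?_⟩, rfl⟩
        simp only [hp2, hq2, hq3, decide_true, Bool.and_self])
      simp only [Con.val, h0] at h5
      linarith
    have h6 := sys_formula_sound z x h0 h1 φ 0 [] (by simpa using hv) (by simpa using h4)
    simp only [List.append_nil] at h6
    obtain ⟨e1, e2, _⟩ := h6
    rw [e1] at h2
    simp only [List.headD_cons] at h2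
    rw [e2] at h2
    refine ⟨x, ?_⟩
    by_contra hcon
    rw [if_neg hcon] at h2
    norm_num at h2
  · rintro ⟨x, hx⟩
    set z := sysZ x φ.toks with hz
    have h0 : z 0 = 0 := by simp [hz, sysZ]
    have h1 : z 1 = 1 := by simp [hz, sysZ]
    obtain ⟨e1, e2⟩ := sys_complete x z h0 h1 φ.toks 0 (sys_Z_good x φ.toks φ.toks 0 rfl)
    refine ⟨z, ?_⟩
    intro c hc
    simp only [sysOf, List.mem_append, List.mem_cons, List.not_mem_nil, or_false] at hc
    rcases hc with ((rfl | rfl | rfl) | hc) | hc
    · simp [Con.val, h0]
    · simp [Con.val, h1]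
    · simp only [Con.val]
      rw [sys_headD_map z h0, e1]
      have := sys_run_formula x φ []
      rw [List.append_nil, if_pos hx] at this
      rw [this]
      simp
    · simp only [varCons, List.mem_flatMap, List.mem_map, List.mem_filter] at hc
      obtain ⟨p, hp, q, ⟨hq, hpq⟩, rfl⟩ := hc
      simp only [Bool.and_eq_true, decide_eq_true_eq] at hpq
      obtain ⟨⟨hp2, hq2⟩, hpq'⟩ := hpq
      have hval : ∀ p ∈ φ.toks.zipIdx, p.1.1 = 2 → z (10 * p.2 + 2) = x p.1.2 := by
        intro p hp hp2
        have h3 := sys_Z_eq x φ.toks p.2 0 (by norm_num)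
        rw [add_zero] at h3
        rw [hz, h3]
        have h4 : φ.toks.getD p.2 (0, []) = p.1 := by
          have := List.mem_zipIdx_iff_getElem?.1 hp
          rw [List.getD_eq_getElem?_getD, this]
          rfl
        rw [h4]
        simp [sysVals, hp2]
      simp only [Con.val, h0, hval p hp hp2, hval q hq hq2, hpq']
      ring
    · exact e2 c hc

end Pool.Agent.Lib.MP_612bca_lc
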