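import Pool.Agent.Lib.MP_612bca_lc.AlgDefs

/-!
# From a system to a bounded system

Module B of the reduction for `MP_612bca_lc`, up to the two gap theorems for polynomial systems,
which are hypotheses here.
-/

namespace Pool.Agent.Lib.MP_612bca_lc

theorem Bound.mem_zipIdx {S : List Con} {p : Con × ℕ} (hp : p ∈ S.zipIdx) :
    p.1 ∈ S ∧ p.2 < S.length ∧ S[p.2]? = some p.1 := by
  obtain ⟨c, r⟩ := p
  have h := (List.mk_mem_zipIdx_iff_getElem?).1 hp
  exact ⟨List.mem_of_getElem? h, (List.getElem?_eq_some_iff.1 h).1, h⟩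

theorem Bound.zipIdx_of_mem {S : List Con} {c : Con} (hc : c ∈ S) :
    ∃ r, r < S.length ∧ (c, r) ∈ S.zipIdx := by
  obtain ⟨r, hr, h⟩ := List.mem_iff_getElem.1 hc
  refine ⟨r, hr, ?_⟩
  rw [List.mk_mem_zipIdx_iff_getElem?, List.getElem?_eq_some_iff]
  exact ⟨hr, h⟩

/-- membership in the bounded system -/
theorem Bound.forall_iff (n : ℕ) (S : List Con) (P : Con → Prop) :
    (∀ c ∈ boundSys n S, P c) ↔
      (P (.one 0) ∧ P (.add (mv 0) (mv 0) 0) ∧
      (∀ t < gapExp n S.length, P (.mul (mv t) (mv t) (mv (t + 1)))) ∧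
      (∀ p ∈ S.zipIdx, ∀ c ∈ scaleCon (gapExp n S.length) n p.2 p.1, P c) ∧
      (∀ j < numMain n S.length, P (.mul (4*j+1) (4*j+1) (4*j+3)) ∧
        P (.mul (4*j+2) (4*j+2) (4*j+4)) ∧ P (.add (4*j+3) (4*j+4) 0))) := by
  unfold boundSys
  simp only [List.forall_mem_append, List.forall_mem_map, List.forall_mem_flatMap,
    List.forall_mem_cons, List.mem_range, List.not_mem_nil, false_imp_iff, implies_true, and_true,
    and_assoc]

theorem boundSys_below (n : ℕ) (S : List Con) (hS : ∀ c ∈ S, c.Below n) :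
    ∀ c ∈ boundSys n S, c.Below (boundNum n S) := by
  rw [Bound.forall_iff]
  have hN : numMain n S.length = gapExp n S.length + 1 + n + S.length := rfl
  refine ⟨?_, ?_, ?_, ?_, ?_⟩
  · simp only [Con.Below, boundNum]; omega
  · simp only [Con.Below, boundNum, mv]; omega
  · intro t ht
    simp only [Con.Below, boundNum, mv]; omega
  · intro p hp c hc
    obtain ⟨h1, h2, -⟩ := Bound.mem_zipIdx hp
    have h3 := hS _ h1
    obtain ⟨d, r⟩ := p
    cases d with
    | one i =>
      simp only [scaleCon, List.mem_cons, List.not_mem_nil, or_false] at hc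
      subst hc
      simp only [Con.Below] at h3
      simp only [Con.Below, boundNum, mv]
      dsimp only at h2
      omega
    | add i j l =>
      simp only [scaleCon, List.mem_cons, List.not_mem_nil, or_false] at hc
      subst hc
      simp only [Con.Below] at h3
      simp only [Con.Below, boundNum, mv]
      dsimp only at h2
      omega
    | mul i j l =>
      simp only [scaleCon, List.mem_cons, List.not_mem_nil, or_false] at hc
      simp only [Con.Below] at h3
      dsimp only at h2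
      rcases hc with rfl | rfl
      · simp only [Con.Below, boundNum, mv]
        omega
      · simp only [Con.Below, boundNum, mv]
        omega
  · intro j hj
    simp only [Con.Below, boundNum]
    omega

/-- values of the product variable -/
noncomputable def Bound.prodVal (z : ℕ → ℝ) (e : ℝ) : Option Con → ℝ
  | some (.mul i j _) => e * z i * (e * z j)
  | _ => 0

/-- values of the main variables -/
noncomputable def Bound.mainVal (n : ℕ) (S : List Con) (z : ℕ → ℝ) (j : ℕ) : ℝ :=
  if j ≤ gapExp n S.length then (1 / 2) ^ 2 ^ j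
  else if j < gapExp n S.length + 1 + n then
    (1 / 2) ^ 2 ^ gapExp n S.length * z (j - (gapExp n S.length + 1))
  else Bound.prodVal z ((1 / 2) ^ 2 ^ gapExp n S.length) S[j - (gapExp n S.length + 1 + n)]?

/-- values of all variables, from the values of the main variables -/
noncomputable def Bound.allVal (M : ℕ → ℝ) (k : ℕ) : ℝ :=
  if k = 0 then 1
  else if (k - 1) % 4 = 0 then M ((k - 1) / 4)
  else if (k - 1) % 4 = 1 then Real.sqrt (1 - M ((k - 1) / 4) ^ 2)
  else if (k - 1) % 4 = 2 then M ((k - 1) / 4) ^ 2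
  else 1 - M ((k - 1) / 4) ^ 2

theorem Bound.allVal0 (M : ℕ → ℝ) : Bound.allVal M 0 = 1 := by
  simp [Bound.allVal]

theorem Bound.allVal1 (M : ℕ → ℝ) (j : ℕ) : Bound.allVal M (4 * j + 1) = M j := by
  have h1 : 4 * j + 1 - 1 = 4 * j := by omega
  have h2 : 4 * j % 4 = 0 := by omega
  have h3 : 4 * j / 4 = j := by omega
  simp [Bound.allVal, h1]

theorem Bound.allVal2 (M : ℕ → ℝ) (j : ℕ) :
    Bound.allVal M (4 * j + 2) = Real.sqrt (1 - M j ^ 2) := by
  have h1 : 4 * j + 2 - 1 = 4 * j + 1 := by omega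
  have h2 : (4 * j + 1) % 4 = 1 := by omega
  have h3 : (4 * j + 1) / 4 = j := by omega
  simp [Bound.allVal, h1, h2, h3]

theorem Bound.allVal3 (M : ℕ → ℝ) (j : ℕ) : Bound.allVal M (4 * j + 3) = M j ^ 2 := by
  have h1 : 4 * j + 3 - 1 = 4 * j + 2 := by omega
  have h2 : (4 * j + 2) % 4 = 2 := by omega
  have h3 : (4 * j + 2) / 4 = j := by omega
  simp [Bound.allVal, h1, h2, h3]

theorem Bound.allVal4 (M : ℕ → ℝ) (j : ℕ) : Bound.allVal M (4 * j + 4) = 1 - M j ^ 2 := by
  have h1 : 4 * j + 4 - 1 = 4 * j + 3 := by omega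
  have h2 : (4 * j + 3) % 4 = 3 := by omega
  have h3 : (4 * j + 3) / 4 = j := by omega
  simp [Bound.allVal, h1, h2, h3]

theorem Bound.allVal_le (M : ℕ → ℝ) (hM : ∀ j, |M j| ≤ 1) (k : ℕ) : |Bound.allVal M k| ≤ 1 := by
  have hM2 : ∀ j, M j ^ 2 ≤ 1 := by
    intro j
    have h := hM j
    rw [← sq_abs]
    nlinarith [abs_nonneg (M j)]
  unfold Bound.allVal
  have h0 := hM2 ((k - 1) / 4)
  have h0' := sq_nonneg (M ((k - 1) / 4))
  split_ifs
  · simp
  · exact hM _
  · rw [abs_of_nonneg (Real.sqrt_nonneg _)]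
    exact Real.sqrt_le_one.2 (by linarith)
  · rw [abs_of_nonneg h0']; exact h0
  · rw [abs_of_nonneg (by linarith)]; linarith

theorem Bound.half_pow_pos (t : ℕ) : (0 : ℝ) < (1 / 2) ^ 2 ^ t := by positivity

theorem Bound.half_pow_le (t : ℕ) : ((1 : ℝ) / 2) ^ 2 ^ t ≤ 1 :=
  pow_le_one₀ (by norm_num) (by norm_num)

theorem Bound.complete_aux (n : ℕ) (S : List Con) (hS : ∀ c ∈ S, c.Below n) (z : ℕ → ℝ)
    (hz : Sol S z) (hb : ∀ i < n, |z i| ≤ 2 ^ 2 ^ gapExp n S.length) :
    ∃ z, Sol (boundSys n S) z ∧ ∀ i, |z i| ≤ 1 := by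
  set L := gapExp n S.length with hL
  set e : ℝ := (1 / 2) ^ 2 ^ L with he
  have hepos : 0 < e := Bound.half_pow_pos L
  have hez : ∀ i < n, |e * z i| ≤ 1 := by
    intro i hi
    rw [abs_mul, abs_of_pos hepos]
    have h1 : e * 2 ^ 2 ^ L = 1 := by
      rw [he, ← mul_pow]; norm_num
    calc e * |z i| ≤ e * 2 ^ 2 ^ L := mul_le_mul_of_nonneg_left (hb i hi) hepos.le
      _ = 1 := h1
  set M := Bound.mainVal n S z with hM
  have M1 : ∀ t ≤ L, M t = (1 / 2) ^ 2 ^ t := by
    intro t ht
    simp only [hM, Bound.mainVal]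
    rw [if_pos ht]
  have M2 : ∀ i < n, M (L + 1 + i) = e * z i := by
    intro i hi
    simp only [hM, Bound.mainVal]
    rw [if_neg (by omega), if_pos (by omega), ← hL, show L + 1 + i - (L + 1) = i by omega]
  have M3 : ∀ r, M (L + 1 + n + r) = Bound.prodVal z e S[r]? := by
    intro r
    simp only [hM, Bound.mainVal]
    rw [if_neg (by omega), if_neg (by omega), ← hL,
      show L + 1 + n + r - (L + 1 + n) = r by omega]
  have MB : ∀ j, |M j| ≤ 1 := by
    intro j
    by_cases h1 : j ≤ L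
    · rw [M1 j h1, abs_of_pos (Bound.half_pow_pos j)]
      exact Bound.half_pow_le j
    · by_cases h2 : j < L + 1 + n
      · obtain ⟨i, rfl⟩ : ∃ i, j = L + 1 + i := ⟨j - (L + 1), by omega⟩
        rw [M2 i (by omega)]
        exact hez i (by omega)
      · obtain ⟨r, rfl⟩ : ∃ r, j = L + 1 + n + r := ⟨j - (L + 1 + n), by omega⟩
        rw [M3]
        rcases hr : S[r]? with _ | c
        · simp [Bound.prodVal]
        · have hc : c ∈ S := List.mem_of_getElem? hr
          cases c with
          | one i => simp [Bound.prodVal]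
          | add i j l => simp [Bound.prodVal]
          | mul i j l =>
            have h3 := hS _ hc
            simp only [Con.Below] at h3
            simp only [Bound.prodVal]
            rw [abs_mul]
            exact mul_le_one₀ (hez i h3.1) (abs_nonneg _) (hez j h3.2.1)
  refine ⟨Bound.allVal M, ?_, Bound.allVal_le M MB⟩
  unfold Sol
  rw [Bound.forall_iff, ← hL]
  refine ⟨?_, ?_, ?_, ?_, ?_⟩
  · simp [Con.val, Bound.allVal0]
  · simp only [Con.val, mv, Bound.allVal0, Bound.allVal1]
    rw [M1 0 (by omega)]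
    norm_num
  · intro t ht
    simp only [Con.val, mv, Bound.allVal1]
    rw [M1 t ht.le, M1 (t + 1) (by omega), pow_succ 2 t, pow_mul]
    ring
  · intro p hp c hc
    obtain ⟨h1, h2, h3⟩ := Bound.mem_zipIdx hp
    have h4 := hS _ h1
    have h5 := hz _ h1
    obtain ⟨d, r⟩ := p
    dsimp only at h1 h2 h3 h4 h5 hc
    cases d with
    | one i =>
      simp only [scaleCon, List.mem_cons, List.not_mem_nil, or_false] at hc
      subst hc
      simp only [Con.Below] at h4
      simp only [Con.val] at h5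
      simp only [Con.val, mv, Bound.allVal1, Bound.allVal0]
      rw [M2 i h4, M1 L le_rfl, ← he]
      linear_combination e * h5
    | add i j l =>
      simp only [scaleCon, List.mem_cons, List.not_mem_nil, or_false] at hc
      subst hc
      simp only [Con.Below] at h4
      simp only [Con.val] at h5
      simp only [Con.val, mv, Bound.allVal1]
      rw [M2 i h4.1, M2 j h4.2.1, M2 l h4.2.2]
      linear_combination e * h5
    | mul i j l =>
      simp only [scaleCon, List.mem_cons, List.not_mem_nil, or_false] at hc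
      simp only [Con.Below] at h4
      simp only [Con.val] at h5
      rcases hc with rfl | rfl
      · simp only [Con.val, mv, Bound.allVal1]
        rw [M2 i h4.1, M2 j h4.2.1, M3 r, h3]
        simp [Bound.prodVal]
      · simp only [Con.val, mv, Bound.allVal1]
        rw [M2 l h4.2.2, M1 L le_rfl, ← he, M3 r, h3]
        simp only [Bound.prodVal]
        linear_combination -(e ^ 2) * h5
  · intro j hj
    refine ⟨?_, ?_, ?_⟩
    · simp only [Con.val, Bound.allVal1, Bound.allVal3]
      ring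
    · simp only [Con.val, Bound.allVal2, Bound.allVal4]
      rw [Real.mul_self_sqrt]
      · ring
      · have h := MB j
        rw [← sq_abs]
        nlinarith [abs_nonneg (M j)]
    · simp only [Con.val, Bound.allVal3, Bound.allVal4, Bound.allVal0]
      ring

theorem Bound.exact (n : ℕ) (S : List Con) (w : ℕ → ℝ) (hw : Sol (boundSys n S) w) :
    ∃ z, Sol S z := by
  unfold Sol at hw
  rw [Bound.forall_iff] at hw
  obtain ⟨h0, h1, h2, h3, -⟩ := hw
  set L := gapExp n S.length with hL
  simp only [Con.val] at h0 h1 h2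
  have hpos : ∀ t ≤ L, w (mv t) ≠ 0 := by
    intro t
    induction t with
    | zero =>
      intro _ h
      rw [h] at h1
      linarith
    | succ t ih =>
      intro ht h
      have h4 := h2 t (by omega)
      rw [h] at h4
      exact ih (by omega) (by nlinarith [mul_self_eq_zero.1 (by linarith : w (mv t) * w (mv t) = 0)])
  have hL0 : w (mv L) ≠ 0 := hpos L le_rfl
  have hw0 : w 0 = 1 := by linarith
  refine ⟨fun i => w (mv (L + 1 + i)) / w (mv L), ?_⟩
  intro c hc
  obtain ⟨r, hr, hp⟩ := Bound.zipIdx_of_mem hc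
  have h5 := h3 _ hp
  dsimp only at h5
  cases c with
  | one i =>
    have h6 := h5 (.mul (mv (L + 1 + i)) 0 (mv L)) (by simp [scaleCon])
    simp only [Con.val] at h6
    simp only [Con.val]
    rw [hw0] at h6
    field_simp
    linarith
  | add i j l =>
    have h6 := h5 (.add (mv (L + 1 + i)) (mv (L + 1 + j)) (mv (L + 1 + l))) (by simp [scaleCon])
    simp only [Con.val] at h6
    simp only [Con.val]
    field_simp
    linarith
  | mul i j l =>
    have h6 := h5 (.mul (mv (L + 1 + i)) (mv (L + 1 + j)) (mv (L + 1 + n + r))) (by simp [scaleCon])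
    have h7 := h5 (.mul (mv L) (mv (L + 1 + l)) (mv (L + 1 + n + r))) (by simp [scaleCon])
    simp only [Con.val] at h6 h7
    simp only [Con.val]
    field_simp
    linarith

theorem Bound.approx (n : ℕ) (S : List Con) (z : ℕ → ℝ)
    (hz : ∀ c ∈ boundSys n S, |c.val z| ≤ 1 / 8) : ∀ i < boundNum n S, |z i| ≤ 4 := by
  rw [Bound.forall_iff] at hz
  obtain ⟨h0, -, -, -, h4⟩ := hz
  simp only [Con.val, abs_le] at h0 h4
  intro i hi
  rcases Nat.eq_zero_or_pos i with rfl | hpos
  · rw [abs_le]; constructor <;> linarith [h0.1, h0.2]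
  · obtain ⟨j, s, hs, hij⟩ : ∃ j s, s < 4 ∧ i = 4 * j + (s + 1) :=
      ⟨(i - 1) / 4, (i - 1) % 4, Nat.mod_lt _ (by norm_num), by omega⟩
    have hj : j < numMain n S.length := by
      unfold boundNum at hi; omega
    obtain ⟨⟨a1, a2⟩, ⟨b1, b2⟩, ⟨c1, c2⟩⟩ := h4 j hj
    have hx := mul_self_nonneg (z (4 * j + 1))
    have hb := mul_self_nonneg (z (4 * j + 2))
    interval_cases s
    · rw [hij, show 4 * j + (0 + 1) = 4 * j + 1 by ring]
      apply abs_le_of_sq_le_sq _ (by norm_num)
      nlinarith [h0.1, h0.2]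
    · rw [hij, show 4 * j + (1 + 1) = 4 * j + 2 by ring]
      apply abs_le_of_sq_le_sq _ (by norm_num)
      nlinarith [h0.1, h0.2]
    · rw [hij, show 4 * j + (2 + 1) = 4 * j + 3 by ring, abs_le]
      constructor <;> linarith [h0.1, h0.2]
    · rw [hij, show 4 * j + (3 + 1) = 4 * j + 4 by ring, abs_le]
      constructor <;> linarith [h0.1, h0.2]

/-- `boundSys_complete`, from the theorem `gap_bounded`. -/
theorem Bound.complete_of_gap
    (gap_bounded : ∀ (n : ℕ) (S : List Con), (∀ c ∈ S, c.Below n) → (∃ z, Sol S z) →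
      ∃ z, Sol S z ∧ ∀ i < n, |z i| ≤ 2 ^ 2 ^ gapExp n S.length)
    (n : ℕ) (S : List Con) (hS : ∀ c ∈ S, c.Below n) (h : ∃ z, Sol S z) :
    ∃ z, Sol (boundSys n S) z ∧ ∀ i, |z i| ≤ 1 := by
  obtain ⟨z, hz, hb⟩ := gap_bounded n S hS h
  exact Bound.complete_aux n S hS z hz hb

/-- `boundSys_sound`, from the theorem `gap_lower`. -/
theorem Bound.sound_of_gap
    (gap_lower : ∀ (n : ℕ) (S : List Con), (∀ c ∈ S, c.Below n) →
      (∀ z : ℕ → ℝ, (∀ c ∈ S, |c.val z| ≤ 1 / 8) → ∀ i < n, |z i| ≤ 4) →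
      (¬ ∃ z, Sol S z) → ∀ z : ℕ → ℝ,
      ∃ c ∈ S, 1 / 2 ^ 2 ^ gapExp n S.length ≤ |c.val z|)
    (n : ℕ) (S : List Con) (hS : ∀ c ∈ S, c.Below n)
    (h : ∃ z : ℕ → ℝ, ∀ c ∈ boundSys n S,
      |c.val z| < 1 / 2 ^ 2 ^ gapExp (boundNum n S) (boundSys n S).length) :
    ∃ z, Sol S z := by
  obtain ⟨z, hz⟩ := h
  by_cases hun : ∃ w, Sol (boundSys n S) w
  · obtain ⟨w, hw⟩ := hun
    exact Bound.exact n S w hw
  · obtain ⟨c, hc, hc'⟩ := gap_lower (boundNum n S) (boundSys n S) (boundSys_below n S hS)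
      (Bound.approx n S) hun z
    exact absurd (hz c hc) (not_lt.2 hc')

end Pool.Agent.Lib.MP_612bca_lc
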