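import Pool.Agent.Lib.MP_612bca_lc.LocalDefs

/-!
# Values of the columns and slopes (proved so that the kernel never computes powers)
-/

namespace Pool.Agent.Lib.MP_612bca_lc

/-- The columns as a function of the base. -/
def colF (N : ℤ) (p : ℕ) : ℤ := match p with
  | 0 => N ^ 2
  | 1 => -N ^ 3
  | 2 => N ^ 4
  | _ => -N ^ 5

theorem colF_0 (N : ℤ) : colF N 0 = N ^ 2 := rfl
theorem colF_1 (N : ℤ) : colF N 1 = -N ^ 3 := rfl
theorem colF_2 (N : ℤ) : colF N 2 = N ^ 4 := rfl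
theorem colF_3 (N : ℤ) : colF N 3 = -N ^ 5 := rfl

theorem col_eq (K p : ℕ) : col K p = colF (NN K : ℤ) p := rfl

variable {K : ℕ}

theorem col_0 : col K 0 = (NN K : ℤ) ^ 2 := (col_eq K 0).trans (colF_0 _)
theorem col_1 : col K 1 = -(NN K : ℤ) ^ 3 := (col_eq K 1).trans (colF_1 _)
theorem col_2 : col K 2 = (NN K : ℤ) ^ 4 := (col_eq K 2).trans (colF_2 _)
theorem col_3 : col K 3 = -(NN K : ℤ) ^ 5 := (col_eq K 3).trans (colF_3 _)

theorem slo_fin {c : ℕ} (hc : c ≤ K) : slo K c = c := if_neg (by omega)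

theorem slo_inf : slo K (K + 1) = (NN K : ℤ) ^ 8 := if_pos rfl

end Pool.Agent.Lib.MP_612bca_lc
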