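import Pool.Agent.Lib.MP_612bca_lc.LinkAt

/-!
# The soundness proof: colours and hubs do not change along a class
-/

namespace Pool.Agent.Lib.MP_612bca_lc

attribute [local irreducible] NN zones slot slo MP_612bca_lc.col zlo zhi

variable {K : ℕ} {G : List (List Pnt)}

/-- Radius of a group in class `c`. -/
def rho (K c : ℕ) : ℤ := if c = K + 1 then 2 * (NN K : ℤ) ^ 8 else NN K

/-- Origin of the group `j` in the zone of `E`. -/
def Env.org (E : Env K G) (j : ℕ) : ℤ := orig K G.length E.s j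

theorem rho_fin {c : ℕ} (hc : c ≤ K) : rho K c = NN K := if_neg (by omega)

theorem rho_inf : rho K (K + 1) = 2 * (NN K : ℤ) ^ 8 := if_pos rfl

theorem rep_lev (hG : ∀ g ∈ G, GoodGroup K g) (c : Fin (K + 2)) (r : EltT K G)
    (h : labT K G r = 2) : ∃ s j i, r.1 = .rep s j i ∧ s < zones K ∧ j < G.length ∧
      i < (G.getD j []).length ∧ |r.1.lev K G c - orig K G.length s j| ≤ rho K c := by
  rcases hr : r.1 with ⟨a, p⟩ | ⟨s, j, i⟩
  · exfalso
    unfold labT at h
    rw [hr] at h
    simp only [Elt.lab] at h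
    omega
  · have hm := r.2
    rw [hr, rep_mem] at hm
    obtain ⟨h1, h2, h3⟩ := hm
    refine ⟨s, j, i, rfl, h1, h2, h3, ?_⟩
    have hg : G.getD j [] ∈ G := by
      rw [List.getD_eq_getElem _ _ h2]
      exact List.getElem_mem h2
    have hp : pnt G j i ∈ G.getD j [] := by
      unfold pnt
      rw [List.getD_eq_getElem (l := G.getD j []) _ h3]
      exact List.getElem_mem h3
    have hX := (hG _ hg).X_le _ hp
    have hY := (hG _ hg).Y_le _ hp
    simp only [Elt.lev]
    rw [add_sub_cancel_left]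
    have hN := NN_K K
    by_cases hc : (c : ℕ) = K + 1
    · rw [if_pos hc, hc, rho_inf, slo_inf, abs_neg]
      have h8 := pow_pos' K 8
      generalize (NN K : ℤ) ^ 8 = y at h8
      generalize (pnt G j i).X = X at hX
      have hX' : (X : ℤ) ≤ 2 := by exact_mod_cast hX
      rw [abs_of_nonneg (by positivity)]
      nlinarith
    · have hc' : (c : ℕ) ≤ K := by have := c.2; omega
      rw [if_neg hc, rho_fin hc']
      generalize (pnt G j i).X = X at hX
      generalize (pnt G j i).Y = Y at hY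
      have h5 : (c : ℤ) * X ≤ 2 * K := by
        have : (c : ℕ) * X ≤ K * 2 := Nat.mul_le_mul hc' hX
        have h6 : ((c : ℕ) : ℤ) * X ≤ K * 2 := by exact_mod_cast this
        linarith
      have h6 : (0 : ℤ) ≤ (c : ℤ) * X := by positivity
      rw [abs_le]
      constructor <;> omega

/-- Two bijections which agree outside `c₀` agree at `c₀`. -/
theorem agree_at {k : ℕ} {f g : Fin k → ℕ} (hf : Function.Injective f) (hf' : ∀ c, f c < k)
    (hg : Function.Injective g) (hg' : ∀ c, g c < k) (c₀ : Fin k) (h : ∀ c, c ≠ c₀ → f c = g c) :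
    f c₀ = g c₀ := by
  have h1 : Function.Surjective fun c : Fin k => (⟨g c, hg' c⟩ : Fin k) :=
    Finite.injective_iff_surjective.1 (fun a b hab => hg (by simpa using hab))
  obtain ⟨c, hc⟩ := h1 ⟨f c₀, hf' c₀⟩
  have hc' : g c = f c₀ := by simpa using hc
  by_cases hcc : c = c₀
  · rw [← hc', hcc]
  · exfalso
    rw [← h c hcc] at hc'
    exact hcc (hf hc')

/-- The flipping argument. -/
theorem flip_eq {k : ℕ} {B B' : Fin k → ℕ}
    (h : ∀ t ≤ k, ∃ g : Fin k → ℕ, Function.Injective g ∧ (∀ c, g c < k) ∧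
      ∀ c : Fin k, (c.val < t → g c = B' c) ∧ (t ≤ c.val → g c = B c)) (c : Fin k) : B c = B' c := by
  obtain ⟨g, hg1, hg2, hg3⟩ := h c.val (le_of_lt c.2)
  obtain ⟨g', hg1', hg2', hg3'⟩ := h (c.val + 1) c.2
  have h1 : g c = g' c := by
    apply agree_at hg1 hg2 hg1' hg2' c
    intro c' hc'
    have hne : c'.val ≠ c.val := fun he => hc' (Fin.ext he)
    rcases lt_or_gt_of_ne hne with hlt | hgt
    · rw [(hg3 c').1 hlt, (hg3' c').1 (by omega)]
    · rw [(hg3 c').2 (by omega), (hg3' c').2 (by omega)]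
  rw [← (hg3 c).2 (le_refl _), h1, (hg3' c).1 (by omega)]

variable (E : Env K G)

theorem Env.org_succ (j : ℕ) : E.org (j + 1) = E.org j + (NN K : ℤ) ^ 15 := by
  unfold Env.org orig
  push_cast
  rw [slot_eq]
  ring

theorem Env.org_zone {j : ℕ} (hj : j < G.length) : E.Z 1000 (E.org j) := by
  have h1 : 1000 * (NN K : ℤ) ^ 14 ≤ (NN K : ℤ) ^ 15 := pow_step K 14
  have h2 := pow_pos' K 15
  have e1 : E.org j = zlo K G E.s + (NN K : ℤ) ^ 15 * (j + 1) := by
    unfold Env.org orig zlo
    push_cast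
    rw [slot_eq]
    ring
  have e2 : zhi K G E.s = zlo K G E.s + (NN K : ℤ) ^ 15 * (G.length + 2) := by
    unfold zlo zhi zlen
    push_cast
    rw [slot_eq]
    ring
  constructor
  · rw [e1]
    have : (0 : ℤ) ≤ (j : ℤ) := by positivity
    nlinarith
  · rw [e1, e2]
    have : (j : ℤ) + 1 ≤ G.length := by exact_mod_cast hj
    nlinarith

/-- Near the origin of the group `j` only points of this group occur. -/
theorem Env.rep_near {j : ℕ} (hj : j < G.length) (c : Fin (K + 2)) (r : EltT K G)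
    (h : labT K G r = 2) (h1 : |r.1.lev K G c - E.org j| ≤ 500 * (NN K : ℤ) ^ 14) :
    ∃ i, r.1 = .rep E.s j i ∧ i < (G.getD j []).length ∧ |r.1.lev K G c - E.org j| ≤ rho K c := by
  obtain ⟨s', j', i, hr, hs', hj', hi, hl⟩ := rep_lev E.hG c r h
  have hrho : rho K c ≤ (NN K : ℤ) ^ 14 := by
    have e1 := pow_step K 13
    have e2 : (NN K : ℤ) ^ 8 * 1 ≤ (NN K : ℤ) ^ 8 * (NN K : ℤ) ^ 5 :=
      mul_le_mul_of_nonneg_left (pow_pos' K 5) (by have := pow_pos' K 8; omega)
    have e3 : (NN K : ℤ) ^ 8 * (NN K : ℤ) ^ 5 = (NN K : ℤ) ^ 13 := by ring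
    have e4 : 1000 * (NN K : ℤ) ^ 13 ≤ (NN K : ℤ) ^ 14 := pow_step K 13
    have e5 := (slo_le (K := K) (c := K + 1) (by omega)).2
    by_cases hc : (c : ℕ) = K + 1
    · rw [hc, rho_inf]
      have := pow_pos' K 8
      omega
    · rw [rho_fin (by have := c.2; omega)]
      have e6 : (NN K : ℤ) * 1 ≤ (NN K : ℤ) * (NN K : ℤ) ^ 12 :=
        mul_le_mul_of_nonneg_left (pow_pos' K 12) (by have := NNz K; omega)
      have e7 : (NN K : ℤ) * (NN K : ℤ) ^ 12 = (NN K : ℤ) ^ 13 := by ring
      have := pow_pos' K 13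
      omega
  have h14 := pow_pos' K 14
  have h15 : 1000 * (NN K : ℤ) ^ 14 ≤ (NN K : ℤ) ^ 15 := pow_step K 14
  -- the two origins are closer than a slot
  have hd : |(orig K G.length s' j' : ℤ) - E.org j| < (NN K : ℤ) ^ 15 := by
    rw [abs_le] at h1 hl
    rw [abs_lt]
    constructor <;> omega
  have e1 : (orig K G.length s' j' : ℤ) - E.org j =
      (NN K : ℤ) ^ 15 * (((zlen G.length : ℤ) * s' + j') - ((zlen G.length : ℤ) * E.s + j)) := by
    unfold Env.org orig
    push_cast
    rw [slot_eq]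
    ring
  rw [e1, abs_mul, abs_of_pos (by have := pow_pos' K 15; omega)] at hd
  have h16 : |((zlen G.length : ℤ) * s' + j') - ((zlen G.length : ℤ) * E.s + j)| < 1 := by
    have := pow_pos' K 15
    by_contra hcon
    push Not at hcon
    nlinarith
  have h17 : (zlen G.length : ℤ) * s' + j' = (zlen G.length : ℤ) * E.s + j := by
    have := Int.abs_lt_one_iff.1 h16
    omega
  have h18 : zlen G.length * s' + j' = zlen G.length * E.s + j := by exact_mod_cast h17
  have hss : s' = E.s := by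
    unfold zlen at h18
    rcases lt_trichotomy s' E.s with hlt | heq | hgt
    · have : (G.length + 2) * (s' + 1) ≤ (G.length + 2) * E.s := Nat.mul_le_mul_left _ hlt
      rw [Nat.mul_add] at this
      omega
    · exact heq
    · have : (G.length + 2) * (E.s + 1) ≤ (G.length + 2) * s' := Nat.mul_le_mul_left _ hgt
      rw [Nat.mul_add] at this
      omega
  subst hss
  have hjj : j' = j := by omega
  subst hjj
  exact ⟨i, hr, hi, hl⟩

end Pool.Agent.Lib.MP_612bca_lc
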