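import Pool.Agent.Lib.MP_612bca_lc.Const

/-!
# The soundness proof: attributes which are constant along a class
-/

namespace Pool.Agent.Lib.MP_612bca_lc

attribute [local irreducible] NN zones slot slo MP_612bca_lc.col zlo zhi rho

variable {K : ℕ} {G : List (List Pnt)}

/-- Numerical facts about the scale. -/
theorem scale_facts (K : ℕ) : ∃ N N2 N3 N8 N10 N11 N13 N14 : ℤ, N = NN K ∧ N2 = (NN K : ℤ) ^ 2 ∧
    N3 = (NN K : ℤ) ^ 3 ∧ N8 = (NN K : ℤ) ^ 8 ∧ N10 = N8 * N2 ∧ N11 = N8 * N3 ∧
    N13 = (NN K : ℤ) ^ 13 ∧ N14 = (NN K : ℤ) ^ 14 ∧ 1000 ≤ N ∧ 1000 * N ≤ N2 ∧ 1000 * N2 ≤ N3 ∧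
    1000 * N3 ≤ N8 ∧ 1000 * N8 ≤ N10 ∧ 1000 * N10 ≤ N11 ∧ 1000 * N11 ≤ N13 ∧ 1000 * N13 ≤ N14 ∧
    (∀ t : ℕ, t ≤ K + 2 → 0 ≤ (t : ℤ) * N2 ∧ (t : ℤ) * N2 ≤ N3 ∧ 0 ≤ (t : ℤ) * N3 ∧
      (t : ℤ) * N3 ≤ N8) ∧
    (∀ c t : ℕ, c < t → (c : ℤ) * N2 + N2 ≤ t * N2 ∧ (c : ℤ) * N3 + N3 ≤ t * N3) ∧
    (∀ c t : ℕ, c ≤ t → (c : ℤ) * N2 ≤ t * N2 ∧ (c : ℤ) * N3 ≤ t * N3) := by
  have h0 := NNz K
  have h00 := NN_K K
  generalize (NN K : ℤ) = N at h0 h00
  have s : ∀ m, 1000 * N ^ m ≤ N ^ (m + 1) := by
    intro m
    rw [pow_succ]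
    have : 0 ≤ N ^ m := pow_nonneg (by omega) _
    nlinarith
  have p : ∀ m, 1 ≤ N ^ m := fun m => one_le_pow₀ (by omega)
  have s1 : 1000 * N ≤ N ^ 2 := by have := s 1; rwa [pow_one] at this
  have s2 : 1000 * N ^ 2 ≤ N ^ 3 := s 2
  have s3 : 1000 * N ^ 3 ≤ N ^ 4 := s 3
  have s4 : 1000 * N ^ 4 ≤ N ^ 5 := s 4
  have s5 : 1000 * N ^ 5 ≤ N ^ 6 := s 5
  have s6 : 1000 * N ^ 6 ≤ N ^ 7 := s 6
  have s7 : 1000 * N ^ 7 ≤ N ^ 8 := s 7
  have s8 : 1000 * N ^ 8 ≤ N ^ 9 := s 8
  have s9 : 1000 * N ^ 9 ≤ N ^ 10 := s 9
  have s10 : 1000 * N ^ 10 ≤ N ^ 11 := s 10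
  have s11 : 1000 * N ^ 11 ≤ N ^ 12 := s 11
  have s12 : 1000 * N ^ 12 ≤ N ^ 13 := s 12
  have s13 : 1000 * N ^ 13 ≤ N ^ 14 := s 13
  have p2 := p 2
  have p3 := p 3
  have p8 := p 8
  have e10 : N ^ 8 * N ^ 2 = N ^ 10 := by ring
  have e11 : N ^ 8 * N ^ 3 = N ^ 11 := by ring
  refine ⟨N, N ^ 2, N ^ 3, N ^ 8, N ^ 10, N ^ 11, N ^ 13, N ^ 14, rfl, rfl, rfl, rfl, e10.symm,
    e11.symm, rfl, rfl, h0, s1, s2, by omega, by omega, by omega, by omega, s13, ?_, ?_, ?_⟩
  · intro t ht
    have ht' : (t : ℤ) ≤ N := by
      have : (t : ℤ) ≤ K + 2 := by exact_mod_cast ht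
      omega
    have ht0 : (0 : ℤ) ≤ t := by positivity
    refine ⟨by positivity, ?_, mul_nonneg ht0 (by omega), ?_⟩
    · calc (t : ℤ) * N ^ 2 ≤ N * N ^ 2 := mul_le_mul_of_nonneg_right ht' (by omega)
        _ = N ^ 3 := by ring
    · have : (t : ℤ) * N ^ 3 ≤ N ^ 4 := by
        calc (t : ℤ) * N ^ 3 ≤ N * N ^ 3 := mul_le_mul_of_nonneg_right ht' (by omega)
          _ = N ^ 4 := by ring
      omega
  · intro c t hct
    have : (c : ℤ) + 1 ≤ t := by exact_mod_cast hct
    constructor
    · nlinarith
    · nlinarith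
  · intro c t hct
    have : (c : ℤ) ≤ t := by exact_mod_cast hct
    constructor
    · nlinarith
    · nlinarith

/-- Thresholds for the column 0. -/
theorem thr0 (t : ℕ) (ht : t ≤ K + 2) : ∃ a : ℤ, |a| ≤ (NN K : ℤ) ^ 13 ∧ ∀ c ≤ K + 1,
    (c < t → rho K c < a - slo K c * col K 0) ∧ (t ≤ c → a - slo K c * col K 0 < -rho K c) := by
  obtain ⟨N, N2, N3, N8, N10, N11, N13, N14, e1, e2, e3, e8, e10, e11, e13, e14, h1, h2, h3, h4,
    h5, h6, h7, h8, h9, h10, h11⟩ := scale_facts K
  rw [col_0, ← e2, ← e13]
  by_cases htk : t = K + 2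
  · refine ⟨N10 + 3 * N8, by rw [abs_le]; constructor <;> omega, fun c hc => ⟨fun _ => ?_,
      fun h => by omega⟩⟩
    by_cases hcK : c = K + 1
    · rw [hcK, slo_inf, rho_inf, ← e8, ← e10]
      omega
    · rw [slo_fin (by omega), rho_fin (by omega), ← e1]
      have := h9 c (by omega)
      omega
  · have ht' := h9 t ht
    refine ⟨t * N2 - 2 * N, by rw [abs_le]; constructor <;> omega, fun c hc => ?_⟩
    by_cases hcK : c = K + 1
    · rw [hcK, slo_inf, rho_inf, ← e8, ← e10]
      constructor
      · intro h; omega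
      · intro _; omega
    · rw [slo_fin (by omega), rho_fin (by omega), ← e1]
      have := h9 c (by omega)
      constructor
      · intro h
        have := (h10 c t h).1
        omega
      · intro h
        have := (h11 t c h).1
        omega

/-- Thresholds for the column 1. -/
theorem thr1 (t : ℕ) (ht : t ≤ K + 2) : ∃ a : ℤ, |a| ≤ (NN K : ℤ) ^ 13 ∧ ∀ c ≤ K + 1,
    (c < t → a - slo K c * col K 1 < -rho K c) ∧ (t ≤ c → rho K c < a - slo K c * col K 1) := by
  obtain ⟨N, N2, N3, N8, N10, N11, N13, N14, e1, e2, e3, e8, e10, e11, e13, e14, h1, h2, h3, h4,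
    h5, h6, h7, h8, h9, h10, h11⟩ := scale_facts K
  rw [col_1, ← e3, ← e13]
  by_cases htk : t = K + 2
  · refine ⟨-N11 - 3 * N8, by rw [abs_le]; constructor <;> omega, fun c hc => ⟨fun _ => ?_,
      fun h => by omega⟩⟩
    by_cases hcK : c = K + 1
    · rw [hcK, slo_inf, rho_inf, ← e8, mul_neg, ← e11]
      omega
    · rw [slo_fin (by omega), rho_fin (by omega), ← e1, mul_neg]
      have := h9 c (by omega)
      omega
  · have ht' := h9 t ht
    refine ⟨-(t * N3) + 2 * N, by rw [abs_le]; constructor <;> omega, fun c hc => ?_⟩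
    by_cases hcK : c = K + 1
    · rw [hcK, slo_inf, rho_inf, ← e8, mul_neg, ← e11]
      constructor
      · intro h; omega
      · intro _; omega
    · rw [slo_fin (by omega), rho_fin (by omega), ← e1, mul_neg]
      have := h9 c (by omega)
      constructor
      · intro h
        have := (h10 c t h).2
        omega
      · intro h
        have := (h11 t c h).2
        omega

/-- A dummy is inside the range of a group in at most one class. -/
theorem sep_class {c c' : ℕ} (hc : c ≤ K + 1) (hc' : c' ≤ K + 1) (hne : c ≠ c') {e : ℕ}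
    (he : e < 2) (x y : ℤ) (hx : |x| ≤ rho K c)
    (hy : y - x = slo K c * col K e - slo K c' * col K e) :
    (y < -rho K c' ∨ rho K c' < y) ∧ |y| ≤ 3 * (NN K : ℤ) ^ 13 := by
  obtain ⟨N, N2, N3, N8, N10, N11, N13, N14, e1, e2, e3, e8, e10, e11, e13, e14, h1, h2, h3, h4,
    h5, h6, h7, h8, h9, h10, h11⟩ := scale_facts K
  rw [abs_le] at hx
  rw [← e13]
  have he' : e = 0 ∨ e = 1 := by omega
  rcases he' with rfl | rfl
  · rw [col_0, ← e2] at hy
    by_cases a : c = K + 1
    · have b : c' ≤ K := by omega
      rw [a, slo_inf, ← e8, ← e10, slo_fin b] at hy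
      rw [a, rho_inf, ← e8] at hx
      rw [rho_fin b, ← e1]
      have := h9 c' (by omega)
      refine ⟨by omega, by rw [abs_le]; constructor <;> omega⟩
    · by_cases b : c' = K + 1
      · rw [b, slo_inf, ← e8, ← e10, slo_fin (show c ≤ K by omega)] at hy
        rw [rho_fin (show c ≤ K by omega), ← e1] at hx
        rw [b, rho_inf, ← e8]
        have := h9 c (by omega)
        refine ⟨by omega, by rw [abs_le]; constructor <;> omega⟩
      · rw [slo_fin (show c ≤ K by omega), slo_fin (show c' ≤ K by omega)] at hy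
        rw [rho_fin (show c ≤ K by omega), ← e1] at hx
        rw [rho_fin (show c' ≤ K by omega), ← e1]
        have h12 := h9 c (by omega)
        have h13 := h9 c' (by omega)
        rcases lt_or_gt_of_ne hne with hlt | hgt
        · have := (h10 c c' hlt).1
          refine ⟨by omega, by rw [abs_le]; constructor <;> omega⟩
        · have := (h10 c' c hgt).1
          refine ⟨by omega, by rw [abs_le]; constructor <;> omega⟩
  · rw [col_1, ← e3, mul_neg, mul_neg] at hy
    by_cases a : c = K + 1
    · have b : c' ≤ K := by omega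
      rw [a, slo_inf, ← e8, ← e11, slo_fin b] at hy
      rw [a, rho_inf, ← e8] at hx
      rw [rho_fin b, ← e1]
      have := h9 c' (by omega)
      refine ⟨by omega, by rw [abs_le]; constructor <;> omega⟩
    · by_cases b : c' = K + 1
      · rw [b, slo_inf, ← e8, ← e11, slo_fin (show c ≤ K by omega)] at hy
        rw [rho_fin (show c ≤ K by omega), ← e1] at hx
        rw [b, rho_inf, ← e8]
        have := h9 c (by omega)
        refine ⟨by omega, by rw [abs_le]; constructor <;> omega⟩
      · rw [slo_fin (show c ≤ K by omega), slo_fin (show c' ≤ K by omega)] at hy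
        rw [rho_fin (show c ≤ K by omega), ← e1] at hx
        rw [rho_fin (show c' ≤ K by omega), ← e1]
        have h12 := h9 c (by omega)
        have h13 := h9 c' (by omega)
        rcases lt_or_gt_of_ne hne with hlt | hgt
        · have := (h10 c c' hlt).2
          refine ⟨by omega, by rw [abs_le]; constructor <;> omega⟩
        · have := (h10 c' c hgt).2
          refine ⟨by omega, by rw [abs_le]; constructor <;> omega⟩

theorem rho_le14 (c : Fin (K + 2)) : 1000 * rho K c ≤ (NN K : ℤ) ^ 14 ∧ 0 < rho K c := by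
  obtain ⟨N, N2, N3, N8, N10, N11, N13, N14, e1, e2, e3, e8, e10, e11, e13, e14, h1, h2, h3, h4,
    h5, h6, h7, h8, h9, h10, h11⟩ := scale_facts K
  rw [← e14]
  by_cases a : (c : ℕ) = K + 1
  · rw [a, rho_inf, ← e8]; constructor <;> omega
  · rw [rho_fin (by have := c.2; omega), ← e1]; constructor <;> omega

/-- An attribute of the dummies which distinguishes the classes and can change along a class only at
representatives is constant in each class. -/
theorem Env.const (E : Env K G) (f : EltT K G → Fin (K + 2) → ℕ) (e : ℕ) (he : e < 2)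
    (hf1 : ∀ w, labT K G w = e → E.Z 3 (w.1.row K G) →
      Function.Injective (f w) ∧ ∀ c, f w c < K + 2)
    (hf2 : ∀ (c : Fin (K + 2)) (v : ℤ), E.Z 5 v → f (DD K G c v e) c = f (DD K G c v (e + 2)) c)
    (hf3 : ∀ (c : Fin (K + 2)) (v : ℤ), E.Z 5 v →
      (∀ r, labT K G r = 2 → r.1.lev K G c ≠ v) →
      f (DD K G c v (e + 2)) c = f (DD K G c (v + 1) e) c) :
    ∃ φ : Fin (K + 2) → ℕ, Function.Injective φ ∧ (∀ c, φ c < K + 2) ∧
      ∀ j < G.length, ∀ (c : Fin (K + 2)) (v : ℤ), |v - E.org j| ≤ (NN K : ℤ) ^ 14 →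
        f (DD K G c v e) c = φ c ∧ f (DD K G c v (e + 2)) c = φ c := by
  classical
  have p14 := pow14_big (K := K)
  have p13 := pow13_14 (K := K)
  have p13' := pow_pos' K 13
  -- attribute of a level
  set F : Fin (K + 2) → ℤ → ℕ := fun c v => f (DD K G c v e) c with hF
  -- steps without representatives
  have step : ∀ (c : Fin (K + 2)) (v : ℤ), E.Z 5 v →
      (∀ r, labT K G r = 2 → r.1.lev K G c ≠ v) → F c v = F c (v + 1) := by
    intro c v hv hr
    show f (DD K G c v e) c = f (DD K G c (v + 1) e) c
    rw [hf2 c v hv, hf3 c v hv hr]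
  have steps : ∀ (n : ℕ) (c : Fin (K + 2)) (v : ℤ), E.Z 5 v → E.Z 5 (v + n) →
      (∀ r, labT K G r = 2 → ¬ (v ≤ r.1.lev K G c ∧ r.1.lev K G c < v + n)) →
      F c v = F c (v + n) := by
    intro n
    induction n with
    | zero => intro c v _ _ _; simp
    | succ n ih =>
      intro c v hv hv' hr
      have h1 : E.Z 5 (v + n) := by
        constructor
        · have := hv.1; have : (0 : ℤ) ≤ n := by positivity
          linarith
        · have := hv'.2; push_cast at this; linarith
      rw [ih c v hv h1 (fun r hl hcon => hr r hl ⟨hcon.1, by push_cast; linarith [hcon.2]⟩)]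
      have h2 := step c (v + n) h1 (fun r hl hcon => hr r hl ⟨by
        have : (0 : ℤ) ≤ n := by positivity
        omega, by push_cast; omega⟩)
      rw [h2]
      push_cast
      rw [add_assoc]
  have steps' : ∀ (c : Fin (K + 2)) (v v' : ℤ), v ≤ v' → E.Z 5 v → E.Z 5 v' →
      (∀ r, labT K G r = 2 → ¬ (v ≤ r.1.lev K G c ∧ r.1.lev K G c < v')) →
      F c v = F c v' := by
    intro c v v' hvv hv hv' hr
    have h1 : v' = v + ((v' - v).toNat : ℤ) := by omega
    rw [h1] at hv' hr ⊢
    exact steps _ c v hv hv' hr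
  -- the attribute of a dummy
  have attr : ∀ w, labT K G w = e → E.Z 10 (w.1.row K G) → ∀ c, f w c = F c (w.1.lev K G c) := by
    intro w hw hz c
    obtain ⟨a, p, hwp, hp, _, hl⟩ := key_dum c w (by omega)
    have hv : E.Z 9 (w.1.lev K G c) := Env.Z.lev (m := 9) hz (by omega) c
    have hwe := eq_DD c w hwp (hv.mono (by norm_num)).reg
    have hpe : p = e ∨ p = e + 2 := by omega
    show f w c = f (DD K G c (w.1.lev K G c) e) c
    rcases hpe with rfl | rfl
    · rw [← hwe]
    · rw [hf2 c _ (hv.mono (by norm_num)), ← hwe]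
  -- a window around a group
  have win : ∀ j < G.length, ∀ v : ℤ, |v - E.org j| ≤ 900 * (NN K : ℤ) ^ 14 → E.Z 10 v := by
    intro j hj v hv
    have h1 := E.org_zone hj
    have h2 := abs_le.1 hv
    constructor
    · have := h1.1; nlinarith
    · have := h1.2; nlinarith
  -- left and right of a group
  have left : ∀ j < G.length, ∀ (c : Fin (K + 2)) (v : ℤ), -(400 * (NN K : ℤ) ^ 14) ≤ v - E.org j →
      v - E.org j < -rho K c → F c v = F c (E.org j - 100 * (NN K : ℤ) ^ 14) := by
    intro j hj c v h1 h2
    have hr := rho_le14 c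
    have hno : ∀ r, labT K G r = 2 → ∀ u u' : ℤ, -(400 * (NN K : ℤ) ^ 14) ≤ u - E.org j →
        u' - E.org j < -rho K c → ¬ (u ≤ r.1.lev K G c ∧ r.1.lev K G c < u') := by
      intro r hl u u' hu hu' hcon
      obtain ⟨i, _, _, h3⟩ := E.rep_near hj c r hl (by rw [abs_le]; constructor <;> omega)
      rw [abs_le] at h3
      omega
    have z1 := win j hj v (by rw [abs_le]; constructor <;> omega)
    have z2 := win j hj (E.org j - 100 * (NN K : ℤ) ^ 14) (by rw [abs_le]; constructor <;> omega)
    rcases le_total v (E.org j - 100 * (NN K : ℤ) ^ 14) with h | h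
    · exact steps' c _ _ h (z1.mono (by norm_num)) (z2.mono (by norm_num))
        (fun r hl => hno r hl _ _ h1 (by omega))
    · exact (steps' c _ _ h (z2.mono (by norm_num)) (z1.mono (by norm_num))
        (fun r hl => hno r hl _ _ (by omega) h2)).symm
  have right : ∀ j < G.length, ∀ (c : Fin (K + 2)) (v : ℤ), v - E.org j ≤ 400 * (NN K : ℤ) ^ 14 →
      rho K c < v - E.org j → F c v = F c (E.org j + 100 * (NN K : ℤ) ^ 14) := by
    intro j hj c v h1 h2
    have hr := rho_le14 c
    have hno : ∀ r, labT K G r = 2 → ∀ u u' : ℤ, rho K c < u - E.org j →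
        u' - E.org j ≤ 400 * (NN K : ℤ) ^ 14 → ¬ (u ≤ r.1.lev K G c ∧ r.1.lev K G c < u') := by
      intro r hl u u' hu hu' hcon
      obtain ⟨i, _, _, h3⟩ := E.rep_near hj c r hl (by rw [abs_le]; constructor <;> omega)
      rw [abs_le] at h3
      omega
    have z1 := win j hj v (by rw [abs_le]; constructor <;> omega)
    have z2 := win j hj (E.org j + 100 * (NN K : ℤ) ^ 14) (by rw [abs_le]; constructor <;> omega)
    rcases le_total v (E.org j + 100 * (NN K : ℤ) ^ 14) with h | h
    · exact steps' c _ _ h (z1.mono (by norm_num)) (z2.mono (by norm_num))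
        (fun r hl => hno r hl _ _ h2 (by omega))
    · exact (steps' c _ _ h (z2.mono (by norm_num)) (z1.mono (by norm_num))
        (fun r hl => hno r hl _ _ (by omega) h1)).symm
  -- dummies with given row
  have exw : ∀ j < G.length, ∀ a : ℤ, |a| ≤ (NN K : ℤ) ^ 13 → ∃ w : EltT K G, labT K G w = e ∧
      E.Z 10 (w.1.row K G) ∧
      ∀ c : Fin (K + 2), w.1.lev K G c = E.org j + (a - slo K c * col K e) := by
    intro j hj a ha
    have h1 : E.Z 10 (E.org j + a) := win j hj _ (by
      rw [add_sub_cancel_left]; omega)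
    have h2 : 0 ≤ E.org j + a := by
      have := h1.1
      have := zlo_ge (K := K) (G := G) E.s
      have := pow_pos' K 15
      omega
    have h3 : (E.org j + a).toNat < rows K G.length := by
      have := h1.2
      have := zhi_le (K := K) (G := G) E.hs
      have := pow_pos' K 15
      have h4 : (((E.org j + a).toNat : ℕ) : ℤ) < rows K G.length := by omega
      exact_mod_cast h4
    refine ⟨⟨.dum (E.org j + a).toNat e, dum_mem.2 ⟨h3, by omega⟩⟩, ?_, ?_, ?_⟩
    · unfold labT
      simp only [Elt.lab]
      omega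
    · simp only [Elt.row]
      rw [Int.toNat_of_nonneg h2]
      exact h1
    · intro c
      simp only [Elt.lev]
      rw [Int.toNat_of_nonneg h2]
      ring
  -- the two sides of a group agree
  have cross : ∀ j < G.length, ∀ c : Fin (K + 2),
      F c (E.org j - 100 * (NN K : ℤ) ^ 14) = F c (E.org j + 100 * (NN K : ℤ) ^ 14) := by
    intro j hj
    have main : ∀ a : ℤ, |a| ≤ (NN K : ℤ) ^ 13 → ∃ g : Fin (K + 2) → ℕ, Function.Injective g ∧
        (∀ c, g c < K + 2) ∧ ∀ c : Fin (K + 2), g c = F c (E.org j + (a - slo K c * col K e)) := by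
      intro a ha
      obtain ⟨w, hw1, hw2, hw3⟩ := exw j hj a ha
      obtain ⟨i1, i2⟩ := hf1 w hw1 (hw2.mono (by norm_num))
      refine ⟨f w, i1, i2, fun c => ?_⟩
      rw [attr w hw1 hw2 c, hw3 c]
    have hsh : ∀ (a : ℤ), |a| ≤ (NN K : ℤ) ^ 13 → ∀ c : Fin (K + 2),
        |a - slo K c * col K e| ≤ 400 * (NN K : ℤ) ^ 14 := by
      intro a ha c
      have h1 := shift_abs (K := K) (c := c) (p := e) (by have := c.2; omega) (by omega)
      rw [abs_le] at ha h1 ⊢
      constructor <;> omega
    have he' : e = 0 ∨ e = 1 := by omega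
    rcases he' with he0 | he1
    · refine fun c => flip_eq (B := fun c => F c (E.org j - 100 * (NN K : ℤ) ^ 14))
        (B' := fun c => F c (E.org j + 100 * (NN K : ℤ) ^ 14)) (fun t ht => ?_) c
      obtain ⟨a, ha, hc⟩ := thr0 (K := K) t ht
      obtain ⟨g, g1, g2, g3⟩ := main a ha
      refine ⟨g, g1, g2, fun c => ⟨fun hct => ?_, fun hct => ?_⟩⟩
      · have h1 := (hc c (by have := c.2; omega)).1 hct
        rw [← he0] at h1
        have h2 := abs_le.1 (hsh a ha c)
        rw [g3]
        exact right j hj c _ (by rw [add_sub_cancel_left]; exact h2.2)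
          (by rw [add_sub_cancel_left]; exact h1)
      · have h1 := (hc c (by have := c.2; omega)).2 hct
        rw [← he0] at h1
        have h2 := abs_le.1 (hsh a ha c)
        rw [g3]
        exact left j hj c _ (by rw [add_sub_cancel_left]; exact h2.1)
          (by rw [add_sub_cancel_left]; exact h1)
    · refine fun c => (flip_eq (B := fun c => F c (E.org j + 100 * (NN K : ℤ) ^ 14))
        (B' := fun c => F c (E.org j - 100 * (NN K : ℤ) ^ 14)) (fun t ht => ?_) c).symm
      obtain ⟨a, ha, hc⟩ := thr1 (K := K) t ht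
      obtain ⟨g, g1, g2, g3⟩ := main a ha
      refine ⟨g, g1, g2, fun c => ⟨fun hct => ?_, fun hct => ?_⟩⟩
      · have h1 := (hc c (by have := c.2; omega)).1 hct
        rw [← he1] at h1
        have h2 := abs_le.1 (hsh a ha c)
        rw [g3]
        exact left j hj c _ (by rw [add_sub_cancel_left]; exact h2.1)
          (by rw [add_sub_cancel_left]; exact h1)
      · have h1 := (hc c (by have := c.2; omega)).2 hct
        rw [← he1] at h1
        have h2 := abs_le.1 (hsh a ha c)
        rw [g3]
        exact right j hj c _ (by rw [add_sub_cancel_left]; exact h2.2)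
          (by rw [add_sub_cancel_left]; exact h1)
  -- the values on the left of a group distinguish the classes
  have linj : ∀ j < G.length,
      Function.Injective (fun c => F c (E.org j - 100 * (NN K : ℤ) ^ 14)) ∧
      ∀ c, F c (E.org j - 100 * (NN K : ℤ) ^ 14) < K + 2 := by
    intro j hj
    -- a dummy with all classes on one side
    have h1 : ∃ a : ℤ, |a| ≤ (NN K : ℤ) ^ 13 ∧ ∀ c ≤ K + 1,
        a - slo K c * col K e < -rho K c := by
      have he' : e = 0 ∨ e = 1 := by omega
      rcases he' with he0 | he1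
      · obtain ⟨a, ha, hc⟩ := thr0 (K := K) 0 (by omega)
        exact ⟨a, ha, fun c hc' => he0 ▸ (hc c hc').2 (by omega)⟩
      · obtain ⟨a, ha, hc⟩ := thr1 (K := K) (K + 2) (le_refl _)
        exact ⟨a, ha, fun c hc' => he1 ▸ (hc c hc').1 (by omega)⟩
    obtain ⟨a, ha, hc⟩ := h1
    obtain ⟨w, hw1, hw2, hw3⟩ := exw j hj a ha
    obtain ⟨i1, i2⟩ := hf1 w hw1 (hw2.mono (by norm_num))
    have h2 : ∀ c, f w c = F c (E.org j - 100 * (NN K : ℤ) ^ 14) := by
      intro c
      rw [attr w hw1 hw2 c, hw3 c]
      have h1 := shift_abs (K := K) (c := c) (p := e) (by have := c.2; omega) (by omega)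
      rw [abs_le] at ha h1
      exact left j hj c _ (by rw [add_sub_cancel_left]; omega)
        (by rw [add_sub_cancel_left]; exact hc c (by have := c.2; omega))
    constructor
    · intro c c' hcc
      apply i1
      rw [h2, h2]
      exact hcc
    · intro c
      rw [← h2]
      exact i2 c
  -- all groups
  have chain : ∀ j, j < G.length → ∀ c : Fin (K + 2),
      F c (E.org j - 100 * (NN K : ℤ) ^ 14) = F c (E.org 0 - 100 * (NN K : ℤ) ^ 14) := by
    intro j
    induction j with
    | zero => intro _ c; rfl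
    | succ j ih =>
      intro hj c
      rw [← ih (by omega) c, cross j (by omega) c]
      symm
      have ho := E.org_succ j
      have h15 : 1000 * (NN K : ℤ) ^ 14 ≤ (NN K : ℤ) ^ 15 := pow_step K 14
      have hr := rho_le14 c
      have z1 := win j (by omega) (E.org j + 100 * (NN K : ℤ) ^ 14)
        (by rw [abs_le]; constructor <;> omega)
      have z2 := win (j + 1) hj (E.org (j + 1) - 100 * (NN K : ℤ) ^ 14)
        (by rw [abs_le]; constructor <;> omega)
      refine steps' c _ _ (by omega) (z1.mono (by norm_num)) (z2.mono (by norm_num)) ?_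
      intro r hl hcon
      obtain ⟨s', j', i, hr', hs', hj', hi, hlv⟩ := rep_lev E.hG c r hl
      rw [abs_le] at hlv
      have e1 : (orig K G.length s' j' : ℤ) - E.org j =
          (NN K : ℤ) ^ 15 * (((zlen G.length : ℤ) * s' + j') - ((zlen G.length : ℤ) * E.s + j)) := by
        unfold Env.org orig
        push_cast
        rw [slot_eq]
        ring
      have h1 : 0 < (NN K : ℤ) ^ 15 *
          (((zlen G.length : ℤ) * s' + j') - ((zlen G.length : ℤ) * E.s + j)) := by
        rw [← e1]; omega
      have h2 : (NN K : ℤ) ^ 15 *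
          (((zlen G.length : ℤ) * s' + j') - ((zlen G.length : ℤ) * E.s + j)) <
          (NN K : ℤ) ^ 15 * 1 := by
        rw [← e1]; omega
      have p15 := pow_pos' K 15
      have h3 := lt_of_mul_lt_mul_left h2 (by omega)
      have h4 := (mul_pos_iff_of_pos_left (show 0 < (NN K : ℤ) ^ 15 by omega)).1 h1
      omega
  by_cases hG0 : G.length = 0
  · exact ⟨fun c => c.val, fun a b hab => Fin.ext hab, fun c => c.2, fun j hj => by omega⟩
  · refine ⟨fun c => F c (E.org 0 - 100 * (NN K : ℤ) ^ 14), (linj 0 (by omega)).1,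
      (linj 0 (by omega)).2, fun j hj c v hv => ?_⟩
    have hz : E.Z 10 v := win j hj v (by rw [abs_le] at hv ⊢; constructor <;> omega)
    have hmain : F c v = F c (E.org 0 - 100 * (NN K : ℤ) ^ 14) := by
      rw [← chain j hj c]
      rw [abs_le] at hv
      have hr := rho_le14 c
      by_cases h1 : v - E.org j < -rho K c
      · exact left j hj c v (by omega) h1
      · by_cases h2 : rho K c < v - E.org j
        · rw [right j hj c v (by omega) h2]
          exact (cross j hj c).symm
        · -- inside the range of the group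
          obtain ⟨w, hw1, hw2, hw3⟩ : ∃ w : EltT K G, labT K G w = e ∧ E.Z 10 (w.1.row K G) ∧
              ∀ c' : Fin (K + 2), w.1.lev K G c' =
                E.org j + (v - E.org j + slo K c * col K e - slo K c' * col K e) := by
            have hs := shift_abs (K := K) (c := c) (p := e) (by have := c.2; omega) (by omega)
            have h3 : E.Z 10 (E.org j + (v - E.org j + slo K c * col K e)) := win j hj _ (by
              rw [add_sub_cancel_left]
              rw [abs_le] at hs ⊢
              constructor <;> omega)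
            have h4 : 0 ≤ E.org j + (v - E.org j + slo K c * col K e) := by
              have := h3.1
              have := zlo_ge (K := K) (G := G) E.s
              have := pow_pos' K 15
              omega
            have h5 : (E.org j + (v - E.org j + slo K c * col K e)).toNat < rows K G.length := by
              have := h3.2
              have := zhi_le (K := K) (G := G) E.hs
              have := pow_pos' K 15
              have h6 : (((E.org j + (v - E.org j + slo K c * col K e)).toNat : ℕ) : ℤ) <
                  rows K G.length := by omega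
              exact_mod_cast h6
            refine ⟨⟨.dum (E.org j + (v - E.org j + slo K c * col K e)).toNat e,
              dum_mem.2 ⟨h5, by omega⟩⟩, ?_, ?_, ?_⟩
            · unfold labT
              simp only [Elt.lab]
              omega
            · simp only [Elt.row]
              rw [Int.toNat_of_nonneg h4]
              exact h3
            · intro c'
              simp only [Elt.lev]
              rw [Int.toNat_of_nonneg h4]
              ring
          obtain ⟨i1, i2⟩ := hf1 w hw1 (hw2.mono (by norm_num))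
          have hother : ∀ c', c' ≠ c → f w c' = F c' (E.org j - 100 * (NN K : ℤ) ^ 14) := by
            intro c' hc'
            rw [attr w hw1 hw2 c', hw3 c']
            have hs := sep_class (K := K) (c := c) (c' := c') (by have := c.2; omega)
              (by have := c'.2; omega) (fun h => hc' (Fin.ext h.symm)) he (v - E.org j)
              (v - E.org j + slo K c * col K e - slo K c' * col K e)
              (by rw [abs_le]; constructor <;> omega) (by ring)
            obtain ⟨hs1, hs2⟩ := hs
            rw [abs_le] at hs2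
            rcases hs1 with h | h
            · exact left j hj c' _ (by rw [add_sub_cancel_left]; omega)
                (by rw [add_sub_cancel_left]; exact h)
            · rw [right j hj c' _ (by rw [add_sub_cancel_left]; omega)
                (by rw [add_sub_cancel_left]; exact h)]
              exact (cross j hj c').symm
          have h3 := agree_at i1 i2 (linj j hj).1 (linj j hj).2 c hother
          have h4 : f w c = F c v := by
            rw [attr w hw1 hw2 c, hw3 c]
            congr 1
            ring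
          rw [← h4]
          exact h3
    refine ⟨hmain, ?_⟩
    rw [← hf2 c v (hz.mono (by norm_num))]
    exact hmain

end Pool.Agent.Lib.MP_612bca_lc
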