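import Pool.Agent.Lib.MP_612bca_lc.Const2

/-!
# The soundness proof: the colour and the hubs of a class
-/

namespace Pool.Agent.Lib.MP_612bca_lc

attribute [local irreducible] NN zones slot slo MP_612bca_lc.col zlo zhi rho

variable {K : ℕ} {G : List (List Pnt)}

theorem Env.T.cyc {E : Env K G} {s : Bool} {κ : ℕ} {x y z : SVert (EltT K G) (K + 2)}
    (h : E.T s κ x y z) : E.T s κ y z x := STri.cyc h

theorem Env.T.asymm {E : Env K G} {s : Bool} {κ : ℕ} {x y z : SVert (EltT K G) (K + 2)}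
    (h : E.T s κ x y z) (h' : E.T s κ x z y) : False := STri.asymm h h'

theorem Env.T.swap {E : Env K G} {s : Bool} {κ : ℕ} {x y z : SVert (EltT K G) (K + 2)}
    (h : E.T s κ x y z) : E.T (!s) κ x z y := STri.swap h

theorem Env.T.unique {E : Env K G} {s : Bool} {κ : ℕ} {x y z z' : SVert (EltT K G) (K + 2)}
    (h : E.T s κ x y z) (h' : E.T s κ x y z') : z = z' := STri.unique (E.hD.plane κ) h h'

/-- A triangle determines its sign. -/
theorem Env.T.sign {E : Env K G} {s s' : Bool} {κ : ℕ} {x y z : SVert (EltT K G) (K + 2)}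
    (h : E.T s κ x y z) (h' : E.T s' κ x y z) : s = s' := by
  by_contra hne
  have h1 : s' = !s := by cases s <;> cases s' <;> simp_all
  rw [h1] at h'
  exact h.swap.asymm h'

theorem Env.T.colour {E : Env K G} {s : Bool} {κ : ℕ} {x y z : SVert (EltT K G) (K + 2)}
    (h : E.T s κ x y z) : (Gam K G).Adj x y ∧ E.cl s(x, y) = κ :=
  (STri.adj (E.hD.plane κ) h).1

theorem Env.T.colour' {E : Env K G} {s : Bool} {κ : ℕ} {x y z : SVert (EltT K G) (K + 2)}
    (h : E.T s κ x y z) : (Gam K G).Adj x z ∧ E.cl s(x, z) = κ := by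
  have h1 := (STri.adj (E.hD.plane κ) h).2.2
  exact ⟨h1.1.symm, by rw [Sym2.eq_swap]; exact h1.2⟩

variable (E : Env K G)

/-- Consecutive dummies: same colour, opposite signs. -/
theorem Env.next_same (c : Fin (K + 2)) {w w' : EltT K G} (hw : labT K G w ≠ 2)
    (hw' : labT K G w' ≠ 2) (hz : E.Z 3 (w.1.row K G)) (hz' : E.Z 3 (w'.1.row K G))
    (hn : Nx c w w') {κ κ' : ℕ} {h h' : Fin (K + 2)} {s s' : Bool} (hl : E.LinkAt w c κ h s)
    (hl' : E.LinkAt w' c κ' h' s') : κ = κ' ∧ s' = !s := by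
  obtain ⟨pr, _, _, _, hpr, _⟩ := E.hood c hw hz
  obtain ⟨_, su', _, _, _, hsu', _⟩ := E.hood c hw' hz'
  have h1 := hl.mid pr w' hpr hn
  have h2 := hl'.mid w su' hn hsu'
  have hκ : κ = κ' := by
    have e1 := h1.colour'.2
    have e2 := h2.colour.2
    rw [← e1, ← e2, Sym2.eq_swap]
  subst hκ
  refine ⟨rfl, ?_⟩
  have h3 := (hl'.pr2 w pr hn hw hpr).1
  by_contra hne
  have hss : s' = s := by cases s <;> cases s' <;> simp_all
  subst hss
  exact h1.cyc.cyc.asymm h3

/-- Dummies at distance two around a dummy: same hub. -/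
theorem Env.hub_same (c : Fin (K + 2)) {w w₁ w' : EltT K G} (hw : labT K G w ≠ 2)
    (hw₁ : labT K G w₁ ≠ 2) (hw' : labT K G w' ≠ 2) (hlab : labT K G w = labT K G w')
    (hn : Nx c w w₁) (hn' : Nx c w₁ w') {κ : ℕ} {h h' : Fin (K + 2)} {s : Bool}
    (hl : E.LinkAt w c κ h s) (hl' : E.LinkAt w' c κ h' s) : h = h' := by
  have h1 := (hl.su2 w₁ w' hn hw₁ hn').2
  have h2 := (hl'.pr2 w₁ w hn' hw₁ hn).2
  have h3 := h1.unique h2.cyc.cyc
  have h4 := Sum.inr_injective h3
  exact (Prod.ext_iff.1 h4).1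

/-- The colours and the hubs of the classes near the groups. -/
theorem Env.consts : ∃ (κ : Fin (K + 2) → ℕ) (U W : Fin (K + 2) → Fin (K + 2))
    (ω : Fin (K + 2) → ℤ → Bool), Function.Injective κ ∧ (∀ c, κ c < K + 2) ∧
    (∀ (c : Fin (K + 2)) (v : ℤ), E.Z 5 v → (∀ r, labT K G r = 2 → r.1.lev K G c ≠ v) →
      ω c (v + 1) = ω c v) ∧
    ∀ j < G.length, ∀ (c : Fin (K + 2)) (v : ℤ), |v - E.org j| ≤ (NN K : ℤ) ^ 14 →
      E.LinkAt (DD K G c v 0) c (κ c) (U c) (ω c v) ∧
      E.LinkAt (DD K G c v 1) c (κ c) (W c) (!(ω c v)) ∧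
      E.LinkAt (DD K G c v 2) c (κ c) (U c) (ω c v) ∧
      E.LinkAt (DD K G c v 3) c (κ c) (W c) (!(ω c v)) := by
  classical
  choose! κf hf sf hk1 hk2 hh hl using fun (w : EltT K G) (hw : labT K G w ≠ 2)
    (hz : E.Z 3 (w.1.row K G)) => E.link hw hz
  -- dummies at levels of the zone
  have zr : ∀ (c : Fin (K + 2)) (v : ℤ), E.Z 4 v → ∀ p < 4, E.Z 3 ((DD K G c v p).1.row K G) :=
    fun c v hv p hp => Env.Z.row (m := 3) hv (by norm_num) c hp
  have lr : ∀ (c : Fin (K + 2)) (v : ℤ), E.Z 4 v → ∀ p < 4, labT K G (DD K G c v p) = p % 2 :=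
    fun c v hv p hp => DD_lab c (hv.mono (by norm_num)).reg hp
  have la : ∀ (c : Fin (K + 2)) (v : ℤ), E.Z 4 v → ∀ p < 4, E.LinkAt (DD K G c v p) c
      (κf (DD K G c v p) c) (hf (DD K G c v p) c) (sf (DD K G c v p) c) :=
    fun c v hv p hp => hl _ (by rw [lr c v hv p hp]; omega) (zr c v hv p hp) c
  -- one step inside a level
  have st : ∀ (c : Fin (K + 2)) (v : ℤ), E.Z 4 v → ∀ p < 3,
      κf (DD K G c v p) c = κf (DD K G c v (p + 1)) c ∧
      sf (DD K G c v (p + 1)) c = !(sf (DD K G c v p) c) := by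
    intro c v hv p hp
    exact E.next_same c (by rw [lr c v hv p (by omega)]; omega)
      (by rw [lr c v hv (p + 1) (by omega)]; omega) (zr c v hv p (by omega))
      (zr c v hv (p + 1) (by omega)) (E.nx_dd c (hv.mono (by norm_num)).reg hp)
      (la c v hv p (by omega)) (la c v hv (p + 1) (by omega))
  -- one step to the next level
  have st' : ∀ (c : Fin (K + 2)) (v : ℤ), E.Z 5 v → (∀ r, labT K G r = 2 → r.1.lev K G c ≠ v) →
      Nx c (DD K G c v 3) (DD K G c (v + 1) 0) := by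
    intro c v hv hr
    have hv1 : E.Z 4 (v + 1) := Env.Z.near (m := 4) hv (by omega) (by omega)
    obtain ⟨su, h1, h2⟩ := E.succ3 c (hv.mono (by norm_num)).reg (hv1.mono (by norm_num)).reg
    rcases h2 with rfl | ⟨h2, h3⟩
    · exact h1
    · exact absurd h3 (hr su h2)
  have st3 : ∀ (c : Fin (K + 2)) (v : ℤ), E.Z 5 v → (∀ r, labT K G r = 2 → r.1.lev K G c ≠ v) →
      κf (DD K G c v 3) c = κf (DD K G c (v + 1) 0) c ∧
      sf (DD K G c (v + 1) 0) c = !(sf (DD K G c v 3) c) := by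
    intro c v hv hr
    have hv0 : E.Z 4 v := hv.mono (by norm_num)
    have hv1 : E.Z 4 (v + 1) := Env.Z.near (m := 4) hv (by omega) (by omega)
    exact E.next_same c (by rw [lr c v hv0 3 (by omega)]; omega)
      (by rw [lr c _ hv1 0 (by omega)]; omega) (zr c v hv0 3 (by omega))
      (zr c _ hv1 0 (by omega)) (st' c v hv hr) (la c v hv0 3 (by omega)) (la c _ hv1 0 (by omega))
  -- hubs
  have hu : ∀ (c : Fin (K + 2)) (v : ℤ), E.Z 4 v → ∀ p < 2,
      hf (DD K G c v p) c = hf (DD K G c v (p + 2)) c := by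
    intro c v hv p hp
    obtain ⟨a1, a2⟩ := st c v hv p (by omega)
    obtain ⟨b1, b2⟩ := st c v hv (p + 1) (by omega)
    have l1 := la c v hv p (by omega)
    have l2 := la c v hv (p + 2) (by omega)
    rw [← b1, ← a1, b2, a2, Bool.not_not] at l2
    refine E.hub_same c ?_ ?_ ?_ ?_ (E.nx_dd c (hv.mono (by norm_num)).reg (by omega))
      (E.nx_dd c (hv.mono (by norm_num)).reg (by omega)) l1 l2
    · rw [lr c v hv p (by omega)]; omega
    · rw [lr c v hv (p + 1) (by omega)]; omega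
    · rw [lr c v hv (p + 2) (by omega)]; omega
    · rw [lr c v hv p (by omega), lr c v hv (p + 2) (by omega)]; omega
  have hu' : ∀ (c : Fin (K + 2)) (v : ℤ), E.Z 5 v → (∀ r, labT K G r = 2 → r.1.lev K G c ≠ v) →
      ∀ p < 2, hf (DD K G c v (p + 2)) c = hf (DD K G c (v + 1) p) c := by
    intro c v hv hr p hp
    have hv0 : E.Z 4 v := hv.mono (by norm_num)
    have hv1 : E.Z 4 (v + 1) := Env.Z.near (m := 4) hv (by omega) (by omega)
    have n3 := st' c v hv hr
    obtain ⟨a1, a2⟩ := st3 c v hv hr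
    have hp' : p = 0 ∨ p = 1 := by omega
    rcases hp' with rfl | rfl
    · obtain ⟨b1, b2⟩ := st c v hv0 2 (by omega)
      have l1 := la c v hv0 2 (by omega)
      have l2 := la c _ hv1 0 (by omega)
      rw [← a1, ← b1, a2, b2, Bool.not_not] at l2
      refine E.hub_same c ?_ ?_ ?_ ?_ (E.nx_dd c (hv0.mono (by norm_num)).reg (by omega)) n3 l1 l2
      · rw [lr c v hv0 2 (by omega)]; omega
      · rw [lr c v hv0 3 (by omega)]; omega
      · rw [lr c _ hv1 0 (by omega)]; omega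
      · rw [lr c v hv0 2 (by omega), lr c _ hv1 0 (by omega)]
    · obtain ⟨b1, b2⟩ := st c _ hv1 0 (by omega)
      have l1 := la c v hv0 3 (by omega)
      have l2 := la c _ hv1 1 (by omega)
      rw [← b1, ← a1, b2, a2, Bool.not_not] at l2
      refine E.hub_same c ?_ ?_ ?_ ?_ n3 (E.nx_dd c (hv1.mono (by norm_num)).reg (by omega)) l1 l2
      · rw [lr c v hv0 3 (by omega)]; omega
      · rw [lr c _ hv1 0 (by omega)]; omega
      · rw [lr c _ hv1 1 (by omega)]; omega
      · rw [lr c v hv0 3 (by omega), lr c _ hv1 1 (by omega)]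
  -- constants
  obtain ⟨κ, k1, k2, k3⟩ := E.const κf 0 (by omega)
    (fun w hw hz => ⟨hk1 w (by omega) hz, hk2 w (by omega) hz⟩)
    (fun c v hv => by
      have hv0 : E.Z 4 v := hv.mono (by norm_num)
      rw [(st c v hv0 0 (by omega)).1, (st c v hv0 1 (by omega)).1])
    (fun c v hv hr => by
      have hv0 : E.Z 4 v := hv.mono (by norm_num)
      rw [(st c v hv0 2 (by omega)).1, (st3 c v hv hr).1])
  obtain ⟨U, u1, u2, u3⟩ := E.const (fun w c => (hf w c).val) 0 (by omega)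
    (fun w hw hz => ⟨fun a b hab => hh w (by omega) hz (Fin.ext hab), fun c => (hf w c).2⟩)
    (fun c v hv => by
      have hv0 : E.Z 4 v := hv.mono (by norm_num)
      show (hf _ c).val = (hf _ c).val
      rw [hu c v hv0 0 (by omega)])
    (fun c v hv hr => by
      show (hf _ c).val = (hf _ c).val
      rw [hu' c v hv hr 0 (by omega)])
  obtain ⟨W, w1, w2, w3⟩ := E.const (fun w c => (hf w c).val) 1 (by omega)
    (fun w hw hz => ⟨fun a b hab => hh w (by omega) hz (Fin.ext hab), fun c => (hf w c).2⟩)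
    (fun c v hv => by
      have hv0 : E.Z 4 v := hv.mono (by norm_num)
      show (hf _ c).val = (hf _ c).val
      rw [hu c v hv0 1 (by omega)])
    (fun c v hv hr => by
      show (hf _ c).val = (hf _ c).val
      rw [hu' c v hv hr 1 (by omega)])
  refine ⟨κ, fun c => ⟨U c, u2 c⟩, fun c => ⟨W c, w2 c⟩, fun c v => sf (DD K G c v 0) c, k1, k2,
    ?_, fun j hj c v hv => ?_⟩
  · intro c v hz hr
    have hz4 : E.Z 4 v := hz.mono (by norm_num)
    show sf (DD K G c (v + 1) 0) c = sf (DD K G c v 0) c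
    rw [(st3 c v hz hr).2, (st c v hz4 2 (by omega)).2, (st c v hz4 1 (by omega)).2,
      (st c v hz4 0 (by omega)).2]
    simp
  have hz : E.Z 5 v := by
    have h1 := E.org_zone hj
    have h2 := abs_le.1 hv
    have h14 := pow_pos' K 14
    constructor
    · have := h1.1; nlinarith
    · have := h1.2; nlinarith
  have hz4 : E.Z 4 v := hz.mono (by norm_num)
  have K0 := (k3 j hj c v hv).1
  have U0 := (u3 j hj c v hv).1
  have U2 := (u3 j hj c v hv).2
  have W1 := (w3 j hj c v hv).1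
  have W3 := (w3 j hj c v hv).2
  obtain ⟨a1, a2⟩ := st c v hz4 0 (by omega)
  obtain ⟨b1, b2⟩ := st c v hz4 1 (by omega)
  obtain ⟨c1, c2⟩ := st c v hz4 2 (by omega)
  have l0 := la c v hz4 0 (by omega)
  have l1 := la c v hz4 1 (by omega)
  have l2 := la c v hz4 2 (by omega)
  have l3 := la c v hz4 3 (by omega)
  have eU0 : hf (DD K G c v 0) c = ⟨U c, u2 c⟩ := Fin.ext U0
  have eU2 : hf (DD K G c v 2) c = ⟨U c, u2 c⟩ := Fin.ext U2
  have eW1 : hf (DD K G c v 1) c = ⟨W c, w2 c⟩ := Fin.ext W1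
  have eW3 : hf (DD K G c v 3) c = ⟨W c, w2 c⟩ := Fin.ext W3
  refine ⟨?_, ?_, ?_, ?_⟩
  · rw [K0, eU0] at l0
    exact l0
  · rw [← a1, K0, eW1, a2] at l1
    exact l1
  · rw [← b1, ← a1, K0, eU2, b2, a2, Bool.not_not] at l2
    exact l2
  · rw [← c1, ← b1, ← a1, K0, eW3, c2, b2, a2, Bool.not_not] at l3
    exact l3

end Pool.Agent.Lib.MP_612bca_lc
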