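import Pool.Agent.Lib.CookLevin.Defs

/-!
# Geometric thickness, the existential theory of the reals, and `∃ℝ`-hardness

Public definitions used in the statement of the main result of `MP_612bca_lc`.
-/

namespace Pool.Agent.Lib.MP_612bca_lc

/-! ### Geometric thickness -/

/-- `p` is a straight-line drawing of the graph `G`: the vertices are mapped injectively to points
of the plane, and the closed segment representing an edge contains the image of no vertex other
than its two endpoints. -/
structure IsStraightLineDrawing {V : Type*} (G : SimpleGraph V) (p : V → ℝ × ℝ) : Prop where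
  inj : Function.Injective p
  avoid : ∀ u v w, G.Adj u v → p w ∈ segment ℝ (p u) (p v) → w = u ∨ w = v

/-- The edges `ab` and `cd`, drawn as segments, cross: they share a point which is not a common
endpoint. -/
def EdgesCross {V : Type*} (p : V → ℝ × ℝ) (a b c d : V) : Prop :=
  ∃ q : ℝ × ℝ, q ∈ segment ℝ (p a) (p b) ∧ q ∈ segment ℝ (p c) (p d) ∧
    ¬ ((q = p a ∨ q = p b) ∧ (q = p c ∨ q = p d))

/-- `G` has geometric thickness at most `k`: it has a straight-line drawing together with a
colouring of its edges by `k` colours such that no two edges of the same colour cross. -/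
def GeometricThicknessLE {V : Type*} (G : SimpleGraph V) (k : ℕ) : Prop :=
  ∃ (p : V → ℝ × ℝ) (col : Sym2 V → ℕ), IsStraightLineDrawing G p ∧
    (∀ e ∈ G.edgeSet, col e < k) ∧
    ∀ a b c d, G.Adj a b → G.Adj c d → s(a, b) ≠ s(c, d) → col s(a, b) = col s(c, d) →
      ¬ EdgesCross p a b c d

open Classical in
/-- The input `(G, k)`, where `G` is a graph on `{0, …, n-1}`, as a bit string: `n` times `1`, then
`0`, then the `n²` entries of the adjacency matrix, then `k` times `1`. -/
noncomputable def graphWord (n : ℕ) (G : SimpleGraph (Fin n)) (k : ℕ) : List Bool :=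
  List.replicate n true ++ false ::
    ((List.finRange n).flatMap fun i => (List.finRange n).map fun j => decide (G.Adj i j)) ++
    List.replicate k true

/-- The decision problem GT: the codes of the pairs `(G, k)` such that `G` has geometric thickness
at most `k`. -/
def GT : Set (List Bool) :=
  {w | ∃ (n : ℕ) (G : SimpleGraph (Fin n)) (k : ℕ), w = graphWord n G k ∧
    GeometricThicknessLE G k}

/-! ### The existential theory of the reals -/

/-- Terms over `0, 1, +, ×`; variables are named by bit strings. -/
inductive Term
  | zero : Term
  | one : Term
  | var (name : List Bool) : Term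
  | add (s t : Term) : Term
  | mul (s t : Term) : Term

/-- Value of a term. -/
def Term.eval (x : List Bool → ℝ) : Term → ℝ
  | .zero => 0
  | .one => 1
  | .var name => x name
  | .add s t => s.eval x + t.eval x
  | .mul s t => s.eval x * t.eval x

/-- Quantifier-free formulas built from `<`, `=` and the Boolean connectives. -/
inductive Formula
  | lt (s t : Term) : Formula
  | eq (s t : Term) : Formula
  | and (φ ψ : Formula) : Formula
  | or (φ ψ : Formula) : Formula
  | not (φ : Formula) : Formula

/-- Truth of a formula under an assignment of real numbers to the variables. -/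
def Formula.Holds (x : List Bool → ℝ) : Formula → Prop
  | .lt s t => s.eval x < t.eval x
  | .eq s t => s.eval x = t.eval x
  | .and φ ψ => φ.Holds x ∧ ψ.Holds x
  | .or φ ψ => φ.Holds x ∨ ψ.Holds x
  | .not φ => ¬ φ.Holds x

/-- The existential closure of the formula `φ` is true over the reals. -/
def Formula.Satisfiable (φ : Formula) : Prop := ∃ x : List Bool → ℝ, φ.Holds x

/-- Bit code of the symbol number `i` with attached name: `i` times `1`, then `0`, then the bits of
the name, each preceded by `1`, then `0`. -/
def symbolWord (i : ℕ) (name : List Bool) : List Bool :=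
  List.replicate i true ++ false :: (name.flatMap fun b => [true, b]) ++ [false]

/-- Polish notation for terms, as a bit string. -/
def Term.word : Term → List Bool
  | .zero => symbolWord 0 []
  | .one => symbolWord 1 []
  | .var name => symbolWord 2 name
  | .add s t => symbolWord 3 [] ++ s.word ++ t.word
  | .mul s t => symbolWord 4 [] ++ s.word ++ t.word

/-- Polish notation for formulas, as a bit string. -/
def Formula.word : Formula → List Bool
  | .lt s t => symbolWord 5 [] ++ s.word ++ t.word
  | .eq s t => symbolWord 6 [] ++ s.word ++ t.word
  | .and φ ψ => symbolWord 7 [] ++ φ.word ++ ψ.word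
  | .or φ ψ => symbolWord 8 [] ++ φ.word ++ ψ.word
  | .not φ => symbolWord 9 [] ++ φ.word

/-- The class `∃ℝ`: the languages which reduce in polynomial time to deciding the truth of
existential sentences over the reals. -/
def InExistsR (L : Set (List Bool)) : Prop :=
  ∃ g : List Bool → List Bool, CookLevin.PolyTimeComputable g ∧
    ∀ x, ∃ φ : Formula, g x = φ.word ∧ (x ∈ L ↔ φ.Satisfiable)

/-- `L` is `∃ℝ`-hard: every language in `∃ℝ` has a polynomial-time many-one reduction to `L`. -/
def ExistsRHard (L : Set (List Bool)) : Prop :=
  ∀ L' : Set (List Bool), InExistsR L' →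
    ∃ f : List Bool → List Bool, CookLevin.PolyTimeComputable f ∧ ∀ x, x ∈ L' ↔ f x ∈ L

end Pool.Agent.Lib.MP_612bca_lc
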