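import Pool.Agent.Lib.MP_612bca_lc.Local

/-!
# The number of edges of the strip graph
-/

namespace Pool.Agent.Lib.MP_612bca_lc

namespace EdgeCount

theorem NN_ge (K : ℕ) : 1000 ≤ NN K := by unfold NN; omega

theorem mem_dum {K : ℕ} {G : List (List Pnt)} {a p : ℕ} :
    Elt.dum a p ∈ elts K G ↔ a < rows K G.length ∧ p < 4 := by
  simp only [elts, List.mem_append, List.mem_flatMap, List.mem_range, List.mem_map]
  constructor
  · rintro (⟨a', ha', p', hp', h⟩ | ⟨s, hs, q, hq, i, hi, h⟩)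
    · cases h; exact ⟨ha', hp'⟩
    · cases h
  · rintro ⟨ha, hp⟩
    exact Or.inl ⟨a, ha, p, hp, rfl⟩

theorem mem_rep {K : ℕ} {G : List (List Pnt)} {s j i : ℕ} (h : Elt.rep s j i ∈ elts K G) :
    s < zones K ∧ j < G.length ∧ pnt G j i ∈ G.getD j [] ∧ G.getD j [] ∈ G := by
  simp only [elts, List.mem_append, List.mem_flatMap, List.mem_range, List.mem_map] at h
  rcases h with (⟨a', ha', p', hp', h⟩ | ⟨s', hs, q, hq, i', hi, h⟩)
  · cases h
  · cases h
    obtain ⟨g, j⟩ := q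
    have h1 : G[j]? = some g := by
      have := List.mk_mem_zipIdx_iff_getElem?.1 hq
      simpa using this
    obtain ⟨hj, h2⟩ := List.getElem?_eq_some_iff.1 h1
    have h3 : G.getD j [] = g := by
      rw [List.getD_eq_getElem?_getD, h1]; rfl
    refine ⟨hs, hj, ?_, ?_⟩
    · rw [pnt, h3]
      simp only at hi
      rw [List.getD_eq_getElem?_getD, List.getElem?_eq_getElem hi]
      exact List.getElem_mem hi
    · rw [h3, ← h2]
      exact List.getElem_mem hj

/-- Levels and rows are close. -/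
theorem lev_row {K : ℕ} {G : List (List Pnt)} (hG : ∀ g ∈ G, GoodGroup K g) (c : Fin (K + 2))
    (w : EltT K G) : |w.1.lev K G c - w.1.row K G| ≤ (NN K : ℤ) ^ 13 := by
  obtain ⟨w, hw⟩ := w
  have hN : (1000 : ℤ) ≤ NN K := by exact_mod_cast NN_ge K
  have hc : (c : ℕ) ≤ K + 1 := by omega
  have hKN : (100 * ((K : ℤ) + 10)) = NN K := by simp [NN]
  have hslo : |slo K c| ≤ (NN K : ℤ) ^ 8 := by
    unfold slo
    split_ifs with h
    · rw [abs_of_nonneg (by positivity)]
    · have h2 : ((c : ℕ) : ℤ) ≤ NN K := by omega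
      rw [abs_of_nonneg (by positivity)]
      calc ((c : ℕ) : ℤ) ≤ (NN K : ℤ) ^ 1 := by simpa using h2
        _ ≤ (NN K : ℤ) ^ 8 := pow_le_pow_right₀ (by omega) (by norm_num)
  cases w with
  | dum a p =>
    simp only [Elt.lev, Elt.row]
    have hcol : |col K p| ≤ (NN K : ℤ) ^ 5 := by
      unfold col
      split
      · rw [abs_of_nonneg (by positivity)]
        exact pow_le_pow_right₀ (by omega) (by norm_num)
      · rw [abs_neg, abs_of_nonneg (by positivity)]
        exact pow_le_pow_right₀ (by omega) (by norm_num)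
      · rw [abs_of_nonneg (by positivity)]
        exact pow_le_pow_right₀ (by omega) (by norm_num)
      · rw [abs_neg, abs_of_nonneg (by positivity)]
    have : (a : ℤ) - slo K c * col K p - a = -(slo K c * col K p) := by ring
    rw [this, abs_neg, abs_mul]
    calc |slo K c| * |col K p| ≤ (NN K : ℤ) ^ 8 * (NN K : ℤ) ^ 5 :=
          mul_le_mul hslo hcol (abs_nonneg _) (by positivity)
      _ = (NN K : ℤ) ^ 13 := by ring
  | rep s j i =>
    obtain ⟨-, hj, hm, hg⟩ := mem_rep hw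
    have hX := (hG _ hg).X_le _ hm
    have hY := (hG _ hg).Y_le _ hm
    simp only [Elt.lev, Elt.row]
    clear hw hm hj hg
    have h13 : (NN K : ℤ) ^ 8 * 2 ≤ (NN K : ℤ) ^ 13 := by
      calc (NN K : ℤ) ^ 8 * 2 ≤ (NN K : ℤ) ^ 8 * (NN K : ℤ) ^ 5 := by
            apply mul_le_mul_of_nonneg_left _ (by positivity)
            calc (2 : ℤ) ≤ (NN K : ℤ) ^ 1 := by rw [pow_one]; linarith
              _ ≤ (NN K : ℤ) ^ 5 := pow_le_pow_right₀ (by omega) (by norm_num)
        _ = (NN K : ℤ) ^ 13 := by ring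
    split_ifs with h
    · have : ((orig K G.length s j : ℕ) : ℤ) + -(slo K c * (pnt G j i).X) - orig K G.length s j =
          -(slo K c * (pnt G j i).X) := by ring
      rw [this, abs_neg, abs_mul]
      calc |slo K c| * |((pnt G j i).X : ℤ)| ≤ (NN K : ℤ) ^ 8 * 2 := by
            apply mul_le_mul hslo _ (abs_nonneg _) (by positivity)
            rw [abs_of_nonneg (by positivity)]
            exact_mod_cast hX
        _ ≤ _ := h13
    · have h0 : ((orig K G.length s j : ℕ) : ℤ) + (((pnt G j i).Y : ℤ) - (c : ℕ) * (pnt G j i).X) -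
          orig K G.length s j = ((pnt G j i).Y : ℤ) - (c : ℕ) * (pnt G j i).X := by ring
      rw [h0]
      have h1 : (NN K : ℤ) ≤ (NN K : ℤ) ^ 13 := by
        calc (NN K : ℤ) = (NN K : ℤ) ^ 1 := by ring
          _ ≤ (NN K : ℤ) ^ 13 := pow_le_pow_right₀ (by omega) (by norm_num)
      have h2 : ((c : ℕ) : ℤ) * (pnt G j i).X ≤ (K + 1) * 2 := by
        apply mul_le_mul _ _ (by positivity) (by positivity)
        · exact_mod_cast hc
        · exact_mod_cast hX
      have h3 : (0 : ℤ) ≤ ((c : ℕ) : ℤ) * (pnt G j i).X := by positivity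
      have h4 : ((pnt G j i).Y : ℤ) ≤ 2 * K + 4 := by exact_mod_cast hY
      rw [abs_le]
      constructor <;> linarith

/-- Keys determine levels and labels. -/
theorem key_form {K : ℕ} {G : List (List Pnt)} (c : Fin (K + 2)) (w : EltT K G) :
    ∃ s : ℤ, 0 ≤ s ∧ s ≤ 5 ∧ keyT K G c w = 8 * w.1.lev K G c + s ∧
      ((s < 4 ∧ (labT K G w : ℤ) = s % 2) ∨ (4 ≤ s ∧ labT K G w = 2)) := by
  obtain ⟨w, hw⟩ := w
  refine ⟨w.sub G c, ?_⟩
  simp only [keyT, labT, Elt.key, true_and]
  cases w with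
  | dum a p =>
    have hp := (mem_dum.1 hw).2
    simp only [Elt.sub, Elt.lab]
    omega
  | rep s j i =>
    simp only [Elt.sub, Elt.lab]
    split_ifs <;> simp

/-- Strongly regular elements. -/
def SReg (K : ℕ) (G : List (List Pnt)) (w : Elt) : Prop :=
  2 * NN K ^ 14 ≤ w.row K G ∧ w.row K G + 2 * NN K ^ 14 ≤ rows K G.length

theorem pow14 (K : ℕ) : 1000 * (NN K : ℤ) ^ 13 ≤ (NN K : ℤ) ^ 14 := by
  have hN : (1000 : ℤ) ≤ NN K := by exact_mod_cast NN_ge K
  calc 1000 * (NN K : ℤ) ^ 13 ≤ NN K * (NN K : ℤ) ^ 13 :=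
        mul_le_mul_of_nonneg_right hN (by positivity)
    _ = (NN K : ℤ) ^ 14 := by ring

/-- Neighbours of a strongly regular element. -/
theorem exists_nbrs {K : ℕ} {G : List (List Pnt)} (hG : ∀ g ∈ G, GoodGroup K g) (c : Fin (K + 2))
    (m : EltT K G) (hm : SReg K G m.1) :
    ∃ u v : EltT K G, Cons (keyT K G) c u m ∧ Cons (keyT K G) c m v ∧ Reg K G u.1 ∧
      (labT K G m ≠ 2 → labT K G m ≠ labT K G u ∧ labT K G m ≠ labT K G v) := by
  have hfin : Finite (EltT K G) := by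
    unfold EltT
    exact List.finite_toSet (elts K G)
  have hN : (1000 : ℤ) ≤ NN K := by exact_mod_cast NN_ge K
  have h14 := pow14 K
  have h13 : (1000 : ℤ) ≤ (NN K : ℤ) ^ 13 := by
    calc (1000 : ℤ) ≤ (NN K : ℤ) ^ 1 := by simpa using hN
      _ ≤ (NN K : ℤ) ^ 13 := pow_le_pow_right₀ (by omega) (by norm_num)
  obtain ⟨hm1, hm2⟩ := hm
  have hm1' : 2 * (NN K : ℤ) ^ 14 ≤ m.1.row K G := by exact_mod_cast hm1
  have hm2' : (m.1.row K G : ℤ) + 2 * (NN K : ℤ) ^ 14 ≤ rows K G.length := by exact_mod_cast hm2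
  have hlr := abs_le.1 (lev_row hG c m)
  obtain ⟨s, hs0, hs5, hkey, hlab⟩ := key_form c m
  set lv := m.1.lev K G c with hlv
  have hreg0 : RegLev K G lv := by constructor <;> linarith
  have hreg1 : RegLev K G (lv + 1) := by constructor <;> linarith
  have hreg2 : RegLev K G (lv - 1) := by constructor <;> linarith
  have hdkey : ∀ (v : ℤ) (p : ℕ), RegLev K G v → p < 4 →
      ∃ z : EltT K G, keyT K G c z = 8 * v + p := by
    intro v p hv hp
    obtain ⟨h1, h2⟩ := dumAt_mem K G c v hv p hp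
    refine ⟨⟨dumAt K c v p, h1⟩, ?_⟩
    simp only [keyT, Elt.key, h2]
    simp [dumAt, Elt.sub]
  -- the upper bound for the successor
  obtain ⟨z0, hz0, hz0'⟩ : ∃ z0 : EltT K G, keyT K G c m < keyT K G c z0 ∧
      keyT K G c z0 ≤ (if s < 3 then 8 * lv + s + 1 else 8 * lv + 8) := by
    by_cases h3 : s < 3
    · obtain ⟨z, hz⟩ := hdkey lv (s + 1).toNat hreg0 (by omega)
      refine ⟨z, ?_, ?_⟩
      · rw [hz, hkey]; omega
      · rw [hz, if_pos h3]; omega
    · obtain ⟨z, hz⟩ := hdkey (lv + 1) 0 hreg1 (by omega)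
      refine ⟨z, ?_, ?_⟩
      · rw [hz, hkey]; push_cast; omega
      · rw [hz, if_neg h3]; push_cast; omega
  obtain ⟨z1, hz1, hz1'⟩ : ∃ z1 : EltT K G, keyT K G c z1 < keyT K G c m ∧
      (if 1 ≤ s ∧ s < 4 then 8 * lv + s - 1 else 8 * lv - 5) ≤ keyT K G c z1 := by
    by_cases h3 : 1 ≤ s ∧ s < 4
    · obtain ⟨z, hz⟩ := hdkey lv (s - 1).toNat hreg0 (by omega)
      refine ⟨z, ?_, ?_⟩
      · rw [hz, hkey]; omega
      · rw [hz, if_pos h3]; omega
    · obtain ⟨z, hz⟩ := hdkey (lv - 1) 3 hreg2 (by omega)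
      refine ⟨z, ?_, ?_⟩
      · rw [hz, hkey]; push_cast; omega
      · rw [hz, if_neg h3]; push_cast; omega
  have hfs : {z : EltT K G | keyT K G c m < keyT K G c z}.Finite := Set.toFinite _
  have hfp : {z : EltT K G | keyT K G c z < keyT K G c m}.Finite := Set.toFinite _
  obtain ⟨v, hv, hvmin⟩ := Set.exists_min_image _ (keyT K G c) hfs ⟨z0, hz0⟩
  obtain ⟨u, hu, humax⟩ := Set.exists_max_image _ (keyT K G c) hfp ⟨z1, hz1⟩
  have hv' : keyT K G c m < keyT K G c v := hv
  have hu' : keyT K G c u < keyT K G c m := hu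
  have hvb := (hvmin z0 hz0).trans hz0'
  have hub := hz1'.trans (humax z1 hz1)
  refine ⟨u, v, ⟨hu', ?_⟩, ⟨hv', ?_⟩, ?_, ?_⟩
  · rintro z ⟨h1, h2⟩
    exact absurd (humax z h2) (not_le.2 h1)
  · rintro z ⟨h1, h2⟩
    exact absurd (hvmin z h1) (not_le.2 h2)
  · obtain ⟨s', hs0', hs5', hkey', -⟩ := key_form c u
    have hlr' := abs_le.1 (lev_row hG c u)
    have h1 : lv - 1 ≤ u.1.lev K G c := by
      rw [hkey'] at hub
      split_ifs at hub <;> omega
    have h2 : u.1.lev K G c ≤ lv := by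
      rw [hkey', hkey] at hu'
      omega
    constructor
    · have : (NN K : ℤ) ^ 14 ≤ u.1.row K G := by linarith
      exact_mod_cast this
    · have : (u.1.row K G : ℤ) + (NN K : ℤ) ^ 14 ≤ rows K G.length := by linarith
      exact_mod_cast this
  · intro hne
    have hs4 : s < 4 ∧ (labT K G m : ℤ) = s % 2 := by
      rcases hlab with h | h
      · exact h
      · exact absurd h.2 hne
    obtain ⟨s1, hs01, hs51, hkey1, hlab1⟩ := key_form c u
    obtain ⟨s2, hs02, hs52, hkey2, hlab2⟩ := key_form c v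
    rw [hkey1] at hub hu'
    rw [hkey2] at hvb hv'
    rw [hkey] at hu' hv'
    constructor
    · split_ifs at hub <;> omega
    · split_ifs at hvb <;> omega

/-- Representatives are strongly regular. -/
theorem sreg_rep {K : ℕ} {G : List (List Pnt)} {s j i : ℕ} (h : Elt.rep s j i ∈ elts K G) :
    SReg K G (Elt.rep s j i) := by
  obtain ⟨hs, hj, -, -⟩ := mem_rep h
  clear h
  have h15 : 2 * NN K ^ 14 ≤ slot K := by
    have hN := NN_ge K
    calc 2 * NN K ^ 14 ≤ NN K * NN K ^ 14 := Nat.mul_le_mul_right _ (by omega)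
      _ = slot K := by rw [slot]; ring
  unfold SReg
  simp only [Elt.row, orig, rows, zlen]
  generalize zones K = z at hs ⊢
  generalize 2 * NN K ^ 14 = q at h15 ⊢
  generalize slot K = w at h15 ⊢
  generalize G.length = g at hj ⊢
  constructor
  · calc q ≤ w * 1 := by omega
      _ ≤ w * ((g + 2) * s + j + 2) := Nat.mul_le_mul_left _ (by omega)
  · have h1 : (g + 2) * (s + 1) ≤ (g + 2) * z := Nat.mul_le_mul_left _ hs
    have h2 : (g + 2) * s + j + 2 + 1 ≤ (g + 2) * z + 2 := by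
      rw [Nat.mul_add] at h1
      omega
    calc w * ((g + 2) * s + j + 2) + q ≤ w * ((g + 2) * s + j + 2) + w := by omega
      _ = w * ((g + 2) * s + j + 2 + 1) := by ring
      _ ≤ w * ((g + 2) * z + 2) := Nat.mul_le_mul_left _ h2

/-- Coordinates of the dummies. -/
def coord : Elt → ℕ × ℕ
  | .dum a p => (a, p)
  | .rep _ _ _ => (0, 0)

open Classical in
theorem card_not_sreg (K : ℕ) (G : List (List Pnt)) [Fintype (EltT K G)] :
    (Finset.univ.filter fun w : EltT K G => ¬ SReg K G w.1).card ≤ 16 * NN K ^ 14 := by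
  obtain ⟨q, hq⟩ : ∃ q, q = 2 * NN K ^ 14 := ⟨_, rfl⟩
  obtain ⟨R, hR⟩ : ∃ R, R = rows K G.length := ⟨_, rfl⟩
  have h1 : (Finset.univ.filter fun w : EltT K G => ¬ SReg K G w.1).card ≤
      ((Finset.range q ∪ Finset.Ico (R - q) R) ×ˢ Finset.range 4).card := by
    apply Finset.card_le_card_of_injOn (fun w => coord w.1)
    · rintro ⟨w, hw⟩ h
      have h' : ¬ SReg K G w := (Finset.mem_filter.1 h).2
      cases w with
      | rep s j i => exact absurd (sreg_rep hw) h'
      | dum a p =>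
        obtain ⟨ha, hp⟩ := mem_dum.1 hw
        simp only [SReg, Elt.row, ← hq, ← hR] at h'
        simp only [coord, Finset.coe_product, Set.mem_prod, Finset.mem_coe, Finset.mem_union,
          Finset.mem_range, Finset.mem_Ico]
        rw [← hR] at ha
        omega
    · rintro ⟨w, hw⟩ h ⟨w', hw'⟩ h' e
      have h1 : ¬ SReg K G w := (Finset.mem_filter.1 h).2
      have h1' : ¬ SReg K G w' := (Finset.mem_filter.1 h').2
      cases w with
      | rep s j i => exact absurd (sreg_rep hw) h1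
      | dum a p =>
        cases w' with
        | rep s j i => exact absurd (sreg_rep hw') h1'
        | dum a' p' =>
          simp only [coord, Prod.mk.injEq] at e
          obtain ⟨rfl, rfl⟩ := e
          rfl
  have h2 : (Finset.range q ∪ Finset.Ico (R - q) R).card ≤ 2 * q := by
    refine (Finset.card_union_le _ _).trans ?_
    rw [Finset.card_range, Nat.card_Ico]
    omega
  rw [Finset.card_product, Finset.card_range] at h1
  calc _ ≤ _ := h1
    _ ≤ 2 * q * 4 := Nat.mul_le_mul_right _ h2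
    _ = 16 * NN K ^ 14 := by rw [hq]; ring

section

variable {K : ℕ} {G : List (List Pnt)}

theorem inner_lt {c : Fin (K + 2)} {x y : EltT K G} (h : InnerEdge (labT K G) (keyT K G) c x y) :
    keyT K G c x < keyT K G c y := by
  rcases h with h | ⟨m, -, -, -, h1, h2⟩
  · exact h.1
  · exact h1.1.trans h2.1

theorem inner_unique (hG : ∀ g ∈ G, GoodGroup K g) {c c' : Fin (K + 2)} {x y x' y' : EltT K G}
    (h : InnerEdge (labT K G) (keyT K G) c x y) (h' : InnerEdge (labT K G) (keyT K G) c' x' y')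
    (hx : Reg K G x.1) (e : (x = x' ∧ y = y') ∨ (x = y' ∧ y = x')) :
    c = c' ∧ x = x' ∧ y = y' := by
  rcases e with ⟨rfl, rfl⟩ | ⟨rfl, rfl⟩
  · exact ⟨pairD K G hG x y hx c c' (Or.inl h) (Or.inl h'), rfl, rfl⟩
  · have := pairD K G hG x y hx c c' (Or.inl h) (Or.inr h')
    subst this
    exact absurd (inner_lt h) (not_lt.2 (inner_lt h').le)

/-- The three edges of an element in a class. -/
def pr (c : Fin (K + 2)) (m u v : EltT K G) (t : Fin 3) :
    SVert (EltT K G) (K + 2) × SVert (EltT K G) (K + 2) :=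
  if t = 0 then (Sum.inl m, Sum.inl v)
  else if labT K G m = 2 then (Sum.inl m, Sum.inr (c, decide (t = 1)))
  else if t = 1 then (Sum.inl u, Sum.inl v)
  else (Sum.inl m, Sum.inr (c, decide (labT K G m = 0)))

theorem pr_cases (c : Fin (K + 2)) (m u v : EltT K G) (t : Fin 3) :
    (t = 0 ∧ pr c m u v t = (Sum.inl m, Sum.inl v)) ∨
    (t = 1 ∧ labT K G m ≠ 2 ∧ pr c m u v t = (Sum.inl u, Sum.inl v)) ∨
    (∃ β, pr c m u v t = (Sum.inl m, Sum.inr (c, β)) ∧
      ((t = 1 ∧ labT K G m = 2 ∧ β = true) ∨ (t = 2 ∧ labT K G m = 2 ∧ β = false) ∨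
        (t = 2 ∧ labT K G m ≠ 2 ∧ β = decide (labT K G m = 0)))) := by
  fin_cases t
  · left; exact ⟨rfl, rfl⟩
  · by_cases h : labT K G m = 2
    · right; right
      refine ⟨true, ?_, Or.inl ⟨rfl, h, rfl⟩⟩
      simp [pr, h]
    · right; left
      refine ⟨rfl, h, ?_⟩
      simp [pr, h]
  · right; right
    by_cases h : labT K G m = 2
    · refine ⟨false, ?_, Or.inr (Or.inl ⟨rfl, h, rfl⟩)⟩
      simp [pr, h]
    · refine ⟨decide (labT K G m = 0), ?_, Or.inr (Or.inr ⟨rfl, h, rfl⟩)⟩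
      simp [pr, h]

theorem lab_le_two (m : EltT K G) : labT K G m ≤ 2 := by
  obtain ⟨m, hm⟩ := m
  cases m with
  | dum a p => simp only [labT, Elt.lab]; omega
  | rep s j i => simp [labT, Elt.lab]

theorem pr_adj (c : Fin (K + 2)) (m u v : EltT K G) (t : Fin 3)
    (h1 : Cons (keyT K G) c u m) (h2 : Cons (keyT K G) c m v)
    (h3 : labT K G m ≠ 2 → labT K G m ≠ labT K G u ∧ labT K G m ≠ labT K G v) :
    (stripGraph (labT K G) (keyT K G)).Adj (pr c m u v t).1 (pr c m u v t).2 := by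
  rcases pr_cases c m u v t with ⟨-, h⟩ | ⟨-, hl, h⟩ | ⟨β, h, hβ⟩
  · rw [h]
    refine ⟨?_, Or.inl ⟨c, Or.inl h2⟩⟩
    intro e
    have := h2.1
    rw [Sum.inl.inj e] at this
    exact lt_irrefl _ this
  · rw [h]
    refine ⟨?_, Or.inl ⟨c, Or.inr ⟨m, hl, (h3 hl).1, (h3 hl).2, h1, h2⟩⟩⟩
    intro e
    have := h1.1.trans h2.1
    rw [Sum.inl.inj e] at this
    exact lt_irrefl _ this
  · rw [h]
    refine ⟨by simp, Or.inl ?_⟩
    have hle := lab_le_two m
    cases β
    · change labT K G m ≠ 0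
      rcases hβ with ⟨-, -, hβ⟩ | ⟨-, hβ, -⟩ | ⟨-, -, hβ⟩
      · simp at hβ
      · omega
      · simpa using hβ
    · change labT K G m ≠ 1
      rcases hβ with ⟨-, hβ, -⟩ | ⟨-, -, hβ⟩ | ⟨-, -, hβ⟩
      · omega
      · simp at hβ
      · have : labT K G m = 0 := by simpa using hβ
        omega

theorem pr_inj (hG : ∀ g ∈ G, GoodGroup K g) {c c' : Fin (K + 2)} {m m' u u' v v' : EltT K G}
    {t t' : Fin 3}
    (h1 : Cons (keyT K G) c u m) (h2 : Cons (keyT K G) c m v) (hu : Reg K G u.1)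
    (hm : Reg K G m.1)
    (h3 : labT K G m ≠ 2 → labT K G m ≠ labT K G u ∧ labT K G m ≠ labT K G v)
    (h1' : Cons (keyT K G) c' u' m') (h2' : Cons (keyT K G) c' m' v')
    (h3' : labT K G m' ≠ 2 → labT K G m' ≠ labT K G u' ∧ labT K G m' ≠ labT K G v')
    (e : pr c m u v t = pr c' m' u' v' t' ∨ pr c m u v t = (pr c' m' u' v' t').swap) :
    c = c' ∧ m = m' ∧ t = t' := by
  have hE : ∀ {a b : EltT K G}, a ≠ b ∨ True := fun {a b} => Or.inr trivial
  rcases pr_cases c m u v t with ⟨ht, h⟩ | ⟨ht, hl, h⟩ | ⟨β, h, hβ⟩ <;>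
  rcases pr_cases c' m' u' v' t' with ⟨ht', h'⟩ | ⟨ht', hl', h'⟩ | ⟨β', h', hβ'⟩
  · -- successor edges
    rw [h, h'] at e
    simp only [Prod.mk.injEq, Sum.inl.injEq, Prod.swap_prod_mk] at e
    obtain ⟨e1, e2, -⟩ := inner_unique hG (Or.inl h2) (Or.inl h2') hm e
    exact ⟨e1, e2, ht.trans ht'.symm⟩
  · rw [h, h'] at e
    simp only [Prod.mk.injEq, Sum.inl.injEq, Prod.swap_prod_mk] at e
    obtain ⟨rfl, rfl, rfl⟩ := inner_unique hG (Or.inl h2)
      (Or.inr ⟨m', hl', (h3' hl').1, (h3' hl').2, h1', h2'⟩) hm e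
    exact absurd ⟨h1'.1, h2'.1⟩ (h2.2 m')
  · rw [h, h'] at e
    simp at e
  · rw [h, h'] at e
    simp only [Prod.mk.injEq, Sum.inl.injEq, Prod.swap_prod_mk] at e
    obtain ⟨rfl, rfl, rfl⟩ := inner_unique hG
      (Or.inr ⟨m, hl, (h3 hl).1, (h3 hl).2, h1, h2⟩) (Or.inl h2') hu e
    exact absurd ⟨h1.1, h2.1⟩ (h2'.2 m)
  · rw [h, h'] at e
    simp only [Prod.mk.injEq, Sum.inl.injEq, Prod.swap_prod_mk] at e
    obtain ⟨rfl, rfl, rfl⟩ := inner_unique hG
      (Or.inr ⟨m, hl, (h3 hl).1, (h3 hl).2, h1, h2⟩)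
      (Or.inr ⟨m', hl', (h3' hl').1, (h3' hl').2, h1', h2'⟩) hu e
    refine ⟨rfl, ?_, ht.trans ht'.symm⟩
    rcases lt_trichotomy (keyT K G c m) (keyT K G c m') with h5 | h5 | h5
    · exact absurd ⟨h1.1, h5⟩ (h1'.2 m)
    · exact keyT_inj K G hG c h5
    · exact absurd ⟨h1'.1, h5⟩ (h1.2 m')
  · rw [h, h'] at e
    simp at e
  · rw [h, h'] at e
    simp at e
  · rw [h, h'] at e
    simp at e
  · rw [h, h'] at e
    simp only [Prod.mk.injEq, Sum.inl.injEq, Sum.inr.injEq, Prod.swap_prod_mk, reduceCtorEq,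
      false_and, or_false] at e
    obtain ⟨rfl, rfl, rfl⟩ := e
    refine ⟨rfl, rfl, ?_⟩
    rcases hβ with ⟨a1, a2, a3⟩ | ⟨a1, a2, a3⟩ | ⟨a1, a2, a3⟩ <;>
    rcases hβ' with ⟨b1, b2, b3⟩ | ⟨b1, b2, b3⟩ | ⟨b1, b2, b3⟩ <;>
    first
      | exact a1.trans b1.symm
      | exact absurd a2 b2
      | exact absurd b2 a2
      | (exfalso; rw [a3] at b3; simp at b3)

end

end EdgeCount

open EdgeCount in
open Classical in
theorem edge_count (K : ℕ) (G : List (List Pnt)) [Fintype (EltT K G)]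
    (hG : ∀ g ∈ G, GoodGroup K g) :
    6 * (K + 2) * Fintype.card (SVert (EltT K G) (K + 2)) ≤
      (Finset.univ.filter fun e : SVert (EltT K G) (K + 2) × SVert (EltT K G) (K + 2) =>
        (stripGraph (labT K G) (keyT K G)).Adj e.1 e.2).card + NN K ^ 16 := by
  have hex : ∀ (c : Fin (K + 2)) (m : {m : EltT K G // SReg K G m.1}),
      ∃ u v : EltT K G, Cons (keyT K G) c u m.1 ∧ Cons (keyT K G) c m.1 v ∧ Reg K G u.1 ∧
      (labT K G m.1 ≠ 2 → labT K G m.1 ≠ labT K G u ∧ labT K G m.1 ≠ labT K G v) :=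
    fun c m => exists_nbrs hG c m.1 m.2
  choose u v h1 h2 hu h3 using hex
  have hreg : ∀ m : {m : EltT K G // SReg K G m.1}, Reg K G m.1.1 := by
    intro m
    obtain ⟨a, b⟩ := m.2
    constructor <;> omega
  let F : Fin (K + 2) × {m : EltT K G // SReg K G m.1} × Fin 3 × Bool →
      SVert (EltT K G) (K + 2) × SVert (EltT K G) (K + 2) := fun τ =>
    if τ.2.2.2 then pr τ.1 τ.2.1.1 (u τ.1 τ.2.1) (v τ.1 τ.2.1) τ.2.2.1
    else (pr τ.1 τ.2.1.1 (u τ.1 τ.2.1) (v τ.1 τ.2.1) τ.2.2.1).swap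
  have hadj : ∀ τ, (stripGraph (labT K G) (keyT K G)).Adj (F τ).1 (F τ).2 := by
    rintro ⟨c, m, t, b⟩
    have := pr_adj c m.1 (u c m) (v c m) t (h1 c m) (h2 c m) (h3 c m)
    cases b
    · exact this.symm
    · exact this
  have hinj : Function.Injective F := by
    rintro ⟨c, m, t, b⟩ ⟨c', m', t', b'⟩ e
    have e' : pr c m.1 (u c m) (v c m) t = pr c' m'.1 (u c' m') (v c' m') t' ∨
        pr c m.1 (u c m) (v c m) t = (pr c' m'.1 (u c' m') (v c' m') t').swap := by
      cases b <;> cases b'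
      · left
        have := congrArg Prod.swap e
        simpa [F] using this
      · right
        have := congrArg Prod.swap e
        simpa [F] using this
      · right
        simpa [F] using e
      · left
        simpa [F] using e
    obtain ⟨rfl, hm, rfl⟩ := pr_inj hG (h1 c m) (h2 c m) (hu c m) (hreg m) (h3 c m)
      (h1 c' m') (h2 c' m') (h3 c' m') e'
    have hm' : m = m' := Subtype.ext hm
    subst hm'
    have hne := (pr_adj c m.1 (u c m) (v c m) t (h1 c m) (h2 c m) (h3 c m)).ne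
    cases b <;> cases b'
    · rfl
    · exfalso
      apply hne
      have : (pr c m.1 (u c m) (v c m) t).swap = pr c m.1 (u c m) (v c m) t := by
        simpa [F] using e
      exact congrArg Prod.snd this
    · exfalso
      apply hne
      have : pr c m.1 (u c m) (v c m) t = (pr c m.1 (u c m) (v c m) t).swap := by
        simpa [F] using e
      exact congrArg Prod.fst this
    · rfl
  have hcount : Fintype.card (Fin (K + 2) × {m : EltT K G // SReg K G m.1} × Fin 3 × Bool) ≤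
      (Finset.univ.filter fun e : SVert (EltT K G) (K + 2) × SVert (EltT K G) (K + 2) =>
        (stripGraph (labT K G) (keyT K G)).Adj e.1 e.2).card := by
    rw [← Finset.card_univ]
    apply Finset.card_le_card_of_injOn F
    · intro τ _
      simpa using hadj τ
    · exact hinj.injOn
  simp only [Fintype.card_prod, Fintype.card_fin, Fintype.card_bool] at hcount
  have hS : Fintype.card (EltT K G) =
      Fintype.card {m : EltT K G // SReg K G m.1} +
        (Finset.univ.filter fun w : EltT K G => ¬ SReg K G w.1).card := by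
    rw [Fintype.card_subtype (fun m : EltT K G => SReg K G m.1), ← Finset.card_univ]
    exact (Finset.card_filter_add_card_filter_not _).symm
  have hns := card_not_sreg K G
  have hcard : Fintype.card (SVert (EltT K G) (K + 2)) = Fintype.card (EltT K G) + (K + 2) * 2 := by
    simp [SVert]
  rw [hcard, hS]
  have hN := NN_ge K
  have hK : 96 * (K + 2) ≤ NN K := by unfold NN; omega
  generalize Fintype.card {m : EltT K G // SReg K G m.1} = S at hcount ⊢
  generalize (Finset.univ.filter fun w : EltT K G => ¬ SReg K G w.1).card = B at hns ⊢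
  have e1 : 6 * (K + 2) * (16 * NN K ^ 14) ≤ NN K ^ 15 := by
    calc 6 * (K + 2) * (16 * NN K ^ 14) = 96 * (K + 2) * NN K ^ 14 := by ring
      _ ≤ NN K * NN K ^ 14 := Nat.mul_le_mul_right _ hK
      _ = NN K ^ 15 := by ring
  have e2 : 6 * (K + 2) * ((K + 2) * 2) ≤ NN K ^ 15 := by
    calc 6 * (K + 2) * ((K + 2) * 2) ≤ NN K * NN K := Nat.mul_le_mul (by omega) (by omega)
      _ = NN K ^ 2 := by ring
      _ ≤ NN K ^ 15 := Nat.pow_le_pow_right (by omega) (by norm_num)
  have e3 : 2 * NN K ^ 15 ≤ NN K ^ 16 := by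
    calc 2 * NN K ^ 15 ≤ NN K * NN K ^ 15 := Nat.mul_le_mul_right _ (by omega)
      _ = NN K ^ 16 := by ring
  calc 6 * (K + 2) * (S + B + (K + 2) * 2)
      = (K + 2) * (S * (3 * 2)) + 6 * (K + 2) * B + 6 * (K + 2) * ((K + 2) * 2) := by ring
    _ ≤ (K + 2) * (S * (3 * 2)) + 6 * (K + 2) * (16 * NN K ^ 14) +
          6 * (K + 2) * ((K + 2) * 2) := by gcongr
    _ ≤ (K + 2) * (S * (3 * 2)) + NN K ^ 16 := by omega
    _ ≤ _ := Nat.add_le_add_right hcount _

end Pool.Agent.Lib.MP_612bca_lc
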