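import Pool.Agent.Lib.MP_612bca_lc.Defs
import Pool.Agent.Lib.MP_612bca_lc.AlgDefs

/-!
# The geometric half of the reduction: definitions
-/

namespace Pool.Agent.Lib.MP_612bca_lc

/-! ### Vectors -/

/-- Cross product of vectors of the plane. -/
def crs (a b : ℝ × ℝ) : ℝ := a.1 * b.2 - a.2 * b.1

/-- Orientation of a triple of points: positive iff `a, b, c` is counterclockwise. -/
def ori (a b c : ℝ × ℝ) : ℝ := crs (b - a) (c - a)

/-! ### Groups of points

Classes are numbered `0, …, K` (finite classes, direction `(1, V c)`) and `K + 1` (the class `∞`,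
direction `(0, 1)`). -/

/-- A point of a group: integer coordinates and the list of the classes in which it is the second
one of two points at the same level. -/
structure Pnt where
  X : ℕ
  Y : ℕ
  sec : List ℕ

/-- Level of a point in class `c`. -/
def Pnt.lev (K c : ℕ) (P : Pnt) : ℤ := if c = K + 1 then -(P.X : ℤ) else (P.Y : ℤ) - c * P.X

/-- `P` comes before `Q` in class `c`. -/
def Pnt.Before (K c : ℕ) (P Q : Pnt) : Prop :=
  P.lev K c < Q.lev K c ∨ (P.lev K c = Q.lev K c ∧ c ∉ P.sec ∧ c ∈ Q.sec)

/-- The group of four points attached to a constraint. -/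
def grpOf (K : ℕ) : TC → List Pnt
  | .add e f n =>
    -- constraint `V (e+n) + V f < V (f+n) + V e`
    if e < f then
      -- middle < outer: lo = e, m = e + n, m' = f, hi = f + n
      [⟨0, 0, [f + n]⟩, ⟨0, n, [K + 1, e]⟩, ⟨1, e + n, [e + n]⟩, ⟨1, f + n, [K + 1, f]⟩]
    else
      -- outer < middle: lo = f, m = f + n, m' = e, hi = e + n
      [⟨0, 0, [K + 1, f + n]⟩, ⟨0, n, [e]⟩, ⟨1, f + n, [K + 1, f]⟩, ⟨1, e + n, [e + n]⟩]
  | .mulL g => [⟨0, 0, [g, g + 2]⟩, ⟨1, g, [g + 2]⟩, ⟨2, 2 + 2 * g, [g + 1, K + 1]⟩,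
      ⟨2, 4 + 2 * g, [g + 4]⟩]
  | .mulG g => [⟨0, 0, [g + 1]⟩, ⟨1, g, [g, g + 4]⟩, ⟨2, 2 + 2 * g, [g + 2]⟩,
      ⟨2, 4 + 2 * g, [K + 1, g + 2]⟩]

/-- All groups: one forcing a half plane, `K + 1` forcing the order of the directions, and one for
each constraint. -/
def groups (K : ℕ) (cs : List TC) : List (List Pnt) :=
  [⟨1, 0, []⟩, ⟨0, 1, []⟩] ::
    ((List.range (K + 1)).map fun c => [⟨0, 0, []⟩, ⟨2, 2 * c + 1, []⟩]) ++ cs.map (grpOf K)

/-! ### Strip graphs -/

section strip

variable {ι : Type*} {k : ℕ}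

/-- `w'` is the immediate successor of `w` in class `c`. -/
def Cons (key : Fin k → ι → ℤ) (c : Fin k) (w w' : ι) : Prop :=
  key c w < key c w' ∧ ∀ z, ¬ (key c w < key c z ∧ key c z < key c w')

/-- Edges of class `c` between elements: consecutive elements, and the two neighbours of an element
whose label is not `2` and differs from the labels of the neighbours. -/
def InnerEdge (lab : ι → ℕ) (key : Fin k → ι → ℤ) (c : Fin k) (w w' : ι) : Prop :=
  Cons key c w w' ∨ ∃ m, lab m ≠ 2 ∧ lab m ≠ lab w ∧ lab m ≠ lab w' ∧ Cons key c w m ∧ Cons key c m w'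

/-- The vertices of a strip graph: the elements, and two hubs for each class. -/
abbrev SVert (ι : Type*) (k : ℕ) := ι ⊕ (Fin k × Bool)

/-- Edges of the strip graph (in one direction). Labels: 0 upper, 1 lower, 2 neutral. The hubs
`(c, true)` are adjacent to all elements which are not lower, the hubs `(c, false)` to all elements
which are not upper. -/
def StripE (lab : ι → ℕ) (key : Fin k → ι → ℤ) : SVert ι k → SVert ι k → Prop
  | .inl w, .inl w' => ∃ c, InnerEdge lab key c w w'
  | .inl w, .inr (_, true) => lab w ≠ 1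
  | .inl w, .inr (_, false) => lab w ≠ 0
  | _, _ => False

/-- The strip graph. -/
def stripGraph (lab : ι → ℕ) (key : Fin k → ι → ℤ) : SimpleGraph (SVert ι k) where
  Adj x y := x ≠ y ∧ (StripE lab key x y ∨ StripE lab key y x)
  symm := ⟨fun _ _ h => ⟨h.1.symm, h.2.symm⟩⟩
  loopless := ⟨fun _ h => h.1 rfl⟩

end strip

/-! ### The elements of the strip -/

/-- Base of the number scale. -/
def NN (K : ℕ) : ℕ := 100 * (K + 10)

/-- Slope of class `c`: `c` for the finite classes, `N^8` for the class `∞`. -/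
def slo (K c : ℕ) : ℤ := if c = K + 1 then (NN K : ℤ) ^ 8 else c

/-- The four columns. -/
def col (K p : ℕ) : ℤ :=
  match p with
  | 0 => (NN K : ℤ) ^ 2
  | 1 => -(NN K : ℤ) ^ 3
  | 2 => (NN K : ℤ) ^ 4
  | _ => -(NN K : ℤ) ^ 5

/-- Length of a slot. -/
def slot (K : ℕ) : ℕ := NN K ^ 15

/-- Number of zones (super-copies). -/
def zones (K : ℕ) : ℕ := NN K ^ 18

/-- Number of slots of a zone for `g` groups. -/
def zlen (g : ℕ) : ℕ := g + 2

/-- Number of rows. -/
def rows (K g : ℕ) : ℕ := slot K * (zlen g * zones K + 2)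

/-- Row of the origin of the group number `j` in zone `s`. -/
def orig (K g s j : ℕ) : ℕ := slot K * (zlen g * s + j + 2)

/-- Elements: dummies (row, column) and representatives (zone, group, number of the point). -/
inductive Elt
  | dum (a p : ℕ) : Elt
  | rep (s j i : ℕ) : Elt
  deriving DecidableEq

/-- The `i`-th point of the `j`-th group. -/
def pnt (G : List (List Pnt)) (j i : ℕ) : Pnt := (G.getD j []).getD i ⟨0, 0, []⟩

/-- Label: columns 0 and 2 are upper, columns 1 and 3 lower, representatives neutral. -/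
def Elt.lab : Elt → ℕ
  | .dum _ p => p % 2
  | .rep _ _ _ => 2

/-- Level of an element in class `c`. -/
def Elt.lev (K : ℕ) (G : List (List Pnt)) (c : ℕ) : Elt → ℤ
  | .dum a p => a - slo K c * col K p
  | .rep s j i => orig K G.length s j +
      (if c = K + 1 then -(slo K c * (pnt G j i).X) else ((pnt G j i).Y : ℤ) - c * (pnt G j i).X)

/-- Position inside a level. -/
def Elt.sub (G : List (List Pnt)) (c : ℕ) : Elt → ℤ
  | .dum _ p => p
  | .rep _ j i => if c ∈ (pnt G j i).sec then 5 else 4

/-- The key of an element in class `c`. -/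
def Elt.key (K : ℕ) (G : List (List Pnt)) (c : ℕ) (w : Elt) : ℤ := 8 * w.lev K G c + w.sub G c

/-- The elements of the strip. -/
def elts (K : ℕ) (G : List (List Pnt)) : List Elt :=
  ((List.range (rows K G.length)).flatMap fun a => (List.range 4).map fun p => Elt.dum a p) ++
  (List.range (zones K)).flatMap fun s => (G.zipIdx).flatMap fun q =>
    (List.range q.1.length).map fun i => Elt.rep s q.2 i

/-- The type of elements. -/
abbrev EltT (K : ℕ) (G : List (List Pnt)) := {w : Elt // w ∈ elts K G}

/-- Labels on the type of elements. -/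
def labT (K : ℕ) (G : List (List Pnt)) (w : EltT K G) : ℕ := w.1.lab

/-- Keys on the type of elements. -/
def keyT (K : ℕ) (G : List (List Pnt)) (c : Fin (K + 2)) (w : EltT K G) : ℤ := w.1.key K G c

/-- The graph attached to an instance. -/
def instGraph (K : ℕ) (cs : List TC) : SimpleGraph (SVert (EltT K (groups K cs)) (K + 2)) :=
  stripGraph (labT K (groups K cs)) (keyT K (groups K cs))

end Pool.Agent.Lib.MP_612bca_lc
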