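import Pool.Agent.Lib.CookLevin.Nat
import Pool.Agent.Lib.MP_612bca_lc.GeoDefs

/-!
# Encodings of the constraints and elements, and constructors in polynomial time

Natural numbers are in unary (`instEncNatUnary`).
-/

namespace Pool.Agent.Lib.MP_612bca_lc
open Pool.Agent.PolyTime

/-! ### `Con` -/

/-- Tagged tuple of a constraint. -/
def Con.code : Con → ℕ × (ℕ × (ℕ × ℕ))
  | .one i => (0, (i, (0, 0)))
  | .add i j l => (1, (i, (j, l)))
  | .mul i j l => (2, (i, (j, l)))

instance : Enc Con := ⟨fun c => enc c.code⟩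

theorem enc_con (c : Con) : enc c = enc c.code := rfl

/-! ### `QC` -/

/-- Tagged tuple of a constraint. -/
def QC.code : QC → ℕ × (List ℕ × List ℕ)
  | .lin I J => (0, (I, J))
  | .sqL w b => (1, ([w], [b]))
  | .sqG w b => (2, ([w], [b]))

instance : Enc QC := ⟨fun c => enc c.code⟩

theorem enc_qc (c : QC) : enc c = enc c.code := rfl

/-! ### `TC` -/

/-- Tagged tuple of a constraint. -/
def TC.code : TC → ℕ × (ℕ × (ℕ × ℕ))
  | .add e f n => (0, (e, (f, n)))
  | .mulL g => (1, (g, (0, 0)))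
  | .mulG g => (2, (g, (0, 0)))

instance : Enc TC := ⟨fun c => enc c.code⟩

theorem enc_tc (c : TC) : enc c = enc c.code := rfl

/-! ### `Pnt` -/

/-- The data of a point as a tuple. -/
def Pnt.code (P : Pnt) : ℕ × (ℕ × List ℕ) := (P.X, (P.Y, P.sec))

instance : Enc Pnt := ⟨fun c => enc c.code⟩

theorem enc_pnt (c : Pnt) : enc c = enc c.code := rfl

/-! ### `Elt` -/

/-- Tagged tuple of an element. -/
def Elt.code : Elt → Bool × (ℕ × (ℕ × ℕ))
  | .dum a p => (false, (a, (p, 0)))
  | .rep s j i => (true, (s, (j, i)))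

instance : Enc Elt := ⟨fun c => enc c.code⟩

theorem enc_elt (c : Elt) : enc c = enc c.code := rfl

instance : EncInj Elt := ⟨fun a b h => by
  have h1 : a.code = b.code := EncInj.inj h
  cases a <;> cases b <;> simp_all [Elt.code]⟩

/-! ### Constructors and case distinctions in polynomial time -/

section
variable {α β : Type} [Enc α] [Enc β]

theorem ptime_con_one {f : α → ℕ} (hf : PTime f) : PTime (fun a => Con.one (f a)) :=
  ((PTime.const 0).pair (hf.pair (PTime.const (0, 0)))).of_enc_eq (fun x => x) (fun _ => rfl)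
    (fun _ => rfl)

theorem ptime_con_add {f g h : α → ℕ} (hf : PTime f) (hg : PTime g) (hh : PTime h) :
    PTime (fun a => Con.add (f a) (g a) (h a)) :=
  ((PTime.const 1).pair (hf.pair (hg.pair hh))).of_enc_eq (fun x => x) (fun _ => rfl)
    (fun _ => rfl)

theorem ptime_con_mul {f g h : α → ℕ} (hf : PTime f) (hg : PTime g) (hh : PTime h) :
    PTime (fun a => Con.mul (f a) (g a) (h a)) :=
  ((PTime.const 2).pair (hf.pair (hg.pair hh))).of_enc_eq (fun x => x) (fun _ => rfl)
    (fun _ => rfl)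

theorem ptime_con_code {f : α → Con} (hf : PTime f) : PTime (fun a => (f a).code) :=
  hf.of_enc_eq (fun x => x) (fun _ => rfl) (fun _ => rfl)

theorem ptime_qc_lin {f g : α → List ℕ} (hf : PTime f) (hg : PTime g) :
    PTime (fun a => QC.lin (f a) (g a)) :=
  ((PTime.const 0).pair (hf.pair hg)).of_enc_eq (fun x => x) (fun _ => rfl) (fun _ => rfl)

theorem ptime_qc_sqL {f g : α → ℕ} (hf : PTime f) (hg : PTime g) :
    PTime (fun a => QC.sqL (f a) (g a)) :=
  ((PTime.const 1).pair ((hf.cons (PTime.const [])).pair (hg.cons (PTime.const [])))).of_enc_eq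
    (fun x => x) (fun _ => rfl) (fun _ => rfl)

theorem ptime_qc_sqG {f g : α → ℕ} (hf : PTime f) (hg : PTime g) :
    PTime (fun a => QC.sqG (f a) (g a)) :=
  ((PTime.const 2).pair ((hf.cons (PTime.const [])).pair (hg.cons (PTime.const [])))).of_enc_eq
    (fun x => x) (fun _ => rfl) (fun _ => rfl)

theorem ptime_qc_code {f : α → QC} (hf : PTime f) : PTime (fun a => (f a).code) :=
  hf.of_enc_eq (fun x => x) (fun _ => rfl) (fun _ => rfl)

theorem ptime_tc_add {f g h : α → ℕ} (hf : PTime f) (hg : PTime g) (hh : PTime h) :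
    PTime (fun a => TC.add (f a) (g a) (h a)) :=
  ((PTime.const 0).pair (hf.pair (hg.pair hh))).of_enc_eq (fun x => x) (fun _ => rfl)
    (fun _ => rfl)

theorem ptime_tc_mulL {f : α → ℕ} (hf : PTime f) : PTime (fun a => TC.mulL (f a)) :=
  ((PTime.const 1).pair (hf.pair (PTime.const (0, 0)))).of_enc_eq (fun x => x) (fun _ => rfl)
    (fun _ => rfl)

theorem ptime_tc_mulG {f : α → ℕ} (hf : PTime f) : PTime (fun a => TC.mulG (f a)) :=
  ((PTime.const 2).pair (hf.pair (PTime.const (0, 0)))).of_enc_eq (fun x => x) (fun _ => rfl)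
    (fun _ => rfl)

theorem ptime_tc_code {f : α → TC} (hf : PTime f) : PTime (fun a => (f a).code) :=
  hf.of_enc_eq (fun x => x) (fun _ => rfl) (fun _ => rfl)

theorem ptime_pnt {f g : α → ℕ} {h : α → List ℕ} (hf : PTime f) (hg : PTime g) (hh : PTime h) :
    PTime (fun a => (⟨f a, g a, h a⟩ : Pnt)) :=
  (hf.pair (hg.pair hh)).of_enc_eq (fun x => x) (fun _ => rfl) (fun _ => rfl)

theorem ptime_pnt_code {f : α → Pnt} (hf : PTime f) : PTime (fun a => (f a).code) :=
  hf.of_enc_eq (fun x => x) (fun _ => rfl) (fun _ => rfl)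

theorem ptime_pnt_X {f : α → Pnt} (hf : PTime f) : PTime (fun a => (f a).X) :=
  PTime.fst.comp (ptime_pnt_code hf)

theorem ptime_pnt_Y {f : α → Pnt} (hf : PTime f) : PTime (fun a => (f a).Y) :=
  PTime.fst.comp (PTime.snd.comp (ptime_pnt_code hf))

theorem ptime_pnt_sec {f : α → Pnt} (hf : PTime f) : PTime (fun a => (f a).sec) :=
  PTime.snd.comp (PTime.snd.comp (ptime_pnt_code hf))

theorem ptime_dum {f g : α → ℕ} (hf : PTime f) (hg : PTime g) :
    PTime (fun a => Elt.dum (f a) (g a)) :=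
  ((PTime.const false).pair (hf.pair (hg.pair (PTime.const 0)))).of_enc_eq (fun x => x)
    (fun _ => rfl) (fun _ => rfl)

theorem ptime_rep {f g h : α → ℕ} (hf : PTime f) (hg : PTime g) (hh : PTime h) :
    PTime (fun a => Elt.rep (f a) (g a) (h a)) :=
  ((PTime.const true).pair (hf.pair (hg.pair hh))).of_enc_eq (fun x => x)
    (fun _ => rfl) (fun _ => rfl)

theorem ptime_elt_code {f : α → Elt} (hf : PTime f) : PTime (fun a => (f a).code) :=
  hf.of_enc_eq (fun x => x) (fun _ => rfl) (fun _ => rfl)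

end

end Pool.Agent.Lib.MP_612bca_lc
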