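import Pool.Agent.Lib.MP_612bca_lc.Zone

/-!
# The soundness proof: links of the dummies of a good zone
-/

namespace Pool.Agent.Lib.MP_612bca_lc

attribute [local irreducible] NN zones slot slo MP_612bca_lc.col

/-- The situation of the soundness proof: a drawing of the strip graph with a colouring, and a zone
in which all elements are good and no hub is the middle vertex of an empty triangle. -/
structure Env (K : ℕ) (G : List (List Pnt)) where
  hG : ∀ g ∈ G, GoodGroup K g
  pt : SVert (EltT K G) (K + 2) → ℝ × ℝ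
  cl : Sym2 (SVert (EltT K G) (K + 2)) → ℕ
  hD : ColDrawing (stripGraph (labT K G) (keyT K G)) (K + 2) pt cl
  s : ℕ
  hs : s < zones K
  good : ∀ w : EltT K G, InZone K G s w.1 →
    Good (stripGraph (labT K G) (keyT K G)) (K + 2) pt cl (.inl w)
  side : ∀ κ < K + 2, ∀ (h : Fin (K + 2) × Bool) (x y : EltT K G), InZone K G s x.1 →
    InZone K G s y.1 →
    Tri pt (ColAdj (stripGraph (labT K G) (keyT K G)) cl κ) (.inr h) (.inl x) (.inl y) →
    0 < ((pt (.inl x)).1 - (pt (.inr h)).1) * ((pt (.inl y)).1 - (pt (.inr h)).1)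

variable {K : ℕ} {G : List (List Pnt)}

/-- The strip graph. -/
abbrev Gam (K : ℕ) (G : List (List Pnt)) : SimpleGraph (SVert (EltT K G) (K + 2)) :=
  stripGraph (labT K G) (keyT K G)

/-- Signed empty triangles of colour `κ`. -/
def Env.T (E : Env K G) (s : Bool) (κ : ℕ) (x y z : SVert (EltT K G) (K + 2)) : Prop :=
  STri E.pt (ColAdj (Gam K G) E.cl κ) s x y z

/-- Immediate succession in class `c`. -/
abbrev Nx (c : Fin (K + 2)) (w w' : EltT K G) : Prop := Cons (keyT K G) c w w'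

theorem adj_inl {w l : EltT K G} : (Gam K G).Adj (.inl w) (.inl l) ↔ ∃ c, Nbr K G c w l := by
  show _ ≠ _ ∧ (_ ∨ _) ↔ _
  constructor
  · rintro ⟨_, ⟨c, h⟩ | ⟨c, h⟩⟩
    · exact ⟨c, Or.inl h⟩
    · exact ⟨c, Or.inr h⟩
  · rintro ⟨c, h⟩
    refine ⟨?_, ?_⟩
    · intro he
      have he' : w = l := Sum.inl_injective he
      subst he'
      rcases h with (h | ⟨m, _, _, _, h1, h2⟩) | (h | ⟨m, _, _, _, h1, h2⟩)
      · exact lt_irrefl _ h.1
      · exact lt_irrefl _ (h1.1.trans h2.1)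
      · exact lt_irrefl _ h.1
      · exact lt_irrefl _ (h1.1.trans h2.1)
    · rcases h with h | h
      · exact Or.inl ⟨c, h⟩
      · exact Or.inr ⟨c, h⟩

theorem adj_hub {w : EltT K G} {c : Fin (K + 2)} {b : Bool} :
    (Gam K G).Adj (.inl w) (.inr (c, b)) ↔ labT K G w ≠ (if b then 1 else 0) := by
  show _ ≠ _ ∧ (_ ∨ _) ↔ _
  cases b
  · simp [StripE]
  · simp [StripE]

theorem not_adj_hubs {x y : Fin (K + 2) × Bool} : ¬ (Gam K G).Adj (.inr x) (.inr y) := by
  rintro ⟨_, h | h⟩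
  · rcases x with ⟨_, _⟩; rcases y with ⟨_, _⟩; simp [StripE] at h
  · rcases x with ⟨_, _⟩; rcases y with ⟨_, _⟩; simp [StripE] at h

/-! ### Keys -/

theorem key_dum (c : Fin (K + 2)) (w : EltT K G) (h : labT K G w ≠ 2) :
    ∃ a p : ℕ, w.1 = .dum a p ∧ p < 4 ∧ keyT K G c w = 8 * w.1.lev K G c + p ∧
      labT K G w = p % 2 := by
  rcases hw : w.1 with ⟨a, p⟩ | ⟨s, j, i⟩
  · have hp : p < 4 := by
      have := w.2
      rw [hw, dum_mem] at this
      exact this.2
    refine ⟨a, p, rfl, hp, ?_, ?_⟩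
    · unfold keyT Elt.key
      rw [hw]
      rfl
    · unfold labT
      rw [hw]
      rfl
  · exfalso
    apply h
    unfold labT
    rw [hw]
    rfl

theorem key_rep (c : Fin (K + 2)) (w : EltT K G) (h : labT K G w = 2) :
    keyT K G c w = 8 * w.1.lev K G c + 4 ∨ keyT K G c w = 8 * w.1.lev K G c + 5 := by
  rcases hw : w.1 with ⟨a, p⟩ | ⟨s, j, i⟩
  · exfalso
    unfold labT at h
    rw [hw] at h
    simp only [Elt.lab] at h
    omega
  · unfold keyT Elt.key
    rw [hw]
    simp only [Elt.sub]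
    split_ifs
    · exact Or.inr rfl
    · exact Or.inl rfl

variable (E : Env K G)
include E

theorem Env.kinj (c : Fin (K + 2)) : Function.Injective (keyT K G c) := keyT_inj K G E.hG c

theorem Env.nx_dd (c : Fin (K + 2)) {v : ℤ} (hv : RegLev K G v) {p : ℕ} (hp : p < 3) :
    Nx c (DD K G c v p) (DD K G c v (p + 1)) :=
  cons_dum K G c v hv p hp _ _ (DD_val c hv (by omega)) (DD_val c hv (by omega))

/-- Classification of the elements around the gap after level `v`. -/
theorem Env.gap_cases (c : Fin (K + 2)) {v : ℤ} (hv : RegLev K G v) (hv' : RegLev K G (v + 1))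
    (w : EltT K G) (h1 : 8 * v + 3 < keyT K G c w) (h2 : keyT K G c w ≤ 8 * (v + 1)) :
    w = DD K G c (v + 1) 0 ∨ (labT K G w = 2 ∧ w.1.lev K G c = v) := by
  by_cases hl : labT K G w = 2
  · rcases key_rep c w hl with h | h
    · right; exact ⟨hl, by omega⟩
    · right; exact ⟨hl, by omega⟩
  · obtain ⟨a, p, _, hp, h, _⟩ := key_dum c w hl
    left
    apply E.kinj c
    rw [DD_key c hv' (by omega)]
    omega

theorem Env.gap_cases' (c : Fin (K + 2)) {v : ℤ} (hv : RegLev K G v)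
    (w : EltT K G) (h1 : 8 * v + 3 ≤ keyT K G c w) (h2 : keyT K G c w < 8 * (v + 1)) :
    w = DD K G c v 3 ∨ (labT K G w = 2 ∧ w.1.lev K G c = v) := by
  by_cases hl : labT K G w = 2
  · rcases key_rep c w hl with h | h
    · right; exact ⟨hl, by omega⟩
    · right; exact ⟨hl, by omega⟩
  · obtain ⟨a, p, _, hp, h, _⟩ := key_dum c w hl
    left
    apply E.kinj c
    rw [DD_key c hv (by omega)]
    omega

theorem Env.succ3 (c : Fin (K + 2)) {v : ℤ} (hv : RegLev K G v) (hv' : RegLev K G (v + 1)) :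
    ∃ su, Nx c (DD K G c v 3) su ∧
      (su = DD K G c (v + 1) 0 ∨ (labT K G su = 2 ∧ su.1.lev K G c = v)) := by
  have k1 := DD_key (K := K) (G := G) c hv (show 3 < 4 by omega)
  have k2 := DD_key (K := K) (G := G) c hv' (show 0 < 4 by omega)
  obtain ⟨su, h1, h2⟩ := exists_succ (key := keyT K G) (c := c) (w := DD K G c v 3)
    (z := DD K G c (v + 1) 0) (by rw [k1, k2]; push_cast; omega)
  refine ⟨su, h1, ?_⟩
  have h3 := h1.1
  rw [k1] at h3
  rw [k2] at h2
  push_cast at h2 h3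
  exact E.gap_cases c hv hv' su (by omega) (by omega)

theorem Env.pred0 (c : Fin (K + 2)) {v : ℤ} (hv : RegLev K G v) (hv' : RegLev K G (v + 1)) :
    ∃ pr, Nx c pr (DD K G c (v + 1) 0) ∧
      (pr = DD K G c v 3 ∨ (labT K G pr = 2 ∧ pr.1.lev K G c = v)) := by
  have k1 := DD_key (K := K) (G := G) c hv (show 3 < 4 by omega)
  have k2 := DD_key (K := K) (G := G) c hv' (show 0 < 4 by omega)
  obtain ⟨pr, h1, h2⟩ := exists_pred (key := keyT K G) (c := c) (w := DD K G c (v + 1) 0)
    (z := DD K G c v 3) (by rw [k1, k2]; push_cast; omega)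
  refine ⟨pr, h1, ?_⟩
  have h3 := h1.1
  rw [k2] at h3
  rw [k1] at h2
  push_cast at h2 h3
  exact E.gap_cases' c hv pr (by omega) (by omega)

/-- Successor of a dummy: it exists and has another label. -/
theorem Env.succ_dd (c : Fin (K + 2)) {v : ℤ} (hv : RegLev K G v) (hv' : RegLev K G (v + 1))
    {p : ℕ} (hp : p < 4) : ∃ su, Nx c (DD K G c v p) su ∧ labT K G su ≠ p % 2 ∧
      (labT K G su ≠ 2 → su = if p < 3 then DD K G c v (p + 1) else DD K G c (v + 1) 0) := by
  by_cases h3 : p < 3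
  · refine ⟨_, E.nx_dd c hv h3, ?_, fun _ => by rw [if_pos h3]⟩
    rw [DD_lab c hv (by omega)]
    omega
  · have : p = 3 := by omega
    subst this
    obtain ⟨su, h1, h2⟩ := E.succ3 c hv hv'
    refine ⟨su, h1, ?_, ?_⟩
    · rcases h2 with rfl | ⟨h2, _⟩
      · rw [DD_lab c hv' (by omega)]; omega
      · rw [h2]; omega
    · intro h4
      rcases h2 with rfl | ⟨h2, _⟩
      · simp
      · exact absurd h2 h4

theorem Env.pred_dd (c : Fin (K + 2)) {v : ℤ} (hv : RegLev K G v) (hv' : RegLev K G (v - 1))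
    {p : ℕ} (hp : p < 4) : ∃ pr, Nx c pr (DD K G c v p) ∧ labT K G pr ≠ p % 2 ∧
      (labT K G pr ≠ 2 → pr = if 0 < p then DD K G c v (p - 1) else DD K G c (v - 1) 3) := by
  by_cases h3 : 0 < p
  · have h4 := E.nx_dd c hv (show p - 1 < 3 by omega)
    rw [show p - 1 + 1 = p by omega] at h4
    refine ⟨_, h4, ?_, fun _ => by rw [if_pos h3]⟩
    rw [DD_lab c hv (by omega)]
    omega
  · have : p = 0 := by omega
    subst this
    have hv1 : RegLev K G (v - 1 + 1) := by rwa [sub_add_cancel]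
    obtain ⟨pr, h1, h2⟩ := E.pred0 c hv' hv1
    rw [sub_add_cancel] at h1
    refine ⟨pr, h1, ?_, ?_⟩
    · rcases h2 with rfl | ⟨h2, _⟩
      · rw [DD_lab c hv' (by omega)]; omega
      · rw [h2]; omega
    · intro h4
      rcases h2 with rfl | ⟨h2, _⟩
      · simp
      · exact absurd h2 h4

end Pool.Agent.Lib.MP_612bca_lc
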