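import Pool.Agent.Lib.MP_612bca_lc.TriLocal

/-!
# Counting the directed edges of a plane straight-line graph without an empty triangle on the left
-/

namespace Pool.Agent.Lib.MP_612bca_lc

namespace PlaneCount

section

variable {V : Type*} {p : V → ℝ × ℝ} {A : V → V → Prop}

/-- Slope of the line through two vertices. -/
noncomputable def sl (p : V → ℝ × ℝ) (v w : V) : ℝ := ((p w).2 - (p v).2) / ((p w).1 - (p v).1)

/-- Height of the line through `v, w` at abscissa `t`. -/
noncomputable def ht (p : V → ℝ × ℝ) (v w : V) (t : ℝ) : ℝ := (p v).2 + sl p v w * (t - (p v).1)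

/-- Right-going edges. -/
def RE (p : V → ℝ × ℝ) (A : V → V → Prop) (v w : V) : Prop := A v w ∧ (p v).1 < (p w).1

theorem ht_left (v w : V) : ht p v w (p v).1 = (p v).2 := by simp [ht]

theorem ht_right {v w : V} (h : (p v).1 ≠ (p w).1) : ht p v w (p w).1 = (p w).2 := by
  have : (p w).1 - (p v).1 ≠ 0 := sub_ne_zero.mpr h.symm
  simp only [ht, sl]; field_simp; ring

theorem ht_symm {v w : V} (h : (p v).1 ≠ (p w).1) (t : ℝ) : ht p v w t = ht p w v t := by
  have h1 : (p w).1 - (p v).1 ≠ 0 := sub_ne_zero.mpr h.symm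
  have h2 : (p v).1 - (p w).1 ≠ 0 := sub_ne_zero.mpr h
  simp only [ht, sl]; field_simp; ring

theorem mem_seg {v w : V} (h : (p v).1 < (p w).1) {t : ℝ} (h1 : (p v).1 ≤ t) (h2 : t ≤ (p w).1) :
    (t, ht p v w t) ∈ segment ℝ (p v) (p w) := by
  have h0 : 0 < (p w).1 - (p v).1 := sub_pos.mpr h
  rw [segment_eq_image']
  refine ⟨(t - (p v).1) / ((p w).1 - (p v).1), ⟨by apply div_nonneg <;> linarith, ?_⟩, ?_⟩
  · rw [div_le_one h0]; linarith
  · apply Prod.ext
    · simp only [Prod.fst_add, Prod.smul_fst, smul_eq_mul, Prod.fst_sub]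
      field_simp; ring
    · simp only [Prod.snd_add, Prod.smul_snd, smul_eq_mul, Prod.snd_sub, ht, sl]
      field_simp

/-- A common point of two different edges (as abscissa and height). -/
theorem common_pt (hp : Plane p A) {a b c d : V} (h : RE p A a b) (h' : RE p A c d)
    (hne : ¬ (a = c ∧ b = d)) {t : ℝ} (h1 : (p a).1 ≤ t) (h2 : t ≤ (p b).1) (h3 : (p c).1 ≤ t)
    (h4 : t ≤ (p d).1) (he : ht p a b t = ht p c d t) :
    ((p a).1 = t ∨ (p b).1 = t) ∧ ((p c).1 = t ∨ (p d).1 = t) := by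
  have hs : s(a, b) ≠ s(c, d) := by
    intro hs
    rw [Sym2.eq_iff] at hs
    rcases hs with hs | ⟨rfl, rfl⟩
    · exact hne hs
    · exact absurd h.2 (not_lt.mpr h'.2.le)
  have := hp.nocross a b c d h.1 h'.1 hs
  unfold EdgesCross at this
  push Not at this
  have h5 := this (t, ht p a b t) (mem_seg h.2 h1 h2) (by rw [he]; exact mem_seg h'.2 h3 h4)
  obtain ⟨h6, h7⟩ := h5
  constructor
  · rcases h6 with h6 | h6
    · left; exact (congrArg Prod.fst h6).symm
    · right; exact (congrArg Prod.fst h6).symm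
  · rcases h7 with h7 | h7
    · left; exact (congrArg Prod.fst h7).symm
    · right; exact (congrArg Prod.fst h7).symm

theorem eq_edge (hp : Plane p A) {a b c d : V} (h : RE p A a b) (h' : RE p A c d)
    {t : ℝ} (h1 : (p a).1 < t) (h2 : t < (p b).1) (h3 : (p c).1 ≤ t)
    (h4 : t ≤ (p d).1) (he : ht p a b t = ht p c d t) : a = c ∧ b = d := by
  by_contra hne
  rcases (common_pt hp h h' hne h1.le h2.le h3 h4 he).1 with h | h
  · linarith
  · linarith

theorem ht_aff (a b : V) (s t r : ℝ) :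
    ht p a b (s + r * (t - s)) = ht p a b s + r * (ht p a b t - ht p a b s) := by
  simp only [ht]; ring

/-- Two different edges do not cross over an interval. -/
theorem nc (hp : Plane p A) {a b c d : V} (h : RE p A a b) (h' : RE p A c d)
    (hne : ¬ (a = c ∧ b = d)) {s t : ℝ} (hst : s < t) (h1 : (p a).1 ≤ s) (h2 : (p c).1 ≤ s)
    (h3 : t ≤ (p b).1) (h4 : t ≤ (p d).1) (hs : ht p a b s < ht p c d s) :
    ht p a b t ≤ ht p c d t := by
  by_contra hlt
  push Not at hlt
  set f1 := ht p c d s - ht p a b s with e1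
  set f2 := ht p a b t - ht p c d t with e2
  have g1 : 0 < f1 := by rw [e1]; linarith
  have g2 : 0 < f2 := by rw [e2]; linarith
  have g3 : 0 < f1 + f2 := by linarith
  set r := f1 / (f1 + f2) with er
  have r0 : 0 < r := by positivity
  have r1 : r < 1 := by rw [er, div_lt_one g3]; linarith
  have hr : r * (f1 + f2) = f1 := by rw [er]; field_simp
  have hs1 : s < s + r * (t - s) := by nlinarith
  have hs2 : s + r * (t - s) < t := by nlinarith
  have he : ht p a b (s + r * (t - s)) = ht p c d (s + r * (t - s)) := by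
    rw [ht_aff, ht_aff]
    have : r * (ht p a b t - ht p a b s) - r * (ht p c d t - ht p c d s) = r * (f1 + f2) := by
      rw [e1, e2]; ring
    rw [hr] at this
    linarith
  exact hne (eq_edge hp h h' (by linarith) (by linarith) (by linarith) (by linarith) he)

theorem sl_inj (hp : Plane p A) {v w w' : V} (h : RE p A v w) (h' : RE p A v w')
    (he : sl p v w = sl p v w') : w = w' := by
  obtain ⟨t, ht1, ht2⟩ := exists_between (lt_min h.2 h'.2)
  have := eq_edge hp h h' (t := t) ht1 (lt_of_lt_of_le ht2 (min_le_left _ _)) ht1.le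
    (lt_of_lt_of_le ht2 (min_le_right _ _)).le (by simp only [ht, he])
  exact this.2

/-- `w1, w2` span a right wedge at `v`: consecutive right-going edges, `w1` is the lower one. -/
def Wd (p : V → ℝ × ℝ) (A : V → V → Prop) (v w1 w2 : V) : Prop :=
  RE p A v w1 ∧ RE p A v w2 ∧ sl p v w1 < sl p v w2 ∧
    ∀ w, RE p A v w → ¬ (sl p v w1 < sl p v w ∧ sl p v w < sl p v w2)

/-- `m` is the leftmost non-isolated vertex of the wedge, except for `v`. -/
def Mid (p : V → ℝ × ℝ) (A : V → V → Prop) (v w1 w2 m : V) : Prop :=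
  (∃ u, A m u) ∧ (p v).1 < (p m).1 ∧ (p m).1 ≤ (p w1).1 ∧ (p m).1 ≤ (p w2).1 ∧
    ht p v w1 (p m).1 ≤ (p m).2 ∧ (p m).2 ≤ ht p v w2 (p m).1 ∧
    ∀ u, (∃ u', A u u') → (p v).1 < (p u).1 → (p u).1 < (p m).1 →
      ¬ (ht p v w1 (p u).1 ≤ (p u).2 ∧ (p u).2 ≤ ht p v w2 (p u).1)

theorem ht_lt_iff {v w w' : V} {t : ℝ} (h : (p v).1 < t) :
    ht p v w t < ht p v w' t ↔ sl p v w < sl p v w' := by
  have h0 : 0 < t - (p v).1 := sub_pos.mpr h
  simp only [ht, add_lt_add_iff_left]
  exact mul_lt_mul_iff_left₀ h0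

theorem noedge (hp : Plane p A) {v w1 w2 m z z' : V} (h : Wd p A v w1 w2) (hm : Mid p A v w1 w2 m)
    (hz : RE p A z z') (h1 : (p z).1 < (p m).1) (h2 : (p m).1 ≤ (p z').1) :
    ¬ (ht p v w1 (p m).1 < ht p z z' (p m).1 ∧ ht p z z' (p m).1 < ht p v w2 (p m).1) := by
  rintro ⟨h3, h4⟩
  obtain ⟨r1, r2, hsl, hcons⟩ := h
  obtain ⟨-, m1, m2, m3, m4, m5, m6⟩ := hm
  have ne1 : ¬ (z = v ∧ z' = w1) := by rintro ⟨rfl, rfl⟩; exact lt_irrefl _ h3
  have ne2 : ¬ (z = v ∧ z' = w2) := by rintro ⟨rfl, rfl⟩; exact lt_irrefl _ h4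
  have ne1' : ¬ (v = z ∧ w1 = z') := fun h => ne1 ⟨h.1.symm, h.2.symm⟩
  have ne2' : ¬ (v = z ∧ w2 = z') := fun h => ne2 ⟨h.1.symm, h.2.symm⟩
  rcases lt_trichotomy (p z).1 (p v).1 with hlt | heq | hgt
  · -- the edge starts before `v`
    rcases lt_trichotomy (ht p z z' (p v).1) (p v).2 with k | k | k
    · have := nc hp hz r1 ne1 m1 hlt.le le_rfl h2 m2 (by rw [ht_left]; exact k)
      linarith
    · have hmem := mem_seg hz.2 hlt.le (by linarith : (p v).1 ≤ (p z').1)
      rw [k] at hmem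
      have : ((p v).1, (p v).2) = p v := rfl
      rw [this] at hmem
      rcases hp.avoid _ _ _ hz.1 hmem with rfl | rfl
      · exact lt_irrefl _ hlt
      · linarith
    · have := nc hp r2 hz ne2' m1 le_rfl hlt.le m3 h2 (by rw [ht_left]; exact k)
      linarith
  · have hzv : z = v := hp.xinj _ _ heq
    subst hzv
    exact hcons z' hz ⟨(ht_lt_iff m1).mp h3, (ht_lt_iff m1).mp h4⟩
  · have := m6 z ⟨z', hz.1⟩ hgt h1
    rw [not_and_or, not_le, not_le] at this
    rcases this with k | k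
    · have := nc hp hz r1 ne1 h1 le_rfl hgt.le h2 m2 (by rw [ht_left]; exact k)
      linarith
    · have := nc hp r2 hz ne2' h1 hgt.le le_rfl m3 h2 (by rw [ht_left]; exact k)
      linarith

theorem exists_wd [Finite V] {v w2 w : V} (h2 : RE p A v w2) (h : RE p A v w)
    (hlt : sl p v w < sl p v w2) : ∃ w1, Wd p A v w1 w2 := by
  classical
  have hfin : {w | RE p A v w ∧ sl p v w < sl p v w2}.Finite := Set.toFinite _
  obtain ⟨w1, hw1, hmax⟩ := hfin.exists_maximalFor (sl p v) _ ⟨w, h, hlt⟩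
  refine ⟨w1, hw1.1, h2, hw1.2, ?_⟩
  rintro u hu ⟨k1, k2⟩
  have := hmax ⟨hu, k2⟩ k1.le
  linarith

theorem exists_mid [Finite V] (hp : Plane p A) {v w1 w2 : V} (h : Wd p A v w1 w2) :
    ∃ m, Mid p A v w1 w2 m := by
  classical
  obtain ⟨r1, r2, hsl, hcons⟩ := h
  set S : Set V := {u | (∃ u', A u u') ∧ (p v).1 < (p u).1 ∧ (p u).1 ≤ (p w1).1 ∧
    (p u).1 ≤ (p w2).1 ∧ ht p v w1 (p u).1 ≤ (p u).2 ∧ (p u).2 ≤ ht p v w2 (p u).1} with hS
  have hne : S.Nonempty := by
    rcases le_total (p w1).1 (p w2).1 with k | k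
    · refine ⟨w1, ⟨v, hp.symm _ _ r1.1⟩, r1.2, le_rfl, k, ?_, ?_⟩
      · rw [ht_right r1.2.ne]
      · rw [← ht_right (p := p) (v := v) (w := w1) r1.2.ne]
        exact ((ht_lt_iff r1.2).mpr hsl).le
    · refine ⟨w2, ⟨v, hp.symm _ _ r2.1⟩, r2.2, k, le_rfl, ?_, ?_⟩
      · rw [← ht_right (p := p) (v := v) (w := w2) r2.2.ne]
        exact ((ht_lt_iff r2.2).mpr hsl).le
      · rw [ht_right r2.2.ne]
  obtain ⟨m, hmS, hmin⟩ := (Set.toFinite S).exists_minimalFor (fun u => (p u).1) _ hne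
  obtain ⟨k1, k2, k3, k4, k5, k6⟩ := hmS
  refine ⟨m, k1, k2, k3, k4, k5, k6, ?_⟩
  rintro u hu hu1 hu2 ⟨hu3, hu4⟩
  have := hmin (j := u) ⟨hu, hu1, by linarith, by linarith, hu3, hu4⟩ hu2.le
  simp only at this
  linarith

/-- A vertex inside the wedge which is not an end of the two edges. -/
theorem inside (hp : Plane p A) {v w1 w2 m : V} (h : Wd p A v w1 w2) (hm : Mid p A v w1 w2 m)
    (h1 : m ≠ w1) (h2 : m ≠ w2) :
    ht p v w1 (p m).1 < (p m).2 ∧ (p m).2 < ht p v w2 (p m).1 ∧ (p m).1 < (p w1).1 ∧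
      (p m).1 < (p w2).1 ∧ ∀ z, A m z → ¬ (p z).1 < (p m).1 := by
  obtain ⟨-, m1, m2, m3, m4, m5, m6⟩ := id hm
  have k1 : (p m).2 ≠ ht p v w1 (p m).1 := by
    intro he
    have hmem := mem_seg h.1.2 m1.le m2
    rw [← he] at hmem
    rcases hp.avoid _ _ m h.1.1 hmem with rfl | rfl
    · exact lt_irrefl _ m1
    · exact h1 rfl
  have k2 : (p m).2 ≠ ht p v w2 (p m).1 := by
    intro he
    have hmem := mem_seg h.2.1.2 m1.le m3
    rw [← he] at hmem
    rcases hp.avoid _ _ m h.2.1.1 hmem with rfl | rfl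
    · exact lt_irrefl _ m1
    · exact h2 rfl
  have k3 := lt_of_le_of_ne m4 k1.symm
  have k4 := lt_of_le_of_ne m5 k2
  refine ⟨k3, k4, lt_of_le_of_ne m2 fun h => h1 (hp.xinj _ _ h),
    lt_of_le_of_ne m3 fun h => h2 (hp.xinj _ _ h), ?_⟩
  intro z hz hlt
  refine noedge hp h hm ⟨hp.symm _ _ hz, hlt⟩ hlt le_rfl ?_
  rw [ht_right hlt.ne]
  exact ⟨k3, k4⟩

/-- The lower edge of a wedge ends at its middle vertex `m`. -/
def HitU (p : V → ℝ × ℝ) (A : V → V → Prop) (m : V) : Prop := ∃ v w, Wd p A v m w ∧ Mid p A v m w m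

/-- The upper edge of a wedge ends at its middle vertex `m`. -/
def HitD (p : V → ℝ × ℝ) (A : V → V → Prop) (m : V) : Prop := ∃ v w, Wd p A v w m ∧ Mid p A v w m m

theorem hitU_span (hp : Plane p A) {v m w : V} (h : Wd p A v m w) (hm : Mid p A v m w m) :
    (p m).1 < (p w).1 ∧ ht p v m (p m).1 = (p m).2 ∧ (p m).2 < ht p v w (p m).1 := by
  have h0 : m ≠ w := by rintro rfl; exact lt_irrefl _ h.2.2.1
  have h1 := ht_right (p := p) (v := v) (w := m) h.1.2.ne
  refine ⟨lt_of_le_of_ne hm.2.2.2.1 fun h => h0 (hp.xinj _ _ h), h1, ?_⟩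
  rw [← h1]
  exact (ht_lt_iff h.1.2).mpr h.2.2.1

theorem hitD_span (hp : Plane p A) {v m w : V} (h : Wd p A v w m) (hm : Mid p A v w m m) :
    (p m).1 < (p w).1 ∧ ht p v m (p m).1 = (p m).2 ∧ ht p v w (p m).1 < (p m).2 := by
  have h0 : m ≠ w := by rintro rfl; exact lt_irrefl _ h.2.2.1
  have h1 := ht_right (p := p) (v := v) (w := m) h.2.1.2.ne
  refine ⟨lt_of_le_of_ne hm.2.2.1 fun h => h0 (hp.xinj _ _ h), h1, ?_⟩
  rw [← h1]
  exact (ht_lt_iff h.2.1.2).mpr h.2.2.1

theorem hitU_inj (hp : Plane p A) {v m w v' w' : V} (h : Wd p A v m w) (hm : Mid p A v m w m)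
    (h' : Wd p A v' m w') (hm' : Mid p A v' m w' m) : v = v' ∧ w = w' := by
  obtain ⟨a1, a2, a3⟩ := hitU_span hp h hm
  obtain ⟨b1, b2, b3⟩ := hitU_span hp h' hm'
  refine eq_edge hp h.2.1 h'.2.1 h.1.2 a1 h'.1.2.le b1.le ?_
  apply le_antisymm
  · by_contra hlt
    push Not at hlt
    exact noedge hp h hm h'.2.1 h'.1.2 b1.le ⟨by rw [a2]; exact b3, hlt⟩
  · by_contra hlt
    push Not at hlt
    exact noedge hp h' hm' h.2.1 h.1.2 a1.le ⟨by rw [b2]; exact a3, hlt⟩

theorem hitD_inj (hp : Plane p A) {v m w v' w' : V} (h : Wd p A v w m) (hm : Mid p A v w m m)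
    (h' : Wd p A v' w' m) (hm' : Mid p A v' w' m m) : v = v' ∧ w = w' := by
  obtain ⟨a1, a2, a3⟩ := hitD_span hp h hm
  obtain ⟨b1, b2, b3⟩ := hitD_span hp h' hm'
  refine eq_edge hp h.1 h'.1 h.2.1.2 a1 h'.2.1.2.le b1.le ?_
  apply le_antisymm
  · by_contra hlt
    push Not at hlt
    exact noedge hp h' hm' h.1 h.2.1.2 a1.le ⟨hlt, by rw [b2]; exact a3⟩
  · by_contra hlt
    push Not at hlt
    exact noedge hp h hm h'.1 h'.2.1.2 b1.le ⟨hlt, by rw [a2]; exact b3⟩

theorem inside_inj (hp : Plane p A) {v w1 w2 m v' w1' w2' : V} (h : Wd p A v w1 w2)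
    (hm : Mid p A v w1 w2 m) (h1 : m ≠ w1) (h2 : m ≠ w2) (h' : Wd p A v' w1' w2')
    (hm' : Mid p A v' w1' w2' m) (h1' : m ≠ w1') (h2' : m ≠ w2') : v = v' ∧ w2 = w2' := by
  obtain ⟨a1, a2, a3, a4, -⟩ := inside hp h hm h1 h2
  obtain ⟨b1, b2, b3, b4, -⟩ := inside hp h' hm' h1' h2'
  refine eq_edge hp h.2.1 h'.2.1 hm.2.1 a4 hm'.2.1.le b4.le ?_
  apply le_antisymm
  · by_contra hlt
    push Not at hlt
    exact noedge hp h hm h'.2.1 hm'.2.1 b4.le ⟨by linarith, hlt⟩
  · by_contra hlt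
    push Not at hlt
    exact noedge hp h' hm' h.2.1 hm.2.1 a4.le ⟨by linarith, hlt⟩

open Classical in
/-- The number of right-going edges. -/
theorem card_right [Fintype V] (hp : Plane p A) :
    (Finset.univ.filter fun e : V × V => RE p A e.1 e.2).card ≤
      (Finset.univ.filter fun m : V => HitU p A m).card +
      (Finset.univ.filter fun m : V => HitD p A m).card +
      (Finset.univ.filter fun m : V => (∃ u, A m u) ∧ ∀ z, A m z → ¬ (p z).1 < (p m).1).card +
      (Finset.univ.filter fun v : V => ∃ w, RE p A v w).card := by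
  set W1 := Finset.univ.filter fun e : V × V =>
    ∃ w, Wd p A e.1 w e.2 ∧ Mid p A e.1 w e.2 w with hW1
  set W2 := Finset.univ.filter fun e : V × V =>
    ∃ w, Wd p A e.1 w e.2 ∧ Mid p A e.1 w e.2 e.2 with hW2
  set W3 := Finset.univ.filter fun e : V × V =>
    ∃ w m, Wd p A e.1 w e.2 ∧ Mid p A e.1 w e.2 m ∧ m ≠ w ∧ m ≠ e.2 with hW3
  set W4 := Finset.univ.filter fun e : V × V =>
    RE p A e.1 e.2 ∧ ∀ w, RE p A e.1 w → sl p e.1 e.2 ≤ sl p e.1 w with hW4
  have hsub : (Finset.univ.filter fun e : V × V => RE p A e.1 e.2) ⊆ W1 ∪ W2 ∪ W3 ∪ W4 := by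
    intro e he
    have he : RE p A e.1 e.2 := by simpa using he
    simp only [Finset.mem_union]
    by_cases hl : ∀ w, RE p A e.1 w → sl p e.1 e.2 ≤ sl p e.1 w
    · right
      simp only [hW4, Finset.mem_filter, Finset.mem_univ, true_and]
      exact ⟨he, hl⟩
    · left
      push Not at hl
      obtain ⟨w, hw, hlt⟩ := hl
      obtain ⟨w1, hw1⟩ := exists_wd he hw hlt
      obtain ⟨m, hm⟩ := exists_mid hp hw1
      by_cases k1 : m = w1
      · left; left
        subst k1
        simp only [hW1, Finset.mem_filter, Finset.mem_univ, true_and]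
        exact ⟨m, hw1, hm⟩
      · by_cases k2 : m = e.2
        · left; right
          subst k2
          simp only [hW2, Finset.mem_filter, Finset.mem_univ, true_and]
          exact ⟨w1, hw1, hm⟩
        · right
          simp only [hW3, Finset.mem_filter, Finset.mem_univ, true_and]
          exact ⟨w1, m, hw1, hm, k1, k2⟩
  have c1 : W1.card ≤ (Finset.univ.filter fun m : V => HitU p A m).card := by
    refine Finset.card_le_card_of_forall_subsingleton
      (fun e m => Wd p A e.1 m e.2 ∧ Mid p A e.1 m e.2 m) ?_ ?_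
    · intro e he
      simp only [hW1, Finset.mem_filter, Finset.mem_univ, true_and] at he
      obtain ⟨w, hw1, hw2⟩ := he
      exact ⟨w, by simpa using ⟨e.1, e.2, hw1, hw2⟩, hw1, hw2⟩
    · rintro m - e ⟨-, he⟩ e' ⟨-, he'⟩
      obtain ⟨k1, k2⟩ := hitU_inj hp he.1 he.2 he'.1 he'.2
      exact Prod.ext k1 k2
  have c2 : W2.card ≤ (Finset.univ.filter fun m : V => HitD p A m).card := by
    refine Finset.card_le_card_of_forall_subsingleton
      (fun e m => e.2 = m ∧ ∃ w, Wd p A e.1 w m ∧ Mid p A e.1 w m m) ?_ ?_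
    · intro e he
      simp only [hW2, Finset.mem_filter, Finset.mem_univ, true_and] at he
      obtain ⟨w, hw1, hw2⟩ := he
      exact ⟨e.2, by simpa using ⟨e.1, w, hw1, hw2⟩, rfl, w, hw1, hw2⟩
    · rintro m - e ⟨-, he0, w, he⟩ e' ⟨-, he0', w', he'⟩
      obtain ⟨k1, k2⟩ := hitD_inj hp he.1 he.2 he'.1 he'.2
      exact Prod.ext k1 (he0.trans he0'.symm)
  have c3 : W3.card ≤
      (Finset.univ.filter fun m : V => (∃ u, A m u) ∧ ∀ z, A m z → ¬ (p z).1 < (p m).1).card := by
    refine Finset.card_le_card_of_forall_subsingleton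
      (fun e m => ∃ w, Wd p A e.1 w e.2 ∧ Mid p A e.1 w e.2 m ∧ m ≠ w ∧ m ≠ e.2) ?_ ?_
    · intro e he
      simp only [hW3, Finset.mem_filter, Finset.mem_univ, true_and] at he
      obtain ⟨w, m, hw1, hw2, hw3, hw4⟩ := he
      refine ⟨m, ?_, w, hw1, hw2, hw3, hw4⟩
      simp only [Finset.mem_filter, Finset.mem_univ, true_and]
      exact ⟨hw2.1, (inside hp hw1 hw2 hw3 hw4).2.2.2.2⟩
    · rintro m - e ⟨-, w, he⟩ e' ⟨-, w', he'⟩
      obtain ⟨k1, k2⟩ := inside_inj hp he.1 he.2.1 he.2.2.1 he.2.2.2 he'.1 he'.2.1 he'.2.2.1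
        he'.2.2.2
      exact Prod.ext k1 k2
  have c4 : W4.card ≤ (Finset.univ.filter fun v : V => ∃ w, RE p A v w).card := by
    refine Finset.card_le_card_of_forall_subsingleton (fun e v => e.1 = v) ?_ ?_
    · intro e he
      simp only [hW4, Finset.mem_filter, Finset.mem_univ, true_and] at he
      exact ⟨e.1, by simpa using ⟨e.2, he.1⟩, rfl⟩
    · rintro m - e ⟨he, rfl⟩ e' ⟨he', h0⟩
      simp only [hW4, Finset.mem_filter, Finset.mem_univ, true_and] at he he'
      rw [h0] at he'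
      refine Prod.ext h0.symm (sl_inj hp he.1 he'.1 ?_)
      exact le_antisymm (he.2 _ he'.1) (he'.2 _ he.1)
  calc _ ≤ (W1 ∪ W2 ∪ W3 ∪ W4).card := Finset.card_le_card hsub
    _ ≤ W1.card + W2.card + W3.card + W4.card := by
      refine (Finset.card_union_le _ _).trans ?_
      gcongr
      refine (Finset.card_union_le _ _).trans ?_
      gcongr
      exact Finset.card_union_le _ _
    _ ≤ _ := by gcongr

/-! ### Reflections -/

/-- Reflected drawing. -/
def rfx (p : V → ℝ × ℝ) (v : V) : ℝ × ℝ := (-(p v).1, (p v).2)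

/-- Reflected drawing. -/
def rfy (p : V → ℝ × ℝ) (v : V) : ℝ × ℝ := ((p v).1, -(p v).2)

/-- Reflection of the plane. -/
def Lx : (ℝ × ℝ) ≃ₗ[ℝ] (ℝ × ℝ) := (LinearEquiv.neg ℝ).prodCongr (LinearEquiv.refl ℝ ℝ)

/-- Reflection of the plane. -/
def Ly : (ℝ × ℝ) ≃ₗ[ℝ] (ℝ × ℝ) := (LinearEquiv.refl ℝ ℝ).prodCongr (LinearEquiv.neg ℝ)

theorem plane_map (hp : Plane p A) (L : (ℝ × ℝ) ≃ₗ[ℝ] (ℝ × ℝ))
    (hx : ∀ a b, (L (p a)).1 = (L (p b)).1 → (p a).1 = (p b).1) : Plane (fun v => L (p v)) A := by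
  have himg : ∀ a b : V, segment ℝ (L (p a)) (L (p b)) = L '' segment ℝ (p a) (p b) := by
    intro a b
    exact (image_segment ℝ L.toLinearMap.toAffineMap (p a) (p b)).symm
  refine ⟨hp.symm, hp.irrefl, fun a b h => hp.xinj _ _ (hx _ _ h), ?_, ?_⟩
  · intro a b c hab hc
    rw [himg] at hc
    obtain ⟨q, hq, he⟩ := hc
    have : q = p c := L.injective he
    subst this
    exact hp.avoid _ _ _ hab hq
  · rintro a b c d hab hcd hne ⟨q, hq1, hq2, hq3⟩
    rw [himg] at hq1 hq2
    obtain ⟨q1, hq1, rfl⟩ := hq1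
    obtain ⟨q2, hq2, he⟩ := hq2
    have : q2 = q1 := L.injective he
    subst this
    refine hp.nocross a b c d hab hcd hne ⟨q2, hq1, hq2, ?_⟩
    rintro ⟨h1, h2⟩
    apply hq3
    constructor
    · rcases h1 with rfl | rfl <;> simp
    · rcases h2 with rfl | rfl <;> simp

theorem plane_rfx (hp : Plane p A) : Plane (rfx p) A :=
  plane_map hp Lx (by intro a b h; simpa [Lx] using h)

theorem plane_rfy (hp : Plane p A) : Plane (rfy p) A :=
  plane_map hp Ly (by intro a b h; simpa [Ly] using h)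

theorem sl_rfy (v w : V) : sl (rfy p) v w = - sl p v w := by
  simp only [sl, rfy]; ring

theorem ht_rfy (v w : V) (t : ℝ) : ht (rfy p) v w t = - ht p v w t := by
  simp only [ht, sl_rfy]; simp only [rfy]; ring

theorem ht_rfx (v w : V) (t : ℝ) : ht (rfx p) v w (-t) = ht p v w t := by
  simp only [ht, sl, rfx]
  have : (-(p w).1 - -(p v).1) = -((p w).1 - (p v).1) := by ring
  rw [this, div_neg]
  ring

theorem re_rfy {v w : V} : RE (rfy p) A v w ↔ RE p A v w := Iff.rfl

theorem hitD_rfy {m : V} (h : HitD p A m) : HitU (rfy p) A m := by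
  obtain ⟨v, w, hw, hm⟩ := h
  refine ⟨v, w, ⟨hw.2.1, hw.1, ?_, ?_⟩, ?_⟩
  · rw [sl_rfy, sl_rfy]; linarith [hw.2.2.1]
  · intro u hu
    rw [sl_rfy, sl_rfy, sl_rfy]
    rintro ⟨k1, k2⟩
    exact hw.2.2.2 u hu ⟨by linarith, by linarith⟩
  · obtain ⟨m0, m1, m2, m3, m4, m5, m6⟩ := hm
    refine ⟨m0, m1, m3, m2, ?_, ?_, ?_⟩
    · rw [ht_rfy]; simp only [rfy]; linarith
    · rw [ht_rfy]; simp only [rfy]; linarith
    · intro u hu hu1 hu2
      rw [ht_rfy, ht_rfy]
      rintro ⟨k1, k2⟩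
      simp only [rfy] at k1 k2
      exact m6 u hu hu1 hu2 ⟨by linarith, by linarith⟩

theorem mem_hull {x y z q : ℝ × ℝ} (h : q ∈ convexHull ℝ {x, y, z}) :
    ∃ a b c : ℝ, 0 ≤ a ∧ 0 ≤ b ∧ 0 ≤ c ∧ a + b + c = 1 ∧ q = a • x + b • y + c • z := by
  rw [convexHull_insert (by simp), convexHull_pair, mem_convexJoin] at h
  obtain ⟨u, hu, v, ⟨s, t, hs, ht, hst, rfl⟩, ⟨s', t', hs', ht', hst', rfl⟩⟩ := h
  rw [Set.mem_singleton_iff] at hu
  subst hu
  refine ⟨s', t' * s, t' * t, hs', by positivity, by positivity, ?_, ?_⟩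
  · rw [add_assoc, ← mul_add, hst, mul_one, hst']
  · rw [smul_add, smul_smul, smul_smul, add_assoc]

theorem hull_mem {x y z : ℝ × ℝ} {a b c : ℝ} (ha : 0 ≤ a) (hb : 0 ≤ b) (hc : 0 ≤ c)
    (h : a + b + c = 1) : a • x + b • y + c • z ∈ convexHull ℝ {x, y, z} := by
  have hconv := convex_convexHull ℝ ({x, y, z} : Set (ℝ × ℝ))
  have hx : x ∈ convexHull ℝ ({x, y, z} : Set (ℝ × ℝ)) := subset_convexHull _ _ (by simp)
  have hy : y ∈ convexHull ℝ ({x, y, z} : Set (ℝ × ℝ)) := subset_convexHull _ _ (by simp)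
  have hz : z ∈ convexHull ℝ ({x, y, z} : Set (ℝ × ℝ)) := subset_convexHull _ _ (by simp)
  have := hconv.sum_mem (t := Finset.univ) (w := ![a, b, c]) (z := ![x, y, z])
    (by intro i _; fin_cases i <;> simp [ha, hb, hc]) (by simp [Fin.sum_univ_three, h])
    (by intro i _; fin_cases i <;> simp [hx, hy, hz])
  simpa [Fin.sum_univ_three] using this

/-- Cyclic permutation of an empty triangle. -/
theorem tri_rot {x y z : V} (h : Tri p A x y z) : Tri p A y z x := by
  obtain ⟨h1, h2, h3, h4, h5⟩ := h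
  refine ⟨h2, h3, h1, ?_, ?_⟩
  · have : ori (p y) (p z) (p x) = ori (p x) (p y) (p z) := by
      simp only [ori, crs, Prod.fst_sub, Prod.snd_sub]; ring
    rw [this]; exact h4
  · intro w hw k1 k2 k3 hmem
    refine h5 w hw k3 k1 k2 ?_
    have : ({p x, p y, p z} : Set (ℝ × ℝ)) = {p y, p z, p x} := by
      ext q; simp only [Set.mem_insert_iff, Set.mem_singleton_iff]; tauto
    rw [this]; exact hmem

theorem tri_rfy {x y z : V} (hs : ∀ a b, A a b → A b a) (h : Tri (rfy p) A x y z) :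
    Tri p A z y x := by
  obtain ⟨h1, h2, h3, h4, h5⟩ := h
  refine ⟨hs _ _ h2, hs _ _ h1, hs _ _ h3, ?_, ?_⟩
  · have : ori (p z) (p y) (p x) = ori (rfy p x) (rfy p y) (rfy p z) := by
      simp only [ori, crs, rfy, Prod.fst_sub, Prod.snd_sub]; ring
    rw [this]; exact h4
  · intro w hw k1 k2 k3 hmem
    refine h5 w hw k3 k2 k1 ?_
    obtain ⟨a, b, c, ha, hb, hc, habc, he⟩ := mem_hull hmem
    have : rfy p w = c • rfy p x + b • rfy p y + a • rfy p z := by
      have e1 := congrArg Prod.fst he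
      have e2 := congrArg Prod.snd he
      simp only [Prod.fst_add, Prod.smul_fst, smul_eq_mul, Prod.snd_add, Prod.smul_snd] at e1 e2
      apply Prod.ext
      · simp only [rfy, Prod.fst_add, Prod.smul_fst, smul_eq_mul]; linarith
      · simp only [rfy, Prod.snd_add, Prod.smul_snd, smul_eq_mul]; linarith
    rw [this]
    exact hull_mem hc hb ha (by linarith)

/-- Wedges on both sides give an empty triangle. -/
theorem tri_of_hits (hp : Plane p A) {m : V} (h : HitU p A m) (h' : HitU (rfx p) A m) :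
    ∃ l r, Tri p A l m r ∧ (p l).1 < (p m).1 ∧ (p m).1 < (p r).1 := by
  obtain ⟨v, w, hw, hm⟩ := h
  obtain ⟨u, w', hw', hm'⟩ := h'
  have hp' := plane_rfx hp
  obtain ⟨a1, a2, a3⟩ := hitU_span hp hw hm
  obtain ⟨b1, b2, b3⟩ := hitU_span hp' hw' hm'
  have hum : (p m).1 < (p u).1 := by have := hw'.1.2; simp only [rfx] at this; linarith
  have hwm : (p w').1 < (p m).1 := by simp only [rfx] at b1; linarith
  have hvm : (p v).1 < (p m).1 := hw.1.2
  have hre1 : RE p A w' u := ⟨hp.symm _ _ hw'.2.1.1, by linarith⟩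
  have hre2 : RE (rfx p) A w v := ⟨hp.symm _ _ hw.2.1.1, by simp only [rfx]; linarith⟩
  have hx : (rfx p m).1 = -(p m).1 := rfl
  have hy : (rfx p m).2 = (p m).2 := rfl
  rw [hx, ht_rfx, hy] at b2 b3
  have hs1 : ht p u w' (p m).1 = ht p w' u (p m).1 :=
    ht_symm (p := p) (v := u) (w := w') (ne_of_gt (by linarith : (p w').1 < (p u).1)) _
  have hs2 : ht p w v (p m).1 = ht p v w (p m).1 :=
    ht_symm (p := p) (v := w) (w := v) (ne_of_gt (by linarith : (p v).1 < (p w).1)) _
  have heq : ht p v w (p m).1 = ht p w' u (p m).1 := by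
    apply le_antisymm
    · by_contra hlt
      push Not at hlt
      exact noedge hp hw hm hre1 hwm hum.le ⟨by rw [a2, ← hs1]; exact b3, hlt⟩
    · by_contra hlt
      push Not at hlt
      refine noedge hp' hw' hm' hre2 (by simp only [rfx]; linarith) (by simp only [rfx]; linarith)
        ⟨?_, ?_⟩
      · rw [hx, ht_rfx, ht_rfx, b2, hs2]; exact a3
      · rw [hx, ht_rfx, ht_rfx, hs2, hs1]; exact hlt
  obtain ⟨rfl, rfl⟩ := eq_edge hp hw.2.1 hre1 hvm a1 hwm.le hum.le heq
  refine ⟨v, w, ⟨hw.1.1, hp.symm _ _ hw'.1.1, hp.symm _ _ hw.2.1.1, ?_, ?_⟩, hvm, a1⟩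
  · have : ori (p v) (p m) (p w) = ((p w).1 - (p v).1) * (ht p v w (p m).1 - (p m).2) := by
      have h0 : (p w).1 - (p v).1 ≠ 0 := by have := hw.2.1.2; linarith
      simp only [ori, crs, Prod.fst_sub, Prod.snd_sub, ht, sl]
      field_simp
      ring
    rw [this]
    apply mul_pos <;> linarith [hw.2.1.2]
  · intro q hq k1 k2 k3 hmem
    obtain ⟨a, b, c, ha, hb, hc, habc, he⟩ := mem_hull hmem
    have e1 := congrArg Prod.fst he
    have e2 := congrArg Prod.snd he
    simp only [Prod.fst_add, Prod.smul_fst, smul_eq_mul, Prod.snd_add, Prod.smul_snd] at e1 e2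
    have ea : a = 1 - b - c := by linarith
    subst ea
    have hvw := hw.2.1.2
    have hqv : (p v).1 < (p q).1 := by
      refine lt_of_le_of_ne ?_ fun h => k1 (hp.xinj _ _ h).symm
      rw [e1]; nlinarith
    have hqw : (p q).1 < (p w).1 := by
      refine lt_of_le_of_ne ?_ fun h => k3 (hp.xinj _ _ h)
      rw [e1]; nlinarith
    have up : (p q).2 ≤ ht p v w (p q).1 := by
      have e3 : ht p v w (p q).1 - (p q).2 = b * (ht p v w (p m).1 - (p m).2) := by
        have h0 : (p w).1 - (p v).1 ≠ 0 := by linarith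
        rw [e1, e2]
        simp only [ht, sl]
        field_simp
        ring
      have : 0 ≤ b * (ht p v w (p m).1 - (p m).2) := mul_nonneg hb (by linarith)
      linarith
    rcases lt_trichotomy (p q).1 (p m).1 with k | k | k
    · refine hm.2.2.2.2.2.2 q hq hqv k ⟨?_, up⟩
      have e3 : ((p m).1 - (p v).1) * ((p q).2 - ht p v m (p q).1) =
          c * (((p m).1 - (p v).1) * (p w).2 - ((p m).1 - (p v).1) * ht p v m (p w).1) := by
        have h0 : (p m).1 - (p v).1 ≠ 0 := by linarith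
        rw [e1, e2]
        simp only [ht, sl]
        field_simp
        ring
      have e4 : ((p m).1 - (p v).1) * (p w).2 - ((p m).1 - (p v).1) * ht p v m (p w).1 =
          ((p w).1 - (p v).1) * (ht p v w (p m).1 - (p m).2) := by
        have h0 : (p m).1 - (p v).1 ≠ 0 := by linarith
        have h1 : (p w).1 - (p v).1 ≠ 0 := by linarith
        simp only [ht, sl]
        field_simp
        ring
      rw [e4] at e3
      have h5 : 0 ≤ c * (((p w).1 - (p v).1) * (ht p v w (p m).1 - (p m).2)) :=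
        mul_nonneg hc (mul_nonneg (by linarith) (by linarith))
      rw [← e3] at h5
      have h6 := nonneg_of_mul_nonneg_right h5 (by linarith : 0 < (p m).1 - (p v).1)
      linarith
    · exact k2 (hp.xinj _ _ k)
    · refine hm'.2.2.2.2.2.2 q hq (by simp only [rfx]; linarith) (by simp only [rfx]; linarith)
        ⟨?_, ?_⟩
      · have hxq : (rfx p q).1 = -(p q).1 := rfl
        have hyq : (rfx p q).2 = (p q).2 := rfl
        rw [hxq, ht_rfx, hyq]
        have e3 : ((p w).1 - (p m).1) * ((p q).2 - ht p w m (p q).1) =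
            (1 - b - c) * (((p w).1 - (p v).1) * (ht p v w (p m).1 - (p m).2)) := by
          have h0 : (p w).1 - (p m).1 ≠ 0 := by linarith
          have h0' : (p m).1 - (p w).1 ≠ 0 := by linarith
          have h1 : (p w).1 - (p v).1 ≠ 0 := by linarith
          rw [e1, e2]
          simp only [ht, sl]
          field_simp
          ring
        have h5 : 0 ≤ (1 - b - c) * (((p w).1 - (p v).1) * (ht p v w (p m).1 - (p m).2)) :=
          mul_nonneg ha (mul_nonneg (by linarith) (by linarith))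
        rw [← e3] at h5
        have h6 := nonneg_of_mul_nonneg_right h5 (by linarith : 0 < (p w).1 - (p m).1)
        linarith
      · have hxq : (rfx p q).1 = -(p q).1 := rfl
        have hyq : (rfx p q).2 = (p q).2 := rfl
        rw [hxq, ht_rfx, hyq, ht_symm (p := p) (v := w) (w := v)
          (ne_of_gt (by linarith : (p v).1 < (p w).1))]
        exact up

theorem tri_of_hits' (hp : Plane p A) {m : V} (h : HitD p A m) (h' : HitD (rfx p) A m) :
    ∃ l r, Tri p A r m l ∧ (p l).1 < (p m).1 ∧ (p m).1 < (p r).1 := by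
  obtain ⟨l, r, h1, h2, h3⟩ := tri_of_hits (plane_rfy hp) (hitD_rfy h) (hitD_rfy h')
  exact ⟨l, r, tri_rfy hp.symm h1, h2, h3⟩

/-- A middle vertex of an empty triangle: the upper kind (`inl`) and the lower kind (`inr`). -/
def TM (p : V → ℝ × ℝ) (A : V → V → Prop) (t : V ⊕ V) (x m z : V) : Prop :=
  Tri p A x m z ∧ ((t = Sum.inl m ∧ (p x).1 < (p m).1 ∧ (p m).1 < (p z).1) ∨
    (t = Sum.inr m ∧ (p z).1 < (p m).1 ∧ (p m).1 < (p x).1))

theorem TM.same (hp : Plane p A) {t t' : V ⊕ V} {x m z x' m' z' : V} (h : TM p A t x m z)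
    (h' : TM p A t' x' m' z') (h1 : x = x') (h2 : m = m') : t = t' := by
  subst h1 h2
  have hz := Tri.unique hp h.1 h'.1
  subst hz
  rcases h.2 with ⟨k1, k2, k3⟩ | ⟨k1, k2, k3⟩ <;> rcases h'.2 with ⟨l1, l2, l3⟩ | ⟨l1, l2, l3⟩
  · rw [k1, l1]
  · linarith
  · linarith
  · rw [k1, l1]

theorem TM.diff (hp : Plane p A) {t t' : V ⊕ V} {x m z x' m' z' : V} (h : TM p A t x m z)
    (h' : TM p A t' x' m' z') (h1 : x = m') (h2 : m = z') : False := by
  subst h1 h2
  have hz := Tri.unique hp h.1 (tri_rot h'.1)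
  subst hz
  rcases h.2 with ⟨k1, k2, k3⟩ | ⟨k1, k2, k3⟩ <;> rcases h'.2 with ⟨l1, l2, l3⟩ | ⟨l1, l2, l3⟩ <;>
    linarith

open Classical in
/-- Every middle vertex gives three edges with an empty triangle on the left. -/
theorem card_good [Fintype V] (hp : Plane p A) (TU TD : Finset V)
    (hU : ∀ m ∈ TU, HitU p A m ∧ HitU (rfx p) A m) (hD : ∀ m ∈ TD, HitD p A m ∧ HitD (rfx p) A m) :
    (TU.card + TD.card) * 3 ≤
      (Finset.univ.filter fun e : V × V => A e.1 e.2 ∧ ∃ z, Tri p A e.1 e.2 z).card := by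
  have hc : ((TU.disjSum TD) ×ˢ (Finset.univ : Finset (Fin 3))).card =
      (TU.card + TD.card) * 3 := by
    rw [Finset.card_product, Finset.card_disjSum, Finset.card_univ, Fintype.card_fin]
  rw [← hc]
  refine Finset.card_le_card_of_forall_subsingleton
    (fun (t : (V ⊕ V) × Fin 3) e => ∃ x m z, TM p A t.1 x m z ∧ ((t.2 = 0 ∧ e = (x, m)) ∨
      (t.2 = 1 ∧ e = (m, z)) ∨ (t.2 = 2 ∧ e = (z, x)))) ?_ ?_
  · rintro ⟨t, i⟩ ht
    simp only [Finset.mem_product, Finset.mem_univ, and_true] at ht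
    have key : ∃ x m z, TM p A t x m z := by
      rw [Finset.mem_disjSum] at ht
      rcases ht with ⟨m, hm, rfl⟩ | ⟨m, hm, rfl⟩
      · obtain ⟨l, r, h1, h2, h3⟩ := tri_of_hits hp (hU m hm).1 (hU m hm).2
        exact ⟨l, m, r, h1, Or.inl ⟨rfl, h2, h3⟩⟩
      · obtain ⟨l, r, h1, h2, h3⟩ := tri_of_hits' hp (hD m hm).1 (hD m hm).2
        exact ⟨r, m, l, h1, Or.inr ⟨rfl, h2, h3⟩⟩
    obtain ⟨x, m, z, h⟩ := key
    have h0 := h.1
    have hi : i = 0 ∨ i = 1 ∨ i = 2 := by fin_cases i <;> simp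
    rcases hi with rfl | rfl | rfl
    · refine ⟨(x, m), ?_, x, m, z, h, Or.inl ⟨rfl, rfl⟩⟩
      simp only [Finset.mem_filter, Finset.mem_univ, true_and]
      exact ⟨h0.1, z, h0⟩
    · refine ⟨(m, z), ?_, x, m, z, h, Or.inr (Or.inl ⟨rfl, rfl⟩)⟩
      simp only [Finset.mem_filter, Finset.mem_univ, true_and]
      exact ⟨h0.2.1, x, tri_rot h0⟩
    · refine ⟨(z, x), ?_, x, m, z, h, Or.inr (Or.inr ⟨rfl, rfl⟩)⟩
      simp only [Finset.mem_filter, Finset.mem_univ, true_and]
      exact ⟨h0.2.2.1, m, tri_rot (tri_rot h0)⟩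
  · rintro e - ⟨t, i⟩ ⟨-, x, m, z, h, he⟩ ⟨t', i'⟩ ⟨-, x', m', z', h', he'⟩
    simp only at h he h' he'
    rcases he with ⟨rfl, rfl⟩ | ⟨rfl, rfl⟩ | ⟨rfl, rfl⟩ <;>
    rcases he' with ⟨rfl, he'⟩ | ⟨rfl, he'⟩ | ⟨rfl, he'⟩ <;>
    rw [Prod.mk.injEq] at he' <;> obtain ⟨e1, e2⟩ := he'
    · rw [TM.same hp h h' e1 e2]
    · exact (TM.diff hp h h' e1 e2).elim
    · -- `(x, m) = (z', x')`
      subst e1 e2
      have hz := Tri.unique hp h.1 (tri_rot (tri_rot h'.1))
      exact (TM.diff hp h' h rfl hz.symm).elim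
    · exact (TM.diff hp h' h e1.symm e2.symm).elim
    · subst e1 e2
      have hz := Tri.unique hp (tri_rot h.1) (tri_rot h'.1)
      rw [TM.same hp h h' hz rfl]
    · subst e1 e2
      have hz := Tri.unique hp (tri_rot h.1) (tri_rot (tri_rot h'.1))
      exact (TM.diff hp h h' hz rfl).elim
    · subst e1 e2
      have hz := Tri.unique hp (tri_rot (tri_rot h.1)) h'.1
      exact (TM.diff hp h h' rfl hz).elim
    · subst e1 e2
      have hz := Tri.unique hp (tri_rot (tri_rot h.1)) (tri_rot h'.1)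
      exact (TM.diff hp h' h hz.symm rfl).elim
    · subst e1 e2
      have hz := Tri.unique hp (tri_rot (tri_rot h.1)) (tri_rot (tri_rot h'.1))
      rw [TM.same hp h h' rfl hz]

theorem hitU_nonisol (hp : Plane p A) {m : V} (h : HitU p A m) : ∃ y, A m y := by
  obtain ⟨v, w, h1, -⟩ := h
  exact ⟨v, hp.symm _ _ h1.1.1⟩

theorem hitD_nonisol (hp : Plane p A) {m : V} (h : HitD p A m) : ∃ y, A m y := by
  obtain ⟨v, w, h1, -⟩ := h
  exact ⟨v, hp.symm _ _ h1.2.1.1⟩

end

end PlaneCount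

section

open PlaneCount

variable {V : Type*} {p : V → ℝ × ℝ} {A : V → V → Prop}

open Classical in
/-- The number of directed edges of a plane straight-line graph without an empty triangle on the
left, plus twice the number of directed edges, is at most twelve times the number of non-isolated
vertices. -/
theorem plane_count [Fintype V] (hp : Plane p A) :
    (Finset.univ.filter fun e : V × V => A e.1 e.2 ∧ ¬ ∃ z, Tri p A e.1 e.2 z).card +
      2 * (Finset.univ.filter fun e : V × V => A e.1 e.2).card ≤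
      12 * (Finset.univ.filter fun x : V => ∃ y, A x y).card := by
  have hp' := plane_rfx hp
  set N := Finset.univ.filter fun x : V => ∃ y, A x y with hN
  set U := Finset.univ.filter fun m : V => HitU p A m with hU
  set D := Finset.univ.filter fun m : V => HitD p A m with hD
  set U' := Finset.univ.filter fun m : V => HitU (rfx p) A m with hU'
  set D' := Finset.univ.filter fun m : V => HitD (rfx p) A m with hD'
  set ZL := Finset.univ.filter fun m : V => (∃ u, A m u) ∧ ∀ z, A m z → ¬ (p z).1 < (p m).1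
    with hZL
  set ZR := Finset.univ.filter fun m : V =>
    (∃ u, A m u) ∧ ∀ z, A m z → ¬ (rfx p z).1 < (rfx p m).1 with hZR
  set RR := Finset.univ.filter fun v : V => ∃ w, RE p A v w with hRR
  set RL := Finset.univ.filter fun v : V => ∃ w, RE (rfx p) A v w with hRL
  have c1 : (Finset.univ.filter fun e : V × V => RE p A e.1 e.2).card ≤
    U.card + D.card + ZL.card + RR.card := card_right hp
  have c2 : (Finset.univ.filter fun e : V × V => RE (rfx p) A e.1 e.2).card ≤
    U'.card + D'.card + ZR.card + RL.card := card_right hp'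
  have c3 : RR.card + ZR.card ≤ N.card := by
    rw [← Finset.card_union_of_disjoint]
    · apply Finset.card_le_card
      intro m
      simp only [hN, hRR, hZR, Finset.mem_union, Finset.mem_filter, Finset.mem_univ, true_and]
      rintro (⟨w, hw⟩ | ⟨h, -⟩)
      · exact ⟨w, hw.1⟩
      · exact h
    · rw [Finset.disjoint_left]
      intro m
      simp only [hRR, hZR, Finset.mem_filter, Finset.mem_univ, true_and]
      rintro ⟨w, hw⟩ ⟨-, h⟩
      apply h w hw.1
      have := hw.2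
      simp only [rfx]; linarith
  have c4 : RL.card + ZL.card ≤ N.card := by
    rw [← Finset.card_union_of_disjoint]
    · apply Finset.card_le_card
      intro m
      simp only [hN, hRL, hZL, Finset.mem_union, Finset.mem_filter, Finset.mem_univ, true_and]
      rintro (⟨w, hw⟩ | ⟨h, -⟩)
      · exact ⟨w, hw.1⟩
      · exact h
    · rw [Finset.disjoint_left]
      intro m
      simp only [hRL, hZL, Finset.mem_filter, Finset.mem_univ, true_and]
      rintro ⟨w, hw⟩ ⟨-, h⟩
      apply h w hw.1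
      have := hw.2
      simp only [rfx] at this; linarith
  have c5 : U.card + U'.card ≤ N.card + (U ∩ U').card := by
    rw [← Finset.card_union_add_card_inter]
    gcongr
    intro m
    simp only [hN, hU, hU', Finset.mem_union, Finset.mem_filter, Finset.mem_univ, true_and]
    rintro (h | h)
    · exact hitU_nonisol hp h
    · exact hitU_nonisol hp' h
  have c6 : D.card + D'.card ≤ N.card + (D ∩ D').card := by
    rw [← Finset.card_union_add_card_inter]
    gcongr
    intro m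
    simp only [hN, hD, hD', Finset.mem_union, Finset.mem_filter, Finset.mem_univ, true_and]
    rintro (h | h)
    · exact hitD_nonisol hp h
    · exact hitD_nonisol hp' h
  have c7 := card_good hp (U ∩ U') (D ∩ D')
    (by intro m; simp only [hU, hU', Finset.mem_inter, Finset.mem_filter, Finset.mem_univ,
          true_and]; exact id)
    (by intro m; simp only [hD, hD', Finset.mem_inter, Finset.mem_filter, Finset.mem_univ,
          true_and]; exact id)
  have c8 : (Finset.univ.filter fun e : V × V => A e.1 e.2).card ≤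
      (Finset.univ.filter fun e : V × V => RE p A e.1 e.2).card +
      (Finset.univ.filter fun e : V × V => RE (rfx p) A e.1 e.2).card := by
    refine le_trans (Finset.card_le_card ?_) (Finset.card_union_le _ _)
    intro e
    simp only [Finset.mem_union, Finset.mem_filter, Finset.mem_univ, true_and]
    intro h
    have hne : (p e.1).1 ≠ (p e.2).1 := by
      intro h1
      have := hp.xinj _ _ h1
      exact hp.irrefl e.1 (by rw [this] at h ⊢; exact h)
    rcases lt_or_gt_of_ne hne with h1 | h1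
    · exact Or.inl ⟨h, h1⟩
    · refine Or.inr ⟨h, ?_⟩
      simp only [rfx]; linarith
  have c9 : (Finset.univ.filter fun e : V × V => A e.1 e.2 ∧ ¬ ∃ z, Tri p A e.1 e.2 z).card +
      (Finset.univ.filter fun e : V × V => A e.1 e.2 ∧ ∃ z, Tri p A e.1 e.2 z).card =
      (Finset.univ.filter fun e : V × V => A e.1 e.2).card := by
    rw [← Finset.card_union_of_disjoint]
    · congr 1
      ext e
      simp only [Finset.mem_union, Finset.mem_filter, Finset.mem_univ, true_and]
      tauto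
    · rw [Finset.disjoint_left]
      intro e
      simp only [Finset.mem_filter, Finset.mem_univ, true_and]
      tauto
  omega

end

end Pool.Agent.Lib.MP_612bca_lc
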