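import Pool.Agent.Lib.MP_612bca_lc.FewBad0
import Pool.Agent.Lib.MP_612bca_lc.PlaneCount

/-!
# Few bad vertices

Module G5 of the reduction for `MP_612bca_lc`.
-/

namespace Pool.Agent.Lib.MP_612bca_lc

variable {V : Type*} {G : SimpleGraph V} {k : ℕ}

open Classical in
theorem few_bad [Fintype V] (p : V → ℝ × ℝ) (col : Sym2 V → ℕ) (h : ColDrawing G k p col) (S : ℕ)
    (hS : 6 * k * Fintype.card V ≤ (Finset.univ.filter fun e : V × V => G.Adj e.1 e.2).card + S) :
    (Finset.univ.filter fun w : V => ¬ Good G k p col w).card ≤ 4 * S :=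
  FewBad.few_bad_of p col h S (fun _ hA => plane_count hA) hS

end Pool.Agent.Lib.MP_612bca_lc
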