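import Pool.Agent.Lib.MP_612bca_lc.PlaneDefs

/-!
# Few bad vertices

Module G5 of the reduction for `MP_612bca_lc`, up to the theorem `plane_count`, which is a
hypothesis here.
-/

namespace Pool.Agent.Lib.MP_612bca_lc

variable {V : Type*} {G : SimpleGraph V} {k : ℕ}

/-- The shear `(x, y) ↦ (x + ε y, y)`. -/
def FewBad.shear (ε : ℝ) : (ℝ × ℝ) →ₗ[ℝ] (ℝ × ℝ) where
  toFun q := (q.1 + ε * q.2, q.2)
  map_add' a b := by
    ext
    · simp; ring
    · simp
  map_smul' c a := by
    ext
    · simp; ring
    · simp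

theorem FewBad.shear_inj (ε : ℝ) : Function.Injective (FewBad.shear ε) := by
  intro a b h
  have h1 : a.1 + ε * a.2 = b.1 + ε * b.2 := (Prod.ext_iff.1 h).1
  have h2 : a.2 = b.2 := (Prod.ext_iff.1 h).2
  rw [h2] at h1
  exact Prod.ext (by linarith) h2

theorem FewBad.mem_segment_shear (ε : ℝ) (a b c : ℝ × ℝ) :
    FewBad.shear ε c ∈ segment ℝ (FewBad.shear ε a) (FewBad.shear ε b) ↔ c ∈ segment ℝ a b := by
  have h : (FewBad.shear ε).toAffineMap '' segment ℝ a b =
      segment ℝ (FewBad.shear ε a) (FewBad.shear ε b) := image_segment ℝ _ a b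
  rw [← h]
  constructor
  · rintro ⟨c', hc', h'⟩
    rwa [← FewBad.shear_inj ε h']
  · intro hc
    exact ⟨c, hc, rfl⟩

theorem exists_colDrawing [Finite V] (h : GeometricThicknessLE G k) :
    ∃ (p : V → ℝ × ℝ) (col : Sym2 V → ℕ), ColDrawing G k p col := by
  obtain ⟨p, col, hp, hcol, hcr⟩ := h
  -- choose the shear
  have hfin : (Set.range fun e : V × V =>
      -((p e.1).1 - (p e.2).1) / ((p e.1).2 - (p e.2).2)).Finite := Set.finite_range _
  obtain ⟨ε, hε⟩ := hfin.infinite_compl.nonempty
  refine ⟨fun v => FewBad.shear ε (p v), col, ?_, ?_⟩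
  · intro x y hxy
    exact hcol _ (by simpa using hxy)
  · intro κ
    refine ⟨?_, ?_, ?_, ?_, ?_⟩
    · rintro a b ⟨h1, h2⟩
      exact ⟨h1.symm, by rw [Sym2.eq_swap]; exact h2⟩
    · rintro a ⟨h1, -⟩
      exact G.loopless.irrefl a h1
    · intro a b hab
      by_contra hne
      have hab' : (p a).1 + ε * (p a).2 = (p b).1 + ε * (p b).2 := hab
      by_cases hy : (p a).2 = (p b).2
      · rw [hy] at hab'
        exact hne (hp.inj (Prod.ext (by linarith) hy))
      · apply hε
        refine ⟨(a, b), ?_⟩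
        have hy' : (p a).2 - (p b).2 ≠ 0 := sub_ne_zero.2 hy
        show -((p a).1 - (p b).1) / ((p a).2 - (p b).2) = ε
        rw [div_eq_iff hy']
        linarith
    · rintro a b c ⟨h1, -⟩ hc
      exact hp.avoid a b c h1 ((FewBad.mem_segment_shear ε _ _ _).1 hc)
    · rintro a b c d ⟨h1, h2⟩ ⟨h3, h4⟩ hne ⟨q, hq1, hq2, hq3⟩
      have himg : (FewBad.shear ε).toAffineMap '' segment ℝ (p a) (p b) =
        segment ℝ (FewBad.shear ε (p a)) (FewBad.shear ε (p b)) := image_segment ℝ _ _ _
      rw [← himg] at hq1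
      obtain ⟨q', hq', rfl⟩ := hq1
      have e1 : (FewBad.shear ε).toAffineMap q' = FewBad.shear ε q' := rfl
      rw [e1] at hq2 hq3
      refine hcr a b c d h1 h3 hne (h2.trans h4.symm) ⟨q', hq',
        (FewBad.mem_segment_shear ε _ _ _).1 hq2, ?_⟩
      intro h5
      apply hq3
      rcases h5 with ⟨h5, h6⟩
      refine ⟨?_, ?_⟩
      · rcases h5 with rfl | rfl
        · exact Or.inl rfl
        · exact Or.inr rfl
      · rcases h6 with rfl | rfl
        · exact Or.inl rfl
        · exact Or.inr rfl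

open Classical in
theorem FewBad.few_bad_of [Fintype V] (p : V → ℝ × ℝ) (col : Sym2 V → ℕ)
    (h : ColDrawing G k p col) (S : ℕ)
    (plane_count : ∀ A : V → V → Prop, Plane p A →
      (Finset.univ.filter fun e : V × V => A e.1 e.2 ∧ ¬ ∃ z, Tri p A e.1 e.2 z).card +
      2 * (Finset.univ.filter fun e : V × V => A e.1 e.2).card ≤
      12 * (Finset.univ.filter fun x : V => ∃ y, A x y).card)
    (hS : 6 * k * Fintype.card V ≤ (Finset.univ.filter fun e : V × V => G.Adj e.1 e.2).card + S) :
    (Finset.univ.filter fun w : V => ¬ Good G k p col w).card ≤ 4 * S := by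
  set Bd : ℕ → Finset (V × V) := fun κ => Finset.univ.filter fun e : V × V =>
    ColAdj G col κ e.1 e.2 ∧ ¬ ∃ z, Tri p (ColAdj G col κ) e.1 e.2 z with hBd
  set D : ℕ → Finset (V × V) := fun κ => Finset.univ.filter fun e : V × V =>
    ColAdj G col κ e.1 e.2 with hD
  set N : ℕ → Finset V := fun κ => Finset.univ.filter fun x : V => ∃ y, ColAdj G col κ x y with hN
  set I : ℕ → Finset V := fun κ => Finset.univ.filter fun x : V => ¬ ∃ y, ColAdj G col κ x y with hI
  have h1 : ∀ κ, (Bd κ).card + 2 * (D κ).card ≤ 12 * (N κ).card := fun κ =>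
    plane_count _ (h.plane κ)
  have h2 : ∀ κ, (N κ).card + (I κ).card = Fintype.card V := by
    intro κ
    exact Finset.card_filter_add_card_filter_not _
  have h3 : (Finset.univ.filter fun e : V × V => G.Adj e.1 e.2).card =
      ∑ κ ∈ Finset.range k, (D κ).card := by
    rw [Finset.card_eq_sum_card_fiberwise (f := fun e : V × V => col s(e.1, e.2))
      (t := Finset.range k)]
    · apply Finset.sum_congr rfl
      intro κ _
      congr 1
      ext e
      simp only [Finset.mem_filter, Finset.mem_univ, true_and, hD, ColAdj]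
    · intro e he
      simp only [Finset.coe_filter, Finset.mem_univ, true_and, Set.mem_ofPred_eq] at he
      simp only [Finset.coe_range, Set.mem_Iio]
      exact h.lt _ _ he
  have h4 : (Finset.univ.filter fun w : V => ¬ Good G k p col w) ⊆
      (Finset.range k).biUnion fun κ => I κ ∪ (Bd κ).image Prod.fst ∪ (Bd κ).image Prod.snd := by
    intro w hw
    simp only [Finset.mem_filter, Finset.mem_univ, true_and] at hw
    simp only [Finset.mem_biUnion, Finset.mem_range, Finset.mem_union, Finset.mem_image]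
    unfold Good at hw
    push Not at hw
    obtain ⟨κ, hκ, hw⟩ := hw
    refine ⟨κ, hκ, ?_⟩
    by_cases hiso : ∃ l, ColAdj G col κ w l
    · obtain ⟨l, hl, hbad⟩ := hw hiso
      by_cases h5 : ∃ z, Tri p (ColAdj G col κ) w l z
      · right
        refine ⟨(l, w), ?_, rfl⟩
        simp only [hBd, Finset.mem_filter, Finset.mem_univ, true_and]
        exact ⟨(h.plane κ).symm _ _ hl, not_exists.2 (hbad h5)⟩
      · left; right
        refine ⟨(w, l), ?_, rfl⟩
        simp only [hBd, Finset.mem_filter, Finset.mem_univ, true_and]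
        exact ⟨hl, h5⟩
    · left; left
      simp only [hI, Finset.mem_filter, Finset.mem_univ, true_and]
      exact hiso
  have h5 : (Finset.univ.filter fun w : V => ¬ Good G k p col w).card ≤
      ∑ κ ∈ Finset.range k, ((I κ).card + 2 * (Bd κ).card) := by
    refine (Finset.card_le_card h4).trans (Finset.card_biUnion_le.trans ?_)
    apply Finset.sum_le_sum
    intro κ _
    have e1 := Finset.card_union_le (I κ ∪ (Bd κ).image Prod.fst) ((Bd κ).image Prod.snd)
    have e2 := Finset.card_union_le (I κ) ((Bd κ).image Prod.fst)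
    have e3 := Finset.card_image_le (s := Bd κ) (f := Prod.fst)
    have e4 := Finset.card_image_le (s := Bd κ) (f := Prod.snd)
    omega
  have h6 : ∑ κ ∈ Finset.range k, ((I κ).card + 2 * (Bd κ).card) + 4 *
      (∑ κ ∈ Finset.range k, (D κ).card) ≤ ∑ κ ∈ Finset.range k, 24 * Fintype.card V := by
    rw [Finset.mul_sum, ← Finset.sum_add_distrib]
    apply Finset.sum_le_sum
    intro κ _
    have e1 := h1 κ
    have e2 := h2 κ
    omega
  rw [Finset.sum_const, Finset.card_range, smul_eq_mul] at h6
  rw [h3] at hS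
  have h7 : 6 * k * Fintype.card V * 4 = k * (24 * Fintype.card V) := by ring
  omega

end Pool.Agent.Lib.MP_612bca_lc
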