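import Mathlib

/-!
# The key lemma of the gap theorems

Limits of polynomial expressions in critical points of a polynomial with coefficients in `ℤ[N]` are
roots of nonzero integer polynomials with small coefficients.
-/

namespace Pool.Agent.Lib.MP_612bca_lc
open Polynomial

/-- Submultiplicative seminorms with `f 1 ≤ 1`. -/
structure G1SN (R : Type*) [CommRing R] where
  f : R → ℝ
  zero : f 0 = 0
  nonneg : ∀ a, 0 ≤ f a
  add : ∀ a b, f (a + b) ≤ f a + f b
  neg : ∀ a, f (-a) = f a
  mul : ∀ a b, f (a * b) ≤ f a * f b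
  one : f 1 ≤ 1

namespace G1SN

variable {R : Type*} [CommRing R] (ν : G1SN R)

theorem sum {ι : Type*} (s : Finset ι) (g : ι → R) : ν.f (∑ i ∈ s, g i) ≤ ∑ i ∈ s, ν.f (g i) := by
  classical
  induction s using Finset.induction_on with
  | empty => simp [ν.zero]
  | insert a s ha ih =>
    rw [Finset.sum_insert ha, Finset.sum_insert ha]
    exact (ν.add _ _).trans (by linarith)

theorem prod {ι : Type*} (s : Finset ι) (g : ι → R) : ν.f (∏ i ∈ s, g i) ≤ ∏ i ∈ s, ν.f (g i) := by
  classical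
  induction s using Finset.induction_on with
  | empty => simp [ν.one]
  | insert a s ha ih =>
    rw [Finset.prod_insert ha, Finset.prod_insert ha]
    exact (ν.mul _ _).trans (mul_le_mul_of_nonneg_left ih (ν.nonneg _))

/-- l1 seminorm on polynomials. -/
noncomputable def l1 (p : R[X]) : ℝ := ∑ k ∈ p.support, ν.f (p.coeff k)

theorem l1_eq (p : R[X]) (s : Finset ℕ) (h : p.support ⊆ s) :
    ν.l1 p = ∑ k ∈ s, ν.f (p.coeff k) := by
  unfold l1
  apply Finset.sum_subset h
  intro k _ hk
  rw [Polynomial.notMem_support_iff.1 hk, ν.zero]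

theorem l1_nonneg (p : R[X]) : 0 ≤ ν.l1 p := Finset.sum_nonneg fun _ _ => ν.nonneg _

theorem l1_add (p q : R[X]) : ν.l1 (p + q) ≤ ν.l1 p + ν.l1 q := by
  classical
  rw [ν.l1_eq (p + q) (p.support ∪ q.support) Polynomial.support_add,
    ν.l1_eq p (p.support ∪ q.support) Finset.subset_union_left,
    ν.l1_eq q (p.support ∪ q.support) Finset.subset_union_right, ← Finset.sum_add_distrib]
  apply Finset.sum_le_sum
  intro k _
  rw [coeff_add]
  exact ν.add _ _

theorem l1_neg (p : R[X]) : ν.l1 (-p) = ν.l1 p := by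
  unfold l1
  rw [support_neg]
  apply Finset.sum_congr rfl
  intro k _
  rw [coeff_neg, ν.neg]

theorem l1_sum {ι : Type*} (s : Finset ι) (g : ι → R[X]) :
    ν.l1 (∑ i ∈ s, g i) ≤ ∑ i ∈ s, ν.l1 (g i) := by
  classical
  induction s using Finset.induction_on with
  | empty => simp [l1]
  | insert a s ha ih =>
    rw [Finset.sum_insert ha, Finset.sum_insert ha]
    exact (ν.l1_add _ _).trans (by linarith)

theorem l1_monomial_mul (k : ℕ) (a : R) (q : R[X]) :
    ν.l1 (monomial k a * q) ≤ ν.f a * ν.l1 q := by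
  classical
  have hs : (monomial k a * q).support ⊆ q.support.image (· + k) := by
    intro m hm
    rw [Polynomial.mem_support_iff] at hm
    rw [Finset.mem_image]
    by_cases hk : k ≤ m
    · refine ⟨m - k, ?_, by omega⟩
      rw [Polynomial.mem_support_iff]
      intro h0
      apply hm
      obtain ⟨j, rfl⟩ := Nat.exists_eq_add_of_le' hk
      rw [Polynomial.coeff_monomial_mul]
      simp only [Nat.add_sub_cancel] at h0
      rw [h0, mul_zero]
    · exfalso
      apply hm
      rw [← C_mul_X_pow_eq_monomial, mul_assoc, coeff_C_mul, coeff_X_pow_mul']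
      simp [hk]
  rw [ν.l1_eq _ _ hs, Finset.sum_image (by intro x _ y _ h; simpa using h)]
  unfold l1
  rw [Finset.mul_sum]
  apply Finset.sum_le_sum
  intro j _
  rw [Polynomial.coeff_monomial_mul]
  exact ν.mul _ _

theorem l1_mul (p q : R[X]) : ν.l1 (p * q) ≤ ν.l1 p * ν.l1 q := by
  conv_lhs => rw [p.as_sum_support]
  rw [Finset.sum_mul]
  refine (ν.l1_sum _ _).trans ?_
  unfold l1
  rw [Finset.sum_mul]
  apply Finset.sum_le_sum
  intro i _
  exact ν.l1_monomial_mul _ _ _

theorem l1_monomial (k : ℕ) (a : R) : ν.l1 (monomial k a) = ν.f a := by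
  rw [ν.l1_eq _ {k} (Polynomial.support_monomial_subset k a)]
  simp

/-- The l1 seminorm as a structure. -/
noncomputable def lift : G1SN R[X] where
  f := ν.l1
  zero := by simp [l1]
  nonneg := ν.l1_nonneg
  add := ν.l1_add
  neg := ν.l1_neg
  mul := ν.l1_mul
  one := by
    have := ν.l1_monomial 0 1
    rw [show (monomial 0 (1 : R)) = 1 from rfl] at this
    rw [this]
    exact ν.one

theorem coeff_le (p : R[X]) (k : ℕ) : ν.f (p.coeff k) ≤ ν.l1 p := by
  classical
  by_cases hk : k ∈ p.support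
  · exact Finset.single_le_sum (f := fun k => ν.f (p.coeff k)) (fun _ _ => ν.nonneg _) hk
  · rw [Polynomial.notMem_support_iff.1 hk, ν.zero]
    exact ν.l1_nonneg _

theorem det {m : Type*} [Fintype m] [DecidableEq m] (M : Matrix m m R) (B : ℝ)
    (hB : ∀ i, ∑ j, ν.f (M i j) ≤ B) : ν.f M.det ≤ B ^ Fintype.card m := by
  rw [← Matrix.det_transpose, Matrix.det_apply]
  have h1 : ν.f (∑ σ : Equiv.Perm m, Equiv.Perm.sign σ • ∏ i, M.transpose (σ i) i) ≤
      ∑ σ : Equiv.Perm m, ∏ i, ν.f (M i (σ i)) := by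
    refine (ν.sum _ _).trans (Finset.sum_le_sum fun σ _ => ?_)
    have : ν.f (Equiv.Perm.sign σ • ∏ i, M.transpose (σ i) i) = ν.f (∏ i, M.transpose (σ i) i) := by
      rcases Int.units_eq_one_or (Equiv.Perm.sign σ) with h | h
      · rw [h]; simp
      · rw [h]
        simp [ν.neg]
    rw [this]
    exact ν.prod _ _
  refine h1.trans ?_
  have h2 : ∑ σ : Equiv.Perm m, ∏ i, ν.f (M i (σ i)) ≤ ∑ g : m → m, ∏ i, ν.f (M i (g i)) := by
    rw [← Finset.sum_image (s := (Finset.univ : Finset (Equiv.Perm m))) (g := fun σ : Equiv.Perm m => (σ : m → m))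
      (f := fun g : m → m => ∏ i, ν.f (M i (g i)))]
    · apply Finset.sum_le_sum_of_subset_of_nonneg (Finset.subset_univ _)
      intro g _ _
      exact Finset.prod_nonneg fun _ _ => ν.nonneg _
    · intro σ _ τ _ h
      exact DFunLike.coe_injective h
  refine h2.trans ?_
  have h3 : ∑ g : m → m, ∏ i, ν.f (M i (g i)) = ∏ i, ∑ j, ν.f (M i j) := by
    rw [Finset.prod_univ_sum]
    simp [Fintype.piFinset_univ]
  rw [h3]
  refine (Finset.prod_le_prod (fun i _ => Finset.sum_nonneg fun _ _ => ν.nonneg _)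
    (fun i _ => hB i)).trans ?_
  simp

end G1SN

/-- Absolute value on `ℤ`. -/
noncomputable def g1abs : G1SN ℤ where
  f a := |(a : ℝ)|
  zero := by simp
  nonneg _ := abs_nonneg _
  add a b := by push_cast; exact abs_add_le _ _
  neg a := by push_cast; exact abs_neg _
  mul a b := by push_cast; exact (abs_mul _ _).le
  one := by simp

theorem g1_pow_le (p : ℤ[X]) (y H D : ℝ) (hH : g1abs.l1 p ≤ H) (hy : aeval y p = 0) (k : ℕ)
    (hk : k ∈ p.support) (hD : 0 ≤ D) (hDk : ∀ i ∈ p.support, i ≠ k → |y| ^ i ≤ D) :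
    |y| ^ k ≤ H * D := by
  classical
  have h1 : ∑ i ∈ p.support, (p.coeff i : ℝ) * y ^ i = 0 := by
    rw [← hy, aeval_eq_sum_range' (n := p.natDegree + 1) (by omega)]
    simp only [zsmul_eq_mul]
    apply Finset.sum_subset
    · intro i hi
      rw [Finset.mem_range]
      have := Polynomial.le_natDegree_of_mem_supp i hi
      omega
    · intro i _ hi
      rw [Polynomial.notMem_support_iff.1 hi]
      simp
  rw [← Finset.add_sum_erase _ _ hk] at h1
  have h2 : (p.coeff k : ℝ) * y ^ k = - ∑ i ∈ p.support.erase k, (p.coeff i : ℝ) * y ^ i := by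
    linarith
  have h3 : |(p.coeff k : ℝ) * y ^ k| ≤ ∑ i ∈ p.support.erase k, |(p.coeff i : ℝ)| * D := by
    rw [h2, abs_neg]
    refine (Finset.abs_sum_le_sum_abs _ _).trans (Finset.sum_le_sum fun i hi => ?_)
    rw [Finset.mem_erase] at hi
    rw [abs_mul, abs_pow]
    exact mul_le_mul_of_nonneg_left (hDk i hi.2 hi.1) (abs_nonneg _)
  have h4 : (1 : ℝ) ≤ |(p.coeff k : ℝ)| := by
    have : (1 : ℤ) ≤ |p.coeff k| := Int.one_le_abs (Polynomial.mem_support_iff.1 hk)
    exact_mod_cast this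
  rw [abs_mul, abs_pow, ← Finset.sum_mul] at h3
  have h5 : ∑ i ∈ p.support.erase k, |(p.coeff i : ℝ)| ≤ H := by
    refine le_trans ?_ hH
    unfold G1SN.l1
    exact Finset.sum_le_sum_of_subset_of_nonneg (Finset.erase_subset _ _)
      fun _ _ _ => abs_nonneg _
  have h6 : |y| ^ k ≤ |(p.coeff k : ℝ)| * |y| ^ k :=
    le_mul_of_one_le_left (by positivity) h4
  exact h6.trans (h3.trans (mul_le_mul_of_nonneg_right h5 hD))

theorem g1_one_le (p : ℤ[X]) (hp : p ≠ 0) : 1 ≤ g1abs.l1 p := by
  have h1 := g1abs.coeff_le p p.natDegree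
  refine le_trans ?_ h1
  have : (1 : ℤ) ≤ |p.coeff p.natDegree| := Int.one_le_abs (by simpa using hp)
  change (1 : ℝ) ≤ |(p.coeff p.natDegree : ℝ)|
  exact_mod_cast this

/-- Cauchy bounds. -/
theorem g1_root (p : ℤ[X]) (hp : p ≠ 0) (y H : ℝ) (hH : g1abs.l1 p ≤ H) (hy : aeval y p = 0) :
    |y| ≤ H ∧ (y ≠ 0 → 1 / H ≤ |y|) := by
  have hH1 : 1 ≤ H := (g1_one_le p hp).trans hH
  constructor
  · by_contra hcon
    push Not at hcon
    have hy1 : 1 < |y| := lt_of_le_of_lt hH1 hcon
    have hd : p.natDegree ≠ 0 := by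
      intro h0
      rw [Polynomial.natDegree_eq_zero] at h0
      obtain ⟨c, rfl⟩ := h0
      simp only [eq_intCast, map_intCast, Int.cast_eq_zero] at hy
      apply hp
      rw [hy]
      simp
    have h := g1_pow_le p y H (|y| ^ (p.natDegree - 1)) hH hy p.natDegree
      (Polynomial.natDegree_mem_support_of_nonzero hp) (by positivity) (by
        intro i hi hik
        apply pow_le_pow_right₀ hy1.le
        have := Polynomial.le_natDegree_of_mem_supp i hi
        omega)
    obtain ⟨d, hd'⟩ := Nat.exists_eq_succ_of_ne_zero hd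
    rw [hd', Nat.succ_sub_one, Nat.succ_eq_add_one, pow_succ, mul_comm] at h
    have hpos : 0 < |y| ^ d := by positivity
    have := le_of_mul_le_mul_right h hpos
    linarith
  · intro hy0
    rw [div_le_iff₀ (by linarith)]
    by_cases hy1 : 1 ≤ |y|
    · nlinarith
    push Not at hy1
    have hpos : 0 < |y| := abs_pos.2 hy0
    have h := g1_pow_le p y H (|y| ^ (p.natTrailingDegree + 1)) hH hy p.natTrailingDegree
      (Polynomial.natTrailingDegree_mem_support_of_nonzero hp) (by positivity) (by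
        intro i hi hik
        apply pow_le_pow_of_le_one hpos.le hy1.le
        have := Polynomial.natTrailingDegree_le_of_mem_supp i hi
        omega)
    rw [pow_succ] at h
    have hpos' : 0 < |y| ^ p.natTrailingDegree := by positivity
    have h' : 1 * |y| ^ p.natTrailingDegree ≤ (|y| * H) * |y| ^ p.natTrailingDegree := by
      rw [one_mul]; linarith
    exact le_of_mul_le_mul_right h' hpos'

/-- Reduction of monomials. -/
theorem g1_repr (n C : ℕ) (J : Fin n → Type) [∀ i, Fintype (J i)] (a : ∀ i, J i → ℤ)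
    (e : ∀ i, J i → ℕ) (γ : ∀ i, J i → Fin n → ℕ)
    (hγ : ∀ i j, ∑ s, γ i j s ≤ 3) (hC : ∀ i, ∑ j, |a i j| ≤ C) (hC1 : 1 ≤ C) (m : ℕ) :
    ∀ β : Fin n → ℕ, ∑ s, β s ≤ m → ∃ c : (Fin n → Fin 5) → ℤ[X],
      ∑ α, g1abs.l1 (c α) ≤ (C : ℝ) ^ m ∧
      ∀ (N : ℕ) (z : Fin n → ℝ),
        (∀ i, z i ^ 5 = ∑ j, (a i j : ℝ) * (N : ℝ) ^ e i j * ∏ s, z s ^ γ i j s) →
        ∏ s, z s ^ β s = ∑ α, aeval (N : ℝ) (c α) * ∏ s, z s ^ (α s : ℕ) := by
  classical
  have hC1' : (1 : ℝ) ≤ C := by exact_mod_cast hC1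
  have small : ∀ β : Fin n → ℕ, (∀ s, β s < 5) → ∀ m, ∃ c : (Fin n → Fin 5) → ℤ[X],
      ∑ α, g1abs.l1 (c α) ≤ (C : ℝ) ^ m ∧
      ∀ (N : ℕ) (z : Fin n → ℝ),
        (∀ i, z i ^ 5 = ∑ j, (a i j : ℝ) * (N : ℝ) ^ e i j * ∏ s, z s ^ γ i j s) →
        ∏ s, z s ^ β s = ∑ α, aeval (N : ℝ) (c α) * ∏ s, z s ^ (α s : ℕ) := by
    intro β hβ m
    refine ⟨fun α => if α = (fun s => ⟨β s, hβ s⟩) then 1 else 0, ?_, ?_⟩
    · rw [Finset.sum_eq_single (fun s => (⟨β s, hβ s⟩ : Fin 5))]
      · beta_reduce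
        rw [if_pos rfl]
        have h1 : g1abs.l1 (1 : ℤ[X]) ≤ 1 := g1abs.lift.one
        exact h1.trans (one_le_pow₀ hC1')
      · intro α _ hα
        beta_reduce
        rw [if_neg hα]
        simp [G1SN.l1]
      · intro h
        exact absurd (Finset.mem_univ _) h
    · intro N z _
      rw [Finset.sum_eq_single (fun s => (⟨β s, hβ s⟩ : Fin 5))]
      · simp
      · intro α _ hα
        beta_reduce
        rw [if_neg hα]
        simp
      · intro h
        exact absurd (Finset.mem_univ _) h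
  induction m with
  | zero =>
    intro β hβ
    apply small
    intro s
    have := Finset.single_le_sum (f := β) (fun _ _ => Nat.zero_le _) (Finset.mem_univ s)
    omega
  | succ m ih =>
    intro β hβ
    by_cases hs : ∀ s, β s < 5
    · exact small β hs _
    push Not at hs
    obtain ⟨i, hi⟩ := hs
    -- remove `z i ^ 5`
    set β' : Fin n → ℕ := fun s => if s = i then β s - 5 else β s with hβ'
    have hsum : ∑ s, β s = ∑ s, β' s + 5 := by
      rw [← Finset.add_sum_erase _ _ (Finset.mem_univ i),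
        ← Finset.add_sum_erase _ β' (Finset.mem_univ i)]
      have h1 : ∑ x ∈ Finset.univ.erase i, β x = ∑ x ∈ Finset.univ.erase i, β' x := by
        apply Finset.sum_congr rfl
        intro x hx
        rw [Finset.mem_erase] at hx
        simp [hβ', hx.1]
      have h2 : β' i = β i - 5 := by simp [hβ']
      omega
    have hred : ∀ j : J i, ∃ c : (Fin n → Fin 5) → ℤ[X],
      ∑ α, g1abs.l1 (c α) ≤ (C : ℝ) ^ m ∧
      ∀ (N : ℕ) (z : Fin n → ℝ),
        (∀ i, z i ^ 5 = ∑ j, (a i j : ℝ) * (N : ℝ) ^ e i j * ∏ s, z s ^ γ i j s) →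
        ∏ s, z s ^ (γ i j s + β' s) = ∑ α, aeval (N : ℝ) (c α) * ∏ s, z s ^ (α s : ℕ) := by
      intro j
      apply ih (fun s => γ i j s + β' s)
      rw [Finset.sum_add_distrib]
      have := hγ i j
      omega
    choose c hc1 hc2 using hred
    refine ⟨fun α => ∑ j, monomial (e i j) (a i j) * c j α, ?_, ?_⟩
    · calc ∑ α, g1abs.l1 (∑ j, monomial (e i j) (a i j) * c j α)
          ≤ ∑ α, ∑ j, |(a i j : ℝ)| * g1abs.l1 (c j α) := by
            apply Finset.sum_le_sum
            intro α _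
            refine (g1abs.l1_sum _ _).trans (Finset.sum_le_sum fun j _ => ?_)
            exact g1abs.l1_monomial_mul _ _ _
        _ = ∑ j, |(a i j : ℝ)| * ∑ α, g1abs.l1 (c j α) := by
            rw [Finset.sum_comm]
            apply Finset.sum_congr rfl
            intro j _
            rw [Finset.mul_sum]
        _ ≤ ∑ j, |(a i j : ℝ)| * (C : ℝ) ^ m := by
            apply Finset.sum_le_sum
            intro j _
            exact mul_le_mul_of_nonneg_left (hc1 j) (abs_nonneg _)
        _ = (∑ j, |(a i j : ℝ)|) * (C : ℝ) ^ m := by rw [Finset.sum_mul]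
        _ ≤ C * (C : ℝ) ^ m := by
            apply mul_le_mul_of_nonneg_right _ (by positivity)
            have := hC i
            exact_mod_cast this
        _ = (C : ℝ) ^ (m + 1) := by ring
    · intro N z hz
      have h1 : ∏ s, z s ^ β s = z i ^ 5 * ∏ s, z s ^ β' s := by
        rw [← Finset.mul_prod_erase _ _ (Finset.mem_univ i),
          ← Finset.mul_prod_erase _ (fun s => z s ^ β' s) (Finset.mem_univ i), ← mul_assoc]
        congr 1
        · have h2 : β' i = β i - 5 := by simp [hβ']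
          rw [h2, ← pow_add]
          congr 1
          omega
        · apply Finset.prod_congr rfl
          intro x hx
          rw [Finset.mem_erase] at hx
          simp [hβ', hx.1]
      rw [h1, hz i, Finset.sum_mul]
      calc ∑ j, (a i j : ℝ) * (N : ℝ) ^ e i j * (∏ s, z s ^ γ i j s) * ∏ s, z s ^ β' s
          = ∑ j, (a i j : ℝ) * (N : ℝ) ^ e i j *
              ∑ α, aeval (N : ℝ) (c j α) * ∏ s, z s ^ (α s : ℕ) := by
            apply Finset.sum_congr rfl
            intro j _
            rw [← hc2 j N z hz, mul_assoc, ← Finset.prod_mul_distrib]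
            congr 1
            apply Finset.prod_congr rfl
            intro s _
            rw [pow_add]
        _ = ∑ α, ∑ j, (a i j : ℝ) * (N : ℝ) ^ e i j *
              (aeval (N : ℝ) (c j α) * ∏ s, z s ^ (α s : ℕ)) := by
            rw [Finset.sum_comm]
            apply Finset.sum_congr rfl
            intro j _
            rw [Finset.mul_sum]
        _ = _ := by
            apply Finset.sum_congr rfl
            intro α _
            rw [map_sum, Finset.sum_mul]
            apply Finset.sum_congr rfl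
            intro j _
            rw [map_mul, aeval_monomial]
            simp only [algebraMap_int_eq, eq_intCast]
            ring

/-- The leading coefficient (with respect to the outer variable) vanishes at the limit. -/
theorem g1_limit (A : ℤ[X][X]) (q : ℕ → ℝ) (N : ℕ → ℕ) (y : ℝ)
    (hN : Filter.Tendsto N Filter.atTop Filter.atTop) (hq : Filter.Tendsto q Filter.atTop (nhds y))
    (h0 : ∀ t, ∑ k ∈ Finset.range (A.natDegree + 1), aeval (q t) (A.coeff k) * (N t : ℝ) ^ k = 0) :
    aeval y A.leadingCoeff = 0 := by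
  have hN' : Filter.Tendsto (fun t => (N t : ℝ)) Filter.atTop Filter.atTop :=
    tendsto_natCast_atTop_atTop.comp hN
  have hterm : ∀ k, Filter.Tendsto (fun t => aeval (q t) (A.coeff k)) Filter.atTop
      (nhds (aeval y (A.coeff k))) := fun k =>
    ((A.coeff k).continuous_aeval.tendsto y).comp hq
  have h1 : Filter.Tendsto (fun t => ∑ k ∈ Finset.range (A.natDegree + 1),
      aeval (q t) (A.coeff k) * ((N t : ℝ) ^ k / (N t : ℝ) ^ A.natDegree)) Filter.atTop
      (nhds (∑ k ∈ Finset.range (A.natDegree + 1),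
        aeval y (A.coeff k) * (if k = A.natDegree then 1 else 0))) := by
    apply tendsto_finsetSum
    intro k hk
    rw [Finset.mem_range] at hk
    apply (hterm k).mul
    by_cases hkd : k = A.natDegree
    · rw [if_pos hkd, hkd]
      apply tendsto_const_nhds.congr'
      filter_upwards [hN'.eventually_gt_atTop 0] with t ht
      rw [div_self (by positivity)]
    · rw [if_neg hkd]
      exact (tendsto_pow_div_pow_atTop_zero (by omega)).comp hN'
  have h2 : Filter.Tendsto (fun t => ∑ k ∈ Finset.range (A.natDegree + 1),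
      aeval (q t) (A.coeff k) * ((N t : ℝ) ^ k / (N t : ℝ) ^ A.natDegree)) Filter.atTop
      (nhds 0) := by
    apply tendsto_const_nhds.congr
    intro t
    have : ∑ k ∈ Finset.range (A.natDegree + 1),
      aeval (q t) (A.coeff k) * ((N t : ℝ) ^ k / (N t : ℝ) ^ A.natDegree) =
      (∑ k ∈ Finset.range (A.natDegree + 1), aeval (q t) (A.coeff k) * (N t : ℝ) ^ k) /
        (N t : ℝ) ^ A.natDegree := by
      rw [Finset.sum_div]
      apply Finset.sum_congr rfl
      intro k _
      ring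
    rw [this, h0 t, zero_div]
  have h3 := tendsto_nhds_unique h1 h2
  rw [Finset.sum_range_succ, Finset.sum_eq_zero, zero_add, if_pos rfl, mul_one] at h3
  · exact h3
  · intro k hk
    rw [Finset.mem_range] at hk
    rw [if_neg (by omega), mul_zero]

theorem g1_map (p : ℤ[X]) : g1abs.lift.l1 (p.map (C : ℤ →+* ℤ[X])) ≤ g1abs.l1 p := by
  rw [g1abs.lift.l1_eq _ p.support (Polynomial.support_map_subset _ _)]
  unfold G1SN.l1
  apply Finset.sum_le_sum
  intro k _
  rw [coeff_map]
  exact (g1abs.l1_monomial 0 _).le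

/-- Real numbers obtained as limits of polynomial expressions in critical points. -/
theorem key_lemma (n C : ℕ)
    (J : Fin n → Type) [∀ i, Fintype (J i)] (a : ∀ i, J i → ℤ) (e : ∀ i, J i → ℕ) (γ : ∀ i, J i → Fin n → ℕ)
    (hγ : ∀ i j, ∑ s, γ i j s ≤ 3) (hC : ∀ i, ∑ j, |a i j| ≤ C)
    (J' : Type) [Fintype J'] (b : J' → ℤ) (δ : J' → Fin n → ℕ) (hδ : ∀ j, ∑ s, δ j s ≤ 4) (hC' : ∑ j, |b j| ≤ C)
    (hC1 : 1 ≤ C)
    (z : ℕ → Fin n → ℝ) (N : ℕ → ℕ) (hN : Filter.Tendsto N Filter.atTop Filter.atTop)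
    (hz : ∀ t i, z t i ^ 5 = ∑ j, (a i j : ℝ) * (N t : ℝ) ^ e i j * ∏ s, z t s ^ γ i j s)
    (y : ℝ) (hy : Filter.Tendsto (fun t => ∑ j, (b j : ℝ) * ∏ s, z t s ^ δ j s) Filter.atTop (nhds y)) :
    |y| ≤ 2 * ((C : ℝ) + 1) ^ ((4 * n + 6) * 5 ^ n) ∧
      (y ≠ 0 → 1 / (2 * ((C : ℝ) + 1) ^ ((4 * n + 6) * 5 ^ n)) ≤ |y|) := by
  classical
  have hC1' : (1 : ℝ) ≤ C := by exact_mod_cast hC1
  -- reduction of `z ^ (δ j + α)`
  have hr : ∀ (j : J') (α : Fin n → Fin 5), ∃ c : (Fin n → Fin 5) → ℤ[X],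
      ∑ α, g1abs.l1 (c α) ≤ (C : ℝ) ^ (4 * n + 4) ∧
      ∀ (N : ℕ) (z : Fin n → ℝ),
        (∀ i, z i ^ 5 = ∑ j, (a i j : ℝ) * (N : ℝ) ^ e i j * ∏ s, z s ^ γ i j s) →
        ∏ s, z s ^ (δ j s + (α s : ℕ)) = ∑ α, aeval (N : ℝ) (c α) * ∏ s, z s ^ (α s : ℕ) := by
    intro j α
    apply g1_repr n C J a e γ hγ hC hC1 (4 * n + 4) (fun s => δ j s + (α s : ℕ))
    rw [Finset.sum_add_distrib]
    have h1 := hδ j
    have h2 : ∑ s, (α s : ℕ) ≤ ∑ _s : Fin n, 4 := by
      apply Finset.sum_le_sum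
      intro s _
      have := (α s).isLt
      omega
    simp only [Finset.sum_const, Finset.card_univ, Fintype.card_fin, smul_eq_mul] at h2
    omega
  choose c hc1 hc2 using hr
  -- the matrix of multiplication by `Q(z)`
  obtain ⟨M, hM⟩ : ∃ M : Matrix (Fin n → Fin 5) (Fin n → Fin 5) ℤ[X],
    ∀ α α', M α α' = ∑ j, monomial 0 (b j) * c j α α' := ⟨_, fun _ _ => rfl⟩
  have hMnorm : ∀ α, ∑ α', g1abs.l1 (M α α') ≤ (C : ℝ) ^ (4 * n + 5) := by
    intro α
    simp only [hM]
    calc ∑ α', g1abs.l1 (∑ j, monomial 0 (b j) * c j α α')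
        ≤ ∑ α', ∑ j, |(b j : ℝ)| * g1abs.l1 (c j α α') := by
          apply Finset.sum_le_sum
          intro α' _
          refine (g1abs.l1_sum _ _).trans (Finset.sum_le_sum fun j _ => ?_)
          exact g1abs.l1_monomial_mul _ _ _
      _ = ∑ j, |(b j : ℝ)| * ∑ α', g1abs.l1 (c j α α') := by
          rw [Finset.sum_comm]
          apply Finset.sum_congr rfl
          intro j _
          rw [Finset.mul_sum]
      _ ≤ ∑ j, |(b j : ℝ)| * (C : ℝ) ^ (4 * n + 4) := by
          apply Finset.sum_le_sum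
          intro j _
          exact mul_le_mul_of_nonneg_left (hc1 j α) (abs_nonneg _)
      _ = (∑ j, |(b j : ℝ)|) * (C : ℝ) ^ (4 * n + 4) := by rw [Finset.sum_mul]
      _ ≤ C * (C : ℝ) ^ (4 * n + 4) := by
          apply mul_le_mul_of_nonneg_right _ (by positivity)
          exact_mod_cast hC'
      _ = (C : ℝ) ^ (4 * n + 5) := by ring
  have hMmul : ∀ t α, (∑ j, (b j : ℝ) * ∏ s, z t s ^ δ j s) * ∏ s, z t s ^ (α s : ℕ) =
      ∑ α', aeval (N t : ℝ) (M α α') * ∏ s, z t s ^ (α' s : ℕ) := by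
    intro t α
    calc (∑ j, (b j : ℝ) * ∏ s, z t s ^ δ j s) * ∏ s, z t s ^ (α s : ℕ)
        = ∑ j, (b j : ℝ) * ∏ s, z t s ^ (δ j s + (α s : ℕ)) := by
          rw [Finset.sum_mul]
          apply Finset.sum_congr rfl
          intro j _
          rw [mul_assoc, ← Finset.prod_mul_distrib]
          congr 1
          apply Finset.prod_congr rfl
          intro s _
          rw [pow_add]
      _ = ∑ j, ∑ α', (b j : ℝ) * (aeval (N t : ℝ) (c j α α') * ∏ s, z t s ^ (α' s : ℕ)) := by
          apply Finset.sum_congr rfl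
          intro j _
          rw [hc2 j α (N t) (z t) (hz t), Finset.mul_sum]
      _ = _ := by
          rw [Finset.sum_comm]
          apply Finset.sum_congr rfl
          intro α' _
          rw [hM, map_sum, Finset.sum_mul]
          apply Finset.sum_congr rfl
          intro j _
          rw [map_mul, aeval_monomial]
          simp only [algebraMap_int_eq, eq_intCast, pow_zero, mul_one]
          ring
  -- the bivariate polynomial
  obtain ⟨P, hP⟩ : ∃ P : Matrix (Fin n → Fin 5) (Fin n → Fin 5) ℤ[X][X],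
    ∀ α α', P α α' = (if α = α' then monomial 0 (X : ℤ[X]) else 0) -
      (M α α').map (Polynomial.C : ℤ →+* ℤ[X]) := ⟨_, fun _ _ => rfl⟩
  have hPnorm : ∀ α, ∑ α', g1abs.lift.l1 (P α α') ≤ ((C : ℝ) + 1) ^ (4 * n + 5) := by
    intro α
    have h1 : ∀ α', g1abs.lift.l1 (P α α') ≤ (if α = α' then 1 else 0) + g1abs.l1 (M α α') := by
      intro α'
      rw [hP, sub_eq_add_neg]
      refine (g1abs.lift.l1_add _ _).trans ?_
      rw [g1abs.lift.l1_neg]
      apply add_le_add _ (g1_map _)
      by_cases h : α = α'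
      · rw [if_pos h, if_pos h, g1abs.lift.l1_monomial]
        change g1abs.l1 X ≤ 1
        rw [← monomial_one_one_eq_X, g1abs.l1_monomial]
        exact g1abs.one
      · rw [if_neg h, if_neg h]
        simp [G1SN.l1]
    refine (Finset.sum_le_sum fun α' _ => h1 α').trans ?_
    rw [Finset.sum_add_distrib, Finset.sum_ite_eq, if_pos (Finset.mem_univ _)]
    have h2 := hMnorm α
    have h3 : 1 + (C : ℝ) ^ (4 * n + 5) ≤ ((C : ℝ) + 1) ^ (4 * n + 5) := by
      have h4 : 1 + (C : ℝ) ^ (4 * n + 5) = 1 ^ (4 * n + 5) + (C : ℝ) ^ (4 * n + 5) := by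
        rw [one_pow]
      rw [h4, add_comm (1 ^ (4 * n + 5))]
      exact pow_add_pow_le (by positivity) zero_le_one (by omega)
    linarith
  have hcard : Fintype.card (Fin n → Fin 5) = 5 ^ n := by simp
  have hdet : g1abs.lift.l1 P.det ≤ ((C : ℝ) + 1) ^ ((4 * n + 5) * 5 ^ n) := by
    have h1 := g1abs.lift.lift.det P (((C : ℝ) + 1) ^ (4 * n + 5)) hPnorm
    rw [hcard, ← pow_mul] at h1
    exact h1
  -- it is nonzero
  have hne : P.det ≠ 0 := by
    intro h0
    have h1 : (Polynomial.evalRingHom (0 : ℤ[X])) P.det = 0 := by rw [h0, map_zero]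
    rw [RingHom.map_det] at h1
    have h2 : (Polynomial.evalRingHom (0 : ℤ[X])).mapMatrix P =
        (Matrix.of fun α α' => (M α α').coeff 0).charmatrix := by
      ext1 α α'
      rw [RingHom.mapMatrix_apply, Matrix.map_apply, Matrix.charmatrix_apply, hP]
      simp only [coe_evalRingHom, eval_sub, Matrix.of_apply, Matrix.diagonal_apply]
      congr 1
      · split_ifs
        · simp
        · simp
      · rw [← coeff_zero_eq_eval_zero, coeff_map]
    rw [h2] at h1
    have h3 := Matrix.charpoly_monic (Matrix.of fun α α' => (M α α').coeff 0)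
    rw [Matrix.charpoly, h1] at h3
    exact h3.ne_zero rfl
  -- it vanishes
  have hvan : ∀ t, ∑ k ∈ Finset.range (P.det.natDegree + 1),
      aeval (∑ j, (b j : ℝ) * ∏ s, z t s ^ δ j s) (P.det.coeff k) * (N t : ℝ) ^ k = 0 := by
    intro t
    set q : ℝ := ∑ j, (b j : ℝ) * ∏ s, z t s ^ δ j s with hq
    have h1 : ∑ k ∈ Finset.range (P.det.natDegree + 1), aeval q (P.det.coeff k) * (N t : ℝ) ^ k =
        eval₂RingHom ((aeval q : ℤ[X] →ₐ[ℤ] ℝ) : ℤ[X] →+* ℝ) (N t : ℝ) P.det := by
      rw [coe_eval₂RingHom, eval₂_eq_sum_range]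
      rfl
    rw [h1, RingHom.map_det]
    apply Matrix.exists_mulVec_eq_zero_iff.1
    refine ⟨fun α => ∏ s, z t s ^ (α s : ℕ), ?_, ?_⟩
    · intro h
      have := congrFun h (fun _ => 0)
      simp at this
    · ext1 α
      rw [Matrix.mulVec, dotProduct]
      have h2 : ∀ α', ((eval₂RingHom ((aeval q : ℤ[X] →ₐ[ℤ] ℝ) : ℤ[X] →+* ℝ) (N t : ℝ)).mapMatrix P) α α' =
          (if α = α' then q else 0) - aeval (N t : ℝ) (M α α') := by
        intro α'
        rw [RingHom.mapMatrix_apply, Matrix.map_apply, hP]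
        simp only [map_sub]
        congr 1
        · split_ifs
          · simp
          · simp
        · rw [coe_eval₂RingHom, eval₂_map, aeval_def]
          congr 1
          ext1 x
          simp
      simp only [h2, Pi.zero_apply, sub_mul, Finset.sum_sub_distrib]
      rw [← hMmul t α, ← hq]
      simp
  have hroot := g1_limit P.det _ N y hN hy hvan
  have hlead : P.det.leadingCoeff ≠ 0 := by
    rwa [Ne, Polynomial.leadingCoeff_eq_zero]
  have hnorm : g1abs.l1 P.det.leadingCoeff ≤ 2 * ((C : ℝ) + 1) ^ ((4 * n + 6) * 5 ^ n) := by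
    have h1 : g1abs.l1 P.det.leadingCoeff ≤ g1abs.lift.l1 P.det :=
      g1abs.lift.coeff_le P.det P.det.natDegree
    have h2 : ((C : ℝ) + 1) ^ ((4 * n + 5) * 5 ^ n) ≤ ((C : ℝ) + 1) ^ ((4 * n + 6) * 5 ^ n) := by
      apply pow_le_pow_right₀ (by linarith)
      apply Nat.mul_le_mul_right
      omega
    have h3 : 0 ≤ ((C : ℝ) + 1) ^ ((4 * n + 6) * 5 ^ n) := by positivity
    linarith
  exact g1_root P.det.leadingCoeff hlead y _ hnorm hroot

end Pool.Agent.Lib.MP_612bca_lc
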