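import Pool.Agent.Lib.MP_612bca_lc.LocalDefs

/-!
# Completeness of the groups of points
-/

namespace Pool.Agent.Lib.MP_612bca_lc

namespace GroupsC

/-- Order of two points in class `c`. -/
def Ord (K : ℕ) (V : ℕ → ℝ) (c : ℕ) (p p' : ℝ × ℝ) : Prop :=
  if c = K + 1 then p'.1 < p.1 else p.2 - V c * p.1 < p'.2 - V c * p'.1

/-- Closeness. -/
def Cl (η : ℝ) (P : Pnt) (p : ℝ × ℝ) : Prop := |p.1 - P.X| < η ∧ |p.2 - P.Y| < η

/-- Realization of a group. -/
def Rz (K : ℕ) (V : ℕ → ℝ) (η : ℝ) (g : List Pnt) (q : ℕ → ℝ × ℝ) : Prop :=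
  ∀ i < g.length, Cl η (g.getD i ⟨0, 0, []⟩) (q i) ∧ ∀ i' < g.length, ∀ c ≤ K + 1,
    (g.getD i ⟨0, 0, []⟩).Before K c (g.getD i' ⟨0, 0, []⟩) → Ord K V c (q i) (q i')

/-- The tie condition for two points. -/
def Tie (K : ℕ) (V : ℕ → ℝ) (P P' : Pnt) (p p' : ℝ × ℝ) : Prop :=
  ∀ c ≤ K + 1, P.lev K c = P'.lev K c → c ∉ P.sec → c ∈ P'.sec → Ord K V c p p'

variable {K : ℕ} {V : ℕ → ℝ} {η : ℝ}

theorem ord_of_lt {c : ℕ} {P P' : Pnt} {p p' : ℝ × ℝ} (hη0 : 0 < η)
    (hη : η * (4 * (K + 4)) ≤ 1) (hV : ∀ c ≤ K, |V c - c| < η) (hX : P.X ≤ 2) (hX' : P'.X ≤ 2)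
    (h : Cl η P p) (h' : Cl η P' p') (hc : c ≤ K + 1) (hlt : P.lev K c < P'.lev K c) :
    Ord K V c p p' := by
  have hη2 : η * 16 ≤ 1 := by
    have : (0 : ℝ) ≤ K := Nat.cast_nonneg K
    nlinarith
  unfold Ord
  unfold Pnt.lev at hlt
  obtain ⟨h1, h2⟩ := h
  obtain ⟨h1', h2'⟩ := h'
  split_ifs at hlt ⊢ with hcK
  · have h3 : (P'.X : ℝ) + 1 ≤ P.X := by
      have : P'.X + 1 ≤ P.X := by omega
      exact_mod_cast this
    rw [abs_lt] at h1 h1'
    linarith
  · have hcK' : c ≤ K := by omega
    have h3 : (P.Y : ℝ) - c * P.X + 1 ≤ P'.Y - c * P'.X := by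
      have : (P.Y : ℤ) - c * P.X + 1 ≤ P'.Y - c * P'.X := by omega
      exact_mod_cast this
    have key : ∀ (Q : Pnt) (q : ℝ × ℝ), Q.X ≤ 2 → |q.1 - Q.X| < η → |q.2 - Q.Y| < η →
        |(q.2 - V c * q.1) - (Q.Y - c * Q.X)| ≤ (K + 4) * η := by
      intro Q q hQ hq1 hq2
      have e : (q.2 - V c * q.1) - (Q.Y - c * Q.X) =
          (q.2 - Q.Y) + (-(c : ℝ) * (q.1 - Q.X)) + (-(V c - c) * Q.X) +
            (-(V c - c) * (q.1 - Q.X)) := by ring
      have hv := hV c hcK'
      have hQ' : (Q.X : ℝ) ≤ 2 := by exact_mod_cast hQ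
      have hQ0 : (0 : ℝ) ≤ Q.X := Nat.cast_nonneg _
      have hcr : (c : ℝ) ≤ K := by exact_mod_cast hcK'
      have hc0 : (0 : ℝ) ≤ c := Nat.cast_nonneg _
      have hK0 : (0 : ℝ) ≤ K := Nat.cast_nonneg _
      have b1 : |-(c : ℝ) * (q.1 - Q.X)| ≤ K * η := by
        rw [abs_mul, abs_neg, abs_of_nonneg hc0]
        exact mul_le_mul hcr hq1.le (abs_nonneg _) hK0
      have b2 : |-(V c - c) * (Q.X : ℝ)| ≤ η * 2 := by
        rw [abs_mul, abs_neg, abs_of_nonneg hQ0]
        exact mul_le_mul hv.le hQ' hQ0 hη0.le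
      have b3 : |-(V c - c) * (q.1 - Q.X)| ≤ η * 1 := by
        rw [abs_mul, abs_neg]
        exact mul_le_mul hv.le (by linarith) (abs_nonneg _) hη0.le
      rw [e]
      refine (abs_add_le _ _).trans ?_
      refine (add_le_add (abs_add_le _ _) b3).trans ?_
      refine (add_le_add (add_le_add (abs_add_le _ _) b2) le_rfl).trans ?_
      linarith
    have k1 := key P p hX h1 h2
    have k2 := key P' p' hX' h1' h2'
    rw [abs_le] at k1 k2
    have : 2 * ((K + 4) * η) < 1 := by
      have : (0 : ℝ) ≤ K := Nat.cast_nonneg K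
      nlinarith
    linarith

theorem ord_of_before {c : ℕ} {P P' : Pnt} {p p' : ℝ × ℝ} (hη0 : 0 < η)
    (hη : η * (4 * (K + 4)) ≤ 1) (hV : ∀ c ≤ K, |V c - c| < η) (hX : P.X ≤ 2) (hX' : P'.X ≤ 2)
    (h : Cl η P p) (h' : Cl η P' p') (hc : c ≤ K + 1) (ht : Tie K V P P' p p')
    (hb : P.Before K c P') : Ord K V c p p' := by
  rcases hb with hb | ⟨h1, h2, h3⟩
  · exact ord_of_lt hη0 hη hV hX hX' h h' hc hb
  · exact ht c hc h1 h2 h3

theorem not_before_self {c : ℕ} {P : Pnt} : ¬ P.Before K c P := by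
  rintro (h | ⟨-, h, h'⟩)
  · exact lt_irrefl _ h
  · exact h h'

/-- Two points. -/
theorem rz2 {P0 P1 : Pnt} {p0 p1 : ℝ × ℝ} (hη0 : 0 < η)
    (hη : η * (4 * (K + 4)) ≤ 1) (hV : ∀ c ≤ K, |V c - c| < η)
    (hX0 : P0.X ≤ 2) (hX1 : P1.X ≤ 2) (h0 : Cl η P0 p0) (h1 : Cl η P1 p1)
    (t01 : Tie K V P0 P1 p0 p1) (t10 : Tie K V P1 P0 p1 p0) :
    ∃ q, Rz K V η [P0, P1] q := by
  refine ⟨fun i => if i = 0 then p0 else p1, ?_⟩
  intro i hi
  simp only [List.length_cons, List.length_nil] at hi
  interval_cases i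
  · refine ⟨by simpa using h0, ?_⟩
    intro i' hi' c hc hb
    simp only [List.length_cons, List.length_nil] at hi'
    interval_cases i'
    · exact absurd hb not_before_self
    · exact ord_of_before hη0 hη hV hX0 hX1 h0 h1 hc t01 hb
  · refine ⟨by simpa using h1, ?_⟩
    intro i' hi' c hc hb
    simp only [List.length_cons, List.length_nil] at hi'
    interval_cases i'
    · exact ord_of_before hη0 hη hV hX1 hX0 h1 h0 hc t10 hb
    · exact absurd hb not_before_self

/-- Four points. -/
theorem rz4 {P0 P1 P2 P3 : Pnt} {p0 p1 p2 p3 : ℝ × ℝ} (hη0 : 0 < η)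
    (hη : η * (4 * (K + 4)) ≤ 1) (hV : ∀ c ≤ K, |V c - c| < η)
    (hX0 : P0.X ≤ 2) (hX1 : P1.X ≤ 2) (hX2 : P2.X ≤ 2) (hX3 : P3.X ≤ 2)
    (h0 : Cl η P0 p0) (h1 : Cl η P1 p1) (h2 : Cl η P2 p2) (h3 : Cl η P3 p3)
    (t01 : Tie K V P0 P1 p0 p1) (t02 : Tie K V P0 P2 p0 p2) (t03 : Tie K V P0 P3 p0 p3)
    (t10 : Tie K V P1 P0 p1 p0) (t12 : Tie K V P1 P2 p1 p2) (t13 : Tie K V P1 P3 p1 p3)
    (t20 : Tie K V P2 P0 p2 p0) (t21 : Tie K V P2 P1 p2 p1) (t23 : Tie K V P2 P3 p2 p3)
    (t30 : Tie K V P3 P0 p3 p0) (t31 : Tie K V P3 P1 p3 p1) (t32 : Tie K V P3 P2 p3 p2) :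
    ∃ q, Rz K V η [P0, P1, P2, P3] q := by
  refine ⟨fun i => if i = 0 then p0 else if i = 1 then p1 else if i = 2 then p2 else p3, ?_⟩
  intro i hi
  simp only [List.length_cons, List.length_nil] at hi
  interval_cases i
  · refine ⟨by simpa using h0, ?_⟩
    intro i' hi' c hc hb
    simp only [List.length_cons, List.length_nil] at hi'
    interval_cases i'
    · exact absurd hb not_before_self
    · exact ord_of_before hη0 hη hV hX0 hX1 h0 h1 hc t01 hb
    · exact ord_of_before hη0 hη hV hX0 hX2 h0 h2 hc t02 hb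
    · exact ord_of_before hη0 hη hV hX0 hX3 h0 h3 hc t03 hb
  · refine ⟨by simpa using h1, ?_⟩
    intro i' hi' c hc hb
    simp only [List.length_cons, List.length_nil] at hi'
    interval_cases i'
    · exact ord_of_before hη0 hη hV hX1 hX0 h1 h0 hc t10 hb
    · exact absurd hb not_before_self
    · exact ord_of_before hη0 hη hV hX1 hX2 h1 h2 hc t12 hb
    · exact ord_of_before hη0 hη hV hX1 hX3 h1 h3 hc t13 hb
  · refine ⟨by simpa using h2, ?_⟩
    intro i' hi' c hc hb
    simp only [List.length_cons, List.length_nil] at hi'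
    interval_cases i'
    · exact ord_of_before hη0 hη hV hX2 hX0 h2 h0 hc t20 hb
    · exact ord_of_before hη0 hη hV hX2 hX1 h2 h1 hc t21 hb
    · exact absurd hb not_before_self
    · exact ord_of_before hη0 hη hV hX2 hX3 h2 h3 hc t23 hb
  · refine ⟨by simpa using h3, ?_⟩
    intro i' hi' c hc hb
    simp only [List.length_cons, List.length_nil] at hi'
    interval_cases i'
    · exact ord_of_before hη0 hη hV hX3 hX0 h3 h0 hc t30 hb
    · exact ord_of_before hη0 hη hV hX3 hX1 h3 h1 hc t31 hb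
    · exact ord_of_before hη0 hη hV hX3 hX2 h3 h2 hc t32 hb
    · exact absurd hb not_before_self

theorem rz_base (hη0 : 0 < η) (hη : η * (4 * (K + 4)) ≤ 1) (hV : ∀ c ≤ K, |V c - c| < η) :
    ∃ q, Rz K V η [⟨1, 0, []⟩, ⟨0, 1, []⟩] q := by
  refine rz2 (p0 := (1, 0)) (p1 := (0, 1)) hη0 hη hV (by simp) (by simp) ?_ ?_ ?_ ?_
  · constructor <;> simpa using hη0
  · constructor <;> simpa using hη0
  · intro c _ _ _ h
    simp at h
  · intro c _ _ _ h
    simp at h

theorem rz_dir (hη0 : 0 < η) (hη : η * (4 * (K + 4)) ≤ 1) (hV : ∀ c ≤ K, |V c - c| < η)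
    (c : ℕ) : ∃ q, Rz K V η [⟨0, 0, []⟩, ⟨2, 2 * c + 1, []⟩] q := by
  refine rz2 (p0 := (0, 0)) (p1 := (2, 2 * c + 1)) hη0 hη hV (by simp) (by simp) ?_ ?_ ?_ ?_
  · constructor <;> simpa using hη0
  · constructor <;> simpa using hη0
  · intro c _ _ _ h
    simp at h
  · intro c _ _ _ h
    simp at h

theorem ord_inf {p p' : ℝ × ℝ} (h : p'.1 < p.1) : Ord K V (K + 1) p p' := by
  unfold Ord
  rw [if_pos rfl]
  exact h

theorem ord_fin {c : ℕ} {p p' : ℝ × ℝ} (hc : c ≤ K)
    (h : p.2 - V c * p.1 < p'.2 - V c * p'.1) : Ord K V c p p' := by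
  unfold Ord
  rw [if_neg (by omega)]
  exact h

theorem rz_add1 {d : ℝ} (hη0 : 0 < η) (hη : η * (4 * (K + 4)) ≤ 1) (hd0 : 0 < d)
    (hd : d * (8 * K + 20) ≤ η) (hV : ∀ c ≤ K, |V c - c| < d) {e f n : ℕ} (hn : 1 ≤ n)
    (hef : e + n < f) (hf : f + n ≤ K) (h : V (e + n) - V e < V (f + n) - V f) :
    ∃ q, Rz K V η [⟨0, 0, [f + n]⟩, ⟨0, n, [K + 1, e]⟩, ⟨1, e + n, [e + n]⟩,
      ⟨1, f + n, [K + 1, f]⟩] q := by
  have hK0 : (0 : ℝ) ≤ K := Nat.cast_nonneg K
  have hdη : d * 20 ≤ η := by nlinarith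
  have hη1 : η * 16 ≤ 1 := by nlinarith
  have hVη : ∀ c ≤ K, |V c - c| < η := fun c hc => (hV c hc).trans_le (by linarith)
  obtain ⟨t, ht⟩ : ∃ t, t = (V (f + n) + V e - V (e + n) - V f) / 4 := ⟨_, rfl⟩
  have ht0 : 0 < t := by rw [ht]; linarith
  have v1 := abs_lt.1 (hV e (by omega))
  have v2 := abs_lt.1 (hV f (by omega))
  have v3 := abs_lt.1 (hV (e + n) (by omega))
  have v4 := abs_lt.1 (hV (f + n) (by omega))
  push_cast at v3 v4
  have htd : t < d := by rw [ht]; linarith
  obtain ⟨ε, hε⟩ : ∃ ε, ε = t / (K + 2) := ⟨_, rfl⟩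
  have hε0 : 0 < ε := by rw [hε]; positivity
  have hεt : ε * (K + 2) = t := by
    rw [hε]; field_simp
  have hεd : ε < d := by nlinarith
  have hb : ∀ c ≤ K, |V c * ε| < t := by
    intro c hc
    have h1 : |V c| ≤ K + 1 := by
      have h2 := abs_lt.1 (hV c hc)
      have h3 : (c : ℝ) ≤ K := by exact_mod_cast hc
      have h4 : (0 : ℝ) ≤ c := Nat.cast_nonneg c
      rw [abs_le]
      constructor <;> linarith
    rw [abs_mul, abs_of_pos hε0]
    have : |V c| * ε ≤ (K + 1) * ε := mul_le_mul_of_nonneg_right h1 hε0.le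
    linarith
  have w1 := abs_lt.1 (hb (f + n) hf)
  have w2 := abs_lt.1 (hb e (by omega))
  have w3 := abs_lt.1 (hb f (by omega))
  refine rz4 (p0 := (0, 0)) (p1 := (-ε, V (f + n) - V f - 2 * t)) (p2 := (1, V (e + n) + t))
    (p3 := (1 - ε, V (f + n) - t)) hη0 hη hVη (by simp) (by simp) (by simp) (by simp)
    ?_ ?_ ?_ ?_ ?_ ?_ ?_ ?_ ?_ ?_ ?_ ?_ ?_ ?_ ?_ ?_
  · constructor <;> simpa using hη0
  · constructor
    · simp only [Nat.cast_zero, sub_zero, abs_neg]
      rw [abs_of_pos hε0]
      linarith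
    · simp only
      rw [abs_lt]
      constructor <;> linarith
  · constructor
    · simpa using hη0
    · simp only
      push_cast
      rw [abs_lt]
      constructor <;> linarith
  · constructor
    · simp only [Nat.cast_one]
      rw [abs_lt]
      constructor <;> linarith
    · simp only
      push_cast
      rw [abs_lt]
      constructor <;> linarith
  -- A, B
  · intro c hc hl _ h2
    simp only [List.mem_cons, List.not_mem_nil, or_false] at h2
    rcases h2 with rfl | rfl
    · exact ord_inf (by simpa using hε0)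
    · exfalso
      unfold Pnt.lev at hl
      rw [if_neg (by omega), if_neg (by omega)] at hl
      simp at hl
      omega
  -- A, C
  · intro c hc hl _ h2
    simp only [List.mem_cons, List.not_mem_nil, or_false] at h2
    subst h2
    refine ord_fin (by omega) ?_
    simp only
    linarith
  -- A, D
  · intro c hc hl _ h2
    exfalso
    simp only [List.mem_cons, List.not_mem_nil, or_false] at h2
    rcases h2 with rfl | rfl
    · unfold Pnt.lev at hl
      rw [if_pos rfl, if_pos rfl] at hl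
      simp at hl
    · unfold Pnt.lev at hl
      rw [if_neg (by omega), if_neg (by omega)] at hl
      simp at hl
      omega
  -- B, A
  · intro c hc hl _ h2
    exfalso
    simp only [List.mem_cons, List.not_mem_nil, or_false] at h2
    subst h2
    unfold Pnt.lev at hl
    rw [if_neg (by omega), if_neg (by omega)] at hl
    simp at hl
    omega
  -- B, C
  · intro c hc hl _ h2
    exfalso
    simp only [List.mem_cons, List.not_mem_nil, or_false] at h2
    subst h2
    unfold Pnt.lev at hl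
    rw [if_neg (by omega), if_neg (by omega)] at hl
    simp at hl
    omega
  -- B, D
  · intro c hc hl _ h2
    simp only [List.mem_cons, List.not_mem_nil, or_false] at h2
    rcases h2 with rfl | rfl
    · exfalso
      unfold Pnt.lev at hl
      rw [if_pos rfl, if_pos rfl] at hl
      simp at hl
    · refine ord_fin (by omega) ?_
      simp only
      linarith
  -- C, A
  · intro c hc hl _ h2
    exfalso
    simp only [List.mem_cons, List.not_mem_nil, or_false] at h2
    subst h2
    unfold Pnt.lev at hl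
    rw [if_neg (by omega), if_neg (by omega)] at hl
    simp at hl
    omega
  -- C, B
  · intro c hc hl _ h2
    simp only [List.mem_cons, List.not_mem_nil, or_false] at h2
    rcases h2 with rfl | rfl
    · exfalso
      unfold Pnt.lev at hl
      rw [if_pos rfl, if_pos rfl] at hl
      simp at hl
    · refine ord_fin (by omega) ?_
      simp only
      linarith
  -- C, D
  · intro c hc hl _ h2
    simp only [List.mem_cons, List.not_mem_nil, or_false] at h2
    rcases h2 with rfl | rfl
    · exact ord_inf (by simpa using hε0)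
    · exfalso
      unfold Pnt.lev at hl
      rw [if_neg (by omega), if_neg (by omega)] at hl
      push_cast at hl
      omega
  -- D, A
  · intro c hc hl _ h2
    simp only [List.mem_cons, List.not_mem_nil, or_false] at h2
    subst h2
    refine ord_fin (by omega) ?_
    simp only
    linarith
  -- D, B
  · intro c hc hl _ h2
    exfalso
    simp only [List.mem_cons, List.not_mem_nil, or_false] at h2
    rcases h2 with rfl | rfl
    · unfold Pnt.lev at hl
      rw [if_pos rfl, if_pos rfl] at hl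
      simp at hl
    · unfold Pnt.lev at hl
      rw [if_neg (by omega), if_neg (by omega)] at hl
      push_cast at hl
      omega
  -- D, C
  · intro c hc hl _ h2
    exfalso
    simp only [List.mem_cons, List.not_mem_nil, or_false] at h2
    subst h2
    unfold Pnt.lev at hl
    rw [if_neg (by omega), if_neg (by omega)] at hl
    push_cast at hl
    omega

theorem rz_add2 {d : ℝ} (hη0 : 0 < η) (hη : η * (4 * (K + 4)) ≤ 1) (hd0 : 0 < d)
    (hd : d * (8 * K + 20) ≤ η) (hV : ∀ c ≤ K, |V c - c| < d) {e f n : ℕ} (hn : 1 ≤ n)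
    (hef : f + n < e) (hf : e + n ≤ K) (h : V (e + n) - V e < V (f + n) - V f) :
    ∃ q, Rz K V η [⟨0, 0, [K + 1, f + n]⟩, ⟨0, n, [e]⟩, ⟨1, f + n, [K + 1, f]⟩,
      ⟨1, e + n, [e + n]⟩] q := by
  have hK0 : (0 : ℝ) ≤ K := Nat.cast_nonneg K
  have hdη : d * 20 ≤ η := by nlinarith
  have hη1 : η * 16 ≤ 1 := by nlinarith
  have hVη : ∀ c ≤ K, |V c - c| < η := fun c hc => (hV c hc).trans_le (by linarith)
  obtain ⟨t, ht⟩ : ∃ t, t = (V (f + n) + V e - V (e + n) - V f) / 4 := ⟨_, rfl⟩
  have ht0 : 0 < t := by rw [ht]; linarith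
  have v1 := abs_lt.1 (hV e (by omega))
  have v2 := abs_lt.1 (hV f (by omega))
  have v3 := abs_lt.1 (hV (e + n) (by omega))
  have v4 := abs_lt.1 (hV (f + n) (by omega))
  push_cast at v3 v4
  have htd : t < d := by rw [ht]; linarith
  obtain ⟨ε, hε⟩ : ∃ ε, ε = t / (K + 2) := ⟨_, rfl⟩
  have hε0 : 0 < ε := by rw [hε]; positivity
  have hεt : ε * (K + 2) = t := by
    rw [hε]; field_simp
  have hεd : ε < d := by nlinarith
  have hb : ∀ c ≤ K, |V c * ε| < t := by
    intro c hc
    have h1 : |V c| ≤ K + 1 := by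
      have h2 := abs_lt.1 (hV c hc)
      have h3 : (c : ℝ) ≤ K := by exact_mod_cast hc
      have h4 : (0 : ℝ) ≤ c := Nat.cast_nonneg c
      rw [abs_le]
      constructor <;> linarith
    rw [abs_mul, abs_of_pos hε0]
    have : |V c| * ε ≤ (K + 1) * ε := mul_le_mul_of_nonneg_right h1 hε0.le
    linarith
  have w1 := abs_lt.1 (hb (e + n) hf)
  have w2 := abs_lt.1 (hb e (by omega))
  have w3 := abs_lt.1 (hb f (by omega))
  refine rz4 (p0 := (0, 0)) (p1 := (ε, V (e + n) - V e + 2 * t)) (p2 := (1, V (f + n) - t))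
    (p3 := (1 + ε, V (e + n) + t)) hη0 hη hVη (by simp) (by simp) (by simp) (by simp)
    ?_ ?_ ?_ ?_ ?_ ?_ ?_ ?_ ?_ ?_ ?_ ?_ ?_ ?_ ?_ ?_
  · constructor <;> simpa using hη0
  · constructor
    · simp only [Nat.cast_zero, sub_zero]
      rw [abs_of_pos hε0]
      linarith
    · simp only
      rw [abs_lt]
      constructor <;> linarith
  · constructor
    · simpa using hη0
    · simp only
      push_cast
      rw [abs_lt]
      constructor <;> linarith
  · constructor
    · simp only [Nat.cast_one]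
      rw [abs_lt]
      constructor <;> linarith
    · simp only
      push_cast
      rw [abs_lt]
      constructor <;> linarith
  -- A, B
  · intro c hc hl _ h2
    simp only [List.mem_cons, List.not_mem_nil, or_false] at h2
    subst h2
    exfalso
    unfold Pnt.lev at hl
    rw [if_neg (by omega), if_neg (by omega)] at hl
    push_cast at hl
    omega
  -- A, C
  · intro c hc hl _ h2
    simp only [List.mem_cons, List.not_mem_nil, or_false] at h2
    rcases h2 with rfl | rfl
    · exfalso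
      unfold Pnt.lev at hl
      rw [if_pos rfl, if_pos rfl] at hl
      simp at hl
    · exfalso
      unfold Pnt.lev at hl
      rw [if_neg (by omega), if_neg (by omega)] at hl
      push_cast at hl
      omega
  -- A, D
  · intro c hc hl _ h2
    simp only [List.mem_cons, List.not_mem_nil, or_false] at h2
    subst h2
    refine ord_fin (by omega) ?_
    simp only
    linarith
  -- B, A
  · intro c hc hl _ h2
    simp only [List.mem_cons, List.not_mem_nil, or_false] at h2
    rcases h2 with rfl | rfl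
    · refine ord_inf ?_
      simp only
      linarith
    · exfalso
      unfold Pnt.lev at hl
      rw [if_neg (by omega), if_neg (by omega)] at hl
      push_cast at hl
      omega
  -- B, C
  · intro c hc hl _ h2
    simp only [List.mem_cons, List.not_mem_nil, or_false] at h2
    rcases h2 with rfl | rfl
    · exfalso
      unfold Pnt.lev at hl
      rw [if_pos rfl, if_pos rfl] at hl
      simp at hl
    · refine ord_fin (by omega) ?_
      simp only
      linarith
  -- B, D
  · intro c hc hl _ h2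
    simp only [List.mem_cons, List.not_mem_nil, or_false] at h2
    subst h2
    exfalso
    unfold Pnt.lev at hl
    rw [if_neg (by omega), if_neg (by omega)] at hl
    push_cast at hl
    omega
  -- C, A
  · intro c hc hl _ h2
    simp only [List.mem_cons, List.not_mem_nil, or_false] at h2
    rcases h2 with rfl | rfl
    · exfalso
      unfold Pnt.lev at hl
      rw [if_pos rfl, if_pos rfl] at hl
      simp at hl
    · refine ord_fin (by omega) ?_
      simp only
      linarith
  -- C, B
  · intro c hc hl _ h2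
    simp only [List.mem_cons, List.not_mem_nil, or_false] at h2
    subst h2
    exfalso
    unfold Pnt.lev at hl
    rw [if_neg (by omega), if_neg (by omega)] at hl
    push_cast at hl
    omega
  -- C, D
  · intro c hc hl _ h2
    simp only [List.mem_cons, List.not_mem_nil, or_false] at h2
    subst h2
    exfalso
    unfold Pnt.lev at hl
    rw [if_neg (by omega), if_neg (by omega)] at hl
    push_cast at hl
    omega
  -- D, A
  · intro c hc hl _ h2
    simp only [List.mem_cons, List.not_mem_nil, or_false] at h2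
    rcases h2 with rfl | rfl
    · exfalso
      unfold Pnt.lev at hl
      rw [if_pos rfl, if_pos rfl] at hl
      simp at hl
    · exfalso
      unfold Pnt.lev at hl
      rw [if_neg (by omega), if_neg (by omega)] at hl
      push_cast at hl
      omega
  -- D, B
  · intro c hc hl _ h2
    simp only [List.mem_cons, List.not_mem_nil, or_false] at h2
    subst h2
    refine ord_fin (by omega) ?_
    simp only
    linarith
  -- D, C
  · intro c hc hl _ h2
    simp only [List.mem_cons, List.not_mem_nil, or_false] at h2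
    rcases h2 with rfl | rfl
    · refine ord_inf ?_
      simp only
      linarith
    · exfalso
      unfold Pnt.lev at hl
      rw [if_neg (by omega), if_neg (by omega)] at hl
      push_cast at hl
      omega

theorem rz_mulL {d : ℝ} (hη0 : 0 < η) (hη : η * (4 * (K + 4)) ≤ 1) (hd0 : 0 < d)
    (hd : d * (8 * K + 20) ≤ η) (hV : ∀ c ≤ K, |V c - c| < d) {g : ℕ} (hg : g + 4 ≤ K)
    (h : (V (g + 1) - V g) * (V (g + 4) - V g) < (V (g + 2) - V g) ^ 2) :
    ∃ q, Rz K V η [⟨0, 0, [g, g + 2]⟩, ⟨1, g, [g + 2]⟩, ⟨2, 2 + 2 * g, [g + 1, K + 1]⟩,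
      ⟨2, 4 + 2 * g, [g + 4]⟩] q := by
  have hK0 : (0 : ℝ) ≤ K := Nat.cast_nonneg K
  have hdη : d * 20 ≤ η := by nlinarith
  have hη1 : η * 16 ≤ 1 := by nlinarith
  have hVη : ∀ c ≤ K, |V c - c| < η := fun c hc => (hV c hc).trans_le (by linarith)
  have v0 := abs_lt.1 (hV g (by omega))
  have v1 := abs_lt.1 (hV (g + 1) (by omega))
  have v2 := abs_lt.1 (hV (g + 2) (by omega))
  have v4 := abs_lt.1 (hV (g + 4) (by omega))
  push_cast at v1 v2 v4
  obtain ⟨a, ha⟩ : ∃ a, a = V g := ⟨_, rfl⟩
  obtain ⟨R1, hR1⟩ : ∃ R, R = V (g + 1) - V g := ⟨_, rfl⟩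
  obtain ⟨R2, hR2⟩ : ∃ R, R = V (g + 2) - V g := ⟨_, rfl⟩
  obtain ⟨R4, hR4⟩ : ∃ R, R = V (g + 4) - V g := ⟨_, rfl⟩
  have e1 : V (g + 1) = R1 + a := by rw [hR1, ha]; ring
  have e2 : V (g + 2) = R2 + a := by rw [hR2, ha]; ring
  have e4 : V (g + 4) = R4 + a := by rw [hR4, ha]; ring
  rw [← hR1, ← hR2, ← hR4] at h
  have r1 : 1 - 2 * d < R1 ∧ R1 < 1 + 2 * d := by rw [hR1]; constructor <;> linarith
  have r2 : 2 - 2 * d < R2 ∧ R2 < 2 + 2 * d := by rw [hR2]; constructor <;> linarith
  have r4 : 4 - 2 * d < R4 ∧ R4 < 4 + 2 * d := by rw [hR4]; constructor <;> linarith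
  rw [← ha] at v0
  have hgK : (g : ℝ) ≤ K := by
    have : g ≤ K := by omega
    exact_mod_cast this
  have hg0 : (0 : ℝ) ≤ g := Nat.cast_nonneg g
  have haK : |a| ≤ K + 1 := by
    rw [abs_le]
    constructor <;> linarith
  -- the parameter kap
  obtain ⟨kap, hk0, hkd, hk⟩ : ∃ kap : ℝ, 0 < kap ∧ kap < d ∧
      R4 * (R1 + kap) < R2 * (R2 - kap) := by
    refine ⟨min (d / 2) ((R2 ^ 2 - R1 * R4) / (2 * (R2 + R4))), ?_, ?_, ?_⟩
    · apply lt_min (by linarith)
      apply div_pos <;> linarith
    · exact (min_le_left _ _).trans_lt (by linarith)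
    · have hp : 0 < R2 + R4 := by linarith
      have h1 := min_le_right (d / 2) ((R2 ^ 2 - R1 * R4) / (2 * (R2 + R4)))
      set kap := min (d / 2) ((R2 ^ 2 - R1 * R4) / (2 * (R2 + R4)))
      have h2 : kap * (2 * (R2 + R4)) ≤ R2 ^ 2 - R1 * R4 := by
        rwa [le_div_iff₀ (by linarith)] at h1
      nlinarith
  obtain ⟨s, hs⟩ : ∃ s, s = R1 + kap := ⟨_, rfl⟩
  obtain ⟨u, hu⟩ : ∃ u, u = R2 - kap := ⟨_, rfl⟩
  rw [← hs, ← hu] at hk
  have hR2p : 0 < R2 := by linarith
  have hR4p : 0 < R4 := by linarith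
  obtain ⟨x, hx⟩ : ∃ x, x = s / R2 := ⟨_, rfl⟩
  obtain ⟨y, hy⟩ : ∃ y, y = u / R4 := ⟨_, rfl⟩
  have hx' : s = x * R2 := by rw [hx]; field_simp
  have hy' : u = y * R4 := by rw [hy]; field_simp
  have hxy : x < y := by
    rw [hx, hy, div_lt_div_iff₀ hR2p hR4p]
    linarith
  have hxb : |x - 1 / 2| < 4 * d := by
    have b1 : |x - 1 / 2| * 1 ≤ |x - 1 / 2| * R2 :=
      mul_le_mul_of_nonneg_left (by linarith) (abs_nonneg _)
    have b2 : |x - 1 / 2| * R2 = |s - R2 / 2| := by
      rw [← abs_of_pos hR2p, ← abs_mul, abs_of_pos hR2p, hx']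
      congr 1
      ring
    have b3 : |s - R2 / 2| < 4 * d := by
      rw [abs_lt]
      constructor <;> linarith
    linarith
  have hyb : |y - 1 / 2| < 4 * d := by
    have b1 : |y - 1 / 2| * 1 ≤ |y - 1 / 2| * R4 :=
      mul_le_mul_of_nonneg_left (by linarith) (abs_nonneg _)
    have b2 : |y - 1 / 2| * R4 = |u - R4 / 2| := by
      rw [← abs_of_pos hR4p, ← abs_mul, abs_of_pos hR4p, hy']
      congr 1
      ring
    have b3 : |u - R4 / 2| < 4 * d := by
      rw [abs_lt]
      constructor <;> linarith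
    linarith
  have hxb' := abs_lt.1 hxb
  have hyb' := abs_lt.1 hyb
  obtain ⟨lam, hlam⟩ : ∃ lam, lam = (y - x) / 2 := ⟨_, rfl⟩
  have hlam0 : 0 < lam := by rw [hlam]; linarith
  have hlamd : lam < 4 * d := by rw [hlam]; linarith
  have q1 : lam * R4 < (y - x) * R4 := mul_lt_mul_of_pos_right (by rw [hlam]; linarith) hR4p
  have q2 : lam * R2 < (y - x) * R2 := mul_lt_mul_of_pos_right (by rw [hlam]; linarith) hR2p
  have q3 : lam * 1 < lam * R2 := mul_lt_mul_of_pos_left (by linarith) hlam0
  have q5 : 0 < lam * R2 := mul_pos hlam0 hR2p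
  have z1 : |a * (1 - x - y)| ≤ (K + 1) * (8 * d) := by
    rw [abs_mul]
    apply mul_le_mul haK _ (abs_nonneg _) (by linarith)
    rw [abs_le]
    constructor <;> linarith
  have z2 : |a * lam| ≤ (K + 1) * (4 * d) := by
    rw [abs_mul, abs_of_pos hlam0]
    exact mul_le_mul haK hlamd.le hlam0.le (by linarith)
  have z1' := abs_le.1 z1
  have z2' := abs_le.1 z2
  have hKd : 0 ≤ K * d := mul_nonneg hK0 hd0.le
  refine rz4 (p0 := (0, 0)) (p1 := (2 - x - y, a * (2 - x - y) - lam))
    (p2 := (2, 2 * s + 2 * a)) (p3 := (2 + lam, 2 * u + a * (2 + lam))) hη0 hη hVη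
    (by simp) (by simp) (by simp) (by simp)
    ?_ ?_ ?_ ?_ ?_ ?_ ?_ ?_ ?_ ?_ ?_ ?_ ?_ ?_ ?_ ?_
  · constructor <;> simpa using hη0
  · constructor
    · simp only [Nat.cast_one]
      rw [abs_lt]
      constructor <;> linarith
    · simp only
      rw [abs_lt]
      constructor <;> linarith
  · constructor
    · simpa using hη0
    · simp only
      push_cast
      rw [abs_lt]
      constructor <;> linarith
  · constructor
    · simp only [Nat.cast_ofNat]
      rw [abs_lt]
      constructor <;> linarith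
    · simp only
      push_cast
      rw [abs_lt]
      constructor <;> linarith
  -- A, B
  · intro c hc hl _ h2
    simp only [List.mem_cons, List.not_mem_nil, or_false] at h2
    subst h2
    exfalso
    unfold Pnt.lev at hl
    rw [if_neg (by omega), if_neg (by omega)] at hl
    push_cast at hl
    omega
  -- A, C
  · intro c hc hl _ h2
    simp only [List.mem_cons, List.not_mem_nil, or_false] at h2
    rcases h2 with rfl | rfl
    · refine ord_fin (by omega) ?_
      simp only
      rw [e1]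
      linarith
    · exfalso
      unfold Pnt.lev at hl
      rw [if_pos rfl, if_pos rfl] at hl
      simp at hl
  -- A, D
  · intro c hc hl _ h2
    simp only [List.mem_cons, List.not_mem_nil, or_false] at h2
    subst h2
    exfalso
    unfold Pnt.lev at hl
    rw [if_neg (by omega), if_neg (by omega)] at hl
    push_cast at hl
    omega
  -- B, A
  · intro c hc hl _ h2
    simp only [List.mem_cons, List.not_mem_nil, or_false] at h2
    rcases h2 with rfl | rfl
    · refine ord_fin (by omega) ?_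
      simp only
      rw [← ha]
      linarith
    · exfalso
      unfold Pnt.lev at hl
      rw [if_neg (by omega), if_neg (by omega)] at hl
      push_cast at hl
      omega
  -- B, C
  · intro c hc hl _ h2
    simp only [List.mem_cons, List.not_mem_nil, or_false] at h2
    rcases h2 with rfl | rfl
    · exfalso
      unfold Pnt.lev at hl
      rw [if_neg (by omega), if_neg (by omega)] at hl
      push_cast at hl
      omega
    · exfalso
      unfold Pnt.lev at hl
      rw [if_pos rfl, if_pos rfl] at hl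
      simp at hl
  -- B, D
  · intro c hc hl _ h2
    simp only [List.mem_cons, List.not_mem_nil, or_false] at h2
    subst h2
    refine ord_fin (by omega) ?_
    simp only
    rw [e4]
    linarith
  -- C, A
  · intro c hc hl _ h2
    simp only [List.mem_cons, List.not_mem_nil, or_false] at h2
    rcases h2 with rfl | rfl
    · exfalso
      unfold Pnt.lev at hl
      rw [if_neg (by omega), if_neg (by omega)] at hl
      push_cast at hl
      omega
    · exfalso
      unfold Pnt.lev at hl
      rw [if_neg (by omega), if_neg (by omega)] at hl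
      push_cast at hl
      omega
  -- C, B
  · intro c hc hl _ h2
    simp only [List.mem_cons, List.not_mem_nil, or_false] at h2
    subst h2
    refine ord_fin (by omega) ?_
    simp only
    rw [e2]
    linarith
  -- C, D
  · intro c hc hl _ h2
    simp only [List.mem_cons, List.not_mem_nil, or_false] at h2
    subst h2
    exfalso
    unfold Pnt.lev at hl
    rw [if_neg (by omega), if_neg (by omega)] at hl
    push_cast at hl
    omega
  -- D, A
  · intro c hc hl _ h2
    simp only [List.mem_cons, List.not_mem_nil, or_false] at h2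
    rcases h2 with rfl | rfl
    · exfalso
      unfold Pnt.lev at hl
      rw [if_neg (by omega), if_neg (by omega)] at hl
      push_cast at hl
      omega
    · refine ord_fin (by omega) ?_
      simp only
      rw [e2]
      linarith
  -- D, B
  · intro c hc hl _ h2
    simp only [List.mem_cons, List.not_mem_nil, or_false] at h2
    subst h2
    exfalso
    unfold Pnt.lev at hl
    rw [if_neg (by omega), if_neg (by omega)] at hl
    push_cast at hl
    omega
  -- D, C
  · intro c hc hl _ h2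
    simp only [List.mem_cons, List.not_mem_nil, or_false] at h2
    rcases h2 with rfl | rfl
    · exfalso
      unfold Pnt.lev at hl
      rw [if_neg (by omega), if_neg (by omega)] at hl
      push_cast at hl
      omega
    · refine ord_inf ?_
      simp only
      linarith

theorem rz_mulG {d : ℝ} (hη0 : 0 < η) (hη : η * (4 * (K + 4)) ≤ 1) (hd0 : 0 < d)
    (hd : d * (8 * K + 20) ≤ η) (hV : ∀ c ≤ K, |V c - c| < d) {g : ℕ} (hg : g + 4 ≤ K)
    (h : (V (g + 2) - V g) ^ 2 < (V (g + 1) - V g) * (V (g + 4) - V g)) :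
    ∃ q, Rz K V η [⟨0, 0, [g + 1]⟩, ⟨1, g, [g, g + 4]⟩, ⟨2, 2 + 2 * g, [g + 2]⟩,
      ⟨2, 4 + 2 * g, [K + 1, g + 2]⟩] q := by
  have hK0 : (0 : ℝ) ≤ K := Nat.cast_nonneg K
  have hdη : d * 20 ≤ η := by nlinarith
  have hη1 : η * 16 ≤ 1 := by nlinarith
  have hVη : ∀ c ≤ K, |V c - c| < η := fun c hc => (hV c hc).trans_le (by linarith)
  have v0 := abs_lt.1 (hV g (by omega))
  have v1 := abs_lt.1 (hV (g + 1) (by omega))
  have v2 := abs_lt.1 (hV (g + 2) (by omega))
  have v4 := abs_lt.1 (hV (g + 4) (by omega))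
  push_cast at v1 v2 v4
  obtain ⟨a, ha⟩ : ∃ a, a = V g := ⟨_, rfl⟩
  obtain ⟨R1, hR1⟩ : ∃ R, R = V (g + 1) - V g := ⟨_, rfl⟩
  obtain ⟨R2, hR2⟩ : ∃ R, R = V (g + 2) - V g := ⟨_, rfl⟩
  obtain ⟨R4, hR4⟩ : ∃ R, R = V (g + 4) - V g := ⟨_, rfl⟩
  have e1 : V (g + 1) = R1 + a := by rw [hR1, ha]; ring
  have e2 : V (g + 2) = R2 + a := by rw [hR2, ha]; ring
  have e4 : V (g + 4) = R4 + a := by rw [hR4, ha]; ring
  rw [← hR1, ← hR2, ← hR4] at h
  have r1 : 1 - 2 * d < R1 ∧ R1 < 1 + 2 * d := by rw [hR1]; constructor <;> linarith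
  have r2 : 2 - 2 * d < R2 ∧ R2 < 2 + 2 * d := by rw [hR2]; constructor <;> linarith
  have r4 : 4 - 2 * d < R4 ∧ R4 < 4 + 2 * d := by rw [hR4]; constructor <;> linarith
  rw [← ha] at v0
  have hgK : (g : ℝ) ≤ K := by
    have : g ≤ K := by omega
    exact_mod_cast this
  have hg0 : (0 : ℝ) ≤ g := Nat.cast_nonneg g
  have haK : |a| ≤ K + 1 := by
    rw [abs_le]
    constructor <;> linarith
  -- the parameter kap
  obtain ⟨kap, hk0, hkd, hk⟩ : ∃ kap : ℝ, 0 < kap ∧ kap < d ∧
      R2 * (R2 + kap) < R4 * (R1 - kap) := by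
    refine ⟨min (d / 2) ((R1 * R4 - R2 ^ 2) / (2 * (R2 + R4))), ?_, ?_, ?_⟩
    · apply lt_min (by linarith)
      apply div_pos <;> linarith
    · exact (min_le_left _ _).trans_lt (by linarith)
    · have hp : 0 < R2 + R4 := by linarith
      have h1 := min_le_right (d / 2) ((R1 * R4 - R2 ^ 2) / (2 * (R2 + R4)))
      set kap := min (d / 2) ((R1 * R4 - R2 ^ 2) / (2 * (R2 + R4)))
      have h2 : kap * (2 * (R2 + R4)) ≤ R1 * R4 - R2 ^ 2 := by
        rwa [le_div_iff₀ (by linarith)] at h1
      nlinarith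
  obtain ⟨s, hs⟩ : ∃ s, s = R1 - kap := ⟨_, rfl⟩
  obtain ⟨u, hu⟩ : ∃ u, u = R2 + kap := ⟨_, rfl⟩
  rw [← hs, ← hu] at hk
  have hR2p : 0 < R2 := by linarith
  have hR4p : 0 < R4 := by linarith
  obtain ⟨x, hx⟩ : ∃ x, x = s / R2 := ⟨_, rfl⟩
  obtain ⟨y, hy⟩ : ∃ y, y = u / R4 := ⟨_, rfl⟩
  have hx' : s = x * R2 := by rw [hx]; field_simp
  have hy' : u = y * R4 := by rw [hy]; field_simp
  have hxy : y < x := by
    rw [hx, hy, div_lt_div_iff₀ hR4p hR2p]
    linarith
  have hxb : |x - 1 / 2| < 4 * d := by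
    have b1 : |x - 1 / 2| * 1 ≤ |x - 1 / 2| * R2 :=
      mul_le_mul_of_nonneg_left (by linarith) (abs_nonneg _)
    have b2 : |x - 1 / 2| * R2 = |s - R2 / 2| := by
      rw [← abs_of_pos hR2p, ← abs_mul, abs_of_pos hR2p, hx']
      congr 1
      ring
    have b3 : |s - R2 / 2| < 4 * d := by
      rw [abs_lt]
      constructor <;> linarith
    linarith
  have hyb : |y - 1 / 2| < 4 * d := by
    have b1 : |y - 1 / 2| * 1 ≤ |y - 1 / 2| * R4 :=
      mul_le_mul_of_nonneg_left (by linarith) (abs_nonneg _)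
    have b2 : |y - 1 / 2| * R4 = |u - R4 / 2| := by
      rw [← abs_of_pos hR4p, ← abs_mul, abs_of_pos hR4p, hy']
      congr 1
      ring
    have b3 : |u - R4 / 2| < 4 * d := by
      rw [abs_lt]
      constructor <;> linarith
    linarith
  have hxb' := abs_lt.1 hxb
  have hyb' := abs_lt.1 hyb
  obtain ⟨lam, hlam⟩ : ∃ lam, lam = (x - y) / 2 := ⟨_, rfl⟩
  have hlam0 : 0 < lam := by rw [hlam]; linarith
  have hlamd : lam < 4 * d := by rw [hlam]; linarith
  have q1 : lam * R4 < (x - y) * R4 := mul_lt_mul_of_pos_right (by rw [hlam]; linarith) hR4p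
  have q2 : lam * R2 < (x - y) * R2 := mul_lt_mul_of_pos_right (by rw [hlam]; linarith) hR2p
  have q3 : lam * 1 < lam * R2 := mul_lt_mul_of_pos_left (by linarith) hlam0
  have q5 : 0 < lam * R2 := mul_pos hlam0 hR2p
  have z1 : |a * (1 - x - y)| ≤ (K + 1) * (8 * d) := by
    rw [abs_mul]
    apply mul_le_mul haK _ (abs_nonneg _) (by linarith)
    rw [abs_le]
    constructor <;> linarith
  have z2 : |a * lam| ≤ (K + 1) * (4 * d) := by
    rw [abs_mul, abs_of_pos hlam0]
    exact mul_le_mul haK hlamd.le hlam0.le (by linarith)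
  have z1' := abs_le.1 z1
  have z2' := abs_le.1 z2
  have hKd : 0 ≤ K * d := mul_nonneg hK0 hd0.le
  refine rz4 (p0 := (0, 0)) (p1 := (2 - x - y, a * (2 - x - y) + lam))
    (p2 := (2, 2 * s + 2 * a)) (p3 := (2 - lam, 2 * u + a * (2 - lam))) hη0 hη hVη
    (by simp) (by simp) (by simp) (by simp)
    ?_ ?_ ?_ ?_ ?_ ?_ ?_ ?_ ?_ ?_ ?_ ?_ ?_ ?_ ?_ ?_
  · constructor <;> simpa using hη0
  · constructor
    · simp only [Nat.cast_one]
      rw [abs_lt]
      constructor <;> linarith
    · simp only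
      rw [abs_lt]
      constructor <;> linarith
  · constructor
    · simpa using hη0
    · simp only
      push_cast
      rw [abs_lt]
      constructor <;> linarith
  · constructor
    · simp only [Nat.cast_ofNat]
      rw [abs_lt]
      constructor <;> linarith
    · simp only
      push_cast
      rw [abs_lt]
      constructor <;> linarith
  -- A, B
  · intro c hc hl _ h2
    simp only [List.mem_cons, List.not_mem_nil, or_false] at h2
    rcases h2 with rfl | rfl
    · refine ord_fin (by omega) ?_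
      simp only
      rw [← ha]
      linarith
    · exfalso
      unfold Pnt.lev at hl
      rw [if_neg (by omega), if_neg (by omega)] at hl
      push_cast at hl
      omega
  -- A, C
  · intro c hc hl _ h2
    simp only [List.mem_cons, List.not_mem_nil, or_false] at h2
    subst h2
    exfalso
    unfold Pnt.lev at hl
    rw [if_neg (by omega), if_neg (by omega)] at hl
    push_cast at hl
    omega
  -- A, D
  · intro c hc hl _ h2
    simp only [List.mem_cons, List.not_mem_nil, or_false] at h2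
    rcases h2 with rfl | rfl
    · exfalso
      unfold Pnt.lev at hl
      rw [if_pos rfl, if_pos rfl] at hl
      simp at hl
    · refine ord_fin (by omega) ?_
      simp only
      rw [e2]
      linarith
  -- B, A
  · intro c hc hl _ h2
    simp only [List.mem_cons, List.not_mem_nil, or_false] at h2
    subst h2
    exfalso
    unfold Pnt.lev at hl
    rw [if_neg (by omega), if_neg (by omega)] at hl
    push_cast at hl
    omega
  -- B, C
  · intro c hc hl _ h2
    simp only [List.mem_cons, List.not_mem_nil, or_false] at h2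
    subst h2
    refine ord_fin (by omega) ?_
    simp only
    rw [e2]
    linarith
  -- B, D
  · intro c hc hl _ h2
    simp only [List.mem_cons, List.not_mem_nil, or_false] at h2
    rcases h2 with rfl | rfl
    · exfalso
      unfold Pnt.lev at hl
      rw [if_pos rfl, if_pos rfl] at hl
      simp at hl
    · exfalso
      unfold Pnt.lev at hl
      rw [if_neg (by omega), if_neg (by omega)] at hl
      push_cast at hl
      omega
  -- C, A
  · intro c hc hl _ h2
    simp only [List.mem_cons, List.not_mem_nil, or_false] at h2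
    subst h2
    refine ord_fin (by omega) ?_
    simp only
    rw [e1]
    linarith
  -- C, B
  · intro c hc hl _ h2
    simp only [List.mem_cons, List.not_mem_nil, or_false] at h2
    rcases h2 with rfl | rfl
    · exfalso
      unfold Pnt.lev at hl
      rw [if_neg (by omega), if_neg (by omega)] at hl
      push_cast at hl
      omega
    · exfalso
      unfold Pnt.lev at hl
      rw [if_neg (by omega), if_neg (by omega)] at hl
      push_cast at hl
      omega
  -- C, D
  · intro c hc hl _ h2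
    simp only [List.mem_cons, List.not_mem_nil, or_false] at h2
    rcases h2 with rfl | rfl
    · refine ord_inf ?_
      simp only
      linarith
    · exfalso
      unfold Pnt.lev at hl
      rw [if_neg (by omega), if_neg (by omega)] at hl
      push_cast at hl
      omega
  -- D, A
  · intro c hc hl _ h2
    simp only [List.mem_cons, List.not_mem_nil, or_false] at h2
    subst h2
    exfalso
    unfold Pnt.lev at hl
    rw [if_neg (by omega), if_neg (by omega)] at hl
    push_cast at hl
    omega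
  -- D, B
  · intro c hc hl _ h2
    simp only [List.mem_cons, List.not_mem_nil, or_false] at h2
    rcases h2 with rfl | rfl
    · exfalso
      unfold Pnt.lev at hl
      rw [if_neg (by omega), if_neg (by omega)] at hl
      push_cast at hl
      omega
    · refine ord_fin (by omega) ?_
      simp only
      rw [e4]
      linarith
  -- D, C
  · intro c hc hl _ h2
    simp only [List.mem_cons, List.not_mem_nil, or_false] at h2
    subst h2
    exfalso
    unfold Pnt.lev at hl
    rw [if_neg (by omega), if_neg (by omega)] at hl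
    push_cast at hl
    omega

theorem exists_rz {d : ℝ} (hη0 : 0 < η) (hη : η * (4 * (K + 4)) ≤ 1) (hd0 : 0 < d)
    (hd : d * (8 * K + 20) ≤ η) (hV : ∀ c ≤ K, |V c - c| < d) (cs : List TC)
    (hcs : ∀ c ∈ cs, c.WF K) (hol : ∀ c ∈ cs, c.Holds V) :
    ∀ g ∈ groups K cs, ∃ q, Rz K V η g q := by
  have hK0 : (0 : ℝ) ≤ K := Nat.cast_nonneg K
  have hdη : d ≤ η := by nlinarith
  have hVη : ∀ c ≤ K, |V c - c| < η := fun c hc => (hV c hc).trans_le hdη
  intro g hg
  unfold groups at hg
  rw [List.mem_append, List.mem_cons] at hg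
  rcases hg with (rfl | hg) | hg
  · exact rz_base hη0 hη hVη
  · rw [List.mem_map] at hg
    obtain ⟨c, -, rfl⟩ := hg
    exact rz_dir hη0 hη hVη c
  · rw [List.mem_map] at hg
    obtain ⟨c, hc, rfl⟩ := hg
    have h1 := hcs c hc
    have h2 := hol c hc
    cases c with
    | add e f n =>
      obtain ⟨hn, he, hf, hef⟩ := h1
      unfold grpOf
      simp only
      split_ifs with h3
      · exact rz_add1 hη0 hη hd0 hd hV hn (by omega) hf h2
      · exact rz_add2 hη0 hη hd0 hd hV hn (by omega) he h2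
    | mulL g => exact rz_mulL hη0 hη hd0 hd hV h1 h2
    | mulG g => exact rz_mulG hη0 hη hd0 hd hV h1 h2

end GroupsC

theorem groups_complete (K : ℕ) (cs : List TC) (hcs : ∀ c ∈ cs, c.WF K)
    (h : NearRealizable K cs) (δ : ℝ) (hδ : 0 < δ) :
    ∃ (V : ℕ → ℝ) (pos : ℕ → ℕ → ℝ × ℝ), (∀ c ≤ K, |V c - c| < δ) ∧
      ∀ j < (groups K cs).length, ∀ i < ((groups K cs).getD j []).length,
        |(pos j i).1 - (pnt (groups K cs) j i).X| < δ ∧
        |(pos j i).2 - (pnt (groups K cs) j i).Y| < δ ∧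
        ∀ i' < ((groups K cs).getD j []).length, ∀ c ≤ K + 1,
          (pnt (groups K cs) j i).Before K c (pnt (groups K cs) j i') →
            if c = K + 1 then (pos j i').1 < (pos j i).1
            else (pos j i).2 - V c * (pos j i).1 < (pos j i').2 - V c * (pos j i').1 := by
  have hK0 : (0 : ℝ) ≤ K := Nat.cast_nonneg K
  obtain ⟨η, hη0, hηδ, hη⟩ : ∃ η : ℝ, 0 < η ∧ η ≤ δ ∧ η * (4 * (K + 4)) ≤ 1 := by
    refine ⟨min δ (1 / (4 * (K + 4))), lt_min hδ (by positivity), min_le_left _ _, ?_⟩
    have h1 := min_le_right δ (1 / (4 * ((K : ℝ) + 4)))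
    rwa [le_div_iff₀ (by positivity)] at h1
  obtain ⟨d, hd0, hd⟩ : ∃ d : ℝ, 0 < d ∧ d * (8 * K + 20) ≤ η := by
    refine ⟨η / (8 * K + 20), by positivity, ?_⟩
    rw [div_mul_cancel₀]
    positivity
  obtain ⟨V, hV, hol⟩ := h d hd0
  have hdη : d ≤ η := by nlinarith
  have hex : ∀ j, ∃ q : ℕ → ℝ × ℝ, j < (groups K cs).length →
      GroupsC.Rz K V η ((groups K cs).getD j []) q := by
    intro j
    by_cases hj : j < (groups K cs).length
    · obtain ⟨q, hq⟩ := GroupsC.exists_rz hη0 hη hd0 hd hV cs hcs hol _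
        (List.getElem_mem hj)
      refine ⟨q, fun _ => ?_⟩
      rwa [List.getD_eq_getElem _ _ hj]
    · exact ⟨fun _ => 0, fun h => absurd h hj⟩
  choose pos hpos using hex
  refine ⟨V, pos, fun c hc => (hV c hc).trans_le (hdη.trans hηδ), ?_⟩
  intro j hj i hi
  obtain ⟨⟨h1, h2⟩, h3⟩ := hpos j hj i hi
  refine ⟨h1.trans_le hηδ, h2.trans_le hηδ, ?_⟩
  intro i' hi' c hc hb
  exact h3 i' hi' c hc hb

end Pool.Agent.Lib.MP_612bca_lc
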