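import Pool.Agent.Lib.MP_612bca_lc.LocalDefs

/-!
# The groups of points are good
-/

namespace Pool.Agent.Lib.MP_612bca_lc

namespace GroupsG

/-- Table of the classes of the ties of four points. -/
def tt (a01 a02 a03 a12 a13 a23 : ℕ) (i j : ℕ) : ℕ :=
  match i, j with
  | 0, 1 => a01
  | 1, 0 => a01
  | 0, 2 => a02
  | 2, 0 => a02
  | 0, 3 => a03
  | 3, 0 => a03
  | 1, 2 => a12
  | 2, 1 => a12
  | 1, 3 => a13
  | 3, 1 => a13
  | 2, 3 => a23
  | 3, 2 => a23
  | _, _ => 0

theorem good_of {K : ℕ} {g : List Pnt} (t : ℕ → ℕ → ℕ) (s : ℕ) (hlen : g.length = 4)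
    (hX : ∀ P ∈ g, P.X ≤ 2) (hY : ∀ P ∈ g, P.Y ≤ 2 * K + 4)
    (hT : ∀ c ≤ K + 1, ∀ i < 4, ∀ i' < 4, i ≠ i' → ∀ P P', g[i]? = some P → g[i']? = some P' →
      (P.lev K c = P'.lev K c ↔ t i i' = c))
    (hS : ∀ i < 4, ∀ i' < 4, i ≠ i' → ∀ P P', g[i]? = some P → g[i']? = some P' →
      (t i i' ∈ P.sec ↔ t i i' ∉ P'.sec))
    (hle : ∀ i < 4, ∀ i' < 4, i ≠ i' → t i i' ≤ K + 1)
    (hinj : ∀ i < 4, ∀ j < 4, ∀ j' < 4, i ≠ j → i ≠ j' → t i j = t i j' → j = j')
    (hsing : ∀ i < 4, ∀ i' < 4, ∀ j < 4, ∀ j' < 4, i ≠ i' → j ≠ j' → t i i' = t j j' →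
      t i i' ≠ s → j = i ∨ j = i') : GoodGroup K g := by
  have hT' : ∀ c ≤ K + 1, ∀ i i', TiedIn K g c i i' ↔ i ≠ i' ∧ i < 4 ∧ i' < 4 ∧ t i i' = c := by
    intro c hc i i'
    constructor
    · rintro ⟨hne, P, P', hP, hP', hl⟩
      have h1 : i < 4 := by
        rw [← hlen]
        exact (List.getElem?_eq_some_iff.1 hP).1
      have h2 : i' < 4 := by
        rw [← hlen]
        exact (List.getElem?_eq_some_iff.1 hP').1
      exact ⟨hne, h1, h2, (hT c hc i h1 i' h2 hne P P' hP hP').1 hl⟩
    · rintro ⟨hne, h1, h2, h3⟩
      have e1 : g[i]? = some (g[i]'(by omega)) := List.getElem?_eq_getElem (by omega)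
      have e2 : g[i']? = some (g[i']'(by omega)) := List.getElem?_eq_getElem (by omega)
      exact ⟨hne, _, _, e1, e2, (hT c hc i h1 i' h2 hne _ _ e1 e2).2 h3⟩
  refine ⟨hX, hY, ?_, ?_, ?_⟩
  · intro c i i' P P' hc ht hP hP'
    obtain ⟨hne, h1, h2, h3⟩ := (hT' c hc i i').1 ht
    subst h3
    exact hS i h1 i' h2 hne P P' hP hP'
  · intro c c' i i' hc hc' ht ht'
    obtain ⟨-, -, -, h3⟩ := (hT' c hc i i').1 ht
    obtain ⟨-, -, -, h4⟩ := (hT' c' hc' i i').1 ht'
    rw [← h3, ← h4]
  · intro f h1 h2
    have step1 : ∀ c i i' : ℕ, c ≤ K + 1 → TiedIn K g c i i' → c ≠ s → f i c = i' := by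
      intro c i i' hc ht hcs
      obtain ⟨⟨c', hc', ha⟩, i'', hb⟩ := h1 c i i' hc ht
      obtain ⟨n1, n2, n3, n4⟩ := (hT' c hc i i').1 ht
      obtain ⟨m1, m2, m3, m4⟩ := (hT' c' hc' i (f i c)).1 ha
      obtain ⟨k1, k2, k3, k4⟩ := (hT' c hc (f i c) i'').1 hb
      rcases hsing i n2 i' n3 (f i c) k2 i'' k3 n1 k1 (by rw [n4, k4]) (by rw [n4]; exact hcs)
        with h | h
      · exact absurd h.symm m1
      · exact h
    intro c i i' hc ht
    by_cases hcs : c = s
    · obtain ⟨⟨c', hc', ha⟩, i'', hb⟩ := h1 c i i' hc ht
      obtain ⟨n1, n2, n3, n4⟩ := (hT' c hc i i').1 ht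
      obtain ⟨m1, m2, m3, m4⟩ := (hT' c' hc' i (f i c)).1 ha
      by_contra hne
      have hc2 : t i (f i c) ≠ s := by
        intro h3
        apply hne
        exact hinj i n2 (f i c) m3 i' n3 m1 n1 (by rw [h3, n4, hcs])
      have hle2 := hle i n2 (f i c) m3 m1
      have ht2 : TiedIn K g (t i (f i c)) i (f i c) := (hT' _ hle2 _ _).2 ⟨m1, n2, m3, rfl⟩
      have h5 := step1 _ _ _ hle2 ht2 hc2
      have h6 := h2 _ _ _ _ _ hc hle2 ht ht2 h5.symm
      exact hc2 (by rw [← h6, hcs])
    · exact step1 c i i' hc ht hcs

theorem good_two {K : ℕ} {P0 P1 : Pnt} (hX0 : P0.X ≤ 2) (hX1 : P1.X ≤ 2)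
    (hY0 : P0.Y ≤ 2 * K + 4) (hY1 : P1.Y ≤ 2 * K + 4)
    (h : ∀ c ≤ K + 1, P0.lev K c ≠ P1.lev K c) : GoodGroup K [P0, P1] := by
  have hT : ∀ c ≤ K + 1, ∀ i i', ¬ TiedIn K [P0, P1] c i i' := by
    rintro c hc i i' ⟨hne, P, P', hP, hP', hl⟩
    have h1 : i < 2 := (List.getElem?_eq_some_iff.1 hP).1
    have h2 : i' < 2 := (List.getElem?_eq_some_iff.1 hP').1
    interval_cases i <;> interval_cases i' <;> simp at hne hP hP'
    · subst hP hP'
      exact h c hc hl
    · subst hP hP'
      exact h c hc hl.symm
  refine ⟨?_, ?_, ?_, ?_, ?_⟩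
  · intro P hP
    simp only [List.mem_cons, List.not_mem_nil, or_false] at hP
    rcases hP with rfl | rfl <;> assumption
  · intro P hP
    simp only [List.mem_cons, List.not_mem_nil, or_false] at hP
    rcases hP with rfl | rfl <;> assumption
  · intro c i i' P P' hc ht
    exact absurd ht (hT c hc i i')
  · intro c c' i i' hc hc' ht
    exact absurd ht (hT c hc i i')
  · intro f _ _ c i i' hc ht
    exact absurd ht (hT c hc i i')

theorem good_add1 {K : ℕ} {e f n : ℕ} (hn : 1 ≤ n) (hef : e + n < f) (hf : f + n ≤ K) :
    GoodGroup K [⟨0, 0, [f + n]⟩, ⟨0, n, [K + 1, e]⟩, ⟨1, e + n, [e + n]⟩,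
      ⟨1, f + n, [K + 1, f]⟩] := by
  refine good_of (tt (K + 1) (e + n) (f + n) e f (K + 1)) (K + 1) rfl ?_ ?_ ?_ ?_ ?_ ?_ ?_
  · intro P hP
    simp only [List.mem_cons, List.not_mem_nil, or_false] at hP
    rcases hP with rfl | rfl | rfl | rfl <;> simp
  · intro P hP
    simp only [List.mem_cons, List.not_mem_nil, or_false] at hP
    rcases hP with rfl | rfl | rfl | rfl <;> simp only <;> omega
  · intro c hc i hi i' hi' hne P P' hP hP'
    unfold Pnt.lev
    by_cases hcK : c = K + 1
    · rw [if_pos hcK, if_pos hcK]
      interval_cases i <;> interval_cases i' <;> first | exact absurd rfl hne | skip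
      all_goals
        simp only [List.getElem?_cons_zero, List.getElem?_cons_succ, Option.some.injEq] at hP hP'
        subst hP hP'
        simp only [tt, true_iff]
        omega
    · rw [if_neg hcK, if_neg hcK]
      interval_cases i <;> interval_cases i' <;> first | exact absurd rfl hne | skip
      all_goals
        simp only [List.getElem?_cons_zero, List.getElem?_cons_succ, Option.some.injEq] at hP hP'
        subst hP hP'
        simp only [tt]
        push_cast
        omega
  · intro i hi i' hi' hne P P' hP hP'
    interval_cases i <;> interval_cases i' <;> first | exact absurd rfl hne | skip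
    all_goals
      simp only [List.getElem?_cons_zero, List.getElem?_cons_succ, Option.some.injEq] at hP hP'
      subst hP hP'
      simp only [tt, List.mem_cons, List.not_mem_nil, or_false, true_or, or_true,
        not_true_eq_false, iff_false, true_iff] <;> omega
  · intro i hi i' hi' hne
    interval_cases i <;> interval_cases i' <;> first | exact absurd rfl hne | (simp only [tt]; omega)
  · intro i hi j hj j' hj' h1 h2 h3
    interval_cases i <;> interval_cases j <;> first | exact absurd rfl h1 | skip
    all_goals
      interval_cases j' <;> first | exact absurd rfl h2 | rfl | (simp only [tt] at h3; omega)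
  · intro i hi i' hi' j hj j' hj' h1 h2 h3 h4
    interval_cases i <;> interval_cases i' <;> first | exact absurd rfl h1 | skip
    all_goals
      interval_cases j <;>
        first | exact Or.inl rfl | exact Or.inr rfl |
          (interval_cases j' <;> first | exact absurd rfl h2 | (simp only [tt] at h3 h4; omega))

theorem good_add2 {K : ℕ} {e f n : ℕ} (hn : 1 ≤ n) (hef : f + n < e) (hf : e + n ≤ K) :
    GoodGroup K [⟨0, 0, [K + 1, f + n]⟩, ⟨0, n, [e]⟩, ⟨1, f + n, [K + 1, f]⟩,
      ⟨1, e + n, [e + n]⟩] := by
  refine good_of (tt (K + 1) (f + n) (e + n) f e (K + 1)) (K + 1) rfl ?_ ?_ ?_ ?_ ?_ ?_ ?_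
  · intro P hP
    simp only [List.mem_cons, List.not_mem_nil, or_false] at hP
    rcases hP with rfl | rfl | rfl | rfl <;> simp
  · intro P hP
    simp only [List.mem_cons, List.not_mem_nil, or_false] at hP
    rcases hP with rfl | rfl | rfl | rfl <;> simp only <;> omega
  · intro c hc i hi i' hi' hne P P' hP hP'
    unfold Pnt.lev
    by_cases hcK : c = K + 1
    · rw [if_pos hcK, if_pos hcK]
      interval_cases i <;> interval_cases i' <;> first | exact absurd rfl hne | skip
      all_goals
        simp only [List.getElem?_cons_zero, List.getElem?_cons_succ, Option.some.injEq] at hP hP'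
        subst hP hP'
        simp only [tt, true_iff]
        omega
    · rw [if_neg hcK, if_neg hcK]
      interval_cases i <;> interval_cases i' <;> first | exact absurd rfl hne | skip
      all_goals
        simp only [List.getElem?_cons_zero, List.getElem?_cons_succ, Option.some.injEq] at hP hP'
        subst hP hP'
        simp only [tt]
        push_cast
        omega
  · intro i hi i' hi' hne P P' hP hP'
    interval_cases i <;> interval_cases i' <;> first | exact absurd rfl hne | skip
    all_goals
      simp only [List.getElem?_cons_zero, List.getElem?_cons_succ, Option.some.injEq] at hP hP'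
      subst hP hP'
      simp only [tt, List.mem_cons, List.not_mem_nil, or_false, true_or, or_true,
        not_true_eq_false, iff_false, true_iff] <;> omega
  · intro i hi i' hi' hne
    interval_cases i <;> interval_cases i' <;> first | exact absurd rfl hne | (simp only [tt]; omega)
  · intro i hi j hj j' hj' h1 h2 h3
    interval_cases i <;> interval_cases j <;> first | exact absurd rfl h1 | skip
    all_goals
      interval_cases j' <;> first | exact absurd rfl h2 | rfl | (simp only [tt] at h3; omega)
  · intro i hi i' hi' j hj j' hj' h1 h2 h3 h4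
    interval_cases i <;> interval_cases i' <;> first | exact absurd rfl h1 | skip
    all_goals
      interval_cases j <;>
        first | exact Or.inl rfl | exact Or.inr rfl |
          (interval_cases j' <;> first | exact absurd rfl h2 | (simp only [tt] at h3 h4; omega))

theorem good_mulL {K : ℕ} {g : ℕ} (hg : g + 4 ≤ K) :
    GoodGroup K [⟨0, 0, [g, g + 2]⟩, ⟨1, g, [g + 2]⟩, ⟨2, 2 + 2 * g, [g + 1, K + 1]⟩,
      ⟨2, 4 + 2 * g, [g + 4]⟩] := by
  refine good_of (tt g (g + 1) (g + 2) (g + 2) (g + 4) (K + 1)) (g + 2) rfl ?_ ?_ ?_ ?_ ?_ ?_ ?_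
  · intro P hP
    simp only [List.mem_cons, List.not_mem_nil, or_false] at hP
    rcases hP with rfl | rfl | rfl | rfl <;> simp
  · intro P hP
    simp only [List.mem_cons, List.not_mem_nil, or_false] at hP
    rcases hP with rfl | rfl | rfl | rfl <;> simp only <;> omega
  · intro c hc i hi i' hi' hne P P' hP hP'
    unfold Pnt.lev
    by_cases hcK : c = K + 1
    · rw [if_pos hcK, if_pos hcK]
      interval_cases i <;> interval_cases i' <;> first | exact absurd rfl hne | skip
      all_goals
        simp only [List.getElem?_cons_zero, List.getElem?_cons_succ, Option.some.injEq] at hP hP'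
        subst hP hP'
        simp only [tt, true_iff]
        omega
    · rw [if_neg hcK, if_neg hcK]
      interval_cases i <;> interval_cases i' <;> first | exact absurd rfl hne | skip
      all_goals
        simp only [List.getElem?_cons_zero, List.getElem?_cons_succ, Option.some.injEq] at hP hP'
        subst hP hP'
        simp only [tt]
        push_cast
        omega
  · intro i hi i' hi' hne P P' hP hP'
    interval_cases i <;> interval_cases i' <;> first | exact absurd rfl hne | skip
    all_goals
      simp only [List.getElem?_cons_zero, List.getElem?_cons_succ, Option.some.injEq] at hP hP'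
      subst hP hP'
      simp only [tt, List.mem_cons, List.not_mem_nil, or_false, true_or, or_true,
        not_true_eq_false, iff_false, true_iff] <;> omega
  · intro i hi i' hi' hne
    interval_cases i <;> interval_cases i' <;> first | exact absurd rfl hne | (simp only [tt]; omega)
  · intro i hi j hj j' hj' h1 h2 h3
    interval_cases i <;> interval_cases j <;> first | exact absurd rfl h1 | skip
    all_goals
      interval_cases j' <;> first | exact absurd rfl h2 | rfl | (simp only [tt] at h3; omega)
  · intro i hi i' hi' j hj j' hj' h1 h2 h3 h4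
    interval_cases i <;> interval_cases i' <;> first | exact absurd rfl h1 | skip
    all_goals
      interval_cases j <;>
        first | exact Or.inl rfl | exact Or.inr rfl |
          (interval_cases j' <;> first | exact absurd rfl h2 | (simp only [tt] at h3 h4; omega))

theorem good_mulG {K : ℕ} {g : ℕ} (hg : g + 4 ≤ K) :
    GoodGroup K [⟨0, 0, [g + 1]⟩, ⟨1, g, [g, g + 4]⟩, ⟨2, 2 + 2 * g, [g + 2]⟩,
      ⟨2, 4 + 2 * g, [K + 1, g + 2]⟩] := by
  refine good_of (tt g (g + 1) (g + 2) (g + 2) (g + 4) (K + 1)) (g + 2) rfl ?_ ?_ ?_ ?_ ?_ ?_ ?_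
  · intro P hP
    simp only [List.mem_cons, List.not_mem_nil, or_false] at hP
    rcases hP with rfl | rfl | rfl | rfl <;> simp
  · intro P hP
    simp only [List.mem_cons, List.not_mem_nil, or_false] at hP
    rcases hP with rfl | rfl | rfl | rfl <;> simp only <;> omega
  · intro c hc i hi i' hi' hne P P' hP hP'
    unfold Pnt.lev
    by_cases hcK : c = K + 1
    · rw [if_pos hcK, if_pos hcK]
      interval_cases i <;> interval_cases i' <;> first | exact absurd rfl hne | skip
      all_goals
        simp only [List.getElem?_cons_zero, List.getElem?_cons_succ, Option.some.injEq] at hP hP'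
        subst hP hP'
        simp only [tt, true_iff]
        omega
    · rw [if_neg hcK, if_neg hcK]
      interval_cases i <;> interval_cases i' <;> first | exact absurd rfl hne | skip
      all_goals
        simp only [List.getElem?_cons_zero, List.getElem?_cons_succ, Option.some.injEq] at hP hP'
        subst hP hP'
        simp only [tt]
        push_cast
        omega
  · intro i hi i' hi' hne P P' hP hP'
    interval_cases i <;> interval_cases i' <;> first | exact absurd rfl hne | skip
    all_goals
      simp only [List.getElem?_cons_zero, List.getElem?_cons_succ, Option.some.injEq] at hP hP'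
      subst hP hP'
      simp only [tt, List.mem_cons, List.not_mem_nil, or_false, true_or, or_true,
        not_true_eq_false, iff_false, true_iff] <;> omega
  · intro i hi i' hi' hne
    interval_cases i <;> interval_cases i' <;> first | exact absurd rfl hne | (simp only [tt]; omega)
  · intro i hi j hj j' hj' h1 h2 h3
    interval_cases i <;> interval_cases j <;> first | exact absurd rfl h1 | skip
    all_goals
      interval_cases j' <;> first | exact absurd rfl h2 | rfl | (simp only [tt] at h3; omega)
  · intro i hi i' hi' j hj j' hj' h1 h2 h3 h4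
    interval_cases i <;> interval_cases i' <;> first | exact absurd rfl h1 | skip
    all_goals
      interval_cases j <;>
        first | exact Or.inl rfl | exact Or.inr rfl |
          (interval_cases j' <;> first | exact absurd rfl h2 | (simp only [tt] at h3 h4; omega))

end GroupsG

theorem groups_good (K : ℕ) (cs : List TC) (hcs : ∀ c ∈ cs, c.WF K) :
    ∀ g ∈ groups K cs, GoodGroup K g := by
  intro g hg
  unfold groups at hg
  rw [List.mem_append, List.mem_cons] at hg
  rcases hg with (rfl | hg) | hg
  · refine GroupsG.good_two (by simp) (by simp) (by simp) (by simp only; omega) ?_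
    intro c hc
    unfold Pnt.lev
    split_ifs
    · simp
    · push_cast
      omega
  · rw [List.mem_map] at hg
    obtain ⟨c, hc, rfl⟩ := hg
    rw [List.mem_range] at hc
    refine GroupsG.good_two (by simp) (by simp) (by simp) (by simp only; omega) ?_
    intro c' hc'
    unfold Pnt.lev
    split_ifs
    · simp
    · push_cast
      omega
  · rw [List.mem_map] at hg
    obtain ⟨c, hc, rfl⟩ := hg
    have h1 := hcs c hc
    cases c with
    | add e f n =>
      obtain ⟨hn, he, hf, hef⟩ := h1
      unfold grpOf
      simp only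
      split_ifs with h3
      · exact GroupsG.good_add1 hn (by omega) hf
      · exact GroupsG.good_add2 hn (by omega) he
    | mulL g => exact GroupsG.good_mulL h1
    | mulG g => exact GroupsG.good_mulG h1

end Pool.Agent.Lib.MP_612bca_lc
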