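import Pool.Agent.Lib.MP_612bca_lc.GeoDefs

/-!
# The order of the points of the groups forces the slope constraints (module G1)
-/

namespace Pool.Agent.Lib.MP_612bca_lc

namespace GSound

/-- The order information for one group, in terms of the directions `d`. -/
def Ok (K : ℕ) (d : ℕ → ℝ × ℝ) (g : List Pnt) : Prop :=
  ∃ q : ℕ → ℝ × ℝ, ∀ i < g.length, ∀ i' < g.length, ∀ c ≤ K + 1,
    (g.getD i ⟨0, 0, []⟩).Before K c (g.getD i' ⟨0, 0, []⟩) → 0 < crs (d c) (q i' - q i)

/-- The order information for one group, in terms of the slopes `V`. -/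
def OkV (K : ℕ) (V : ℕ → ℝ) (g : List Pnt) : Prop :=
  ∃ x y : ℕ → ℝ, (∀ i < g.length, ∀ i' < g.length, ∀ c ≤ K,
    (g.getD i ⟨0, 0, []⟩).Before K c (g.getD i' ⟨0, 0, []⟩) →
      V c * (x i' - x i) < y i' - y i) ∧
    ∀ i < g.length, ∀ i' < g.length,
      (g.getD i ⟨0, 0, []⟩).Before K (K + 1) (g.getD i' ⟨0, 0, []⟩) → x i' < x i

theorem before_fin {K c : ℕ} {P Q : Pnt} (hc : c ≤ K) : P.Before K c Q ↔
    ((P.Y : ℤ) - c * P.X < Q.Y - c * Q.X ∨
      ((P.Y : ℤ) - c * P.X = Q.Y - c * Q.X ∧ c ∉ P.sec ∧ c ∈ Q.sec)) := by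
  have h : c ≠ K + 1 := by omega
  simp [Pnt.Before, Pnt.lev, h]

theorem before_inf {K : ℕ} {P Q : Pnt} : P.Before K (K + 1) Q ↔
    (Q.X < P.X ∨ (P.X = Q.X ∧ K + 1 ∉ P.sec ∧ K + 1 ∈ Q.sec)) := by
  simp [Pnt.Before, Pnt.lev]

theorem crs_plucker (a b c e : ℝ × ℝ) :
    crs a c * crs b e - crs b c * crs a e = crs a b * crs c e := by
  simp only [crs]; ring

theorem crs_swap (a b : ℝ × ℝ) : crs b a = - crs a b := by
  simp only [crs]; ring

theorem crs_sub (a b c : ℝ × ℝ) : crs a (b - c) = crs a b - crs a c := by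
  simp only [crs, Prod.fst_sub, Prod.snd_sub]; ring

/-- Change of coordinates: directions become slopes. -/
theorem ok_trans {K : ℕ} {d : ℕ → ℝ × ℝ} (hd : ∀ i j, i < j → j ≤ K + 1 → 0 < crs (d i) (d j))
    {g : List Pnt} (h : Ok K d g) :
    OkV K (fun c => crs (d 0) (d c) / crs (d c) (d (K + 1))) g := by
  obtain ⟨q, hq⟩ := h
  have hD : 0 < crs (d 0) (d (K + 1)) := hd 0 (K + 1) (by omega) le_rfl
  refine ⟨fun i => crs (q i) (d (K + 1)), fun i => crs (d 0) (q i), ?_, ?_⟩
  · intro i hi i' hi' c hc hb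
    have h1 := hq i hi i' hi' c (by omega) hb
    have h2 : 0 < crs (d c) (d (K + 1)) := hd c (K + 1) (by omega) le_rfl
    have h3 : crs (d c) (d (K + 1)) * (crs (d 0) (q i') - crs (d 0) (q i)) -
        crs (d 0) (d c) * (crs (q i') (d (K + 1)) - crs (q i) (d (K + 1))) =
        crs (d c) (q i' - q i) * crs (d 0) (d (K + 1)) := by
      simp only [crs, Prod.fst_sub, Prod.snd_sub]; ring
    have h4 : 0 < crs (d c) (q i' - q i) * crs (d 0) (d (K + 1)) := mul_pos h1 hD
    show crs (d 0) (d c) / crs (d c) (d (K + 1)) * (crs (q i') (d (K + 1)) - crs (q i) (d (K + 1)))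
      < crs (d 0) (q i') - crs (d 0) (q i)
    rw [div_mul_eq_mul_div, div_lt_iff₀ h2]
    linarith
  · intro i hi i' hi' hb
    have h1 := hq i hi i' hi' (K + 1) le_rfl hb
    have h3 : crs (d (K + 1)) (q i' - q i) = crs (q i) (d (K + 1)) - crs (q i') (d (K + 1)) := by
      simp only [crs, Prod.fst_sub, Prod.snd_sub]; ring
    show crs (q i') (d (K + 1)) < crs (q i) (d (K + 1))
    linarith

theorem slopes_mono {K : ℕ} {d : ℕ → ℝ × ℝ}
    (hd : ∀ i j, i < j → j ≤ K + 1 → 0 < crs (d i) (d j)) (i : ℕ) (hi : i < K) :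
    crs (d 0) (d i) / crs (d i) (d (K + 1)) <
      crs (d 0) (d (i + 1)) / crs (d (i + 1)) (d (K + 1)) := by
  have h1 : 0 < crs (d i) (d (K + 1)) := hd i (K + 1) (by omega) le_rfl
  have h2 : 0 < crs (d (i + 1)) (d (K + 1)) := hd (i + 1) (K + 1) (by omega) le_rfl
  have h3 : 0 < crs (d i) (d (i + 1)) := hd i (i + 1) (by omega) (by omega)
  have h4 : 0 < crs (d 0) (d (K + 1)) := hd 0 (K + 1) (by omega) le_rfl
  rw [div_lt_div_iff₀ h1 h2]
  have h5 : crs (d 0) (d (i + 1)) * crs (d i) (d (K + 1)) -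
      crs (d 0) (d i) * crs (d (i + 1)) (d (K + 1)) =
      crs (d 0) (d (K + 1)) * crs (d i) (d (i + 1)) := by
    simp only [crs]; ring
  have := mul_pos h4 h3
  linarith

/-! ### Four points -/

theorem four_lt {x1 x2 x3 x4 y1 y2 y3 y4 t : ℝ} (h12 : x1 < x2) (h23 : x2 < x3) (h34 : x3 < x4)
    (k12 : y2 - y1 < t * (x2 - x1)) (k23 : t * (x3 - x2) < y3 - y2)
    (k34 : y4 - y3 < t * (x4 - x3)) :
    (y3 - y1) / (x3 - x1) + (y4 - y2) / (x4 - x2) <
      (y3 - y2) / (x3 - x2) + (y4 - y1) / (x4 - x1) := by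
  obtain ⟨a, ha, rfl⟩ : ∃ a, 0 < a ∧ x2 = x1 + a := ⟨x2 - x1, by linarith, by ring⟩
  obtain ⟨b, hb, rfl⟩ : ∃ b, 0 < b ∧ x3 = x1 + a + b := ⟨x3 - (x1 + a), by linarith, by ring⟩
  obtain ⟨c, hc, rfl⟩ : ∃ c, 0 < c ∧ x4 = x1 + a + b + c :=
    ⟨x4 - (x1 + a + b), by linarith, by ring⟩
  -- middle slope
  set q : ℝ := (y3 - y2) / b with hq
  have hqt : t < q := by
    rw [hq, lt_div_iff₀ hb]; linarith
  have e3 : y3 - y2 = q * b := by rw [hq]; field_simp
  have e1 : y2 - y1 < q * a := by nlinarith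
  have e4 : y4 - y3 < q * c := by nlinarith
  have r1 : x1 + a + b - x1 = a + b := by ring
  have r2 : x1 + a + b + c - (x1 + a) = b + c := by ring
  have r3 : x1 + a + b - (x1 + a) = b := by ring
  have r4 : x1 + a + b + c - x1 = a + b + c := by ring
  rw [r1, r2, r3, r4]
  have s1 : (y3 - y1) / (a + b) = q + (y2 - y1 - q * a) / (a + b) := by
    have : y3 = q * b + y2 := by linarith
    rw [this]; field_simp; ring
  have s2 : (y4 - y2) / (b + c) = q + (y4 - y3 - q * c) / (b + c) := by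
    have : y3 = q * b + y2 := by linarith
    rw [this]; field_simp; ring
  have s4 : (y4 - y1) / (a + b + c) =
      q + (y2 - y1 - q * a) / (a + b + c) + (y4 - y3 - q * c) / (a + b + c) := by
    have : y3 = q * b + y2 := by linarith
    rw [this]; field_simp; ring
  rw [s1, s2, s4, ← hq]
  have t1 : (y2 - y1 - q * a) / (a + b) < (y2 - y1 - q * a) / (a + b + c) := by
    rw [div_lt_div_iff₀ (by positivity) (by positivity)]
    nlinarith
  have t2 : (y4 - y3 - q * c) / (b + c) < (y4 - y3 - q * c) / (a + b + c) := by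
    rw [div_lt_div_iff₀ (by positivity) (by positivity)]
    nlinarith
  linarith

theorem four_gt {x1 x2 x3 x4 y1 y2 y3 y4 t : ℝ} (h12 : x1 < x2) (h23 : x2 < x3) (h34 : x3 < x4)
    (k12 : t * (x2 - x1) < y2 - y1) (k23 : y3 - y2 < t * (x3 - x2))
    (k34 : t * (x4 - x3) < y4 - y3) :
    (y3 - y2) / (x3 - x2) + (y4 - y1) / (x4 - x1) <
    (y3 - y1) / (x3 - x1) + (y4 - y2) / (x4 - x2) := by
  have h := four_lt (y1 := -y1) (y2 := -y2) (y3 := -y3) (y4 := -y4) (t := -t) h12 h23 h34
    (by linarith) (by linarith) (by linarith)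
  have e : ∀ u v w : ℝ, (-u - -v) / w = - ((u - v) / w) := by
    intro u v w; rw [← neg_div]; congr 1; ring
  rw [e, e, e, e] at h
  linarith

/-- Multiplicative version; the second slope and the total slope are positive, the outer slopes
have opposite signs. -/
theorem four_mul {x1 x2 x3 x4 y1 y2 y3 y4 : ℝ} (h12 : x1 < x2) (h23 : x2 < x3) (h34 : x3 < x4)
    (k : (y2 - y1) * (y4 - y3) < 0) (k' : 0 < (y3 - y2) * (y4 - y1)) :
    ((y3 - y1) / (x3 - x1)) * ((y4 - y2) / (x4 - x2)) <
      ((y3 - y2) / (x3 - x2)) * ((y4 - y1) / (x4 - x1)) := by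
  obtain ⟨a, ha, rfl⟩ : ∃ a, 0 < a ∧ x2 = x1 + a := ⟨x2 - x1, by linarith, by ring⟩
  obtain ⟨b, hb, rfl⟩ : ∃ b, 0 < b ∧ x3 = x1 + a + b := ⟨x3 - (x1 + a), by linarith, by ring⟩
  obtain ⟨c, hc, rfl⟩ : ∃ c, 0 < c ∧ x4 = x1 + a + b + c :=
    ⟨x4 - (x1 + a + b), by linarith, by ring⟩
  have r1 : x1 + a + b - x1 = a + b := by ring
  have r2 : x1 + a + b + c - (x1 + a) = b + c := by ring
  have r3 : x1 + a + b - (x1 + a) = b := by ring
  have r4 : x1 + a + b + c - x1 = a + b + c := by ring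
  rw [r1, r2, r3, r4, div_mul_div_comm, div_mul_div_comm,
    div_lt_div_iff₀ (by positivity) (by positivity)]
  have key : (y3 - y2) * (y4 - y1) * ((a + b) * (b + c)) -
      (y3 - y1) * (y4 - y2) * (b * (a + b + c)) =
      (a * c) * ((y3 - y2) * (y4 - y1)) - (b * (a + b + c)) * ((y2 - y1) * (y4 - y3)) := by
    ring
  have p1 : 0 < (a * c) * ((y3 - y2) * (y4 - y1)) := by positivity
  have p2 : 0 < (b * (a + b + c)) * (-((y2 - y1) * (y4 - y3))) := by
    have : 0 < -((y2 - y1) * (y4 - y3)) := by linarith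
    positivity
  linarith

/-! ### The constraints -/

theorem holds_add_lt {K : ℕ} {V : ℕ → ℝ} {e f n : ℕ} (hn : 1 ≤ n) (he : e + n ≤ K)
    (hf : f + n ≤ K) (hef : e + n < f) (h : OkV K V (grpOf K (.add e f n))) :
    V (e + n) - V e < V (f + n) - V f := by
  obtain ⟨x, y, h1, h2⟩ := h
  have hlt : e < f := by omega
  rw [grpOf, if_pos hlt] at h1 h2
  -- A = 0, B = 1, C = 2, D = 3; order of the abscissas: B A D C
  have xBA : x 1 < x 0 := h2 0 (by simp) 1 (by simp) (by
    rw [before_inf]; right; simp; omega)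
  have xAD : x 0 < x 3 := h2 3 (by simp) 0 (by simp) (by
    rw [before_inf]; left; simp)
  have xDC : x 3 < x 2 := h2 2 (by simp) 3 (by simp) (by
    rw [before_inf]; right; simp; omega)
  have kBA := h1 0 (by simp) 1 (by simp) e (by omega) (by
    rw [before_fin (by omega)]; left; simp; omega)
  have kAD := h1 0 (by simp) 3 (by simp) e (by omega) (by
    rw [before_fin (by omega)]; left; simp; omega)
  have kDC := h1 2 (by simp) 3 (by simp) e (by omega) (by
    rw [before_fin (by omega)]; left; simp; omega)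
  have sBD := h1 1 (by simp) 3 (by simp) f (by omega) (by
    rw [before_fin (by omega)]; right; simp; omega)
  have sAC := h1 0 (by simp) 2 (by simp) (e + n) (by omega) (by
    rw [before_fin (by omega)]; right; simp; omega)
  have sAD := h1 3 (by simp) 0 (by simp) (f + n) (by omega) (by
    rw [before_fin (by omega)]; right; simp; omega)
  have sBC := h1 2 (by simp) 1 (by simp) e (by omega) (by
    rw [before_fin (by omega)]; right; simp; omega)
  have key := four_lt (t := V e) xBA xAD xDC (y1 := y 1) (y2 := y 0) (y3 := y 3) (y4 := y 2)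
    (by linarith) (by linarith) (by linarith)
  have u1 : V f < (y 3 - y 1) / (x 3 - x 1) := by
    rw [lt_div_iff₀ (by linarith)]; linarith
  have u2 : V (e + n) < (y 2 - y 0) / (x 2 - x 0) := by
    rw [lt_div_iff₀ (by linarith)]; linarith
  have u3 : (y 3 - y 0) / (x 3 - x 0) < V (f + n) := by
    rw [div_lt_iff₀ (by linarith)]; linarith
  have u4 : (y 2 - y 1) / (x 2 - x 1) < V e := by
    rw [div_lt_iff₀ (by linarith)]; linarith
  linarith

theorem holds_add_gt {K : ℕ} {V : ℕ → ℝ} {e f n : ℕ} (hn : 1 ≤ n) (he : e + n ≤ K)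
    (hf : f + n ≤ K) (hef : f + n < e) (h : OkV K V (grpOf K (.add e f n))) :
    V (e + n) - V e < V (f + n) - V f := by
  obtain ⟨x, y, h1, h2⟩ := h
  have hlt : ¬ e < f := by omega
  rw [grpOf, if_neg hlt] at h1 h2
  -- order of the abscissas: A B C D
  have xAB : x 0 < x 1 := h2 1 (by simp) 0 (by simp) (by
    rw [before_inf]; right; simp; omega)
  have xBC : x 1 < x 2 := h2 2 (by simp) 1 (by simp) (by
    rw [before_inf]; left; simp)
  have xCD : x 2 < x 3 := h2 3 (by simp) 2 (by simp) (by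
    rw [before_inf]; right; simp; omega)
  have kAB := h1 0 (by simp) 1 (by simp) e (by omega) (by
    rw [before_fin (by omega)]; left; simp; omega)
  have kBC := h1 2 (by simp) 1 (by simp) e (by omega) (by
    rw [before_fin (by omega)]; left; simp; omega)
  have kCD := h1 2 (by simp) 3 (by simp) e (by omega) (by
    rw [before_fin (by omega)]; left; simp; omega)
  have sAC := h1 2 (by simp) 0 (by simp) (f + n) (by omega) (by
    rw [before_fin (by omega)]; right; simp; omega)
  have sBD := h1 3 (by simp) 1 (by simp) e (by omega) (by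
    rw [before_fin (by omega)]; right; simp; omega)
  have sAD := h1 0 (by simp) 3 (by simp) (e + n) (by omega) (by
    rw [before_fin (by omega)]; right; simp; omega)
  have sBC := h1 1 (by simp) 2 (by simp) f (by omega) (by
    rw [before_fin (by omega)]; right; simp; omega)
  have key := four_gt (t := V e) xAB xBC xCD (y1 := y 0) (y2 := y 1) (y3 := y 2) (y4 := y 3)
    (by linarith) (by linarith) (by linarith)
  have u1 : (y 2 - y 0) / (x 2 - x 0) < V (f + n) := by
    rw [div_lt_iff₀ (by linarith)]; linarith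
  have u2 : (y 3 - y 1) / (x 3 - x 1) < V e := by
    rw [div_lt_iff₀ (by linarith)]; linarith
  have u3 : V (e + n) < (y 3 - y 0) / (x 3 - x 0) := by
    rw [lt_div_iff₀ (by linarith)]; linarith
  have u4 : V f < (y 2 - y 1) / (x 2 - x 1) := by
    rw [lt_div_iff₀ (by linarith)]; linarith
  linarith

theorem holds_mulL {K : ℕ} {V : ℕ → ℝ} {g : ℕ} (hg : g + 4 ≤ K) (hV1 : V g < V (g + 1))
    (hV4 : V g < V (g + 4)) (h : OkV K V (grpOf K (.mulL g))) :
    (V (g + 1) - V g) * (V (g + 4) - V g) < (V (g + 2) - V g) ^ 2 := by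
  obtain ⟨x, y, h1, h2⟩ := h
  rw [grpOf] at h1 h2
  have xAB : x 0 < x 1 := h2 1 (by simp) 0 (by simp) (by
    rw [before_inf]; left; simp)
  have xBC : x 1 < x 2 := h2 2 (by simp) 1 (by simp) (by
    rw [before_inf]; left; simp)
  have xCD : x 2 < x 3 := h2 3 (by simp) 2 (by simp) (by
    rw [before_inf]; right; simp; omega)
  have kAB := h1 1 (by simp) 0 (by simp) g (by omega) (by
    rw [before_fin (by omega)]; right; simp)
  have kCD := h1 2 (by simp) 3 (by simp) g (by omega) (by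
    rw [before_fin (by omega)]; left; simp)
  have kBC := h1 1 (by simp) 2 (by simp) g (by omega) (by
    rw [before_fin (by omega)]; left; simp; omega)
  have kAD := h1 0 (by simp) 3 (by simp) g (by omega) (by
    rw [before_fin (by omega)]; left; simp; omega)
  have sBC := h1 2 (by simp) 1 (by simp) (g + 2) (by omega) (by
    rw [before_fin (by omega)]; right; simp; omega)
  have sAC := h1 0 (by simp) 2 (by simp) (g + 1) (by omega) (by
    rw [before_fin (by omega)]; right; simp; omega)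
  have sBD := h1 1 (by simp) 3 (by simp) (g + 4) (by omega) (by
    rw [before_fin (by omega)]; right; simp; omega)
  have sAD := h1 3 (by simp) 0 (by simp) (g + 2) (by omega) (by
    rw [before_fin (by omega)]; right; simp; omega)
  have key := four_mul xAB xBC xCD (y1 := y 0 - V g * x 0) (y2 := y 1 - V g * x 1)
    (y3 := y 2 - V g * x 2) (y4 := y 3 - V g * x 3)
    (mul_neg_of_neg_of_pos (by linarith) (by linarith))
    (mul_pos (by linarith) (by linarith))
  have u1 : V (g + 1) - V g < (y 2 - V g * x 2 - (y 0 - V g * x 0)) / (x 2 - x 0) := by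
    rw [lt_div_iff₀ (by linarith)]; linarith
  have u2 : V (g + 4) - V g < (y 3 - V g * x 3 - (y 1 - V g * x 1)) / (x 3 - x 1) := by
    rw [lt_div_iff₀ (by linarith)]; linarith
  have u3 : (y 2 - V g * x 2 - (y 1 - V g * x 1)) / (x 2 - x 1) < V (g + 2) - V g := by
    rw [div_lt_iff₀ (by linarith)]; linarith
  have u4 : (y 3 - V g * x 3 - (y 0 - V g * x 0)) / (x 3 - x 0) < V (g + 2) - V g := by
    rw [div_lt_iff₀ (by linarith)]; linarith
  have p3 : 0 < (y 2 - V g * x 2 - (y 1 - V g * x 1)) / (x 2 - x 1) :=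
    div_pos (by linarith) (by linarith)
  have p4 : 0 < (y 3 - V g * x 3 - (y 0 - V g * x 0)) / (x 3 - x 0) :=
    div_pos (by linarith) (by linarith)
  have m1 := mul_lt_mul'' u1 u2 (by linarith) (by linarith)
  have m2 := mul_lt_mul'' u3 u4 p3.le p4.le
  nlinarith

theorem holds_mulG {K : ℕ} {V : ℕ → ℝ} {g : ℕ} (hg : g + 4 ≤ K) (hV2 : V g < V (g + 2))
    (h : OkV K V (grpOf K (.mulG g))) :
    (V (g + 2) - V g) ^ 2 < (V (g + 1) - V g) * (V (g + 4) - V g) := by
  obtain ⟨x, y, h1, h2⟩ := h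
  rw [grpOf] at h1 h2
  -- order of the abscissas: A B D C
  have xAB : x 0 < x 1 := h2 1 (by simp) 0 (by simp) (by
    rw [before_inf]; left; simp)
  have xBD : x 1 < x 3 := h2 3 (by simp) 1 (by simp) (by
    rw [before_inf]; left; simp)
  have xDC : x 3 < x 2 := h2 2 (by simp) 3 (by simp) (by
    rw [before_inf]; right; simp; omega)
  have kAB := h1 0 (by simp) 1 (by simp) g (by omega) (by
    rw [before_fin (by omega)]; right; simp)
  have kDC := h1 2 (by simp) 3 (by simp) g (by omega) (by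
    rw [before_fin (by omega)]; left; simp)
  have kBD := h1 1 (by simp) 3 (by simp) g (by omega) (by
    rw [before_fin (by omega)]; left; simp; omega)
  have kAC := h1 0 (by simp) 2 (by simp) g (by omega) (by
    rw [before_fin (by omega)]; left; simp; omega)
  have sBD := h1 3 (by simp) 1 (by simp) (g + 4) (by omega) (by
    rw [before_fin (by omega)]; right; simp; omega)
  have sAC := h1 2 (by simp) 0 (by simp) (g + 1) (by omega) (by
    rw [before_fin (by omega)]; right; simp; omega)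
  have sAD := h1 0 (by simp) 3 (by simp) (g + 2) (by omega) (by
    rw [before_fin (by omega)]; right; simp; omega)
  have sBC := h1 1 (by simp) 2 (by simp) (g + 2) (by omega) (by
    rw [before_fin (by omega)]; right; simp; omega)
  have key := four_mul xAB xBD xDC (y1 := y 0 - V g * x 0) (y2 := y 1 - V g * x 1)
    (y3 := y 3 - V g * x 3) (y4 := y 2 - V g * x 2)
    (mul_neg_of_pos_of_neg (by linarith) (by linarith))
    (mul_pos (by linarith) (by linarith))
  have u1 : V (g + 2) - V g < (y 3 - V g * x 3 - (y 0 - V g * x 0)) / (x 3 - x 0) := by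
    rw [lt_div_iff₀ (by linarith)]; linarith
  have u2 : V (g + 2) - V g < (y 2 - V g * x 2 - (y 1 - V g * x 1)) / (x 2 - x 1) := by
    rw [lt_div_iff₀ (by linarith)]; linarith
  have u3 : (y 3 - V g * x 3 - (y 1 - V g * x 1)) / (x 3 - x 1) < V (g + 4) - V g := by
    rw [div_lt_iff₀ (by linarith)]; linarith
  have u4 : (y 2 - V g * x 2 - (y 0 - V g * x 0)) / (x 2 - x 0) < V (g + 1) - V g := by
    rw [div_lt_iff₀ (by linarith)]; linarith
  have p3 : 0 < (y 3 - V g * x 3 - (y 1 - V g * x 1)) / (x 3 - x 1) :=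
    div_pos (by linarith) (by linarith)
  have p4 : 0 < (y 2 - V g * x 2 - (y 0 - V g * x 0)) / (x 2 - x 0) :=
    div_pos (by linarith) (by linarith)
  have m1 := mul_lt_mul'' u1 u2 (by linarith) (by linarith)
  have m2 := mul_lt_mul'' u3 u4 p3.le p4.le
  nlinarith

theorem holds_of_okV {K : ℕ} {V : ℕ → ℝ} (hV : ∀ i < K, V i < V (i + 1)) {c : TC}
    (hc : c.WF K) (h : OkV K V (grpOf K c)) : c.Holds V := by
  cases c with
  | add e f n =>
    obtain ⟨hn, he, hf, hlt | hlt⟩ := hc
    · exact holds_add_lt hn he hf hlt h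
    · exact holds_add_gt hn he hf hlt h
  | mulL g =>
    have hg : g + 4 ≤ K := hc
    have h1 := hV g (by omega)
    have h2 := hV (g + 1) (by omega)
    have h3 := hV (g + 2) (by omega)
    have h4 := hV (g + 3) (by omega)
    exact holds_mulL hg h1 (by
      calc V g < V (g + 1) := h1
        _ < V (g + 2) := h2
        _ < V (g + 3) := h3
        _ < V (g + 4) := h4) h
  | mulG g =>
    have hg : g + 4 ≤ K := hc
    have h1 := hV g (by omega)
    have h2 := hV (g + 1) (by omega)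
    exact holds_mulG hg (lt_trans h1 h2) h

/-! ### The directions -/

theorem ok_groups {K : ℕ} {cs : List TC} {d : ℕ → ℝ × ℝ} {pos : ℕ → ℕ → ℝ × ℝ}
    (h : ∀ j < (groups K cs).length, ∀ i < ((groups K cs).getD j []).length,
      ∀ i' < ((groups K cs).getD j []).length, ∀ c ≤ K + 1,
      (pnt (groups K cs) j i).Before K c (pnt (groups K cs) j i') →
        0 < crs (d c) (pos j i' - pos j i)) :
    ∀ g ∈ groups K cs, Ok K d g := by
  intro g hg
  obtain ⟨j, hj, rfl⟩ := List.getElem_of_mem hg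
  have e : (groups K cs).getD j [] = (groups K cs)[j] := List.getD_eq_getElem _ _ hj
  refine ⟨pos j, fun i hi i' hi' c hc hb => h j hj i (by rw [e]; exact hi) i'
    (by rw [e]; exact hi') c hc ?_⟩
  simp only [pnt, e]
  exact hb

theorem mem_groups_zero (K : ℕ) (cs : List TC) :
    ([⟨1, 0, []⟩, ⟨0, 1, []⟩] : List Pnt) ∈ groups K cs := by
  simp [groups]

theorem mem_groups_mid (K : ℕ) (cs : List TC) {c : ℕ} (hc : c ≤ K) :
    ([⟨0, 0, []⟩, ⟨2, 2 * c + 1, []⟩] : List Pnt) ∈ groups K cs := by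
  unfold groups
  rw [List.mem_append, List.mem_cons]
  left; right
  exact List.mem_map.2 ⟨c, List.mem_range.2 (by omega), rfl⟩

theorem mem_groups_cs (K : ℕ) (cs : List TC) {c : TC} (hc : c ∈ cs) :
    grpOf K c ∈ groups K cs := by
  unfold groups
  rw [List.mem_append]
  right
  exact List.mem_map.2 ⟨c, hc, rfl⟩

/-- Group `0`. -/
theorem exists_w {K : ℕ} {d : ℕ → ℝ × ℝ}
    (h : Ok K d ([⟨1, 0, []⟩, ⟨0, 1, []⟩] : List Pnt)) :
    ∃ w : ℝ × ℝ, ∀ c ≤ K + 1, 0 < crs (d c) w := by
  obtain ⟨q, hq⟩ := h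
  refine ⟨q 1 - q 0, fun c hc => hq 0 (by simp) 1 (by simp) c hc ?_⟩
  rcases Nat.lt_or_ge c (K + 1) with h | h
  · rw [before_fin (by omega)]; left; simp; omega
  · obtain rfl : c = K + 1 := by omega
    rw [before_inf]; left; simp

/-- The groups `1 + c`. -/
theorem exists_a {K : ℕ} {d : ℕ → ℝ × ℝ} {c : ℕ} (hc : c ≤ K)
    (h : Ok K d ([⟨0, 0, []⟩, ⟨2, 2 * c + 1, []⟩] : List Pnt)) :
    ∃ a : ℝ × ℝ, (∀ i ≤ c, 0 < crs (d i) a) ∧ ∀ i, c < i → i ≤ K + 1 → crs (d i) a < 0 := by
  obtain ⟨q, hq⟩ := h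
  refine ⟨q 1 - q 0, fun i hi => hq 0 (by simp) 1 (by simp) i (by omega) ?_, fun i hi hi' => ?_⟩
  · rw [before_fin (by omega)]; left; simp; omega
  · have := hq 1 (by simp) 0 (by simp) i hi' (by
      rcases Nat.lt_or_ge i (K + 1) with h | h
      · rw [before_fin (by omega)]; left; simp; omega
      · obtain rfl : i = K + 1 := by omega
        rw [before_inf]; left; simp)
    rw [crs_sub] at this ⊢
    linarith

theorem directions {K : ℕ} {d : ℕ → ℝ × ℝ} {w : ℝ × ℝ} (hw : ∀ c ≤ K + 1, 0 < crs (d c) w)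
    (ha : ∀ c ≤ K, ∃ a : ℝ × ℝ, (∀ i ≤ c, 0 < crs (d i) a) ∧
      ∀ i, c < i → i ≤ K + 1 → crs (d i) a < 0) :
    (∀ i j, i < j → j ≤ K + 1 → 0 < crs (d i) (d j)) ∨
      ∀ i j, i < j → j ≤ K + 1 → crs (d i) (d j) < 0 := by
  -- the sign of `crs (d i) (d j)` is opposite to the one of `crs w a`
  have key : ∀ c ≤ K, ∃ s : ℝ, ∀ i j, i ≤ c → c < j → j ≤ K + 1 → crs (d i) (d j) * s < 0 := by
    intro c hc
    obtain ⟨a, h1, h2⟩ := ha c hc
    refine ⟨crs w a, fun i j hi hj hj' => ?_⟩
    rw [← crs_plucker (d i) (d j) w a]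
    have p1 := mul_neg_of_pos_of_neg (hw i (by omega)) (h2 j hj hj')
    have p2 := mul_pos (hw j hj') (h1 i hi)
    linarith
  have hne : crs (d 0) (d (K + 1)) ≠ 0 := by
    obtain ⟨s, hs⟩ := key 0 (by omega)
    intro h0
    have := hs 0 (K + 1) le_rfl (by omega) le_rfl
    rw [h0, zero_mul] at this
    exact lt_irrefl _ this
  rcases lt_or_gt_of_ne hne with h0 | h0
  · right
    intro i j hij hj
    obtain ⟨s, hs⟩ := key i (by omega)
    have t1 := hs 0 (K + 1) (by omega) (by omega) le_rfl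
    have t2 := hs i j le_rfl hij hj
    have s0 : 0 < s := by
      by_contra hcon
      have : 0 ≤ crs (d 0) (d (K + 1)) * s := mul_nonneg_of_nonpos_of_nonpos h0.le (by linarith)
      linarith
    by_contra hcon
    have : 0 ≤ crs (d i) (d j) * s := mul_nonneg (by linarith) s0.le
    linarith
  · left
    intro i j hij hj
    obtain ⟨s, hs⟩ := key i (by omega)
    have t1 := hs 0 (K + 1) (by omega) (by omega) le_rfl
    have t2 := hs i j le_rfl hij hj
    have s0 : s < 0 := by
      by_contra hcon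
      have : 0 ≤ crs (d 0) (d (K + 1)) * s := mul_nonneg h0.le (by linarith)
      linarith
    by_contra hcon
    have : 0 ≤ crs (d i) (d j) * s := mul_nonneg_of_nonpos_of_nonpos (by linarith) s0.le
    linarith

/-- Reflection. -/
theorem ok_refl {K : ℕ} {d : ℕ → ℝ × ℝ} {g : List Pnt} (h : Ok K d g) :
    Ok K (fun c => (-(d c).2, -(d c).1)) g := by
  obtain ⟨q, hq⟩ := h
  refine ⟨fun i => ((q i).2, (q i).1), fun i hi i' hi' c hc hb => ?_⟩
  have := hq i hi i' hi' c hc hb
  have e : crs (-(d c).2, -(d c).1) (((q i').2, (q i').1) - ((q i).2, (q i).1)) =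
      crs (d c) (q i' - q i) := by
    simp only [crs, Prod.fst_sub, Prod.snd_sub]; ring
  show 0 < crs (-(d c).2, -(d c).1) (((q i').2, (q i').1) - ((q i).2, (q i).1))
  rw [e]; exact this

theorem realizable_of_pos {K : ℕ} {cs : List TC} (hcs : ∀ c ∈ cs, c.WF K) {d : ℕ → ℝ × ℝ}
    (hd : ∀ i j, i < j → j ≤ K + 1 → 0 < crs (d i) (d j)) (h : ∀ g ∈ groups K cs, Ok K d g) :
    Realizable K cs := by
  refine ⟨fun c => crs (d 0) (d c) / crs (d c) (d (K + 1)), slopes_mono hd, fun c hc => ?_⟩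
  exact holds_of_okV (slopes_mono hd) (hcs c hc) (ok_trans hd (h _ (mem_groups_cs K cs hc)))

end GSound

/-- If the points of the groups can be placed with the prescribed orders in directions `d c`, then
the slope constraints are realizable. -/
theorem groups_sound (K : ℕ) (cs : List TC) (hcs : ∀ c ∈ cs, c.WF K) (d : ℕ → ℝ × ℝ)
    (pos : ℕ → ℕ → ℝ × ℝ)
    (h : ∀ j < (groups K cs).length, ∀ i < ((groups K cs).getD j []).length,
      ∀ i' < ((groups K cs).getD j []).length, ∀ c ≤ K + 1,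
      (pnt (groups K cs) j i).Before K c (pnt (groups K cs) j i') →
        0 < crs (d c) (pos j i' - pos j i)) :
    Realizable K cs := by
  have hok := GSound.ok_groups h
  obtain ⟨w, hw⟩ := GSound.exists_w (hok _ (GSound.mem_groups_zero K cs))
  have ha := fun (c : ℕ) (hc : c ≤ K) => GSound.exists_a hc (hok _ (GSound.mem_groups_mid K cs hc))
  rcases GSound.directions hw ha with hd | hd
  · exact GSound.realizable_of_pos hcs hd hok
  · refine GSound.realizable_of_pos hcs (d := fun c => (-(d c).2, -(d c).1)) ?_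
      (fun g hg => GSound.ok_refl (hok g hg))
    intro i j hij hj
    have := hd i j hij hj
    have e : crs (-(d i).2, -(d i).1) (-(d j).2, -(d j).1) = - crs (d i) (d j) := by
      simp only [crs]; ring
    show 0 < crs (-(d i).2, -(d i).1) (-(d j).2, -(d j).1)
    rw [e]; linarith

end Pool.Agent.Lib.MP_612bca_lc
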