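import Pool.Agent.Lib.MP_612bca_lc.PlaneDefs

/-!
# Local properties of the empty triangles of a plane straight-line graph
-/

namespace Pool.Agent.Lib.MP_612bca_lc

section

variable {V : Type*} {p : V → ℝ × ℝ} {A : V → V → Prop}

/-- Two edges from `m` in the same direction are equal. -/
theorem same_dir (hp : Plane p A) {m x x' : V} (hx : A m x) (hx' : A m x') (d : ℝ × ℝ)
    (h0 : crs (p x - p m) (p x' - p m) = 0) (h1 : 0 < crs (p x - p m) d)
    (h2 : 0 < crs (p x' - p m) d) : x = x' := by
  have key : ∀ {u v : V}, A m u → A m v → crs (p u - p m) (p v - p m) = 0 →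
      0 < crs (p u - p m) d → 0 < crs (p v - p m) d →
      crs (p u - p m) d ≤ crs (p v - p m) d → u = v := by
    intro u v hu hv h0 h1 h2 hle
    have hseg : p u ∈ segment ℝ (p m) (p v) := by
      rw [segment_eq_image']
      refine ⟨crs (p u - p m) d / crs (p v - p m) d, ⟨by positivity, ?_⟩, ?_⟩
      · rw [div_le_one h2]; exact hle
      · have e1 : (p u - p m).1 * crs (p v - p m) d = (p v - p m).1 * crs (p u - p m) d := by
          unfold crs at h0 ⊢
          linear_combination (-d.1) * h0
        have e2 : (p u - p m).2 * crs (p v - p m) d = (p v - p m).2 * crs (p u - p m) d := by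
          unfold crs at h0 ⊢
          linear_combination (-d.2) * h0
        have hne : crs (p v - p m) d ≠ 0 := h2.ne'
        apply Prod.ext
        · simp only [Prod.fst_add, Prod.smul_fst, smul_eq_mul]
          have : crs (p u - p m) d / crs (p v - p m) d * (p v - p m).1 = (p u - p m).1 := by
            rw [div_mul_eq_mul_div, div_eq_iff hne]; linarith
          rw [this]; simp
        · simp only [Prod.snd_add, Prod.smul_snd, smul_eq_mul]
          have : crs (p u - p m) d / crs (p v - p m) d * (p v - p m).2 = (p u - p m).2 := by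
            rw [div_mul_eq_mul_div, div_eq_iff hne]; linarith
          rw [this]; simp
    rcases hp.avoid m v u hv hseg with h | h
    · subst h; exact absurd hu (hp.irrefl _)
    · exact h
  rcases le_total (crs (p x - p m) d) (crs (p x' - p m) d) with h | h
  · exact key hx hx' h0 h1 h2 h
  · refine (key hx' hx ?_ h2 h1 h).symm
    have : crs (p x' - p m) (p x - p m) = - crs (p x - p m) (p x' - p m) := by unfold crs; ring
    rw [this, h0, neg_zero]

theorem Tri.cone (hp : Plane p A) {m x y z : V} (h : Tri p A m x y) (hz : A m z) :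
    ¬ (0 < ori (p m) (p x) (p z) ∧ 0 < ori (p m) (p z) (p y)) := by
  rintro ⟨ha, hb⟩
  obtain ⟨hmx, hxy, hym, hD, hemp⟩ := h
  have hzm : z ≠ m := by rintro rfl; exact hp.irrefl _ hz
  have hzx : z ≠ x := by
    rintro rfl; unfold ori crs at ha; nlinarith
  have hzy : z ≠ y := by
    rintro rfl; unfold ori crs at hb; nlinarith
  have hout := hemp z ⟨m, hp.symm _ _ hz⟩ hzm hzx hzy
  set a := ori (p m) (p x) (p z) with ea
  set b := ori (p m) (p z) (p y) with eb
  set D := ori (p m) (p x) (p y) with eD
  have e1 : D * ((p z).1 - (p m).1) = b * ((p x).1 - (p m).1) + a * ((p y).1 - (p m).1) := by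
    rw [eD, eb, ea]; simp only [ori, crs, Prod.fst_sub, Prod.snd_sub]; ring
  have e2 : D * ((p z).2 - (p m).2) = b * ((p x).2 - (p m).2) + a * ((p y).2 - (p m).2) := by
    rw [eD, eb, ea]; simp only [ori, crs, Prod.fst_sub, Prod.snd_sub]; ring
  clear_value a b D
  by_cases hab : a + b ≤ D
  · apply hout
    rw [convexHull_insert (by simp), convexHull_pair]
    rw [mem_convexJoin]
    refine ⟨p m, rfl, ?_⟩
    refine ⟨(b / (a + b)) • p x + (a / (a + b)) • p y, ?_, ?_⟩
    · exact ⟨b / (a + b), a / (a + b), by positivity, by positivity, by field_simp; ring, rfl⟩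
    · refine ⟨1 - (a + b) / D, (a + b) / D, ?_, by positivity, by ring, ?_⟩
      · rw [sub_nonneg, div_le_one hD]; exact hab
      · have hs : (a + b) ≠ 0 := by positivity
        apply Prod.ext
        · simp only [Prod.fst_add, Prod.smul_fst, smul_eq_mul]
          field_simp
          linarith
        · simp only [Prod.snd_add, Prod.smul_snd, smul_eq_mul]
          field_simp
          linarith
  · push Not at hab
    have hs : (a + b) ≠ 0 := by positivity
    have hne : s(m, z) ≠ s(x, y) := by
      intro h
      rw [Sym2.eq_iff] at h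
      rcases h with ⟨h, _⟩ | ⟨h, _⟩
      · subst h; exact hp.irrefl _ hmx
      · subst h; exact hp.irrefl _ hym
    refine hp.nocross m z x y hz hxy hne ⟨(b / (a + b)) • p x + (a / (a + b)) • p y, ?_, ?_, ?_⟩
    · refine ⟨1 - D / (a + b), D / (a + b), ?_, by positivity, by ring, ?_⟩
      · rw [sub_nonneg, div_le_one (by positivity)]; exact hab.le
      · apply Prod.ext
        · simp only [Prod.fst_add, Prod.smul_fst, smul_eq_mul]
          field_simp
          linarith
        · simp only [Prod.snd_add, Prod.smul_snd, smul_eq_mul]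
          field_simp
          linarith
    · exact ⟨b / (a + b), a / (a + b), by positivity, by positivity, by field_simp; ring, rfl⟩
    · rintro ⟨_, hq⟩
      have hxyne : (p x).1 ≠ (p y).1 := by
        intro h
        have := hp.xinj _ _ h
        subst this
        exact hp.irrefl _ hxy
      rcases hq with hq | hq
      · have h1 := congrArg Prod.fst hq
        simp only [Prod.fst_add, Prod.smul_fst, smul_eq_mul] at h1
        apply hxyne
        field_simp at h1
        have : a * ((p y).1 - (p x).1) = 0 := by linarith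
        rcases mul_eq_zero.mp this with h | h
        · linarith
        · linarith
      · have h1 := congrArg Prod.fst hq
        simp only [Prod.fst_add, Prod.smul_fst, smul_eq_mul] at h1
        apply hxyne
        field_simp at h1
        have : b * ((p x).1 - (p y).1) = 0 := by linarith
        rcases mul_eq_zero.mp this with h | h
        · linarith
        · linarith

theorem Tri.unique (hp : Plane p A) {x y z z' : V} (h : Tri p A x y z) (h' : Tri p A x y z') :
    z = z' := by
  have hz : A x z := hp.symm _ _ h.2.2.1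
  have hz' : A x z' := hp.symm _ _ h'.2.2.1
  have c1 := Tri.cone hp h hz'
  have c2 := Tri.cone hp h' hz
  have o1 := h.2.2.2.1
  have o2 := h'.2.2.2.1
  have e : ori (p x) (p z') (p z) = - ori (p x) (p z) (p z') := by unfold ori crs; ring
  have n1 : ¬ 0 < ori (p x) (p z') (p z) := fun h3 => c1 ⟨o2, h3⟩
  have n2 : ¬ 0 < ori (p x) (p z) (p z') := fun h3 => c2 ⟨o1, h3⟩
  have h0 : ori (p x) (p z) (p z') = 0 := by
    rw [e] at n1; push Not at n1 n2; linarith
  refine same_dir hp hz hz' (-(p y - p x)) h0 ?_ ?_
  · have : crs (p z - p x) (-(p y - p x)) = ori (p x) (p y) (p z) := by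
      simp only [ori, crs, Prod.fst_sub, Prod.snd_sub, Prod.fst_neg, Prod.snd_neg]; ring
    rw [this]; exact o1
  · have : crs (p z' - p x) (-(p y - p x)) = ori (p x) (p y) (p z') := by
      simp only [ori, crs, Prod.fst_sub, Prod.snd_sub, Prod.fst_neg, Prod.snd_neg]; ring
    rw [this]; exact o2

/-- Two empty triangles at `m` whose angles at `m` contain the same direction are equal. -/
theorem Tri.common (hp : Plane p A) {m x y x' y' : V} (h : Tri p A m x y) (h' : Tri p A m x' y')
    (d : ℝ × ℝ) (h1 : 0 < crs (p x - p m) d) (h2 : 0 < crs d (p y - p m))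
    (h3 : 0 < crs (p x' - p m) d) (h4 : 0 < crs d (p y' - p m)) : x = x' ∧ y = y' := by
  have keyx : ∀ {x y x' y' : V}, Tri p A m x y → Tri p A m x' y' →
      0 < crs (p x - p m) d → 0 < crs d (p y - p m) →
      0 < crs (p x' - p m) d → 0 < crs d (p y' - p m) →
      ¬ 0 < crs (p x - p m) (p x' - p m) := by
    intro x y x' y' h h' h1 h2 h3 h4 hpos
    refine Tri.cone hp h h'.1 ⟨hpos, ?_⟩
    have hD := h.2.2.2.1
    have e : crs (p x - p m) d * ori (p m) (p x') (p y) =
        crs (p x' - p m) d * ori (p m) (p x) (p y) +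
          crs (p x - p m) (p x' - p m) * crs d (p y - p m) := by
      simp only [ori, crs, Prod.fst_sub, Prod.snd_sub]; ring
    have : 0 < crs (p x - p m) d * ori (p m) (p x') (p y) := by rw [e]; positivity
    exact (mul_pos_iff_of_pos_left h1).mp this
  have keyy : ∀ {x y x' y' : V}, Tri p A m x y → Tri p A m x' y' →
      0 < crs (p x - p m) d → 0 < crs d (p y - p m) →
      0 < crs (p x' - p m) d → 0 < crs d (p y' - p m) →
      ¬ 0 < crs (p y' - p m) (p y - p m) := by
    intro x y x' y' h h' h1 h2 h3 h4 hpos
    refine Tri.cone hp h (hp.symm _ _ h'.2.2.1) ⟨?_, hpos⟩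
    have hD := h.2.2.2.1
    have e : crs d (p y - p m) * ori (p m) (p x) (p y') =
        crs d (p y' - p m) * ori (p m) (p x) (p y) +
          crs (p y' - p m) (p y - p m) * crs (p x - p m) d := by
      simp only [ori, crs, Prod.fst_sub, Prod.snd_sub]; ring
    have : 0 < crs d (p y - p m) * ori (p m) (p x) (p y') := by rw [e]; positivity
    exact (mul_pos_iff_of_pos_left h2).mp this
  constructor
  · have n1 := keyx h h' h1 h2 h3 h4
    have n2 := keyx h' h h3 h4 h1 h2
    have e : crs (p x' - p m) (p x - p m) = - crs (p x - p m) (p x' - p m) := by unfold crs; ring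
    rw [e] at n2
    push Not at n1 n2
    exact same_dir hp h.1 h'.1 d (by linarith) h1 h3
  · have n1 := keyy h h' h1 h2 h3 h4
    have n2 := keyy h' h h3 h4 h1 h2
    have e : crs (p y' - p m) (p y - p m) = - crs (p y - p m) (p y' - p m) := by unfold crs; ring
    rw [e] at n1
    push Not at n1 n2
    have e' : ∀ w, crs w (-d) = crs d w := by intro w; simp only [crs, Prod.fst_neg, Prod.snd_neg]; ring
    exact same_dir hp (hp.symm _ _ h.2.2.1) (hp.symm _ _ h'.2.2.1) (-d) (by linarith)
      (by rw [e']; exact h2) (by rw [e']; exact h4)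

theorem Tri.middle (hp : Plane p A) {m x y x' y' : V} (h : Tri p A m x y) (h' : Tri p A m x' y')
    (h1 : (p x).1 < (p m).1) (h2 : (p m).1 < (p y).1) (h3 : (p x').1 < (p m).1)
    (h4 : (p m).1 < (p y').1) : x = x' ∧ y = y' := by
  refine Tri.common hp h h' (0, -1) ?_ ?_ ?_ ?_ <;>
    simp only [crs, Prod.fst_sub, Prod.snd_sub] <;> linarith

theorem Tri.middle' (hp : Plane p A) {m x y x' y' : V} (h : Tri p A m x y) (h' : Tri p A m x' y')
    (h1 : (p y).1 < (p m).1) (h2 : (p m).1 < (p x).1) (h3 : (p y').1 < (p m).1)
    (h4 : (p m).1 < (p x').1) : x = x' ∧ y = y' := by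
  refine Tri.common hp h h' (0, 1) ?_ ?_ ?_ ?_ <;>
    simp only [crs, Prod.fst_sub, Prod.snd_sub] <;> linarith

end

end Pool.Agent.Lib.MP_612bca_lc
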