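import Pool.Agent.Lib.MP_612bca_lc.Local
import Pool.Agent.Lib.MP_612bca_lc.Cols
import Pool.Agent.Lib.MP_612bca_lc.TriLocal
import Pool.Agent.Lib.MP_612bca_lc.FewBad

/-!
# The link of a good vertex
-/

namespace Pool.Agent.Lib.MP_612bca_lc

section

variable {V : Type*} {p : V → ℝ × ℝ} {A : V → V → Prop}

theorem ori_swap (a b c : ℝ × ℝ) : ori a c b = -ori a b c := by
  simp only [ori, crs, Prod.fst_sub, Prod.snd_sub]
  ring

theorem ori_cyc (a b c : ℝ × ℝ) : ori b c a = ori a b c := by
  simp only [ori, crs, Prod.fst_sub, Prod.snd_sub]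
  ring

theorem Tri.cyc {x y z : V} (h : Tri p A x y z) : Tri p A y z x := by
  obtain ⟨h1, h2, h3, h4, h5⟩ := h
  refine ⟨h2, h3, h1, ?_, fun w hw a b c => ?_⟩
  · rw [ori_cyc]; exact h4
  · have h6 := h5 w hw c a b
    have h7 : ({p x, p y, p z} : Set (ℝ × ℝ)) = {p y, p z, p x} := by
      ext u
      simp only [Set.mem_insert_iff, Set.mem_singleton_iff]
      tauto
    rw [h7] at h6
    exact h6

theorem Tri.asymm {x y z : V} (h : Tri p A x y z) (h' : Tri p A x z y) : False := by
  have h1 := h.2.2.2.1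
  have h2 := h'.2.2.2.1
  rw [ori_swap] at h2
  linarith

/-- `Tri` with a sign: for `s = false` the triangle is `x, z, y`. -/
def STri (p : V → ℝ × ℝ) (A : V → V → Prop) (s : Bool) (x y z : V) : Prop :=
  if s then Tri p A x y z else Tri p A x z y

theorem STri.cyc {s : Bool} {x y z : V} (h : STri p A s x y z) : STri p A s y z x := by
  cases s
  · simp only [STri, Bool.false_eq_true, if_false] at h ⊢
    exact h.cyc.cyc
  · simp only [STri, if_true] at h ⊢
    exact h.cyc

theorem STri.swap {s : Bool} {x y z : V} (h : STri p A s x y z) : STri p A (!s) x z y := by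
  cases s
  · simpa [STri] using h
  · simpa [STri] using h

theorem STri.asymm {s : Bool} {x y z : V} (h : STri p A s x y z) (h' : STri p A s x z y) :
    False := by
  cases s
  · simp only [STri, Bool.false_eq_true, if_false] at h h'
    exact h.asymm h'
  · simp only [STri, if_true] at h h'
    exact h.asymm h'

theorem STri.unique (hp : Plane p A) {s : Bool} {x y z z' : V} (h : STri p A s x y z)
    (h' : STri p A s x y z') : z = z' := by
  cases s
  · simp only [STri, Bool.false_eq_true, if_false] at h h'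
    exact Tri.unique hp h.cyc.cyc h'.cyc.cyc
  · simp only [STri, if_true] at h h'
    exact Tri.unique hp h h'

theorem STri.adj {s : Bool} {x y z : V} (hp : Plane p A) (h : STri p A s x y z) :
    A x y ∧ A y z ∧ A z x := by
  cases s
  · simp only [STri, Bool.false_eq_true, if_false] at h
    exact ⟨hp.symm _ _ h.2.2.1, hp.symm _ _ h.2.1, hp.symm _ _ h.1⟩
  · simp only [STri, if_true] at h
    exact ⟨h.1, h.2.1, h.2.2.1⟩

end

/-- A moving injective self-map of a short path without 2-cycles has an exit. -/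
theorem path_no_exit (n : ℕ) (h1 : 1 ≤ n) (h4 : n ≤ 4) (g : ℕ → ℕ)
    (hg : ∀ i < n, g i < n ∧ (g i = i + 1 ∨ i = g i + 1))
    (hinj : ∀ i < n, ∀ j < n, g i = g j → i = j)
    (h2 : ∀ i < n, ∀ j < n, g i = j → g j ≠ i) : False := by
  have hn : n = 1 ∨ n = 2 ∨ n = 3 ∨ n = 4 := by omega
  rcases hn with rfl | rfl | rfl | rfl
  · have := hg 0; omega
  · have a0 := hg 0; have a1 := hg 1
    have b01 := h2 0 (by omega) 1 (by omega)
    omega
  · have a0 := hg 0; have a1 := hg 1; have a2 := hg 2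
    have c02 := hinj 0 (by omega) 2 (by omega)
    omega
  · have a0 := hg 0; have a1 := hg 1; have a2 := hg 2; have a3 := hg 3
    have b01 := h2 0 (by omega) 1 (by omega)
    have b12 := h2 1 (by omega) 2 (by omega)
    have b23 := h2 2 (by omega) 3 (by omega)
    have c13 := hinj 1 (by omega) 3 (by omega)
    have c02 := hinj 0 (by omega) 2 (by omega)
    omega

/-- Structure of an injective moving map with one exit. -/
theorem path_one_exit (n : ℕ) (h1 : 1 ≤ n) (h4 : n ≤ 4) (e : ℕ) (he : e < n) (g : ℕ → ℕ)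
    (hg : ∀ i < n, i ≠ e → g i < n ∧ (g i = i + 1 ∨ i = g i + 1))
    (hinj : ∀ i < n, ∀ j < n, i ≠ e → j ≠ e → g i = g j → i = j)
    (h2 : ∀ i < n, ∀ j < n, i ≠ e → j ≠ e → g i = j → g j ≠ i) :
    (e = n - 1 ∧ ∀ i, i + 1 < n → g i = i + 1) ∨ (e = 0 ∧ ∀ i, i + 1 < n → g (i + 1) = i) := by
  have hn : n = 1 ∨ n = 2 ∨ n = 3 ∨ n = 4 := by omega
  rcases hn with rfl | rfl | rfl | rfl
  · left; exact ⟨by omega, fun i hi => by omega⟩
  · have a0 := hg 0; have a1 := hg 1
    by_cases h : e = 1
    · left; exact ⟨by omega, fun i hi => by have : i = 0 := by omega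
                                            subst this; omega⟩
    · right; exact ⟨by omega, fun i hi => by have : i = 0 := by omega
                                             subst this; simp only [Nat.zero_add]; omega⟩
  · have a0 := hg 0; have a1 := hg 1; have a2 := hg 2
    have c02 := hinj 0 (by omega) 2 (by omega)
    have b01 := h2 0 (by omega) 1 (by omega)
    have b12 := h2 1 (by omega) 2 (by omega)
    by_cases h : e = 2
    · left; exact ⟨by omega, fun i hi => by
        have : i = 0 ∨ i = 1 := by omega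
        rcases this with rfl | rfl <;> omega⟩
    · right; exact ⟨by omega, fun i hi => by
        have : i = 0 ∨ i = 1 := by omega
        rcases this with rfl | rfl <;> simp only [Nat.zero_add, Nat.reduceAdd] <;> omega⟩
  · have a0 := hg 0; have a1 := hg 1; have a2 := hg 2; have a3 := hg 3
    have b01 := h2 0 (by omega) 1 (by omega)
    have b12 := h2 1 (by omega) 2 (by omega)
    have b23 := h2 2 (by omega) 3 (by omega)
    have c13 := hinj 1 (by omega) 3 (by omega)
    have c02 := hinj 0 (by omega) 2 (by omega)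
    by_cases h : e = 3
    · left; exact ⟨by omega, fun i hi => by
        have : i = 0 ∨ i = 1 ∨ i = 2 := by omega
        rcases this with rfl | rfl | rfl <;> omega⟩
    · right; exact ⟨by omega, fun i hi => by
        have : i = 0 ∨ i = 1 ∨ i = 2 := by omega
        rcases this with rfl | rfl | rfl <;> simp only [Nat.zero_add, Nat.reduceAdd] <;> omega⟩

section link

variable {V : Type*} {Γ : SimpleGraph V} {k : ℕ} {p : V → ℝ × ℝ} {col : Sym2 V → ℕ}

/-- The link of a good vertex `w` whose neighbours are `k` hubs and `k` short paths. -/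
theorem link (hD : ColDrawing Γ k p col) {w : V} (hw : Good Γ k p col w)
    (n : Fin k → ℕ) (x : Fin k → ℕ → V) (hb : Fin k → V)
    (hn : ∀ c, 1 ≤ n c ∧ n c ≤ 4)
    (hadj : ∀ l, Γ.Adj w l ↔ (∃ c, ∃ i < n c, l = x c i) ∨ ∃ c, l = hb c)
    (hx : ∀ c c' i i', i < n c → i' < n c' → x c i = x c' i' → c = c' ∧ i = i')
    (hxh : ∀ c i c', i < n c → x c i ≠ hb c')
    (hhh : ∀ c c', ¬ Γ.Adj (hb c) (hb c'))
    (hxx : ∀ c c' i i', i < n c → i' < n c' → Γ.Adj (x c i) (x c' i') →
      c = c' ∧ (i' = i + 1 ∨ i = i' + 1)) :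
    ∃ (κ : Fin k → ℕ) (h : Fin k → Fin k) (s : Fin k → Bool), Function.Injective κ ∧
      (∀ c, κ c < k) ∧ Function.Injective h ∧ ∀ c,
        (∀ i, i + 1 < n c → STri p (ColAdj Γ col (κ c)) (s c) w (x c i) (x c (i + 1))) ∧
        STri p (ColAdj Γ col (κ c)) (s c) w (x c (n c - 1)) (hb (h c)) ∧
        STri p (ColAdj Γ col (κ c)) (s c) w (hb (h c)) (x c 0) := by
  classical
  set cl : V → ℕ := fun l => col s(w, l) with hcl
  have hσex : ∀ l, Γ.Adj w l → ∃ z, Tri p (ColAdj Γ col (cl l)) w l z := fun l hl =>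
    ((hw (cl l) (hD.lt _ _ hl)).2 l ⟨hl, rfl⟩).1
  choose! σ hσ using hσex
  -- basic properties
  have hσadj : ∀ l, Γ.Adj w l → Γ.Adj w (σ l) ∧ cl (σ l) = cl l := by
    intro l hl
    have h3 := (hσ l hl).2.2.1
    refine ⟨h3.1.symm, ?_⟩
    rw [hcl]
    show col s(w, σ l) = col s(w, l)
    rw [Sym2.eq_swap]
    exact h3.2
  have hσll : ∀ l, Γ.Adj w l → Γ.Adj l (σ l) := fun l hl => (hσ l hl).2.1.1
  have hσinj : ∀ a b, Γ.Adj w a → Γ.Adj w b → σ a = σ b → a = b := by
    intro a b ha hb' hab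
    have h1 := (hσ a ha)
    have h2 := (hσ b hb')
    have hc : cl a = cl b := by rw [← (hσadj a ha).2, ← (hσadj b hb').2, hab]
    rw [hab] at h1
    rw [hc] at h1
    exact Tri.unique (hD.plane _) h1.cyc.cyc h2.cyc.cyc
  have hσ2 : ∀ a, Γ.Adj w a → σ (σ a) ≠ a := by
    intro a ha hcon
    have h1 := hσ a ha
    have h2 := hσ (σ a) (hσadj a ha).1
    rw [hcon, (hσadj a ha).2] at h2
    exact h1.asymm h2
  have hadjx : ∀ c i, i < n c → Γ.Adj w (x c i) := fun c i hi => (hadj _).2 (Or.inl ⟨c, i, hi, rfl⟩)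
  have hadjh : ∀ c, Γ.Adj w (hb c) := fun c => (hadj _).2 (Or.inr ⟨c, rfl⟩)
  -- image of a path vertex
  have hstep : ∀ c i, i < n c → (∃ i' < n c, σ (x c i) = x c i' ∧ (i' = i + 1 ∨ i = i' + 1)) ∨
      ∃ c', σ (x c i) = hb c' := by
    intro c i hi
    rcases (hadj _).1 (hσadj _ (hadjx c i hi)).1 with ⟨c', i', hi', he⟩ | ⟨c', he⟩
    · left
      have h3 := hσll _ (hadjx c i hi)
      rw [he] at h3
      obtain ⟨rfl, h4⟩ := hxx c c' i i' hi hi' h3
      exact ⟨i', hi', he, h4⟩
    · exact Or.inr ⟨c', he⟩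
  -- existence of exits
  have hexit : ∀ c, ∃ i c', i < n c ∧ σ (x c i) = hb c' := by
    intro c
    by_contra hcon
    push Not at hcon
    have h1 : ∀ i, ∃ i', i < n c → i' < n c ∧ σ (x c i) = x c i' ∧ (i' = i + 1 ∨ i = i' + 1) := by
      intro i
      by_cases hi : i < n c
      · rcases hstep c i hi with ⟨i', h⟩ | ⟨c', h⟩
        · exact ⟨i', fun _ => h⟩
        · exact absurd h (hcon i c' hi)
      · exact ⟨0, fun h => absurd h hi⟩
    choose g hg using h1
    refine path_no_exit (n c) (hn c).1 (hn c).2 g (fun i hi => ⟨(hg i hi).1, (hg i hi).2.2⟩) ?_ ?_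
    · intro i hi j hj hij
      have h2 : σ (x c i) = σ (x c j) := by rw [(hg i hi).2.1, (hg j hj).2.1, hij]
      exact (hx _ _ _ _ hi hj (hσinj _ _ (hadjx c i hi) (hadjx c j hj) h2)).2
    · intro i hi j hj hij hji
      have h2 : σ (σ (x c i)) = x c i := by
        rw [(hg i hi).2.1, hij, (hg j hj).2.1, hji]
      exact hσ2 _ (hadjx c i hi) h2
  choose e ex he hex using hexit
  have hexinj : Function.Injective ex := by
    intro c c' hcc
    have h1 : σ (x c (e c)) = σ (x c' (e c')) := by rw [hex c, hex c', hcc]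
    exact (hx _ _ _ _ (he c) (he c') (hσinj _ _ (hadjx _ _ (he c)) (hadjx _ _ (he c')) h1)).1
  have hexsur : Function.Surjective ex := Finite.injective_iff_surjective.1 hexinj
  have hexit_unique : ∀ c i c', i < n c → σ (x c i) = hb c' → i = e c := by
    intro c i c' hi h
    obtain ⟨c2, rfl⟩ := hexsur c'
    have h1 : σ (x c i) = σ (x c2 (e c2)) := by rw [h, hex c2]
    obtain ⟨rfl, h2⟩ := hx _ _ _ _ hi (he c2) (hσinj _ _ (hadjx _ _ hi) (hadjx _ _ (he c2)) h1)
    exact h2
  -- structure of the paths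
  have hstr : ∀ c, (e c = n c - 1 ∧ ∀ i, i + 1 < n c → σ (x c i) = x c (i + 1)) ∨
      (e c = 0 ∧ ∀ i, i + 1 < n c → σ (x c (i + 1)) = x c i) := by
    intro c
    have h1 : ∀ i, ∃ i', i < n c → i ≠ e c →
        i' < n c ∧ σ (x c i) = x c i' ∧ (i' = i + 1 ∨ i = i' + 1) := by
      intro i
      by_cases hi : i < n c
      · rcases hstep c i hi with ⟨i', h⟩ | ⟨c', h⟩
        · exact ⟨i', fun _ _ => h⟩
        · exact ⟨0, fun _ hne => absurd (hexit_unique c i c' hi h) hne⟩
      · exact ⟨0, fun h => absurd h hi⟩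
    choose g hg using h1
    have h2 := path_one_exit (n c) (hn c).1 (hn c).2 (e c) (he c) g
      (fun i hi hie => ⟨(hg i hi hie).1, (hg i hi hie).2.2⟩)
      (by
        intro i hi j hj hie hje hij
        have h2 : σ (x c i) = σ (x c j) := by rw [(hg i hi hie).2.1, (hg j hj hje).2.1, hij]
        exact (hx _ _ _ _ hi hj (hσinj _ _ (hadjx c i hi) (hadjx c j hj) h2)).2)
      (by
        intro i hi j hj hie hje hij hji
        have h2 : σ (σ (x c i)) = x c i := by
          rw [(hg i hi hie).2.1, hij, (hg j hj hje).2.1, hji]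
        exact hσ2 _ (hadjx c i hi) h2)
    rcases h2 with ⟨h3, h4⟩ | ⟨h3, h4⟩
    · left
      refine ⟨h3, fun i hi => ?_⟩
      rw [(hg i (by omega) (by omega)).2.1, h4 i hi]
    · right
      refine ⟨h3, fun i hi => ?_⟩
      rw [(hg (i + 1) hi (by omega)).2.1, h4 i hi]
  -- colours
  have hclx : ∀ c i, i < n c → cl (x c i) = cl (x c 0) := by
    intro c i
    induction i with
    | zero => intro _; rfl
    | succ i ih =>
      intro hi
      rw [← ih (by omega)]
      rcases hstr c with ⟨_, h⟩ | ⟨_, h⟩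
      · rw [← h i hi]
        exact (hσadj _ (hadjx c i (by omega))).2
      · rw [← h i hi]
        exact (hσadj _ (hadjx c (i + 1) hi)).2.symm
  have hclh : ∀ c, cl (hb (ex c)) = cl (x c 0) := by
    intro c
    rw [← hex c, (hσadj _ (hadjx c _ (he c))).2]
    exact hclx c _ (he c)
  have hκlt : ∀ c, cl (x c 0) < k := fun c => hD.lt _ _ (hadjx c 0 (by have := (hn c).1; omega))
  have hκsur : ∀ κ < k, ∃ c, cl (x c 0) = κ := by
    intro κ hκ
    obtain ⟨l, hl1, hl2⟩ := (hw κ hκ).1
    rcases (hadj l).1 hl1 with ⟨c, i, hi, rfl⟩ | ⟨c, rfl⟩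
    · exact ⟨c, by rw [← hclx c i hi]; exact hl2⟩
    · obtain ⟨c', rfl⟩ := hexsur c
      exact ⟨c', by rw [← hclh c']; exact hl2⟩
  have hκinj : Function.Injective fun c => cl (x c 0) := by
    have h1 : Function.Surjective fun c : Fin k => (⟨cl (x c 0), hκlt c⟩ : Fin k) := by
      intro κ
      obtain ⟨c, hc⟩ := hκsur κ.1 κ.2
      exact ⟨c, Fin.ext hc⟩
    have h2 := Finite.injective_iff_surjective.2 h1
    intro c c' hcc
    exact h2 (Fin.ext hcc)
  -- entrance
  have hent : ∀ c, ∃ i < n c, σ (hb (ex c)) = x c i ∧ ∀ j < n c, σ (x c j) ≠ x c i := by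
    intro c
    have h1 := hσadj _ (hadjh (ex c))
    rcases (hadj _).1 h1.1 with ⟨c', i, hi, hz⟩ | ⟨c', hz⟩
    · have h2 : cl (x c' 0) = cl (x c 0) := by
        rw [← hclx c' i hi, ← hz, h1.2, hclh]
      have hcc : c' = c := hκinj h2
      subst hcc
      refine ⟨i, hi, hz, fun j hj hj' => ?_⟩
      exact hxh c' j (ex c') hj (hσinj _ _ (hadjx c' j hj) (hadjh _) (by rw [hj', hz]))
    · exfalso
      have h2 := hσll _ (hadjh (ex c))
      rw [hz] at h2
      exact hhh _ _ h2
  refine ⟨fun c => cl (x c 0), ex, fun c => decide (e c = n c - 1 ∧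
    ∀ i, i + 1 < n c → σ (x c i) = x c (i + 1)), hκinj, hκlt, hexinj, fun c => ?_⟩
  obtain ⟨i0, hi0, hi1, hi2⟩ := hent c
  by_cases hs : e c = n c - 1 ∧ ∀ i, i + 1 < n c → σ (x c i) = x c (i + 1)
  · have hs' : decide (e c = n c - 1 ∧ ∀ i, i + 1 < n c → σ (x c i) = x c (i + 1)) = true :=
      decide_eq_true hs
    simp only [hs', STri, if_true]
    refine ⟨fun i hi => ?_, ?_, ?_⟩
    · have h1 := hσ _ (hadjx c i (by omega))
      rw [hclx c i (by omega), hs.2 i hi] at h1
      exact h1
    · have h1 := hσ _ (hadjx c (e c) (he c))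
      rw [hclx c _ (he c), hex c, hs.1] at h1
      exact h1
    · have h1 := hσ _ (hadjh (ex c))
      rw [hclh, hi1] at h1
      have h3 : i0 = 0 := by
        by_contra h0
        obtain ⟨j, rfl⟩ := Nat.exists_eq_succ_of_ne_zero h0
        exact hi2 j (by omega) (hs.2 j hi0)
      rw [h3] at h1
      exact h1
  · have hs' : decide (e c = n c - 1 ∧ ∀ i, i + 1 < n c → σ (x c i) = x c (i + 1)) = false :=
      decide_eq_false hs
    rcases hstr c with h | ⟨h4, h5⟩
    · exact absurd h hs
    · simp only [hs', STri, Bool.false_eq_true, if_false]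
      refine ⟨fun i hi => ?_, ?_, ?_⟩
      · have h1 := hσ _ (hadjx c (i + 1) hi)
        rw [hclx c (i + 1) hi, h5 i hi] at h1
        exact h1
      · have h1 := hσ _ (hadjh (ex c))
        rw [hclh, hi1] at h1
        have h3 : i0 = n c - 1 := by
          by_contra h0
          exact hi2 (i0 + 1) (by omega) (h5 i0 (by omega))
        rw [h3] at h1
        exact h1
      · have h1 := hσ _ (hadjx c (e c) (he c))
        rw [hclx c _ (he c), hex c, h4] at h1
        exact h1

end link

end Pool.Agent.Lib.MP_612bca_lc
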