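import Pool.Agent.Lib.MP_612bca_lc.Env

/-!
# The soundness proof: links of the dummies of a good zone, continued
-/

namespace Pool.Agent.Lib.MP_612bca_lc

attribute [local irreducible] NN zones slot slo MP_612bca_lc.col zlo zhi

variable {K : ℕ} {G : List (List Pnt)}

/-- Rows or levels of the zone, at distance at least `m N^14` from its ends. -/
def Env.Z (E : Env K G) (m x : ℤ) : Prop :=
  zlo K G E.s + m * (NN K : ℤ) ^ 14 ≤ x ∧ x + m * (NN K : ℤ) ^ 14 ≤ zhi K G E.s

variable (E : Env K G)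

theorem Env.Z.reg {E : Env K G} {x : ℤ} (h : E.Z 1 x) : RegLev K G x := by
  refine CL.reg E.hs ⟨?_, ?_⟩
  · have := h.1; omega
  · have := h.2; omega

theorem Env.Z.shift {E : Env K G} {m x : ℤ} (h : E.Z (m + 1) x) (δ : ℤ)
    (hδ : |δ| ≤ (NN K : ℤ) ^ 14) : E.Z m (x + δ) := by
  obtain ⟨h1, h2⟩ := h
  have h3 := abs_le.1 hδ
  constructor <;> nlinarith

theorem Env.Z.mono {E : Env K G} {m m' x : ℤ} (h : E.Z m x) (hm : m' ≤ m) : E.Z m' x := by
  obtain ⟨h1, h2⟩ := h
  have h3 := pow_pos' K 14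
  constructor <;> nlinarith

theorem pow14_big : (1000000 : ℤ) ≤ (NN K : ℤ) ^ 14 := by
  have h1 : 1000 * (NN K : ℤ) ^ 12 ≤ (NN K : ℤ) ^ 13 := pow_step K 12
  have h2 : 1000 * (NN K : ℤ) ^ 13 ≤ (NN K : ℤ) ^ 14 := pow_step K 13
  have h3 := pow_pos' K 12
  omega

theorem pow13_14 : 1000 * (NN K : ℤ) ^ 13 ≤ (NN K : ℤ) ^ 14 := pow_step K 13

theorem Env.Z.near {E : Env K G} {m x y : ℤ} (h : E.Z (m + 1) x) (h1 : -100 ≤ y - x)
    (h2 : y - x ≤ 100) : E.Z m y := by
  have h3 := h.shift (y - x) (by have := pow14_big (K := K); rw [abs_le]; constructor <;> omega)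
  rwa [add_sub_cancel] at h3

theorem lev_row_abs (c : Fin (K + 2)) {w : EltT K G} (h : labT K G w ≠ 2) :
    |w.1.lev K G c - w.1.row K G| ≤ (NN K : ℤ) ^ 13 := by
  obtain ⟨a, p, hw, hp, _, _⟩ := key_dum c w h
  rw [hw]
  simp only [Elt.lev, Elt.row]
  have h1 := shift_abs (K := K) (c := c) (p := p) (by have := c.2; omega) hp
  rw [show ((a : ℤ) - slo K c * col K p - (a : ℕ)) = -(slo K c * col K p) by ring, abs_neg]
  exact h1

theorem Env.Z.lev {E : Env K G} {m : ℤ} {w : EltT K G} (h : E.Z (m + 1) (w.1.row K G))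
    (hl : labT K G w ≠ 2) (c : Fin (K + 2)) : E.Z m (w.1.lev K G c) := by
  have h1 := lev_row_abs c hl
  have h2 := pow13_14 (K := K)
  have h4 := pow_pos' K 13
  have h3 := h.shift (w.1.lev K G c - w.1.row K G) (by omega)
  rwa [add_sub_cancel] at h3

theorem Env.Z.row {E : Env K G} {m : ℤ} {v : ℤ} (h : E.Z (m + 1) v) (hm : 0 ≤ m) (c : Fin (K + 2))
    {p : ℕ} (hp : p < 4) : E.Z m ((DD K G c v p).1.row K G) := by
  have hv : RegLev K G v := (h.mono (by omega : (1 : ℤ) ≤ m + 1)).reg
  rw [DD_row c hv hp]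
  have h1 := shift_abs (K := K) (c := c) (p := p) (by have := c.2; omega) hp
  have h2 := pow13_14 (K := K)
  have h4 := pow_pos' K 13
  exact h.shift _ (by omega)

theorem Env.Z.inZone {E : Env K G} {w : EltT K G} {m : ℤ} (h : E.Z m (w.1.row K G)) (hm : 1 ≤ m) :
    InZone K G E.s w.1 := by
  obtain ⟨h1, h2⟩ := h.mono hm
  have h3 := pow_pos' K 14
  constructor <;> omega

theorem Env.Z.regE {E : Env K G} {w : EltT K G} {m : ℤ} (h : E.Z m (w.1.row K G)) (hm : 1 ≤ m) :
    Reg K G w.1 := by
  obtain ⟨h1, h2⟩ := h.mono hm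
  have h3 := pow_pos' K 14
  have h4 := zlo_ge (K := K) (G := G) E.s
  have h5 := zhi_le (K := K) (G := G) E.hs
  have h6 := pow_pos' K 15
  have h7 : 1000 * (NN K : ℤ) ^ 14 ≤ (NN K : ℤ) ^ 15 := pow_step K 14
  constructor
  · have : ((NN K ^ 14 : ℕ) : ℤ) ≤ w.1.row K G := by push_cast; omega
    exact_mod_cast this
  · have : ((w.1.row K G + NN K ^ 14 : ℕ) : ℤ) ≤ rows K G.length := by push_cast; omega
    exact_mod_cast this

/-- The structure of the link of the dummy `w` in class `c`. -/
structure Env.LinkAt (E : Env K G) (w : EltT K G) (c : Fin (K + 2)) (κ : ℕ) (h : Fin (K + 2))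
    (s : Bool) : Prop where
  mid : ∀ pr su, Nx c pr w → Nx c w su → E.T s κ (.inl w) (.inl pr) (.inl su)
  su1 : ∀ su, Nx c w su → labT K G su = 2 →
    E.T s κ (.inl w) (.inl su) (.inr (h, decide (labT K G w = 0)))
  su2 : ∀ su su', Nx c w su → labT K G su ≠ 2 → Nx c su su' →
    E.T s κ (.inl w) (.inl su) (.inl su') ∧
    E.T s κ (.inl w) (.inl su') (.inr (h, decide (labT K G w = 0)))
  pr1 : ∀ pr, Nx c pr w → labT K G pr = 2 →
    E.T s κ (.inl w) (.inr (h, decide (labT K G w = 0))) (.inl pr)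
  pr2 : ∀ pr pr', Nx c pr w → labT K G pr ≠ 2 → Nx c pr' pr →
    E.T s κ (.inl w) (.inl pr') (.inl pr) ∧
    E.T s κ (.inl w) (.inr (h, decide (labT K G w = 0))) (.inl pr')

/-- The neighbourhood of a dummy in one class. -/
theorem Env.hood (c : Fin (K + 2)) {w : EltT K G} (hw : labT K G w ≠ 2)
    (hz : E.Z 3 (w.1.row K G)) : ∃ pr su pr2 su2 : EltT K G, Nx c pr w ∧ Nx c w su ∧
      labT K G pr ≠ labT K G w ∧ labT K G su ≠ labT K G w ∧
      (labT K G pr ≠ 2 → Nx c pr2 pr ∧ labT K G pr2 ≠ labT K G pr) ∧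
      (labT K G su ≠ 2 → Nx c su su2 ∧ labT K G su2 ≠ labT K G su) := by
  obtain ⟨a, p, hwp, hp, _, hlab⟩ := key_dum c w hw
  have hv : E.Z 2 (w.1.lev K G c) := Env.Z.lev (m := 2) hz hw c
  set v := w.1.lev K G c with hvdef
  have r0 : RegLev K G v := (hv.mono (by norm_num)).reg
  have r1 : RegLev K G (v + 1) := (Env.Z.near (m := 1) hv (by omega) (by omega)).reg
  have r2 : RegLev K G (v + 1 + 1) := (Env.Z.near (m := 1) hv (by omega) (by omega)).reg
  have r3 : RegLev K G (v - 1) := (Env.Z.near (m := 1) hv (by omega) (by omega)).reg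
  have r4 : RegLev K G (v - 1 - 1) := (Env.Z.near (m := 1) hv (by omega) (by omega)).reg
  have hwe : w = DD K G c v p := eq_DD c w hwp r0
  obtain ⟨su, s1, s2, s3⟩ := E.succ_dd c r0 r1 hp
  obtain ⟨pr, p1, p2, p3⟩ := E.pred_dd c r0 r3 hp
  rw [← hwe] at s1 p1
  rw [← hlab] at s2 p2
  have hsu : ∃ su2, labT K G su ≠ 2 → Nx c su su2 ∧ labT K G su2 ≠ labT K G su := by
    by_cases hl : labT K G su = 2
    · exact ⟨su, fun h => absurd hl h⟩
    · have h5 := s3 hl
      by_cases h3 : p < 3
      · rw [if_pos h3] at h5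
        obtain ⟨su2, t1, t2, _⟩ := E.succ_dd c r0 r1 (show p + 1 < 4 by omega)
        refine ⟨su2, fun _ => ?_⟩
        rw [h5, DD_lab c r0 (by omega)]
        exact ⟨t1, t2⟩
      · rw [if_neg h3] at h5
        obtain ⟨su2, t1, t2, _⟩ := E.succ_dd c r1 r2 (show 0 < 4 by omega)
        refine ⟨su2, fun _ => ?_⟩
        rw [h5, DD_lab c r1 (by omega)]
        exact ⟨t1, t2⟩
  have hpr : ∃ pr2, labT K G pr ≠ 2 → Nx c pr2 pr ∧ labT K G pr2 ≠ labT K G pr := by
    by_cases hl : labT K G pr = 2
    · exact ⟨pr, fun h => absurd hl h⟩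
    · have h5 := p3 hl
      by_cases h3 : 0 < p
      · rw [if_pos h3] at h5
        obtain ⟨pr2, t1, t2, _⟩ := E.pred_dd c r0 r3 (show p - 1 < 4 by omega)
        refine ⟨pr2, fun _ => ?_⟩
        rw [h5, DD_lab c r0 (by omega)]
        exact ⟨t1, t2⟩
      · rw [if_neg h3] at h5
        obtain ⟨pr2, t1, t2, _⟩ := E.pred_dd c r3 r4 (show 3 < 4 by omega)
        refine ⟨pr2, fun _ => ?_⟩
        rw [h5, DD_lab c r3 (by omega)]
        exact ⟨t1, t2⟩
  obtain ⟨su2, hsu2⟩ := hsu
  obtain ⟨pr2, hpr2⟩ := hpr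
  exact ⟨pr, su, pr2, su2, p1, s1, p2, s2, hpr2, hsu2⟩

instance : Fintype (EltT K G) := List.Subtype.fintype (elts K G)

/-- The link theorem in the strip. -/
theorem Env.link {w : EltT K G} (hw : labT K G w ≠ 2) (hz : E.Z 3 (w.1.row K G)) :
    ∃ (κ : Fin (K + 2) → ℕ) (h : Fin (K + 2) → Fin (K + 2)) (s : Fin (K + 2) → Bool),
      Function.Injective κ ∧ (∀ c, κ c < K + 2) ∧ Function.Injective h ∧
      ∀ c, E.LinkAt w c (κ c) (h c) (s c) := by
  classical
  have hlab : labT K G w = 0 ∨ labT K G w = 1 := by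
    rcases lab_cases w with h | h | h
    · exact Or.inl h
    · exact Or.inr h
    · exact absurd h hw
  choose pr su pr2 su2 hpr hsu hlpr hlsu hpr2 hsu2 using fun c => E.hood c hw hz
  choose L hL1 hL2 hL3 hL4 hL5 hL6 using fun c => nbr_list (E.kinj c) (lab := labT K G) hw (hpr c)
    (hsu c) (hlpr c) (hlsu c) (hpr2 c) (hsu2 c)
  have hgood := E.good w (hz.inZone (by norm_num))
  have hreg : Reg K G w.1 := hz.regE (by norm_num)
  have hmem : ∀ c i, i < (L c).length → (L c).getD i w ∈ L c := by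
    intro c i hi
    rw [List.getD_eq_getElem _ _ hi]
    exact List.getElem_mem hi
  have key1 := MP_612bca_lc.link E.hD hgood (fun c => (L c).length)
    (fun c i => Sum.inl ((L c).getD i w)) (fun c => Sum.inr (c, decide (labT K G w = 0)))
    (fun c => ⟨by have := hL1 c; omega, hL2 c⟩)
    (by
      intro l
      rcases l with l | ⟨c, b⟩
      · rw [adj_inl]
        constructor
        · rintro ⟨c, h⟩
          left
          have h1 := (hL4 c l).1 h
          obtain ⟨i, hi, he⟩ := List.getElem_of_mem h1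
          refine ⟨c, i, hi, ?_⟩
          rw [List.getD_eq_getElem _ _ hi, he]
        · rintro (⟨c, i, hi, he⟩ | ⟨c, he⟩)
          · have h1 : l = (L c).getD i w := Sum.inl_injective he
            exact ⟨c, (hL4 c l).2 (h1 ▸ hmem c i hi)⟩
          · cases he
      · rw [adj_hub]
        constructor
        · intro h
          right
          refine ⟨c, ?_⟩
          congr 2
          rcases hlab with h0 | h0
          · rw [h0] at h ⊢
            cases b <;> simp at h ⊢
          · rw [h0] at h ⊢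
            cases b <;> simp at h ⊢
        · rintro (⟨c', i, hi, he⟩ | ⟨c', he⟩)
          · cases he
          · have h1 : b = decide (labT K G w = 0) := by
              have := Sum.inr_injective he
              exact (Prod.ext_iff.1 this).2
            rw [h1]
            rcases hlab with h0 | h0
            · rw [h0]; simp
            · rw [h0]; simp)
    (by
      intro c c' i i' hi hi' he
      have h1 : (L c).getD i w = (L c').getD i' w := Sum.inl_injective he
      have h2 := (hL4 c _).2 (hmem c i hi)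
      have h3 := (hL4 c' _).2 (hmem c' i' hi')
      rw [← h1] at h3
      have h4 : c = c' := pairD K G E.hG w _ hreg c c' h2 h3
      subst h4
      refine ⟨rfl, ?_⟩
      rw [List.getD_eq_getElem _ _ hi, List.getD_eq_getElem _ _ hi'] at h1
      exact (List.Nodup.getElem_inj_iff (hL3 c)).1 h1)
    (by intro c i c' _ he; cases he)
    (fun c c' => not_adj_hubs)
    (by
      intro c c' i i' hi hi' hadj
      obtain ⟨c3, h3⟩ := adj_inl.1 hadj
      have h1 := (hL4 c _).2 (hmem c i hi)
      have h2 := (hL4 c' _).2 (hmem c' i' hi')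
      obtain ⟨h4, h5⟩ := triD K G E.hG w _ _ hw hreg c c' c3 h1 h2 h3
      subst h4 h5
      refine ⟨rfl, ?_⟩
      rw [List.getD_eq_getElem _ _ hi, List.getD_eq_getElem _ _ hi'] at h3
      have := hL5 c i i' hi hi' h3
      omega)
  obtain ⟨κ, h, s, hκ1, hκ2, hh, hall⟩ := key1
  refine ⟨κ, h, s, hκ1, hκ2, hh, fun c => ?_⟩
  obtain ⟨hA, hB, hC⟩ := hall c
  have e6 := hL6 c
  have cu : ∀ x, Nx c w x → x = su c := fun x hx => cons_unique (E.kinj c) hx (hsu c)
  have cp : ∀ x, Nx c x w → x = pr c := fun x hx => cons_unique' (E.kinj c) hx (hpr c)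
  have cu2 : ∀ x, labT K G (su c) ≠ 2 → Nx c (su c) x → x = su2 c := fun x hl hx =>
    cons_unique (E.kinj c) hx (hsu2 c hl).1
  have cp2 : ∀ x, labT K G (pr c) ≠ 2 → Nx c x (pr c) → x = pr2 c := fun x hl hx =>
    cons_unique' (E.kinj c) hx (hpr2 c hl).1
  have h0 := hA 0
  have h1 := hA 1
  have h2 := hA 2
  clear hA
  by_cases a : labT K G (pr c) = 2 <;> by_cases b : labT K G (su c) = 2
  · simp only [a, b, ne_eq, not_true_eq_false, if_false, List.nil_append, List.append_nil] at e6
    simp only [e6] at h0 h1 h2 hB hC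
    simp at h0 h1 h2 hB hC
    constructor
    · intro x y hx hy
      rw [cp x hx, cu y hy]
      exact h0
    · intro y hy _
      rw [cu y hy]
      exact hB
    · intro y y' hy hl _
      rw [cu y hy] at hl
      exact absurd b hl
    · intro x hx _
      rw [cp x hx]
      exact hC
    · intro x x' hx hl _
      rw [cp x hx] at hl
      exact absurd a hl
  · simp only [a, b, ne_eq, not_true_eq_false, not_false_eq_true, if_false, if_true,
      List.nil_append, List.cons_append] at e6
    simp only [e6] at h0 h1 h2 hB hC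
    simp at h0 h1 h2 hB hC
    constructor
    · intro x y hx hy
      rw [cp x hx, cu y hy]
      exact h0
    · intro y hy hl
      rw [cu y hy] at hl
      exact absurd hl b
    · intro y y' hy hl hy'
      have e1 := cu y hy
      subst e1
      rw [cu2 y' hl hy']
      exact ⟨h1, hB⟩
    · intro x hx _
      rw [cp x hx]
      exact hC
    · intro x x' hx hl _
      rw [cp x hx] at hl
      exact absurd a hl
  · simp only [a, b, ne_eq, not_true_eq_false, not_false_eq_true, if_false, if_true,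
      List.append_nil, List.cons_append, List.nil_append] at e6
    simp only [e6] at h0 h1 h2 hB hC
    simp at h0 h1 h2 hB hC
    constructor
    · intro x y hx hy
      rw [cp x hx, cu y hy]
      exact h1
    · intro y hy _
      rw [cu y hy]
      exact hB
    · intro y y' hy hl _
      rw [cu y hy] at hl
      exact absurd b hl
    · intro x hx hl
      rw [cp x hx] at hl
      exact absurd hl a
    · intro x x' hx hl hx'
      have e1 := cp x hx
      subst e1
      rw [cp2 x' hl hx']
      exact ⟨h0, hC⟩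
  · simp only [a, b, ne_eq, not_false_eq_true, if_true, List.cons_append, List.nil_append] at e6
    simp only [e6] at h0 h1 h2 hB hC
    simp at h0 h1 h2 hB hC
    constructor
    · intro x y hx hy
      rw [cp x hx, cu y hy]
      exact h1
    · intro y hy hl
      rw [cu y hy] at hl
      exact absurd hl b
    · intro y y' hy hl hy'
      have e1 := cu y hy
      subst e1
      rw [cu2 y' hl hy']
      exact ⟨h2, hB⟩
    · intro x hx hl
      rw [cp x hx] at hl
      exact absurd hl a
    · intro x x' hx hl hx'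
      have e1 := cp x hx
      subst e1
      rw [cp2 x' hl hx']
      exact ⟨h0, hC⟩

end Pool.Agent.Lib.MP_612bca_lc
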