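import Pool.Agent.Lib.MP_612bca_lc.LocalDefs

/-!
# Local structure of the strip
-/

namespace Pool.Agent.Lib.MP_612bca_lc

namespace Loc

/-! ### Numbers -/

lemma NN_eq (K : ℕ) : (NN K : ℤ) = 100 * K + 1000 := by
  unfold NN
  push_cast
  ring

attribute [local irreducible] NN

lemma NN_ge (K : ℕ) : (1000 : ℤ) ≤ NN K := by
  have h : (0 : ℤ) ≤ K := Int.natCast_nonneg K
  rw [NN_eq]
  linarith

lemma pow_step' (x : ℤ) (hx : 1000 ≤ x) (n : ℕ) : 1000 * x ^ n ≤ x ^ (n + 1) := by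
  have : (0 : ℤ) ≤ x ^ n := by positivity
  rw [pow_succ]
  nlinarith

lemma pow_step (K n m : ℕ) (h : m = n + 1) : 1000 * (NN K : ℤ) ^ n ≤ (NN K : ℤ) ^ m := by
  rw [h]
  exact pow_step' _ (NN_ge K) n

lemma pow_mul' (x : ℤ) (a b c : ℕ) (h : c = a + b) : x ^ a * x ^ b = x ^ c := by
  rw [h, pow_add]

lemma pow_pos' (K n : ℕ) : (1 : ℤ) ≤ (NN K : ℤ) ^ n := by
  have h := NN_ge K
  exact one_le_pow₀ (by linarith)

lemma pow_mono' (K : ℕ) {m n : ℕ} (h : m ≤ n) : (NN K : ℤ) ^ m ≤ (NN K : ℤ) ^ n := by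
  have h' := NN_ge K
  exact pow_le_pow_right₀ (by linarith) h

/-- finite part and `N^8`-part of the slope -/
lemma slo_cases (K : ℕ) (c : Fin (K + 2)) :
    ((c : ℕ) = K + 1 ∧ slo K c = (NN K : ℤ) ^ 8) ∨ ((c : ℕ) ≤ K ∧ slo K c = ((c : ℕ) : ℤ)) := by
  unfold slo
  by_cases h : (c : ℕ) = K + 1
  · left
    exact ⟨h, by rw [if_pos h]⟩
  · right
    have := c.2
    exact ⟨by omega, by rw [if_neg h]⟩

lemma slo_nonneg (K : ℕ) (c : Fin (K + 2)) : 0 ≤ slo K c := by
  rcases slo_cases K c with ⟨_, h⟩ | ⟨_, h⟩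
  · rw [h]
    exact pow_nonneg (Int.natCast_nonneg _) 8
  · rw [h]
    exact Int.natCast_nonneg _

lemma slo_le (K : ℕ) (c : Fin (K + 2)) : slo K c ≤ (NN K : ℤ) ^ 8 := by
  rcases slo_cases K c with ⟨_, h⟩ | ⟨h', h⟩
  · rw [h]
  · rw [h]
    have h1 := pow_mono' K (show 1 ≤ 8 by norm_num)
    rw [pow_one] at h1
    have := NN_eq K
    have : ((c : ℕ) : ℤ) ≤ K := by exact_mod_cast h'
    linarith

lemma slo_inj (K : ℕ) (c c' : Fin (K + 2)) (h : slo K c = slo K c') : c = c' := by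
  have h1 := pow_mono' K (show 1 ≤ 8 by norm_num)
  rw [pow_one] at h1
  have h2 := NN_eq K
  apply Fin.ext
  rcases slo_cases K c with ⟨a, b⟩ | ⟨a, b⟩ <;> rcases slo_cases K c' with ⟨a', b'⟩ | ⟨a', b'⟩
  · omega
  · rw [b, b'] at h
    have h3 : ((c' : ℕ) : ℤ) ≤ K := by exact_mod_cast a'
    have h4 : (0 : ℤ) ≤ K := Int.natCast_nonneg K
    exfalso
    linarith
  · rw [b, b'] at h
    have h3 : ((c : ℕ) : ℤ) ≤ K := by exact_mod_cast a
    have h4 : (0 : ℤ) ≤ K := Int.natCast_nonneg K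
    exfalso
    linarith
  · rw [b, b'] at h
    exact_mod_cast h

/-- the slope in the form `f + m * N^8` -/
lemma slo_split (K : ℕ) (c : Fin (K + 2)) : ∃ f m : ℤ, slo K c = f + m * (NN K : ℤ) ^ 8 ∧
    0 ≤ f ∧ f ≤ K ∧ 0 ≤ m ∧ m ≤ 1 := by
  rcases slo_cases K c with ⟨_, h⟩ | ⟨h', h⟩
  · exact ⟨0, 1, by rw [h, zero_add, one_mul], le_rfl, Int.natCast_nonneg K, zero_le_one, le_rfl⟩
  · exact ⟨(c : ℕ), 0, by rw [h, zero_mul, add_zero], Int.natCast_nonneg _, by exact_mod_cast h',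
      le_rfl, zero_le_one⟩

lemma col_cases (K p : ℕ) : (p = 0 ∧ col K p = (NN K : ℤ) ^ 2) ∨
    (p = 1 ∧ col K p = -(NN K : ℤ) ^ 3) ∨ (p = 2 ∧ col K p = (NN K : ℤ) ^ 4) ∨
    (3 ≤ p ∧ col K p = -(NN K : ℤ) ^ 5) := by
  delta col
  generalize (NN K : ℤ) = x
  generalize x ^ 2 = x2
  generalize -x ^ 3 = x3
  generalize x ^ 4 = x4
  generalize -x ^ 5 = x5
  split
  · exact Or.inl ⟨rfl, rfl⟩
  · exact Or.inr (Or.inl ⟨rfl, rfl⟩)
  · exact Or.inr (Or.inr (Or.inl ⟨rfl, rfl⟩))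
  · rename_i h0 h1 h2
    refine Or.inr (Or.inr (Or.inr ⟨?_, rfl⟩))
    rcases p with _ | _ | _ | p
    · exact absurd rfl h0
    · exact absurd rfl h1
    · exact absurd rfl h2
    · omega

lemma col_abs (K p : ℕ) (hp : p < 4) : |col K p| = (NN K : ℤ) ^ (p + 2) := by
  have h : ∀ n : ℕ, 0 ≤ (NN K : ℤ) ^ n := fun n => pow_nonneg (Int.natCast_nonneg _) n
  rcases col_cases K p with ⟨hp', hc⟩ | ⟨hp', hc⟩ | ⟨hp', hc⟩ | ⟨hp', hc⟩
  · rw [hc, hp', abs_of_nonneg (h _)]
  · rw [hc, hp', abs_neg, abs_of_nonneg (h _)]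
  · rw [hc, hp', abs_of_nonneg (h _)]
  · have hp3 : p = 3 := by omega
    rw [hc, hp3, abs_neg, abs_of_nonneg (h _)]

lemma col_abs_le (K p : ℕ) : |col K p| ≤ (NN K : ℤ) ^ 5 := by
  have h : ∀ n : ℕ, 0 ≤ (NN K : ℤ) ^ n := fun n => pow_nonneg (Int.natCast_nonneg _) n
  rcases col_cases K p with ⟨hp', hc⟩ | ⟨hp', hc⟩ | ⟨hp', hc⟩ | ⟨hp', hc⟩
  · rw [hc, abs_of_nonneg (h _)]
    exact pow_mono' K (by norm_num)
  · rw [hc, abs_neg, abs_of_nonneg (h _)]
    exact pow_mono' K (by norm_num)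
  · rw [hc, abs_of_nonneg (h _)]
    exact pow_mono' K (by norm_num)
  · rw [hc, abs_neg, abs_of_nonneg (h _)]

lemma slo_mul_le (K : ℕ) (c : Fin (K + 2)) (x : ℤ) (hx : |x| ≤ (NN K : ℤ) ^ 5) :
    |slo K c * x| ≤ (NN K : ℤ) ^ 13 := by
  rw [abs_mul, abs_of_nonneg (slo_nonneg K c)]
  calc slo K c * |x| ≤ (NN K : ℤ) ^ 8 * (NN K : ℤ) ^ 5 :=
        mul_le_mul (slo_le K c) hx (abs_nonneg _) (pow_nonneg (Int.natCast_nonneg _) _)
    _ = (NN K : ℤ) ^ 13 := pow_mul' _ 8 5 13 rfl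

/-! ### Elements -/

lemma mem_elts (K : ℕ) (G : List (List Pnt)) (w : Elt) : w ∈ elts K G ↔
    (∃ a p, a < rows K G.length ∧ p < 4 ∧ w = .dum a p) ∨
    ∃ s j i, s < zones K ∧ j < G.length ∧ i < (G.getD j []).length ∧ w = .rep s j i := by
  unfold elts
  rw [List.mem_append]
  constructor
  · rintro (h | h)
    · left
      simp only [List.mem_flatMap, List.mem_range, List.mem_map] at h
      obtain ⟨a, ha, p, hp, rfl⟩ := h
      exact ⟨a, p, ha, hp, rfl⟩
    · right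
      simp only [List.mem_flatMap, List.mem_range, List.mem_map] at h
      obtain ⟨s, hs, ⟨g, j⟩, hq, i, hi, rfl⟩ := h
      rw [List.mem_zipIdx_iff_getElem?] at hq
      simp only at hq hi
      obtain ⟨hj, hg⟩ := List.getElem?_eq_some_iff.1 hq
      refine ⟨s, j, i, hs, hj, ?_, rfl⟩
      rw [List.getD_eq_getElem?_getD, hq]
      exact hi
  · rintro (⟨a, p, ha, hp, rfl⟩ | ⟨s, j, i, hs, hj, hi, rfl⟩)
    · left
      simp only [List.mem_flatMap, List.mem_range, List.mem_map]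
      exact ⟨a, ha, p, hp, rfl⟩
    · right
      simp only [List.mem_flatMap, List.mem_range, List.mem_map]
      refine ⟨s, hs, (G[j], j), ?_, i, ?_, rfl⟩
      · rw [List.mem_zipIdx_iff_getElem?]
        exact List.getElem?_eq_getElem hj
      · rw [List.getD_eq_getElem _ _ hj] at hi
        exact hi

/-- the point of a representative -/
lemma pnt_spec {G : List (List Pnt)} {j i : ℕ} (hj : j < G.length)
    (hi : i < (G.getD j []).length) :
    G.getD j [] ∈ G ∧ (G.getD j [])[i]? = some (pnt G j i) ∧ pnt G j i ∈ G.getD j [] := by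
  have h1 : G.getD j [] = G[j] := List.getD_eq_getElem _ _ hj
  have h2 : pnt G j i = (G.getD j [])[i] := by
    unfold pnt
    rw [List.getD_eq_getElem _ _ hi]
  refine ⟨?_, ?_, ?_⟩
  · rw [h1]
    exact List.getElem_mem hj
  · rw [h2]
    exact List.getElem?_eq_getElem hi
  · rw [h2]
    exact List.getElem_mem hi

/-- abscissa of an element -/
def xi (K : ℕ) (G : List (List Pnt)) : Elt → ℤ
  | .dum _ p => col K p
  | .rep _ j i => (pnt G j i).X

/-- correction of the level -/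
def eta (K : ℕ) (G : List (List Pnt)) (c : ℕ) : Elt → ℤ
  | .dum _ _ => 0
  | .rep _ j i => if c = K + 1 then 0 else (pnt G j i).Y

lemma lev_eq (K : ℕ) (G : List (List Pnt)) (c : ℕ) (w : Elt) :
    w.lev K G c = w.row K G - slo K c * xi K G w + eta K G c w := by
  cases w with
  | dum a p => simp [Elt.lev, Elt.row, xi, eta]
  | rep s j i =>
    simp only [Elt.lev, Elt.row, xi, eta]
    by_cases h : c = K + 1
    · simp only [h, if_true]
      ring
    · simp only [h, if_false, slo]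
      ring

section

variable {K : ℕ} {G : List (List Pnt)}

lemma xi_le (hG : ∀ g ∈ G, GoodGroup K g) (w : EltT K G) : |xi K G w.1| ≤ (NN K : ℤ) ^ 5 := by
  obtain ⟨w, hw⟩ := w
  rcases (mem_elts K G w).1 hw with ⟨a, p, _, _, rfl⟩ | ⟨s, j, i, _, hj, hi, rfl⟩
  · exact col_abs_le K p
  · obtain ⟨h1, h2, h3⟩ := pnt_spec hj hi
    have := (hG _ h1).X_le _ h3
    have h4 := pow_step K 4 5 rfl
    have h5 := pow_pos' K 4
    simp only [xi]
    rw [abs_of_nonneg (Int.natCast_nonneg _)]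
    have h6 : ((pnt G j i).X : ℤ) ≤ 2 := by exact_mod_cast this
    linarith

lemma eta_le (hG : ∀ g ∈ G, GoodGroup K g) (c : ℕ) (w : EltT K G) :
    0 ≤ eta K G c w.1 ∧ eta K G c w.1 ≤ 2 * K + 4 := by
  obtain ⟨w, hw⟩ := w
  rcases (mem_elts K G w).1 hw with ⟨a, p, _, _, rfl⟩ | ⟨s, j, i, _, hj, hi, rfl⟩
  · simp only [eta]
    constructor <;> positivity
  · obtain ⟨h1, h2, h3⟩ := pnt_spec hj hi
    have := (hG _ h1).Y_le _ h3
    simp only [eta]
    split_ifs
    · constructor <;> positivity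
    · constructor
      · positivity
      · exact_mod_cast this

lemma sub_le (c : ℕ) (w : EltT K G) : 0 ≤ w.1.sub G c ∧ w.1.sub G c ≤ 5 ∧
    (w.1.lab ≠ 2 → ∃ a p, w.1 = .dum a p ∧ p < 4 ∧ w.1.sub G c = p ∧ w.1.lab = p % 2) ∧
    (w.1.lab = 2 → 4 ≤ w.1.sub G c) := by
  obtain ⟨w, hw⟩ := w
  rcases (mem_elts K G w).1 hw with ⟨a, p, _, hp, rfl⟩ | ⟨s, j, i, _, hj, hi, rfl⟩
  · simp only [Elt.sub, Elt.lab]
    refine ⟨by positivity, by omega, fun _ => ⟨a, p, rfl, hp, rfl, rfl⟩, fun h => by omega⟩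
  · simp only [Elt.sub, Elt.lab]
    split_ifs
    · refine ⟨by norm_num, by norm_num, fun h => absurd rfl h, fun _ => by norm_num⟩
    · refine ⟨by norm_num, by norm_num, fun h => absurd rfl h, fun _ => by norm_num⟩

lemma key_split (c : Fin (K + 2)) (w : EltT K G) : ∃ v q : ℤ, keyT K G c w = 8 * v + q ∧
    w.1.lev K G c = v ∧ w.1.sub G c = q ∧ 0 ≤ q ∧ q ≤ 5 :=
  ⟨_, _, rfl, rfl, rfl, (sub_le c w).1, (sub_le c w).2.1⟩

lemma orig_inj {g s j s' j' : ℕ} (hj : j < g) (hj' : j' < g)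
    (h : |(orig K g s j : ℤ) - orig K g s' j'| < slot K) : s = s' ∧ j = j' := by
  unfold orig at h
  push_cast at h
  generalize hS : (slot K : ℤ) = S at h
  generalize hA : (zlen g : ℤ) * s + j + 2 = A at h
  generalize hA' : (zlen g : ℤ) * s' + j' + 2 = A' at h
  have hS0 : 0 < S := lt_of_le_of_lt (abs_nonneg _) h
  have h1 : A = A' := by
    rw [← mul_sub, abs_mul, abs_of_pos hS0] at h
    have h2 : |A - A'| < 1 := by
      by_contra hc
      push Not at hc
      nlinarith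
    have h3 := Int.abs_lt_one_iff.1 h2
    linarith
  have h2 : zlen g * s + j = zlen g * s' + j' := by
    have : (zlen g : ℤ) * s + j = (zlen g : ℤ) * s' + j' := by linarith
    exact_mod_cast this
  unfold zlen at h2
  have h3 : s = s' := by
    rcases lt_trichotomy s s' with h4 | h4 | h4
    · exfalso
      have : (g + 2) * (s + 1) ≤ (g + 2) * s' := Nat.mul_le_mul_left _ h4
      rw [Nat.mul_add] at this
      omega
    · exact h4
    · exfalso
      have : (g + 2) * (s' + 1) ≤ (g + 2) * s := Nat.mul_le_mul_left _ h4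
      rw [Nat.mul_add] at this
      omega
  subst h3
  exact ⟨rfl, by omega⟩

lemma slot_eq : (slot K : ℤ) = (NN K : ℤ) ^ 15 := by
  unfold slot
  push_cast
  rfl

/-- two elements whose levels in a class nearly agree have nearby rows -/
lemma row_near (hG : ∀ g ∈ G, GoodGroup K g) (c : Fin (K + 2)) (w w' : EltT K G)
    (h : |w.1.lev K G c - w'.1.lev K G c| ≤ 1) :
    |(w.1.row K G : ℤ) - w'.1.row K G| ≤ 3 * (NN K : ℤ) ^ 13 := by
  rw [lev_eq, lev_eq] at h
  have h1 := slo_mul_le K c _ (xi_le hG w)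
  have h2 := slo_mul_le K c _ (xi_le hG w')
  have h3 := eta_le hG c w
  have h4 := eta_le hG c w'
  have h5 : 2 * (K : ℤ) + 5 ≤ (NN K : ℤ) ^ 13 := by
    have a1 := pow_mono' K (show 1 ≤ 13 by norm_num)
    rw [pow_one] at a1
    have a2 := NN_eq K
    have a3 : (0 : ℤ) ≤ K := Int.natCast_nonneg K
    linarith
  generalize slo K c * xi K G w.1 = a at *
  generalize slo K c * xi K G w'.1 = b at *
  generalize eta K G c w.1 = e at *
  generalize eta K G c w'.1 = e' at *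
  generalize (NN K : ℤ) ^ 13 = M at *
  generalize (w.1.row K G : ℤ) = r at *
  generalize (w'.1.row K G : ℤ) = r' at *
  rw [abs_le] at *
  constructor <;> linarith [h.1, h.2, h1.1, h1.2, h2.1, h2.2, h3.1, h3.2, h4.1, h4.2]

lemma rep_lev (c : Fin (K + 2)) (s j i i' : ℕ)
    (h : (Elt.rep s j i).lev K G c = (Elt.rep s j i').lev K G c) :
    (pnt G j i).lev K c = (pnt G j i').lev K c := by
  unfold Elt.lev at h
  unfold Pnt.lev
  by_cases hc : (c : ℕ) = K + 1
  · simp only [hc, if_true] at h ⊢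
    have h1 : slo K (K + 1) = (NN K : ℤ) ^ 8 := by simp [slo]
    have h2 : 0 < slo K (K + 1) := by
      rw [h1]
      have := pow_pos' K 8
      linarith
    have h3 : slo K (K + 1) * ((pnt G j i).X : ℤ) = slo K (K + 1) * (pnt G j i').X := by linarith
    have := mul_left_cancel₀ (ne_of_gt h2) h3
    rw [this]
  · simp only [hc, if_false] at h ⊢
    linarith

end

end Loc

open Loc

section

variable (K : ℕ) (G : List (List Pnt))

theorem keyT_inj (hG : ∀ g ∈ G, GoodGroup K g) (c : Fin (K + 2)) :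
    Function.Injective (keyT K G c) := by
  intro w w' h
  obtain ⟨v, q, h1, h2, h3, h4, h5⟩ := key_split c w
  obtain ⟨v', q', h1', h2', h3', h4', h5'⟩ := key_split c w'
  rw [h1, h1'] at h
  have hv : v = v' := by omega
  have hq : q = q' := by omega
  have hrow := row_near hG c w w' (by rw [h2, h2', hv]; simp)
  rw [← h2, ← h2'] at hv
  rw [← h3, ← h3'] at hq
  clear h1 h1' h2 h2' h3 h3' h4 h4' h5 h5' h
  apply Subtype.ext
  rcases (mem_elts K G w.1).1 w.2 with ⟨a, p, _, hp, hw⟩ | ⟨s, j, i, _, hj, hi, hw⟩ <;>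
  rcases (mem_elts K G w'.1).1 w'.2 with ⟨a', p', _, hp', hw'⟩ | ⟨s', j', i', _, hj', hi', hw'⟩
  · rw [hw, hw'] at hv hq ⊢
    simp only [Elt.sub, Elt.lev] at hv hq
    have hpp : p = p' := by exact_mod_cast hq
    subst hpp
    have haa : (a : ℤ) = a' := by linarith
    have haa' : a = a' := by exact_mod_cast haa
    rw [haa']
  · rw [hw, hw'] at hq
    simp only [Elt.sub] at hq
    split_ifs at hq <;> omega
  · rw [hw, hw'] at hq
    simp only [Elt.sub] at hq
    split_ifs at hq <;> omega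
  · rw [hw, hw'] at hv hq hrow ⊢
    have hs : |(orig K G.length s j : ℤ) - orig K G.length s' j'| < slot K := by
      refine lt_of_le_of_lt hrow ?_
      rw [slot_eq]
      have a1 := pow_step K 13 14 rfl
      have a2 := pow_step K 14 15 rfl
      have a3 := pow_pos' K 13
      linarith
    obtain ⟨rfl, rfl⟩ := orig_inj hj hj' hs
    have hii : i = i' := by
      by_contra hne
      obtain ⟨g1, g2, g3⟩ := pnt_spec hj hi
      obtain ⟨g1', g2', g3'⟩ := pnt_spec hj hi'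
      have hlev := rep_lev c s j i i' hv
      have hsec := (hG _ g1).sec_iff c i i' _ _ (by have := c.2; omega)
        ⟨hne, _, _, g2, g2', hlev⟩ g2 g2'
      simp only [Elt.sub] at hq
      by_cases hc : (c : ℕ) ∈ (pnt G j i).sec
      · have hc' := hsec.1 hc
        rw [if_pos hc, if_neg hc'] at hq
        omega
      · have hc' : (c : ℕ) ∈ (pnt G j i').sec := by
          by_contra hc'
          exact hc (hsec.2 hc')
        rw [if_neg hc, if_pos hc'] at hq
        omega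
    rw [hii]

theorem dumAt_mem (c : Fin (K + 2)) (v : ℤ) (hv : RegLev K G v) (p : ℕ) (hp : p < 4) :
    dumAt K c v p ∈ elts K G ∧ (dumAt K c v p).lev K G c = v := by
  obtain ⟨hv1, hv2⟩ := hv
  have h1 := abs_le.1 (slo_mul_le K c _ (col_abs_le K p))
  have h2 := pow_step K 13 14 rfl
  have h3 := pow_pos' K 13
  have h0 : 0 ≤ v + slo K c * col K p := by linarith [h1.1, h1.2]
  have h4 : ((v + slo K c * col K p).toNat : ℤ) = v + slo K c * col K p := Int.toNat_of_nonneg h0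
  constructor
  · rw [mem_elts]
    left
    refine ⟨_, _, ?_, hp, rfl⟩
    have : ((v + slo K c * col K p).toNat : ℤ) < rows K G.length := by
      rw [h4]
      linarith [h1.1, h1.2]
    exact_mod_cast this
  · unfold dumAt Elt.lev
    simp only
    rw [h4]
    ring

end

namespace Loc

section

variable {K : ℕ} {G : List (List Pnt)}

lemma key_dumAt (c : Fin (K + 2)) (v : ℤ) (hv : RegLev K G v) (p : ℕ) (hp : p < 4) (w : EltT K G)
    (hw : w.1 = dumAt K c v p) : keyT K G c w = 8 * v + p := by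
  have h := (dumAt_mem K G c v hv p hp).2
  unfold keyT Elt.key
  rw [hw, h]
  rfl

lemma exists_dum (c : Fin (K + 2)) (v : ℤ) (hv : RegLev K G v) (p : ℕ) (hp : p < 4) :
    ∃ z : EltT K G, keyT K G c z = 8 * v + p :=
  ⟨⟨dumAt K c v p, (dumAt_mem K G c v hv p hp).1⟩, key_dumAt c v hv p hp _ rfl⟩

end

end Loc

section

variable (K : ℕ) (G : List (List Pnt))

theorem cons_dum (c : Fin (K + 2)) (v : ℤ) (hv : RegLev K G v) (p : ℕ) (hp : p < 3) (w w' : EltT K G)
    (hw : w.1 = dumAt K c v p) (hw' : w'.1 = dumAt K c v (p + 1)) :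
    Cons (keyT K G) c w w' := by
  have h1 := key_dumAt c v hv p (by omega) w hw
  have h2 := key_dumAt c v hv (p + 1) (by omega) w' hw'
  push_cast at h2
  unfold Cons
  rw [h1, h2]
  constructor
  · linarith
  · rintro z ⟨h3, h4⟩
    linarith

theorem cons_gap (c : Fin (K + 2)) (v : ℤ) (hv : RegLev K G v) (hv' : RegLev K G (v + 1))
    (w w' : EltT K G)
    (hw : w.1 = dumAt K c v 3 ∨ (w.1.lab = 2 ∧ w.1.lev K G c = v))
    (hw' : w'.1 = dumAt K c (v + 1) 0 ∨ (w'.1.lab = 2 ∧ w'.1.lev K G c = v))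
    (hlt : keyT K G c w < keyT K G c w')
    (hno : ∀ r : EltT K G, r.1.lab = 2 → r.1.lev K G c = v →
      ¬ (keyT K G c w < keyT K G c r ∧ keyT K G c r < keyT K G c w')) :
    Cons (keyT K G) c w w' := by
  refine ⟨hlt, ?_⟩
  rintro z ⟨hz1, hz2⟩
  have h1 : 8 * v + 3 ≤ keyT K G c w := by
    rcases hw with h | ⟨h, h'⟩
    · rw [key_dumAt c v hv 3 (by norm_num) w h]
      norm_num
    · obtain ⟨u, q, a1, a2, a3, a4, a5⟩ := key_split c w
      rw [a1, ← h', a2]
      have := (sub_le c w).2.2.2 h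
      rw [a3] at this
      linarith
  have h2 : keyT K G c w' ≤ 8 * v + 8 := by
    rcases hw' with h | ⟨h, h'⟩
    · rw [key_dumAt c (v + 1) hv' 0 (by norm_num) w' h]
      push_cast
      linarith
    · obtain ⟨u, q, a1, a2, a3, a4, a5⟩ := key_split c w'
      rw [a1, ← h', a2]
      linarith
  obtain ⟨u, q, a1, a2, a3, a4, a5⟩ := key_split c z
  have hu : u = v := by
    rw [a1] at hz1 hz2
    omega
  have hlab : z.1.lab = 2 := by
    by_contra hc
    obtain ⟨a, p, b1, b2, b3, b4⟩ := (sub_le c z).2.2.1 hc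
    rw [a3] at b3
    rw [a1] at hz1 hz2
    omega
  exact hno z hlab (by rw [a2, hu]) ⟨hz1, hz2⟩

end

namespace Loc

section

variable {K : ℕ} {G : List (List Pnt)}

/-! ### Consequences of adjacency -/

lemma inner_lt {c : Fin (K + 2)} {a b : EltT K G}
    (h : InnerEdge (labT K G) (keyT K G) c a b) : keyT K G c a < keyT K G c b := by
  rcases h with h | ⟨m, _, _, _, h1, h2⟩
  · exact h.1
  · exact h1.1.trans h2.1

lemma inner_two (hG : ∀ g ∈ G, GoodGroup K g) {c : Fin (K + 2)} {a b : EltT K G}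
    (h : InnerEdge (labT K G) (keyT K G) c a b) {z z' : EltT K G}
    (h1 : keyT K G c a < keyT K G c z) (h2 : keyT K G c z < keyT K G c b)
    (h1' : keyT K G c a < keyT K G c z') (h2' : keyT K G c z' < keyT K G c b) :
    keyT K G c z = keyT K G c z' ∧ z.1.lab ≠ 2 := by
  rcases h with h | ⟨m, hm, _, _, h3, h4⟩
  · exact absurd ⟨h1, h2⟩ (h.2 z)
  · have e : ∀ y : EltT K G, keyT K G c a < keyT K G c y → keyT K G c y < keyT K G c b →
        keyT K G c y = keyT K G c m := by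
      intro y y1 y2
      rcases lt_trichotomy (keyT K G c y) (keyT K G c m) with h | h | h
      · exact absurd ⟨y1, h⟩ (h3.2 y)
      · exact h
      · exact absurd ⟨h, y2⟩ (h4.2 y)
    have e1 := e z h1 h2
    have e2 := e z' h1' h2'
    refine ⟨e1.trans e2.symm, ?_⟩
    have := keyT_inj K G hG c e1
    rw [this]
    exact hm

lemma no_two (hG : ∀ g ∈ G, GoodGroup K g) {c : Fin (K + 2)} {a b : EltT K G}
    (h : InnerEdge (labT K G) (keyT K G) c a b) (u u' : ℤ) (q q' : ℕ) (hq : q < 4) (hq' : q' < 4)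
    (hu : RegLev K G u) (hu' : RegLev K G u') (hne : 8 * u + (q : ℤ) ≠ 8 * u' + q')
    (h1 : keyT K G c a < 8 * u + q) (h2 : 8 * u + q < keyT K G c b)
    (h1' : keyT K G c a < 8 * u' + q') (h2' : 8 * u' + q' < keyT K G c b) : False := by
  obtain ⟨z, hz⟩ := exists_dum c u hu q hq
  obtain ⟨z', hz'⟩ := exists_dum c u' hu' q' hq'
  rw [← hz] at h1 h2
  rw [← hz'] at h1' h2'
  have := (inner_two hG h h1 h2 h1' h2').1
  rw [hz, hz'] at this
  exact hne this

lemma step_up (hG : ∀ g ∈ G, GoodGroup K g) {c : Fin (K + 2)} {a b : EltT K G}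
    (h : InnerEdge (labT K G) (keyT K G) c a b) (hr : RegLev K G (a.1.lev K G c + 1)) :
    a.1.lev K G c ≤ b.1.lev K G c ∧ b.1.lev K G c ≤ a.1.lev K G c + 1 := by
  have hlt := inner_lt h
  obtain ⟨v, q, h1, h2, _, h4, h5⟩ := key_split c a
  obtain ⟨v', q', h1', h2', _, h4', h5'⟩ := key_split c b
  rw [h2] at hr ⊢
  rw [h2']
  rw [h1, h1'] at hlt
  refine ⟨by omega, ?_⟩
  by_contra hc
  exact no_two hG h (v + 1) (v + 1) 0 1 (by norm_num) (by norm_num) hr hr (by push_cast; omega)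
    (by rw [h1]; push_cast; omega) (by rw [h1']; push_cast; omega)
    (by rw [h1]; push_cast; omega) (by rw [h1']; push_cast; omega)

lemma step_down (hG : ∀ g ∈ G, GoodGroup K g) {c : Fin (K + 2)} {a b : EltT K G}
    (h : InnerEdge (labT K G) (keyT K G) c a b) (hr : RegLev K G (b.1.lev K G c - 1)) :
    a.1.lev K G c ≤ b.1.lev K G c ∧ b.1.lev K G c ≤ a.1.lev K G c + 1 := by
  have hlt := inner_lt h
  obtain ⟨v, q, h1, h2, _, h4, h5⟩ := key_split c a
  obtain ⟨v', q', h1', h2', _, h4', h5'⟩ := key_split c b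
  rw [h2'] at hr ⊢
  rw [h2]
  rw [h1, h1'] at hlt
  refine ⟨by omega, ?_⟩
  by_contra hc
  exact no_two hG h (v' - 1) (v' - 1) 0 1 (by norm_num) (by norm_num) hr hr (by push_cast; omega)
    (by rw [h1]; push_cast; omega) (by rw [h1']; push_cast; omega)
    (by rw [h1]; push_cast; omega) (by rw [h1']; push_cast; omega)

/-- the column of a dummy -/
lemma dum_col (c : Fin (K + 2)) (w : EltT K G) (h : w.1.lab ≠ 2) : ∃ (r p : ℕ), w.1 = .dum r p ∧
    p < 4 ∧ keyT K G c w = 8 * w.1.lev K G c + p := by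
  obtain ⟨r, p, h1, h2, h3, _⟩ := (sub_le c w).2.2.1 h
  refine ⟨r, p, h1, h2, ?_⟩
  unfold keyT Elt.key
  rw [h3]

lemma rep_key (c : Fin (K + 2)) (w : EltT K G) (h : w.1.lab = 2) :
    8 * w.1.lev K G c + 4 ≤ keyT K G c w ∧ keyT K G c w ≤ 8 * w.1.lev K G c + 5 := by
  have h1 := (sub_le c w).2.2.2 h
  have h2 := (sub_le c w).2.1
  unfold keyT Elt.key
  constructor <;> linarith

lemma dum_dum (hG : ∀ g ∈ G, GoodGroup K g) {c : Fin (K + 2)} {a b : EltT K G}
    (h : InnerEdge (labT K G) (keyT K G) c a b) (hr : RegLev K G (a.1.lev K G c))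
    (hr' : RegLev K G (a.1.lev K G c + 1)) {r p r' p' : ℕ} (ha : a.1 = .dum r p)
    (hb : b.1 = .dum r' p') : p ≠ p' := by
  rintro rfl
  have hlt := inner_lt h
  have hs := step_up hG h hr'
  have la : a.1.lab ≠ 2 := by
    rw [ha]
    simp only [Elt.lab]
    omega
  have lb : b.1.lab ≠ 2 := by
    rw [hb]
    simp only [Elt.lab]
    omega
  obtain ⟨r1, p1, e1, e2, e3⟩ := dum_col c a la
  obtain ⟨r2, p2, e1', e2', e3'⟩ := dum_col c b lb
  rw [ha] at e1
  rw [hb] at e1'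
  obtain ⟨rfl, rfl⟩ := Elt.dum.inj e1
  obtain ⟨rfl, rfl⟩ := Elt.dum.inj e1'
  generalize hva : a.1.lev K G c = v at *
  generalize hvb : b.1.lev K G c = v' at *
  have hv : v' = v + 1 := by omega
  rw [hv] at e3'
  rcases Nat.lt_or_ge p 2 with hp | hp
  · exact no_two hG h v v 2 3 (by norm_num) (by norm_num) hr hr (by push_cast; omega)
      (by rw [e3]; push_cast; omega) (by rw [e3']; push_cast; omega)
      (by rw [e3]; push_cast; omega) (by rw [e3']; push_cast; omega)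
  · exact no_two hG h (v + 1) (v + 1) 0 1 (by norm_num) (by norm_num) hr' hr'
      (by push_cast; omega)
      (by rw [e3]; push_cast; omega) (by rw [e3']; push_cast; omega)
      (by rw [e3]; push_cast; omega) (by rw [e3']; push_cast; omega)

lemma rep_rep (hG : ∀ g ∈ G, GoodGroup K g) {c : Fin (K + 2)} {a b : EltT K G}
    (h : InnerEdge (labT K G) (keyT K G) c a b)
    (hr' : RegLev K G (a.1.lev K G c + 1)) (la : a.1.lab = 2) (lb : b.1.lab = 2) :
    a.1.lev K G c = b.1.lev K G c := by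
  have hlt := inner_lt h
  have hs := step_up hG h hr'
  have ka := rep_key c a la
  have kb := rep_key c b lb
  generalize hva : a.1.lev K G c = v at *
  generalize hvb : b.1.lev K G c = v' at *
  by_contra hc
  have hv : v' = v + 1 := by omega
  rw [hv] at kb
  exact no_two hG h (v + 1) (v + 1) 0 1 (by norm_num) (by norm_num) hr' hr' (by push_cast; omega)
    (by push_cast; omega) (by push_cast; omega) (by push_cast; omega) (by push_cast; omega)

lemma dum_rep (hG : ∀ g ∈ G, GoodGroup K g) {c : Fin (K + 2)} {a b : EltT K G}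
    (h : InnerEdge (labT K G) (keyT K G) c a b) (hr : RegLev K G (a.1.lev K G c))
    (hr' : RegLev K G (a.1.lev K G c + 1)) {r p : ℕ} (ha : a.1 = .dum r p) (lb : b.1.lab = 2) :
    2 ≤ p := by
  have hlt := inner_lt h
  have hs := step_up hG h hr'
  have la : a.1.lab ≠ 2 := by
    rw [ha]
    simp only [Elt.lab]
    omega
  obtain ⟨r1, p1, e1, e2, e3⟩ := dum_col c a la
  rw [ha] at e1
  obtain ⟨rfl, rfl⟩ := Elt.dum.inj e1
  have kb := rep_key c b lb
  generalize hva : a.1.lev K G c = v at *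
  generalize hvb : b.1.lev K G c = v' at *
  by_contra hc
  exact no_two hG h v v 2 3 (by norm_num) (by norm_num) hr hr (by push_cast; omega)
    (by rw [e3]; push_cast; omega) (by push_cast; omega)
    (by rw [e3]; push_cast; omega) (by push_cast; omega)

lemma rep_dum (hG : ∀ g ∈ G, GoodGroup K g) {c : Fin (K + 2)} {a b : EltT K G}
    (h : InnerEdge (labT K G) (keyT K G) c a b)
    (hr' : RegLev K G (a.1.lev K G c + 1)) {r p : ℕ} (la : a.1.lab = 2) (hb : b.1 = .dum r p) :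
    p ≤ 1 := by
  have hlt := inner_lt h
  have hs := step_up hG h hr'
  have lb : b.1.lab ≠ 2 := by
    rw [hb]
    simp only [Elt.lab]
    omega
  obtain ⟨r1, p1, e1, e2, e3⟩ := dum_col c b lb
  rw [hb] at e1
  obtain ⟨rfl, rfl⟩ := Elt.dum.inj e1
  have ka := rep_key c a la
  generalize hva : a.1.lev K G c = v at *
  generalize hvb : b.1.lev K G c = v' at *
  have hv : v' = v + 1 := by omega
  rw [hv] at e3
  by_contra hc
  exact no_two hG h (v + 1) (v + 1) 0 1 (by norm_num) (by norm_num) hr' hr' (by push_cast; omega)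
    (by push_cast; omega) (by rw [e3]; push_cast; omega)
    (by push_cast; omega) (by rw [e3]; push_cast; omega)

/-! ### Regularity -/

/-- slightly weaker than `Reg` -/
def RegE (K : ℕ) (G : List (List Pnt)) (w : Elt) : Prop :=
  (NN K : ℤ) ^ 14 ≤ w.row K G + 3 * (NN K : ℤ) ^ 13 ∧
    (w.row K G : ℤ) + (NN K : ℤ) ^ 14 ≤ rows K G.length + 3 * (NN K : ℤ) ^ 13

lemma regE_of_reg {w : Elt} (h : Reg K G w) : RegE K G w := by
  obtain ⟨h1, h2⟩ := h
  have h1' : (NN K : ℤ) ^ 14 ≤ w.row K G := by exact_mod_cast h1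
  have h2' : (w.row K G : ℤ) + (NN K : ℤ) ^ 14 ≤ rows K G.length := by exact_mod_cast h2
  have h3 := pow_pos' K 13
  constructor <;> linarith

lemma regLev_of (hG : ∀ g ∈ G, GoodGroup K g) {w : EltT K G} (h : RegE K G w.1)
    (c : Fin (K + 2)) (t : ℤ) (ht : -3 ≤ t) (ht' : t ≤ 3) : RegLev K G (w.1.lev K G c + t) := by
  obtain ⟨h1, h2⟩ := h
  rw [lev_eq]
  have h3 := abs_le.1 (slo_mul_le K c _ (xi_le hG w))
  have h4 := eta_le hG c w
  have h5 := pow_step K 13 14 rfl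
  have h6 := pow_pos' K 13
  have h7 : 2 * (K : ℤ) + 5 ≤ (NN K : ℤ) ^ 13 := by
    have a1 := pow_mono' K (show 1 ≤ 13 by norm_num)
    rw [pow_one] at a1
    have a2 := NN_eq K
    have a3 : (0 : ℤ) ≤ K := Int.natCast_nonneg K
    linarith
  have h8 : (1000 : ℤ) ≤ (NN K : ℤ) ^ 13 := by
    have a1 := pow_mono' K (show 1 ≤ 13 by norm_num)
    rw [pow_one] at a1
    have a2 := NN_ge K
    linarith
  constructor <;> linarith [h3.1, h3.2, h4.1, h4.2]

lemma nbr_close (hG : ∀ g ∈ G, GoodGroup K g) {c : Fin (K + 2)} {w l : EltT K G}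
    (h : Nbr K G c w l) (hw : RegE K G w.1) : |w.1.lev K G c - l.1.lev K G c| ≤ 1 := by
  have h1 := regLev_of hG hw c 1 (by norm_num) (by norm_num)
  have h2 := regLev_of hG hw c (-1) (by norm_num) (by norm_num)
  rw [← sub_eq_add_neg] at h2
  rcases h with h | h
  · have := step_up hG h h1
    rw [abs_le]
    constructor <;> linarith [this.1, this.2]
  · have := step_down hG h h2
    rw [abs_le]
    constructor <;> linarith [this.1, this.2]

lemma regE_nbr (hG : ∀ g ∈ G, GoodGroup K g) {c : Fin (K + 2)} {w l : EltT K G}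
    (h : Nbr K G c w l) (hw : Reg K G w.1) : RegE K G l.1 := by
  have h1 := abs_le.1 (row_near hG c w l (nbr_close hG h (regE_of_reg hw)))
  obtain ⟨h2, h3⟩ := hw
  have h2' : (NN K : ℤ) ^ 14 ≤ w.1.row K G := by exact_mod_cast h2
  have h3' : (w.1.row K G : ℤ) + (NN K : ℤ) ^ 14 ≤ rows K G.length := by exact_mod_cast h3
  constructor <;> linarith [h1.1, h1.2]

/-! ### The two cases of neighbours -/

/-- `w` has a much larger abscissa than `l` -/
def Big (K : ℕ) (G : List (List Pnt)) (w l : Elt) : Prop :=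
  (NN K : ℤ) * |xi K G l| ≤ |xi K G w| ∧ (NN K : ℤ) * NN K ≤ |xi K G w|

lemma big_dum {r p r' p' : ℕ} (hp : p < 4) (h : p' < p) : Big K G (.dum r p) (.dum r' p') := by
  unfold Big xi
  simp only
  rw [col_abs K p hp, col_abs K p' (by omega)]
  constructor
  · have := pow_mul' (NN K : ℤ) 1 (p' + 2) (p' + 3) (by omega)
    rw [pow_one] at this
    rw [this]
    exact pow_mono' K (by omega)
  · have := pow_mul' (NN K : ℤ) 1 1 2 (by omega)
    rw [pow_one] at this
    rw [this]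
    exact pow_mono' K (by omega)

lemma xi_rep (hG : ∀ g ∈ G, GoodGroup K g) (l : EltT K G) (h : l.1.lab = 2) :
    |xi K G l.1| ≤ 2 := by
  obtain ⟨w, hw⟩ := l
  rcases (mem_elts K G w).1 hw with ⟨a, p, _, _, h1⟩ | ⟨s, j, i, _, hj, hi, h1⟩
  · exfalso
    simp only at h
    rw [h1] at h
    simp only [Elt.lab] at h
    omega
  · obtain ⟨g1, g2, g3⟩ := pnt_spec hj hi
    have := (hG _ g1).X_le _ g3
    simp only [h1, xi]
    rw [abs_of_nonneg (Int.natCast_nonneg _)]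
    exact_mod_cast this

lemma big_rep (hG : ∀ g ∈ G, GoodGroup K g) {r p : ℕ} (hp : p < 4) (l : EltT K G)
    (h : l.1.lab = 2) : Big K G (.dum r p) l.1 := by
  have h1 := xi_rep hG l h
  have h2 : (NN K : ℤ) * NN K ≤ |xi K G (.dum r p)| := by
    unfold xi
    simp only
    rw [col_abs K p hp]
    have := pow_mul' (NN K : ℤ) 1 1 2 (by omega)
    rw [pow_one] at this
    rw [this]
    exact pow_mono' K (by omega)
  refine ⟨le_trans ?_ h2, h2⟩
  have h3 := NN_ge K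
  exact mul_le_mul_of_nonneg_left (by linarith) (by linarith)

lemma nbr_big (hG : ∀ g ∈ G, GoodGroup K g) {c : Fin (K + 2)} {w l : EltT K G}
    (h : Nbr K G c w l) (hw : RegE K G w.1) (hl : RegE K G l.1) (lw : w.1.lab ≠ 2)
    (ll : l.1.lab ≠ 2) : Big K G w.1 l.1 ∨ Big K G l.1 w.1 := by
  obtain ⟨r, p, e1, e2, _⟩ := dum_col c w lw
  obtain ⟨r', p', e1', e2', _⟩ := dum_col c l ll
  have hne : p ≠ p' := by
    rcases h with h | h
    · have a0 := regLev_of hG hw c 0 (by norm_num) (by norm_num)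
      have a1 := regLev_of hG hw c 1 (by norm_num) (by norm_num)
      rw [add_zero] at a0
      exact dum_dum hG h a0 a1 e1 e1'
    · have a0 := regLev_of hG hl c 0 (by norm_num) (by norm_num)
      have a1 := regLev_of hG hl c 1 (by norm_num) (by norm_num)
      rw [add_zero] at a0
      exact (dum_dum hG h a0 a1 e1' e1).symm
  rw [e1, e1']
  rcases lt_or_gt_of_ne hne with h1 | h1
  · right
    exact big_dum e2' h1
  · left
    exact big_dum e2 h1

lemma two_reps (hG : ∀ g ∈ G, GoodGroup K g) {c : Fin (K + 2)} {w l l' : EltT K G}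
    (h : Nbr K G c w l) (h' : Nbr K G c w l') (hw : RegE K G w.1) (hl : RegE K G l.1)
    (hl' : RegE K G l'.1) (lw : w.1.lab ≠ 2) (ll : l.1.lab = 2) (ll' : l'.1.lab = 2) : l = l' := by
  obtain ⟨r, p, e1, e2, _⟩ := dum_col c w lw
  have a0 := regLev_of hG hw c 0 (by norm_num) (by norm_num)
  have a1 := regLev_of hG hw c 1 (by norm_num) (by norm_num)
  rw [add_zero] at a0
  have b1 := regLev_of hG hl c 1 (by norm_num) (by norm_num)
  have b1' := regLev_of hG hl' c 1 (by norm_num) (by norm_num)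
  by_contra hne
  have hkne : keyT K G c l ≠ keyT K G c l' := fun hk => hne (keyT_inj K G hG c hk)
  rcases h with h | h <;> rcases h' with h' | h'
  · have k := inner_lt h
    have k' := inner_lt h'
    rcases lt_or_gt_of_ne hkne with hk | hk
    · exact (inner_two hG h' k hk k hk).2 ll
    · exact (inner_two hG h k' hk k' hk).2 ll'
  · have := dum_rep hG h a0 a1 e1 ll
    have := rep_dum hG h' b1' ll' e1
    omega
  · have := dum_rep hG h' a0 a1 e1 ll'
    have := rep_dum hG h b1 ll e1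
    omega
  · have k := inner_lt h
    have k' := inner_lt h'
    rcases lt_or_gt_of_ne hkne with hk | hk
    · exact (inner_two hG h hk k' hk k').2 ll'
    · exact (inner_two hG h' hk k hk k).2 ll

/-! ### Arithmetic -/

lemma abs_mul_ge {a x : ℤ} (ha : a ≠ 0) : |x| ≤ |a * x| := by
  rw [abs_mul]
  have h1 : 1 ≤ |a| := Int.one_le_abs ha
  have h2 := abs_nonneg x
  nlinarith

lemma abs_mul_le' {a x B : ℤ} (ha : |a| ≤ B) : |a * x| ≤ B * |x| := by
  rw [abs_mul]
  exact mul_le_mul_of_nonneg_right ha (abs_nonneg x)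

lemma core_fin (N B : ℤ) (hN : 1000 ≤ N) (hBN : 100 * B ≤ N)
    (x y z a b g E : ℤ) (hx : N * |y| ≤ |x|) (hy : N * N ≤ |y|) (hz : N * |z| ≤ |y|)
    (hab : |a - b| ≤ B) (hga : |g - a| ≤ B) (hbg : |b - g| ≤ B) (hE : |E| ≤ 3 * N)
    (heq : (a - b) * x + (g - a) * y + (b - g) * z = E) : a = b ∧ a = g := by
  have y0 := abs_nonneg y
  have z0 := abs_nonneg z
  have hy' : 1000 * N ≤ |y| := le_trans (by nlinarith) hy
  have hNY : 1000 * |y| ≤ N * |y| := mul_le_mul_of_nonneg_right hN y0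
  have hNZ : 1000 * |z| ≤ N * |z| := mul_le_mul_of_nonneg_right hN z0
  have hBY : 100 * (B * |y|) ≤ N * |y| := by
    rw [← mul_assoc]
    exact mul_le_mul_of_nonneg_right hBN y0
  have hBZ : 100 * (B * |z|) ≤ N * |z| := by
    rw [← mul_assoc]
    exact mul_le_mul_of_nonneg_right hBN z0
  have k1 := abs_le.1 (abs_mul_le' (x := y) hga)
  have k2 := abs_le.1 (abs_mul_le' (x := z) hbg)
  have k3 := abs_le.1 hE
  have hab' : a = b := by
    by_contra hne
    have h1 := abs_mul_ge (x := x) (sub_ne_zero.2 hne)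
    have h2 : |(a - b) * x| ≤ 3 * N + B * |y| + B * |z| := by
      have : (a - b) * x = E - (g - a) * y - (b - g) * z := by linarith
      rw [this, abs_le]
      constructor <;> linarith [k1.1, k1.2, k2.1, k2.2, k3.1, k3.2]
    linarith
  refine ⟨hab', ?_⟩
  by_contra hne
  subst hab'
  have h1 : (g - a) * (y - z) = E := by linarith
  have h2 := abs_mul_ge (x := y - z) (sub_ne_zero.2 (Ne.symm hne))
  rw [h1] at h2
  have h3 := abs_sub_abs_le_abs_sub y z
  linarith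

lemma core_fin1 (N B : ℤ) (hN : 1000 ≤ N) (hBN : 100 * B ≤ N) (hB : 0 ≤ B)
    (x y z a b g E : ℤ) (hx : N * N ≤ |x|) (hy : |y| ≤ 2) (hz : |z| ≤ 2)
    (hga : |g - a| ≤ B) (hbg : |b - g| ≤ B) (hE : |E| ≤ 3 * N)
    (heq : (a - b) * x + (g - a) * y + (b - g) * z = E) : a = b := by
  have k1 := abs_le.1 (abs_mul_le' (x := y) hga)
  have k2 := abs_le.1 (abs_mul_le' (x := z) hbg)
  have k3 := abs_le.1 hE
  have hBy : B * |y| ≤ B * 2 := mul_le_mul_of_nonneg_left hy hB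
  have hBz : B * |z| ≤ B * 2 := mul_le_mul_of_nonneg_left hz hB
  by_contra hne
  have h1 := abs_mul_ge (x := x) (sub_ne_zero.2 hne)
  have h2 : |(a - b) * x| ≤ 3 * N + B * 2 + B * 2 := by
    have : (a - b) * x = E - (g - a) * y - (b - g) * z := by linarith
    rw [this, abs_le]
    constructor <;> linarith [k1.1, k1.2, k2.1, k2.2, k3.1, k3.2]
  have h3 : 1000 * N ≤ N * N := mul_le_mul_of_nonneg_right hN (by linarith)
  linarith

/-- separation of the `N^8`-part and the finite part -/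
lemma split_eq {M W F E R : ℤ} (hM : R < M) (h : M * W + F = E) (hF : |E - F| ≤ R) : W = 0 := by
  by_contra hW
  have h1 := abs_mul_ge (x := M) hW
  have h2 : W * M = E - F := by linarith
  rw [h2] at h1
  have h3 := le_abs_self M
  linarith

/-- the relation between rows of near elements -/
lemma rel (hG : ∀ g ∈ G, GoodGroup K g) (c : Fin (K + 2)) (w l : EltT K G)
    (h : |w.1.lev K G c - l.1.lev K G c| ≤ 1) : ∃ e : ℤ, |e| ≤ 2 * K + 5 ∧
      (w.1.row K G : ℤ) - l.1.row K G = slo K c * (xi K G w.1 - xi K G l.1) + e := by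
  rw [lev_eq, lev_eq] at h
  have h3 := eta_le hG c w
  have h4 := eta_le hG c l
  refine ⟨_, ?_, (add_sub_cancel (slo K c * (xi K G w.1 - xi K G l.1))
    ((w.1.row K G : ℤ) - l.1.row K G)).symm⟩
  rw [abs_le] at h ⊢
  constructor <;> linarith [h.1, h.2, h3.1, h3.2, h4.1, h4.2]

lemma tri_eq (hG : ∀ g ∈ G, GoodGroup K g) (x y z : EltT K G) (c₁ c₂ c₃ : Fin (K + 2))
    (h1 : |x.1.lev K G c₁ - y.1.lev K G c₁| ≤ 1) (h2 : |x.1.lev K G c₂ - z.1.lev K G c₂| ≤ 1)
    (h3 : |y.1.lev K G c₃ - z.1.lev K G c₃| ≤ 1) : ∃ (f₁ f₂ f₃ m₁ m₂ m₃ E : ℤ),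
    slo K c₁ = f₁ + m₁ * (NN K : ℤ) ^ 8 ∧ slo K c₂ = f₂ + m₂ * (NN K : ℤ) ^ 8 ∧
    slo K c₃ = f₃ + m₃ * (NN K : ℤ) ^ 8 ∧ |f₁ - f₂| ≤ K ∧ |f₃ - f₁| ≤ K ∧ |f₂ - f₃| ≤ K ∧
    |m₁ - m₂| ≤ 1 ∧ |m₃ - m₁| ≤ 1 ∧ |m₂ - m₃| ≤ 1 ∧ |E| ≤ 3 * (NN K : ℤ) ∧
    (m₁ - m₂) * xi K G x.1 + (m₃ - m₁) * xi K G y.1 + (m₂ - m₃) * xi K G z.1 = 0 ∧
    (f₁ - f₂) * xi K G x.1 + (f₃ - f₁) * xi K G y.1 + (f₂ - f₃) * xi K G z.1 = E := by
  obtain ⟨e1, he1, r1⟩ := rel hG c₁ x y h1
  obtain ⟨e2, he2, r2⟩ := rel hG c₂ x z h2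
  obtain ⟨e3, he3, r3⟩ := rel hG c₃ y z h3
  obtain ⟨f1, m1, s1, a1, b1, a1', b1'⟩ := slo_split K c₁
  obtain ⟨f2, m2, s2, a2, b2, a2', b2'⟩ := slo_split K c₂
  obtain ⟨f3, m3, s3, a3, b3, a3', b3'⟩ := slo_split K c₃
  have x5 := xi_le hG x
  have y5 := xi_le hG y
  have z5 := xi_le hG z
  have hN := NN_ge K
  have hNK := NN_eq K
  have hK : (0 : ℤ) ≤ K := Int.natCast_nonneg K
  have g12 : |f1 - f2| ≤ K := by rw [abs_le]; constructor <;> linarith
  have g31 : |f3 - f1| ≤ K := by rw [abs_le]; constructor <;> linarith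
  have g23 : |f2 - f3| ≤ K := by rw [abs_le]; constructor <;> linarith
  have hE : |e2 - e1 - e3| ≤ 3 * (NN K : ℤ) := by
    rw [abs_le] at *
    constructor <;> linarith [he1.1, he1.2, he2.1, he2.2, he3.1, he3.2]
  rw [s1] at r1
  rw [s2] at r2
  rw [s3] at r3
  have key : (NN K : ℤ) ^ 8 * ((m1 - m2) * xi K G x.1 + (m3 - m1) * xi K G y.1 +
      (m2 - m3) * xi K G z.1) + ((f1 - f2) * xi K G x.1 + (f3 - f1) * xi K G y.1 +
      (f2 - f3) * xi K G z.1) = e2 - e1 - e3 := by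
    generalize (NN K : ℤ) ^ 8 = M at *
    generalize xi K G x.1 = X at *
    generalize xi K G y.1 = Y at *
    generalize xi K G z.1 = Z at *
    generalize (x.1.row K G : ℤ) = rx at *
    generalize (y.1.row K G : ℤ) = ry at *
    generalize (z.1.row K G : ℤ) = rz at *
    linear_combination r2 - r1 - r3
  have hKN : (K : ℤ) ≤ NN K := by linarith
  have b : ∀ u v : ℤ, |u| ≤ K → |v| ≤ (NN K : ℤ) ^ 5 → |u * v| ≤ (NN K : ℤ) ^ 6 := by
    intro u v hu hv
    rw [abs_mul]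
    calc |u| * |v| ≤ (NN K : ℤ) * (NN K : ℤ) ^ 5 :=
          mul_le_mul (hu.trans hKN) hv (abs_nonneg _) (by linarith)
      _ = (NN K : ℤ) ^ 6 := by
          have := pow_mul' (NN K : ℤ) 1 5 6 rfl
          rw [pow_one] at this
          exact this
  have k1 := b _ _ g12 x5
  have k2 := b _ _ g31 y5
  have k3 := b _ _ g23 z5
  have p1 := pow_step K 6 7 rfl
  have p2 := pow_step K 7 8 rfl
  have p3 := pow_pos' K 6
  have p4 := pow_mono' K (show 1 ≤ 6 by norm_num)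
  rw [pow_one] at p4
  have hW := split_eq (R := 3 * (NN K : ℤ) ^ 6 + 3 * (NN K : ℤ) ^ 6) (by linarith) key (by
    rw [abs_le] at *
    constructor <;> linarith [k1.1, k1.2, k2.1, k2.2, k3.1, k3.2, hE.1, hE.2])
  refine ⟨f1, f2, f3, m1, m2, m3, e2 - e1 - e3, s1, s2, s3, g12, g31, g23, ?_, ?_, ?_, hE, hW, ?_⟩
  · rw [abs_le]; constructor <;> linarith
  · rw [abs_le]; constructor <;> linarith
  · rw [abs_le]; constructor <;> linarith
  · rw [hW, mul_zero, zero_add] at key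
    exact key

lemma tri3 (hG : ∀ g ∈ G, GoodGroup K g) (x y z : EltT K G) (c₁ c₂ c₃ : Fin (K + 2))
    (h1 : |x.1.lev K G c₁ - y.1.lev K G c₁| ≤ 1) (h2 : |x.1.lev K G c₂ - z.1.lev K G c₂| ≤ 1)
    (h3 : |y.1.lev K G c₃ - z.1.lev K G c₃| ≤ 1) (hxy : Big K G x.1 y.1) (hyz : Big K G y.1 z.1) :
    c₁ = c₂ ∧ c₁ = c₃ := by
  obtain ⟨f1, f2, f3, m1, m2, m3, E, s1, s2, s3, g1, g2, g3, l1, l2, l3, hE, q1, q2⟩ :=
    tri_eq hG x y z c₁ c₂ c₃ h1 h2 h3
  have hN := NN_ge K
  have hNK := NN_eq K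
  have hK : (0 : ℤ) ≤ K := Int.natCast_nonneg K
  obtain ⟨m12, m13⟩ := core_fin (NN K) 1 hN (by linarith) _ _ _ m1 m2 m3 0
    hxy.1 hyz.2 hyz.1 l1 l2 l3 (by rw [abs_zero]; linarith) q1
  obtain ⟨f12, f13⟩ := core_fin (NN K) K hN (by linarith) _ _ _ f1 f2 f3 E
    hxy.1 hyz.2 hyz.1 g1 g2 g3 hE q2
  constructor
  · apply slo_inj
    rw [s1, s2, f12, m12]
  · apply slo_inj
    rw [s1, s3, f13, m13]

lemma tri1 (hG : ∀ g ∈ G, GoodGroup K g) (x y z : EltT K G) (c₁ c₂ c₃ : Fin (K + 2))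
    (h1 : |x.1.lev K G c₁ - y.1.lev K G c₁| ≤ 1) (h2 : |x.1.lev K G c₂ - z.1.lev K G c₂| ≤ 1)
    (h3 : |y.1.lev K G c₃ - z.1.lev K G c₃| ≤ 1) (hxy : Big K G x.1 y.1)
    (hy : |xi K G y.1| ≤ 2) (hz : |xi K G z.1| ≤ 2) : c₁ = c₂ := by
  obtain ⟨f1, f2, f3, m1, m2, m3, E, s1, s2, s3, g1, g2, g3, l1, l2, l3, hE, q1, q2⟩ :=
    tri_eq hG x y z c₁ c₂ c₃ h1 h2 h3
  have hN := NN_ge K
  have hNK := NN_eq K
  have hK : (0 : ℤ) ≤ K := Int.natCast_nonneg K
  have m12 := core_fin1 (NN K) 1 hN (by linarith) (by norm_num) _ _ _ m1 m2 m3 0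
    hxy.2 hy hz l2 l3 (by rw [abs_zero]; linarith) q1
  have f12 := core_fin1 (NN K) K hN (by linarith) hK _ _ _ f1 f2 f3 E
    hxy.2 hy hz g2 g3 hE q2
  apply slo_inj
  rw [s1, s2, f12, m12]

lemma big_cycle {a b : Elt} (h1 : Big K G a b) (h2 : |xi K G a| ≤ |xi K G b|) : False := by
  obtain ⟨h3, h4⟩ := h1
  have hN := NN_ge K
  have h5 : 1000 * |xi K G b| ≤ (NN K : ℤ) * |xi K G b| :=
    mul_le_mul_of_nonneg_right hN (abs_nonneg _)
  have h6 : 1000 * (NN K : ℤ) ≤ (NN K : ℤ) * (NN K : ℤ) :=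
    mul_le_mul_of_nonneg_right hN (by linarith)
  have h7 := abs_nonneg (xi K G b)
  linarith

lemma big_le {a b : Elt} (h1 : Big K G a b) : |xi K G b| ≤ |xi K G a| := by
  obtain ⟨h3, _⟩ := h1
  have hN := NN_ge K
  have h5 : 1000 * |xi K G b| ≤ (NN K : ℤ) * |xi K G b| :=
    mul_le_mul_of_nonneg_right hN (abs_nonneg _)
  have h7 := abs_nonneg (xi K G b)
  linarith

lemma nbr_symm {c : Fin (K + 2)} {w l : EltT K G} (h : Nbr K G c w l) : Nbr K G c l w :=
  Or.symm h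

lemma nbr_ne {c : Fin (K + 2)} {w l : EltT K G} (h : Nbr K G c w l) : w ≠ l := by
  rintro rfl
  rcases h with h | h <;> exact lt_irrefl _ (inner_lt h)

end

end Loc

section

variable (K : ℕ) (G : List (List Pnt))

theorem triD (hG : ∀ g ∈ G, GoodGroup K g) (w l l' : EltT K G) (hw : w.1.lab ≠ 2)
    (hreg : Reg K G w.1) (c₁ c₂ c₃ : Fin (K + 2))
    (h1 : Nbr K G c₁ w l) (h2 : Nbr K G c₂ w l') (h3 : Nbr K G c₃ l l') :
    c₁ = c₂ ∧ c₁ = c₃ := by
  have rw' := regE_of_reg hreg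
  have rl := regE_nbr hG h1 hreg
  have rl' := regE_nbr hG h2 hreg
  have d1 := nbr_close hG h1 rw'
  have d2 := nbr_close hG h2 rw'
  have d3 := nbr_close hG h3 rl
  have d1' := d1
  have d2' := d2
  have d3' := d3
  rw [abs_sub_comm] at d1' d2' d3'
  obtain ⟨r, p, e1, e2, _⟩ := dum_col c₁ w hw
  by_cases hl : l.1.lab = 2 <;> by_cases hl' : l'.1.lab = 2
  · exfalso
    have b1 : Big K G w.1 l.1 := by
      rw [e1]
      exact big_rep hG e2 l hl
    have := tri1 hG w l l' c₁ c₂ c₃ d1 d2 d3 b1 (xi_rep hG l hl) (xi_rep hG l' hl')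
    subst this
    exact nbr_ne h3 (two_reps hG h1 h2 rw' rl rl' hw hl hl')
  · have b1 : Big K G w.1 l.1 := by
      rw [e1]
      exact big_rep hG e2 l hl
    have b3 : Big K G l'.1 l.1 := by
      obtain ⟨r', p', e1', e2', _⟩ := dum_col c₁ l' hl'
      rw [e1']
      exact big_rep hG e2' l hl
    rcases nbr_big hG h2 rw' rl' hw hl' with b2 | b2
    · obtain ⟨q1, q2⟩ := tri3 hG w l' l c₂ c₁ c₃ d2 d1 d3' b2 b3
      exact ⟨q1.symm, q1 ▸ q2⟩
    · obtain ⟨q1, q2⟩ := tri3 hG l' w l c₂ c₃ c₁ d2' d3' d1 b2 b1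
      exact ⟨q2.symm, q2 ▸ q1⟩
  · have b2 : Big K G w.1 l'.1 := by
      rw [e1]
      exact big_rep hG e2 l' hl'
    have b3 : Big K G l.1 l'.1 := by
      obtain ⟨r', p', e1', e2', _⟩ := dum_col c₁ l hl
      rw [e1']
      exact big_rep hG e2' l' hl'
    rcases nbr_big hG h1 rw' rl hw hl with b1 | b1
    · exact tri3 hG w l l' c₁ c₂ c₃ d1 d2 d3 b1 b3
    · obtain ⟨q1, q2⟩ := tri3 hG l w l' c₁ c₃ c₂ d1' d3 d2 b1 b2
      exact ⟨q2, q1⟩
  · rcases nbr_big hG h1 rw' rl hw hl with b1 | b1 <;>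
    rcases nbr_big hG h2 rw' rl' hw hl' with b2 | b2 <;>
    rcases nbr_big hG h3 rl rl' hl hl' with b3 | b3
    · exact tri3 hG w l l' c₁ c₂ c₃ d1 d2 d3 b1 b3
    · obtain ⟨q1, q2⟩ := tri3 hG w l' l c₂ c₁ c₃ d2 d1 d3' b2 b3
      exact ⟨q1.symm, q1 ▸ q2⟩
    · exact (big_cycle b1 ((big_le b2).trans (big_le b3))).elim
    · obtain ⟨q1, q2⟩ := tri3 hG l' w l c₂ c₃ c₁ d2' d3' d1 b2 b1
      exact ⟨q2.symm, q2 ▸ q1⟩
    · obtain ⟨q1, q2⟩ := tri3 hG l w l' c₁ c₃ c₂ d1' d3 d2 b1 b2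
      exact ⟨q2, q1⟩
    · exact (big_cycle b1 ((big_le b3).trans (big_le b2))).elim
    · obtain ⟨q1, q2⟩ := tri3 hG l l' w c₃ c₁ c₂ d3 d1' d2' b3 b2
      exact ⟨q1.symm.trans q2, q1.symm⟩
    · obtain ⟨q1, q2⟩ := tri3 hG l' l w c₃ c₂ c₁ d3' d2' d1' b3 b1
      exact ⟨q2.symm.trans q1, q2.symm⟩

theorem pairD (hG : ∀ g ∈ G, GoodGroup K g) (w l : EltT K G) (hreg : Reg K G w.1)
    (c₁ c₂ : Fin (K + 2)) (h1 : Nbr K G c₁ w l) (h2 : Nbr K G c₂ w l) : c₁ = c₂ := by
  have rw' := regE_of_reg hreg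
  have rl := regE_nbr hG h1 hreg
  have d1 := nbr_close hG h1 rw'
  have d2 := nbr_close hG h2 rw'
  have hN := NN_ge K
  have hNK := NN_eq K
  have hK : (0 : ℤ) ≤ K := Int.natCast_nonneg K
  have main : Big K G w.1 l.1 ∨ Big K G l.1 w.1 → c₁ = c₂ := by
    intro hb
    have hd : (NN K : ℤ) * NN K ≤ 2 * |xi K G w.1 - xi K G l.1| := by
      have a1 := abs_sub_abs_le_abs_sub (xi K G w.1) (xi K G l.1)
      have a2 := abs_sub_abs_le_abs_sub (xi K G l.1) (xi K G w.1)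
      rw [abs_sub_comm] at a2
      have a3 := abs_nonneg (xi K G w.1)
      have a4 := abs_nonneg (xi K G l.1)
      rcases hb with ⟨b1, b2⟩ | ⟨b1, b2⟩
      · have : 1000 * |xi K G l.1| ≤ (NN K : ℤ) * |xi K G l.1| :=
          mul_le_mul_of_nonneg_right hN (abs_nonneg _)
        linarith
      · have : 1000 * |xi K G w.1| ≤ (NN K : ℤ) * |xi K G w.1| :=
          mul_le_mul_of_nonneg_right hN (abs_nonneg _)
        linarith
    obtain ⟨e1, he1, r1⟩ := rel hG c₁ w l d1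
    obtain ⟨e2, he2, r2⟩ := rel hG c₂ w l d2
    apply slo_inj
    by_contra hne
    have h3 := abs_mul_ge (x := xi K G w.1 - xi K G l.1) (sub_ne_zero.2 hne)
    have h4 : (slo K c₁ - slo K c₂) * (xi K G w.1 - xi K G l.1) = e2 - e1 := by linarith
    rw [h4] at h3
    have h5 : |e2 - e1| ≤ 4 * K + 10 := by
      rw [abs_le] at *
      constructor <;> linarith [he1.1, he1.2, he2.1, he2.2]
    have h6 : 1000 * (NN K : ℤ) ≤ (NN K : ℤ) * (NN K : ℤ) :=
      mul_le_mul_of_nonneg_right hN (by linarith)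
    linarith
  by_cases hw : w.1.lab = 2 <;> by_cases hl : l.1.lab = 2
  · have lev_of : ∀ c : Fin (K + 2), Nbr K G c w l → w.1.lev K G c = l.1.lev K G c := by
      intro c h
      rcases h with h | h
      · exact rep_rep hG h (regLev_of hG rw' c 1 (by norm_num) (by norm_num)) hw hl
      · exact (rep_rep hG h (regLev_of hG rl c 1 (by norm_num) (by norm_num)) hl hw).symm
    have q1 := lev_of c₁ h1
    have q2 := lev_of c₂ h2
    have hrow := row_near hG c₁ w l d1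
    have hne := nbr_ne h1
    clear h1 h2 d1 d2 main lev_of rl rw' hreg
    rcases (mem_elts K G w.1).1 w.2 with ⟨a, p, _, hp, ew⟩ | ⟨s, j, i, _, hj, hi, ew⟩
    · rw [ew] at hw
      simp only [Elt.lab] at hw
      omega
    rcases (mem_elts K G l.1).1 l.2 with ⟨a', p', _, hp', el⟩ | ⟨s', j', i', _, hj', hi', el⟩
    · rw [el] at hl
      simp only [Elt.lab] at hl
      omega
    rw [ew, el] at q1 q2 hrow
    have hs : |(orig K G.length s j : ℤ) - orig K G.length s' j'| < slot K := by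
      refine lt_of_le_of_lt hrow ?_
      rw [slot_eq]
      have a1 := pow_step K 13 14 rfl
      have a2 := pow_step K 14 15 rfl
      have a3 := pow_pos' K 13
      linarith
    obtain ⟨rfl, rfl⟩ := orig_inj hj hj' hs
    have hii : i ≠ i' := by
      rintro rfl
      exact hne (Subtype.ext (ew.trans el.symm))
    obtain ⟨g1, g2, g3⟩ := pnt_spec hj hi
    obtain ⟨g1', g2', g3'⟩ := pnt_spec hj hi'
    have := (hG _ g1).tied_unique c₁ c₂ i i' (by have := c₁.2; omega) (by have := c₂.2; omega)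
      ⟨hii, _, _, g2, g2', rep_lev c₁ s j i i' q1⟩ ⟨hii, _, _, g2, g2', rep_lev c₂ s j i i' q2⟩
    exact Fin.ext this
  · obtain ⟨r, p, e1, e2, _⟩ := dum_col c₁ l hl
    apply main
    right
    rw [e1]
    exact big_rep hG e2 w hw
  · obtain ⟨r, p, e1, e2, _⟩ := dum_col c₁ w hw
    apply main
    left
    rw [e1]
    exact big_rep hG e2 l hl
  · exact main (nbr_big hG h1 rw' rl hw hl)

end

end Pool.Agent.Lib.MP_612bca_lc
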