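import Pool.Agent.Lib.MP_612bca_lc.PlaneDefs

/-!
# Local structure of the strip: definitions
-/

namespace Pool.Agent.Lib.MP_612bca_lc

/-- Neighbours inside the strip in class `c`. -/
def Nbr (K : ℕ) (G : List (List Pnt)) (c : Fin (K + 2)) (w l : EltT K G) : Prop :=
  InnerEdge (labT K G) (keyT K G) c w l ∨ InnerEdge (labT K G) (keyT K G) c l w

/-- Row of an element. -/
def Elt.row (K : ℕ) (G : List (List Pnt)) : Elt → ℕ
  | .dum a _ => a
  | .rep s j _ => orig K G.length s j

/-- Elements far from both ends of the strip. -/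
def Reg (K : ℕ) (G : List (List Pnt)) (w : Elt) : Prop :=
  NN K ^ 14 ≤ w.row K G ∧ w.row K G + NN K ^ 14 ≤ rows K G.length

/-- The dummy of column `p` at level `v` of class `c`. -/
def dumAt (K c : ℕ) (v : ℤ) (p : ℕ) : Elt := .dum (v + slo K c * col K p).toNat p

/-- Levels far from both ends of the strip. -/
def RegLev (K : ℕ) (G : List (List Pnt)) (v : ℤ) : Prop :=
  (NN K : ℤ) ^ 14 ≤ 2 * v ∧ 2 * v + (NN K : ℤ) ^ 14 ≤ 2 * rows K G.length

end Pool.Agent.Lib.MP_612bca_lc
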