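import Pool.Agent.Lib.MP_612bca_lc.AlgDefs

/-!
# From a bounded system to strict inequalities between small quantities
-/

set_option autoImplicit false

namespace Pool.Agent.Lib.MP_612bca_lc

namespace Quant

/-! ### Well-formedness -/

theorem wf_sqUp {N a b f : ℕ} (ha : a < N) (hb : b < N) (hf : f + 1 < N) :
    ∀ q ∈ sqUp a b f, q.WF N := by
  intro q hq
  simp only [sqUp, List.mem_cons, List.not_mem_nil, or_false] at hq
  rcases hq with rfl | rfl
  · simp only [QC.WF, List.length_cons, List.length_nil, List.mem_cons, List.not_mem_nil, or_false,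
      forall_eq_or_imp, forall_eq, true_and]
    omega
  · simp only [QC.WF]
    omega

theorem wf_sqLow {N a b f : ℕ} (ha : a < N) (hb : b < N) (hf : f + 1 < N) :
    ∀ q ∈ sqLow a b f, q.WF N := by
  intro q hq
  simp only [sqLow, List.mem_cons, List.not_mem_nil, or_false] at hq
  rcases hq with rfl | rfl
  · simp only [QC.WF, List.length_cons, List.length_nil, List.mem_cons, List.not_mem_nil, or_false,
      forall_eq_or_imp, forall_eq, true_and]
    omega
  · simp only [QC.WF]
    omega

theorem wf_chain {n L t N : ℕ} (h : auxBase n L t + 8 ≤ N) :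
    ∀ q ∈ chainQC n L t, q.WF N := by
  have hf : auxBase n L t = 4 + n + (L + 2) + 28 * t := rfl
  intro q hq
  simp only [chainQC, List.mem_append, List.mem_cons, List.not_mem_nil, or_false] at hq
  rcases hq with (((hq | hq) | hq) | hq) | rfl | rfl
  · exact wf_sqUp (by omega) (by omega) (by omega) q hq
  · exact wf_sqLow (by omega) (by omega) (by omega) q hq
  · exact wf_sqLow (by omega) (by omega) (by omega) q hq
  · exact wf_sqLow (by omega) (by omega) (by omega) q hq
  · simp only [QC.WF, List.length_cons, List.length_nil, List.mem_cons, List.not_mem_nil, or_false,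
      forall_eq_or_imp, forall_eq, true_and]
    omega
  · simp only [QC.WF, List.length_cons, List.length_nil, List.mem_cons, List.not_mem_nil, or_false,
      forall_eq, true_and]
    omega

theorem wf_con {n L r N : ℕ} {c : Con} (hc : c.Below n) (h : auxBase n L (L + 1 + r) + 28 ≤ N) :
    ∀ q ∈ conQC n L r c, q.WF N := by
  have hf : auxBase n L (L + 1 + r) = 4 + n + (L + 2) + 28 * (L + 1 + r) := rfl
  intro q hq
  cases c with
  | one i =>
    simp only [Con.Below] at hc
    simp only [conQC, List.mem_cons, List.not_mem_nil, or_false] at hq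
    rcases hq with rfl | rfl
    all_goals
      simp only [QC.WF, List.length_cons, List.length_nil, List.mem_cons, List.not_mem_nil,
        or_false, forall_eq_or_imp, forall_eq, true_and]
      omega
  | add i j l =>
    simp only [Con.Below] at hc
    simp only [conQC, List.mem_cons, List.not_mem_nil, or_false] at hq
    rcases hq with rfl | rfl
    all_goals
      simp only [QC.WF, List.length_cons, List.length_nil, List.mem_cons, List.not_mem_nil,
        or_false, forall_eq_or_imp, forall_eq, true_and]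
      omega
  | mul i j l =>
    simp only [Con.Below] at hc
    simp only [conQC, List.mem_append, List.mem_cons, List.not_mem_nil, or_false] at hq
    rcases hq with (((((((((((((hq | hq) | hq) | hq) | hq) | hq) | hq) | hq) | hq) | hq) | hq) |
      hq) | hq) | hq) | rfl | rfl
    · exact wf_sqUp (by omega) (by omega) (by omega) q hq
    · exact wf_sqUp (by omega) (by omega) (by omega) q hq
    · exact wf_sqUp (by omega) (by omega) (by omega) q hq
    · exact wf_sqUp (by omega) (by omega) (by omega) q hq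
    · exact wf_sqUp (by omega) (by omega) (by omega) q hq
    · exact wf_sqUp (by omega) (by omega) (by omega) q hq
    · exact wf_sqUp (by omega) (by omega) (by omega) q hq
    · exact wf_sqLow (by omega) (by omega) (by omega) q hq
    · exact wf_sqLow (by omega) (by omega) (by omega) q hq
    · exact wf_sqLow (by omega) (by omega) (by omega) q hq
    · exact wf_sqLow (by omega) (by omega) (by omega) q hq
    · exact wf_sqLow (by omega) (by omega) (by omega) q hq
    · exact wf_sqLow (by omega) (by omega) (by omega) q hq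
    · exact wf_sqLow (by omega) (by omega) (by omega) q hq
    all_goals
      simp only [QC.WF, List.length_cons, List.length_nil, List.mem_cons, List.not_mem_nil,
        or_false, forall_eq_or_imp, forall_eq, true_and]
      omega


/-! ### Soundness -/

theorem up_lt {x : ℕ → ℝ} (h0 : x 0 = 0) {a b f : ℕ} (h : ∀ q ∈ sqUp a b f, q.Holds x)
    (hab : 0 ≤ x a + x b) : (x a + x b) ^ 2 < x (f + 1) := by
  have h1 := h (.lin [a, b] [f, 0]) (by simp [sqUp])
  have h2 := h (.sqG (f + 1) f) (by simp [sqUp])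
  simp only [QC.Holds, List.map_cons, List.map_nil, List.sum_cons, List.sum_nil, add_zero, h0] at h1
  obtain ⟨h3, h4⟩ := h2
  nlinarith

theorem lt_low {x : ℕ → ℝ} (h0 : x 0 = 0) {a b f : ℕ} (h : ∀ q ∈ sqLow a b f, q.Holds x) :
    x (f + 1) < (x a + x b) ^ 2 := by
  have h1 := h (.lin [f, 0] [a, b]) (by simp [sqLow])
  have h2 := h (.sqL (f + 1) f) (by simp [sqLow])
  simp only [QC.Holds, List.map_cons, List.map_nil, List.sum_cons, List.sum_nil, add_zero, h0] at h1
  obtain ⟨h3, h4⟩ := h2
  nlinarith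

theorem chain_sound {x : ℕ → ℝ} {n L t : ℕ} (h0 : x 0 = 0) (hη : 0 < x 2)
    (hg : 0 < x (4 + n + t + 1)) (h : ∀ q ∈ chainQC n L t, q.Holds x) :
    x (4 + n + t + 1) * x 2 < x (4 + n + t) ^ 2 := by
  have h1 : (x (4 + n + t + 1) + x 2) ^ 2 < x (auxBase n L t + 1) :=
    up_lt h0 (fun q hq => h q (by simp only [chainQC, List.mem_append]; tauto)) (by linarith)
  have h2 : x (auxBase n L t + 2 + 1) < (x (4 + n + t) + x 0) ^ 2 :=
    lt_low h0 (fun q hq => h q (by simp only [chainQC, List.mem_append]; tauto))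
  have h3 : x (auxBase n L t + 4 + 1) < (x (4 + n + t + 1) + x 0) ^ 2 :=
    lt_low h0 (fun q hq => h q (by simp only [chainQC, List.mem_append]; tauto))
  have h4 : x (auxBase n L t + 6 + 1) < (x 2 + x 0) ^ 2 :=
    lt_low h0 (fun q hq => h q (by simp only [chainQC, List.mem_append]; tauto))
  have h5 := h (.lin [auxBase n L t + 1, 0, 0, 0] [auxBase n L t + 3, auxBase n L t + 3,
    auxBase n L t + 5, auxBase n L t + 7]) (by simp [chainQC])
  simp only [QC.Holds, List.map_cons, List.map_nil, List.sum_cons, List.sum_nil, add_zero, h0] at h5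
  simp only [h0, add_zero, add_assoc, Nat.reduceAdd] at h2 h3 h4
  simp only [add_assoc] at h1 h2 h3 h4 h5 ⊢
  nlinarith

theorem chain_pos {x : ℕ → ℝ} {n L t : ℕ} (h0 : x 0 = 0) (h : ∀ q ∈ chainQC n L t, q.Holds x) :
    0 < x (4 + n + t) := by
  have h5 := h (.lin [0] [4 + n + t]) (by simp [chainQC])
  simpa only [QC.Holds, List.map_cons, List.map_nil, List.sum_cons, List.sum_nil, add_zero, h0]
    using h5


/-! ### Completeness: the quantities -/

/-- The sequence `g_t`. -/
noncomputable def G (η : ℝ) : ℕ → ℝ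
  | 0 => η / 3
  | t + 1 => G η t ^ 2 / (2 * η)

theorem G_bound {η : ℝ} (hη : 0 < η) (t : ℕ) : 0 < G η t ∧ G η t ≤ η / 3 := by
  induction t with
  | zero => exact ⟨by simp only [G]; positivity, le_rfl⟩
  | succ t ih =>
    obtain ⟨h1, h2⟩ := ih
    refine ⟨by simp only [G]; positivity, ?_⟩
    simp only [G]
    rw [div_le_iff₀ (by positivity)]
    nlinarith

theorem G_succ_le {η : ℝ} (hη : 0 < η) (t : ℕ) : G η (t + 1) ≤ G η t := by
  obtain ⟨h1, h2⟩ := G_bound hη t
  simp only [G]
  rw [div_le_iff₀ (by positivity)]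
  nlinarith

theorem G_anti {η : ℝ} (hη : 0 < η) {s t : ℕ} (h : s ≤ t) : G η t ≤ G η s := by
  induction h with
  | refl => exact le_rfl
  | step _ ih => exact (G_succ_le hη _).trans ih

theorem G_mul {η : ℝ} (hη : 0 < η) (t : ℕ) : G η (t + 1) * (2 * η) = G η t ^ 2 := by
  simp only [G]
  field_simp

/-- The quantities of the layout proper. -/
noncomputable def base (n L : ℕ) (η T : ℝ) (z : ℕ → ℝ) (i : ℕ) : ℝ :=
  if i = 0 then 0 else if i = 1 then 5 * η / 2 else if i = 2 then η else if i = 3 then T else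
  if i < 4 + n then 5 * η / 2 + η * z (i - 4) else
  if i < 4 + n + (L + 2) then G η (i - (4 + n)) else 0

section
variable {n L : ℕ} {η T : ℝ} {z : ℕ → ℝ}

theorem base_0 : base n L η T z 0 = 0 := by simp [base]
theorem base_1 : base n L η T z 1 = 5 * η / 2 := by simp [base]
theorem base_2 : base n L η T z 2 = η := by simp [base]
theorem base_3 : base n L η T z 3 = T := by simp [base]

theorem base_p {i : ℕ} (hi : i < n) : base n L η T z (4 + i) = 5 * η / 2 + η * z i := by
  have h : 4 + i - 4 = i := by omega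
  unfold base
  rw [if_neg (by omega), if_neg (by omega), if_neg (by omega), if_neg (by omega),
    if_pos (by omega), h]

theorem base_g {t : ℕ} (ht : t ≤ L + 1) : base n L η T z (4 + n + t) = G η t := by
  have h : 4 + n + t - (4 + n) = t := by omega
  unfold base
  rw [if_neg (by omega), if_neg (by omega), if_neg (by omega), if_neg (by omega),
    if_neg (by omega), if_pos (by omega), h]

theorem base_bound (hη : 0 < η) (hT0 : 0 ≤ T) (hT : T ≤ η) (hz : ∀ i, |z i| ≤ 1) (i : ℕ) :
    0 ≤ base n L η T z i ∧ base n L η T z i ≤ 7 * η / 2 := by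
  unfold base
  split_ifs
  · constructor <;> linarith
  · constructor <;> linarith
  · constructor <;> linarith
  · constructor <;> linarith
  · have := abs_le.1 (hz (i - 4))
    constructor <;> nlinarith
  · have := G_bound hη (i - (4 + n))
    constructor <;> linarith
  · constructor <;> linarith

end

/-- The values of an auxiliary pair. -/
noncomputable def auxVal (κ : ℝ) (v : ℕ → ℝ) (par : ℕ) : Option (Bool × ℕ × ℕ) → ℝ
  | none => 0
  | some (up, a, b) =>
    let e := if up then κ else -κ
    if par = 0 then v a + v b + e else (v a + v b + e) ^ 2 + e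

/-- The auxiliary pairs of the block number `q`. -/
def blk (n L : ℕ) (S : List Con) (q : ℕ) : List (Bool × ℕ × ℕ) :=
  if q ≤ L then
    [(true, 4 + n + q + 1, 2), (false, 4 + n + q, 0), (false, 4 + n + q + 1, 0), (false, 2, 0)]
  else match S[q - (L + 1)]? with
    | some (.mul i j l) =>
      [(true, 4 + i, 4 + j), (true, 1, 0), (true, 2, 1), (true, 4 + l, 0), (true, 1, 4 + i),
        (true, 1, 4 + j), (true, 2, 4 + l),
        (false, 4 + i, 4 + j), (false, 1, 0), (false, 2, 1), (false, 4 + l, 0), (false, 1, 4 + i),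
        (false, 1, 4 + j), (false, 2, 4 + l)]
    | _ => []

/-- All quantities. -/
noncomputable def val (n L : ℕ) (S : List Con) (κ : ℝ) (v : ℕ → ℝ) (i : ℕ) : ℝ :=
  if i < 4 + n + (L + 2) then v i else
    auxVal κ v ((i - (4 + n + (L + 2))) % 28 % 2)
      ((blk n L S ((i - (4 + n + (L + 2))) / 28))[(i - (4 + n + (L + 2))) % 28 / 2]?)

section
variable {n L : ℕ} {S : List Con} {κ : ℝ} {v : ℕ → ℝ}

theorem val_base {i : ℕ} (hi : i < 4 + n + (L + 2)) : val n L S κ v i = v i := by
  unfold val
  rw [if_pos hi]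

theorem val_aux {q s : ℕ} (hs : s < 28) :
    val n L S κ v (auxBase n L q + s) = auxVal κ v (s % 2) ((blk n L S q)[s / 2]?) := by
  have h1 : auxBase n L q + s - (4 + n + (L + 2)) = 28 * q + s := by
    unfold auxBase
    omega
  have h2 : (28 * q + s) / 28 = q := by omega
  have h3 : (28 * q + s) % 28 = s := by omega
  unfold val
  rw [if_neg (by unfold auxBase; omega), h1, h2, h3]

theorem val_up0 {q s a b : ℕ} (hs : s < 28) (hs2 : s % 2 = 0)
    (hk : (blk n L S q)[s / 2]? = some (true, a, b)) :
    val n L S κ v (auxBase n L q + s) = v a + v b + κ := by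
  rw [val_aux hs, hk, hs2]
  simp [auxVal]

theorem val_up1 {q s a b : ℕ} (hs : s < 28) (hs2 : s % 2 = 0)
    (hk : (blk n L S q)[s / 2]? = some (true, a, b)) :
    val n L S κ v (auxBase n L q + s + 1) = (v a + v b + κ) ^ 2 + κ := by
  have h1 : (s + 1) / 2 = s / 2 := by omega
  have h2 : (s + 1) % 2 = 1 := by omega
  rw [add_assoc, val_aux (by omega), h1, h2, hk]
  simp [auxVal]

theorem val_low0 {q s a b : ℕ} (hs : s < 28) (hs2 : s % 2 = 0)
    (hk : (blk n L S q)[s / 2]? = some (false, a, b)) :
    val n L S κ v (auxBase n L q + s) = v a + v b - κ := by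
  rw [val_aux hs, hk, hs2]
  simp [auxVal, sub_eq_add_neg]

theorem val_low1 {q s a b : ℕ} (hs : s < 28) (hs2 : s % 2 = 0)
    (hk : (blk n L S q)[s / 2]? = some (false, a, b)) :
    val n L S κ v (auxBase n L q + s + 1) = (v a + v b - κ) ^ 2 - κ := by
  have h1 : (s + 1) / 2 = s / 2 := by omega
  have h2 : (s + 1) % 2 = 1 := by omega
  rw [add_assoc, val_aux (by omega), h1, h2, hk]
  simp [auxVal, sub_eq_add_neg]

theorem up_holds {q s a b : ℕ} (hv0 : v 0 = 0) (hκ : 0 < κ) (hs : s < 28) (hs2 : s % 2 = 0)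
    (hk : (blk n L S q)[s / 2]? = some (true, a, b)) (ha : a < 4 + n + (L + 2))
    (hb : b < 4 + n + (L + 2)) (hab : 0 ≤ v a + v b) :
    ∀ c ∈ sqUp a b (auxBase n L q + s), c.Holds (val n L S κ v) := by
  intro c hc
  simp only [sqUp, List.mem_cons, List.not_mem_nil, or_false] at hc
  rcases hc with rfl | rfl
  · simp only [QC.Holds, List.map_cons, List.map_nil, List.sum_cons, List.sum_nil, add_zero]
    rw [val_base ha, val_base hb, val_base (i := 0) (by omega), val_up0 hs hs2 hk, hv0]
    linarith
  · simp only [QC.Holds]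
    rw [val_up0 hs hs2 hk, val_up1 hs hs2 hk]
    constructor <;> linarith

theorem low_holds {q s a b : ℕ} (hv0 : v 0 = 0) (hκ : 0 < κ) (hs : s < 28) (hs2 : s % 2 = 0)
    (hk : (blk n L S q)[s / 2]? = some (false, a, b)) (ha : a < 4 + n + (L + 2))
    (hb : b < 4 + n + (L + 2)) (hab : κ < v a + v b) :
    ∀ c ∈ sqLow a b (auxBase n L q + s), c.Holds (val n L S κ v) := by
  intro c hc
  simp only [sqLow, List.mem_cons, List.not_mem_nil, or_false] at hc
  rcases hc with rfl | rfl
  · simp only [QC.Holds, List.map_cons, List.map_nil, List.sum_cons, List.sum_nil, add_zero]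
    rw [val_base ha, val_base hb, val_base (i := 0) (by omega), val_low0 hs hs2 hk, hv0]
    linarith
  · simp only [QC.Holds]
    rw [val_low0 hs hs2 hk, val_low1 hs hs2 hk]
    constructor <;> linarith

end

theorem val_bound {n L : ℕ} {S : List Con} {κ η : ℝ} {v : ℕ → ℝ} (hη : 0 < η) (hη1 : η ≤ 1 / 20)
    (hκ : 0 < κ) (hκη : κ ≤ η / 100) (hv : ∀ i, 0 ≤ v i ∧ v i ≤ 7 * η / 2) (i : ℕ) :
    |val n L S κ v i| < 20 * η := by
  unfold val
  split_ifs with h
  · rw [abs_of_nonneg (hv i).1]
    linarith [(hv i).2]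
  · generalize (blk n L S ((i - (4 + n + (L + 2))) / 28))[(i - (4 + n + (L + 2))) % 28 / 2]? = o
    generalize (i - (4 + n + (L + 2))) % 28 % 2 = par
    rcases o with _ | ⟨up, a, b⟩
    · simp only [auxVal, abs_zero]
      positivity
    · simp only [auxVal]
      have ha := hv a
      have hb := hv b
      generalize v a = A at ha
      generalize v b = B at hb
      have he : |if up = true then κ else -κ| ≤ η / 100 := by
        split_ifs
        · rwa [abs_of_pos hκ]
        · rwa [abs_neg, abs_of_pos hκ]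
      generalize (if up = true then κ else -κ) = e at he
      obtain ⟨he1, he2⟩ := abs_le.1 he
      split_ifs
      · rw [abs_lt]
        constructor <;> linarith
      · have h1 : |A + B + e| ≤ 8 * η := by
          rw [abs_le]
          constructor <;> linarith
        have h2 : (A + B + e) ^ 2 ≤ (8 * η) ^ 2 := by
          rw [← sq_abs]
          exact pow_le_pow_left₀ (abs_nonneg _) h1 2
        have h3 := sq_nonneg (A + B + e)
        rw [abs_lt]
        constructor <;> nlinarith


section
variable {n L : ℕ} {S : List Con} {κ η T : ℝ} {z : ℕ → ℝ}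

theorem chain_complete (hη : 0 < η) (hη1 : η ≤ 1 / 20) (hT : T = G η (L + 1) ^ 2 / 2)
    (hκ : κ = T / 100) {t : ℕ} (ht : t ≤ L) :
    ∀ c ∈ chainQC n L t, c.Holds (val n L S κ (base n L η T z)) := by
  obtain ⟨hG1, hG2⟩ := G_bound hη (L + 1)
  obtain ⟨ht1, ht2⟩ := G_bound hη t
  obtain ⟨hs1, hs2⟩ := G_bound hη (t + 1)
  have hmul := G_mul hη t
  have hle1 : G η (L + 1) ≤ G η t := G_anti hη (by omega)
  have hle2 : G η (L + 1) ≤ G η (t + 1) := G_anti hη (by omega)
  have hT0 : 0 < T := by rw [hT]; positivity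
  have hκ0 : 0 < κ := by rw [hκ]; positivity
  have hTG : T ≤ G η (L + 1) / 2 := by
    rw [hT]
    nlinarith
  have hκG : κ < G η (L + 1) := by linarith
  have hκt : 200 * κ ≤ G η t ^ 2 := by
    have : G η (L + 1) ^ 2 ≤ G η t ^ 2 := pow_le_pow_left₀ hG1.le hle1 2
    linarith
  have hv0 : base n L η T z 0 = 0 := base_0
  have hg : base n L η T z (4 + n + t) = G η t := base_g (by omega)
  have hg' : base n L η T z (4 + n + t + 1) = G η (t + 1) :=
    base_g (n := n) (L := L) (T := T) (z := z) (t := t + 1) (by omega)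
  have h2 : base n L η T z 2 = η := base_2
  have hblk : blk n L S t = [(true, 4 + n + t + 1, 2), (false, 4 + n + t, 0),
      (false, 4 + n + t + 1, 0), (false, 2, 0)] := if_pos ht
  have k0 : (blk n L S t)[0 / 2]? = some (true, 4 + n + t + 1, 2) := by rw [hblk]; rfl
  have k1 : (blk n L S t)[2 / 2]? = some (false, 4 + n + t, 0) := by rw [hblk]; rfl
  have k2 : (blk n L S t)[4 / 2]? = some (false, 4 + n + t + 1, 0) := by rw [hblk]; rfl
  have k3 : (blk n L S t)[6 / 2]? = some (false, 2, 0) := by rw [hblk]; rfl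
  intro c hc
  simp only [chainQC, List.mem_append, List.mem_cons, List.not_mem_nil, or_false] at hc
  rcases hc with (((hc | hc) | hc) | hc) | rfl | rfl
  · exact up_holds (s := 0) hv0 hκ0 (by norm_num) (by norm_num) k0 (by omega) (by omega)
      (by rw [hg', h2]; linarith) c hc
  · exact low_holds (s := 2) hv0 hκ0 (by norm_num) (by norm_num) k1 (by omega) (by omega)
      (by rw [hg, hv0]; linarith) c hc
  · exact low_holds (s := 4) hv0 hκ0 (by norm_num) (by norm_num) k2 (by omega) (by omega)
      (by rw [hg', hv0]; linarith) c hc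
  · exact low_holds (s := 6) hv0 hκ0 (by norm_num) (by norm_num) k3 (by omega) (by omega)
      (by rw [h2, hv0]; linarith) c hc
  · have e1 : val n L S κ (base n L η T z) (auxBase n L t + 1) = (G η (t + 1) + η + κ) ^ 2 + κ := by
      rw [← hg', ← h2]
      nth_rewrite 3 [h2]
      exact val_up1 (s := 0) (by norm_num) (by norm_num) k0
    have e2 : val n L S κ (base n L η T z) (auxBase n L t + 3) = (G η t + 0 - κ) ^ 2 - κ := by
      rw [← hg, ← hv0]
      exact val_low1 (s := 2) (by norm_num) (by norm_num) k1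
    have e3 : val n L S κ (base n L η T z) (auxBase n L t + 5)
        = (G η (t + 1) + 0 - κ) ^ 2 - κ := by
      rw [← hg', ← hv0]
      exact val_low1 (s := 4) (by norm_num) (by norm_num) k2
    have e4 : val n L S κ (base n L η T z) (auxBase n L t + 7) = (η + 0 - κ) ^ 2 - κ := by
      rw [val_low1 (s := 6) (by norm_num) (by norm_num) k3, h2, hv0]
    simp only [QC.Holds, List.map_cons, List.map_nil, List.sum_cons, List.sum_nil, add_zero]
    rw [e1, e2, e3, e4, val_base (i := 0) (by omega), hv0]
    nlinarith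
  · simp only [QC.Holds, List.map_cons, List.map_nil, List.sum_cons, List.sum_nil, add_zero]
    rw [val_base (i := 0) (by omega), hv0, val_base (i := 4 + n + t) (by omega), hg]
    exact ht1

end


section
variable {n L : ℕ} {S : List Con} {κ η T : ℝ} {z : ℕ → ℝ}

theorem one_complete (hη : 0 < η) {i : ℕ} (hi : i < n) (hz : z i = 1) (r : ℕ) :
    ∀ c ∈ conQC n L r (.one i), c.Holds (val n L S κ (base n L η T z)) := by
  obtain ⟨hG1, hG2⟩ := G_bound hη (L + 1)
  have hg : val n L S κ (base n L η T z) (4 + n + L + 1) = G η (L + 1) := by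
    rw [val_base (by omega)]
    exact base_g (n := n) (L := L) (T := T) (z := z) (t := L + 1) le_rfl
  have hp : val n L S κ (base n L η T z) (4 + i) = 5 * η / 2 + η * z i := by
    rw [val_base (by omega), base_p hi]
  have h0 : val n L S κ (base n L η T z) 0 = 0 := by rw [val_base (by omega), base_0]
  have h1 : val n L S κ (base n L η T z) 1 = 5 * η / 2 := by rw [val_base (by omega), base_1]
  have h2 : val n L S κ (base n L η T z) 2 = η := by rw [val_base (by omega), base_2]
  intro c hc
  simp only [conQC, List.mem_cons, List.not_mem_nil, or_false] at hc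
  rcases hc with rfl | rfl
  all_goals
    simp only [QC.Holds, List.map_cons, List.map_nil, List.sum_cons, List.sum_nil, add_zero]
    rw [hg, hp, h1, h2, hz]
    try rw [h0]
    linarith

theorem add_complete (hη : 0 < η) {i j l : ℕ} (hi : i < n) (hj : j < n) (hl : l < n)
    (hz : z i + z j - z l = 0) (r : ℕ) :
    ∀ c ∈ conQC n L r (.add i j l), c.Holds (val n L S κ (base n L η T z)) := by
  obtain ⟨hG1, hG2⟩ := G_bound hη (L + 1)
  have hg : val n L S κ (base n L η T z) (4 + n + L + 1) = G η (L + 1) := by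
    rw [val_base (by omega)]
    exact base_g (n := n) (L := L) (T := T) (z := z) (t := L + 1) le_rfl
  have hpi : val n L S κ (base n L η T z) (4 + i) = 5 * η / 2 + η * z i := by
    rw [val_base (by omega), base_p hi]
  have hpj : val n L S κ (base n L η T z) (4 + j) = 5 * η / 2 + η * z j := by
    rw [val_base (by omega), base_p hj]
  have hpl : val n L S κ (base n L η T z) (4 + l) = 5 * η / 2 + η * z l := by
    rw [val_base (by omega), base_p hl]
  have h0 : val n L S κ (base n L η T z) 0 = 0 := by rw [val_base (by omega), base_0]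
  have h1 : val n L S κ (base n L η T z) 1 = 5 * η / 2 := by rw [val_base (by omega), base_1]
  have hzl : z l = z i + z j := by linarith
  intro c hc
  simp only [conQC, List.mem_cons, List.not_mem_nil, or_false] at hc
  rcases hc with rfl | rfl
  all_goals
    simp only [QC.Holds, List.map_cons, List.map_nil, List.sum_cons, List.sum_nil, add_zero]
    rw [hg, hpi, hpj, hpl, h1, hzl, h0]
    linarith

theorem mul_ineq1 {A B C ν η κ : ℝ}
    (hD : (A + B) ^ 2 + 3 * ν ^ 2 + (η + ν) ^ 2 + C ^ 2 - (ν + A) ^ 2 - (ν + B) ^ 2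
      - (η + C) ^ 2 = 0) (hA : A ≤ 1) (hB : B ≤ 1) (hC : C ≤ 1) (hν : ν ≤ 1) (hη : η ≤ 1)
    (hκ : 0 < κ) (hκ1 : κ ≤ 1) :
    (A + B + κ) ^ 2 + κ + ((ν + 0 + κ) ^ 2 + κ + ((ν + 0 + κ) ^ 2 + κ + ((ν + 0 + κ) ^ 2 + κ +
      ((η + ν + κ) ^ 2 + κ + ((C + 0 + κ) ^ 2 + κ))))) < (ν + A - κ) ^ 2 - κ +
      ((ν + B - κ) ^ 2 - κ + ((η + C - κ) ^ 2 - κ + (100 * κ + (0 + 0)))) := by
  have qA : A * κ ≤ 1 * κ := mul_le_mul_of_nonneg_right hA hκ.le
  have qB : B * κ ≤ 1 * κ := mul_le_mul_of_nonneg_right hB hκ.le
  have qC : C * κ ≤ 1 * κ := mul_le_mul_of_nonneg_right hC hκ.le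
  have qν : ν * κ ≤ 1 * κ := mul_le_mul_of_nonneg_right hν hκ.le
  have qη : η * κ ≤ 1 * κ := mul_le_mul_of_nonneg_right hη hκ.le
  have qκ : κ * κ ≤ 1 * κ := mul_le_mul_of_nonneg_right hκ1 hκ.le
  linarith

theorem mul_ineq2 {A B C ν η κ : ℝ}
    (hD : (A + B) ^ 2 + 3 * ν ^ 2 + (η + ν) ^ 2 + C ^ 2 - (ν + A) ^ 2 - (ν + B) ^ 2
      - (η + C) ^ 2 = 0) (hA : A ≤ 1) (hB : B ≤ 1) (hC : C ≤ 1) (hν : ν ≤ 1) (hη : η ≤ 1)
    (hκ : 0 < κ) :
    (ν + A + κ) ^ 2 + κ + ((ν + B + κ) ^ 2 + κ + ((η + C + κ) ^ 2 + κ + (0 + (0 + (0 + 0))))) <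
      (A + B - κ) ^ 2 - κ + ((ν + 0 - κ) ^ 2 - κ + ((ν + 0 - κ) ^ 2 - κ + ((ν + 0 - κ) ^ 2 - κ +
      ((η + ν - κ) ^ 2 - κ + ((C + 0 - κ) ^ 2 - κ + 100 * κ))))) := by
  have qA : A * κ ≤ 1 * κ := mul_le_mul_of_nonneg_right hA hκ.le
  have qB : B * κ ≤ 1 * κ := mul_le_mul_of_nonneg_right hB hκ.le
  have qC : C * κ ≤ 1 * κ := mul_le_mul_of_nonneg_right hC hκ.le
  have qν : ν * κ ≤ 1 * κ := mul_le_mul_of_nonneg_right hν hκ.le
  have qη : η * κ ≤ 1 * κ := mul_le_mul_of_nonneg_right hη hκ.le
  have qκ0 : 0 ≤ κ * κ := mul_self_nonneg κ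
  linarith

theorem mul_complete (hη : 0 < η) (hη1 : η ≤ 1 / 20) (hT : T = G η (L + 1) ^ 2 / 2)
    (hκ : κ = T / 100) (hb : ∀ i, |z i| ≤ 1) {i j l : ℕ} (hi : i < n) (hj : j < n) (hl : l < n)
    (hz : z i * z j - z l = 0) {r : ℕ} (hr : S[r]? = some (.mul i j l)) :
    ∀ c ∈ conQC n L r (.mul i j l), c.Holds (val n L S κ (base n L η T z)) := by
  obtain ⟨hG1, hG2⟩ := G_bound hη (L + 1)
  have hT0 : 0 < T := by rw [hT]; positivity
  have hκ0 : 0 < κ := by rw [hκ]; positivity
  have hTη : T ≤ η / 36 := by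
    rw [hT]
    nlinarith
  have hv0 : base n L η T z 0 = 0 := base_0
  have h1 : base n L η T z 1 = 5 * η / 2 := base_1
  have h2 : base n L η T z 2 = η := base_2
  have h3 : base n L η T z 3 = T := base_3
  have hpi : base n L η T z (4 + i) = 5 * η / 2 + η * z i := base_p hi
  have hpj : base n L η T z (4 + j) = 5 * η / 2 + η * z j := base_p hj
  have hpl : base n L η T z (4 + l) = 5 * η / 2 + η * z l := base_p hl
  obtain ⟨bi1, bi2⟩ := abs_le.1 (hb i)
  obtain ⟨bj1, bj2⟩ := abs_le.1 (hb j)
  obtain ⟨bl1, bl2⟩ := abs_le.1 (hb l)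
  have hzl : z l = z i * z j := by linarith
  have ci1 : 3 * η / 2 ≤ base n L η T z (4 + i) := by rw [hpi]; nlinarith
  have ci2 : base n L η T z (4 + i) ≤ 7 * η / 2 := by rw [hpi]; nlinarith
  have cj1 : 3 * η / 2 ≤ base n L η T z (4 + j) := by rw [hpj]; nlinarith
  have cj2 : base n L η T z (4 + j) ≤ 7 * η / 2 := by rw [hpj]; nlinarith
  have cl1 : 3 * η / 2 ≤ base n L η T z (4 + l) := by rw [hpl]; nlinarith
  have cl2 : base n L η T z (4 + l) ≤ 7 * η / 2 := by rw [hpl]; nlinarith
  have hD : (base n L η T z (4 + i) + base n L η T z (4 + j)) ^ 2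
      + 3 * base n L η T z 1 ^ 2 + (base n L η T z 2 + base n L η T z 1) ^ 2
      + base n L η T z (4 + l) ^ 2
      - (base n L η T z 1 + base n L η T z (4 + i)) ^ 2
      - (base n L η T z 1 + base n L η T z (4 + j)) ^ 2
      - (base n L η T z 2 + base n L η T z (4 + l)) ^ 2 = 0 := by
    rw [hpi, hpj, hpl, h1, h2, hzl]
    ring
  have hblk : blk n L S (L + 1 + r) = [(true, 4 + i, 4 + j), (true, 1, 0), (true, 2, 1),
        (true, 4 + l, 0), (true, 1, 4 + i), (true, 1, 4 + j), (true, 2, 4 + l),
        (false, 4 + i, 4 + j), (false, 1, 0), (false, 2, 1), (false, 4 + l, 0), (false, 1, 4 + i),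
        (false, 1, 4 + j), (false, 2, 4 + l)] := by
    have e : L + 1 + r - (L + 1) = r := by omega
    unfold blk
    rw [if_neg (by omega), e, hr]
  have k0 : (blk n L S (L + 1 + r))[0 / 2]? = some (true, 4 + i, 4 + j) := by rw [hblk]; rfl
  have k1 : (blk n L S (L + 1 + r))[2 / 2]? = some (true, 1, 0) := by rw [hblk]; rfl
  have k2 : (blk n L S (L + 1 + r))[4 / 2]? = some (true, 2, 1) := by rw [hblk]; rfl
  have k3 : (blk n L S (L + 1 + r))[6 / 2]? = some (true, 4 + l, 0) := by rw [hblk]; rfl
  have k4 : (blk n L S (L + 1 + r))[8 / 2]? = some (true, 1, 4 + i) := by rw [hblk]; rfl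
  have k5 : (blk n L S (L + 1 + r))[10 / 2]? = some (true, 1, 4 + j) := by rw [hblk]; rfl
  have k6 : (blk n L S (L + 1 + r))[12 / 2]? = some (true, 2, 4 + l) := by rw [hblk]; rfl
  have m0 : (blk n L S (L + 1 + r))[14 / 2]? = some (false, 4 + i, 4 + j) := by rw [hblk]; rfl
  have m1 : (blk n L S (L + 1 + r))[16 / 2]? = some (false, 1, 0) := by rw [hblk]; rfl
  have m2 : (blk n L S (L + 1 + r))[18 / 2]? = some (false, 2, 1) := by rw [hblk]; rfl
  have m3 : (blk n L S (L + 1 + r))[20 / 2]? = some (false, 4 + l, 0) := by rw [hblk]; rfl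
  have m4 : (blk n L S (L + 1 + r))[22 / 2]? = some (false, 1, 4 + i) := by rw [hblk]; rfl
  have m5 : (blk n L S (L + 1 + r))[24 / 2]? = some (false, 1, 4 + j) := by rw [hblk]; rfl
  have m6 : (blk n L S (L + 1 + r))[26 / 2]? = some (false, 2, 4 + l) := by rw [hblk]; rfl
  intro c hc
  simp only [conQC, List.mem_append, List.mem_cons, List.not_mem_nil, or_false] at hc
  rcases hc with (((((((((((((hc | hc) | hc) | hc) | hc) | hc) | hc) | hc) | hc) | hc) | hc) |
      hc) | hc) | hc) | rfl | rfl
  · exact up_holds (s := 0) hv0 hκ0 (by norm_num) (by norm_num) k0 (by omega) (by omega)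
      (by linarith) c hc
  · exact up_holds (s := 2) hv0 hκ0 (by norm_num) (by norm_num) k1 (by omega) (by omega)
      (by linarith) c hc
  · exact up_holds (s := 4) hv0 hκ0 (by norm_num) (by norm_num) k2 (by omega) (by omega)
      (by linarith) c hc
  · exact up_holds (s := 6) hv0 hκ0 (by norm_num) (by norm_num) k3 (by omega) (by omega)
      (by linarith) c hc
  · exact up_holds (s := 8) hv0 hκ0 (by norm_num) (by norm_num) k4 (by omega) (by omega)
      (by linarith) c hc
  · exact up_holds (s := 10) hv0 hκ0 (by norm_num) (by norm_num) k5 (by omega) (by omega)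
      (by linarith) c hc
  · exact up_holds (s := 12) hv0 hκ0 (by norm_num) (by norm_num) k6 (by omega) (by omega)
      (by linarith) c hc
  · exact low_holds (s := 14) hv0 hκ0 (by norm_num) (by norm_num) m0 (by omega) (by omega)
      (by linarith) c hc
  · exact low_holds (s := 16) hv0 hκ0 (by norm_num) (by norm_num) m1 (by omega) (by omega)
      (by linarith) c hc
  · exact low_holds (s := 18) hv0 hκ0 (by norm_num) (by norm_num) m2 (by omega) (by omega)
      (by linarith) c hc
  · exact low_holds (s := 20) hv0 hκ0 (by norm_num) (by norm_num) m3 (by omega) (by omega)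
      (by linarith) c hc
  · exact low_holds (s := 22) hv0 hκ0 (by norm_num) (by norm_num) m4 (by omega) (by omega)
      (by linarith) c hc
  · exact low_holds (s := 24) hv0 hκ0 (by norm_num) (by norm_num) m5 (by omega) (by omega)
      (by linarith) c hc
  · exact low_holds (s := 26) hv0 hκ0 (by norm_num) (by norm_num) m6 (by omega) (by omega)
      (by linarith) c hc
  · have e1 := val_up1 (κ := κ) (v := base n L η T z) (s := 0) (by norm_num) (by norm_num) k0
    have e3 := val_up1 (κ := κ) (v := base n L η T z) (s := 2) (by norm_num) (by norm_num) k1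
    have e5 := val_up1 (κ := κ) (v := base n L η T z) (s := 4) (by norm_num) (by norm_num) k2
    have e7 := val_up1 (κ := κ) (v := base n L η T z) (s := 6) (by norm_num) (by norm_num) k3
    have e23 := val_low1 (κ := κ) (v := base n L η T z) (s := 22) (by norm_num) (by norm_num) m4
    have e25 := val_low1 (κ := κ) (v := base n L η T z) (s := 24) (by norm_num) (by norm_num) m5
    have e27 := val_low1 (κ := κ) (v := base n L η T z) (s := 26) (by norm_num) (by norm_num) m6
    simp only [QC.Holds, List.map_cons, List.map_nil, List.sum_cons, List.sum_nil, add_zero]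
    simp only [add_assoc, Nat.reduceAdd, zero_add] at e1 e3 e5 e7 e23 e25 e27 ⊢
    rw [e1, e3, e5, e7, e23, e25, e27, val_base (i := 0) (by omega), val_base (i := 3) (by omega),
      hv0, h3]
    rw [h1, h2] at hD ⊢
    generalize base n L η T z (4 + i) = A at hD ci1 ci2 ⊢
    generalize base n L η T z (4 + j) = B at hD cj1 cj2 ⊢
    generalize base n L η T z (4 + l) = C at hD cl1 cl2 ⊢
    have hTκ : T = 100 * κ := by rw [hκ]; ring
    rw [hTκ]
    refine lt_of_lt_of_eq (lt_of_eq_of_lt ?_ (mul_ineq1 hD (by linarith) (by linarith)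
      (by linarith) (by linarith) (by linarith) hκ0 (by linarith))) ?_ <;> ring
  · have e9 := val_up1 (κ := κ) (v := base n L η T z) (s := 8) (by norm_num) (by norm_num) k4
    have e11 := val_up1 (κ := κ) (v := base n L η T z) (s := 10) (by norm_num) (by norm_num) k5
    have e13 := val_up1 (κ := κ) (v := base n L η T z) (s := 12) (by norm_num) (by norm_num) k6
    have e15 := val_low1 (κ := κ) (v := base n L η T z) (s := 14) (by norm_num) (by norm_num) m0
    have e17 := val_low1 (κ := κ) (v := base n L η T z) (s := 16) (by norm_num) (by norm_num) m1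
    have e19 := val_low1 (κ := κ) (v := base n L η T z) (s := 18) (by norm_num) (by norm_num) m2
    have e21 := val_low1 (κ := κ) (v := base n L η T z) (s := 20) (by norm_num) (by norm_num) m3
    simp only [QC.Holds, List.map_cons, List.map_nil, List.sum_cons, List.sum_nil, add_zero]
    simp only [add_assoc, Nat.reduceAdd] at e9 e11 e13 e15 e17 e19 e21 ⊢
    rw [e9, e11, e13, e15, e17, e19, e21, val_base (i := 0) (by omega),
      val_base (i := 3) (by omega), hv0, h3]
    rw [h1, h2] at hD ⊢
    generalize base n L η T z (4 + i) = A at hD ci1 ci2 ⊢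
    generalize base n L η T z (4 + j) = B at hD cj1 cj2 ⊢
    generalize base n L η T z (4 + l) = C at hD cl1 cl2 ⊢
    have hTκ : T = 100 * κ := by rw [hκ]; ring
    rw [hTκ]
    refine lt_of_lt_of_eq (lt_of_eq_of_lt ?_ (mul_ineq2 hD (by linarith) (by linarith)
      (by linarith) (by linarith) (by linarith) hκ0)) ?_ <;> ring

end

end Quant

theorem quantSys_wf (n L : ℕ) (S : List Con) (hS : ∀ c ∈ S, c.Below n) :
    ∀ q ∈ quantSys n L S, q.WF (quantNum n L S) := by
  have hN : quantNum n L S = 4 + n + (L + 2) + 28 * (L + 1 + S.length) := rfl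
  intro q hq
  simp only [quantSys, List.mem_append, List.mem_map, List.mem_flatMap, List.mem_range] at hq
  rcases hq with ((hq | ⟨i, hi, rfl⟩) | ⟨t, ht, hq⟩) | ⟨p, hp, hq⟩
  · simp only [List.mem_cons, List.not_mem_nil, or_false] at hq
    rcases hq with rfl | rfl | rfl | rfl | rfl | rfl | rfl
    all_goals
      simp only [QC.WF, List.length_cons, List.length_nil, List.mem_cons, List.not_mem_nil,
        or_false, forall_eq_or_imp, forall_eq, true_and]
      omega
  · simp only [QC.WF, List.length_cons, List.length_nil, List.mem_cons, List.not_mem_nil,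
      or_false, forall_eq, true_and]
    omega
  · have hf : auxBase n L t = 4 + n + (L + 2) + 28 * t := rfl
    exact Quant.wf_chain (by omega) q hq
  · have hp2 : p.2 < S.length := by simpa using List.snd_lt_of_mem_zipIdx hp
    have hp1 : p.1 ∈ S := List.fst_mem_of_mem_zipIdx hp
    have hf : auxBase n L (L + 1 + p.2) = 4 + n + (L + 2) + 28 * (L + 1 + p.2) := rfl
    exact Quant.wf_con (hS _ hp1) (by omega) q hq

theorem quantSys_sound (n L : ℕ) (S : List Con) (hS : ∀ c ∈ S, c.Below n) (x : ℕ → ℝ)
    (h0 : x 0 = 0) (hx : ∀ q ∈ quantSys n L S, q.Holds x) :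
    ∃ z : ℕ → ℝ, ∀ c ∈ S, |c.val z| < 1 / 2 ^ 2 ^ L := by
  have hmem : ∀ q, q ∈ [QC.lin [0] [1], .lin [0] [2], .lin [0] [3], .lin [2, 2] [1, 0],
      .lin [4 + n, 4 + n] [2, 0], .lin [0] [4 + n + L + 1], .sqL 3 (4 + n + L + 1)] →
      q.Holds x := fun q hq => hx q (by simp only [quantSys, List.mem_append]; tauto)
  have hchain : ∀ t < L + 1, ∀ q ∈ chainQC n L t, q.Holds x := fun t ht q hq => hx q (by
    simp only [quantSys, List.mem_append]
    exact Or.inl (Or.inr (List.mem_flatMap.2 ⟨t, List.mem_range.2 ht, hq⟩)))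
  have hν : 0 < x 1 := by
    simpa only [QC.Holds, List.map_cons, List.map_nil, List.sum_cons, List.sum_nil, add_zero, h0]
      using hmem (.lin [0] [1]) (by simp)
  have hη : 0 < x 2 := by
    simpa only [QC.Holds, List.map_cons, List.map_nil, List.sum_cons, List.sum_nil, add_zero, h0]
      using hmem (.lin [0] [2]) (by simp)
  have hg0 : x (4 + n) + x (4 + n) < x 2 := by
    simpa only [QC.Holds, List.map_cons, List.map_nil, List.sum_cons, List.sum_nil, add_zero, h0]
      using hmem (.lin [4 + n, 4 + n] [2, 0]) (by simp)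
  have hgL : 0 < x (4 + n + L + 1) := by
    simpa only [QC.Holds, List.map_cons, List.map_nil, List.sum_cons, List.sum_nil, add_zero, h0]
      using hmem (.lin [0] [4 + n + L + 1]) (by simp)
  have hT : x 3 < x (4 + n + L + 1) ^ 2 := (hmem (.sqL 3 (4 + n + L + 1)) (by simp)).2
  have hp : ∀ i < n, 0 < x (4 + i) := by
    intro i hi
    have := hx (.lin [0] [4 + i]) (by
      simp only [quantSys, List.mem_append]
      exact Or.inl (Or.inl (Or.inr (List.mem_map.2 ⟨i, List.mem_range.2 hi, rfl⟩))))
    simpa only [QC.Holds, List.map_cons, List.map_nil, List.sum_cons, List.sum_nil, add_zero, h0]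
      using this
  have hgp : ∀ t ≤ L + 1, 0 < x (4 + n + t) := by
    intro t ht
    rcases Nat.lt_or_ge t (L + 1) with h | h
    · exact Quant.chain_pos h0 (hchain t h)
    · have : t = L + 1 := le_antisymm ht h
      subst this
      exact hgL
  have hg : ∀ t ≤ L + 1, x (4 + n + t) / x 2 < 1 / 2 ^ 2 ^ t := by
    intro t
    induction t with
    | zero =>
      intro _
      rw [div_lt_iff₀ hη]
      norm_num
      linarith
    | succ t ih =>
      intro ht
      have h1 := ih (by omega)
      have h2 := Quant.chain_sound h0 hη (hgp (t + 1) ht) (hchain t (by omega))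
      have h3 : 0 < x (4 + n + t) / x 2 := div_pos (hgp t (by omega)) hη
      have h4 : x (4 + n + (t + 1)) / x 2 < (x (4 + n + t) / x 2) ^ 2 := by
        rw [div_pow, div_lt_div_iff₀ hη (by positivity)]
        have : x (4 + n + (t + 1)) * x 2 < x (4 + n + t) ^ 2 := h2
        nlinarith
      have h5 : (1 / 2 ^ 2 ^ (t + 1) : ℝ) = (1 / 2 ^ 2 ^ t) ^ 2 := by
        rw [pow_succ 2 t, pow_mul, one_div_pow]
      rw [h5]
      exact h4.trans (pow_lt_pow_left₀ h1 h3.le two_ne_zero)
  have hε : x (4 + n + L + 1) / x 2 < 1 / 2 ^ 2 ^ (L + 1) := hg (L + 1) le_rfl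
  have hε0 : 0 < x (4 + n + L + 1) / x 2 := div_pos hgL hη
  have hLL : (1 / 2 ^ 2 ^ (L + 1) : ℝ) ≤ 1 / 2 ^ 2 ^ L := by
    apply one_div_le_one_div_of_le (by positivity)
    exact pow_le_pow_right₀ (by norm_num) (Nat.pow_le_pow_right (by norm_num) (by omega))
  have hle1 : (1 / 2 ^ 2 ^ (L + 1) : ℝ) ≤ 1 := by
    rw [div_le_one (by positivity)]
    exact one_le_pow₀ (by norm_num)
  refine ⟨fun i => (x (4 + i) - x 1) / x 2, ?_⟩
  intro c hc
  obtain ⟨r, hr, hcr⟩ := List.getElem_of_mem hc
  have hcon : ∀ q ∈ conQC n L r c, q.Holds x := fun q hq => hx q (by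
    simp only [quantSys, List.mem_append]
    refine Or.inr (List.mem_flatMap.2 ⟨(c, r), ?_, hq⟩)
    rw [List.mk_mem_zipIdx_iff_getElem?]
    simp [hr, hcr])
  have hbel := hS c hc
  cases c with
  | one i =>
    have h1 := hcon (.lin [4 + i, 0, 0] [1, 2, 4 + n + L + 1]) (by simp [conQC])
    have h2 := hcon (.lin [1, 2] [4 + i, 4 + n + L + 1]) (by simp [conQC])
    simp only [QC.Holds, List.map_cons, List.map_nil, List.sum_cons, List.sum_nil, add_zero, h0]
      at h1 h2
    have h3 : Con.val (fun i => (x (4 + i) - x 1) / x 2) (.one i)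
        = (x (4 + i) - x 1 - x 2) / x 2 := by
      simp only [Con.val]
      field_simp
    rw [h3]
    refine lt_of_lt_of_le ?_ (hε.le.trans hLL)
    rw [abs_div, abs_of_pos hη]
    apply div_lt_div_of_pos_right _ hη
    rw [abs_lt]
    constructor <;> linarith
  | add i j l =>
    have h1 := hcon (.lin [4 + i, 4 + j, 0] [4 + l, 1, 4 + n + L + 1]) (by simp [conQC])
    have h2 := hcon (.lin [4 + l, 1, 0] [4 + i, 4 + j, 4 + n + L + 1]) (by simp [conQC])
    simp only [QC.Holds, List.map_cons, List.map_nil, List.sum_cons, List.sum_nil, add_zero, h0]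
      at h1 h2
    have h3 : Con.val (fun i => (x (4 + i) - x 1) / x 2) (.add i j l)
        = (x (4 + i) + x (4 + j) - x (4 + l) - x 1) / x 2 := by
      simp only [Con.val]
      field_simp
      ring
    rw [h3]
    refine lt_of_lt_of_le ?_ (hε.le.trans hLL)
    rw [abs_div, abs_of_pos hη]
    apply div_lt_div_of_pos_right _ hη
    rw [abs_lt]
    constructor <;> linarith
  | mul i j l =>
    simp only [Con.Below] at hbel
    obtain ⟨hi, hj, hl⟩ := hbel
    have hpi := hp i hi
    have hpj := hp j hj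
    have hpl := hp l hl
    set f := auxBase n L (L + 1 + r) with hf
    have u1 : (x (4 + i) + x (4 + j)) ^ 2 < x (f + 1) :=
      Quant.up_lt h0 (fun q hq => hcon q (by simp only [conQC, List.mem_append]; tauto))
        (by linarith)
    have u2 : (x 1 + x 0) ^ 2 < x (f + 3) :=
      Quant.up_lt h0 (f := f + 2)
        (fun q hq => hcon q (by simp only [conQC, List.mem_append]; tauto)) (by linarith)
    have u3 : (x 2 + x 1) ^ 2 < x (f + 5) :=
      Quant.up_lt h0 (f := f + 4)
        (fun q hq => hcon q (by simp only [conQC, List.mem_append]; tauto)) (by linarith)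
    have u4 : (x (4 + l) + x 0) ^ 2 < x (f + 7) :=
      Quant.up_lt h0 (f := f + 6)
        (fun q hq => hcon q (by simp only [conQC, List.mem_append]; tauto)) (by linarith)
    have u5 : (x 1 + x (4 + i)) ^ 2 < x (f + 9) :=
      Quant.up_lt h0 (f := f + 8)
        (fun q hq => hcon q (by simp only [conQC, List.mem_append]; tauto)) (by linarith)
    have u6 : (x 1 + x (4 + j)) ^ 2 < x (f + 11) :=
      Quant.up_lt h0 (f := f + 10)
        (fun q hq => hcon q (by simp only [conQC, List.mem_append]; tauto)) (by linarith)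
    have u7 : (x 2 + x (4 + l)) ^ 2 < x (f + 13) :=
      Quant.up_lt h0 (f := f + 12)
        (fun q hq => hcon q (by simp only [conQC, List.mem_append]; tauto)) (by linarith)
    have l1 : x (f + 15) < (x (4 + i) + x (4 + j)) ^ 2 :=
      Quant.lt_low h0 (f := f + 14)
        (fun q hq => hcon q (by simp only [conQC, List.mem_append]; tauto))
    have l2 : x (f + 17) < (x 1 + x 0) ^ 2 :=
      Quant.lt_low h0 (f := f + 16)
        (fun q hq => hcon q (by simp only [conQC, List.mem_append]; tauto))
    have l3 : x (f + 19) < (x 2 + x 1) ^ 2 :=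
      Quant.lt_low h0 (f := f + 18)
        (fun q hq => hcon q (by simp only [conQC, List.mem_append]; tauto))
    have l4 : x (f + 21) < (x (4 + l) + x 0) ^ 2 :=
      Quant.lt_low h0 (f := f + 20)
        (fun q hq => hcon q (by simp only [conQC, List.mem_append]; tauto))
    have l5 : x (f + 23) < (x 1 + x (4 + i)) ^ 2 :=
      Quant.lt_low h0 (f := f + 22)
        (fun q hq => hcon q (by simp only [conQC, List.mem_append]; tauto))
    have l6 : x (f + 25) < (x 1 + x (4 + j)) ^ 2 :=
      Quant.lt_low h0 (f := f + 24)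
        (fun q hq => hcon q (by simp only [conQC, List.mem_append]; tauto))
    have l7 : x (f + 27) < (x 2 + x (4 + l)) ^ 2 :=
      Quant.lt_low h0 (f := f + 26)
        (fun q hq => hcon q (by simp only [conQC, List.mem_append]; tauto))
    have h1 := hcon (.lin [f + 1, f + 3, f + 3, f + 3, f + 5, f + 7]
      [f + 23, f + 25, f + 27, 3, 0, 0]) (by simp [conQC, hf])
    have h2 := hcon (.lin [f + 9, f + 11, f + 13, 0, 0, 0, 0]
      [f + 15, f + 17, f + 17, f + 17, f + 19, f + 21, 3]) (by simp [conQC, hf])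
    simp only [QC.Holds, List.map_cons, List.map_nil, List.sum_cons, List.sum_nil, add_zero, h0]
      at h1 h2
    rw [h0] at u2 u4 l2 l4
    have h3 : Con.val (fun i => (x (4 + i) - x 1) / x 2) (.mul i j l)
        = ((x (4 + i) + x (4 + j)) ^ 2 + 3 * (x 1 + 0) ^ 2 + (x 2 + x 1) ^ 2 + (x (4 + l) + 0) ^ 2
          - (x 1 + x (4 + i)) ^ 2 - (x 1 + x (4 + j)) ^ 2 - (x 2 + x (4 + l)) ^ 2)
          / (2 * x 2 ^ 2) := by
      simp only [Con.val]
      field_simp
      ring
    rw [h3]
    have h4 : |(x (4 + i) + x (4 + j)) ^ 2 + 3 * (x 1 + 0) ^ 2 + (x 2 + x 1) ^ 2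
          + (x (4 + l) + 0) ^ 2
          - (x 1 + x (4 + i)) ^ 2 - (x 1 + x (4 + j)) ^ 2 - (x 2 + x (4 + l)) ^ 2|
          < x (4 + n + L + 1) ^ 2 := by
      rw [abs_lt]
      constructor <;> linarith
    have h5 : |((x (4 + i) + x (4 + j)) ^ 2 + 3 * (x 1 + 0) ^ 2 + (x 2 + x 1) ^ 2
          + (x (4 + l) + 0) ^ 2
          - (x 1 + x (4 + i)) ^ 2 - (x 1 + x (4 + j)) ^ 2 - (x 2 + x (4 + l)) ^ 2)
          / (2 * x 2 ^ 2)| < (x (4 + n + L + 1) / x 2) ^ 2 := by
      rw [abs_div, abs_of_pos (by positivity : 0 < 2 * x 2 ^ 2), div_pow,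
        div_lt_div_iff₀ (by positivity) (by positivity)]
      have : 0 < x 2 ^ 2 := by positivity
      nlinarith [sq_nonneg (x (4 + n + L + 1))]
    refine h5.trans (lt_of_lt_of_le ?_ (hε.le.trans hLL))
    have : x (4 + n + L + 1) / x 2 < 1 := hε.trans_le hle1
    nlinarith

theorem quantSys_complete (n L : ℕ) (S : List Con) (hS : ∀ c ∈ S, c.Below n) (z : ℕ → ℝ)
    (hz : Sol S z) (hb : ∀ i, |z i| ≤ 1) (δ : ℝ) (hδ : 0 < δ) :
    ∃ x : ℕ → ℝ, x 0 = 0 ∧ (∀ i, |x i| < δ) ∧ ∀ q ∈ quantSys n L S, q.Holds x := by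
  have hη : 0 < min δ 1 / 20 := by positivity
  have hη1 : min δ 1 / 20 ≤ 1 / 20 := by linarith [min_le_right δ 1]
  have hηδ : 20 * (min δ 1 / 20) ≤ δ := by linarith [min_le_left δ 1]
  generalize min δ 1 / 20 = η at hη hη1 hηδ
  obtain ⟨hG1, hG2⟩ := Quant.G_bound hη (L + 1)
  obtain ⟨T, hT⟩ : ∃ T, T = Quant.G η (L + 1) ^ 2 / 2 := ⟨_, rfl⟩
  obtain ⟨κ, hκ⟩ : ∃ κ, κ = T / 100 := ⟨_, rfl⟩
  have hT0 : 0 < T := by rw [hT]; positivity
  have hκ0 : 0 < κ := by rw [hκ]; positivity
  have hTη : T ≤ η := by
    rw [hT]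
    nlinarith
  have hTG : T < Quant.G η (L + 1) ^ 2 := by
    rw [hT]
    have : 0 < Quant.G η (L + 1) ^ 2 := by positivity
    linarith
  have v0 : Quant.val n L S κ (Quant.base n L η T z) 0 = 0 := by
    rw [Quant.val_base (by omega), Quant.base_0]
  have v1 : Quant.val n L S κ (Quant.base n L η T z) 1 = 5 * η / 2 := by
    rw [Quant.val_base (by omega), Quant.base_1]
  have v2 : Quant.val n L S κ (Quant.base n L η T z) 2 = η := by
    rw [Quant.val_base (by omega), Quant.base_2]
  have v3 : Quant.val n L S κ (Quant.base n L η T z) 3 = T := by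
    rw [Quant.val_base (by omega), Quant.base_3]
  have vg0 : Quant.val n L S κ (Quant.base n L η T z) (4 + n) = η / 3 := by
    rw [Quant.val_base (by omega)]
    exact Quant.base_g (n := n) (L := L) (T := T) (z := z) (t := 0) (by omega)
  have vgL : Quant.val n L S κ (Quant.base n L η T z) (4 + n + L + 1) = Quant.G η (L + 1) := by
    rw [Quant.val_base (by omega)]
    exact Quant.base_g (n := n) (L := L) (T := T) (z := z) (t := L + 1) (by omega)
  refine ⟨Quant.val n L S κ (Quant.base n L η T z), v0, fun i => ?_, ?_⟩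
  · refine lt_of_lt_of_le ?_ hηδ
    exact Quant.val_bound hη hη1 hκ0 (by rw [hκ]; linarith)
      (fun i => Quant.base_bound hη hT0.le hTη hb i) i
  · intro q hq
    simp only [quantSys, List.mem_append, List.mem_map, List.mem_flatMap, List.mem_range] at hq
    rcases hq with ((hq | ⟨i, hi, rfl⟩) | ⟨t, ht, hq⟩) | ⟨p, hp, hq⟩
    · simp only [List.mem_cons, List.not_mem_nil, or_false] at hq
      rcases hq with rfl | rfl | rfl | rfl | rfl | rfl | rfl
      · simp only [QC.Holds, List.map_cons, List.map_nil, List.sum_cons, List.sum_nil, add_zero]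
        rw [v0, v1]
        linarith
      · simp only [QC.Holds, List.map_cons, List.map_nil, List.sum_cons, List.sum_nil, add_zero]
        rw [v0, v2]
        linarith
      · simp only [QC.Holds, List.map_cons, List.map_nil, List.sum_cons, List.sum_nil, add_zero]
        rw [v0, v3]
        linarith
      · simp only [QC.Holds, List.map_cons, List.map_nil, List.sum_cons, List.sum_nil, add_zero]
        rw [v0, v1, v2]
        linarith
      · simp only [QC.Holds, List.map_cons, List.map_nil, List.sum_cons, List.sum_nil, add_zero]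
        rw [v0, vg0, v2]
        linarith
      · simp only [QC.Holds, List.map_cons, List.map_nil, List.sum_cons, List.sum_nil, add_zero]
        rw [v0, vgL]
        linarith
      · simp only [QC.Holds]
        rw [v3, vgL]
        exact ⟨hG1, hTG⟩
    · simp only [QC.Holds, List.map_cons, List.map_nil, List.sum_cons, List.sum_nil, add_zero]
      rw [v0, Quant.val_base (by omega), Quant.base_p hi]
      obtain ⟨b1, b2⟩ := abs_le.1 (hb i)
      nlinarith
    · exact Quant.chain_complete hη hη1 hT hκ (by omega) q hq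
    · have hp1 : p.1 ∈ S := List.fst_mem_of_mem_zipIdx hp
      obtain ⟨c, r⟩ := p
      have hr : S[r]? = some c := by
        rw [List.mk_mem_zipIdx_iff_getElem?] at hp
        exact hp
      have hbel := hS c hp1
      have hval := hz c hp1
      cases c with
      | one i =>
        simp only [Con.val] at hval
        exact Quant.one_complete hη hbel (by linarith) r q hq
      | add i j l =>
        exact Quant.add_complete hη hbel.1 hbel.2.1 hbel.2.2 hval r q hq
      | mul i j l =>
        exact Quant.mul_complete hη hη1 hT hκ hb hbel.1 hbel.2.1 hbel.2.2 hval hr q hq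

end Pool.Agent.Lib.MP_612bca_lc
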