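import Pool.Agent.Lib.MP_612bca_lc.AlgDefs

/-!
# Slope constraints for quantity constraints
-/

set_option autoImplicit false

namespace Pool.Agent.Lib.MP_612bca_lc

namespace Slope

open Finset

/-- `x` are the normalised increments of `V`. -/
def Rep (V : ℕ → ℝ) (s : ℝ) (x : ℕ → ℝ) : Prop := 0 < s ∧ ∀ i, V (i + 1) - V i = s * (1 + x i)

lemma Rep.diff {V : ℕ → ℝ} {s : ℝ} {x : ℕ → ℝ} (h : Rep V s x) (e m : ℕ) :
    V (e + m) - V e = s * (m + ∑ k ∈ range m, x (e + k)) := by
  induction m with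
  | zero => simp
  | succ m ih =>
    have h1 := h.2 (e + m)
    rw [Finset.sum_range_succ]
    push_cast
    have e1 : V (e + (m + 1)) - V e = (V (e + m + 1) - V (e + m)) + (V (e + m) - V e) := by
      rw [← add_assoc]; ring
    rw [e1, h1, ih]
    ring

lemma Rep.add_iff {V : ℕ → ℝ} {s : ℝ} {x : ℕ → ℝ} (h : Rep V s x) (e f m : ℕ) :
    (TC.add e f m).Holds V ↔ ∑ k ∈ range m, x (e + k) < ∑ k ∈ range m, x (f + k) := by
  show V (e + m) - V e < V (f + m) - V f ↔ _
  rw [h.diff, h.diff, mul_lt_mul_iff_right₀ h.1]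
  constructor <;> intro h <;> linarith

lemma Rep.add_one_iff {V : ℕ → ℝ} {s : ℝ} {x : ℕ → ℝ} (h : Rep V s x) (e f : ℕ) :
    (TC.add e f 1).Holds V ↔ x e < x f := by
  rw [h.add_iff]; simp

lemma Rep.mul_aux {V : ℕ → ℝ} {s : ℝ} {x : ℕ → ℝ} (h : Rep V s x) (g : ℕ) :
    (V (g + 1) - V g) * (V (g + 4) - V g) - (V (g + 2) - V g) ^ 2 =
      s ^ 2 * ((x g + x (g + 2) + x (g + 3) - 3 * x (g + 1)) * (1 + x g) -
        (x g - x (g + 1)) ^ 2) := by
  rw [h.diff, h.diff, h.diff]
  simp only [Finset.sum_range_succ, Finset.sum_range_zero, zero_add, add_zero]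
  push_cast
  ring

lemma Rep.mulL_iff {V : ℕ → ℝ} {s : ℝ} {x : ℕ → ℝ} (h : Rep V s x) (g : ℕ) :
    (TC.mulL g).Holds V ↔
      (x g + x (g + 2) + x (g + 3) - 3 * x (g + 1)) * (1 + x g) < (x g - x (g + 1)) ^ 2 := by
  have h1 := h.mul_aux g
  have h2 : 0 < s ^ 2 := pow_pos h.1 2
  unfold TC.Holds
  constructor
  · intro h3
    by_contra h4
    push Not at h4
    nlinarith [mul_nonneg h2.le (sub_nonneg.2 h4)]
  · intro h3
    have := mul_pos h2 (sub_pos.2 h3)
    nlinarith

lemma Rep.mulG_iff {V : ℕ → ℝ} {s : ℝ} {x : ℕ → ℝ} (h : Rep V s x) (g : ℕ) :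
    (TC.mulG g).Holds V ↔
      (x g - x (g + 1)) ^ 2 < (x g + x (g + 2) + x (g + 3) - 3 * x (g + 1)) * (1 + x g) := by
  have h1 := h.mul_aux g
  have h2 : 0 < s ^ 2 := pow_pos h.1 2
  unfold TC.Holds
  constructor
  · intro h3
    by_contra h4
    push Not at h4
    nlinarith [mul_nonneg h2.le (sub_nonneg.2 h4)]
  · intro h3
    have := mul_pos h2 (sub_pos.2 h3)
    nlinarith

lemma sum_map_eq (x : ℕ → ℝ) (I : List ℕ) :
    (I.map x).sum = ∑ k ∈ range I.length, x (I.getD k 0) := by
  induction I with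
  | nil => simp
  | cons a I ih =>
    rw [List.map_cons, List.sum_cons, ih, List.length_cons, Finset.sum_range_succ']
    simp [add_comm]

/-! ### membership in `linTC` -/

lemma mem_linTC {β : ℕ} {I J : List ℕ} {c : TC} :
    c ∈ linTC β I J ↔ (∃ k < I.length, c = TC.add (I.getD k 0) (β + k) 1) ∨
      (∃ k < J.length, c = TC.add (β + I.length + 1 + k) (J.getD k 0) 1) ∨
      c = TC.add β (β + I.length + 1) I.length := by
  unfold linTC
  simp only [List.mem_append, List.mem_map, Prod.exists, List.mem_singleton,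
    List.mk_mem_zipIdx_iff_getElem?, or_assoc]
  have key : ∀ (L : List ℕ) (F : ℕ → ℕ → TC),
      (∃ a b, L[b]? = some a ∧ F a b = c) ↔ ∃ k < L.length, c = F (L.getD k 0) k := by
    intro L F
    constructor
    · rintro ⟨a, b, h, rfl⟩
      obtain ⟨hb, h⟩ := List.getElem?_eq_some_iff.1 h
      exact ⟨b, hb, by rw [List.getD_eq_getElem _ _ hb, h]⟩
    · rintro ⟨k, hk, rfl⟩
      exact ⟨L[k], k, by simp [hk], by rw [List.getD_eq_getElem _ _ hk]⟩
  rw [key I (fun a b => TC.add a (β + b) 1), key J (fun a b => TC.add (β + I.length + 1 + b) a 1)]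

lemma linTC_wf {K β : ℕ} {I J : List ℕ} (hI : 1 ≤ I.length) (hIJ : I.length = J.length)
    (hn : ∀ i ∈ I, i + 1 < β) (hn' : ∀ j ∈ J, j + 1 < β)
    (hK : β + 2 * I.length + 1 ≤ K) : ∀ c ∈ linTC β I J, c.WF K := by
  intro c hc
  have hI' : ∀ k < I.length, I.getD k 0 + 1 < β := fun k hk => by
    rw [List.getD_eq_getElem _ _ hk]; exact hn _ (List.getElem_mem hk)
  have hJ' : ∀ k < J.length, J.getD k 0 + 1 < β := fun k hk => by
    rw [List.getD_eq_getElem _ _ hk]; exact hn' _ (List.getElem_mem hk)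
  rcases mem_linTC.1 hc with ⟨k, hk, rfl⟩ | ⟨k, hk, rfl⟩ | rfl
  · have := hI' k hk
    refine ⟨le_refl _, ?_, ?_, Or.inl ?_⟩ <;> omega
  · have := hJ' k hk
    refine ⟨le_refl _, ?_, ?_, Or.inr ?_⟩ <;> omega
  · refine ⟨hI, ?_, ?_, Or.inl ?_⟩ <;> omega

lemma linTC_sound {V : ℕ → ℝ} {s : ℝ} {x : ℕ → ℝ} (h : Rep V s x) {β : ℕ} {I J : List ℕ}
    (hIJ : I.length = J.length) (hc : ∀ c ∈ linTC β I J, c.Holds V) :
    (I.map x).sum < (J.map x).sum := by
  rw [sum_map_eq, sum_map_eq]
  have h1 : ∀ k < I.length, x (I.getD k 0) < x (β + k) := fun k hk =>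
    (h.add_one_iff _ _).1 (hc _ (mem_linTC.2 (Or.inl ⟨k, hk, rfl⟩)))
  have h2 : ∀ k < J.length, x (β + I.length + 1 + k) < x (J.getD k 0) := fun k hk =>
    (h.add_one_iff _ _).1 (hc _ (mem_linTC.2 (Or.inr (Or.inl ⟨k, hk, rfl⟩))))
  have h3 := (h.add_iff _ _ _).1 (hc _ (mem_linTC.2 (Or.inr (Or.inr rfl))))
  calc ∑ k ∈ range I.length, x (I.getD k 0) ≤ ∑ k ∈ range I.length, x (β + k) :=
        Finset.sum_le_sum fun k hk => (h1 k (Finset.mem_range.1 hk)).le
    _ < ∑ k ∈ range I.length, x (β + I.length + 1 + k) := h3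
    _ = ∑ k ∈ range J.length, x (β + I.length + 1 + k) := by rw [hIJ]
    _ ≤ _ := Finset.sum_le_sum fun k hk => (h2 k (Finset.mem_range.1 hk)).le

lemma linTC_complete {V : ℕ → ℝ} {s : ℝ} {x : ℕ → ℝ} (h : Rep V s x) {β : ℕ} {I J : List ℕ}
    (hIJ : I.length = J.length) {ε : ℝ} (hε : 0 < ε)
    (hs : (I.map x).sum + 2 * I.length * ε < (J.map x).sum)
    (h1 : ∀ k < I.length, x (β + k) = x (I.getD k 0) + ε)
    (h2 : ∀ k < J.length, x (β + I.length + 1 + k) = x (J.getD k 0) - ε) :
    ∀ c ∈ linTC β I J, c.Holds V := by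
  intro c hc
  rcases mem_linTC.1 hc with ⟨k, hk, rfl⟩ | ⟨k, hk, rfl⟩ | rfl
  · rw [h.add_one_iff, h1 k hk]; linarith
  · rw [h.add_one_iff, h2 k hk]; linarith
  · rw [h.add_iff]
    rw [Finset.sum_congr rfl fun k hk => h1 k (Finset.mem_range.1 hk)]
    have h2' : ∀ k ∈ range I.length, x (β + I.length + 1 + k) = x (J.getD k 0) - ε := fun k hk =>
      h2 k (hIJ ▸ Finset.mem_range.1 hk)
    rw [Finset.sum_congr rfl h2', Finset.sum_add_distrib, Finset.sum_sub_distrib]
    simp only [Finset.sum_const, Finset.card_range, nsmul_eq_mul]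
    rw [sum_map_eq, sum_map_eq, ← hIJ] at hs
    linarith

/-! ### the explicit blocks -/

/-- Values on a block of fresh indices used for a comparison of two sums. -/
noncomputable def linBlk (vI vJ : List ℝ) (ε : ℝ) (k : ℕ) : ℝ :=
  if k < vI.length then vI.getD k 0 + ε
  else if k < vI.length + 1 then 0
  else if k < vI.length + 1 + vJ.length then vJ.getD (k - (vI.length + 1)) 0 - ε else 0

/-- The auxiliary small number for `sqL`. -/
noncomputable def epsL (W B : ℝ) : ℝ := min (B / 4) ((B ^ 2 - W) / 10)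

/-- The auxiliary number `θ` for `sqL`. -/
noncomputable def thL (W B : ℝ) : ℝ := (W + (B - 2 * epsL W B) ^ 2 / (1 + epsL W B)) / 2

/-- The auxiliary small number for `sqG`. -/
noncomputable def epsG (W B : ℝ) : ℝ := (W - B ^ 2) / 10

/-- The auxiliary number `θ` for `sqG`. -/
noncomputable def thG (W B : ℝ) : ℝ := (W + (B + 2 * epsG W B) ^ 2 / (1 - epsG W B)) / 2

/-- Value number `k` in the block of fresh indices for the constraint `q`. -/
noncomputable def blk (x : ℕ → ℝ) : QC → ℕ → ℝ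
  | .lin I J, k => linBlk (I.map x) (J.map x) (((J.map x).sum - (I.map x).sum) / 16) k
  | .sqL w b, k =>
    let W := x w
    let B := x b
    let a := epsL W B
    let b' := B - epsL W B
    let c := (thL W B + 3 * b' - a) / 2
    if k = 0 then a else if k = 1 then b' else if k = 2 then c else if k = 3 then c
    else if k = 6 then B / 2 else if k < 8 then 0
    else linBlk [W, b', b', b'] [a, c, c, 0] ((thL W B - W) / 16) (k - 8)
  | .sqG w b, k =>
    let W := x w
    let B := x b
    let a := - epsG W B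
    let b' := B + epsG W B
    let c := (thG W B + 3 * b' - a) / 2
    if k = 0 then a else if k = 1 then b' else if k = 2 then c else if k = 3 then c
    else if k = 6 then B / 2 else if k < 8 then 0
    else linBlk [a, c, c, 0] [W, b', b', b'] ((W - thG W B) / 16) (k - 8)

/-- The extension of the quantities to the fresh indices. -/
noncomputable def ext (n : ℕ) (Q : List QC) (x : ℕ → ℝ) (i : ℕ) : ℝ :=
  if i < n then x i else if i < n + 2 then 0
  else blk x (Q.getD ((i - (n + 2)) / 20) (QC.sqL 0 0)) ((i - (n + 2)) % 20)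

lemma ext_old {n : ℕ} {Q : List QC} {x : ℕ → ℝ} {i : ℕ} (hi : i < n) : ext n Q x i = x i := by
  simp [ext, hi]

lemma ext_blk {n : ℕ} {Q : List QC} {x : ℕ → ℝ} {r k : ℕ} {q : QC} (hq : Q[r]? = some q)
    (hk : k < 20) : ext n Q x (n + 2 + 20 * r + k) = blk x q k := by
  have h1 : ¬ (n + 2 + 20 * r + k < n) := by omega
  have h2 : ¬ (n + 2 + 20 * r + k < n + 2) := by omega
  have h3 : (n + 2 + 20 * r + k - (n + 2)) / 20 = r := by omega
  have h4 : (n + 2 + 20 * r + k - (n + 2)) % 20 = k := by omega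
  rw [ext, if_neg h1, if_neg h2, h3, h4, List.getD_eq_getElem?_getD, hq]
  rfl

lemma linBlk_I {vI vJ : List ℝ} {ε : ℝ} {k : ℕ} (hk : k < vI.length) :
    linBlk vI vJ ε k = vI.getD k 0 + ε := by
  simp [linBlk, hk]

lemma linBlk_J {vI vJ : List ℝ} {ε : ℝ} {k : ℕ} (hk : k < vJ.length) :
    linBlk vI vJ ε (vI.length + 1 + k) = vJ.getD k 0 - ε := by
  have h1 : ¬ (vI.length + 1 + k < vI.length) := by omega
  have h2 : ¬ (vI.length + 1 + k < vI.length + 1) := by omega
  have h3 : vI.length + 1 + k < vI.length + 1 + vJ.length := by omega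
  rw [linBlk, if_neg h1, if_neg h2, if_pos h3, Nat.add_sub_cancel_left]

lemma linBlk_bound {vI vJ : List ℝ} {ε M M' : ℝ} (hM : 0 ≤ M) (hM' : 0 ≤ M')
    (hI : ∀ v ∈ vI, |v| ≤ M) (hJ : ∀ v ∈ vJ, |v| ≤ M) (hε : |ε| ≤ M') (k : ℕ) :
    |linBlk vI vJ ε k| ≤ M + M' := by
  unfold linBlk
  have h0 : |(0 : ℝ)| ≤ M + M' := by rw [abs_zero]; linarith
  split_ifs with h1 h2 h3
  · rw [List.getD_eq_getElem _ _ h1]
    exact (abs_add_le _ _).trans (add_le_add (hI _ (List.getElem_mem h1)) hε)
  · exact h0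
  · have h4 : k - (vI.length + 1) < vJ.length := by omega
    rw [List.getD_eq_getElem _ _ h4]
    exact (abs_sub _ _).trans (add_le_add (hJ _ (List.getElem_mem h4)) hε)
  · exact h0

lemma epsL_spec {W B : ℝ} (hB : 0 < B) (h : W < B ^ 2) (hB1 : B ≤ 1) (hW1 : |W| ≤ 1) :
    0 < epsL W B ∧ epsL W B ≤ B / 4 ∧ W < (B - 2 * epsL W B) ^ 2 / (1 + epsL W B) := by
  have h1 : 0 < epsL W B := lt_min (by linarith) (by linarith)
  have h2 : epsL W B ≤ B / 4 := min_le_left _ _
  have h3 : epsL W B ≤ (B ^ 2 - W) / 10 := min_le_right _ _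
  refine ⟨h1, h2, ?_⟩
  rw [lt_div_iff₀ (by linarith)]
  have h4 := abs_le.1 hW1
  nlinarith [mul_nonneg h1.le (sub_nonneg.2 hB1), mul_nonneg h1.le (sub_nonneg.2 h4.2)]

lemma epsG_spec {W B : ℝ} (hB : 0 < B) (h : B ^ 2 < W) (hB1 : B ≤ 1) (hW1 : |W| ≤ 1) :
    0 < epsG W B ∧ epsG W B ≤ W / 10 ∧ (B + 2 * epsG W B) ^ 2 / (1 - epsG W B) < W := by
  have h4 := abs_le.1 hW1
  have h1 : 0 < epsG W B := by unfold epsG; linarith
  have h3 : epsG W B = (W - B ^ 2) / 10 := rfl
  have h2 : epsG W B ≤ W / 10 := by rw [h3]; nlinarith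
  refine ⟨h1, h2, ?_⟩
  rw [div_lt_iff₀ (by linarith)]
  nlinarith [mul_nonneg h1.le (sub_nonneg.2 hB1), mul_nonneg h1.le (sub_nonneg.2 h4.2),
    mul_nonneg h1.le h1.le]

lemma thL_spec {W B : ℝ} (hB : 0 < B) (h : W < B ^ 2) (hB1 : B ≤ 1) (hW1 : |W| ≤ 1) :
    W < thL W B ∧ thL W B * (1 + epsL W B) < (B - 2 * epsL W B) ^ 2 ∧ thL W B ≤ B ^ 2 := by
  obtain ⟨h1, h2, h3⟩ := epsL_spec hB h hB1 hW1
  have h4 : (0 : ℝ) < 1 + epsL W B := by linarith
  have h5 : thL W B < (B - 2 * epsL W B) ^ 2 / (1 + epsL W B) := by unfold thL; linarith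
  have h6 : (B - 2 * epsL W B) ^ 2 / (1 + epsL W B) ≤ B ^ 2 := by
    rw [div_le_iff₀ h4]
    nlinarith [mul_nonneg h1.le hB.le, sq_nonneg B, mul_nonneg h1.le (sq_nonneg B)]
  exact ⟨by unfold thL; linarith, (lt_div_iff₀ h4).1 h5, by linarith⟩

lemma thG_spec {W B : ℝ} (hB : 0 < B) (h : B ^ 2 < W) (hB1 : B ≤ 1) (hW1 : |W| ≤ 1) :
    thG W B < W ∧ (B + 2 * epsG W B) ^ 2 < thG W B * (1 - epsG W B) ∧ 0 < thG W B := by
  obtain ⟨h1, h2, h3⟩ := epsG_spec hB h hB1 hW1
  have h7 := abs_le.1 hW1
  have h4 : (0 : ℝ) < 1 - epsG W B := by linarith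
  have h5 : (B + 2 * epsG W B) ^ 2 / (1 - epsG W B) < thG W B := by unfold thG; linarith
  have h6 : 0 < (B + 2 * epsG W B) ^ 2 / (1 - epsG W B) := by positivity
  exact ⟨by unfold thG; linarith, (div_lt_iff₀ h4).1 h5, by linarith⟩

lemma abs_sum_map_le {x : ℕ → ℝ} {δ : ℝ} (hx : ∀ i, |x i| ≤ δ) (I : List ℕ) :
    |(I.map x).sum| ≤ I.length * δ := by
  induction I with
  | nil => simp
  | cons a I ih =>
    rw [List.map_cons, List.sum_cons, List.length_cons]
    push_cast
    calc |x a + (I.map x).sum| ≤ |x a| + |(I.map x).sum| := abs_add_le _ _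
      _ ≤ δ + I.length * δ := add_le_add (hx a) ih
      _ = _ := by ring

lemma blk_bound {n : ℕ} {x : ℕ → ℝ} {δ : ℝ} (hδ : 0 < δ) (hδ1 : δ ≤ 1) (hx : ∀ i, |x i| ≤ δ)
    {q : QC} (hq : q.WF n) (hh : q.Holds x) (k : ℕ) : |blk x q k| ≤ 10 * δ := by
  have hsq : ∀ B : ℝ, 0 < B → B ≤ δ → B ^ 2 ≤ δ := fun B h0 h1 => by nlinarith
  cases q with
  | lin I J =>
    obtain ⟨h1, h2, h3, -, -⟩ := hq
    have hI := abs_sum_map_le hx I
    have hJ := abs_sum_map_le hx J
    have h3' : (I.length : ℝ) ≤ 7 := by exact_mod_cast h3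
    have h4' : (J.length : ℝ) ≤ 7 := by exact_mod_cast (h1 ▸ h3)
    have hI7 : |(I.map x).sum| ≤ 7 * δ := hI.trans (by nlinarith)
    have hJ7 : |(J.map x).sum| ≤ 7 * δ := hJ.trans (by nlinarith)
    have hε : |((J.map x).sum - (I.map x).sum) / 16| ≤ δ := by
      rw [abs_le] at hI7 hJ7 ⊢
      constructor <;> linarith [hI7.1, hI7.2, hJ7.1, hJ7.2]
    have := linBlk_bound (vI := I.map x) (vJ := J.map x) hδ.le hδ.le
      (fun v hv => by obtain ⟨i, -, rfl⟩ := List.mem_map.1 hv; exact hx i)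
      (fun v hv => by obtain ⟨i, -, rfl⟩ := List.mem_map.1 hv; exact hx i) hε k
    unfold blk
    linarith
  | sqL w b =>
    obtain ⟨hB, hW⟩ := hh
    have hB1 : x b ≤ δ := (abs_le.1 (hx b)).2
    have hW1 := abs_le.1 (hx w)
    obtain ⟨e1, e2, e3⟩ := epsL_spec hB hW (by linarith) ((hx w).trans hδ1)
    obtain ⟨t1, t2, t3⟩ := thL_spec hB hW (by linarith) ((hx w).trans hδ1)
    have t4 := hsq _ hB hB1
    simp only [blk]
    split_ifs with h0 h1 h2 h3 h4 h5
    · rw [abs_le]; constructor <;> linarith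
    · rw [abs_le]; constructor <;> linarith
    · rw [abs_le]; constructor <;> linarith
    · rw [abs_le]; constructor <;> linarith
    · rw [abs_le]; constructor <;> linarith
    · rw [abs_zero]; linarith
    · refine (linBlk_bound (M := 5 * δ) (M' := 5 * δ) (by linarith) (by linarith) ?_ ?_ ?_ _).trans
        (by linarith)
      · simp only [List.mem_cons, List.not_mem_nil, or_false]
        rintro v (rfl | rfl | rfl | rfl) <;> (rw [abs_le]; constructor <;> linarith)
      · simp only [List.mem_cons, List.not_mem_nil, or_false]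
        rintro v (rfl | rfl | rfl | rfl) <;> (rw [abs_le]; constructor <;> linarith)
      · rw [abs_le]; constructor <;> linarith
  | sqG w b =>
    obtain ⟨hB, hW⟩ := hh
    have hB1 : x b ≤ δ := (abs_le.1 (hx b)).2
    have hW1 := abs_le.1 (hx w)
    obtain ⟨e1, e2, e3⟩ := epsG_spec hB hW (by linarith) ((hx w).trans hδ1)
    obtain ⟨t1, t2, t3⟩ := thG_spec hB hW (by linarith) ((hx w).trans hδ1)
    simp only [blk]
    split_ifs with h0 h1 h2 h3 h4 h5
    · rw [abs_le]; constructor <;> linarith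
    · rw [abs_le]; constructor <;> linarith
    · rw [abs_le]; constructor <;> linarith
    · rw [abs_le]; constructor <;> linarith
    · rw [abs_le]; constructor <;> linarith
    · rw [abs_zero]; linarith
    · refine (linBlk_bound (M := 5 * δ) (M' := 5 * δ) (by linarith) (by linarith) ?_ ?_ ?_ _).trans
        (by linarith)
      · simp only [List.mem_cons, List.not_mem_nil, or_false]
        rintro v (rfl | rfl | rfl | rfl) <;> (rw [abs_le]; constructor <;> linarith)
      · simp only [List.mem_cons, List.not_mem_nil, or_false]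
        rintro v (rfl | rfl | rfl | rfl) <;> (rw [abs_le]; constructor <;> linarith)
      · rw [abs_le]; constructor <;> linarith

lemma qcTC_complete {V : ℕ → ℝ} {n : ℕ} {Q : List QC} {x : ℕ → ℝ} (hn : 1 ≤ n) (hx0 : x 0 = 0)
    (hx1 : ∀ i, |x i| ≤ 1)
    (h : Rep V 1 (ext n Q x)) {r : ℕ} {q : QC} (hq : Q[r]? = some q) (hw : q.WF n)
    (hh : q.Holds x) : ∀ c ∈ qcTC (n + 2 + 20 * r) q, c.Holds V := by
  have hE0 : ext n Q x 0 = 0 := by rw [ext_old (by omega), hx0]
  cases q with
  | lin I J =>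
    obtain ⟨h1, h2, h3, h4, h5⟩ := hw
    have hh' : (I.map x).sum < (J.map x).sum := hh
    have eI : I.map (ext n Q x) = I.map x := List.map_congr_left fun i hi => ext_old (h4 i hi)
    have eJ : J.map (ext n Q x) = J.map x := List.map_congr_left fun i hi => ext_old (h5 i hi)
    have h3' : (I.length : ℝ) ≤ 7 := by exact_mod_cast h3
    refine linTC_complete h h1 (ε := ((J.map x).sum - (I.map x).sum) / 16) (by linarith) ?_ ?_ ?_
    · rw [eI, eJ]; nlinarith
    · intro k hk
      rw [ext_blk hq (by omega)]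
      simp only [blk]
      rw [linBlk_I (by simpa using hk), ← eI]
      congr 1
      rw [List.getD_eq_getElem _ _ (by simpa using hk), List.getElem_map,
        List.getD_eq_getElem _ _ hk]
    · intro k hk
      have e1 : n + 2 + 20 * r + I.length + 1 + k = n + 2 + 20 * r + (I.length + 1 + k) := by ring
      rw [e1, ext_blk hq (by omega)]
      simp only [blk]
      have e2 : I.length = (I.map x).length := by simp
      rw [e2, linBlk_J (by simpa using hk), ← eJ]
      congr 1
      rw [List.getD_eq_getElem _ _ (by simpa using hk), List.getElem_map,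
        List.getD_eq_getElem _ _ hk]
  | sqL w b =>
    obtain ⟨hB, hW⟩ := hh
    obtain ⟨hwn, hbn⟩ := hw
    have hB1 : x b ≤ 1 := (abs_le.1 (hx1 b)).2
    obtain ⟨e1, e2, e3⟩ := epsL_spec hB hW hB1 (hx1 w)
    obtain ⟨t1, t2, t3⟩ := thL_spec hB hW hB1 (hx1 w)
    have hb0 : ext n Q x (n + 2 + 20 * r) = epsL (x w) (x b) := by
      have := ext_blk (n := n) (x := x) hq (k := 0) (by omega)
      rw [add_zero] at this
      rw [this]; simp [blk]
    have hb1 : ext n Q x (n + 2 + 20 * r + 1) = x b - epsL (x w) (x b) := by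
      rw [ext_blk (x := x) hq (k := 1) (by omega)]; simp [blk]
    have hb2 : ext n Q x (n + 2 + 20 * r + 2) =
        (thL (x w) (x b) + 3 * (x b - epsL (x w) (x b)) - epsL (x w) (x b)) / 2 := by
      rw [ext_blk (x := x) hq (k := 2) (by omega)]; simp [blk]
    have hb3 : ext n Q x (n + 2 + 20 * r + 3) =
        (thL (x w) (x b) + 3 * (x b - epsL (x w) (x b)) - epsL (x w) (x b)) / 2 := by
      rw [ext_blk (x := x) hq (k := 3) (by omega)]; simp [blk]
    have hb6 : ext n Q x (n + 2 + 20 * r + 6) = x b / 2 := by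
      rw [ext_blk (x := x) hq (k := 6) (by omega)]; simp [blk]
    intro c hc
    unfold qcTC at hc
    rcases List.mem_append.1 hc with hc | hc
    · simp only [List.mem_cons, List.not_mem_nil, or_false] at hc
      rcases hc with rfl | rfl | rfl | rfl | rfl
      · rw [h.add_one_iff, hE0, hb0]; exact e1
      · rw [h.add_one_iff, hb0, hb6]; linarith
      · rw [h.add_one_iff, hb6, hb1]; linarith
      · rw [h.add_one_iff, hb1, ext_old hbn]; linarith
      · rw [h.mulL_iff, hb0, hb1, hb2, hb3]; nlinarith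
    · refine linTC_complete h (by rfl) (ε := (thL (x w) (x b) - x w) / 16) (by linarith) ?_ ?_ ?_ c hc
      · simp only [List.map_cons, List.map_nil, List.sum_cons, List.sum_nil, List.length_cons,
          List.length_nil]
        rw [hb0, hb1, hb2, hb3, hE0, ext_old hwn]
        push_cast
        linarith
      · intro k hk
        simp only [List.length_cons, List.length_nil] at hk
        rw [add_assoc, ext_blk hq (by omega)]
        simp only [blk]
        rw [if_neg (by omega), if_neg (by omega), if_neg (by omega), if_neg (by omega),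
          if_neg (by omega), if_neg (by omega), Nat.add_sub_cancel_left, linBlk_I (by simpa using hk)]
        congr 1
        interval_cases k <;> simp [hb1, ext_old hwn]
      · intro k hk
        simp only [List.length_cons, List.length_nil] at hk
        have e5 : n + 2 + 20 * r + 8 + (0 + 1 + 1 + 1 + 1) + 1 + k = n + 2 + 20 * r + (8 + (4 + 1 + k)) := by
          ring
        simp only [List.length_cons, List.length_nil]
        rw [e5, ext_blk hq (by omega)]
        simp only [blk]
        rw [if_neg (by omega), if_neg (by omega), if_neg (by omega), if_neg (by omega),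
          if_neg (by omega), if_neg (by omega), Nat.add_sub_cancel_left]
        have := linBlk_J (vI := [x w, x b - epsL (x w) (x b), x b - epsL (x w) (x b),
          x b - epsL (x w) (x b)]) (vJ := [epsL (x w) (x b),
          (thL (x w) (x b) + 3 * (x b - epsL (x w) (x b)) - epsL (x w) (x b)) / 2,
          (thL (x w) (x b) + 3 * (x b - epsL (x w) (x b)) - epsL (x w) (x b)) / 2, 0])
          (ε := (thL (x w) (x b) - x w) / 16) (k := k) (by simpa using hk)
        simp only [List.length_cons, List.length_nil, zero_add] at this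
        rw [this]
        congr 1
        interval_cases k <;> simp [hb0, hb2, hb3, hE0]
  | sqG w b =>
    obtain ⟨hB, hW⟩ := hh
    obtain ⟨hwn, hbn⟩ := hw
    have hB1 : x b ≤ 1 := (abs_le.1 (hx1 b)).2
    obtain ⟨e1, e2, e3⟩ := epsG_spec hB hW hB1 (hx1 w)
    obtain ⟨t1, t2, t3⟩ := thG_spec hB hW hB1 (hx1 w)
    have hb0 : ext n Q x (n + 2 + 20 * r) = - epsG (x w) (x b) := by
      have := ext_blk (n := n) (x := x) hq (k := 0) (by omega)
      rw [add_zero] at this
      rw [this]; simp [blk]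
    have hb1 : ext n Q x (n + 2 + 20 * r + 1) = x b + epsG (x w) (x b) := by
      rw [ext_blk (x := x) hq (k := 1) (by omega)]; simp [blk]
    have hb2 : ext n Q x (n + 2 + 20 * r + 2) =
        (thG (x w) (x b) + 3 * (x b + epsG (x w) (x b)) - - epsG (x w) (x b)) / 2 := by
      rw [ext_blk (x := x) hq (k := 2) (by omega)]; simp [blk]
    have hb3 : ext n Q x (n + 2 + 20 * r + 3) =
        (thG (x w) (x b) + 3 * (x b + epsG (x w) (x b)) - - epsG (x w) (x b)) / 2 := by
      rw [ext_blk (x := x) hq (k := 3) (by omega)]; simp [blk]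
    have hb6 : ext n Q x (n + 2 + 20 * r + 6) = x b / 2 := by
      rw [ext_blk (x := x) hq (k := 6) (by omega)]; simp [blk]
    intro c hc
    unfold qcTC at hc
    rcases List.mem_append.1 hc with hc | hc
    · simp only [List.mem_cons, List.not_mem_nil, or_false] at hc
      rcases hc with rfl | rfl | rfl | rfl | rfl
      · rw [h.add_one_iff, hE0, hb0]; linarith
      · rw [h.add_one_iff, hE0, hb6]; linarith
      · rw [h.add_one_iff, hb6, ext_old hbn]; linarith
      · rw [h.add_one_iff, hb1, ext_old hbn]; linarith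
      · rw [h.mulG_iff, hb0, hb1, hb2, hb3]; nlinarith
    · refine linTC_complete h (by rfl) (ε := (x w - thG (x w) (x b)) / 16) (by linarith) ?_ ?_ ?_ c hc
      · simp only [List.map_cons, List.map_nil, List.sum_cons, List.sum_nil, List.length_cons,
          List.length_nil]
        rw [hb0, hb1, hb2, hb3, hE0, ext_old hwn]
        push_cast
        linarith
      · intro k hk
        simp only [List.length_cons, List.length_nil] at hk
        rw [add_assoc, ext_blk hq (by omega)]
        simp only [blk]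
        rw [if_neg (by omega), if_neg (by omega), if_neg (by omega), if_neg (by omega),
          if_neg (by omega), if_neg (by omega), Nat.add_sub_cancel_left, linBlk_I (by simpa using hk)]
        congr 1
        interval_cases k <;> simp [hb0, hb2, hb3, hE0]
      · intro k hk
        simp only [List.length_cons, List.length_nil] at hk
        have e5 : n + 2 + 20 * r + 8 + (0 + 1 + 1 + 1 + 1) + 1 + k = n + 2 + 20 * r + (8 + (4 + 1 + k)) := by
          ring
        simp only [List.length_cons, List.length_nil]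
        rw [e5, ext_blk hq (by omega)]
        simp only [blk]
        rw [if_neg (by omega), if_neg (by omega), if_neg (by omega), if_neg (by omega),
          if_neg (by omega), if_neg (by omega), Nat.add_sub_cancel_left]
        have := linBlk_J (vI := [- epsG (x w) (x b),
          (thG (x w) (x b) + 3 * (x b + epsG (x w) (x b)) - - epsG (x w) (x b)) / 2,
          (thG (x w) (x b) + 3 * (x b + epsG (x w) (x b)) - - epsG (x w) (x b)) / 2, 0])
          (vJ := [x w, x b + epsG (x w) (x b), x b + epsG (x w) (x b),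
          x b + epsG (x w) (x b)])
          (ε := (x w - thG (x w) (x b)) / 16) (k := k) (by simpa using hk)
        simp only [List.length_cons, List.length_nil, zero_add] at this
        rw [this]
        congr 1
        interval_cases k <;> simp [hb1, ext_old hwn]

end Slope

open Slope in
theorem slopeSys_wf (n : ℕ) (Q : List QC) (hn : 1 ≤ n) (hQ : ∀ q ∈ Q, q.WF n) :
    ∀ c ∈ slopeSys n Q, c.WF (slopeNum n Q) := by
  intro c hc
  obtain ⟨⟨q, r⟩, hp, hc⟩ := List.mem_flatMap.1 hc
  rw [List.mk_mem_zipIdx_iff_getElem?] at hp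
  obtain ⟨hr, hqr⟩ := List.getElem?_eq_some_iff.1 hp
  have hw : q.WF n := hQ q (hqr ▸ List.getElem_mem hr)
  have hK : n + 2 + 20 * r + 20 ≤ slopeNum n Q := by unfold slopeNum; omega
  simp only at hc
  cases q with
  | lin I J =>
    obtain ⟨h1, h2, h3, h4, h5⟩ := hw
    refine linTC_wf h2 h1 (fun i hi => ?_) (fun i hi => ?_) (by omega) c hc
    · have := h4 i hi; omega
    · have := h5 i hi; omega
  | sqL w b =>
    obtain ⟨hwn, hbn⟩ := hw
    unfold qcTC at hc
    rcases List.mem_append.1 hc with hc | hc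
    · simp only [List.mem_cons, List.not_mem_nil, or_false] at hc
      rcases hc with rfl | rfl | rfl | rfl | rfl <;> simp only [TC.WF] <;> omega
    · refine linTC_wf (by simp) (by simp) ?_ ?_ ?_ c hc
      · simp only [List.mem_cons, List.not_mem_nil, or_false]
        rintro i (rfl | rfl | rfl | rfl) <;> omega
      · simp only [List.mem_cons, List.not_mem_nil, or_false]
        rintro i (rfl | rfl | rfl | rfl) <;> omega
      · simp only [List.length_cons, List.length_nil]; omega
  | sqG w b =>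
    obtain ⟨hwn, hbn⟩ := hw
    unfold qcTC at hc
    rcases List.mem_append.1 hc with hc | hc
    · simp only [List.mem_cons, List.not_mem_nil, or_false] at hc
      rcases hc with rfl | rfl | rfl | rfl | rfl <;> simp only [TC.WF] <;> omega
    · refine linTC_wf (by simp) (by simp) ?_ ?_ ?_ c hc
      · simp only [List.mem_cons, List.not_mem_nil, or_false]
        rintro i (rfl | rfl | rfl | rfl) <;> omega
      · simp only [List.mem_cons, List.not_mem_nil, or_false]
        rintro i (rfl | rfl | rfl | rfl) <;> omega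
      · simp only [List.length_cons, List.length_nil]; omega

open Slope in
theorem slopeSys_sound (n : ℕ) (Q : List QC) (hn : 1 ≤ n) (hQ : ∀ q ∈ Q, q.WF n)
    (h : Realizable (slopeNum n Q) (slopeSys n Q)) :
    ∃ x : ℕ → ℝ, x 0 = 0 ∧ ∀ q ∈ Q, q.Holds x := by
  obtain ⟨V, hV, hc⟩ := h
  have hs : 0 < V 1 - V 0 := by
    have := hV 0 (by unfold slopeNum; omega)
    simpa using this
  set s := V 1 - V 0 with hsdef
  set x : ℕ → ℝ := fun i => (V (i + 1) - V i) / s - 1 with hx
  have hR : Rep V s x := ⟨hs, fun i => by rw [hx]; field_simp; ring⟩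
  have hx0 : x 0 = 0 := by rw [hx]; simp [← hsdef, hs.ne']
  refine ⟨x, hx0, fun q hq => ?_⟩
  obtain ⟨r, hr, hqr⟩ := List.getElem_of_mem hq
  have hw : q.WF n := hQ q hq
  have hc' : ∀ c ∈ qcTC (n + 2 + 20 * r) q, c.Holds V := fun c hcq =>
    hc c (List.mem_flatMap.2 ⟨(q, r), by
      rw [List.mk_mem_zipIdx_iff_getElem?]; simp [hr, hqr], hcq⟩)
  set β := n + 2 + 20 * r with hβ
  have hK : β + 20 ≤ slopeNum n Q := by unfold slopeNum; omega
  have hpos : ∀ i < slopeNum n Q, 0 < 1 + x i := fun i hi => by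
    have h1 := hR.2 i
    have h2 := hV i hi
    have h3 : 0 < s * (1 + x i) := by rw [← h1]; linarith
    exact (mul_pos_iff_of_pos_left hs).1 h3
  cases q with
  | lin I J => exact linTC_sound hR hw.1 hc'
  | sqL w b =>
    have h1 := (hR.add_one_iff _ _).1 (hc' (.add 0 β 1) (by simp [qcTC]))
    have h2 := (hR.add_one_iff _ _).1 (hc' (.add β (β + 6) 1) (by simp [qcTC]))
    have h3 := (hR.add_one_iff _ _).1 (hc' (.add (β + 6) (β + 1) 1) (by simp [qcTC]))
    have h4 := (hR.add_one_iff _ _).1 (hc' (.add (β + 1) b 1) (by simp [qcTC]))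
    have h5 := (hR.mulL_iff _).1 (hc' (.mulL β) (by simp [qcTC]))
    have h6 := linTC_sound hR (β := β + 8) (I := [w, β + 1, β + 1, β + 1])
      (J := [β, β + 2, β + 3, 0]) rfl
      (fun c hcc => hc' c (List.mem_append_right _ hcc))
    simp only [List.map_cons, List.map_nil, List.sum_cons, List.sum_nil] at h6
    rw [hx0] at h1 h6
    refine ⟨by linarith, ?_⟩
    by_cases hθ : 0 ≤ x β + x (β + 2) + x (β + 3) - 3 * x (β + 1)
    · nlinarith
    · push Not at hθ
      nlinarith [sq_nonneg (x b)]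
  | sqG w b =>
    have h1 := (hR.add_one_iff _ _).1 (hc' (.add β 0 1) (by simp [qcTC]))
    have h2 := (hR.add_one_iff _ _).1 (hc' (.add 0 (β + 6) 1) (by simp [qcTC]))
    have h3 := (hR.add_one_iff _ _).1 (hc' (.add (β + 6) b 1) (by simp [qcTC]))
    have h4 := (hR.add_one_iff _ _).1 (hc' (.add b (β + 1) 1) (by simp [qcTC]))
    have h5 := (hR.mulG_iff _).1 (hc' (.mulG β) (by simp [qcTC]))
    have h6 := linTC_sound hR (β := β + 8) (I := [β, β + 2, β + 3, 0])
      (J := [w, β + 1, β + 1, β + 1]) rfl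
      (fun c hcc => hc' c (List.mem_append_right _ hcc))
    simp only [List.map_cons, List.map_nil, List.sum_cons, List.sum_nil] at h6
    rw [hx0] at h1 h2 h6
    have h7 := hpos β (by omega)
    refine ⟨by linarith, ?_⟩
    have h8 : x b ^ 2 < (x β - x (β + 1)) ^ 2 := by nlinarith
    have h9 : 0 < x β + x (β + 2) + x (β + 3) - 3 * x (β + 1) := by
      by_contra h10
      push Not at h10
      nlinarith [sq_nonneg (x b)]
    nlinarith

open Slope in
theorem slopeSys_complete (n : ℕ) (Q : List QC) (hn : 1 ≤ n) (hQ : ∀ q ∈ Q, q.WF n)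
    (h : ∀ δ > 0, ∃ x : ℕ → ℝ, x 0 = 0 ∧ (∀ i, |x i| < δ) ∧ ∀ q ∈ Q, q.Holds x) :
    NearRealizable (slopeNum n Q) (slopeSys n Q) := by
  intro δ hδ
  set K := slopeNum n Q with hK
  obtain ⟨x, hx0, hxs, hxQ⟩ := h (min 1 (δ / (10 * (K + 1)))) (by positivity)
  set δ' := min 1 (δ / (10 * ((K : ℝ) + 1))) with hδ'
  have hδ'0 : 0 < δ' := by positivity
  have hδ'1 : δ' ≤ 1 := min_le_left _ _
  have hδ'2 : 10 * δ' * K < δ := by
    have h1 : δ' ≤ δ / (10 * ((K : ℝ) + 1)) := min_le_right _ _
    rw [le_div_iff₀ (by positivity)] at h1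
    nlinarith
  have hE : ∀ i, i < K → |ext n Q x i| ≤ 10 * δ' := by
    intro i hi
    unfold ext
    split_ifs with h1 h2
    · have := (hxs i).le; linarith
    · rw [abs_zero]; linarith
    · have h3 : (i - (n + 2)) / 20 < Q.length := by
        have : K = n + 2 + 20 * Q.length := hK
        omega
      rw [List.getD_eq_getElem _ _ h3]
      exact blk_bound hδ'0 hδ'1 (fun j => (hxs j).le) (hQ _ (List.getElem_mem h3))
        (hxQ _ (List.getElem_mem h3)) _
  set V : ℕ → ℝ := fun i => i + ∑ j ∈ Finset.range i, ext n Q x j with hV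
  have hR : Rep V 1 (ext n Q x) := by
    refine ⟨one_pos, fun i => ?_⟩
    simp only [hV]
    rw [Finset.sum_range_succ]
    push_cast
    ring
  refine ⟨V, fun i hi => ?_, fun c hc => ?_⟩
  · simp only [hV, add_sub_cancel_left]
    calc |∑ j ∈ Finset.range i, ext n Q x j| ≤ ∑ j ∈ Finset.range i, |ext n Q x j| :=
          Finset.abs_sum_le_sum_abs _ _
      _ ≤ ∑ j ∈ Finset.range i, 10 * δ' := Finset.sum_le_sum fun j hj =>
          hE j (lt_of_lt_of_le (Finset.mem_range.1 hj) hi)
      _ = i * (10 * δ') := by simp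
      _ ≤ K * (10 * δ') := by
          have : (i : ℝ) ≤ K := by exact_mod_cast hi
          nlinarith
      _ < δ := by linarith
  · obtain ⟨⟨q, r⟩, hp, hc⟩ := List.mem_flatMap.1 hc
    rw [List.mk_mem_zipIdx_iff_getElem?] at hp
    obtain ⟨hr, hqr⟩ := List.getElem?_eq_some_iff.1 hp
    have hmem : q ∈ Q := hqr ▸ List.getElem_mem hr
    exact qcTC_complete hn hx0 (fun i => ((hxs i).le.trans hδ'1)) hR hp (hQ q hmem) (hxQ q hmem) c hc

end Pool.Agent.Lib.MP_612bca_lc
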