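import Pool.Agent.Lib.MP_612bca_lc.GeoDefs

/-!
# Drawing of a strip graph
-/

namespace Pool.Agent.Lib.MP_612bca_lc

namespace StripComplete

/-- The height of a point above the line through the origin with slope `t`. -/
def O (t : ℝ) (q : ℝ × ℝ) : ℝ := q.2 - t * q.1

/-- Sign of a side. -/
def sg (b : Bool) : ℝ := if b then 1 else -1

lemma seg {A B q : ℝ × ℝ} (h : q ∈ segment ℝ A B) :
    ∃ s : ℝ, 0 ≤ s ∧ s ≤ 1 ∧ q.1 = (1 - s) * A.1 + s * B.1 ∧ q.2 = (1 - s) * A.2 + s * B.2 := by
  rw [segment_eq_image] at h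
  obtain ⟨s, ⟨h0, h1⟩, rfl⟩ := h
  exact ⟨s, h0, h1, by simp, by simp⟩

/-- Fan lemma. -/
lemma fan {xa xb xb' oa ob ob' s s' : ℝ} (h1 : oa < ob) (h2 : ob < ob') (h3 : xa < xb)
    (h4 : xb' < xb) (hs : 0 ≤ s)
    (hx : (1 - s) * xa + s * xb = (1 - s') * xa + s' * xb')
    (ho : (1 - s) * oa + s * ob = (1 - s') * oa + s' * ob') : s = 0 ∧ s' = 0 := by
  have e1 : s * (ob - oa) = s' * (ob' - oa) := by linarith
  have e2 : s * (xb - xa) = s' * (xb' - xa) := by linarith
  rcases hs.eq_or_lt with h | h
  · refine ⟨h.symm, ?_⟩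
    rw [← h] at e1
    have : s' * (ob' - oa) = 0 := by linarith
    rcases mul_eq_zero.1 this with h' | h'
    · exact h'
    · linarith
  · exfalso
    have p1 : 0 < s * (ob - oa) := mul_pos h (by linarith)
    have p2 : 0 < s' := by
      by_contra hc
      push Not at hc
      have : s' * (ob' - oa) ≤ 0 := mul_nonpos_of_nonpos_of_nonneg hc (by linarith)
      linarith
    have p3 : s' < s := by
      by_contra hc
      push Not at hc
      have a1 : s * (ob' - oa) ≤ s' * (ob' - oa) := mul_le_mul_of_nonneg_right hc (by linarith)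
      have a2 : s * (ob - oa) < s * (ob' - oa) := mul_lt_mul_of_pos_left (by linarith) h
      linarith
    have p4 : s' * (xb' - xa) < s' * (xb - xa) := mul_lt_mul_of_pos_left (by linarith) p2
    have p5 : s' * (xb - xa) < s * (xb - xa) := mul_lt_mul_of_pos_right p3 (by linarith)
    linarith

/-- Two chords over consecutive elements with opposite labels do not meet. -/
lemma zigzag {xa xm xm' xb oa om om' ob s r : ℝ} (h1 : oa < om) (h2 : om < om') (h3 : om' < ob)
    (x1 : xa < xm) (x2 : xm' < xm) (x3 : xm' < xb) (hs1 : s ≤ 1) (hr : 0 ≤ r)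
    (hx : (1 - s) * xa + s * xm' = (1 - r) * xm + r * xb)
    (ho : (1 - s) * oa + s * om' = (1 - r) * om + r * ob) : False := by
  -- functional vanishing on the line through `a` and `m'`
  set F : ℝ → ℝ → ℝ := fun x o => (x - xa) * (om' - oa) - (xm' - xa) * (o - oa) with hF
  have hq : F ((1 - r) * xm + r * xb) ((1 - r) * om + r * ob) = 0 := by
    rw [← hx, ← ho, hF]
    ring
  have hlin : F ((1 - r) * xm + r * xb) ((1 - r) * om + r * ob) =
      (1 - r) * F xm om + r * F xb ob := by
    rw [hF]; ring
  have hm : 0 < F xm om := by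
    rw [hF]
    show 0 < (xm - xa) * (om' - oa) - (xm' - xa) * (om - oa)
    rcases le_total (xm' - xa) 0 with h | h
    · have a1 : (xm' - xa) * (om - oa) ≤ 0 := mul_nonpos_of_nonpos_of_nonneg h (by linarith)
      have a2 : 0 < (xm - xa) * (om' - oa) := mul_pos (by linarith) (by linarith)
      linarith
    · have a1 : (xm' - xa) * (om - oa) ≤ (xm' - xa) * (om' - oa) :=
        mul_le_mul_of_nonneg_left (by linarith) h
      have a2 : (xm' - xa) * (om' - oa) < (xm - xa) * (om' - oa) :=
        mul_lt_mul_of_pos_right (by linarith) (by linarith)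
      linarith
  -- the point at level `om'` of the second chord
  have hD : 0 < ob - om := by linarith
  have hr' : r * (ob - om) ≤ om' - om := by
    have e : r * (ob - om) = (1 - s) * oa + s * om' - om := by rw [ho]; ring
    have : (1 - s) * oa ≤ (1 - s) * om' := mul_le_mul_of_nonneg_left (by linarith) (by linarith)
    linarith
  have hstar : 0 < (ob - om') * F xm om + (om' - om) * F xb ob := by
    have e : (ob - om') * F xm om + (om' - om) * F xb ob =
        (om' - oa) * ((ob - om') * (xm - xm') + (om' - om) * (xb - xm')) := by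
      rw [hF]; ring
    rw [e]
    apply mul_pos (by linarith)
    have a1 := mul_pos (show 0 < ob - om' by linarith) (show 0 < xm - xm' by linarith)
    have a2 := mul_pos (show 0 < om' - om by linarith) (show 0 < xb - xm' by linarith)
    linarith
  have hcomb : (om' - om) * ((1 - r) * F xm om + r * F xb ob) =
      (om' - om - r * (ob - om)) * F xm om +
        r * ((ob - om') * F xm om + (om' - om) * F xb ob) := by ring
  rw [hlin] at hq
  rw [hq, mul_zero] at hcomb
  have b1 : 0 ≤ (om' - om - r * (ob - om)) * F xm om := mul_nonneg (by linarith) hm.le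
  rcases hr.eq_or_lt with h | h
  · rw [← h] at hq
    linarith
  · have b2 := mul_pos h hstar
    linarith

/-- The functional vanishing on the line through `m` and the hub of side `b`. -/
def fn (t R σ : ℝ) (m q : ℝ × ℝ) : ℝ :=
  (O t q - O t m) * (R - σ * m.1) + σ * O t m * (q.1 - m.1)

/-- All hypotheses on the drawing. -/
structure Ctx {ι : Type*} {k : ℕ} (lab : ι → ℕ) (key : Fin k → ι → ℤ) (p : ι → ℝ × ℝ)
    (t : Fin k → ℝ) (R : ℝ) : Prop where
  hkey : ∀ c, Function.Injective (key c)
  ht : Function.Injective t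
  hord : ∀ c w w', key c w < key c w' → O (t c) (p w) < O (t c) (p w')
  hU : ∀ w w', lab w = 0 → lab w' ≠ 0 → (p w').1 < (p w).1
  hL : ∀ w w', lab w = 1 → lab w' ≠ 1 → (p w).1 < (p w').1
  hlab : ∀ w, lab w ≤ 2
  hR0 : 0 < R
  hR1 : ∀ w, |(p w).1| < R
  hpos : ∀ c w, 0 < O (t c) (p w)
  hf : ∀ c m w (b : Bool), key c w < key c m → fn (t c) R (sg b) (p m) (p w) < 0
  hR3 : ∀ c c' m, c ≠ c' → O (t c) (p m) < R * |t c - t c'|

/-- The drawing. -/
def pos {ι : Type*} {k : ℕ} (p : ι → ℝ × ℝ) (t : Fin k → ℝ) (R : ℝ) : SVert ι k → ℝ × ℝ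
  | .inl w => p w
  | .inr (c, b) => (sg b * R, sg b * R * t c)

/-- Directed edges of class `c`. -/
def EdgeC {ι : Type*} {k : ℕ} (lab : ι → ℕ) (key : Fin k → ι → ℤ) (c : Fin k) :
    SVert ι k → SVert ι k → Prop
  | .inl w, .inl w' => InnerEdge lab key c w w'
  | .inl w, .inr (c', true) => c' = c ∧ lab w ≠ 1
  | .inl w, .inr (c', false) => c' = c ∧ lab w ≠ 0
  | _, _ => False

section

variable {ι : Type*} {k : ℕ} {lab : ι → ℕ} {key : Fin k → ι → ℤ} {p : ι → ℝ × ℝ}
    {t : Fin k → ℝ} {R : ℝ} {c : Fin k}

lemma inner_lt {a b : ι} (h : InnerEdge lab key c a b) : key c a < key c b := by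
  rcases h with h | ⟨m, -, -, -, h1, h2⟩
  · exact h.1
  · exact h1.1.trans h2.1

lemma inner_mid (X : Ctx lab key p t R) {a b z : ι} (h : InnerEdge lab key c a b)
    (h1 : key c a < key c z) (h2 : key c z < key c b) :
    lab z ≠ 2 ∧ lab z ≠ lab a ∧ lab z ≠ lab b ∧ Cons key c a z ∧ Cons key c z b := by
  rcases h with h | ⟨m, l1, l2, l3, c1, c2⟩
  · exact absurd ⟨h1, h2⟩ (h.2 z)
  · have hz : z = m := by
      rcases lt_trichotomy (key c z) (key c m) with h | h | h
      · exact absurd ⟨h1, h⟩ (c1.2 z)
      · exact X.hkey c h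
      · exact absurd ⟨h, h2⟩ (c2.2 z)
    rw [hz]
    exact ⟨l1, l2, l3, c1, c2⟩

lemma O_seg {A B q : ℝ × ℝ} {s t : ℝ} (h1 : q.1 = (1 - s) * A.1 + s * B.1)
    (h2 : q.2 = (1 - s) * A.2 + s * B.2) : O t q = (1 - s) * O t A + s * O t B := by
  unfold O
  rw [h1, h2]
  ring

lemma lab_cases (X : Ctx lab key p t R) {z : ι} (h : lab z ≠ 2) : lab z = 0 ∨ lab z = 1 := by
  have := X.hlab z
  omega

lemma eq_left {A B q : ℝ × ℝ} {s : ℝ} (h1 : q.1 = (1 - s) * A.1 + s * B.1)
    (h2 : q.2 = (1 - s) * A.2 + s * B.2) (hs : s = 0) : q = A := by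
  subst hs
  exact Prod.ext (by rw [h1]; ring) (by rw [h2]; ring)

lemma eq_right {A B q : ℝ × ℝ} {s : ℝ} (h1 : q.1 = (1 - s) * A.1 + s * B.1)
    (h2 : q.2 = (1 - s) * A.2 + s * B.2) (hs : s = 1) : q = B := by
  subst hs
  exact Prod.ext (by rw [h1]; ring) (by rw [h2]; ring)

/-- Two segments with separated height intervals meet only in a common endpoint. -/
lemma touch {A B A' B' q : ℝ × ℝ} {τ : ℝ} (hq : q ∈ segment ℝ A B) (hq' : q ∈ segment ℝ A' B')
    (h1 : O τ A < O τ B) (h2 : O τ A' < O τ B') (h3 : O τ B ≤ O τ A') : q = B ∧ q = A' := by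
  obtain ⟨s, s0, s1, e1, e2⟩ := seg hq
  obtain ⟨r, r0, r1, f1, f2⟩ := seg hq'
  have g1 := O_seg (t := τ) e1 e2
  have g2 := O_seg (t := τ) f1 f2
  have a1 : O τ q = O τ B - (1 - s) * (O τ B - O τ A) := by rw [g1]; ring
  have a2 : O τ q = O τ A' + r * (O τ B' - O τ A') := by rw [g2]; ring
  have b1 : 0 ≤ (1 - s) * (O τ B - O τ A) := mul_nonneg (by linarith) (by linarith)
  have b2 : 0 ≤ r * (O τ B' - O τ A') := mul_nonneg r0 (by linarith)
  constructor
  · apply eq_right e1 e2
    have : (1 - s) * (O τ B - O τ A) = 0 := by linarith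
    rcases mul_eq_zero.1 this with h | h
    · linarith
    · linarith
  · apply eq_left f1 f2
    have : r * (O τ B' - O τ A') = 0 := by linarith
    rcases mul_eq_zero.1 this with h | h
    · exact h
    · linarith

lemma fan_left (X : Ctx lab key p t R) {a b b' : ι} (h : InnerEdge lab key c a b)
    (h' : InnerEdge lab key c a b') (hlt : key c b < key c b') {q : ℝ × ℝ}
    (hq : q ∈ segment ℝ (p a) (p b)) (hq' : q ∈ segment ℝ (p a) (p b')) : q = p a := by
  obtain ⟨l1, l2, l3, -, -⟩ := inner_mid X h' (inner_lt h) hlt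
  obtain ⟨s, s0, s1, e1, e2⟩ := seg hq
  obtain ⟨r, r0, r1, f1, f2⟩ := seg hq'
  have g1 := O_seg (t := t c) e1 e2
  have g2 := O_seg (t := t c) f1 f2
  have o1 := X.hord c _ _ (inner_lt h)
  have o2 := X.hord c _ _ hlt
  apply eq_left e1 e2
  rcases lab_cases X l1 with hl | hl
  · have x1 := X.hU b a hl (by omega)
    have x2 := X.hU b b' hl (by omega)
    exact (fan o1 o2 x1 x2 s0 (by rw [← e1, ← f1]) (by rw [← g1, ← g2])).1
  · have x1 := X.hL b a hl (by omega)
    have x2 := X.hL b b' hl (by omega)
    refine (fan (xa := -(p a).1) (xb := -(p b).1) (xb' := -(p b').1) (s' := r) o1 o2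
      (by linarith) (by linarith) s0 (by linarith) (by rw [← g1, ← g2])).1

lemma fan_right (X : Ctx lab key p t R) {a a' b : ι} (h : InnerEdge lab key c a b)
    (h' : InnerEdge lab key c a' b) (hlt : key c a < key c a') {q : ℝ × ℝ}
    (hq : q ∈ segment ℝ (p a) (p b)) (hq' : q ∈ segment ℝ (p a') (p b)) : q = p b := by
  obtain ⟨l1, l2, l3, -, -⟩ := inner_mid X h hlt (inner_lt h')
  obtain ⟨s, s0, s1, e1, e2⟩ := seg hq
  obtain ⟨r, r0, r1, f1, f2⟩ := seg hq'
  have g1 := O_seg (t := t c) e1 e2
  have g2 := O_seg (t := t c) f1 f2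
  have o1 := X.hord c _ _ (inner_lt h')
  have o2 := X.hord c _ _ hlt
  apply eq_right f1 f2
  rcases lab_cases X l1 with hl | hl
  · have x1 := X.hU a' a hl (by omega)
    have x2 := X.hU a' b hl (by omega)
    have := (fan (xa := (p b).1) (xb := (p a').1) (xb' := (p a).1) (oa := -O (t c) (p b))
      (ob := -O (t c) (p a')) (ob' := -O (t c) (p a)) (s := 1 - r) (s' := 1 - s)
      (by linarith) (by linarith) x2 x1 (by linarith) (by linarith) (by linarith)).1
    linarith
  · have x1 := X.hL a' a hl (by omega)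
    have x2 := X.hL a' b hl (by omega)
    have := (fan (xa := -(p b).1) (xb := -(p a').1) (xb' := -(p a).1) (oa := -O (t c) (p b))
      (ob := -O (t c) (p a')) (ob' := -O (t c) (p a)) (s := 1 - r) (s' := 1 - s)
      (by linarith) (by linarith) (by linarith) (by linarith) (by linarith) (by linarith)
      (by linarith)).1
    linarith

lemma inner_inner_aux (X : Ctx lab key p t R) {a b a' b' : ι} (h : InnerEdge lab key c a b)
    (h' : InnerEdge lab key c a' b') (hne : ¬ (a = a' ∧ b = b')) (hle : key c a ≤ key c a')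
    {q : ℝ × ℝ} (hq : q ∈ segment ℝ (p a) (p b)) (hq' : q ∈ segment ℝ (p a') (p b')) :
    (q = p a ∨ q = p b) ∧ (q = p a' ∨ q = p b') := by
  have ho := X.hord c _ _ (inner_lt h)
  have ho' := X.hord c _ _ (inner_lt h')
  rcases le_or_gt (key c b) (key c a') with hba | hba
  · have hO : O (t c) (p b) ≤ O (t c) (p a') := by
      rcases hba.eq_or_lt with e | e
      · rw [X.hkey c e]
      · exact (X.hord c _ _ e).le
    have := touch hq hq' ho ho' hO
    exact ⟨Or.inr this.1, Or.inl this.2⟩
  · rcases hle.eq_or_lt with e | hlt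
    · have e' := X.hkey c e
      subst e'
      have hbb : b ≠ b' := fun e => hne ⟨rfl, e⟩
      have : q = p a := by
        rcases lt_trichotomy (key c b) (key c b') with hb | hb | hb
        · exact fan_left X h h' hb hq hq'
        · exact absurd (X.hkey c hb) hbb
        · exact fan_left X h' h hb hq' hq
      exact ⟨Or.inl this, Or.inl this⟩
    · obtain ⟨l1, l2, l3, c1, c2⟩ := inner_mid X h hlt hba
      rcases lt_trichotomy (key c b') (key c b) with hb | hb | hb
      · exact absurd ⟨inner_lt h', hb⟩ (c2.2 b')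
      · have e' := X.hkey c hb
        subst e'
        have := fan_right X h h' hlt hq hq'
        exact ⟨Or.inr this, Or.inr this⟩
      · exfalso
        obtain ⟨m1, m2, m3, -, -⟩ := inner_mid X h' hba hb
        obtain ⟨s, s0, s1, e1, e2⟩ := seg hq
        obtain ⟨r, r0, r1, f1, f2⟩ := seg hq'
        have g1 := O_seg (t := t c) e1 e2
        have g2 := O_seg (t := t c) f1 f2
        have o1 := X.hord c _ _ hlt
        have o2 := X.hord c _ _ hba
        have o3 := X.hord c _ _ hb
        rcases lab_cases X l1 with hl | hl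
        · have hl' : lab b = 1 := by
            rcases lab_cases X m1 with hm | hm
            · omega
            · exact hm
          exact zigzag o1 o2 o3 (X.hU a' a hl (by omega)) (X.hU a' b hl (by omega))
            (X.hL b b' hl' (by omega)) s1 r0 (by rw [← e1, ← f1]) (by rw [← g1, ← g2])
        · have hl' : lab b = 0 := by
            rcases lab_cases X m1 with hm | hm
            · exact hm
            · omega
          have x1 := X.hL a' a hl (by omega)
          have x2 := X.hL a' b hl (by omega)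
          have x3 := X.hU b b' hl' (by omega)
          exact zigzag (xa := -(p a).1) (xm := -(p a').1) (xm' := -(p b).1) (xb := -(p b').1)
            (s := s) (r := r) o1 o2 o3 (by linarith) (by linarith) (by linarith) s1 r0
            (by linarith) (by rw [← g1, ← g2])

lemma inner_inner (X : Ctx lab key p t R) {a b a' b' : ι} (h : InnerEdge lab key c a b)
    (h' : InnerEdge lab key c a' b') (hne : ¬ (a = a' ∧ b = b'))
    {q : ℝ × ℝ} (hq : q ∈ segment ℝ (p a) (p b)) (hq' : q ∈ segment ℝ (p a') (p b')) :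
    (q = p a ∨ q = p b) ∧ (q = p a' ∨ q = p b') := by
  rcases le_total (key c a) (key c a') with hle | hle
  · exact inner_inner_aux X h h' hne hle hq hq'
  · exact (inner_inner_aux X h' h (fun e => hne ⟨e.1.symm, e.2.symm⟩) hle hq' hq).symm

lemma sg_cases (b : Bool) : sg b = 1 ∨ sg b = -1 := by
  cases b
  · right; simp [sg]
  · left; simp [sg]

lemma sg_sq (b : Bool) : sg b * sg b = 1 := by
  rcases sg_cases b with h | h <;> rw [h] <;> norm_num

/-- The functional on a segment. -/
lemma fn_seg {A B q m : ℝ × ℝ} {s τ σ : ℝ} (h1 : q.1 = (1 - s) * A.1 + s * B.1)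
    (h2 : q.2 = (1 - s) * A.2 + s * B.2) :
    fn τ R σ m q = (1 - s) * fn τ R σ m A + s * fn τ R σ m B := by
  unfold fn
  rw [O_seg (t := τ) h1 h2, h1]
  ring

lemma fn_self {m : ℝ × ℝ} {τ σ : ℝ} : fn τ R σ m m = 0 := by
  unfold fn; ring

lemma O_hub (b : Bool) (c : Fin k) : O (t c) (pos p t R (.inr (c, b))) = 0 := by
  simp only [O, pos]
  ring

lemma fn_hub (b : Bool) (c : Fin k) (m : ℝ × ℝ) :
    fn (t c) R (sg b) m (pos p t R (.inr (c, b))) = 0 := by
  unfold fn
  rw [O_hub]
  simp only [pos]
  have := sg_sq b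
  linear_combination (O (t c) m * R) * this

lemma fn_hub_neg (b : Bool) (c : Fin k) (m : ℝ × ℝ) :
    fn (t c) R (sg b) m (pos p t R (.inr (c, !b))) = -(2 * R * O (t c) m) := by
  unfold fn
  rw [O_hub]
  simp only [pos]
  have h2 : sg (!b) = -sg b := by cases b <;> simp [sg]
  rw [h2]
  have := sg_sq b
  linear_combination (-(O (t c) m * R)) * this

/-- The functional vanishes on the hub edge. -/
lemma fn_hubseg {b : Bool} {m q : ℝ × ℝ}
    (hq : q ∈ segment ℝ m (pos p t R (.inr (c, b)))) : fn (t c) R (sg b) m q = 0 := by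
  obtain ⟨s, s0, s1, e1, e2⟩ := seg hq
  rw [fn_seg e1 e2, fn_self, fn_hub]
  ring

/-- A point of a hub edge is the endpoint if it has its height. -/
lemma hub_height (X : Ctx lab key p t R) {b : Bool} {m : ι} {q : ℝ × ℝ}
    (hq : q ∈ segment ℝ (p m) (pos p t R (.inr (c, b)))) :
    O (t c) q ≤ O (t c) (p m) ∧ (O (t c) q = O (t c) (p m) → q = p m) ∧
      0 ≤ O (t c) q ∧ (O (t c) q = 0 → q = pos p t R (.inr (c, b))) := by
  obtain ⟨s, s0, s1, e1, e2⟩ := seg hq
  have g := O_seg (t := t c) e1 e2
  rw [O_hub] at g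
  have hp := X.hpos c m
  have h1 : 0 ≤ s * O (t c) (p m) := mul_nonneg s0 hp.le
  have h2 : 0 ≤ (1 - s) * O (t c) (p m) := mul_nonneg (by linarith) hp.le
  refine ⟨by linarith, fun h => ?_, by linarith, fun h => ?_⟩
  · apply eq_left e1 e2
    have : s * O (t c) (p m) = 0 := by linarith
    rcases mul_eq_zero.1 this with h' | h'
    · exact h'
    · linarith
  · apply eq_right e1 e2
    have : (1 - s) * O (t c) (p m) = 0 := by linarith
    rcases mul_eq_zero.1 this with h' | h'
    · linarith
    · linarith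

/-- The abscissa on a hub edge. -/
lemma hub_abs (X : Ctx lab key p t R) {b : Bool} {m : ι} {q : ℝ × ℝ}
    (hq : q ∈ segment ℝ (p m) (pos p t R (.inr (c, b)))) :
    sg b * (p m).1 ≤ sg b * q.1 := by
  obtain ⟨s, s0, s1, e1, e2⟩ := seg hq
  simp only [pos] at e1
  have h1 := X.hR1 m
  rw [abs_lt] at h1
  have e : sg b * q.1 = sg b * (p m).1 + s * (R - sg b * (p m).1) := by
    rw [e1]
    have := sg_sq b
    linear_combination (s * R) * this
  rw [e]
  have : 0 ≤ R - sg b * (p m).1 := by
    rcases sg_cases b with h | h <;> rw [h] <;> linarith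
  have := mul_nonneg s0 this
  linarith

lemma inner_hub (X : Ctx lab key p t R) {a b m : ι} {σ : Bool} (h : InnerEdge lab key c a b)
    (hm : lab m ≠ if σ then 1 else 0) {q : ℝ × ℝ} (hq : q ∈ segment ℝ (p a) (p b))
    (hq' : q ∈ segment ℝ (p m) (pos p t R (.inr (c, σ)))) :
    (q = p a ∨ q = p b) ∧ (q = p m ∨ q = pos p t R (.inr (c, σ))) := by
  obtain ⟨s, s0, s1, e1, e2⟩ := seg hq
  have g := O_seg (t := t c) e1 e2
  have ho := X.hord c _ _ (inner_lt h)
  obtain ⟨j1, j2, j3, j4⟩ := hub_height X hq'
  have gO : O (t c) (p a) ≤ O (t c) q := by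
    have : 0 ≤ s * (O (t c) (p b) - O (t c) (p a)) := mul_nonneg s0 (by linarith)
    rw [g]
    linarith
  have gf := fn_seg (R := R) (m := p m) (τ := t c) (σ := sg σ) e1 e2
  rw [fn_hubseg hq'] at gf
  rcases lt_trichotomy (key c m) (key c a) with h1 | h1 | h1
  · have := X.hord c _ _ h1
    linarith
  · have e := X.hkey c h1
    subst e
    have := j2 (le_antisymm j1 gO)
    exact ⟨Or.inl this, Or.inl this⟩
  · rcases lt_trichotomy (key c m) (key c b) with h2 | h2 | h2
    · exfalso
      obtain ⟨l1, l2, l3, -, -⟩ := inner_mid X h h1 h2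
      have hx := hub_abs X hq'
      cases σ
      · -- left hub, label 1
        have hl : lab m = 1 := by
          rcases lab_cases X l1 with h | h
          · simp at hm; omega
          · exact h
        have x1 := X.hL m a hl (by omega)
        have x2 := X.hL m b hl (by omega)
        simp only [sg] at hx
        have : (p m).1 < q.1 := by
          rw [e1]
          rcases s0.eq_or_lt with h | h
          · rw [← h]; linarith
          · have a1 := mul_lt_mul_of_pos_left x2 h
            have a2 := mul_le_mul_of_nonneg_left x1.le (show 0 ≤ 1 - s by linarith)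
            linarith
        norm_num at hx
        linarith
      · have hl : lab m = 0 := by
          rcases lab_cases X l1 with h | h
          · exact h
          · simp at hm; omega
        have x1 := X.hU m a hl (by omega)
        have x2 := X.hU m b hl (by omega)
        simp only [sg] at hx
        have : q.1 < (p m).1 := by
          rw [e1]
          rcases s0.eq_or_lt with h | h
          · rw [← h]; linarith
          · have a1 := mul_lt_mul_of_pos_left x2 h
            have a2 := mul_le_mul_of_nonneg_left x1.le (show 0 ≤ 1 - s by linarith)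
            linarith
        norm_num at hx
        linarith
    · have e := X.hkey c h2
      subst e
      rw [fn_self] at gf
      have hfa := X.hf c m a σ h1
      have : (1 - s) * fn (t c) R (sg σ) (p m) (p a) = 0 := by linarith
      have hs : s = 1 := by
        rcases mul_eq_zero.1 this with h | h
        · linarith
        · linarith
      have := eq_right e1 e2 hs
      exact ⟨Or.inr this, Or.inl this⟩
    · exfalso
      have hfa := X.hf c m a σ (h1.trans_le (le_refl _))
      have hfb := X.hf c m b σ h2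
      rcases s0.eq_or_lt with h | h
      · rw [← h] at gf; linarith
      · have a1 := mul_neg_of_pos_of_neg h hfb
        have a2 := mul_nonpos_of_nonneg_of_nonpos (show 0 ≤ 1 - s by linarith) hfa.le
        linarith

lemma hub_hub_aux (X : Ctx lab key p t R) {m m' : ι} {σ σ' : Bool} (hlt : key c m < key c m')
    {q : ℝ × ℝ} (hq : q ∈ segment ℝ (p m) (pos p t R (.inr (c, σ))))
    (hq' : q ∈ segment ℝ (p m') (pos p t R (.inr (c, σ')))) :
    q = pos p t R (.inr (c, σ)) ∧ σ = σ' := by
  obtain ⟨s, s0, s1, e1, e2⟩ := seg hq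
  have gf := fn_seg (R := R) (m := p m') (τ := t c) (σ := sg σ') e1 e2
  rw [fn_hubseg hq'] at gf
  have hf := X.hf c m' m σ' hlt
  by_cases hσ : σ = σ'
  · subst hσ
    rw [fn_hub] at gf
    have : (1 - s) * fn (t c) R (sg σ) (p m') (p m) = 0 := by linarith
    have hs : s = 1 := by
      rcases mul_eq_zero.1 this with h | h
      · linarith
      · linarith
    exact ⟨eq_right e1 e2 hs, rfl⟩
  · exfalso
    have hσ' : σ = !σ' := by cases σ <;> cases σ' <;> simp_all
    rw [hσ', fn_hub_neg] at gf
    have hp : 0 < 2 * R * O (t c) (p m') := by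
      have := X.hpos c m'
      have := X.hR0
      positivity
    rcases s0.eq_or_lt with h | h
    · rw [← h] at gf; linarith
    · have a1 := mul_pos h hp
      have a2 := mul_nonpos_of_nonneg_of_nonpos (show 0 ≤ 1 - s by linarith) hf.le
      linarith

lemma hub_hub (X : Ctx lab key p t R) {m m' : ι} {σ σ' : Bool} (hne : ¬ (m = m' ∧ σ = σ'))
    {q : ℝ × ℝ} (hq : q ∈ segment ℝ (p m) (pos p t R (.inr (c, σ))))
    (hq' : q ∈ segment ℝ (p m') (pos p t R (.inr (c, σ')))) :
    (q = p m ∨ q = pos p t R (.inr (c, σ))) ∧ (q = p m' ∨ q = pos p t R (.inr (c, σ'))) := by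
  rcases lt_trichotomy (key c m) (key c m') with h | h | h
  · obtain ⟨h1, h2⟩ := hub_hub_aux X h hq hq'
    subst h2
    exact ⟨Or.inr h1, Or.inr h1⟩
  · have e := X.hkey c h
    subst e
    have hσ : σ ≠ σ' := fun e => hne ⟨rfl, e⟩
    have hσ' : σ = !σ' := by cases σ <;> cases σ' <;> simp_all
    obtain ⟨s, s0, s1, e1, e2⟩ := seg hq
    have gf := fn_seg (R := R) (m := p m) (τ := t c) (σ := sg σ') e1 e2
    rw [fn_hubseg hq', fn_self, hσ', fn_hub_neg] at gf
    have hp : 0 < 2 * R * O (t c) (p m) := by
      have := X.hpos c m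
      have := X.hR0
      positivity
    have hs : s = 0 := by
      have : s * (2 * R * O (t c) (p m)) = 0 := by linarith
      rcases mul_eq_zero.1 this with h | h
      · exact h
      · linarith
    have := eq_left e1 e2 hs
    exact ⟨Or.inl this, Or.inl this⟩
  · obtain ⟨h1, h2⟩ := hub_hub_aux X h hq' hq
    subst h2
    exact ⟨Or.inr h1, Or.inr h1⟩


/-- Unordered pairs. -/
lemma edge_edge (X : Ctx lab key p t R) {x y x' y' : SVert ι k} (h : EdgeC lab key c x y)
    (h' : EdgeC lab key c x' y') (hne : s(x, y) ≠ s(x', y')) {q : ℝ × ℝ}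
    (hq : q ∈ segment ℝ (pos p t R x) (pos p t R y))
    (hq' : q ∈ segment ℝ (pos p t R x') (pos p t R y')) :
    (q = pos p t R x ∨ q = pos p t R y) ∧ (q = pos p t R x' ∨ q = pos p t R y') := by
  have hne' : ¬ (x = x' ∧ y = y') := by
    rintro ⟨rfl, rfl⟩
    exact hne rfl
  rcases x with a | x
  swap
  · exact absurd h (by simp [EdgeC])
  rcases x' with a' | x'
  swap
  · exact absurd h' (by simp [EdgeC])
  rcases y with b | ⟨d, σ⟩
  · rcases y' with b' | ⟨d', σ'⟩
    · exact inner_inner X h h' (fun e => hne' ⟨by rw [e.1], by rw [e.2]⟩) hq hq'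
    · obtain ⟨rfl, hm⟩ : d' = c ∧ lab a' ≠ if σ' then 1 else 0 := by
        cases σ' <;> simpa [EdgeC] using h'
      exact inner_hub X h hm hq hq'
  · obtain ⟨rfl, hm⟩ : d = c ∧ lab a ≠ if σ then 1 else 0 := by
      cases σ <;> simpa [EdgeC] using h
    rcases y' with b' | ⟨d', σ'⟩
    · exact (inner_hub X h' hm hq' hq).symm
    · obtain ⟨rfl, hm'⟩ : d' = d ∧ lab a' ≠ if σ' then 1 else 0 := by
        cases σ' <;> simpa [EdgeC] using h'
      exact hub_hub X (fun e => hne' ⟨by rw [e.1], by rw [e.2]⟩) hq hq'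

lemma O_inj (X : Ctx lab key p t R) (c : Fin k) {w w' : ι} (h : O (t c) (p w) = O (t c) (p w')) :
    w = w' := by
  rcases lt_trichotomy (key c w) (key c w') with h' | h' | h'
  · have := X.hord c _ _ h'; linarith
  · exact X.hkey c h'
  · have := X.hord c _ _ h'; linarith

lemma key_lt (X : Ctx lab key p t R) (c : Fin k) {w w' : ι}
    (h : O (t c) (p w) < O (t c) (p w')) : key c w < key c w' := by
  rcases lt_trichotomy (key c w) (key c w') with h' | h' | h'
  · exact h'
  · have := X.hkey c h'
    subst this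
    exact absurd h (lt_irrefl _)
  · have := X.hord c _ _ h'; linarith

lemma pos_inj (X : Ctx lab key p t R) (hk : 1 ≤ k) : Function.Injective (pos p t R : SVert ι k → _) := by
  intro x y hxy
  have hR := X.hR0
  rcases x with a | ⟨d, σ⟩
  · rcases y with b | ⟨d', σ'⟩
    · have : p a = p b := hxy
      have := O_inj X ⟨0, hk⟩ (by rw [this] : O (t ⟨0, hk⟩) (p a) = O (t ⟨0, hk⟩) (p b))
      rw [this]
    · exfalso
      have h1 := X.hpos d' a
      have h2 : O (t d') (pos p t R (.inr (d', σ') : SVert ι k)) = 0 := O_hub σ' d'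
      rw [← hxy] at h2
      exact absurd h2 h1.ne'
  · rcases y with b | ⟨d', σ'⟩
    · exfalso
      have h1 := X.hpos d b
      have h2 : O (t d) (pos p t R (.inr (d, σ) : SVert ι k)) = 0 := O_hub σ d
      rw [hxy] at h2
      exact absurd h2 h1.ne'
    · simp only [pos, Prod.mk.injEq] at hxy
      obtain ⟨h1, h2⟩ := hxy
      have h3 : sg σ = sg σ' := mul_right_cancel₀ hR.ne' h1
      have h4 : σ = σ' := by
        cases σ <;> cases σ' <;> simp [sg] at h3 ⊢
        · linarith
        · linarith
      subst h4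
      have h5 : sg σ * R ≠ 0 := by
        rcases sg_cases σ with h | h <;> rw [h] <;> simp [hR.ne']
      have h6 : t d = t d' := mul_left_cancel₀ h5 h2
      rw [X.ht h6]

/-- No vertex lies on an edge. -/
lemma avoid_aux (X : Ctx lab key p t R) {x y z : SVert ι k} (h : EdgeC lab key c x y)
    (hz : pos p t R z ∈ segment ℝ (pos p t R x) (pos p t R y)) : z = x ∨ z = y := by
  have hk : 1 ≤ k := by
    have := c.2
    omega
  have hinj := pos_inj X hk
  have hR := X.hR0
  rcases x with a | x
  swap
  · exact absurd h (by simp [EdgeC])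
  rcases y with b | ⟨d, σ⟩
  · -- inner edge
    have h' : InnerEdge lab key c a b := h
    obtain ⟨s, s0, s1, e1, e2⟩ := seg hz
    have ha := X.hpos
    rcases z with w | ⟨d, σ⟩
    · have g := O_seg (t := t c) e1 e2
      have ho := X.hord c _ _ (inner_lt h')
      simp only [pos] at g e1 e2 hz
      by_cases hs0 : s = 0
      · left
        exact hinj (eq_left e1 e2 hs0)
      by_cases hs1 : s = 1
      · right
        exact hinj (eq_right e1 e2 hs1)
      exfalso
      have s0' : 0 < s := lt_of_le_of_ne s0 (Ne.symm hs0)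
      have s1' : s < 1 := lt_of_le_of_ne s1 hs1
      have g1 : O (t c) (p a) < O (t c) (p w) := by
        have := mul_pos s0' (show 0 < O (t c) (p b) - O (t c) (p a) by linarith)
        rw [g]; linarith
      have g2 : O (t c) (p w) < O (t c) (p b) := by
        have := mul_pos (show 0 < 1 - s by linarith)
          (show 0 < O (t c) (p b) - O (t c) (p a) by linarith)
        rw [g]; linarith
      obtain ⟨l1, l2, l3, -, -⟩ := inner_mid X h' (key_lt X c g1) (key_lt X c g2)
      rcases lab_cases X l1 with hl | hl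
      · have x1 := X.hU w a hl (by omega)
        have x2 := X.hU w b hl (by omega)
        have a1 := mul_lt_mul_of_pos_left x2 s0'
        have a2 := mul_lt_mul_of_pos_left x1 (show 0 < 1 - s by linarith)
        linarith
      · have x1 := X.hL w a hl (by omega)
        have x2 := X.hL w b hl (by omega)
        have a1 := mul_lt_mul_of_pos_left x2 s0'
        have a2 := mul_lt_mul_of_pos_left x1 (show 0 < 1 - s by linarith)
        linarith
    · exfalso
      have g := O_seg (t := t d) e1 e2
      rw [O_hub] at g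
      simp only [pos] at g
      have a1 := X.hpos d a
      have a2 := X.hpos d b
      rcases s0.eq_or_lt with h | h
      · rw [← h] at g; linarith
      · have := mul_pos h a2
        have := mul_nonneg (show 0 ≤ 1 - s by linarith) a1.le
        linarith
  · obtain ⟨rfl, hm⟩ : d = c ∧ lab a ≠ if σ then 1 else 0 := by
      cases σ <;> simpa [EdgeC] using h
    obtain ⟨j1, j2, j3, j4⟩ := hub_height X (show pos p t R z ∈
      segment ℝ (p a) (pos p t R (.inr (d, σ))) from hz)
    rcases z with w | ⟨d', σ'⟩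
    · rcases lt_trichotomy (key d w) (key d a) with h1 | h1 | h1
      · exfalso
        have h2 := X.hf d a w σ h1
        have h3 := fn_hubseg (R := R) (show pos p t R (.inl w) ∈
          segment ℝ (p a) (pos p t R (.inr (d, σ))) from hz)
        simp only [pos] at h3
        linarith
      · left
        rw [X.hkey d h1]
      · exfalso
        have := X.hord d _ _ h1
        simp only [pos] at j1
        linarith
    · by_cases hd : d' = d
      · right
        subst hd
        exact hinj (j4 (O_hub _ _))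
      · exfalso
        have h3 := X.hR3 d d' a (fun e => hd e.symm)
        have habs := hub_abs X (show pos p t R (.inr (d', σ')) ∈
          segment ℝ (p a) (pos p t R (.inr (d, σ))) from hz)
        have e : O (t d) (pos p t R (.inr (d', σ') : SVert ι k)) = sg σ' * R * (t d' - t d) := by
          simp only [O, pos]; ring
        rw [e] at j1 j3
        have h4 : sg σ' * R * (t d' - t d) = R * |t d - t d'| := by
          have h5 : |sg σ' * R * (t d' - t d)| = R * |t d - t d'| := by
            rw [abs_mul, abs_mul, abs_of_pos hR, abs_sub_comm]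
            rcases sg_cases σ' with h | h <;> rw [h] <;> simp
          rw [← h5, abs_of_nonneg j3]
        linarith

/-- The colouring. -/
noncomputable def colour (lab : ι → ℕ) (key : Fin k → ι → ℤ) (e : Sym2 (SVert ι k)) : ℕ :=
  open Classical in
  if h : ∃ c : Fin k, ∃ x y, e = s(x, y) ∧ EdgeC lab key c x y then (Classical.choose h).val else 0

lemma exists_edgeC {x y : SVert ι k} (h : (stripGraph lab key).Adj x y) :
    ∃ c : Fin k, ∃ x' y', s(x, y) = s(x', y') ∧ EdgeC lab key c x' y' := by
  have key1 : ∀ x y : SVert ι k, StripE lab key x y →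
      ∃ c : Fin k, ∃ x' y', s(x, y) = s(x', y') ∧ EdgeC lab key c x' y' := by
    intro x y h
    rcases x with a | x
    swap
    · exact absurd h (by simp [StripE])
    rcases y with b | ⟨d, σ⟩
    · obtain ⟨c, hc⟩ := h
      exact ⟨c, _, _, rfl, hc⟩
    · cases σ
      · exact ⟨d, _, _, rfl, rfl, h⟩
      · exact ⟨d, _, _, rfl, rfl, h⟩
  rcases h.2 with h | h
  · exact key1 _ _ h
  · obtain ⟨c, x', y', e, h'⟩ := key1 _ _ h
    exact ⟨c, x', y', by rw [← e, Sym2.eq_swap], h'⟩

lemma colour_spec {x y : SVert ι k} (h : (stripGraph lab key).Adj x y) :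
    ∃ c : Fin k, colour lab key s(x, y) = c.val ∧
      ∃ x' y', s(x, y) = s(x', y') ∧ EdgeC lab key c x' y' := by
  have h' := exists_edgeC h
  refine ⟨Classical.choose h', ?_, Classical.choose_spec h'⟩
  unfold colour
  rw [dif_pos h']

lemma seg_sym {x y x' y' : SVert ι k} (h : s(x, y) = s(x', y')) {q : ℝ × ℝ} :
    (q ∈ segment ℝ (pos p t R x) (pos p t R y) ↔ q ∈ segment ℝ (pos p t R x') (pos p t R y')) ∧
    ((q = pos p t R x ∨ q = pos p t R y) ↔ (q = pos p t R x' ∨ q = pos p t R y')) := by
  rw [Sym2.eq_iff] at h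
  rcases h with ⟨rfl, rfl⟩ | ⟨rfl, rfl⟩
  · exact ⟨Iff.rfl, Iff.rfl⟩
  · exact ⟨by rw [segment_symm], or_comm⟩

theorem complete_of_ctx (X : Ctx lab key p t R) (hk : 1 ≤ k) :
    GeometricThicknessLE (stripGraph lab key) k := by
  refine ⟨pos p t R, colour lab key, ⟨pos_inj X hk, ?_⟩, ?_, ?_⟩
  · intro u v w huv hw
    obtain ⟨c, x, y, e, hxy⟩ := exists_edgeC huv
    have h1 := avoid_aux X hxy ((seg_sym e).1.1 hw)
    rw [Sym2.eq_iff] at e
    rcases e with ⟨rfl, rfl⟩ | ⟨rfl, rfl⟩
    · exact h1
    · exact h1.symm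
  · intro e he
    induction e with
    | _ x y =>
      obtain ⟨c, h, -⟩ := colour_spec (lab := lab) (key := key) he
      rw [h]
      exact c.2
  · intro a b a' b' h h' hne hcol
    obtain ⟨c, hc, x, y, e, hxy⟩ := colour_spec h
    obtain ⟨c', hc', x', y', e', hxy'⟩ := colour_spec h'
    rw [hc, hc'] at hcol
    have : c = c' := Fin.ext hcol
    subst this
    rintro ⟨q, hq, hq', hn⟩
    apply hn
    rw [(seg_sym (p := p) (t := t) (R := R) (q := q) e).2,
      (seg_sym (p := p) (t := t) (R := R) (q := q) e').2]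
    exact edge_edge X hxy hxy' (by rw [← e, ← e']; exact hne) ((seg_sym e).1.1 hq)
      ((seg_sym e').1.1 hq')

end

end StripComplete

open StripComplete Filter in
/-- **Module StripComplete.** -/
theorem strip_complete {ι : Type*} [Finite ι] {k : ℕ} (lab : ι → ℕ) (key : Fin k → ι → ℤ)
    (hkey : ∀ c, Function.Injective (key c)) (p : ι → ℝ × ℝ) (t : Fin k → ℝ)
    (ht : Function.Injective t)
    (hord : ∀ c w w', key c w < key c w' → (p w).2 - t c * (p w).1 < (p w').2 - t c * (p w').1)
    (hU : ∀ w w', lab w = 0 → lab w' ≠ 0 → (p w').1 < (p w).1)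
    (hL : ∀ w w', lab w = 1 → lab w' ≠ 1 → (p w).1 < (p w').1)
    (hlab : ∀ w, lab w ≤ 2) (hk : 1 ≤ k) :
    GeometricThicknessLE (stripGraph lab key) k := by
  -- translation
  have hM : ∀ᶠ M : ℝ in atTop, ∀ c w, 0 < O (t c) (p w) + M := by
    rw [eventually_all]
    intro c
    rw [eventually_all]
    intro w
    filter_upwards [eventually_gt_atTop (-O (t c) (p w))] with M hM
    linarith
  obtain ⟨M, hM⟩ := hM.exists
  set p' : ι → ℝ × ℝ := fun w => ((p w).1, (p w).2 + M) with hp'
  have hO : ∀ c w, O (t c) (p' w) = O (t c) (p w) + M := fun c w => by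
    simp only [O, hp']
    ring
  have hord' : ∀ c w w', key c w < key c w' → O (t c) (p' w) < O (t c) (p' w') := by
    intro c w w' h
    rw [hO, hO]
    have := hord c w w' h
    unfold O
    linarith
  have e0 : ∀ᶠ R : ℝ in atTop, 0 < R := eventually_gt_atTop 0
  have e1 : ∀ᶠ R : ℝ in atTop, ∀ w, |(p' w).1| < R := by
    rw [eventually_all]
    exact fun w => eventually_gt_atTop _
  have e2 : ∀ᶠ R : ℝ in atTop, ∀ c m w (b : Bool), key c w < key c m →
      fn (t c) R (sg b) (p' m) (p' w) < 0 := by
    rw [eventually_all]; intro c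
    rw [eventually_all]; intro m
    rw [eventually_all]; intro w
    rw [eventually_all]; intro b
    by_cases h : key c w < key c m
    · have hlt := hord' c w m h
      set D := O (t c) (p' m) - O (t c) (p' w) with hD
      have hDpos : 0 < D := by linarith
      have : Tendsto (fun R : ℝ => D * R) atTop atTop := tendsto_id.const_mul_atTop hDpos
      filter_upwards [this.eventually_gt_atTop
        (D * (sg b * (p' m).1) + sg b * O (t c) (p' m) * ((p' w).1 - (p' m).1))] with R hR _
      have e : fn (t c) R (sg b) (p' m) (p' w) = -(D * R) +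
          (D * (sg b * (p' m).1) + sg b * O (t c) (p' m) * ((p' w).1 - (p' m).1)) := by
        unfold fn
        rw [hD]
        ring
      rw [e]
      linarith
    · exact Eventually.of_forall fun R h' => absurd h' h
  have e3 : ∀ᶠ R : ℝ in atTop, ∀ c c' m, c ≠ c' → O (t c) (p' m) < R * |t c - t c'| := by
    rw [eventually_all]; intro c
    rw [eventually_all]; intro c'
    rw [eventually_all]; intro m
    by_cases h : c ≠ c'
    · have hpos : 0 < |t c - t c'| := abs_pos.2 (sub_ne_zero.2 fun e => h (ht e))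
      have : Tendsto (fun R : ℝ => R * |t c - t c'|) atTop atTop :=
        tendsto_id.atTop_mul_const hpos
      filter_upwards [this.eventually_gt_atTop (O (t c) (p' m))] with R hR _
      exact hR
    · exact Eventually.of_forall fun R h' => absurd h' h
  obtain ⟨R, hR0, hR1, hR2, hR3⟩ := (e0.and (e1.and (e2.and e3))).exists
  have X : Ctx lab key p' t R :=
    { hkey := hkey
      ht := ht
      hord := hord'
      hU := hU
      hL := hL
      hlab := hlab
      hR0 := hR0
      hR1 := hR1
      hpos := fun c w => by rw [hO]; exact hM c w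
      hf := hR2
      hR3 := hR3 }
  exact complete_of_ctx X hk

end Pool.Agent.Lib.MP_612bca_lc
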