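import Pool.Agent.Lib.MP_612bca_lc.StripDrawing2
import Pool.Agent.Lib.MP_612bca_lc.GroupsGood
import Pool.Agent.Lib.MP_612bca_lc.GroupsComplete
import Pool.Agent.Lib.MP_612bca_lc.StripComplete
import Pool.Agent.Lib.MP_612bca_lc.Local

/-!
# Drawing of the strip
-/

namespace Pool.Agent.Lib.MP_612bca_lc

theorem strip_drawing (K : ℕ) (cs : List TC) (hcs : ∀ c ∈ cs, c.WF K) (h : NearRealizable K cs) :
    GeometricThicknessLE (instGraph K cs) (K + 2) := by
  have hG := groups_good K cs hcs
  have hinj := keyT_inj K (groups K cs) hG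
  have : Finite (EltT K (groups K cs)) := List.finite_toSet (elts K (groups K cs))
  exact SD.main K (groups K cs) hG hinj (fun δ hδ => groups_complete K cs hcs h δ hδ)
    (fun p t ht ho hU hL hl hk => strip_complete _ _ hinj p t ht ho hU hL hl hk)

end Pool.Agent.Lib.MP_612bca_lc
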