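import Pool.Agent.Lib.MP_612bca_lc.WordAdj
import Pool.Agent.Lib.MP_612bca_lc.PTimeAlg

/-!
# The word of the graph of an instance is computable in polynomial time
-/

namespace Pool.Agent.Lib.MP_612bca_lc
open Pool.Agent.PolyTime

namespace Word

section
variable {α β : Type} [Enc α] [Enc β]

/-! ### Case distinctions -/

theorem ptime_tc_cases {f : α → TC} (hf : PTime f) {A : α → ℕ → ℕ → ℕ → β}
    {B C : α → ℕ → β} (hA : PTime (fun p : α × (ℕ × (ℕ × ℕ)) => A p.1 p.2.1 p.2.2.1 p.2.2.2))
    (hB : PTime (fun p : α × ℕ => B p.1 p.2)) (hC : PTime (fun p : α × ℕ => C p.1 p.2)) :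
    PTime (fun a => match f a with
      | .add e f n => A a e f n
      | .mulL g => B a g
      | .mulG g => C a g) := by
  have h0 : PTime (fun a => (f a).code) := ptime_tc_code hf
  have h1 : PTime (fun a => A a (f a).code.2.1 (f a).code.2.2.1 (f a).code.2.2.2) := by
    have := PTime.comp (f := fun p : α × (ℕ × (ℕ × ℕ)) => A p.1 p.2.1 p.2.2.1 p.2.2.2)
      (g := fun a => (a, (f a).code.2)) hA (PTime.id.pair (PTime.snd.comp h0))
    exact this
  have h2 : PTime (fun a => B a (f a).code.2.1) := by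
    have := PTime.comp (f := fun p : α × ℕ => B p.1 p.2) (g := fun a => (a, (f a).code.2.1))
      hB (PTime.id.pair (PTime.fst.comp (PTime.snd.comp h0)))
    exact this
  have h3 : PTime (fun a => C a (f a).code.2.1) := by
    have := PTime.comp (f := fun p : α × ℕ => C p.1 p.2) (g := fun a => (a, (f a).code.2.1))
      hC (PTime.id.pair (PTime.fst.comp (PTime.snd.comp h0)))
    exact this
  refine (PTime.ite (PTime.eq (PTime.fst.comp h0) (PTime.const 0)) h1
    (PTime.ite (PTime.eq (PTime.fst.comp h0) (PTime.const 1)) h2 h3)).of_eq fun a => ?_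
  cases f a <;> rfl

theorem ptime_elt_cases {f : α → Elt} (hf : PTime f) {A : α → ℕ → ℕ → β}
    {B : α → ℕ → ℕ → ℕ → β} (hA : PTime (fun p : α × (ℕ × ℕ) => A p.1 p.2.1 p.2.2))
    (hB : PTime (fun p : α × (ℕ × (ℕ × ℕ)) => B p.1 p.2.1 p.2.2.1 p.2.2.2)) :
    PTime (fun a => match f a with
      | .dum r p => A a r p
      | .rep s j i => B a s j i) := by
  have h0 : PTime (fun a => (f a).code) := ptime_elt_code hf
  have h1 : PTime (fun a => A a (f a).code.2.1 (f a).code.2.2.1) := by
    have := PTime.comp (f := fun p : α × (ℕ × ℕ) => A p.1 p.2.1 p.2.2)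
      (g := fun a => (a, ((f a).code.2.1, (f a).code.2.2.1))) hA
      (PTime.id.pair ((PTime.fst.comp (PTime.snd.comp h0)).pair
        (PTime.fst.comp (PTime.snd.comp (PTime.snd.comp h0)))))
    exact this
  have h2 : PTime (fun a => B a (f a).code.2.1 (f a).code.2.2.1 (f a).code.2.2.2) := by
    have := PTime.comp (f := fun p : α × (ℕ × (ℕ × ℕ)) => B p.1 p.2.1 p.2.2.1 p.2.2.2)
      (g := fun a => (a, (f a).code.2)) hB (PTime.id.pair (PTime.snd.comp h0))
    exact this
  refine (PTime.ite (PTime.fst.comp h0) h2 h1).of_eq fun a => ?_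
  cases f a <;> rfl

/-! ### Groups -/

theorem ptime_grpOf {K : α → ℕ} {c : α → TC} (hK : PTime K) (hc : PTime c) :
    PTime (fun x => grpOf (K x) (c x)) := by
  have e2 : PTime (fun p : α × (ℕ × (ℕ × ℕ)) => p.2) := PTime.snd
  have K1 : PTime (fun p : α × (ℕ × (ℕ × ℕ)) => K p.1 + 1) := (hK.comp PTime.fst).succ
  have e : PTime (fun p : α × (ℕ × (ℕ × ℕ)) => p.2.1) := PTime.fst.comp e2
  have f : PTime (fun p : α × (ℕ × (ℕ × ℕ)) => p.2.2.1) := PTime.fst.comp (PTime.snd.comp e2)
  have n : PTime (fun p : α × (ℕ × (ℕ × ℕ)) => p.2.2.2) := PTime.snd.comp (PTime.snd.comp e2)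
  have c0 : PTime (fun _ : α × (ℕ × (ℕ × ℕ)) => (0 : ℕ)) := PTime.const 0
  have c1 : PTime (fun _ : α × (ℕ × (ℕ × ℕ)) => (1 : ℕ)) := PTime.const 1
  have A1 : PTime (fun p : α × (ℕ × (ℕ × ℕ)) =>
      ([⟨0, 0, [p.2.2.1 + p.2.2.2]⟩, ⟨0, p.2.2.2, [K p.1 + 1, p.2.1]⟩,
        ⟨1, p.2.1 + p.2.2.2, [p.2.1 + p.2.2.2]⟩,
        ⟨1, p.2.2.1 + p.2.2.2, [K p.1 + 1, p.2.2.1]⟩] : List Pnt)) :=
    (ptime_pnt c0 c0 (ptime_list1 (f.add n))).cons ((ptime_pnt c0 n (ptime_list2 K1 e)).cons
      (ptime_list2 (ptime_pnt c1 (e.add n) (ptime_list1 (e.add n)))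
        (ptime_pnt c1 (f.add n) (ptime_list2 K1 f))))
  have A2 : PTime (fun p : α × (ℕ × (ℕ × ℕ)) =>
      ([⟨0, 0, [K p.1 + 1, p.2.2.1 + p.2.2.2]⟩, ⟨0, p.2.2.2, [p.2.1]⟩,
        ⟨1, p.2.2.1 + p.2.2.2, [K p.1 + 1, p.2.2.1]⟩,
        ⟨1, p.2.1 + p.2.2.2, [p.2.1 + p.2.2.2]⟩] : List Pnt)) :=
    (ptime_pnt c0 c0 (ptime_list2 K1 (f.add n))).cons ((ptime_pnt c0 n (ptime_list1 e)).cons
      (ptime_list2 (ptime_pnt c1 (f.add n) (ptime_list2 K1 f))
        (ptime_pnt c1 (e.add n) (ptime_list1 (e.add n)))))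
  have A := PTime.ite (ptime_lt e f) A1 A2
  have g : PTime (fun p : α × ℕ => p.2) := PTime.snd
  have v : ∀ i, PTime (fun p : α × ℕ => p.2 + i) := fun i => g.add (PTime.const i)
  have w : ∀ i, PTime (fun p : α × ℕ => i + 2 * p.2) := fun i =>
    (PTime.const i).add ((PTime.const 2).mul g)
  have K1' : PTime (fun p : α × ℕ => K p.1 + 1) := (hK.comp PTime.fst).succ
  have d : ∀ i, PTime (fun _ : α × ℕ => (i : ℕ)) := PTime.const
  have B : PTime (fun p : α × ℕ =>
      ([⟨0, 0, [p.2, p.2 + 2]⟩, ⟨1, p.2, [p.2 + 2]⟩, ⟨2, 2 + 2 * p.2, [p.2 + 1, K p.1 + 1]⟩,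
      ⟨2, 4 + 2 * p.2, [p.2 + 4]⟩] : List Pnt)) :=
    (ptime_pnt (d 0) (d 0) (ptime_list2 g (v 2))).cons ((ptime_pnt (d 1) g
      (ptime_list1 (v 2))).cons (ptime_list2 (ptime_pnt (d 2) (w 2) (ptime_list2 (v 1) K1'))
        (ptime_pnt (d 2) (w 4) (ptime_list1 (v 4)))))
  have C : PTime (fun p : α × ℕ =>
      ([⟨0, 0, [p.2 + 1]⟩, ⟨1, p.2, [p.2, p.2 + 4]⟩, ⟨2, 2 + 2 * p.2, [p.2 + 2]⟩,
      ⟨2, 4 + 2 * p.2, [K p.1 + 1, p.2 + 2]⟩] : List Pnt)) :=
    (ptime_pnt (d 0) (d 0) (ptime_list1 (v 1))).cons ((ptime_pnt (d 1) g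
      (ptime_list2 g (v 4))).cons (ptime_list2 (ptime_pnt (d 2) (w 2) (ptime_list1 (v 2)))
        (ptime_pnt (d 2) (w 4) (ptime_list2 K1' (v 2)))))
  refine (ptime_tc_cases hc
    (A := fun x e f n => if decide (e < f) = true then
        ([⟨0, 0, [f + n]⟩, ⟨0, n, [K x + 1, e]⟩, ⟨1, e + n, [e + n]⟩,
          ⟨1, f + n, [K x + 1, f]⟩] : List Pnt) else
        [⟨0, 0, [K x + 1, f + n]⟩, ⟨0, n, [e]⟩, ⟨1, f + n, [K x + 1, f]⟩, ⟨1, e + n, [e + n]⟩])
    (B := fun x g => grpOf (K x) (.mulL g))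
    (C := fun x g => grpOf (K x) (.mulG g)) A B C).of_eq fun x => ?_
  cases c x
  · simp only [grpOf, decide_eq_true_eq]
  · rfl
  · rfl

theorem ptime_groups {K : α → ℕ} {cs : α → List TC} (hK : PTime K) (hcs : PTime cs) :
    PTime (fun x => groups (K x) (cs x)) := by
  have h1 : PTime (fun _ : α => ([⟨1, 0, []⟩, ⟨0, 1, []⟩] : List Pnt)) := PTime.const _
  have h2 : PTime (fun x => (List.range (K x + 1)).map fun c =>
      ([⟨0, 0, []⟩, ⟨2, 2 * c + 1, []⟩] : List Pnt)) := by
    have e : PTime (fun p : α × ℕ => 2 * p.2 + 1) := ((PTime.const 2).mul PTime.snd).succ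
    exact PTime.map (g := fun (_ : α) (c : ℕ) => ([⟨0, 0, []⟩, ⟨2, 2 * c + 1, []⟩] : List Pnt))
      (PTime.range hK.succ) (ptime_list2 (PTime.const _) (ptime_pnt (PTime.const 2) e
        (PTime.const [])))
  have h3 : PTime (fun x => (cs x).map (grpOf (K x))) :=
    PTime.map (g := fun (x : α) (c : TC) => grpOf (K x) c) hcs
      (ptime_grpOf (hK.comp PTime.fst) PTime.snd)
  exact (h1.cons (h2.append h3)).of_eq fun x => by simp [groups]

/-! ### Numbers -/

theorem ptime_pow {f : α → ℕ} (hf : PTime f) (n : ℕ) : PTime (fun x => f x ^ n) := by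
  induction n with
  | zero => exact (PTime.const 1).of_eq fun x => by simp
  | succ n ih => exact (ih.mul hf).of_eq fun x => by rw [pow_succ]

theorem ptime_NN {K : α → ℕ} (hK : PTime K) : PTime (fun x => NN (K x)) :=
  (PTime.const 100).mul (hK.add (PTime.const 10))

theorem ptime_sloN {K c : α → ℕ} (hK : PTime K) (hc : PTime c) :
    PTime (fun x => sloN (K x) (c x)) :=
  (PTime.ite (PTime.eq hc hK.succ) (ptime_pow (ptime_NN hK) 8) hc).of_eq fun x => by
    simp only [sloN, decide_eq_true_eq]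

theorem ptime_colP {K p : α → ℕ} (hK : PTime K) (hp : PTime p) :
    PTime (fun x => colP (K x) (p x)) :=
  (PTime.ite (PTime.eq hp (PTime.const 0)) (ptime_pow (ptime_NN hK) 2)
    (PTime.ite (PTime.eq hp (PTime.const 2)) (ptime_pow (ptime_NN hK) 4)
      (PTime.const 0))).of_eq fun x => by
    simp only [colP, decide_eq_true_eq]

theorem ptime_colN {K p : α → ℕ} (hK : PTime K) (hp : PTime p) :
    PTime (fun x => colN (K x) (p x)) :=
  (PTime.ite (PTime.eq hp (PTime.const 0)) (PTime.const 0)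
    (PTime.ite (PTime.eq hp (PTime.const 2)) (PTime.const 0)
      (PTime.ite (PTime.eq hp (PTime.const 1)) (ptime_pow (ptime_NN hK) 3)
        (ptime_pow (ptime_NN hK) 5)))).of_eq fun x => by
    simp only [colN, decide_eq_true_eq]

theorem ptime_orig {K g s j : α → ℕ} (hK : PTime K) (hg : PTime g) (hs : PTime s)
    (hj : PTime j) : PTime (fun x => orig (K x) (g x) (s x) (j x)) :=
  (ptime_pow (ptime_NN hK) 15).mul ((((hg.add (PTime.const 2)).mul hs).add hj).add
    (PTime.const 2))

theorem ptime_zones {K : α → ℕ} (hK : PTime K) : PTime (fun x => zones (K x)) :=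
  ptime_pow (ptime_NN hK) 18

theorem ptime_rows {K g : α → ℕ} (hK : PTime K) (hg : PTime g) :
    PTime (fun x => rows (K x) (g x)) :=
  (ptime_pow (ptime_NN hK) 15).mul (((hg.add (PTime.const 2)).mul (ptime_zones hK)).add
    (PTime.const 2))

/-! ### Access to lists -/

theorem find_zipIdx {γ : Type} (l : List γ) (i n : ℕ) (h : n ≤ i) :
    (l.zipIdx n).find? (fun p => decide (p.2 = i)) = (l[i - n]?).map fun x => (x, i) := by
  induction l generalizing n with
  | nil => simp
  | cons x l ih =>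
    rw [List.zipIdx_cons, List.find?_cons]
    by_cases hi : n = i
    · subst hi
      simp
    · have h1 : decide ((x, n).2 = i) = false := by simpa using hi
      rw [h1]
      simp only
      rw [ih (n + 1) (by omega)]
      have h2 : i - n = (i - (n + 1)) + 1 := by omega
      rw [h2, List.getElem?_cons_succ]

theorem ptime_getD {f : α → List β} {i : α → ℕ} {d : α → β} (hf : PTime f) (hi : PTime i)
    (hd : PTime d) : PTime (fun x => (f x).getD (i x) (d x)) := by
  have h1 : PTime (fun x => (f x).zipIdx.find? (fun p => decide (p.2 = i x))) := by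
    have e : PTime (fun p : α × (β × ℕ) => p.2) := PTime.snd
    exact PTime.find? (g := fun (x : α) (p : β × ℕ) => decide (p.2 = i x)) hf.zipIdx
      (PTime.eq (PTime.snd.comp e) (hi.comp PTime.fst))
  have h2 : PTime (fun x => ((f x).zipIdx.find? (fun p => decide (p.2 = i x))).map Prod.fst) := by
    have e : PTime (fun p : α × (β × ℕ) => p.2) := PTime.snd
    exact PTime.omap (g := fun (_ : α) (p : β × ℕ) => p.1) h1 (PTime.fst.comp e)
  refine (PTime.getD h2 hd).of_eq fun x => ?_
  rw [find_zipIdx (f x) (i x) 0 (Nat.zero_le _), List.getD_eq_getElem?_getD]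
  cases (f x)[i x - 0]? <;> rfl

theorem ptime_pnt_get {G : α → List (List Pnt)} {j i : α → ℕ} (hG : PTime G) (hj : PTime j)
    (hi : PTime i) : PTime (fun x => pnt (G x) (j x) (i x)) :=
  ptime_getD (ptime_getD hG hj (PTime.const [])) hi (PTime.const (⟨0, 0, []⟩ : Pnt))

/-! ### Labels and keys -/

theorem mod_two_eq (p : ℕ) :
    p % 2 = if ((List.range (p + 1)).any fun q => decide (q + q = p)) = true then 0 else 1 := by
  split_ifs with h
  · obtain ⟨q, _, hq⟩ := List.any_eq_true.1 h
    rw [decide_eq_true_iff] at hq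
    omega
  · by_contra hcon
    apply h
    refine List.any_eq_true.2 ⟨p / 2, List.mem_range.2 (by omega), ?_⟩
    rw [decide_eq_true_iff]
    omega

theorem ptime_lab {w : α → Elt} (hw : PTime w) : PTime (fun x => (w x).lab) := by
  have e : PTime (fun p : α × (ℕ × ℕ) => p.2.2) := PTime.snd.comp PTime.snd
  have A : PTime (fun p : α × (ℕ × ℕ) => p.2.2 % 2) := by
    have h1 : PTime (fun p : α × (ℕ × ℕ) => (List.range (p.2.2 + 1)).any
        fun q => decide (q + q = p.2.2)) :=
      PTime.any (g := fun (p : α × (ℕ × ℕ)) (q : ℕ) => decide (q + q = p.2.2))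
        (PTime.range e.succ) (PTime.eq ((PTime.snd (β := ℕ)).add PTime.snd) (e.comp PTime.fst))
    exact (PTime.ite h1 (PTime.const 0) (PTime.const 1)).of_eq fun p => (mod_two_eq _).symm
  refine (ptime_elt_cases hw (A := fun _ _ p => p % 2) (B := fun _ _ _ _ => 2) A
    (PTime.const 2)).of_eq fun x => ?_
  cases w x <;> rfl

theorem ptime_posK {K c : α → ℕ} {G : α → List (List Pnt)} {w : α → Elt} (hK : PTime K)
    (hG : PTime G) (hc : PTime c) (hw : PTime w) :
    PTime (fun x => posK (K x) (G x) (c x) (w x)) := by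
  have A : PTime (fun p : α × (ℕ × ℕ) =>
      8 * (p.2.1 + sloN (K p.1) (c p.1) * colN (K p.1) p.2.2) + p.2.2) := by
    have e2 : PTime (fun p : α × (ℕ × ℕ) => p.2) := PTime.snd
    have a : PTime (fun p : α × (ℕ × ℕ) => p.2.1) := PTime.fst.comp e2
    have q : PTime (fun p : α × (ℕ × ℕ) => p.2.2) := PTime.snd.comp e2
    exact (((PTime.const 8).mul (a.add ((ptime_sloN (hK.comp PTime.fst) (hc.comp PTime.fst)).mul
      (ptime_colN (hK.comp PTime.fst) q))))).add q
  have B : PTime (fun p : α × (ℕ × (ℕ × ℕ)) =>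
      8 * (orig (K p.1) (G p.1).length p.2.1 p.2.2.1 +
        (if decide (c p.1 = K p.1 + 1) = true then 0 else (pnt (G p.1) p.2.2.1 p.2.2.2).Y)) +
      (if decide (c p.1 ∈ (pnt (G p.1) p.2.2.1 p.2.2.2).sec) = true then 5 else 4)) := by
    have e2 : PTime (fun p : α × (ℕ × (ℕ × ℕ)) => p.2) := PTime.snd
    have s : PTime (fun p : α × (ℕ × (ℕ × ℕ)) => p.2.1) := PTime.fst.comp e2
    have j : PTime (fun p : α × (ℕ × (ℕ × ℕ)) => p.2.2.1) :=
      PTime.fst.comp (PTime.snd.comp e2)
    have i : PTime (fun p : α × (ℕ × (ℕ × ℕ)) => p.2.2.2) :=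
      PTime.snd.comp (PTime.snd.comp e2)
    have K' : PTime (fun p : α × (ℕ × (ℕ × ℕ)) => K p.1) := hK.comp PTime.fst
    have c' : PTime (fun p : α × (ℕ × (ℕ × ℕ)) => c p.1) := hc.comp PTime.fst
    have G' : PTime (fun p : α × (ℕ × (ℕ × ℕ)) => G p.1) := hG.comp PTime.fst
    have P : PTime (fun p : α × (ℕ × (ℕ × ℕ)) => pnt (G p.1) p.2.2.1 p.2.2.2) :=
      ptime_pnt_get G' j i
    exact ((PTime.const 8).mul ((ptime_orig K' G'.length s j).add
      (PTime.ite (PTime.eq c' K'.succ) (PTime.const 0) (ptime_pnt_Y P)))).add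
      (PTime.ite (PTime.mem c' (ptime_pnt_sec P)) (PTime.const 5) (PTime.const 4))
  refine (ptime_elt_cases hw
    (A := fun x a p => 8 * (a + sloN (K x) (c x) * colN (K x) p) + p)
    (B := fun x s j i => 8 * (orig (K x) (G x).length s j +
        (if decide (c x = K x + 1) = true then 0 else (pnt (G x) j i).Y)) +
      (if decide (c x ∈ (pnt (G x) j i).sec) = true then 5 else 4)) A B).of_eq fun x => ?_
  cases w x
  · rfl
  · simp only [posK, decide_eq_true_eq]

theorem ptime_negK {K c : α → ℕ} {G : α → List (List Pnt)} {w : α → Elt} (hK : PTime K)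
    (hG : PTime G) (hc : PTime c) (hw : PTime w) :
    PTime (fun x => negK (K x) (G x) (c x) (w x)) := by
  have A : PTime (fun p : α × (ℕ × ℕ) =>
      8 * (sloN (K p.1) (c p.1) * colP (K p.1) p.2.2)) := by
    have q : PTime (fun p : α × (ℕ × ℕ) => p.2.2) := PTime.snd.comp PTime.snd
    exact ((PTime.const 8).mul ((ptime_sloN (hK.comp PTime.fst) (hc.comp PTime.fst)).mul
      (ptime_colP (hK.comp PTime.fst) q)))
  have B : PTime (fun p : α × (ℕ × (ℕ × ℕ)) =>
      8 * (sloN (K p.1) (c p.1) * (pnt (G p.1) p.2.2.1 p.2.2.2).X)) := by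
    have e2 : PTime (fun p : α × (ℕ × (ℕ × ℕ)) => p.2) := PTime.snd
    have j : PTime (fun p : α × (ℕ × (ℕ × ℕ)) => p.2.2.1) :=
      PTime.fst.comp (PTime.snd.comp e2)
    have i : PTime (fun p : α × (ℕ × (ℕ × ℕ)) => p.2.2.2) :=
      PTime.snd.comp (PTime.snd.comp e2)
    exact ((PTime.const 8).mul ((ptime_sloN (hK.comp PTime.fst) (hc.comp PTime.fst)).mul
      (ptime_pnt_X (ptime_pnt_get (hG.comp PTime.fst) j i))))
  refine (ptime_elt_cases hw
    (A := fun x _ p => 8 * (sloN (K x) (c x) * colP (K x) p))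
    (B := fun x _ j i => 8 * (sloN (K x) (c x) * (pnt (G x) j i).X)) A B).of_eq fun x => ?_
  cases w x <;> rfl

theorem ptime_ltB {K c : α → ℕ} {G : α → List (List Pnt)} {w w' : α → Elt} (hK : PTime K)
    (hG : PTime G) (hc : PTime c) (hw : PTime w) (hw' : PTime w') :
    PTime (fun x => ltB (K x) (G x) (c x) (w x) (w' x)) :=
  ptime_lt ((ptime_posK hK hG hc hw).add (ptime_negK hK hG hc hw'))
    ((ptime_posK hK hG hc hw').add (ptime_negK hK hG hc hw))

/-! ### Adjacency -/

theorem ptime_consB {K c : α → ℕ} {G : α → List (List Pnt)} {E : α → List Elt} {w w' : α → Elt}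
    (hK : PTime K) (hG : PTime G) (hE : PTime E) (hc : PTime c) (hw : PTime w)
    (hw' : PTime w') : PTime (fun x => consB (K x) (G x) (E x) (c x) (w x) (w' x)) := by
  have h : PTime (fun x => (E x).all fun z =>
      !(ltB (K x) (G x) (c x) (w x) z && ltB (K x) (G x) (c x) z (w' x))) :=
    PTime.all (g := fun (x : α) (z : Elt) =>
        !(ltB (K x) (G x) (c x) (w x) z && ltB (K x) (G x) (c x) z (w' x))) hE
      ((ptime_ltB (hK.comp PTime.fst) (hG.comp PTime.fst) (hc.comp PTime.fst)
        (hw.comp PTime.fst) PTime.snd).and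
        (ptime_ltB (hK.comp PTime.fst) (hG.comp PTime.fst) (hc.comp PTime.fst) PTime.snd
          (hw'.comp PTime.fst))).not
  exact (ptime_ltB hK hG hc hw hw').and h

theorem ptime_innerB {K c : α → ℕ} {G : α → List (List Pnt)} {E : α → List Elt}
    {w w' : α → Elt} (hK : PTime K) (hG : PTime G) (hE : PTime E) (hc : PTime c)
    (hw : PTime w) (hw' : PTime w') :
    PTime (fun x => innerB (K x) (G x) (E x) (c x) (w x) (w' x)) := by
  have m : PTime (fun p : α × Elt => p.2) := PTime.snd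
  have lm : PTime (fun p : α × Elt => p.2.lab) := ptime_lab m
  have h : PTime (fun p : α × Elt =>
      (!(decide (p.2.lab = 2)) && !(decide (p.2.lab = (w p.1).lab))) &&
        (!(decide (p.2.lab = (w' p.1).lab)) &&
          (consB (K p.1) (G p.1) (E p.1) (c p.1) (w p.1) p.2 &&
            consB (K p.1) (G p.1) (E p.1) (c p.1) p.2 (w' p.1)))) :=
    ((PTime.eq lm (PTime.const 2)).not.and
      (PTime.eq lm (ptime_lab (hw.comp PTime.fst))).not).and
      ((PTime.eq lm (ptime_lab (hw'.comp PTime.fst))).not.and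
        ((ptime_consB (hK.comp PTime.fst) (hG.comp PTime.fst) (hE.comp PTime.fst)
          (hc.comp PTime.fst) (hw.comp PTime.fst) m).and
          (ptime_consB (hK.comp PTime.fst) (hG.comp PTime.fst) (hE.comp PTime.fst)
          (hc.comp PTime.fst) m (hw'.comp PTime.fst))))
  have h2 := PTime.any (g := fun (x : α) (m : Elt) =>
      (!(decide (m.lab = 2)) && !(decide (m.lab = (w x).lab))) &&
        (!(decide (m.lab = (w' x).lab)) &&
          (consB (K x) (G x) (E x) (c x) (w x) m &&
            consB (K x) (G x) (E x) (c x) m (w' x)))) hE h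
  exact (ptime_consB hK hG hE hc hw hw').or h2

theorem ptime_stripB {K : α → ℕ} {G : α → List (List Pnt)} {E : α → List Elt}
    {v v' : α → VC} (hK : PTime K) (hG : PTime G) (hE : PTime E) (hv : PTime v)
    (hv' : PTime v') : PTime (fun x => stripB (K x) (G x) (E x) (v x) (v' x)) := by
  have t : PTime (fun x => (v x).1) := PTime.fst.comp hv
  have t' : PTime (fun x => (v' x).1) := PTime.fst.comp hv'
  have w : PTime (fun x => (v x).2.1) := PTime.fst.comp (PTime.snd.comp hv)
  have w' : PTime (fun x => (v' x).2.1) := PTime.fst.comp (PTime.snd.comp hv')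
  have b' : PTime (fun x => (v' x).2.2.2) :=
    PTime.snd.comp (PTime.snd.comp (PTime.snd.comp hv'))
  have h := PTime.any (g := fun (x : α) (c : ℕ) =>
      innerB (K x) (G x) (E x) c (v x).2.1 (v' x).2.1) (PTime.range (hK.add (PTime.const 2)))
    (ptime_innerB (hK.comp PTime.fst) (hG.comp PTime.fst) (hE.comp PTime.fst) PTime.snd
      (w.comp PTime.fst) (w'.comp PTime.fst))
  exact PTime.ite t (PTime.const false) (PTime.ite t'
    (PTime.ite b' (PTime.eq (ptime_lab w) (PTime.const 1)).not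
      (PTime.eq (ptime_lab w) (PTime.const 0)).not) h)

theorem ptime_adjB {K : α → ℕ} {G : α → List (List Pnt)} {E : α → List Elt}
    {v v' : α → VC} (hK : PTime K) (hG : PTime G) (hE : PTime E) (hv : PTime v)
    (hv' : PTime v') : PTime (fun x => adjB (K x) (G x) (E x) (v x) (v' x)) :=
  (PTime.eq hv hv').not.and ((ptime_stripB hK hG hE hv hv').or (ptime_stripB hK hG hE hv' hv))

/-! ### Lists of elements and vertices -/

theorem ptime_elts {K : α → ℕ} {G : α → List (List Pnt)} (hK : PTime K) (hG : PTime G) :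
    PTime (fun x => elts (K x) (G x)) := by
  have h1 : PTime (fun x => (List.range (rows (K x) (G x).length)).flatMap fun a =>
      (List.range 4).map fun p => Elt.dum a p) := by
    have h2 : PTime₂ (fun (_ : α) (a : ℕ) => (List.range 4).map fun p => Elt.dum a p) := by
      exact PTime.map (f := fun _ : α × ℕ => List.range 4)
        (g := fun (x : α × ℕ) (p : ℕ) => Elt.dum x.2 p) (PTime.const _)
        (ptime_dum (PTime.snd.comp PTime.fst) PTime.snd)
    exact PTime.flatMap (PTime.range (ptime_rows hK hG.length)) h2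
  have h2 : PTime (fun x => (List.range (zones (K x))).flatMap fun s =>
      (G x).zipIdx.flatMap fun q => (List.range q.1.length).map fun i => Elt.rep s q.2 i) := by
    have h3 : PTime₂ (fun (x : α × ℕ) (q : List Pnt × ℕ) =>
        (List.range q.1.length).map fun i => Elt.rep x.2 q.2 i) := by
      have e : PTime (fun p : (α × ℕ) × (List Pnt × ℕ) => p.2.1) := PTime.fst.comp PTime.snd
      have e' : PTime (fun p : ((α × ℕ) × (List Pnt × ℕ)) × ℕ => p.1) := PTime.fst
      exact PTime.map (f := fun p : (α × ℕ) × (List Pnt × ℕ) => List.range p.2.1.length)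
        (g := fun (p : (α × ℕ) × (List Pnt × ℕ)) (i : ℕ) => Elt.rep p.1.2 p.2.2 i)
        (PTime.range e.length)
        (ptime_rep (PTime.snd.comp (PTime.fst.comp e')) (PTime.snd.comp (PTime.snd.comp e'))
          PTime.snd)
    have h4 : PTime₂ (fun (x : α) (s : ℕ) => (G x).zipIdx.flatMap fun q =>
        (List.range q.1.length).map fun i => Elt.rep s q.2 i) :=
      PTime.flatMap (f := fun x : α × ℕ => (G x.1).zipIdx)
        (g := fun (x : α × ℕ) (q : List Pnt × ℕ) =>
          (List.range q.1.length).map fun i => Elt.rep x.2 q.2 i)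
        (hG.comp PTime.fst).zipIdx h3
    exact PTime.flatMap (PTime.range (ptime_zones hK)) h4
  exact h1.append h2

theorem ptime_VL {K : α → ℕ} {E : α → List Elt} (hK : PTime K) (hE : PTime E) :
    PTime (fun x => VL (K x) (E x)) := by
  have h1 : PTime (fun x => (E x).map fun w => ((false, (w, (0, false))) : VC)) :=
    PTime.map (g := fun (_ : α) (w : Elt) => ((false, (w, (0, false))) : VC)) hE
      ((PTime.const false).pair (PTime.snd.pair (PTime.const (0, false))))
  have h2 : PTime (fun x => (List.range (K x + 2)).flatMap fun c =>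
      [((true, (Elt.dum 0 0, (c, true))) : VC), (true, (Elt.dum 0 0, (c, false)))]) :=
    PTime.flatMap (g := fun (_ : α) (c : ℕ) =>
      [((true, (Elt.dum 0 0, (c, true))) : VC), (true, (Elt.dum 0 0, (c, false)))])
      (PTime.range (hK.add (PTime.const 2)))
      (ptime_list2 ((PTime.const true).pair ((PTime.const (Elt.dum 0 0)).pair
        (PTime.snd.pair (PTime.const true)))) ((PTime.const true).pair
          ((PTime.const (Elt.dum 0 0)).pair (PTime.snd.pair (PTime.const false)))))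
  exact h1.append h2

theorem ptime_trues {f : α → ℕ} (hf : PTime f) : PTime (fun x => List.replicate (f x) true) :=
  (PTime.map (g := fun (_ : α) (_ : ℕ) => true) (PTime.range hf) (PTime.const true)).of_eq
    fun x => by simp

theorem ptime_gword {K : α → ℕ} {G : α → List (List Pnt)} {E : α → List Elt}
    {V : α → List VC} (hK : PTime K) (hG : PTime G) (hE : PTime E) (hV : PTime V) :
    PTime (fun x => gword (K x) (G x) (E x) (V x)) := by
  have h1 : PTime₂ (fun (x : α) (v : VC) => (V x).map fun v' => adjB (K x) (G x) (E x) v v') := by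
    exact PTime.map (f := fun p : α × VC => V p.1)
      (g := fun (p : α × VC) (v' : VC) => adjB (K p.1) (G p.1) (E p.1) p.2 v')
      (hV.comp PTime.fst)
      (ptime_adjB (hK.comp (PTime.fst.comp PTime.fst)) (hG.comp (PTime.fst.comp PTime.fst))
        (hE.comp (PTime.fst.comp PTime.fst)) (PTime.snd.comp PTime.fst) PTime.snd)
  exact ((ptime_trues hV.length).append ((PTime.const false).cons (PTime.flatMap hV h1))).append
    (ptime_trues (hK.add (PTime.const 2)))

end

end Word

theorem graph_word : ∃ H : ℕ × List TC → List Bool, PTime H ∧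
    ∀ K cs, (H (K, cs) ∈ GT ↔ GeometricThicknessLE (instGraph K cs) (K + 2)) := by
  have hK : PTime (fun x : ℕ × List TC => x.1) := PTime.fst
  have hG : PTime (fun x : ℕ × List TC => groups x.1 x.2) := Word.ptime_groups hK PTime.snd
  have hE : PTime (fun x : ℕ × List TC => elts x.1 (groups x.1 x.2)) := Word.ptime_elts hK hG
  exact ⟨fun x => Word.gword x.1 (groups x.1 x.2) (elts x.1 (groups x.1 x.2))
    (Word.VL x.1 (elts x.1 (groups x.1 x.2))), Word.ptime_gword hK hG hE (Word.ptime_VL hK hE),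
    fun K cs => Word.gword_mem K (groups K cs)⟩

end Pool.Agent.Lib.MP_612bca_lc
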