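import Pool.Agent.Lib.MP_612bca_lc.StripSound
import Pool.Agent.Lib.MP_612bca_lc.StripDrawing
import Pool.Agent.Lib.MP_612bca_lc.GroupsSound
import Pool.Agent.Lib.MP_612bca_lc.Sys
import Pool.Agent.Lib.MP_612bca_lc.Bound
import Pool.Agent.Lib.MP_612bca_lc.Quant
import Pool.Agent.Lib.MP_612bca_lc.Slope
import Pool.Agent.Lib.MP_612bca_lc.Parse
import Pool.Agent.Lib.MP_612bca_lc.PTimeAlg
import Pool.Agent.Lib.MP_612bca_lc.Word
import Pool.Agent.Lib.MP_612bca_lc.Machine

/-!
# Geometric thickness is hard for the existential theory of the reals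
-/

namespace Pool.Agent.Lib.MP_612bca_lc

open Pool.Agent.PolyTime

attribute [local irreducible] NN

theorem quantNum_pos (n L : ℕ) (S : List Con) : 1 ≤ quantNum n L S := by
  unfold quantNum auxBase
  omega

theorem instCs_wf (φ : Formula) : ∀ c ∈ instCs φ.toks, c.WF (instK φ.toks) :=
  slopeSys_wf _ _ (quantNum_pos _ _ _)
    (quantSys_wf _ _ _ (boundSys_below _ _ (sysOf_below φ)))

/-- Correctness of the reduction. -/
theorem thickness_iff (φ : Formula) :
    GeometricThicknessLE (instGraph (instK φ.toks) (instCs φ.toks)) (instK φ.toks + 2) ↔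
      φ.Satisfiable := by
  have hS := sysOf_below φ
  have hB := boundSys_below _ _ hS
  have hQ := quantSys_wf (bNum φ.toks) (bExp φ.toks) (bSys φ.toks) hB
  have hn := quantNum_pos (bNum φ.toks) (bExp φ.toks) (bSys φ.toks)
  have hcs := instCs_wf φ
  rw [← sysOf_iff]
  constructor
  · intro h
    obtain ⟨d, pos, hd⟩ := strip_sound _ _ (groups_good _ _ hcs) h
    have h1 := groups_sound _ _ hcs d pos hd
    obtain ⟨x, hx0, hx⟩ := slopeSys_sound _ _ hn hQ h1
    exact boundSys_sound _ _ hS (quantSys_sound _ _ _ hB x hx0 hx)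
  · intro h
    obtain ⟨z, hz, hz1⟩ := boundSys_complete _ _ hS h
    exact strip_drawing _ _ hcs (slopeSys_complete _ _ hn hQ fun δ hδ =>
      quantSys_complete _ _ _ hB z hz hz1 δ hδ)

theorem hard_GT : ExistsRHard GT := by
  intro L' hL'
  obtain ⟨g, hg, hgL⟩ := hL'
  obtain ⟨P, hP, hP'⟩ := parse_exists
  obtain ⟨H, hH, hH'⟩ := graph_word
  refine ⟨fun x => H (instK (P (g x)), instCs (P (g x))), ?_, ?_⟩
  · rw [CookLevin.polyTimeComputable_iff] at hg ⊢
    exact hH.comp (inst_ptime.comp (hP.comp hg))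
  · intro x
    obtain ⟨φ, h1, h2⟩ := hgL x
    rw [h2, hH', h1, hP', thickness_iff]

end Pool.Agent.Lib.MP_612bca_lc
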