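import Pool.Agent.Lib.MP_612bca_lc.GeoDefs

/-!
# Plane straight-line graphs and their empty triangles: definitions
-/

namespace Pool.Agent.Lib.MP_612bca_lc

/-- The relation `A` (adjacency) drawn by `p` is a plane straight-line graph; distinct vertices have
distinct abscissae. -/
structure Plane {V : Type*} (p : V → ℝ × ℝ) (A : V → V → Prop) : Prop where
  symm : ∀ a b, A a b → A b a
  irrefl : ∀ a, ¬ A a a
  xinj : ∀ a b, (p a).1 = (p b).1 → a = b
  avoid : ∀ a b c, A a b → p c ∈ segment ℝ (p a) (p b) → c = a ∨ c = b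
  nocross : ∀ a b c d, A a b → A c d → s(a, b) ≠ s(c, d) → ¬ EdgesCross p a b c d

/-- `x, y, z` is a counterclockwise triangle of the graph which contains no other non-isolated
vertex of the graph. -/
def Tri {V : Type*} (p : V → ℝ × ℝ) (A : V → V → Prop) (x y z : V) : Prop :=
  A x y ∧ A y z ∧ A z x ∧ 0 < ori (p x) (p y) (p z) ∧
    ∀ w, (∃ w', A w w') → w ≠ x → w ≠ y → w ≠ z → p w ∉ convexHull ℝ {p x, p y, p z}

/-- Edges of colour `κ`. -/
def ColAdj {V : Type*} (G : SimpleGraph V) (col : Sym2 V → ℕ) (κ : ℕ) (x y : V) : Prop :=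
  G.Adj x y ∧ col s(x, y) = κ

/-- The vertex `w` is good: in each colour it is not isolated and each of its edges has an empty
triangle on both sides. -/
def Good {V : Type*} (G : SimpleGraph V) (k : ℕ) (p : V → ℝ × ℝ) (col : Sym2 V → ℕ) (w : V) : Prop :=
  ∀ κ < k, (∃ l, ColAdj G col κ w l) ∧
    ∀ l, ColAdj G col κ w l → (∃ z, Tri p (ColAdj G col κ) w l z) ∧
      (∃ z, Tri p (ColAdj G col κ) l w z)

/-- A drawing with a colouring, and with distinct abscissae. -/
structure ColDrawing {V : Type*} (G : SimpleGraph V) (k : ℕ) (p : V → ℝ × ℝ) (col : Sym2 V → ℕ) :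
    Prop where
  lt : ∀ x y, G.Adj x y → col s(x, y) < k
  plane : ∀ κ, Plane p (ColAdj G col κ)

/-! ### Properties of the groups used in the soundness proof -/

/-- The points number `i` and `i'` of the group are different and at the same level in
class `c`. -/
def TiedIn (K : ℕ) (g : List Pnt) (c i i' : ℕ) : Prop :=
  i ≠ i' ∧ ∃ P P', g[i]? = some P ∧ g[i']? = some P' ∧ P.lev K c = P'.lev K c

/-- Properties of a group of points. -/
structure GoodGroup (K : ℕ) (g : List Pnt) : Prop where
  X_le : ∀ P ∈ g, P.X ≤ 2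
  Y_le : ∀ P ∈ g, P.Y ≤ 2 * K + 4
  /-- of two points at the same level in class `c` exactly one is marked as second -/
  sec_iff : ∀ (c i i' : ℕ) (P P' : Pnt), c ≤ K + 1 → TiedIn K g c i i' → g[i]? = some P →
    g[i']? = some P' → (c ∈ P.sec ↔ c ∉ P'.sec)
  /-- two points are at the same level in at most one class -/
  tied_unique : ∀ c c' i i' : ℕ, c ≤ K + 1 → c' ≤ K + 1 → TiedIn K g c i i' → TiedIn K g c' i i' →
    c = c'
  /-- the colours of the edges between tied points are forced: suppose that for each `i` and each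
  class `c` in which `i` is tied, `f i c` is a point tied with `i` in some class, and tied with
  some point in class `c`, and that `f i` is injective; then `i` and `f i c` are tied in
  class `c` -/
  forced : ∀ f : ℕ → ℕ → ℕ,
    (∀ c i i' : ℕ, c ≤ K + 1 → TiedIn K g c i i' →
      (∃ c' ≤ K + 1, TiedIn K g c' i (f i c)) ∧ ∃ i'', TiedIn K g c (f i c) i'') →
    (∀ c c' i i' i'' : ℕ, c ≤ K + 1 → c' ≤ K + 1 → TiedIn K g c i i' → TiedIn K g c' i i'' →
      f i c = f i c' → c = c') →
    ∀ c i i' : ℕ, c ≤ K + 1 → TiedIn K g c i i' → f i c = i'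

end Pool.Agent.Lib.MP_612bca_lc
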