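import Pool.Agent.Lib.MP_612bca_lc.LocalDefs

/-!
# Ranks of the elements in a class
-/

namespace Pool.Agent.Lib.MP_612bca_lc

section rank

variable {ι : Type*} [Fintype ι] {k : ℕ} {lab : ι → ℕ} {key : Fin k → ι → ℤ} {c : Fin k}

open Classical in
/-- Number of elements before `w` in class `c`. -/
noncomputable def rk (key : Fin k → ι → ℤ) (c : Fin k) (w : ι) : ℕ :=
  (Finset.univ.filter fun z => key c z < key c w).card

theorem rk_lt {w w' : ι} (h : key c w < key c w') : rk key c w < rk key c w' := by
  classical
  apply Finset.card_lt_card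
  refine ⟨fun z hz => ?_, fun hcon => ?_⟩
  · simp only [Finset.mem_filter, Finset.mem_univ, true_and] at hz ⊢
    omega
  · have := hcon (show w ∈ _ by simpa using h)
    simp at this

theorem rk_inj (hk : Function.Injective (key c)) {w w' : ι} (h : rk key c w = rk key c w') :
    w = w' := by
  rcases lt_trichotomy (key c w) (key c w') with h1 | h1 | h1
  · have := rk_lt h1; omega
  · exact hk h1
  · have := rk_lt h1; omega

theorem rk_cons (hk : Function.Injective (key c)) {w w' : ι} (h : Cons key c w w') :
    rk key c w' = rk key c w + 1 := by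
  classical
  unfold rk
  rw [← Finset.card_insert_of_notMem (s := Finset.univ.filter fun z => key c z < key c w) (a := w)
    (by simp)]
  congr 1
  ext z
  simp only [Finset.mem_filter, Finset.mem_univ, true_and, Finset.mem_insert]
  constructor
  · intro hz
    by_contra hcon
    push Not at hcon
    refine h.2 z ⟨lt_of_le_of_ne hcon.2 fun he => hcon.1 (hk he).symm, hz⟩
  · rintro (rfl | hz)
    · exact h.1
    · have := h.1; omega

theorem rk_inner (hk : Function.Injective (key c)) {w l : ι} (h : InnerEdge lab key c w l) :
    rk key c l = rk key c w + 1 ∨ rk key c l = rk key c w + 2 := by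
  rcases h with h | ⟨m, _, _, _, h1, h2⟩
  · exact Or.inl (rk_cons hk h)
  · have := rk_cons hk h1
    have := rk_cons hk h2
    omega

theorem cons_unique (hk : Function.Injective (key c)) {w a b : ι} (h1 : Cons key c w a)
    (h2 : Cons key c w b) : a = b :=
  rk_inj hk (by rw [rk_cons hk h1, rk_cons hk h2])

theorem cons_unique' (hk : Function.Injective (key c)) {w a b : ι} (h1 : Cons key c a w)
    (h2 : Cons key c b w) : a = b :=
  rk_inj hk (by have := rk_cons hk h1; have := rk_cons hk h2; omega)

theorem exists_succ {w z : ι} (h : key c w < key c z) : ∃ su, Cons key c w su ∧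
    key c su ≤ key c z := by
  classical
  obtain ⟨m, hm, hmin⟩ := Finset.exists_min_image (Finset.univ.filter fun z => key c w < key c z)
    (key c) ⟨z, by simpa using h⟩
  simp only [Finset.mem_filter, Finset.mem_univ, true_and] at hm hmin
  exact ⟨m, ⟨hm, fun y hy => by have := hmin y hy.1; omega⟩, hmin z h⟩

theorem exists_pred {w z : ι} (h : key c z < key c w) : ∃ pr, Cons key c pr w ∧
    key c z ≤ key c pr := by
  classical
  obtain ⟨m, hm, hmax⟩ := Finset.exists_max_image (Finset.univ.filter fun z => key c z < key c w)
    (key c) ⟨z, by simpa using h⟩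
  simp only [Finset.mem_filter, Finset.mem_univ, true_and] at hm hmax
  exact ⟨m, ⟨hm, fun y hy => by have := hmax y hy.2; omega⟩, hmax z h⟩

/-- The neighbours of `w` in class `c`, in order. -/
theorem nbr_list (hk : Function.Injective (key c)) {w pr su pr2 su2 : ι} (hw : lab w ≠ 2)
    (h1 : Cons key c pr w) (h2 : Cons key c w su)
    (hl1 : lab pr ≠ lab w) (hl2 : lab su ≠ lab w)
    (h3 : lab pr ≠ 2 → Cons key c pr2 pr ∧ lab pr2 ≠ lab pr)
    (h4 : lab su ≠ 2 → Cons key c su su2 ∧ lab su2 ≠ lab su) :
    ∃ L : List ι, 2 ≤ L.length ∧ L.length ≤ 4 ∧ L.Nodup ∧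
      (∀ l, (InnerEdge lab key c w l ∨ InnerEdge lab key c l w) ↔ l ∈ L) ∧
      (∀ i j (hi : i < L.length) (hj : j < L.length),
        (InnerEdge lab key c L[i] L[j] ∨ InnerEdge lab key c L[j] L[i]) → i = j + 1 ∨ j = i + 1) ∧
      L = (if lab pr ≠ 2 then [pr2] else []) ++ [pr, su] ++ (if lab su ≠ 2 then [su2] else []) := by
  refine ⟨(if lab pr ≠ 2 then [pr2] else []) ++ [pr, su] ++ (if lab su ≠ 2 then [su2] else []),
    ?_, ?_, ?_, ?_, ?_, rfl⟩
  · split_ifs <;> simp
  · split_ifs <;> simp
  · have r1 := rk_cons hk h1
    have r2 := rk_cons hk h2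
    have e1 : pr ≠ su := fun h => by rw [h] at r1; omega
    split_ifs with a b b
    · have r3 := rk_cons hk (h3 a).1
      have r4 := rk_cons hk (h4 b).1
      have e2 : pr2 ≠ pr := fun h => by rw [h] at r3; omega
      have e3 : pr2 ≠ su := fun h => by rw [h] at r3; omega
      have e4 : pr2 ≠ su2 := fun h => by rw [h] at r3; omega
      have e5 : pr ≠ su2 := fun h => by rw [← h] at r4; omega
      have e6 : su ≠ su2 := fun h => by rw [← h] at r4; omega
      simp [e1, e2, e3, e4, e5, e6]
    · have r3 := rk_cons hk (h3 a).1
      have e2 : pr2 ≠ pr := fun h => by rw [h] at r3; omega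
      have e3 : pr2 ≠ su := fun h => by rw [h] at r3; omega
      simp [e1, e2, e3]
    · have r4 := rk_cons hk (h4 b).1
      have e5 : pr ≠ su2 := fun h => by rw [← h] at r4; omega
      have e6 : su ≠ su2 := fun h => by rw [← h] at r4; omega
      simp [e1, e5, e6]
    · simp [e1]
  · intro l
    constructor
    · rintro ((h | ⟨m, hm1, hm2, hm3, hm4, hm5⟩) | (h | ⟨m, hm1, hm2, hm3, hm4, hm5⟩))
      · have := cons_unique hk h h2
        subst this; simp
      · have := cons_unique hk hm4 h2
        subst this
        have := cons_unique hk hm5 (h4 hm1).1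
        subst this
        simp [hm1]
      · have := cons_unique' hk h h1
        subst this; simp
      · have := cons_unique' hk hm5 h1
        subst this
        have := cons_unique' hk hm4 (h3 hm1).1
        subst this
        simp [hm1]
    · intro hl
      simp only [List.mem_append, List.mem_cons, List.not_mem_nil, or_false] at hl
      rcases hl with (hl | rfl | rfl) | hl
      · split_ifs at hl with a
        · simp only [List.mem_cons, List.not_mem_nil, or_false] at hl
          subst hl
          exact Or.inr (Or.inr ⟨pr, a, (h3 a).2.symm, hl1, (h3 a).1, h1⟩)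
        · simp at hl
      · exact Or.inr (Or.inl h1)
      · exact Or.inl (Or.inl h2)
      · split_ifs at hl with a
        · simp only [List.mem_cons, List.not_mem_nil, or_false] at hl
          subst hl
          exact Or.inl (Or.inr ⟨su, a, hl2, (h4 a).2.symm, h2, (h4 a).1⟩)
        · simp at hl
  · intro i j hi hj hij
    have r1 := rk_cons hk h1
    have r2 := rk_cons hk h2
    -- rank of the i-th element
    have key1 : ∀ x y : ι, (InnerEdge lab key c x y ∨ InnerEdge lab key c y x) →
        rk key c x ≠ rk key c y ∧ rk key c x ≤ rk key c y + 2 ∧ rk key c y ≤ rk key c x + 2 := by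
      intro x y hxy
      rcases hxy with h | h
      · have := rk_inner hk h; omega
      · have := rk_inner hk h; omega
    have hr := key1 _ _ hij
    clear hij key1
    by_cases a : lab pr ≠ 2 <;> by_cases b : lab su ≠ 2
    · have r3 := rk_cons hk (h3 a).1
      have r4 := rk_cons hk (h4 b).1
      simp only [a, b, if_true, not_false_eq_true, ne_eq, List.length_append, List.length_cons,
        List.length_nil] at hi hj
      simp only [a, b, if_true, not_false_eq_true, ne_eq, List.cons_append, List.nil_append] at hr
      have hi' : i = 0 ∨ i = 1 ∨ i = 2 ∨ i = 3 := by omega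
      have hj' : j = 0 ∨ j = 1 ∨ j = 2 ∨ j = 3 := by omega
      rcases hi' with rfl | rfl | rfl | rfl <;> rcases hj' with rfl | rfl | rfl | rfl <;>
        simp at hr ⊢ <;> omega
    · have r3 := rk_cons hk (h3 a).1
      simp only [a, b, if_true, if_false, not_false_eq_true, ne_eq, List.length_append,
        List.length_cons, List.length_nil] at hi hj
      simp only [a, b, if_true, if_false, not_false_eq_true, ne_eq, List.cons_append,
        List.nil_append, List.append_nil] at hr
      have hi' : i = 0 ∨ i = 1 ∨ i = 2 := by omega
      have hj' : j = 0 ∨ j = 1 ∨ j = 2 := by omega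
      rcases hi' with rfl | rfl | rfl <;> rcases hj' with rfl | rfl | rfl <;>
        simp at hr ⊢ <;> omega
    · have r4 := rk_cons hk (h4 b).1
      simp only [a, b, if_true, if_false, not_false_eq_true, ne_eq, List.length_append,
        List.length_cons, List.length_nil] at hi hj
      simp only [a, b, if_true, if_false, not_false_eq_true, ne_eq, List.cons_append,
        List.nil_append, List.append_nil] at hr
      have hi' : i = 0 ∨ i = 1 ∨ i = 2 := by omega
      have hj' : j = 0 ∨ j = 1 ∨ j = 2 := by omega
      rcases hi' with rfl | rfl | rfl <;> rcases hj' with rfl | rfl | rfl <;>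
        simp at hr ⊢ <;> omega
    · simp only [a, b, if_false, not_false_eq_true, ne_eq, List.length_append,
        List.length_cons, List.length_nil] at hi hj
      simp only [a, b, if_false, not_false_eq_true, ne_eq, List.cons_append,
        List.nil_append, List.append_nil] at hr
      have hi' : i = 0 ∨ i = 1 := by omega
      have hj' : j = 0 ∨ j = 1 := by omega
      rcases hi' with rfl | rfl <;> rcases hj' with rfl | rfl <;>
        simp at hr ⊢

end rank

end Pool.Agent.Lib.MP_612bca_lc
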