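import Pool.Agent.Lib.MP_612bca_lc.Consts

/-!
# The soundness proof: triangles at the representatives
-/

namespace Pool.Agent.Lib.MP_612bca_lc

attribute [local irreducible] NN zones slot slo MP_612bca_lc.col zlo zhi rho

variable {K : ℕ} {G : List (List Pnt)}

/-- The constants of the classes. -/
structure Env.CS (E : Env K G) where
  κ : Fin (K + 2) → ℕ
  U : Fin (K + 2) → Fin (K + 2)
  W : Fin (K + 2) → Fin (K + 2)
  ω : Fin (K + 2) → ℤ → Bool
  kinj : Function.Injective κ
  klt : ∀ c, κ c < K + 2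
  norep : ∀ (c : Fin (K + 2)) (v : ℤ), E.Z 5 v → (∀ r, labT K G r = 2 → r.1.lev K G c ≠ v) →
      ω c (v + 1) = ω c v
  P : ∀ j < G.length, ∀ (c : Fin (K + 2)) (v : ℤ), |v - E.org j| ≤ (NN K : ℤ) ^ 14 →
      E.LinkAt (DD K G c v 0) c (κ c) (U c) (ω c v) ∧
      E.LinkAt (DD K G c v 1) c (κ c) (W c) (!(ω c v)) ∧
      E.LinkAt (DD K G c v 2) c (κ c) (U c) (ω c v) ∧
      E.LinkAt (DD K G c v 3) c (κ c) (W c) (!(ω c v))

theorem Env.exists_CS (E : Env K G) : Nonempty E.CS := by
  obtain ⟨κ, U, W, ω, h1, h2, h3, h4⟩ := E.consts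
  exact ⟨⟨κ, U, W, ω, h1, h2, h3, h4⟩⟩

variable {E : Env K G}

/-- Levels near the group `j`. -/
def Env.Win (E : Env K G) (j : ℕ) (v : ℤ) : Prop := |v - E.org j| + 1 ≤ (NN K : ℤ) ^ 14

theorem Env.Win.w0 {j : ℕ} {v : ℤ} (h : E.Win j v) : |v - E.org j| ≤ (NN K : ℤ) ^ 14 := by
  unfold Env.Win at h
  omega

theorem Env.Win.w1 {j : ℕ} {v : ℤ} (h : E.Win j v) : |v + 1 - E.org j| ≤ (NN K : ℤ) ^ 14 := by
  unfold Env.Win at h
  have h1 := abs_le.1 (show |v - E.org j| ≤ (NN K : ℤ) ^ 14 - 1 by omega)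
  rw [abs_le]
  constructor <;> omega

theorem win_Z {j : ℕ} (hj : j < G.length) {v : ℤ} (h : |v - E.org j| ≤ (NN K : ℤ) ^ 14) :
    E.Z 10 v := by
  have h1 := E.org_zone hj
  have h2 := abs_le.1 h
  have h14 := pow_pos' K 14
  constructor
  · have := h1.1; nlinarith
  · have := h1.2; nlinarith

/-- The upper hub of class `c`. -/
def Env.CS.uh (X : E.CS) (c : Fin (K + 2)) : SVert (EltT K G) (K + 2) := .inr (X.U c, true)

/-- The lower hub of class `c`. -/
def Env.CS.wh (X : E.CS) (c : Fin (K + 2)) : SVert (EltT K G) (K + 2) := .inr (X.W c, false)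

section steps

variable (X : E.CS) {j : ℕ} (hj : j < G.length) (c : Fin (K + 2)) {v : ℤ} (hv : E.Win j v)
include hj hv

theorem Env.CS.r0 : RegLev K G v := ((win_Z hj hv.w0).mono (by norm_num)).reg

theorem Env.CS.r1 : RegLev K G (v + 1) := ((win_Z hj hv.w1).mono (by norm_num)).reg

theorem Env.CS.u02 : E.T (X.ω c v) (X.κ c) (X.uh c) (.inl (DD K G c v 0))
    (.inl (DD K G c v 2)) := by
  have h0 := (X.P j hj c v hv.w0).1
  have r0 := Env.CS.r0 hj hv
  have h1 := (h0.su2 _ _ (E.nx_dd c r0 (by omega)) (by rw [DD_lab c r0 (by omega)]; omega)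
    (E.nx_dd c r0 (by omega))).2
  rw [DD_lab c r0 (by omega)] at h1
  exact h1.cyc.cyc

theorem Env.CS.u2x (x : EltT K G) (hx : Nx c (DD K G c v 3) x) :
    E.T (X.ω c v) (X.κ c) (X.uh c) (.inl (DD K G c v 2)) (.inl x) := by
  have h0 := (X.P j hj c v hv.w0).2.2.1
  have r0 := Env.CS.r0 hj hv
  have h1 := (h0.su2 _ _ (E.nx_dd c r0 (by omega)) (by rw [DD_lab c r0 (by omega)]; omega) hx).2
  rw [DD_lab c r0 (by omega)] at h1
  exact h1.cyc.cyc

theorem Env.CS.uy0 (y : EltT K G) (hl : labT K G y = 2) (hy : Nx c y (DD K G c (v + 1) 0)) :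
    E.T (X.ω c (v + 1)) (X.κ c) (X.uh c) (.inl y) (.inl (DD K G c (v + 1) 0)) := by
  have h0 := (X.P j hj c (v + 1) hv.w1).1
  have r1 := Env.CS.r1 hj hv
  have h1 := h0.pr1 y hy hl
  rw [DD_lab c r1 (by omega)] at h1
  exact h1.cyc

theorem Env.CS.w31 : E.T (X.ω c v) (X.κ c) (X.wh c) (.inl (DD K G c v 3))
    (.inl (DD K G c v 1)) := by
  have h0 := (X.P j hj c v hv.w0).2.1
  have r0 := Env.CS.r0 hj hv
  have h1 := (h0.su2 _ _ (E.nx_dd c r0 (by omega)) (by rw [DD_lab c r0 (by omega)]; omega)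
    (E.nx_dd c r0 (by omega))).2
  rw [DD_lab c r0 (by omega)] at h1
  have h2 := h1.swap
  rw [Bool.not_not] at h2
  exact h2.cyc

theorem Env.CS.w3x (x : EltT K G) (hl : labT K G x = 2) (hx : Nx c (DD K G c v 3) x) :
    E.T (X.ω c v) (X.κ c) (X.wh c) (.inl x) (.inl (DD K G c v 3)) := by
  have h0 := (X.P j hj c v hv.w0).2.2.2
  have r0 := Env.CS.r0 hj hv
  have h1 := h0.su1 x hx hl
  rw [DD_lab c r0 (by omega)] at h1
  have h2 := h1.swap
  rw [Bool.not_not] at h2
  exact h2.cyc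

theorem Env.CS.w30 (hx : Nx c (DD K G c v 3) (DD K G c (v + 1) 0)) :
    E.T (X.ω c v) (X.κ c) (X.wh c) (.inl (DD K G c (v + 1) 1)) (.inl (DD K G c v 3)) := by
  have h0 := (X.P j hj c v hv.w0).2.2.2
  have r0 := Env.CS.r0 hj hv
  have r1 := Env.CS.r1 hj hv
  have h1 := (h0.su2 _ _ hx (by rw [DD_lab c r1 (by omega)]; omega)
    (E.nx_dd c r1 (by omega))).2
  rw [DD_lab c r0 (by omega)] at h1
  have h2 := h1.swap
  rw [Bool.not_not] at h2
  exact h2.cyc

theorem Env.CS.wy1 (y : EltT K G) (hl : labT K G y = 2) (hy : Nx c y (DD K G c (v + 1) 0)) :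
    E.T (X.ω c (v + 1)) (X.κ c) (X.wh c) (.inl (DD K G c (v + 1) 1)) (.inl y) := by
  have h0 := (X.P j hj c (v + 1) hv.w1).2.1
  have r1 := Env.CS.r1 hj hv
  have h1 := (h0.pr2 _ y (E.nx_dd c r1 (by omega)) (by rw [DD_lab c r1 (by omega)]; omega) hy).2
  rw [DD_lab c r1 (by omega)] at h1
  have h2 := h1.swap
  rw [Bool.not_not] at h2
  exact h2.cyc.cyc

/-! ### Elements of the gap after the level `v` -/

omit hj hv in
/-- Representatives at level `v` of class `c`. -/
theorem rep_key {r : EltT K G} (hl : labT K G r = 2) (hlev : r.1.lev K G c = v) :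
    keyT K G c r = 8 * v + 4 ∨ keyT K G c r = 8 * v + 5 := by
  rw [← hlev]
  exact key_rep c r hl

theorem Env.CS.gap (w w' : EltT K G)
    (hw : w = DD K G c v 3 ∨ (labT K G w = 2 ∧ w.1.lev K G c = v))
    (hw' : w' = DD K G c (v + 1) 0 ∨ (labT K G w' = 2 ∧ w'.1.lev K G c = v))
    (hlt : keyT K G c w < keyT K G c w')
    (hno : ∀ r : EltT K G, labT K G r = 2 → r.1.lev K G c = v →
      ¬ (keyT K G c w < keyT K G c r ∧ keyT K G c r < keyT K G c w')) : Nx c w w' := by
  have r0 := Env.CS.r0 hj hv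
  have r1 := Env.CS.r1 hj hv
  refine cons_gap K G c v r0 r1 w w' ?_ ?_ hlt hno
  · rcases hw with rfl | h
    · exact Or.inl (DD_val c r0 (by omega))
    · exact Or.inr h
  · rcases hw' with rfl | h
    · exact Or.inl (DD_val c r1 (by omega))
    · exact Or.inr h

theorem Env.CS.succ_rep {r m : EltT K G} (hl : labT K G r = 2) (hlev : r.1.lev K G c = v)
    (hn : Nx c r m) : m = DD K G c (v + 1) 0 ∨ (labT K G m = 2 ∧ m.1.lev K G c = v) := by
  have r0 := Env.CS.r0 hj hv
  have r1 := Env.CS.r1 hj hv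
  have k0 := DD_key (K := K) (G := G) c r1 (show 0 < 4 by omega)
  have kr := rep_key c hl hlev
  have h1 := hn.1
  refine E.gap_cases c r0 r1 m (by omega) ?_
  by_contra hcon
  exact hn.2 (DD K G c (v + 1) 0) ⟨by rw [k0]; push_cast; omega, by rw [k0]; push_cast; omega⟩

theorem Env.CS.pred_rep {r m : EltT K G} (hl : labT K G r = 2) (hlev : r.1.lev K G c = v)
    (hn : Nx c m r) : m = DD K G c v 3 ∨ (labT K G m = 2 ∧ m.1.lev K G c = v) := by
  have r0 := Env.CS.r0 hj hv
  have k0 := DD_key (K := K) (G := G) c r0 (show 3 < 4 by omega)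
  have kr := rep_key c hl hlev
  have h1 := hn.1
  refine E.gap_cases' c r0 m ?_ (by omega)
  by_contra hcon
  exact hn.2 (DD K G c v 3) ⟨by rw [k0]; push_cast; omega, by rw [k0]; push_cast; omega⟩

/-- Neighbours of a representative in class `c` which are dummies. -/
theorem Env.CS.rep_dummy_nbr {r l : EltT K G} (hl : labT K G r = 2) (hlev : r.1.lev K G c = v)
    (hl' : labT K G l ≠ 2) (hn : Nbr K G c r l) :
    (Nx c r (DD K G c (v + 1) 0) ∧ (l = DD K G c (v + 1) 0 ∨ l = DD K G c (v + 1) 1)) ∨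
    (Nx c (DD K G c v 3) r ∧ (l = DD K G c v 3 ∨ l = DD K G c v 2)) := by
  have r0 := Env.CS.r0 hj hv
  have r1 := Env.CS.r1 hj hv
  rcases hn with (h | ⟨m, hm1, _, _, h1, h2⟩) | (h | ⟨m, hm1, _, _, h1, h2⟩)
  · left
    rcases Env.CS.succ_rep hj c hv hl hlev h with he | he
    · subst he; exact ⟨h, Or.inl rfl⟩
    · exact absurd he.1 hl'
  · left
    rcases Env.CS.succ_rep hj c hv hl hlev h1 with he | he
    · subst he
      exact ⟨h1, Or.inr (cons_unique (E.kinj c) h2 (E.nx_dd c r1 (by omega)))⟩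
    · exact absurd he.1 hm1
  · right
    rcases Env.CS.pred_rep hj c hv hl hlev h with he | he
    · subst he; exact ⟨h, Or.inl rfl⟩
    · exact absurd he.1 hl'
  · right
    rcases Env.CS.pred_rep hj c hv hl hlev h2 with he | he
    · subst he
      exact ⟨h2, Or.inr (cons_unique' (E.kinj c) h1 (E.nx_dd c r0 (by omega)))⟩
    · exact absurd he.1 hm1

/-- Adjacent representatives are at the same level. -/
theorem Env.CS.rep_rep_nbr {r x : EltT K G} (hl : labT K G r = 2) (hlev : r.1.lev K G c = v)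
    (hl' : labT K G x = 2) (hn : Nbr K G c r x) : x.1.lev K G c = v := by
  have r0 := Env.CS.r0 hj hv
  have r1 := Env.CS.r1 hj hv
  rcases hn with (h | ⟨m, hm1, _, _, h1, h2⟩) | (h | ⟨m, hm1, _, _, h1, h2⟩)
  · rcases Env.CS.succ_rep hj c hv hl hlev h with he | he
    · subst he
      rw [DD_lab c r1 (by omega)] at hl'
      omega
    · exact he.2
  · rcases Env.CS.succ_rep hj c hv hl hlev h1 with he | he
    · subst he
      have := cons_unique (E.kinj c) h2 (E.nx_dd c r1 (by omega))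
      subst this
      rw [DD_lab c r1 (by omega)] at hl'
      omega
    · exact absurd he.1 hm1
  · rcases Env.CS.pred_rep hj c hv hl hlev h with he | he
    · subst he
      rw [DD_lab c r0 (by omega)] at hl'
      omega
    · exact he.2
  · rcases Env.CS.pred_rep hj c hv hl hlev h2 with he | he
    · subst he
      have := cons_unique' (E.kinj c) h1 (E.nx_dd c r0 (by omega))
      subst this
      rw [DD_lab c r0 (by omega)] at hl'
      omega
    · exact absurd he.1 hm1

/-- The edge between a representative and a dummy has the colour of its class. -/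
theorem Env.CS.dummy_colour {r l : EltT K G} (hl : labT K G r = 2) (hlev : r.1.lev K G c = v)
    (hl' : labT K G l ≠ 2) (hn : Nbr K G c r l) :
    E.cl s(.inl r, .inl l) = X.κ c := by
  have hp := E.hD.plane (X.κ c)
  rcases Env.CS.rep_dummy_nbr hj c hv hl hlev hl' hn with ⟨h, rfl | rfl⟩ | ⟨h, rfl | rfl⟩
  · have h1 := (STri.adj hp (X.uy0 hj c hv r hl h)).2.1
    exact h1.2
  · have h1 := (STri.adj hp (X.wy1 hj c hv r hl h)).2.1
    rw [Sym2.eq_swap]
    exact h1.2
  · have h1 := (STri.adj hp (X.w3x hj c hv r hl h)).2.1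
    exact h1.2
  · have h1 := (STri.adj hp (X.u2x hj c hv r h)).2.1
    rw [Sym2.eq_swap]
    exact h1.2

/-- A representative alone at its level: the sign does not change, and its edges to the hubs have
dummies on both sides. -/
theorem Env.CS.single {r : EltT K G} (hl : labT K G r = 2) (hlev : r.1.lev K G c = v)
    (huniq : ∀ r', labT K G r' = 2 → r'.1.lev K G c = v → r' = r) :
    Nx c (DD K G c v 3) r ∧ Nx c r (DD K G c (v + 1) 0) ∧ X.ω c (v + 1) = X.ω c v := by
  have r0 := Env.CS.r0 hj hv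
  have r1 := Env.CS.r1 hj hv
  have k3 := DD_key (K := K) (G := G) c r0 (show 3 < 4 by omega)
  have k0 := DD_key (K := K) (G := G) c r1 (show 0 < 4 by omega)
  have k2 := DD_key (K := K) (G := G) c r0 (show 2 < 4 by omega)
  have kr := rep_key c hl hlev
  push_cast at k3 k0 k2
  have n1 : Nx c (DD K G c v 3) r := Env.CS.gap hj c hv _ _ (Or.inl rfl) (Or.inr ⟨hl, hlev⟩)
    (by omega) (fun r' h1 h2 h3 => by
      have := huniq r' h1 h2
      subst this
      omega)
  have n2 : Nx c r (DD K G c (v + 1) 0) := Env.CS.gap hj c hv _ _ (Or.inr ⟨hl, hlev⟩) (Or.inl rfl)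
    (by omega) (fun r' h1 h2 h3 => by
      have := huniq r' h1 h2
      subst this
      omega)
  refine ⟨n1, n2, ?_⟩
  have h1 := X.u2x hj c hv r n1
  have h2 := X.uy0 hj c hv r hl n2
  by_contra hne
  have hw : X.ω c (v + 1) = !(X.ω c v) := by
    cases h3 : X.ω c (v + 1) <;> cases h4 : X.ω c v <;> simp_all
  rw [hw] at h2
  have h3 := h2.swap
  rw [Bool.not_not] at h3
  have h4 := h1.cyc.cyc.unique h3.cyc.cyc
  have h5 : DD K G c v 2 = DD K G c (v + 1) 0 := Sum.inl_injective h4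
  have h6 : keyT K G c (DD K G c v 2) = keyT K G c (DD K G c (v + 1) 0) := by rw [h5]
  omega

/-- The hub with the given side. -/
def Env.CS.hub (X : E.CS) (b : Bool) (c : Fin (K + 2)) : SVert (EltT K G) (K + 2) :=
  if b then X.uh c else X.wh c

/-- A representative which is alone at its level has only dummies as third vertices of triangles
with the hubs. -/
theorem Env.CS.single_third {r : EltT K G} (hl : labT K G r = 2) (hlev : r.1.lev K G c = v)
    (huniq : ∀ r', labT K G r' = 2 → r'.1.lev K G c = v → r' = r) (b : Bool) {s : Bool}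
    {x : EltT K G} (h : E.T s (X.κ c) (X.hub b c) (.inl r) (.inl x)) : labT K G x ≠ 2 := by
  have r0 := Env.CS.r0 hj hv
  have r1 := Env.CS.r1 hj hv
  obtain ⟨n1, n2, hw⟩ := X.single hj c hv hl hlev huniq
  have hu1 := X.u2x hj c hv r n1
  have hu2 := X.uy0 hj c hv r hl n2
  have hw1 := X.w3x hj c hv r hl n1
  have hw2 := X.wy1 hj c hv r hl n2
  rw [hw] at hu2 hw2
  have key1 : ∀ (d d' : EltT K G) (H : SVert (EltT K G) (K + 2)), labT K G d ≠ 2 →
      labT K G d' ≠ 2 →
      E.T (X.ω c v) (X.κ c) H (.inl d) (.inl r) → E.T (X.ω c v) (X.κ c) H (.inl r) (.inl d') →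
      E.T s (X.κ c) H (.inl r) (.inl x) → labT K G x ≠ 2 := by
    intro d d' H hd hd' h1 h2 h3
    by_cases hs : s = X.ω c v
    · rw [hs] at h3
      have h4 : x = d' := Sum.inl_injective (h3.unique h2)
      rw [h4]; exact hd'
    · have hs' : s = !(X.ω c v) := by
        cases h5 : X.ω c v <;> cases s <;> simp_all
      rw [hs'] at h3
      have h4 := h3.swap
      rw [Bool.not_not] at h4
      have h5 : x = d := Sum.inl_injective (h4.cyc.cyc.unique h1.cyc.cyc)
      rw [h5]; exact hd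
  cases b
  · exact key1 _ _ _ (by rw [DD_lab c r1 (by omega)]; omega)
      (by rw [DD_lab c r0 (by omega)]; omega) hw2 hw1 h
  · exact key1 _ _ _ (by rw [DD_lab c r0 (by omega)]; omega)
      (by rw [DD_lab c r1 (by omega)]; omega) hu1 hu2 h

end steps

end Pool.Agent.Lib.MP_612bca_lc
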