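import Pool.Agent.Lib.MP_612bca_lc.Ties

/-!
# The soundness proof: orders of the slopes at the hubs
-/

namespace Pool.Agent.Lib.MP_612bca_lc

attribute [local irreducible] NN zones slot slo MP_612bca_lc.col zlo zhi rho

/-! ### Slopes -/

/-- As seen from `h`, the points `a` and `b` are on the same side of the vertical line, and the
slope of `b`, times `σ`, is larger than the one of `a`. -/
def SL (σ : ℝ) (h a b : ℝ × ℝ) : Prop :=
  0 < (a.1 - h.1) * (b.1 - h.1) ∧ 0 < σ * crs (a - h) (b - h)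

theorem SL.trans {σ : ℝ} {h a b c : ℝ × ℝ} (h1 : SL σ h a b) (h2 : SL σ h b c) : SL σ h a c := by
  obtain ⟨a1, a2⟩ := h1
  obtain ⟨b1, b2⟩ := h2
  unfold SL
  simp only [crs, Prod.fst_sub, Prod.snd_sub] at *
  generalize a.1 - h.1 = x1 at *
  generalize a.2 - h.2 = y1 at *
  generalize b.1 - h.1 = x2 at *
  generalize b.2 - h.2 = y2 at *
  generalize c.1 - h.1 = x3 at *
  generalize c.2 - h.2 = y3 at *
  have hx2 : 0 < x2 * x2 := by
    apply mul_self_pos.2
    rintro rfl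
    simp at a1
  constructor
  · have h3 : 0 < (x1 * x3) * (x2 * x2) := by
      have := mul_pos a1 b1
      have e : (x1 * x3) * (x2 * x2) = (x1 * x2) * (x2 * x3) := by ring
      rw [e]; exact this
    exact (mul_pos_iff_of_pos_right hx2).1 h3
  · have h3 : 0 < (σ * (x1 * y3 - y1 * x3)) * (x2 * x2) := by
      have e : (σ * (x1 * y3 - y1 * x3)) * (x2 * x2) =
          (x1 * x2) * (σ * (x2 * y3 - y2 * x3)) + (x2 * x3) * (σ * (x1 * y2 - y1 * x2)) := by ring
      rw [e]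
      exact add_pos (mul_pos a1 b2) (mul_pos b1 a2)
    exact (mul_pos_iff_of_pos_right hx2).1 h3

/-- The sign of a boolean. -/
def sg (b : Bool) : ℝ := if b then 1 else -1

variable {K : ℕ} {G : List (List Pnt)} {E : Env K G}

theorem Env.T.SL {s : Bool} {κ : ℕ} {h : Fin (K + 2) × Bool} {a b : EltT K G}
    (hT : E.T s κ (.inr h) (.inl a) (.inl b)) (hκ : κ < K + 2) (ha : InZone K G E.s a.1)
    (hb : InZone K G E.s b.1) : SL (sg s) (E.pt (.inr h)) (E.pt (.inl a)) (E.pt (.inl b)) := by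
  cases s
  · have h1 : Tri E.pt (ColAdj (Gam K G) E.cl κ) (.inr h) (.inl b) (.inl a) := hT
    have h2 := E.side κ hκ h b a hb ha h1
    have h3 := h1.2.2.2.1
    refine ⟨by rw [mul_comm]; exact h2, ?_⟩
    simp only [ori, crs, Prod.fst_sub, Prod.snd_sub, sg, Bool.false_eq_true, if_false] at h3 ⊢
    linarith
  · have h1 : Tri E.pt (ColAdj (Gam K G) E.cl κ) (.inr h) (.inl a) (.inl b) := hT
    have h2 := E.side κ hκ h a b ha hb h1
    have h3 := h1.2.2.2.1
    refine ⟨h2, ?_⟩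
    simp only [ori, crs, Prod.fst_sub, Prod.snd_sub, sg, if_true] at h3 ⊢
    linarith

/-! ### The sign of a class -/

/-- Representatives at levels of the zone belong to the zone. -/
theorem Env.rep_zone (E : Env K G) (c : Fin (K + 2)) {r : EltT K G} (hl : labT K G r = 2)
    (hz : E.Z 5 (r.1.lev K G c)) : ∃ j i, j < G.length ∧ i < (G.getD j []).length ∧
      r = E.R j i := by
  obtain ⟨s', j, i, hr, hs', hj, hi, hlev⟩ := rep_lev E.hG c r hl
  have hrho := rho_le14 c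
  have h14 := pow_pos' K 14
  have h15 := pow_pos' K 15
  have e1 : (orig K G.length s' j : ℤ) = (NN K : ℤ) ^ 15 * (zlen G.length * s' + j + 2) := by
    unfold orig
    push_cast
    rw [slot_eq]
  have e2 : zlo K G E.s = (NN K : ℤ) ^ 15 * (zlen G.length * E.s + 1) := by
    unfold zlo
    rw [slot_eq]
  have e3 : zhi K G E.s = (NN K : ℤ) ^ 15 * (zlen G.length * (E.s + 1) + 1) := by
    unfold zhi
    rw [slot_eq]
  have h1 : zlo K G E.s < orig K G.length s' j := by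
    have := hz.1
    rw [abs_le] at hlev
    linarith [hlev.1, hlev.2]
  have h2 : (orig K G.length s' j : ℤ) < zhi K G E.s := by
    have := hz.2
    rw [abs_le] at hlev
    linarith [hlev.1, hlev.2]
  rw [e1, e2] at h1
  rw [e1, e3] at h2
  have h3 := (mul_lt_mul_iff_right₀ (show (0 : ℤ) < (NN K : ℤ) ^ 15 by linarith)).1 h1
  have h4 := (mul_lt_mul_iff_right₀ (show (0 : ℤ) < (NN K : ℤ) ^ 15 by linarith)).1 h2
  have h3' : zlen G.length * E.s + 1 < zlen G.length * s' + j + 2 := by exact_mod_cast h3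
  have h4' : zlen G.length * s' + j + 2 < zlen G.length * (E.s + 1) + 1 := by exact_mod_cast h4
  have hss : s' = E.s := by
    unfold zlen at h3' h4'
    rcases lt_trichotomy s' E.s with hlt | heq | hgt
    · have h5 : (G.length + 2) * (s' + 1) ≤ (G.length + 2) * E.s := Nat.mul_le_mul_left _ hlt
      rw [Nat.mul_add] at h5
      omega
    · exact heq
    · have h5 : (G.length + 2) * (E.s + 1) ≤ (G.length + 2) * s' := Nat.mul_le_mul_left _ hgt
      omega
  subst hss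
  exact ⟨j, i, hj, hi, Subtype.ext (by rw [hr, E.R_val hj hi])⟩

theorem Env.CS.step_eq (X : E.CS) (c : Fin (K + 2)) {v : ℤ} (hz : E.Z 5 v) :
    X.ω c (v + 1) = X.ω c v := by
  by_cases h : ∀ r, labT K G r = 2 → r.1.lev K G c ≠ v
  · exact X.norep c v hz h
  · push Not at h
    obtain ⟨r, hl, hlev⟩ := h
    subst hlev
    obtain ⟨j, i, hj, hi, rfl⟩ := E.rep_zone c hl hz
    have hw := E.R_win hj hi c
    by_cases hu : ∀ r', labT K G r' = 2 → r'.1.lev K G c = (E.R j i).1.lev K G c → r' = E.R j i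
    · exact (X.single hj c hw hl rfl hu).2.2
    · push Not at hu
      obtain ⟨r', h1, h2, h3⟩ := hu
      rcases lt_trichotomy (keyT K G c (E.R j i)) (keyT K G c r') with h4 | h4 | h4
      · exact (X.pair hj c hw hl h1 rfl h2 h4).2.2.2.1
      · exact absurd (E.kinj c h4).symm h3
      · exact (X.pair hj c hw h1 hl h2 rfl h4).2.2.2.1

theorem Env.CS.steps_eq (X : E.CS) (c : Fin (K + 2)) {v : ℤ} (hz : E.Z 5 v) (n : ℕ)
    (hz' : E.Z 5 (v + n)) : X.ω c (v + n) = X.ω c v := by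
  induction n with
  | zero => simp
  | succ n ih =>
    have h1 : E.Z 5 (v + n) := by
      obtain ⟨a1, a2⟩ := hz
      obtain ⟨b1, b2⟩ := hz'
      have h0 : (0 : ℤ) ≤ n := Int.natCast_nonneg n
      push_cast at b1 b2
      constructor <;> linarith
    rw [← ih h1, ← X.step_eq c h1]
    push_cast
    rw [add_assoc]

theorem Env.CS.all_eq (X : E.CS) (c : Fin (K + 2)) {v v' : ℤ} (hz : E.Z 5 v) (hz' : E.Z 5 v') :
    X.ω c v = X.ω c v' := by
  rcases le_total v v' with h | h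
  · obtain ⟨n, hn⟩ := Int.eq_ofNat_of_zero_le (show 0 ≤ v' - v by linarith)
    have e : v' = v + n := by linarith
    rw [e] at hz' ⊢
    exact (X.steps_eq c hz n hz').symm
  · obtain ⟨n, hn⟩ := Int.eq_ofNat_of_zero_le (show 0 ≤ v - v' by linarith)
    have e : v = v' + n := by linarith
    rw [e] at hz ⊢
    exact X.steps_eq c hz' n hz

/-- The sign of a class. -/
def Env.CS.Om (X : E.CS) (c : Fin (K + 2)) : Bool := X.ω c (E.org 0)

theorem Env.CS.eq_Om (X : E.CS) (c : Fin (K + 2)) {j : ℕ} (hj : j < G.length) {v : ℤ}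
    (h : |v - E.org j| ≤ (NN K : ℤ) ^ 14) : X.ω c v = X.Om c :=
  X.all_eq c ((win_Z hj h).mono (by norm_num))
    ((E.org_zone (show 0 < G.length by omega)).mono (by norm_num))

/-! ### Chains -/

theorem Env.Win.between {j : ℕ} {u v w : ℤ} (hu : E.Win j u) (hw : E.Win j w) (h1 : u ≤ v)
    (h2 : v ≤ w) : E.Win j v := by
  unfold Env.Win at *
  have a := abs_le.1 (show |u - E.org j| ≤ (NN K : ℤ) ^ 14 - 1 by linarith)
  have b := abs_le.1 (show |w - E.org j| ≤ (NN K : ℤ) ^ 14 - 1 by linarith)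
  have c : |v - E.org j| ≤ (NN K : ℤ) ^ 14 - 1 := by
    rw [abs_le]
    constructor <;> linarith [a.1, a.2, b.1, b.2]
  linarith

theorem chain_aux {Q : EltT K G → EltT K G → Prop} (hQ : ∀ a b c, Q a b → Q b c → Q a c)
    (A : ℤ → EltT K G) {j : ℕ} (h1 : ∀ v, E.Win j v → Q (A v) (A (v + 1))) (r : EltT K G) {v : ℤ}
    (hv : E.Win j v) (h : Q r (A v)) (n : ℕ) (hn : E.Win j (v + n)) : Q r (A (v + n)) := by
  induction n with
  | zero => simpa using h
  | succ n ih =>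
    have h0 : (0 : ℤ) ≤ n := Int.natCast_nonneg n
    have h2 : E.Win j (v + n) := hv.between hn (by linarith) (by push_cast; linarith)
    have h3 := hQ _ _ _ (ih h2) (h1 _ h2)
    push_cast
    rw [← add_assoc]
    exact h3

theorem chain_lemma {Q : EltT K G → EltT K G → Prop} (hQ : ∀ a b c, Q a b → Q b c → Q a c)
    (A : ℤ → EltT K G) (c : Fin (K + 2)) {j : ℕ}
    (h1 : ∀ v, E.Win j v → Q (A v) (A (v + 1)))
    (h2 : ∀ v, E.Win j v → ∀ r, labT K G r = 2 → r.1.lev K G c = v → Q (A v) r ∧ Q r (A (v + 1)))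
    (h3 : ∀ v, E.Win j v → ∀ r r', labT K G r = 2 → labT K G r' = 2 → r.1.lev K G c = v →
      r'.1.lev K G c = v → keyT K G c r < keyT K G c r' → Q r r')
    {r r' : EltT K G} (hl : labT K G r = 2) (hl' : labT K G r' = 2)
    (hw : E.Win j (r.1.lev K G c)) (hw' : E.Win j (r'.1.lev K G c))
    (hlt : keyT K G c r < keyT K G c r') : Q r r' := by
  have k1 := key_rep c r hl
  have k2 := key_rep c r' hl'
  have hle : r.1.lev K G c ≤ r'.1.lev K G c := by
    generalize keyT K G c r = x at *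
    generalize keyT K G c r' = y at *
    generalize r.1.lev K G c = z at *
    generalize r'.1.lev K G c = w at *
    omega
  rcases hle.lt_or_eq with h | h
  · have a1 := (h2 _ hw r hl rfl).2
    have a2 := (h2 _ hw' r' hl' rfl).1
    have b1 : E.Win j (r.1.lev K G c + 1) := hw.between hw' (by linarith) (by linarith)
    obtain ⟨n, hn⟩ := Int.eq_ofNat_of_zero_le
      (show 0 ≤ r'.1.lev K G c - (r.1.lev K G c + 1) by linarith)
    have e : r'.1.lev K G c = r.1.lev K G c + 1 + n := by linarith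
    have b2 : E.Win j (r.1.lev K G c + 1 + n) := by rw [← e]; exact hw'
    have a3 := chain_aux hQ A h1 r b1 a1 n b2
    rw [← e] at a3
    exact hQ _ _ _ a3 a2
  · exact h3 _ hw' r r' hl hl' h rfl hlt

section slopes

variable (X : E.CS) {j : ℕ} (hj : j < G.length) (c : Fin (K + 2))

/-- Upper slopes. -/
def Env.CS.SU (X : E.CS) (c : Fin (K + 2)) (a b : EltT K G) : Prop :=
  SL (sg (X.Om c)) (E.pt (X.uh c)) (E.pt (.inl a)) (E.pt (.inl b))

/-- Lower slopes. -/
def Env.CS.SW (X : E.CS) (c : Fin (K + 2)) (a b : EltT K G) : Prop :=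
  SL (sg (X.Om c)) (E.pt (X.wh c)) (E.pt (.inl a)) (E.pt (.inl b))

theorem Env.CS.SU_trans (a b d : EltT K G) (h1 : X.SU c a b) (h2 : X.SU c b d) : X.SU c a d :=
  SL.trans h1 h2

theorem Env.CS.SW_trans (a b d : EltT K G) (h1 : X.SW c a b) (h2 : X.SW c b d) : X.SW c a d :=
  SL.trans h1 h2

variable {v : ℤ} (hv : E.Win j v)

include hj

theorem dd_zone {u : ℤ} (hu : |u - E.org j| ≤ (NN K : ℤ) ^ 14) {p : ℕ} (hp : p < 4) :
    InZone K G E.s (DD K G c u p).1 := by
  have h1 : E.Z 10 u := win_Z hj hu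
  have h2 : E.Z 9 ((DD K G c u p).1.row K G) := Env.Z.row (m := 9) h1 (by norm_num) c hp
  exact h2.inZone (by norm_num)

theorem Env.CS.toSU {u : ℤ} (hu : |u - E.org j| ≤ (NN K : ℤ) ^ 14) {a b : EltT K G}
    (ha : InZone K G E.s a.1) (hb : InZone K G E.s b.1)
    (hT : E.T (X.ω c u) (X.κ c) (X.uh c) (.inl a) (.inl b)) : X.SU c a b := by
  rw [X.eq_Om c hj hu] at hT
  exact hT.SL (X.klt c) ha hb

theorem Env.CS.toSW {u : ℤ} (hu : |u - E.org j| ≤ (NN K : ℤ) ^ 14) {a b : EltT K G}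
    (ha : InZone K G E.s a.1) (hb : InZone K G E.s b.1)
    (hT : E.T (X.ω c u) (X.κ c) (X.wh c) (.inl a) (.inl b)) : X.SW c a b := by
  rw [X.eq_Om c hj hu] at hT
  exact hT.SL (X.klt c) ha hb

include hv

theorem Env.CS.rep_inZone {r : EltT K G} (hl : labT K G r = 2) (hlev : r.1.lev K G c = v) :
    InZone K G E.s r.1 := by
  obtain ⟨i, hi, rfl⟩ := E.eq_R hj hv c r hl hlev
  exact E.R_zone hj hi

theorem Env.CS.SU_rep {r : EltT K G} (hl : labT K G r = 2) (hlev : r.1.lev K G c = v) :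
    X.SU c (DD K G c v 0) r ∧ X.SU c r (DD K G c (v + 1) 0) := by
  have z0 := dd_zone hj c hv.w0 (show 0 < 4 by omega)
  have z2 := dd_zone hj c hv.w0 (show 2 < 4 by omega)
  have z0' := dd_zone hj c hv.w1 (show 0 < 4 by omega)
  have zr := Env.CS.rep_inZone hj c hv hl hlev
  have s1 := X.toSU hj c hv.w0 z0 z2 (X.u02 hj c hv)
  by_cases h : ∀ r', labT K G r' = 2 → r'.1.lev K G c = v → r' = r
  · obtain ⟨n1, n2, _⟩ := X.single hj c hv hl hlev h
    exact ⟨X.SU_trans c _ _ _ s1 (X.toSU hj c hv.w0 z2 zr (X.u2x hj c hv r n1)),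
      X.toSU hj c hv.w1 zr z0' (X.uy0 hj c hv r hl n2)⟩
  · push Not at h
    obtain ⟨r', h1, h2, h3⟩ := h
    have zr' := Env.CS.rep_inZone hj c hv h1 h2
    rcases lt_trichotomy (keyT K G c r) (keyT K G c r') with h4 | h4 | h4
    · obtain ⟨n1, n2, n3, _, t1, _⟩ := X.pair hj c hv hl h1 hlev h2 h4
      exact ⟨X.SU_trans c _ _ _ s1 (X.toSU hj c hv.w0 z2 zr (X.u2x hj c hv r n1)),
        X.SU_trans c _ _ _ (X.toSU hj c hv.w0 zr zr' t1)
          (X.toSU hj c hv.w1 zr' z0' (X.uy0 hj c hv r' h1 n3))⟩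
    · exact absurd (E.kinj c h4).symm h3
    · obtain ⟨n1, n2, n3, _, t1, _⟩ := X.pair hj c hv h1 hl h2 hlev h4
      exact ⟨X.SU_trans c _ _ _ s1 (X.SU_trans c _ _ _
          (X.toSU hj c hv.w0 z2 zr' (X.u2x hj c hv r' n1)) (X.toSU hj c hv.w0 zr' zr t1)),
        X.toSU hj c hv.w1 zr z0' (X.uy0 hj c hv r hl n3)⟩

theorem Env.CS.SU_step : X.SU c (DD K G c v 0) (DD K G c (v + 1) 0) := by
  by_cases h : ∃ r, labT K G r = 2 ∧ r.1.lev K G c = v
  · obtain ⟨r, hl, hlev⟩ := h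
    obtain ⟨h1, h2⟩ := X.SU_rep hj c hv hl hlev
    exact X.SU_trans c _ _ _ h1 h2
  · obtain ⟨su, h1, h2⟩ := E.succ3 c (Env.CS.r0 hj hv) (Env.CS.r1 hj hv)
    rcases h2 with rfl | h2
    · have z0 := dd_zone hj c hv.w0 (show 0 < 4 by omega)
      have z2 := dd_zone hj c hv.w0 (show 2 < 4 by omega)
      have z0' := dd_zone hj c hv.w1 (show 0 < 4 by omega)
      exact X.SU_trans c _ _ _ (X.toSU hj c hv.w0 z0 z2 (X.u02 hj c hv))
        (X.toSU hj c hv.w0 z2 z0' (X.u2x hj c hv _ h1))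
    · exact absurd ⟨su, h2⟩ h

theorem Env.CS.SW_rep {r : EltT K G} (hl : labT K G r = 2) (hlev : r.1.lev K G c = v) :
    X.SW c r (DD K G c v 1) ∧ X.SW c (DD K G c (v + 1) 1) r := by
  have z1 := dd_zone hj c hv.w0 (show 1 < 4 by omega)
  have z3 := dd_zone hj c hv.w0 (show 3 < 4 by omega)
  have z1' := dd_zone hj c hv.w1 (show 1 < 4 by omega)
  have zr := Env.CS.rep_inZone hj c hv hl hlev
  have s1 := X.toSW hj c hv.w0 z3 z1 (X.w31 hj c hv)
  by_cases h : ∀ r', labT K G r' = 2 → r'.1.lev K G c = v → r' = r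
  · obtain ⟨n1, n2, _⟩ := X.single hj c hv hl hlev h
    exact ⟨X.SW_trans c _ _ _ (X.toSW hj c hv.w0 zr z3 (X.w3x hj c hv r hl n1)) s1,
      X.toSW hj c hv.w1 z1' zr (X.wy1 hj c hv r hl n2)⟩
  · push Not at h
    obtain ⟨r', h1, h2, h3⟩ := h
    have zr' := Env.CS.rep_inZone hj c hv h1 h2
    rcases lt_trichotomy (keyT K G c r) (keyT K G c r') with h4 | h4 | h4
    · obtain ⟨n1, n2, n3, _, _, t1⟩ := X.pair hj c hv hl h1 hlev h2 h4
      exact ⟨X.SW_trans c _ _ _ (X.toSW hj c hv.w0 zr z3 (X.w3x hj c hv r hl n1)) s1,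
        X.SW_trans c _ _ _ (X.toSW hj c hv.w1 z1' zr' (X.wy1 hj c hv r' h1 n3))
          (X.toSW hj c hv.w0 zr' zr t1)⟩
    · exact absurd (E.kinj c h4).symm h3
    · obtain ⟨n1, n2, n3, _, _, t1⟩ := X.pair hj c hv h1 hl h2 hlev h4
      exact ⟨X.SW_trans c _ _ _ (X.toSW hj c hv.w0 zr zr' t1) (X.SW_trans c _ _ _
          (X.toSW hj c hv.w0 zr' z3 (X.w3x hj c hv r' h1 n1)) s1),
        X.toSW hj c hv.w1 z1' zr (X.wy1 hj c hv r hl n3)⟩

theorem Env.CS.SW_step : X.SW c (DD K G c (v + 1) 1) (DD K G c v 1) := by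
  by_cases h : ∃ r, labT K G r = 2 ∧ r.1.lev K G c = v
  · obtain ⟨r, hl, hlev⟩ := h
    obtain ⟨h1, h2⟩ := X.SW_rep hj c hv hl hlev
    exact X.SW_trans c _ _ _ h2 h1
  · obtain ⟨su, h1, h2⟩ := E.succ3 c (Env.CS.r0 hj hv) (Env.CS.r1 hj hv)
    rcases h2 with rfl | h2
    · have z1 := dd_zone hj c hv.w0 (show 1 < 4 by omega)
      have z3 := dd_zone hj c hv.w0 (show 3 < 4 by omega)
      have z1' := dd_zone hj c hv.w1 (show 1 < 4 by omega)
      exact X.SW_trans c _ _ _ (X.toSW hj c hv.w0 z1' z3 (X.w30 hj c hv h1))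
        (X.toSW hj c hv.w0 z3 z1 (X.w31 hj c hv))
    · exact absurd ⟨su, h2⟩ h

omit hv in
theorem Env.CS.order {r r' : EltT K G} (hl : labT K G r = 2) (hl' : labT K G r' = 2)
    (hw : E.Win j (r.1.lev K G c)) (hw' : E.Win j (r'.1.lev K G c))
    (hlt : keyT K G c r < keyT K G c r') : X.SU c r r' ∧ X.SW c r' r := by
  constructor
  · refine chain_lemma (Q := X.SU c) (X.SU_trans c) (fun v => DD K G c v 0) c
      (fun v hv => X.SU_step hj c hv) (fun v hv r hl hlev => X.SU_rep hj c hv hl hlev) ?_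
      hl hl' hw hw' hlt
    intro v hv r r' h1 h2 h3 h4 h5
    exact X.toSU hj c hv.w0 (Env.CS.rep_inZone hj c hv h1 h3) (Env.CS.rep_inZone hj c hv h2 h4)
      (X.pair hj c hv h1 h2 h3 h4 h5).2.2.2.2.1
  · refine chain_lemma (Q := fun a b => X.SW c b a) (fun a b d h1 h2 => X.SW_trans c _ _ _ h2 h1)
      (fun v => DD K G c v 1) c
      (fun v hv => X.SW_step hj c hv) (fun v hv r hl hlev => X.SW_rep hj c hv hl hlev) ?_
      hl hl' hw hw' hlt
    intro v hv r r' h1 h2 h3 h4 h5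
    exact X.toSW hj c hv.w0 (Env.CS.rep_inZone hj c hv h2 h4) (Env.CS.rep_inZone hj c hv h1 h3)
      (X.pair hj c hv h1 h2 h3 h4 h5).2.2.2.2.2

end slopes

/-! ### Conclusion for a good zone -/

theorem Env.R_key (E : Env K G) {j i : ℕ} (hj : j < G.length) (hi : i < (G.getD j []).length)
    (c : Fin (K + 2)) : keyT K G c (E.R j i) = 8 * (E.org j + Lv K c ((pnt G j i).lev K c)) +
      (if (c : ℕ) ∈ (pnt G j i).sec then 5 else 4) := by
  unfold keyT Elt.key
  rw [E.R_lev hj hi, E.R_val hj hi]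
  rfl

theorem Env.before_key (E : Env K G) {j i i' : ℕ} (hj : j < G.length)
    (hi : i < (G.getD j []).length) (hi' : i' < (G.getD j []).length) (c : Fin (K + 2))
    (h : (pnt G j i).Before K c (pnt G j i')) :
    keyT K G c (E.R j i) < keyT K G c (E.R j i') := by
  rw [E.R_key hj hi, E.R_key hj hi']
  rcases h with h | ⟨h1, h2, h3⟩
  · have h1 := (Lv_lt (K := K) (c := c)).2 h
    generalize Lv K c ((pnt G j i).lev K c) = x at *
    generalize Lv K c ((pnt G j i').lev K c) = y at *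
    generalize E.org j = z
    split_ifs <;> omega
  · rw [h1, if_neg h2, if_pos h3]
    generalize Lv K c ((pnt G j i').lev K c) = y at *
    generalize E.org j = z
    omega

/-- The data read off from a good zone. -/
theorem Env.sound (E : Env K G) :
    ∃ (d : ℕ → ℝ × ℝ) (pos : ℕ → ℕ → ℝ × ℝ), ∀ j < G.length, ∀ i < (G.getD j []).length,
      ∀ i' < (G.getD j []).length, ∀ c ≤ K + 1, (pnt G j i).Before K c (pnt G j i') →
        0 < crs (d c) (pos j i' - pos j i) := by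
  obtain ⟨X⟩ := E.exists_CS
  refine ⟨fun c => if h : c < K + 2 then sg (X.Om ⟨c, h⟩) • (E.pt (X.wh ⟨c, h⟩) - E.pt (X.uh ⟨c, h⟩))
    else 0, fun j i => E.pt (.inl (E.R j i)), ?_⟩
  intro j hj i hi i' hi' c hc hB
  have hc' : c < K + 2 := by omega
  have h1 := E.before_key hj hi hi' ⟨c, hc'⟩ hB
  obtain ⟨h2, h3⟩ := X.order hj ⟨c, hc'⟩ (E.R_lab hj hi) (E.R_lab hj hi') (E.R_win hj hi _)
    (E.R_win hj hi' _) h1
  have h2' := h2.2
  have h3' := h3.2
  simp only [hc', dif_pos]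
  simp only [crs, Prod.fst_sub, Prod.snd_sub, Prod.smul_fst, Prod.smul_snd, smul_eq_mul] at *
  nlinarith

end Pool.Agent.Lib.MP_612bca_lc
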