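import Pool.Agent.Lib.MP_612bca_lc.PlaneDefs

/-!
# Drawing of the strip: positions of the elements and estimates
-/

namespace Pool.Agent.Lib.MP_612bca_lc

namespace SD

/-! ### Real estimates -/

theorem big {N K : ℝ} (hN : N = 100 * (K + 10)) (hK : 0 ≤ K) :
    1000 ≤ N ∧ K + 10 ≤ N / 100 := by
  constructor <;> linarith

theorem pow_facts {N : ℝ} (hN : 1000 ≤ N) :
    1 ≤ N ^ 4 ∧ 1 ≤ N ^ 3 ∧ 0 < N ^ 5 ∧ 0 < N ^ 6 ∧ 0 < N ^ 8 ∧ 0 < N ^ 9 ∧ 1000 ≤ N ^ 8 := by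
  have h1 : (1 : ℝ) ≤ N := by linarith
  refine ⟨one_le_pow₀ h1, one_le_pow₀ h1, by positivity, by positivity, by positivity,
    by positivity, ?_⟩
  calc (1000 : ℝ) ≤ N := hN
    _ = N ^ 1 := by ring
    _ ≤ N ^ 8 := pow_le_pow_right₀ h1 (by norm_num)

/-- The slope `t` is close to `V`. -/
theorem tt_close {N K c V Λ t : ℝ} (hN : N = 100 * (K + 10)) (hK : 0 ≤ K) (hc0 : 0 ≤ c)
    (hc : c ≤ K) (hV : |V - c| < 1 / N ^ 9) (hΛ : Λ = N ^ 8) (ht : t = V * Λ / (Λ + V)) :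
    |t - c| ≤ 2 / N ^ 6 ∧ 0 < Λ + V ∧ |V| ≤ K + 1 ∧ 0 < Λ := by
  obtain ⟨h1, h2⟩ := big hN hK
  obtain ⟨p4, p3, p5, p6, p8, p9, p8'⟩ := pow_facts h1
  have hN0 : 0 < N := by linarith
  have hη : 1 / N ^ 9 ≤ 1 / N ^ 6 := by
    apply one_div_le_one_div_of_le p6
    exact pow_le_pow_right₀ (by linarith) (by norm_num)
  have hη1 : 1 / N ^ 6 ≤ 1 := by
    rw [div_le_one p6]
    exact one_le_pow₀ (by linarith)
  obtain ⟨v1, v2⟩ := abs_lt.mp hV
  have hVK : |V| ≤ K + 1 := by rw [abs_le]; constructor <;> linarith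
  have hΛV : 0 < Λ + V := by
    rw [hΛ]
    have : N ≤ N ^ 8 := by
      calc N = N ^ 1 := by ring
        _ ≤ N ^ 8 := pow_le_pow_right₀ (by linarith) (by norm_num)
    linarith
  refine ⟨?_, hΛV, hVK, by rw [hΛ]; exact p8⟩
  have e1 : t - V = -(V ^ 2 / (Λ + V)) := by
    rw [ht]; field_simp; ring
  have e2 : V ^ 2 / (Λ + V) ≤ 1 / N ^ 6 := by
    rw [div_le_div_iff₀ hΛV p6]
    have q1 : V ^ 2 ≤ (N / 100) ^ 2 := by
      rw [← sq_abs]
      exact pow_le_pow_left₀ (abs_nonneg _) (by linarith) 2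
    have q2 : V ^ 2 * N ^ 6 ≤ (N / 100) ^ 2 * N ^ 6 := mul_le_mul_of_nonneg_right q1 p6.le
    have q3 : (N / 100) ^ 2 * N ^ 6 = N ^ 8 / 10000 := by ring
    rw [hΛ]
    linarith
  have e3 : 0 ≤ V ^ 2 / (Λ + V) := by positivity
  have e4 : |t - V| ≤ 1 / N ^ 6 := by
    rw [e1, abs_neg, abs_of_nonneg e3]; exact e2
  have e5 : 2 / N ^ 6 = 1 / N ^ 6 + 1 / N ^ 6 := by ring
  calc |t - c| = |(t - V) + (V - c)| := by ring_nf
    _ ≤ |t - V| + |V - c| := abs_add_le _ _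
    _ ≤ 2 / N ^ 6 := by rw [e5]; linarith

/-- Offset of a dummy in a finite class. -/
theorem dum_est {N K c V Λ t x : ℝ} (hN : N = 100 * (K + 10)) (hK : 0 ≤ K) (hc0 : 0 ≤ c)
    (hc : c ≤ K) (hV : |V - c| < 1 / N ^ 9) (hΛ : Λ = N ^ 8) (ht : t = V * Λ / (Λ + V))
    (hx : |x| ≤ N ^ 5) : |t * x - c * x| ≤ 1 / 64 := by
  obtain ⟨h3, -, -, -⟩ := tt_close hN hK hc0 hc hV hΛ ht
  obtain ⟨h1, h2⟩ := big hN hK
  obtain ⟨p4, p3, p5, p6, p8, p9, p8'⟩ := pow_facts h1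
  have : t * x - c * x = (t - c) * x := by ring
  rw [this, abs_mul]
  calc |t - c| * |x| ≤ 2 / N ^ 6 * N ^ 5 :=
        mul_le_mul h3 hx (abs_nonneg _) (by positivity)
    _ = 2 / N := by field_simp
    _ ≤ 1 / 64 := by
        rw [div_le_div_iff₀ (by linarith) (by norm_num)]
        linarith

/-- Offset of a representative in a finite class. -/
theorem rep_est {N K c X Y V X' Y' t Λ : ℝ} (hN : N = 100 * (K + 10)) (hK : 0 ≤ K)
    (hc0 : 0 ≤ c) (hc : c ≤ K) (hX0 : 0 ≤ X) (hX : X ≤ 2) (hY0 : 0 ≤ Y) (hY : Y ≤ 2 * K + 4)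
    (hV : |V - c| < 1 / N ^ 9) (hX' : |X' - X| < 1 / N ^ 9) (hY' : |Y' - Y| < 1 / N ^ 9)
    (hΛ : Λ = N ^ 8) (ht : t = V * Λ / (Λ + V)) :
    |Y' - t * (X' + Y' / Λ) - (Y - c * X)| ≤ 1 / 16 := by
  obtain ⟨h3, h4, h5, h6⟩ := tt_close hN hK hc0 hc hV hΛ ht
  obtain ⟨h1, h2⟩ := big hN hK
  obtain ⟨p4, p3, p5, p6, p8, p9, p8'⟩ := pow_facts h1
  have hN0 : 0 < N := by linarith
  have hη : 1 / N ^ 9 ≤ 1 / N := by
    apply one_div_le_one_div_of_le hN0
    calc N = N ^ 1 := by ring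
      _ ≤ N ^ 9 := pow_le_pow_right₀ (by linarith) (by norm_num)
  have hη6 : 2 / N ^ 6 ≤ 2 / N := by
    apply div_le_div_of_nonneg_left (by norm_num) hN0
    calc N = N ^ 1 := by ring
      _ ≤ N ^ 6 := pow_le_pow_right₀ (by linarith) (by norm_num)
  have hη' : 1 / N ≤ 1 / 1000 := one_div_le_one_div_of_le (by norm_num) h1
  have hη2 : 2 / N = 2 * (1 / N) := by ring
  have a1 : |X'| ≤ 3 := by
    obtain ⟨u1, u2⟩ := abs_lt.mp hX'
    rw [abs_le]; constructor <;> linarith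
  have a2 : |Y'| ≤ 2 * K + 5 := by
    obtain ⟨u1, u2⟩ := abs_lt.mp hY'
    rw [abs_le]; constructor <;> linarith
  have b1 : |(t - c) * X'| ≤ 2 / 1000 * 3 := by
    rw [abs_mul]
    exact mul_le_mul (by linarith) a1 (abs_nonneg _) (by norm_num)
  have b2 : |c * (X' - X)| ≤ 1 / 100 := by
    rw [abs_mul, abs_of_nonneg hc0]
    calc c * |X' - X| ≤ (N / 100) * (1 / N) :=
          mul_le_mul (by linarith) (by linarith) (abs_nonneg _) (by linarith)
      _ = 1 / 100 := by field_simp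
  have b3 : |t * Y' / Λ| ≤ 1 / 1000 := by
    have t1 : |t| ≤ N := by
      obtain ⟨u1, u2⟩ := abs_le.mp h3
      rw [abs_le]; constructor <;> linarith
    have t2 : |t * Y'| ≤ N * N := by
      rw [abs_mul]
      exact mul_le_mul t1 (by linarith) (abs_nonneg _) hN0.le
    rw [abs_div, abs_of_pos h6, div_le_iff₀ h6, hΛ]
    have t3 : N * N * 1000 ≤ N ^ 8 := by
      calc N * N * 1000 ≤ N * N * N := mul_le_mul_of_nonneg_left h1 (by positivity)
        _ = N ^ 3 := by ring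
        _ ≤ N ^ 8 := pow_le_pow_right₀ (by linarith) (by norm_num)
    linarith
  have key : Y' - t * (X' + Y' / Λ) - (Y - c * X) = (Y' - Y) - (t - c) * X' - c * (X' - X)
      - t * Y' / Λ := by ring
  rw [key]
  obtain ⟨u1, u2⟩ := abs_lt.mp hY'
  obtain ⟨u3, u4⟩ := abs_le.mp b1
  obtain ⟨u5, u6⟩ := abs_le.mp b2
  obtain ⟨u7, u8⟩ := abs_le.mp b3
  rw [abs_le]
  constructor <;> linarith

/-- Order of representatives of a group in a finite class. -/
theorem rep_tie {V Λ t X₁ Y₁ X₂ Y₂ o : ℝ} (hΛ : 0 < Λ) (hΛV : 0 < Λ + V)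
    (ht : t = V * Λ / (Λ + V)) (h : Y₁ - V * X₁ < Y₂ - V * X₂) :
    (o + Y₁ + 1 / 2) - t * (X₁ + Y₁ / Λ) < (o + Y₂ + 1 / 2) - t * (X₂ + Y₂ / Λ) := by
  have e : ∀ X Y : ℝ, (o + Y + 1 / 2) - t * (X + Y / Λ)
      = o + 1 / 2 + Λ / (Λ + V) * (Y - V * X) := by
    intro X Y
    rw [ht]; field_simp; ring
  rw [e, e]
  have : Λ / (Λ + V) * (Y₁ - V * X₁) < Λ / (Λ + V) * (Y₂ - V * X₂) :=
    mul_lt_mul_of_pos_left h (by positivity)
  linarith

/-! ### The elements -/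

theorem mem_elts {K : ℕ} {G : List (List Pnt)} {w : Elt} (hw : w ∈ elts K G) :
    (∃ a p, a < rows K G.length ∧ p < 4 ∧ w = Elt.dum a p) ∨
    (∃ s j i, s < zones K ∧ j < G.length ∧ i < (G.getD j []).length ∧ w = Elt.rep s j i) := by
  unfold elts at hw
  rw [List.mem_append] at hw
  rcases hw with hw | hw
  · left
    simp only [List.mem_flatMap, List.mem_range, List.mem_map] at hw
    obtain ⟨a, ha, p, hp, rfl⟩ := hw
    exact ⟨a, p, ha, hp, rfl⟩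
  · right
    simp only [List.mem_flatMap, List.mem_range, List.mem_map] at hw
    obtain ⟨s, hs, ⟨g, j⟩, hq, i, hi, rfl⟩ := hw
    rw [List.mem_zipIdx_iff_getElem?] at hq
    simp only at hq hi
    obtain ⟨hj, hg⟩ := List.getElem?_eq_some_iff.mp hq
    refine ⟨s, j, i, hs, hj, ?_, rfl⟩
    rw [List.getD_eq_getElem?_getD, hq]
    exact hi

theorem pnt_mem {G : List (List Pnt)} {j i : ℕ} (hj : j < G.length)
    (hi : i < (G.getD j []).length) : pnt G j i ∈ G.getD j [] ∧ G.getD j [] ∈ G := by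
  unfold pnt
  constructor
  · rw [List.getD_eq_getElem _ _ hi]
    exact List.getElem_mem hi
  · rw [List.getD_eq_getElem _ _ hj]
    exact List.getElem_mem hj

theorem pnt_bounds {K : ℕ} {G : List (List Pnt)} (hG : ∀ g ∈ G, GoodGroup K g) {j i : ℕ}
    (hj : j < G.length) (hi : i < (G.getD j []).length) :
    (pnt G j i).X ≤ 2 ∧ (pnt G j i).Y ≤ 2 * K + 4 := by
  obtain ⟨h1, h2⟩ := pnt_mem hj hi
  exact ⟨(hG _ h2).X_le _ h1, (hG _ h2).Y_le _ h1⟩

theorem NN_ge (K : ℕ) : 1000 ≤ NN K := by unfold NN; omega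

theorem NN_cast (K : ℕ) : ((NN K : ℕ) : ℝ) = 100 * ((K : ℝ) + 10) := by
  unfold NN; push_cast; ring

/-- The origins of different groups are far from each other. -/
theorem orig_eq {K g s j s' j' : ℕ} (hj : j < g) (hj' : j' < g) {d : ℤ}
    (hd : |d| < (slot K : ℤ)) (h : (orig K g s j : ℤ) = orig K g s' j' + d) :
    s = s' ∧ j = j' := by
  have hs : 0 < slot K := by
    unfold slot
    have := NN_ge K
    positivity
  have h1 : (orig K g s j : ℤ) - orig K g s' j' = slot K * ((zlen g * s + j + 2 : ℕ) -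
      (zlen g * s' + j' + 2 : ℕ) : ℤ) := by
    unfold orig; push_cast; ring
  have h2 : ((zlen g * s + j + 2 : ℕ) : ℤ) - (zlen g * s' + j' + 2 : ℕ) = 0 := by
    by_contra hne
    have h3 : 1 ≤ |((zlen g * s + j + 2 : ℕ) : ℤ) - (zlen g * s' + j' + 2 : ℕ)| :=
      Int.one_le_abs hne
    have h4 : |d| = (slot K : ℤ) * |((zlen g * s + j + 2 : ℕ) : ℤ) - (zlen g * s' + j' + 2 : ℕ)| := by
      have : d = slot K * (((zlen g * s + j + 2 : ℕ) : ℤ) - (zlen g * s' + j' + 2 : ℕ)) := by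
        linarith
      rw [this, abs_mul, abs_of_nonneg (by positivity)]
    have h5 : (slot K : ℤ) * 1 ≤ slot K * |((zlen g * s + j + 2 : ℕ) : ℤ) -
        (zlen g * s' + j' + 2 : ℕ)| := mul_le_mul_of_nonneg_left h3 (by positivity)
    linarith
  have h3 : zlen g * s + j = zlen g * s' + j' := by omega
  have hz : j < zlen g := by unfold zlen; omega
  have hz' : j' < zlen g := by unfold zlen; omega
  have h4 : s = s' := by
    have e1 : (zlen g * s + j) / zlen g = s := by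
      rw [Nat.mul_add_div (by omega), Nat.div_eq_of_lt hz, Nat.add_zero]
    have e2 : (zlen g * s' + j') / zlen g = s' := by
      rw [Nat.mul_add_div (by omega), Nat.div_eq_of_lt hz', Nat.add_zero]
    rw [← e1, h3, e2]
  subst h4
  exact ⟨rfl, by omega⟩

end SD

end Pool.Agent.Lib.MP_612bca_lc
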