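import Pool.Agent.Lib.MP_612bca_lc.StripDrawing0

/-!
# Drawing of the strip: the order of the elements
-/

namespace Pool.Agent.Lib.MP_612bca_lc

namespace SD

/-- Slope used for the class `c`. -/
noncomputable def tt (K : ℕ) (V : ℕ → ℝ) (c : ℕ) : ℝ :=
  if c = K + 1 then (NN K : ℝ) ^ 8 else V c * (NN K : ℝ) ^ 8 / ((NN K : ℝ) ^ 8 + V c)

/-- Position of an element. -/
noncomputable def place (K : ℕ) (G : List (List Pnt)) (pos : ℕ → ℕ → ℝ × ℝ) : Elt → ℝ × ℝ
  | .dum a p => ((col K p : ℝ), (a : ℝ) + p / 16)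
  | .rep s j i => ((pos j i).1 + (pos j i).2 / (NN K : ℝ) ^ 8,
      (orig K G.length s j : ℝ) + (pos j i).2 + 1 / 2)

theorem slo_cast (K c : ℕ) :
    ((slo K c : ℤ) : ℝ) = if c = K + 1 then (NN K : ℝ) ^ 8 else (c : ℝ) := by
  unfold slo
  split_ifs <;> push_cast <;> rfl

theorem col_abs (K p : ℕ) : |((col K p : ℤ) : ℝ)| ≤ (NN K : ℝ) ^ 5 := by
  have h1 : (1 : ℝ) ≤ NN K := by
    have := NN_ge K
    exact_mod_cast (by omega : 1 ≤ NN K)
  have key : ∀ m ≤ 5, (NN K : ℝ) ^ m ≤ (NN K : ℝ) ^ 5 := fun m hm => pow_le_pow_right₀ h1 hm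
  have h0 : ∀ m, (0 : ℝ) ≤ (NN K : ℝ) ^ m := fun m => by positivity
  unfold col
  split
  · push_cast; rw [abs_of_nonneg (h0 _)]; exact key 2 (by norm_num)
  · push_cast; rw [abs_neg, abs_of_nonneg (h0 _)]; exact key 3 (by norm_num)
  · push_cast; rw [abs_of_nonneg (h0 _)]; exact key 4 (by norm_num)
  · push_cast; rw [abs_neg, abs_of_nonneg (h0 _)]

theorem dum_off {K : ℕ} {G : List (List Pnt)} {V : ℕ → ℝ} {pos : ℕ → ℕ → ℝ × ℝ}
    (hV : ∀ c ≤ K, |V c - c| < 1 / (NN K : ℝ) ^ 9) (a p c : ℕ) (hc : c ≤ K + 1) :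
    |(place K G pos (.dum a p)).2 - tt K V c * (place K G pos (.dum a p)).1
      - (((Elt.dum a p).lev K G c : ℤ) + (p : ℝ) / 16)| ≤ 1 / 64 := by
  unfold place tt Elt.lev
  push_cast
  rw [slo_cast]
  split_ifs with h
  · have : (a : ℝ) + p / 16 - (NN K : ℝ) ^ 8 * (col K p : ℝ)
        - ((a : ℝ) - (NN K : ℝ) ^ 8 * (col K p : ℝ) + p / 16) = 0 := by ring
    rw [this]; norm_num
  · have hcK : c ≤ K := by omega
    have h1 := dum_est (NN_cast K) (by positivity : (0 : ℝ) ≤ K) (by positivity : (0 : ℝ) ≤ c)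
      (by exact_mod_cast hcK) (hV c hcK) rfl rfl (col_abs K p)
    have : (a : ℝ) + p / 16 - V c * (NN K : ℝ) ^ 8 / ((NN K : ℝ) ^ 8 + V c) * (col K p : ℝ)
        - ((a : ℝ) - c * (col K p : ℝ) + p / 16)
        = -(V c * (NN K : ℝ) ^ 8 / ((NN K : ℝ) ^ 8 + V c) * (col K p : ℝ)
          - c * (col K p : ℝ)) := by ring
    rw [this, abs_neg]
    exact h1

theorem rep_off {K : ℕ} {G : List (List Pnt)} {V : ℕ → ℝ} {pos : ℕ → ℕ → ℝ × ℝ}
    (hG : ∀ g ∈ G, GoodGroup K g)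
    (hV : ∀ c ≤ K, |V c - c| < 1 / (NN K : ℝ) ^ 9) {s j i c : ℕ} (hj : j < G.length)
    (hi : i < (G.getD j []).length)
    (hX : |(pos j i).1 - (pnt G j i).X| < 1 / (NN K : ℝ) ^ 9)
    (hY : |(pos j i).2 - (pnt G j i).Y| < 1 / (NN K : ℝ) ^ 9) (hc : c ≤ K + 1) :
    |(place K G pos (.rep s j i)).2 - tt K V c * (place K G pos (.rep s j i)).1
      - (((Elt.rep s j i).lev K G c : ℤ) + 1 / 2)| ≤ 1 / 16 := by
  obtain ⟨b1, b2⟩ := pnt_bounds hG hj hi
  have hN : (1000 : ℝ) ≤ NN K := by exact_mod_cast NN_ge K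
  unfold place tt Elt.lev
  split_ifs with h
  · push_cast
    rw [slo_cast, if_pos h]
    have h8 : (0 : ℝ) < (NN K : ℝ) ^ 8 := by positivity
    have : (orig K G.length s j : ℝ) + (pos j i).2 + 1 / 2
        - (NN K : ℝ) ^ 8 * ((pos j i).1 + (pos j i).2 / (NN K : ℝ) ^ 8)
        - ((orig K G.length s j : ℝ) + -((NN K : ℝ) ^ 8 * ((pnt G j i).X : ℝ)) + 1 / 2)
        = -((NN K : ℝ) ^ 8 * ((pos j i).1 - (pnt G j i).X)) := by
      field_simp; ring
    rw [this, abs_neg, abs_mul, abs_of_pos h8]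
    calc (NN K : ℝ) ^ 8 * |(pos j i).1 - (pnt G j i).X|
        ≤ (NN K : ℝ) ^ 8 * (1 / (NN K : ℝ) ^ 9) := mul_le_mul_of_nonneg_left hX.le h8.le
      _ = 1 / NN K := by field_simp
      _ ≤ 1 / 16 := one_div_le_one_div_of_le (by norm_num) (by linarith)
  · have hcK : c ≤ K := by omega
    have h1 := rep_est (NN_cast K) (by positivity : (0 : ℝ) ≤ K) (by positivity : (0 : ℝ) ≤ c)
      (by exact_mod_cast hcK) (by positivity : (0 : ℝ) ≤ ((pnt G j i).X : ℝ))
      (by exact_mod_cast b1) (by positivity : (0 : ℝ) ≤ ((pnt G j i).Y : ℝ))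
      (by exact_mod_cast b2) (hV c hcK) hX hY rfl rfl
    push_cast
    have : (orig K G.length s j : ℝ) + (pos j i).2 + 1 / 2
        - V c * (NN K : ℝ) ^ 8 / ((NN K : ℝ) ^ 8 + V c)
          * ((pos j i).1 + (pos j i).2 / (NN K : ℝ) ^ 8)
        - ((orig K G.length s j : ℝ) + (((pnt G j i).Y : ℝ) - c * ((pnt G j i).X : ℝ)) + 1 / 2)
        = (pos j i).2 - V c * (NN K : ℝ) ^ 8 / ((NN K : ℝ) ^ 8 + V c)
          * ((pos j i).1 + (pos j i).2 / (NN K : ℝ) ^ 8)
          - (((pnt G j i).Y : ℝ) - c * ((pnt G j i).X : ℝ)) := by ring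
    rw [this]
    exact h1

theorem sub_dum (G : List (List Pnt)) (c a p : ℕ) : (Elt.dum a p).sub G c = p := rfl

theorem sub_rep (G : List (List Pnt)) (c s j i : ℕ) :
    (Elt.rep s j i).sub G c = if c ∈ (pnt G j i).sec then 5 else 4 := rfl

theorem place_rep (K : ℕ) (G : List (List Pnt)) (pos : ℕ → ℕ → ℝ × ℝ) (s j i : ℕ) :
    place K G pos (.rep s j i) = ((pos j i).1 + (pos j i).2 / (NN K : ℝ) ^ 8,
      (orig K G.length s j : ℝ) + (pos j i).2 + 1 / 2) := rfl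

theorem NN_pos_int (K : ℕ) : (0 : ℤ) < NN K := by
  have := NN_ge K
  exact_mod_cast (by omega : 0 < NN K)

theorem NN_pos_real (K : ℕ) : (0 : ℝ) < NN K := by
  have := NN_ge K
  exact_mod_cast (by omega : 0 < NN K)

theorem sub_bounds {K : ℕ} {G : List (List Pnt)} {w : Elt} (hw : w ∈ elts K G) (c : ℕ) :
    0 ≤ w.sub G c ∧ w.sub G c ≤ 5 := by
  rcases mem_elts hw with ⟨a, p, -, hp, rfl⟩ | ⟨s, j, i, -, -, -, rfl⟩
  · rw [sub_dum]; constructor <;> omega
  · rw [sub_rep]; split_ifs <;> norm_num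

/-- Levels of the points of a group. -/
theorem lev_rep {K : ℕ} {G : List (List Pnt)} (s j i c : ℕ) :
    (Elt.rep s j i).lev K G c = orig K G.length s j +
      (if c = K + 1 then (NN K : ℤ) ^ 8 * (pnt G j i).lev K c else (pnt G j i).lev K c) := by
  unfold Elt.lev Pnt.lev slo
  simp only
  split_ifs <;> ring

theorem plev_bound {K : ℕ} {G : List (List Pnt)} (hG : ∀ g ∈ G, GoodGroup K g) {j i c : ℕ}
    (hj : j < G.length) (hi : i < (G.getD j []).length) (hc : c ≤ K + 1) :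
    |if c = K + 1 then (NN K : ℤ) ^ 8 * (pnt G j i).lev K c else (pnt G j i).lev K c|
      ≤ (NN K : ℤ) ^ 9 := by
  obtain ⟨b1, b2⟩ := pnt_bounds hG hj hi
  have hN : (1000 : ℤ) ≤ NN K := by exact_mod_cast NN_ge K
  have hN' : (NN K : ℤ) = 100 * (K + 10) := by unfold NN; push_cast; ring
  have hle : (NN K : ℤ) ≤ (NN K : ℤ) ^ 9 := by
    calc (NN K : ℤ) = (NN K : ℤ) ^ 1 := by ring
      _ ≤ (NN K : ℤ) ^ 9 := pow_le_pow_right₀ (by linarith) (by norm_num)
  have b1' : ((pnt G j i).X : ℤ) ≤ 2 := by exact_mod_cast b1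
  have b2' : ((pnt G j i).Y : ℤ) ≤ 2 * K + 4 := by exact_mod_cast b2
  have b3 : (0 : ℤ) ≤ ((pnt G j i).X : ℤ) := by positivity
  have b4 : (0 : ℤ) ≤ ((pnt G j i).Y : ℤ) := by positivity
  split_ifs with h
  · rw [abs_mul, abs_of_nonneg (by positivity)]
    calc (NN K : ℤ) ^ 8 * |(pnt G j i).lev K c| ≤ (NN K : ℤ) ^ 8 * NN K := by
          apply mul_le_mul_of_nonneg_left _ (by positivity)
          unfold Pnt.lev
          rw [if_pos h, abs_neg, abs_of_nonneg b3]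
          linarith
      _ = (NN K : ℤ) ^ 9 := by ring
  · unfold Pnt.lev
    rw [if_neg h]
    have hcK : (c : ℤ) ≤ K := by
      have : c ≤ K := by omega
      exact_mod_cast this
    have b5 : (c : ℤ) * (pnt G j i).X ≤ K * 2 :=
      mul_le_mul hcK b1' b3 (by positivity)
    have b6 : (0 : ℤ) ≤ (c : ℤ) * (pnt G j i).X := by positivity
    rw [abs_le]
    constructor <;> linarith

theorem slot_big (K : ℕ) : (NN K : ℤ) ^ 9 + (NN K : ℤ) ^ 9 < (slot K : ℤ) := by
  have hN : (1000 : ℤ) ≤ NN K := by exact_mod_cast NN_ge K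
  unfold slot
  push_cast
  have h1 : (NN K : ℤ) ^ 15 = (NN K : ℤ) ^ 9 * (NN K : ℤ) ^ 6 := by ring
  have h2 : (NN K : ℤ) ≤ (NN K : ℤ) ^ 6 := by
    calc (NN K : ℤ) = (NN K : ℤ) ^ 1 := by ring
      _ ≤ (NN K : ℤ) ^ 6 := pow_le_pow_right₀ (by linarith) (by norm_num)
  have h3 : 0 < (NN K : ℤ) ^ 9 := by positivity
  rw [h1]
  nlinarith

/-- The order of the offsets is the order of the keys. -/
theorem order {K : ℕ} {G : List (List Pnt)} {V : ℕ → ℝ} {pos : ℕ → ℕ → ℝ × ℝ}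
    (hG : ∀ g ∈ G, GoodGroup K g)
    (hV : ∀ c ≤ K, |V c - c| < 1 / (NN K : ℝ) ^ 9)
    (hpos : ∀ j < G.length, ∀ i < (G.getD j []).length,
        |(pos j i).1 - (pnt G j i).X| < 1 / (NN K : ℝ) ^ 9 ∧
        |(pos j i).2 - (pnt G j i).Y| < 1 / (NN K : ℝ) ^ 9 ∧
        ∀ i' < (G.getD j []).length, ∀ c ≤ K + 1,
          (pnt G j i).Before K c (pnt G j i') →
            if c = K + 1 then (pos j i').1 < (pos j i).1
            else (pos j i).2 - V c * (pos j i).1 < (pos j i').2 - V c * (pos j i').1)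
    {w w' : Elt} (hw : w ∈ elts K G) (hw' : w' ∈ elts K G) {c : ℕ} (hc : c ≤ K + 1)
    (h : w.key K G c < w'.key K G c) :
    (place K G pos w).2 - tt K V c * (place K G pos w).1 <
      (place K G pos w').2 - tt K V c * (place K G pos w').1 := by
  obtain ⟨s1, s2⟩ := sub_bounds hw c
  obtain ⟨s3, s4⟩ := sub_bounds hw' c
  unfold Elt.key at h
  have hlev : w.lev K G c < w'.lev K G c ∨
      (w.lev K G c = w'.lev K G c ∧ w.sub G c < w'.sub G c) := by omega
  -- rough position of an element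
  have lo : ∀ u ∈ elts K G, ((u.lev K G c : ℤ) : ℝ) - 1 / 64 ≤
      (place K G pos u).2 - tt K V c * (place K G pos u).1 := by
    intro u hu
    rcases mem_elts hu with ⟨a, p, -, hp, rfl⟩ | ⟨s, j, i, -, hj, hi, rfl⟩
    · obtain ⟨h1, h2⟩ := abs_le.mp (dum_off (G := G) (pos := pos) hV a p c hc)
      have : (0 : ℝ) ≤ (p : ℝ) / 16 := by positivity
      linarith
    · obtain ⟨g1, g2, -⟩ := hpos j hj i hi
      obtain ⟨h1, h2⟩ := abs_le.mp (rep_off hG hV hj hi g1 g2 hc (s := s))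
      linarith
  have hi' : ∀ u ∈ elts K G, (place K G pos u).2 - tt K V c * (place K G pos u).1 ≤
      ((u.lev K G c : ℤ) : ℝ) + 1 / 2 + 1 / 16 := by
    intro u hu
    rcases mem_elts hu with ⟨a, p, -, hp, rfl⟩ | ⟨s, j, i, -, hj, hi, rfl⟩
    · obtain ⟨h1, h2⟩ := abs_le.mp (dum_off (G := G) (pos := pos) hV a p c hc)
      have : (p : ℝ) ≤ 3 := by exact_mod_cast (by omega : p ≤ 3)
      linarith
    · obtain ⟨g1, g2, -⟩ := hpos j hj i hi
      obtain ⟨h1, h2⟩ := abs_le.mp (rep_off hG hV hj hi g1 g2 hc (s := s))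
      linarith
  rcases hlev with hlev | ⟨hlev, hsub⟩
  · have h1 := lo w' hw'
    have h2 := hi' w hw
    have h3 : ((w.lev K G c : ℤ) : ℝ) + 1 ≤ ((w'.lev K G c : ℤ) : ℝ) := by
      exact_mod_cast (by omega : w.lev K G c + 1 ≤ w'.lev K G c)
    linarith
  have hlev' : ((w.lev K G c : ℤ) : ℝ) = ((w'.lev K G c : ℤ) : ℝ) := by exact_mod_cast hlev
  rcases mem_elts hw with ⟨a, p, -, hp, rfl⟩ | ⟨s, j, i, -, hj, hi, rfl⟩
  · obtain ⟨h1, h2⟩ := abs_le.mp (dum_off (G := G) (pos := pos) hV a p c hc)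
    rcases mem_elts hw' with ⟨a', p', -, hp', rfl⟩ | ⟨s', j', i', -, hj', hi'', rfl⟩
    · obtain ⟨h3, h4⟩ := abs_le.mp (dum_off (G := G) (pos := pos) hV a' p' c hc)
      have : (p : ℝ) + 1 ≤ p' := by
        rw [sub_dum, sub_dum] at hsub
        exact_mod_cast (by omega : p + 1 ≤ p')
      linarith
    · obtain ⟨g1, g2, -⟩ := hpos j' hj' i' hi''
      obtain ⟨h3, h4⟩ := abs_le.mp (rep_off hG hV hj' hi'' g1 g2 hc (s := s'))
      have : (p : ℝ) ≤ 3 := by exact_mod_cast (by omega : p ≤ 3)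
      linarith
  · rcases mem_elts hw' with ⟨a', p', -, hp', rfl⟩ | ⟨s', j', i', -, hj', hi'', rfl⟩
    · exfalso
      rw [sub_dum, sub_rep] at hsub
      split_ifs at hsub <;> omega
    · -- two representatives at the same level
      rw [lev_rep, lev_rep] at hlev
      have b1 := plev_bound hG hj hi hc
      have b2 := plev_bound hG hj' hi'' hc
      have b3 := slot_big K
      obtain ⟨rfl, rfl⟩ := orig_eq (K := K) (g := G.length) hj hj'
        (d := (if c = K + 1 then (NN K : ℤ) ^ 8 * (pnt G j' i').lev K c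
          else (pnt G j' i').lev K c) - (if c = K + 1 then (NN K : ℤ) ^ 8 * (pnt G j i).lev K c
          else (pnt G j i).lev K c))
        (by
          obtain ⟨u1, u2⟩ := abs_le.mp b1
          obtain ⟨u3, u4⟩ := abs_le.mp b2
          rw [abs_lt]
          constructor <;> linarith)
        (by linarith)
      have hpl : (pnt G j i).lev K c = (pnt G j i').lev K c := by
        have h1 := add_left_cancel hlev
        split_ifs at h1 with hcc
        · exact mul_left_cancel₀ (pow_pos (NN_pos_int K) 8).ne' h1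
        · exact h1
      have hbef : (pnt G j i).Before K c (pnt G j i') := by
        right
        refine ⟨hpl, ?_⟩
        rw [sub_rep, sub_rep] at hsub
        split_ifs at hsub with k1 k2 k2
        · omega
        · omega
        · exact ⟨k1, k2⟩
        · omega
      obtain ⟨g1, g2, g3⟩ := hpos j hj i hi
      have g4 := g3 i' hi'' c hc hbef
      have h8 : (0 : ℝ) < (NN K : ℝ) ^ 8 := pow_pos (NN_pos_real K) 8
      rw [place_rep, place_rep]
      unfold tt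
      by_cases hcc : c = K + 1
      · rw [if_pos hcc] at g4 ⊢
        have e : ∀ X Y : ℝ, (orig K G.length s j : ℝ) + Y + 1 / 2
            - (NN K : ℝ) ^ 8 * (X + Y / (NN K : ℝ) ^ 8)
            = (orig K G.length s j : ℝ) + 1 / 2 - (NN K : ℝ) ^ 8 * X := by
          intro X Y
          have hne : (NN K : ℝ) ≠ 0 := (NN_pos_real K).ne'
          field_simp; ring
        simp only
        rw [e, e]
        have := mul_lt_mul_of_pos_left g4 h8
        linarith
      · rw [if_neg hcc] at g4 ⊢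
        have hcK : c ≤ K := by omega
        obtain ⟨-, q1, -, -⟩ := tt_close (NN_cast K) (by positivity : (0 : ℝ) ≤ K)
          (by positivity : (0 : ℝ) ≤ c) (by exact_mod_cast hcK) (hV c hcK) rfl rfl
        exact rep_tie h8 q1 rfl g4

theorem tt_inj {K : ℕ} {V : ℕ → ℝ} (hV : ∀ c ≤ K, |V c - c| < 1 / (NN K : ℝ) ^ 9) :
    Function.Injective (fun c : Fin (K + 2) => tt K V c) := by
  have hN : (1000 : ℝ) ≤ NN K := by exact_mod_cast NN_ge K
  obtain ⟨p4, p3, p5, p6, p8, p9, p8'⟩ := pow_facts hN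
  have hη : 1 / (NN K : ℝ) ^ 9 ≤ 1 / 1000 := by
    apply one_div_le_one_div_of_le (by norm_num)
    calc (1000 : ℝ) ≤ NN K := hN
      _ = (NN K : ℝ) ^ 1 := by ring
      _ ≤ (NN K : ℝ) ^ 9 := pow_le_pow_right₀ (by linarith) (by norm_num)
  have hη6 : 2 / (NN K : ℝ) ^ 6 ≤ 2 / 1000 := by
    apply div_le_div_of_nonneg_left (by norm_num) (by norm_num)
    calc (1000 : ℝ) ≤ NN K := hN
      _ = (NN K : ℝ) ^ 1 := by ring
      _ ≤ (NN K : ℝ) ^ 6 := pow_le_pow_right₀ (by linarith) (by norm_num)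
  have hK0 : (0 : ℝ) ≤ K := by positivity
  have hNK := NN_cast K
  have hbig : (K : ℝ) + 10 < (NN K : ℝ) ^ 8 := by
    have : (NN K : ℝ) ≤ (NN K : ℝ) ^ 8 := by
      calc (NN K : ℝ) = (NN K : ℝ) ^ 1 := by ring
        _ ≤ (NN K : ℝ) ^ 8 := pow_le_pow_right₀ (by linarith) (by norm_num)
    linarith
  have key : ∀ c : Fin (K + 2), ((c : ℕ) = K + 1 ∧ tt K V c = (NN K : ℝ) ^ 8) ∨
      ((c : ℕ) ≤ K ∧ |tt K V c - (c : ℕ)| ≤ 2 / 1000) := by
    intro c
    by_cases hc : (c : ℕ) = K + 1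
    · left; exact ⟨hc, by unfold tt; rw [if_pos hc]⟩
    · right
      have hcK : (c : ℕ) ≤ K := by have := c.2; omega
      refine ⟨hcK, ?_⟩
      obtain ⟨q, -, -, -⟩ := tt_close (NN_cast K) hK0 (by positivity : (0 : ℝ) ≤ (c : ℕ))
          (by exact_mod_cast hcK) (hV c hcK) rfl rfl
      unfold tt
      rw [if_neg hc]
      linarith
  intro c c' h
  simp only at h
  rcases key c with ⟨h1, h2⟩ | ⟨h1, h2⟩ <;> rcases key c' with ⟨h3, h4⟩ | ⟨h3, h4⟩
  · exact Fin.ext (h1.trans h3.symm)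
  · exfalso
    rw [← h, h2] at h4
    obtain ⟨u1, u2⟩ := abs_le.mp h4
    have : ((c' : ℕ) : ℝ) ≤ K := by exact_mod_cast h3
    linarith
  · exfalso
    rw [h, h4] at h2
    obtain ⟨u1, u2⟩ := abs_le.mp h2
    have : ((c : ℕ) : ℝ) ≤ K := by exact_mod_cast h1
    linarith
  · rw [h] at h2
    obtain ⟨u1, u2⟩ := abs_le.mp h2
    obtain ⟨u3, u4⟩ := abs_le.mp h4
    apply Fin.ext
    have v1 : ((c : ℕ) : ℝ) < (c' : ℕ) + 1 := by linarith
    have v2 : ((c' : ℕ) : ℝ) < (c : ℕ) + 1 := by linarith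
    have w1 : (c : ℕ) < (c' : ℕ) + 1 := by exact_mod_cast v1
    have w2 : (c' : ℕ) < (c : ℕ) + 1 := by exact_mod_cast v2
    omega

/-- Abscissae of the elements. -/
theorem abscissa {K : ℕ} {G : List (List Pnt)} {pos : ℕ → ℕ → ℝ × ℝ}
    (hG : ∀ g ∈ G, GoodGroup K g)
    (hpos : ∀ j < G.length, ∀ i < (G.getD j []).length,
        |(pos j i).1 - (pnt G j i).X| < 1 / (NN K : ℝ) ^ 9 ∧
        |(pos j i).2 - (pnt G j i).Y| < 1 / (NN K : ℝ) ^ 9)
    {w : Elt} (hw : w ∈ elts K G) :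
    (w.lab = 0 → (NN K : ℝ) ^ 2 ≤ (place K G pos w).1) ∧
    (w.lab = 1 → (place K G pos w).1 ≤ -(NN K : ℝ) ^ 3) ∧
    (w.lab = 2 → |(place K G pos w).1| ≤ 4) ∧ w.lab ≤ 2 := by
  have hN : (1000 : ℝ) ≤ NN K := by exact_mod_cast NN_ge K
  rcases mem_elts hw with ⟨a, p, -, hp, rfl⟩ | ⟨s, j, i, -, hj, hi, rfl⟩
  · unfold Elt.lab place
    simp only
    interval_cases p
    · refine ⟨fun _ => ?_, fun h => ?_, fun h => ?_, by norm_num⟩
      · simp [col]
      · norm_num at h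
      · norm_num at h
    · refine ⟨fun h => ?_, fun _ => ?_, fun h => ?_, by norm_num⟩
      · norm_num at h
      · simp [col]
      · norm_num at h
    · refine ⟨fun _ => ?_, fun h => ?_, fun h => ?_, by norm_num⟩
      · simp only [col]; push_cast
        exact pow_le_pow_right₀ (by linarith) (by norm_num)
      · norm_num at h
      · norm_num at h
    · refine ⟨fun h => ?_, fun _ => ?_, fun h => ?_, by norm_num⟩
      · norm_num at h
      · simp only [col]; push_cast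
        have : (NN K : ℝ) ^ 3 ≤ (NN K : ℝ) ^ 5 :=
          pow_le_pow_right₀ (by linarith) (by norm_num)
        linarith
      · norm_num at h
  · obtain ⟨b1, b2⟩ := pnt_bounds hG hj hi
    obtain ⟨g1, g2⟩ := hpos j hj i hi
    refine ⟨fun h => by simp [Elt.lab] at h, fun h => by simp [Elt.lab] at h, fun _ => ?_,
      by simp [Elt.lab]⟩
    unfold place
    simp only
    have hη : 1 / (NN K : ℝ) ^ 9 ≤ 1 := by
      rw [div_le_one (by positivity)]
      exact one_le_pow₀ (by linarith)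
    have b1' : ((pnt G j i).X : ℝ) ≤ 2 := by exact_mod_cast b1
    have b2' : ((pnt G j i).Y : ℝ) ≤ 2 * K + 4 := by exact_mod_cast b2
    have b3 : (0 : ℝ) ≤ ((pnt G j i).X : ℝ) := by positivity
    have b4 : (0 : ℝ) ≤ ((pnt G j i).Y : ℝ) := by positivity
    obtain ⟨u1, u2⟩ := abs_lt.mp g1
    obtain ⟨u3, u4⟩ := abs_lt.mp g2
    have hNK := NN_cast K
    have h8 : (NN K : ℝ) ≤ (NN K : ℝ) ^ 8 := by
      calc (NN K : ℝ) = (NN K : ℝ) ^ 1 := by ring
        _ ≤ (NN K : ℝ) ^ 8 := pow_le_pow_right₀ (by linarith) (by norm_num)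
    have hK0 : (0 : ℝ) ≤ K := by positivity
    have h9 : |(pos j i).2 / (NN K : ℝ) ^ 8| ≤ 1 := by
      rw [abs_div, abs_of_pos (by positivity : (0 : ℝ) < (NN K : ℝ) ^ 8),
        div_le_one (by positivity)]
      rw [abs_le]
      constructor <;> linarith
    obtain ⟨u5, u6⟩ := abs_le.mp h9
    rw [abs_le]
    constructor <;> linarith

end SD

end Pool.Agent.Lib.MP_612bca_lc
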