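import Pool.Agent.Lib.MP_612bca_lc.StripDrawing1

/-!
# Drawing of the strip: assembly from the results on groups and on strips
-/

namespace Pool.Agent.Lib.MP_612bca_lc

namespace SD

/-- The drawing of the strip, given the positions of the groups. -/
theorem main (K : ℕ) (G : List (List Pnt)) (hG : ∀ g ∈ G, GoodGroup K g)
    (hinj : ∀ c : Fin (K + 2), Function.Injective (keyT K G c))
    (hgrp : ∀ δ > 0, ∃ (V : ℕ → ℝ) (pos : ℕ → ℕ → ℝ × ℝ), (∀ c ≤ K, |V c - c| < δ) ∧
      ∀ j < G.length, ∀ i < (G.getD j []).length,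
        |(pos j i).1 - (pnt G j i).X| < δ ∧ |(pos j i).2 - (pnt G j i).Y| < δ ∧
        ∀ i' < (G.getD j []).length, ∀ c ≤ K + 1,
          (pnt G j i).Before K c (pnt G j i') →
            if c = K + 1 then (pos j i').1 < (pos j i).1
            else (pos j i).2 - V c * (pos j i).1 < (pos j i').2 - V c * (pos j i').1)
    (hstrip : ∀ (p : EltT K G → ℝ × ℝ) (t : Fin (K + 2) → ℝ), Function.Injective t →
      (∀ c w w', keyT K G c w < keyT K G c w' →
        (p w).2 - t c * (p w).1 < (p w').2 - t c * (p w').1) →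
      (∀ w w', labT K G w = 0 → labT K G w' ≠ 0 → (p w').1 < (p w).1) →
      (∀ w w', labT K G w = 1 → labT K G w' ≠ 1 → (p w).1 < (p w').1) →
      (∀ w, labT K G w ≤ 2) → 1 ≤ K + 2 →
      GeometricThicknessLE (stripGraph (labT K G) (keyT K G)) (K + 2)) :
    GeometricThicknessLE (stripGraph (labT K G) (keyT K G)) (K + 2) := by
  have hN : (1000 : ℝ) ≤ NN K := by exact_mod_cast NN_ge K
  obtain ⟨V, pos, hV, hpos⟩ := hgrp (1 / (NN K : ℝ) ^ 9) (by positivity)
  have habs : ∀ w : EltT K G, _ := fun w => abscissa (pos := pos) hG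
    (fun j hj i hi => ⟨(hpos j hj i hi).1, (hpos j hj i hi).2.1⟩) w.2
  have h2 : (4 : ℝ) < (NN K : ℝ) ^ 2 := by
    calc (4 : ℝ) < NN K := by linarith
      _ = (NN K : ℝ) ^ 1 := by ring
      _ ≤ (NN K : ℝ) ^ 2 := pow_le_pow_right₀ (by linarith) (by norm_num)
  have h3 : (4 : ℝ) < (NN K : ℝ) ^ 3 := by
    calc (4 : ℝ) < NN K := by linarith
      _ = (NN K : ℝ) ^ 1 := by ring
      _ ≤ (NN K : ℝ) ^ 3 := pow_le_pow_right₀ (by linarith) (by norm_num)
  refine hstrip (fun w => place K G pos w.1) (fun c => tt K V c) (tt_inj hV) ?_ ?_ ?_ ?_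
    (by omega)
  · intro c w w' h
    exact order hG hV hpos w.2 w'.2 (by have := c.2; omega) h
  · intro w w' hw hw'
    obtain ⟨a1, -, -, -⟩ := habs w
    obtain ⟨-, b2, b3, b4⟩ := habs w'
    have c1 := a1 hw
    have hw'' : w'.1.lab ≠ 0 := hw'
    have : w'.1.lab = 1 ∨ w'.1.lab = 2 := by omega
    rcases this with h | h
    · have c2 := b2 h
      linarith
    · have c2 := (abs_le.mp (b3 h)).2
      linarith
  · intro w w' hw hw'
    obtain ⟨-, a2, -, -⟩ := habs w
    obtain ⟨b1, -, b3, b4⟩ := habs w'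
    have c1 := a2 hw
    have hw'' : w'.1.lab ≠ 1 := hw'
    have : w'.1.lab = 0 ∨ w'.1.lab = 2 := by omega
    rcases this with h | h
    · have c2 := b1 h
      linarith
    · have c2 := (abs_le.mp (b3 h)).1
      linarith
  · intro w
    exact (habs w).2.2.2

end SD

end Pool.Agent.Lib.MP_612bca_lc
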