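import Pool.Agent.Lib.MP_612bca_lc.Slopes
import Pool.Agent.Lib.MP_612bca_lc.EdgeCount

/-!
# The soundness proof: existence of a good zone
-/

namespace Pool.Agent.Lib.MP_612bca_lc

attribute [local irreducible] NN zones slot slo MP_612bca_lc.col zlo zhi rho

variable {K : ℕ} {G : List (List Pnt)}

theorem zhi_eq (s : ℕ) : zhi K G s = (NN K : ℤ) ^ 15 * (zlen G.length * (s + 1) + 1) := by
  unfold zhi
  rw [slot_eq]

theorem zlo_eq (s : ℕ) : zlo K G s = (NN K : ℤ) ^ 15 * (zlen G.length * s + 1) := by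
  unfold zlo
  rw [slot_eq]

theorem zone_lt {s s' : ℕ} (h : zlo K G s < zhi K G s') : s ≤ s' := by
  rw [zhi_eq, zlo_eq] at h
  have h15 := pow_pos' K 15
  have h1 := (mul_lt_mul_iff_right₀ (show (0 : ℤ) < (NN K : ℤ) ^ 15 by linarith)).1 h
  have h2 : zlen G.length * s + 1 < zlen G.length * (s' + 1) + 1 := by exact_mod_cast h1
  have h3 : zlen G.length * s < zlen G.length * (s' + 1) := by omega
  have h4 := Nat.lt_of_mul_lt_mul_left h3
  omega

theorem zone_unique {s s' : ℕ} {w : Elt} (h : InZone K G s w) (h' : InZone K G s' w) :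
    s = s' := by
  have h1 : s ≤ s' := zone_lt (K := K) (G := G) (by linarith [h.1, h'.2])
  have h2 : s' ≤ s := zone_lt (K := K) (G := G) (by linarith [h'.1, h.2])
  omega

section

variable (pt : SVert (EltT K G) (K + 2) → ℝ × ℝ) (cl : Sym2 (SVert (EltT K G) (K + 2)) → ℕ)

/-- Possible defects of a zone. -/
abbrev Defect (K : ℕ) (G : List (List Pnt)) (pt : SVert (EltT K G) (K + 2) → ℝ × ℝ)
    (cl : Sym2 (SVert (EltT K G) (K + 2)) → ℕ) : Type :=
  {v : SVert (EltT K G) (K + 2) // ¬ Good (Gam K G) (K + 2) pt cl v} ⊕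
    (Fin (K + 2) × (Fin (K + 2) × Bool) × Bool)

/-- The zone `s` has the defect `τ`. -/
def HasDefect (s : ℕ) : Defect K G pt cl → Prop
  | .inl v => ∃ w : EltT K G, InZone K G s w.1 ∧ v.1 = .inl w
  | .inr (κ, h, t) => ∃ x y : EltT K G, InZone K G s x.1 ∧
      Tri pt (ColAdj (Gam K G) cl κ) (.inr h) (.inl x) (.inl y) ∧
      (if t then (pt (.inl x)).1 < (pt (.inr h)).1 ∧ (pt (.inr h)).1 < (pt (.inl y)).1
        else (pt (.inl y)).1 < (pt (.inr h)).1 ∧ (pt (.inr h)).1 < (pt (.inl x)).1)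

theorem defect_unique (hD : ColDrawing (Gam K G) (K + 2) pt cl) {s s' : ℕ}
    {τ : Defect K G pt cl} (h : HasDefect pt cl s τ) (h' : HasDefect pt cl s' τ) : s = s' := by
  rcases τ with v | ⟨κ, hb, t⟩
  · obtain ⟨w, h1, h2⟩ := h
    obtain ⟨w', h1', h2'⟩ := h'
    rw [h2] at h2'
    have e : w = w' := Sum.inl_injective h2'
    subst e
    exact zone_unique h1 h1'
  · obtain ⟨x, y, h1, h2, h3⟩ := h
    obtain ⟨x', y', h1', h2', h3'⟩ := h'
    have e : x = x' := by
      cases t
      · simp only [Bool.false_eq_true, if_false] at h3 h3'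
        exact Sum.inl_injective
          (Tri.middle' (hD.plane _) h2 h2' h3.1 h3.2 h3'.1 h3'.2).1
      · simp only [if_true] at h3 h3'
        exact Sum.inl_injective
          (Tri.middle (hD.plane _) h2 h2' h3.1 h3.2 h3'.1 h3'.2).1
    subst e
    exact zone_unique h1 h1'

/-- A zone without defects gives the data of the soundness proof. -/
def envOf (hG : ∀ g ∈ G, GoodGroup K g) (hD : ColDrawing (Gam K G) (K + 2) pt cl) {s : ℕ}
    (hs : s < zones K) (h : ∀ τ, ¬ HasDefect pt cl s τ) : Env K G where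
  hG := hG
  pt := pt
  cl := cl
  hD := hD
  s := s
  hs := hs
  good := by
    intro w hw
    by_contra hcon
    exact h (.inl ⟨.inl w, hcon⟩) ⟨w, hw, rfl⟩
  side := by
    intro κ hκ hb x y hx hy hT
    have hxh : (pt (.inl x)).1 ≠ (pt (.inr hb)).1 := fun he =>
      Sum.inl_ne_inr ((hD.plane κ).xinj _ _ he)
    have hyh : (pt (.inl y)).1 ≠ (pt (.inr hb)).1 := fun he =>
      Sum.inl_ne_inr ((hD.plane κ).xinj _ _ he)
    rcases lt_or_gt_of_ne hxh with h1 | h1 <;> rcases lt_or_gt_of_ne hyh with h2 | h2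
    · exact mul_pos_of_neg_of_neg (by linarith) (by linarith)
    · exfalso
      exact h (.inr (⟨κ, hκ⟩, hb, true)) ⟨x, y, hx, hT, by
        simp only [if_true]
        exact ⟨h1, h2⟩⟩
    · exfalso
      exact h (.inr (⟨κ, hκ⟩, hb, false)) ⟨x, y, hx, hT, by
        simp only [Bool.false_eq_true, if_false]
        exact ⟨h2, h1⟩⟩
    · exact mul_pos (by linarith) (by linarith)

end

theorem count_arith (N k : ℕ) (hN : 1000 ≤ N) (hk : k + 2 ≤ N) :
    4 * N ^ 16 + (k + 2) * ((k + 2) * 2 * 2) < N ^ 18 := by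
  have h1 : (k + 2) * (k + 2) ≤ N * N := Nat.mul_le_mul hk hk
  have h2 : N ^ 2 ≤ N ^ 16 := Nat.pow_le_pow_right (by omega) (by omega)
  have h3 : 1 ≤ N ^ 16 := Nat.one_le_pow _ _ (by omega)
  have h4 : N ^ 18 = N ^ 16 * (N * N) := by ring
  have h5 : 1000 * 1000 ≤ N * N := Nat.mul_le_mul hN hN
  rw [h4]
  have h6 : N ^ 2 = N * N := by ring
  rw [h6] at h2
  have h7 : N ^ 16 * (1000 * 1000) ≤ N ^ 16 * (N * N) := Nat.mul_le_mul_left _ h5
  generalize N ^ 16 * (N * N) = A at *
  generalize N ^ 16 = B at *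
  generalize N * N = C at *
  have h8 : (k + 2) * ((k + 2) * 2 * 2) = 4 * ((k + 2) * (k + 2)) := by ring
  rw [h8]
  generalize (k + 2) * (k + 2) = D at *
  omega

theorem zones_eq : zones K = NN K ^ 18 := by unfold zones; rfl

theorem exists_good_zone (hG : ∀ g ∈ G, GoodGroup K g)
    (pt : SVert (EltT K G) (K + 2) → ℝ × ℝ) (cl : Sym2 (SVert (EltT K G) (K + 2)) → ℕ)
    (hD : ColDrawing (Gam K G) (K + 2) pt cl) :
    ∃ s < zones K, ∀ τ, ¬ HasDefect pt cl s τ := by
  classical
  by_contra hcon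
  push Not at hcon
  have hex : ∀ s : Fin (zones K), ∃ τ, HasDefect pt cl s.1 τ := fun s => hcon s.1 s.2
  choose f hf using hex
  have hinj : Function.Injective f := by
    intro s s' h
    have h1 := hf s
    rw [h] at h1
    exact Fin.ext (defect_unique pt cl hD h1 (hf s'))
  have hcard := Fintype.card_le_of_injective f hinj
  rw [Fintype.card_fin, Fintype.card_sum, Fintype.card_subtype] at hcard
  simp only [Fintype.card_prod, Fintype.card_fin, Fintype.card_bool] at hcard
  have hfew := few_bad (G := Gam K G) (k := K + 2) pt cl hD (NN K ^ 16) (by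
    have := edge_count K G hG
    convert this using 3)
  have h1 : zones K ≤ 4 * NN K ^ 16 + (K + 2) * ((K + 2) * 2 * 2) := by
    refine hcard.trans (Nat.add_le_add_right ?_ _)
    convert hfew using 2
  have h2 := count_arith (NN K) K (NN_pos K) (by unfold NN; omega)
  rw [zones_eq] at h1
  exact absurd h1 (not_le.2 h2)

theorem strip_sound (K : ℕ) (G : List (List Pnt)) (hG : ∀ g ∈ G, GoodGroup K g)
    (h : GeometricThicknessLE (stripGraph (labT K G) (keyT K G)) (K + 2)) :
    ∃ (d : ℕ → ℝ × ℝ) (pos : ℕ → ℕ → ℝ × ℝ), ∀ j < G.length, ∀ i < (G.getD j []).length,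
      ∀ i' < (G.getD j []).length, ∀ c ≤ K + 1, (pnt G j i).Before K c (pnt G j i') →
        0 < crs (d c) (pos j i' - pos j i) := by
  have : Finite (SVert (EltT K G) (K + 2)) := inferInstance
  obtain ⟨pt, cl, hD⟩ := exists_colDrawing h
  obtain ⟨s, hs, hdef⟩ := exists_good_zone hG pt cl hD
  exact (envOf pt cl hG hD hs hdef).sound

end Pool.Agent.Lib.MP_612bca_lc
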