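import Pool.Agent.Lib.MP_612bca_lc.Reps

/-!
# The soundness proof: tied representatives
-/

namespace Pool.Agent.Lib.MP_612bca_lc

attribute [local irreducible] NN zones slot slo MP_612bca_lc.col zlo zhi rho

variable {K : ℕ} {G : List (List Pnt)}

/-- Scaled level. -/
def Lv (K c : ℕ) (x : ℤ) : ℤ := if c = K + 1 then (NN K : ℤ) ^ 8 * x else x

theorem Lv_lt {K c : ℕ} {x y : ℤ} : Lv K c x < Lv K c y ↔ x < y := by
  unfold Lv
  split_ifs
  · exact mul_lt_mul_iff_right₀ (by have := pow_pos' K 8; omega)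
  · rfl

theorem Lv_inj {K c : ℕ} {x y : ℤ} : Lv K c x = Lv K c y ↔ x = y := by
  constructor
  · intro h
    rcases lt_trichotomy x y with h1 | h1 | h1
    · have := Lv_lt (K := K) (c := c).2 h1; omega
    · exact h1
    · have := Lv_lt (K := K) (c := c).2 h1; omega
  · rintro rfl; rfl

section

variable (E : Env K G)

open Classical in
/-- The representative of the point number `i` of the group `j` in the zone of `E`. -/
noncomputable def Env.R (j i : ℕ) : EltT K G :=
  if h : Elt.rep E.s j i ∈ elts K G then ⟨.rep E.s j i, h⟩ else ⟨.dum 0 0, elts_ne K G⟩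

variable {j i i' : ℕ} (hj : j < G.length)

theorem getElem_pnt (hi : i < (G.getD j []).length) :
    (G.getD j [])[i]? = some (pnt G j i) := by
  unfold pnt
  rw [List.getD_eq_getElem _ _ hi, List.getElem?_eq_getElem hi]

include hj

theorem Env.R_val (hi : i < (G.getD j []).length) : (E.R j i).1 = .rep E.s j i := by
  unfold Env.R
  rw [dif_pos (rep_mem.2 ⟨E.hs, hj, hi⟩)]

theorem Env.R_lab (hi : i < (G.getD j []).length) : labT K G (E.R j i) = 2 := by
  unfold labT
  rw [E.R_val hj hi]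
  rfl

theorem Env.R_lev (hi : i < (G.getD j []).length) (c : Fin (K + 2)) :
    (E.R j i).1.lev K G c = E.org j + Lv K c ((pnt G j i).lev K c) := by
  rw [E.R_val hj hi]
  unfold Elt.lev Env.org Lv Pnt.lev
  by_cases hc : (c : ℕ) = K + 1
  · simp only [hc, if_true, slo_inf]
    ring
  · simp only [hc, if_false]

theorem Env.R_near (hi : i < (G.getD j []).length) (c : Fin (K + 2)) :
    |(E.R j i).1.lev K G c - E.org j| ≤ rho K c := by
  obtain ⟨s, j', i', h1, _, _, _, h2⟩ := rep_lev E.hG c (E.R j i) (E.R_lab hj hi)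
  rw [E.R_val hj hi] at h1
  cases h1
  exact h2

theorem Env.R_win (hi : i < (G.getD j []).length) (c : Fin (K + 2)) :
    E.Win j ((E.R j i).1.lev K G c) := by
  have h1 := E.R_near hj hi c
  have h2 := rho_le14 c
  unfold Env.Win
  omega

theorem Env.R_inj (hi : i < (G.getD j []).length) (hi' : i' < (G.getD j []).length)
    (h : E.R j i = E.R j i') : i = i' := by
  have h1 := E.R_val hj hi
  rw [h, E.R_val hj hi'] at h1
  cases h1
  rfl

theorem Env.eq_R {v : ℤ} (hv : E.Win j v) (c : Fin (K + 2)) (r : EltT K G) (hl : labT K G r = 2)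
    (hlev : r.1.lev K G c = v) : ∃ i, i < (G.getD j []).length ∧ r = E.R j i := by
  obtain ⟨i, h1, h2, _⟩ := E.rep_near hj c r hl (by
    rw [hlev]
    have h3 := hv.w0
    have h4 := pow_pos' K 14
    omega)
  exact ⟨i, h2, Subtype.ext (by rw [h1, E.R_val hj h2])⟩

theorem Env.tied_iff (hi : i < (G.getD j []).length) (hi' : i' < (G.getD j []).length)
    (c : Fin (K + 2)) : TiedIn K (G.getD j []) c i i' ↔
      i ≠ i' ∧ (E.R j i).1.lev K G c = (E.R j i').1.lev K G c := by
  rw [E.R_lev hj hi, E.R_lev hj hi']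
  unfold TiedIn
  rw [getElem_pnt hi, getElem_pnt hi']
  constructor
  · rintro ⟨h1, P, P', h2, h3, h4⟩
    cases h2
    cases h3
    exact ⟨h1, by rw [h4]⟩
  · rintro ⟨h1, h2⟩
    exact ⟨h1, _, _, rfl, rfl, Lv_inj.1 (add_left_cancel h2)⟩

omit hj in
theorem TiedIn.lt {g : List Pnt} {c : ℕ} (h : TiedIn K g c i i') : i < g.length ∧ i' < g.length := by
  obtain ⟨_, P, P', h1, h2, _⟩ := h
  exact ⟨(List.getElem?_eq_some_iff.1 h1).1, (List.getElem?_eq_some_iff.1 h2).1⟩

omit hj in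
theorem TiedIn.symm {g : List Pnt} {c : ℕ} (h : TiedIn K g c i i') : TiedIn K g c i' i := by
  obtain ⟨h0, P, P', h1, h2, h3⟩ := h
  exact ⟨h0.symm, P', P, h2, h1, h3.symm⟩

theorem Env.R_zone (hi : i < (G.getD j []).length) : InZone K G E.s (E.R j i).1 := by
  have h1 := E.org_zone hj
  have h2 : ((E.R j i).1.row K G : ℤ) = E.org j := by
    rw [E.R_val hj hi]
    rfl
  exact Env.Z.inZone (m := 1000) (by rw [h2]; exact h1) (by norm_num)

omit hj

/-- An edge at a representative has empty triangles on both sides. -/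
theorem Env.two_thirds {r : EltT K G} (hr : InZone K G E.s r.1) {κ : ℕ} (hκ : κ < K + 2)
    {l : SVert (EltT K G) (K + 2)} (hl : (Gam K G).Adj (.inl r) l) (hc : E.cl s(.inl r, l) = κ) :
    ∃ z1 z2, z1 ≠ z2 ∧ E.T true κ (.inl r) l z1 ∧ E.T false κ (.inl r) l z2 := by
  obtain ⟨⟨z1, h1⟩, ⟨z2, h2⟩⟩ := (E.good r hr κ hκ).2 l ⟨hl, hc⟩
  have h1' : E.T true κ (.inl r) l z1 := h1
  have h2' : E.T true κ l (.inl r) z2 := h2
  have h3 : E.T false κ (.inl r) l z2 := h2'.cyc.swap
  refine ⟨z1, z2, ?_, h1', h3⟩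
  rintro rfl
  exact h1'.asymm h2'.cyc

end

section ties

variable {E : Env K G} (X : E.CS) {j : ℕ} (hj : j < G.length) (c : Fin (K + 2)) {v : ℤ}
  (hv : E.Win j v)

/-- Arithmetic of the keys of two representatives at the same level. -/
theorem pair_arith {v k k' a b : ℤ} (ha : a = 8 * v + 3) (hb : b = 8 * (v + 1))
    (hk : k = 8 * v + 4 ∨ k = 8 * v + 5) (hk' : k' = 8 * v + 4 ∨ k' = 8 * v + 5) (hlt : k < k') :
    a < k ∧ k' < b ∧ ∀ m, m = 8 * v + 4 ∨ m = 8 * v + 5 →
      ¬ (a < m ∧ m < k) ∧ ¬ (k < m ∧ m < k') ∧ ¬ (k' < m ∧ m < b) := by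
  subst ha hb
  refine ⟨by omega, by omega, fun m hm => ⟨?_, ?_, ?_⟩⟩
  · rintro ⟨_, _⟩; omega
  · rintro ⟨_, _⟩; omega
  · rintro ⟨_, _⟩; omega

include hj hv

/-- Two representatives at the same level. -/
theorem Env.CS.pair_gap {r r' : EltT K G} (hl : labT K G r = 2) (hl' : labT K G r' = 2)
    (hlev : r.1.lev K G c = v) (hlev' : r'.1.lev K G c = v) (hlt : keyT K G c r < keyT K G c r') :
    Nx c (DD K G c v 3) r ∧ Nx c r r' ∧ Nx c r' (DD K G c (v + 1) 0) := by
  have r0 := Env.CS.r0 hj hv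
  have r1 := Env.CS.r1 hj hv
  have k3 : keyT K G c (DD K G c v 3) = 8 * v + 3 := DD_key c r0 (show 3 < 4 by omega)
  have k0 : keyT K G c (DD K G c (v + 1) 0) = 8 * (v + 1) := by
    have := DD_key (K := K) (G := G) c r1 (show 0 < 4 by omega)
    rw [this, Nat.cast_zero, add_zero]
  obtain ⟨a1, a2, a3⟩ := pair_arith k3 k0 (rep_key c hl hlev) (rep_key c hl' hlev') hlt
  exact ⟨Env.CS.gap hj c hv _ _ (Or.inl rfl) (Or.inr ⟨hl, hlev⟩) a1
      (fun x h1 h2 => (a3 _ (rep_key c h1 h2)).1),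
    Env.CS.gap hj c hv _ _ (Or.inr ⟨hl, hlev⟩) (Or.inr ⟨hl', hlev'⟩) hlt
      (fun x h1 h2 => (a3 _ (rep_key c h1 h2)).2.1),
    Env.CS.gap hj c hv _ _ (Or.inr ⟨hl', hlev'⟩) (Or.inl rfl) a2
      (fun x h1 h2 => (a3 _ (rep_key c h1 h2)).2.2)⟩

omit hj hv in
/-- Dummies are not representatives. -/
theorem dd_ne_rep (hv : RegLev K G v) {p : ℕ} (hp : p < 4) {r : EltT K G}
    (hl : labT K G r = 2) : DD K G c v p ≠ r := by
  rintro rfl
  rw [DD_lab c hv hp] at hl
  omega

include X in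
/-- A representative is next to a dummy on at least one side. -/
theorem Env.CS.side_dummy {r : EltT K G} (hl : labT K G r = 2) (hlev : r.1.lev K G c = v) :
    Nx c (DD K G c v 3) r ∨ Nx c r (DD K G c (v + 1) 0) := by
  by_cases h : ∀ r', labT K G r' = 2 → r'.1.lev K G c = v → r' = r
  · exact Or.inl (X.single hj c hv hl hlev h).1
  · push Not at h
    obtain ⟨r', h1, h2, h3⟩ := h
    rcases lt_trichotomy (keyT K G c r) (keyT K G c r') with h4 | h4 | h4
    · exact Or.inl (Env.CS.pair_gap hj c hv hl h1 hlev h2 h4).1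
    · exact absurd (E.kinj c h4).symm h3
    · exact Or.inr (Env.CS.pair_gap hj c hv h1 hl h2 hlev h4).2.2

/-- The edges between a representative and the hubs of a class have the colour of the class. -/
theorem Env.CS.hub_colour {r : EltT K G} (hl : labT K G r = 2) (hlev : r.1.lev K G c = v)
    (b : Bool) : (Gam K G).Adj (.inl r) (X.hub b c) ∧ E.cl s(.inl r, X.hub b c) = X.κ c := by
  have key : ∀ {x y : SVert (EltT K G) (K + 2)}, ((Gam K G).Adj x y ∧ E.cl s(x, y) = X.κ c) →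
      ((Gam K G).Adj y x ∧ E.cl s(y, x) = X.κ c) := by
    rintro x y ⟨h1, h2⟩
    exact ⟨h1.symm, by rw [Sym2.eq_swap]; exact h2⟩
  rcases X.side_dummy hj c hv hl hlev with h | h
  · cases b
    · exact key (X.w3x hj c hv r hl h).colour
    · exact key (X.u2x hj c hv r h).colour'
  · cases b
    · exact key (X.wy1 hj c hv r hl h).colour'
    · exact key (X.uy0 hj c hv r hl h).colour

omit hj hv in
theorem Env.CS.hub_adj {x : EltT K G} {b : Bool} (h : (Gam K G).Adj (.inl x) (X.hub b c)) :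
    labT K G x ≠ (if b then 1 else 0) := by
  cases b
  · exact adj_hub.1 h
  · exact adj_hub.1 h

/-- At most one dummy is a third vertex at an edge between a tied representative and a hub. -/
theorem Env.CS.dummy_third {r r' : EltT K G} (hl : labT K G r = 2) (hl' : labT K G r' = 2)
    (hlev : r.1.lev K G c = v) (hlev' : r'.1.lev K G c = v) (hne : r ≠ r')
    (hwin : ∀ c' : Fin (K + 2), E.Win j (r.1.lev K G c')) (b : Bool) :
    ∃ d : EltT K G, ∀ (s : Bool) (x : EltT K G), labT K G x ≠ 2 →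
      E.T s (X.κ c) (.inl r) (X.hub b c) (.inl x) → x = d := by
  have r0 := Env.CS.r0 hj hv
  have r1 := Env.CS.r1 hj hv
  -- the dummy neighbours in question
  have key : ∀ (s : Bool) (x : EltT K G), labT K G x ≠ 2 →
      E.T s (X.κ c) (.inl r) (X.hub b c) (.inl x) → labT K G x ≠ (if b then 1 else 0) ∧
      ((Nx c r (DD K G c (v + 1) 0) ∧ (x = DD K G c (v + 1) 0 ∨ x = DD K G c (v + 1) 1)) ∨
       (Nx c (DD K G c v 3) r ∧ (x = DD K G c v 3 ∨ x = DD K G c v 2))) := by
    intro s x hx hT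
    have h1 := hT.colour'
    have h2 := hT.cyc.cyc.colour'
    obtain ⟨c', hc'⟩ := adj_inl.1 h1.1
    have h3 := X.dummy_colour hj c' (hwin c') hl rfl hx hc'
    rw [h1.2] at h3
    have h4 : c = c' := X.kinj h3
    subst h4
    exact ⟨X.hub_adj c h2.1, Env.CS.rep_dummy_nbr hj c hv hl hlev hx hc'⟩
  -- only one of the two sides is possible
  have hside : ¬ (Nx c r (DD K G c (v + 1) 0) ∧ Nx c (DD K G c v 3) r) := by
    rintro ⟨h1, h2⟩
    rcases lt_trichotomy (keyT K G c r) (keyT K G c r') with h4 | h4 | h4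
    · have h5 := (Env.CS.pair_gap hj c hv hl hl' hlev hlev' h4).2.1
      have h6 := cons_unique (E.kinj c) h1 h5
      rw [← h6, DD_lab c r1 (by omega)] at hl'
      omega
    · exact hne (E.kinj c h4)
    · have h5 := (Env.CS.pair_gap hj c hv hl' hl hlev' hlev h4).2.1
      have h6 := cons_unique' (E.kinj c) h2 h5
      rw [← h6, DD_lab c r0 (by omega)] at hl'
      omega
  have l0 : labT K G (DD K G c (v + 1) 0) = 0 := by rw [DD_lab c r1 (by omega)]
  have l1 : labT K G (DD K G c (v + 1) 1) = 1 := by rw [DD_lab c r1 (by omega)]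
  have l2 : labT K G (DD K G c v 2) = 0 := by rw [DD_lab c r0 (by omega)]
  have l3 : labT K G (DD K G c v 3) = 1 := by rw [DD_lab c r0 (by omega)]
  by_cases hs : Nx c r (DD K G c (v + 1) 0)
  · refine ⟨if b then DD K G c (v + 1) 0 else DD K G c (v + 1) 1, fun s x hx hT => ?_⟩
    obtain ⟨h1, h2⟩ := key s x hx hT
    rcases h2 with ⟨_, h2⟩ | ⟨h2, _⟩
    · cases b
      · simp only [Bool.false_eq_true, if_false] at h1 ⊢
        rcases h2 with rfl | rfl
        · exact absurd l0 h1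
        · rfl
      · simp only [if_true] at h1 ⊢
        rcases h2 with rfl | rfl
        · rfl
        · exact absurd l1 h1
    · exact absurd ⟨hs, h2⟩ hside
  · refine ⟨if b then DD K G c v 2 else DD K G c v 3, fun s x hx hT => ?_⟩
    obtain ⟨h1, h2⟩ := key s x hx hT
    rcases h2 with ⟨h2, _⟩ | ⟨_, h2⟩
    · exact absurd h2 hs
    · cases b
      · simp only [Bool.false_eq_true, if_false] at h1 ⊢
        rcases h2 with rfl | rfl
        · rfl
        · exact absurd l2 h1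
      · simp only [if_true] at h1 ⊢
        rcases h2 with rfl | rfl
        · exact absurd l3 h1
        · rfl

omit hv in
/-- A representative is a third vertex at an edge between a tied representative and a hub. -/
theorem Env.CS.third_rep {i i' : ℕ} (ht : TiedIn K (G.getD j []) c i i') (b : Bool) :
    ∃ i2, i2 < (G.getD j []).length ∧ (∃ s, E.T s (X.κ c) (.inl (E.R j i)) (X.hub b c)
        (.inl (E.R j i2))) ∧
      (∃ c' ≤ K + 1, TiedIn K (G.getD j []) c' i i2) ∧
      ∃ i'', TiedIn K (G.getD j []) c i2 i'' := by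
  obtain ⟨hi, hi'⟩ := ht.lt
  have hlab := E.R_lab hj hi
  have hwin := E.R_win hj hi
  have ht' := (E.tied_iff hj hi hi' c).1 ht
  have hne : E.R j i ≠ E.R j i' := fun h => ht'.1 (E.R_inj hj hi hi' h)
  obtain ⟨d, hd⟩ := X.dummy_third hj c (hwin c) hlab (E.R_lab hj hi') rfl ht'.2.symm hne hwin b
  have hcol := X.hub_colour hj c (hwin c) hlab rfl b
  obtain ⟨z1, z2, hz, h1, h2⟩ := E.two_thirds (E.R_zone hj hi) (X.klt c) hcol.1 hcol.2
  -- third vertices are elements
  have helt : ∀ (s : Bool) (z : SVert (EltT K G) (K + 2)),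
      E.T s (X.κ c) (.inl (E.R j i)) (X.hub b c) z → ∃ x : EltT K G, z = .inl x := by
    intro s z hT
    rcases z with x | h
    · exact ⟨x, rfl⟩
    · exfalso
      have h3 := hT.cyc.colour.1
      cases b
      · exact not_adj_hubs h3
      · exact not_adj_hubs h3
  obtain ⟨x1, rfl⟩ := helt _ _ h1
  obtain ⟨x2, rfl⟩ := helt _ _ h2
  have hx : ∃ (s : Bool) (x : EltT K G), labT K G x = 2 ∧
      E.T s (X.κ c) (.inl (E.R j i)) (X.hub b c) (.inl x) := by
    by_cases g1 : labT K G x1 = 2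
    · exact ⟨_, x1, g1, h1⟩
    · by_cases g2 : labT K G x2 = 2
      · exact ⟨_, x2, g2, h2⟩
      · exfalso
        apply hz
        rw [hd _ _ g1 h1, hd _ _ g2 h2]
  obtain ⟨s, x, hxl, hT⟩ := hx
  have e1 := hT.colour'
  obtain ⟨c', hc'⟩ := adj_inl.1 e1.1
  have e2 := Env.CS.rep_rep_nbr hj c' (hwin c') hlab rfl hxl hc'
  obtain ⟨i2, hi2, rfl⟩ := E.eq_R hj (hwin c') c' x hxl e2
  have hii : i ≠ i2 := by
    rintro rfl
    exact e1.1.ne rfl
  refine ⟨i2, hi2, ⟨s, hT⟩, ⟨c', by have := c'.2; omega,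
    (E.tied_iff hj hi hi2 c').2 ⟨hii, e2.symm⟩⟩, ?_⟩
  by_contra hcon
  push Not at hcon
  have huniq : ∀ r', labT K G r' = 2 → r'.1.lev K G c = (E.R j i2).1.lev K G c →
      r' = E.R j i2 := by
    intro r' g1 g2
    obtain ⟨i3, hi3, rfl⟩ := E.eq_R hj (E.R_win hj hi2 c) c r' g1 g2
    by_contra hne'
    exact hcon i3 ((E.tied_iff hj hi2 hi3 c).2 ⟨fun h => hne' (by rw [h]), g2.symm⟩)
  exact X.single_third hj c (E.R_win hj hi2 c) hxl rfl huniq b hT.cyc hlab

omit hv in
/-- Tied representatives span triangles with both hubs of the class. -/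
theorem Env.CS.tied_tri {i i' : ℕ} (ht : TiedIn K (G.getD j []) c i i') (b : Bool) :
    ∃ s, E.T s (X.κ c) (X.hub b c) (.inl (E.R j i)) (.inl (E.R j i')) := by
  have hex : ∀ i c : ℕ, ∃ i2, ∀ hc : c < K + 2, (∃ i', TiedIn K (G.getD j []) c i i') →
      i2 < (G.getD j []).length ∧ (∃ s, E.T s (X.κ ⟨c, hc⟩) (.inl (E.R j i)) (X.hub b ⟨c, hc⟩)
        (.inl (E.R j i2))) ∧
      (∃ c' ≤ K + 1, TiedIn K (G.getD j []) c' i i2) ∧
      ∃ i'', TiedIn K (G.getD j []) c i2 i'' := by
    intro i c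
    by_cases hc : c < K + 2
    · by_cases hi : ∃ i', TiedIn K (G.getD j []) c i i'
      · obtain ⟨i', hi'⟩ := hi
        obtain ⟨i2, h⟩ := X.third_rep hj ⟨c, hc⟩ hi' b
        exact ⟨i2, fun _ _ => h⟩
      · exact ⟨0, fun _ h => absurd h hi⟩
    · exact ⟨0, fun h => absurd h hc⟩
  choose f hf using hex
  have hg : G.getD j [] ∈ G := by
    rw [List.getD_eq_getElem _ _ hj]
    exact List.getElem_mem hj
  have hforced := (E.hG _ hg).forced f (fun c i i' hc ht => by
      have h := hf i c (by omega) ⟨i', ht⟩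
      exact h.2.2) (fun c c' i i' i'' hc hc' ht ht' hff => by
      obtain ⟨_, ⟨s, h1⟩, _⟩ := hf i c (by omega) ⟨i', ht⟩
      obtain ⟨_, ⟨s', h2⟩, _⟩ := hf i c' (by omega) ⟨i'', ht'⟩
      have e1 := h1.colour'.2
      have e2 := h2.colour'.2
      rw [hff, e2] at e1
      have e3 := X.kinj e1
      exact (Fin.mk.inj_iff.1 e3).symm)
  have h1 := hforced c i i' (by have := c.2; omega) ht
  obtain ⟨_, ⟨s, h2⟩, _⟩ := hf i c c.2 ⟨i', ht⟩
  rw [h1] at h2
  exact ⟨_, h2.cyc.swap⟩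

/-- Two representatives at the same level. -/
theorem Env.CS.pair {r r' : EltT K G} (hl : labT K G r = 2) (hl' : labT K G r' = 2)
    (hlev : r.1.lev K G c = v) (hlev' : r'.1.lev K G c = v) (hlt : keyT K G c r < keyT K G c r') :
    Nx c (DD K G c v 3) r ∧ Nx c r r' ∧ Nx c r' (DD K G c (v + 1) 0) ∧
      X.ω c (v + 1) = X.ω c v ∧
      E.T (X.ω c v) (X.κ c) (X.uh c) (.inl r) (.inl r') ∧
      E.T (X.ω c v) (X.κ c) (X.wh c) (.inl r') (.inl r) := by
  have r0 := Env.CS.r0 hj hv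
  have r1 := Env.CS.r1 hj hv
  obtain ⟨n1, n2, n3⟩ := Env.CS.pair_gap hj c hv hl hl' hlev hlev' hlt
  obtain ⟨i, hi, rfl⟩ := E.eq_R hj hv c r hl hlev
  obtain ⟨i', hi', rfl⟩ := E.eq_R hj hv c r' hl' hlev'
  have ht : TiedIn K (G.getD j []) c i i' := (E.tied_iff hj hi hi' c).2
    ⟨by rintro rfl; exact lt_irrefl _ hlt, by rw [hlev, hlev']⟩
  obtain ⟨s, hs⟩ := X.tied_tri hj c ht true
  obtain ⟨s', hs'⟩ := X.tied_tri hj c ht false
  have hs : E.T s (X.κ c) (X.uh c) (.inl (E.R j i)) (.inl (E.R j i')) := hs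
  have hs' : E.T s' (X.κ c) (X.wh c) (.inl (E.R j i)) (.inl (E.R j i')) := hs'
  have a1 := X.u2x hj c hv _ n1
  have a2 := X.uy0 hj c hv _ hl' n3
  have a3 := X.w3x hj c hv _ hl n1
  have dich : ∀ a b : Bool, a ≠ b → a = !b := by decide
  have h1 : s = X.ω c v := by
    by_contra hne
    rw [dich _ _ hne] at hs
    have h2 := hs.swap
    rw [Bool.not_not] at h2
    have h3 := a1.cyc.cyc.unique h2.cyc.cyc
    exact dd_ne_rep c r0 (by omega) hl' (Sum.inl_injective h3)
  have h2 : s = X.ω c (v + 1) := by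
    by_contra hne
    rw [dich _ _ hne] at hs
    have h2 := hs.swap
    rw [Bool.not_not] at h2
    have h3 := a2.unique h2
    exact dd_ne_rep c r1 (by omega) hl (Sum.inl_injective h3)
  have h3 : s' = !(X.ω c v) := by
    apply dich
    rintro rfl
    have h3 := a3.unique hs'
    exact dd_ne_rep c r0 (by omega) hl' (Sum.inl_injective h3)
  refine ⟨n1, n2, n3, by rw [← h1, ← h2], ?_, ?_⟩
  · rw [← h1]
    exact hs
  · rw [h3] at hs'
    have h4 := hs'.swap
    rw [Bool.not_not] at h4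
    exact h4

end ties

end Pool.Agent.Lib.MP_612bca_lc
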