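import Pool.Agent.Lib.MP_612bca_lc.WordList
import Pool.Agent.Lib.MP_612bca_lc.GeoDefs

/-!
# The strip graph of an instance by means of Boolean functions on codes of vertices
-/

namespace Pool.Agent.Lib.MP_612bca_lc

namespace Word

/-! ### Keys as differences of natural numbers -/

/-- Slope of a class as a natural number. -/
def sloN (K c : ℕ) : ℕ := if c = K + 1 then NN K ^ 8 else c

/-- Positive part of the column. -/
def colP (K p : ℕ) : ℕ := if p = 0 then NN K ^ 2 else if p = 2 then NN K ^ 4 else 0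

/-- Negative part of the column. -/
def colN (K p : ℕ) : ℕ :=
  if p = 0 then 0 else if p = 2 then 0 else if p = 1 then NN K ^ 3 else NN K ^ 5

/-- Positive part of the key. -/
def posK (K : ℕ) (G : List (List Pnt)) (c : ℕ) : Elt → ℕ
  | .dum a p => 8 * (a + sloN K c * colN K p) + p
  | .rep s j i => 8 * (orig K G.length s j + (if c = K + 1 then 0 else (pnt G j i).Y)) +
      (if c ∈ (pnt G j i).sec then 5 else 4)

/-- Negative part of the key. -/
def negK (K : ℕ) (G : List (List Pnt)) (c : ℕ) : Elt → ℕ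
  | .dum _ p => 8 * (sloN K c * colP K p)
  | .rep _ j i => 8 * (sloN K c * (pnt G j i).X)

theorem slo_eq (K c : ℕ) : slo K c = (sloN K c : ℤ) := by
  unfold slo sloN
  split_ifs <;> simp

theorem col_eq (K p : ℕ) : col K p = (colP K p : ℤ) - colN K p := by
  unfold col colP colN
  match p with
  | 0 => simp
  | 1 => simp
  | 2 => simp
  | n + 3 => simp

theorem key_eq (K : ℕ) (G : List (List Pnt)) (c : ℕ) (w : Elt) :
    w.key K G c = (posK K G c w : ℤ) - negK K G c w := by
  unfold Elt.key
  cases w with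
  | dum a p =>
    simp only [Elt.lev, Elt.sub, posK, negK, slo_eq, col_eq]
    push_cast
    ring
  | rep s j i =>
    simp only [Elt.lev, Elt.sub, posK, negK, slo_eq, sloN]
    split_ifs <;> push_cast <;> ring

/-- Comparison of keys. -/
def ltB (K : ℕ) (G : List (List Pnt)) (c : ℕ) (w w' : Elt) : Bool :=
  decide (posK K G c w + negK K G c w' < posK K G c w' + negK K G c w)

theorem ltB_iff (K : ℕ) (G : List (List Pnt)) (c : ℕ) (w w' : Elt) :
    ltB K G c w w' = true ↔ w.key K G c < w'.key K G c := by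
  rw [ltB, decide_eq_true_iff, key_eq, key_eq]
  omega

/-- Being consecutive. -/
def consB (K : ℕ) (G : List (List Pnt)) (E : List Elt) (c : ℕ) (w w' : Elt) : Bool :=
  ltB K G c w w' && E.all fun z => !(ltB K G c w z && ltB K G c z w')

/-- Inner edges. -/
def innerB (K : ℕ) (G : List (List Pnt)) (E : List Elt) (c : ℕ) (w w' : Elt) : Bool :=
  consB K G E c w w' || E.any fun m => (!(decide (m.lab = 2)) && !(decide (m.lab = w.lab))) &&
    (!(decide (m.lab = w'.lab)) && (consB K G E c w m && consB K G E c m w'))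

theorem consB_iff (K : ℕ) (G : List (List Pnt)) (c : Fin (K + 2)) (w w' : EltT K G) :
    consB K G (elts K G) c w.1 w'.1 = true ↔ Cons (keyT K G) c w w' := by
  rw [consB, Bool.and_eq_true, ltB_iff, List.all_eq_true]
  constructor
  · rintro ⟨h1, h2⟩
    refine ⟨h1, fun z hz => ?_⟩
    have h3 := h2 z.1 z.2
    simp only [Bool.not_eq_true', Bool.and_eq_false_iff] at h3
    rcases h3 with h3 | h3
    · have h4 := (ltB_iff K G c w.1 z.1).2 hz.1
      rw [h3] at h4
      simp at h4
    · have h4 := (ltB_iff K G c z.1 w'.1).2 hz.2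
      rw [h3] at h4
      simp at h4
  · rintro ⟨h1, h2⟩
    refine ⟨h1, fun z hz => ?_⟩
    have h3 := h2 ⟨z, hz⟩
    simp only [Bool.not_eq_true', Bool.and_eq_false_iff]
    by_contra hcon
    push Not at hcon
    apply h3
    constructor
    · exact (ltB_iff K G c w.1 z).1 (by simpa using hcon.1)
    · exact (ltB_iff K G c z w'.1).1 (by simpa using hcon.2)

theorem innerB_iff (K : ℕ) (G : List (List Pnt)) (c : Fin (K + 2)) (w w' : EltT K G) :
    innerB K G (elts K G) c w.1 w'.1 = true ↔ InnerEdge (labT K G) (keyT K G) c w w' := by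
  rw [innerB, Bool.or_eq_true, consB_iff, List.any_eq_true, InnerEdge]
  constructor
  · rintro (h | ⟨m, hm, h⟩)
    · exact Or.inl h
    · simp only [Bool.and_eq_true, Bool.not_eq_true', decide_eq_false_iff_not] at h
      refine Or.inr ⟨⟨m, hm⟩, h.1.1, h.1.2, h.2.1, ?_, ?_⟩
      · exact (consB_iff K G c w ⟨m, hm⟩).1 h.2.2.1
      · exact (consB_iff K G c ⟨m, hm⟩ w').1 h.2.2.2
  · rintro (h | ⟨m, h1, h2, h3, h4, h5⟩)
    · exact Or.inl h
    · refine Or.inr ⟨m.1, m.2, ?_⟩
      simp only [Bool.and_eq_true, Bool.not_eq_true', decide_eq_false_iff_not]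
      exact ⟨⟨h1, h2⟩, h3, (consB_iff K G c w m).2 h4, (consB_iff K G c m w').2 h5⟩

/-! ### Vertices -/

/-- Codes of vertices. -/
abbrev VC := Bool × (Elt × (ℕ × Bool))

/-- The code of a vertex. -/
def vc (K : ℕ) (G : List (List Pnt)) : SVert (EltT K G) (K + 2) → VC
  | .inl w => (false, (w.1, (0, false)))
  | .inr (c, b) => (true, (Elt.dum 0 0, (c, b)))

/-- The list of the codes of all vertices. -/
def VL (K : ℕ) (E : List Elt) : List VC :=
  (E.map fun w => ((false, (w, (0, false))) : VC)) ++
  (List.range (K + 2)).flatMap fun c => [((true, (Elt.dum 0 0, (c, true))) : VC),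
    (true, (Elt.dum 0 0, (c, false)))]

/-- Edges of the strip graph in one direction. -/
def stripB (K : ℕ) (G : List (List Pnt)) (E : List Elt) (v v' : VC) : Bool :=
  if v.1 = true then false else
    if v'.1 = true then
      (if v'.2.2.2 = true then !(decide (v.2.1.lab = 1)) else !(decide (v.2.1.lab = 0))) else
      (List.range (K + 2)).any fun c => innerB K G E c v.2.1 v'.2.1

/-- Adjacency of vertex codes. -/
def adjB (K : ℕ) (G : List (List Pnt)) (E : List Elt) (v v' : VC) : Bool :=
  !(decide (v = v')) && (stripB K G E v v' || stripB K G E v' v)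

theorem vc_inj (K : ℕ) (G : List (List Pnt)) : Function.Injective (vc K G) := by
  intro x y h
  rcases x with w | ⟨c, b⟩ <;> rcases y with w' | ⟨c', b'⟩ <;> simp [vc] at h
  · exact congrArg Sum.inl (Subtype.ext h)
  · rw [Fin.ext h.1, h.2]

theorem mem_VL (K : ℕ) (G : List (List Pnt)) (v : VC) :
    v ∈ VL K (elts K G) ↔ ∃ x, vc K G x = v := by
  constructor
  · intro h
    rcases List.mem_append.1 h with h | h
    · obtain ⟨w, hw, rfl⟩ := List.mem_map.1 h
      exact ⟨.inl ⟨w, hw⟩, rfl⟩
    · obtain ⟨c, hc, h⟩ := List.mem_flatMap.1 h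
      rw [List.mem_range] at hc
      simp only [List.mem_cons, List.not_mem_nil, or_false] at h
      rcases h with rfl | rfl
      · exact ⟨.inr (⟨c, hc⟩, true), rfl⟩
      · exact ⟨.inr (⟨c, hc⟩, false), rfl⟩
  · rintro ⟨x, rfl⟩
    rcases x with w | ⟨c, b⟩
    · exact List.mem_append_left _ (List.mem_map.2 ⟨w.1, w.2, rfl⟩)
    · refine List.mem_append_right _ (List.mem_flatMap.2 ⟨c, List.mem_range.2 c.2, ?_⟩)
      cases b <;> simp [vc]

theorem stripB_iff (K : ℕ) (G : List (List Pnt)) (x y : SVert (EltT K G) (K + 2)) :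
    stripB K G (elts K G) (vc K G x) (vc K G y) = true ↔
      StripE (labT K G) (keyT K G) x y := by
  rcases x with w | ⟨c, b⟩
  · rcases y with w' | ⟨c', b'⟩
    · simp only [stripB, vc, StripE, Bool.false_eq_true, if_false, List.any_eq_true,
        List.mem_range]
      constructor
      · rintro ⟨c, hc, h⟩
        exact ⟨⟨c, hc⟩, (innerB_iff K G ⟨c, hc⟩ w w').1 h⟩
      · rintro ⟨c, h⟩
        exact ⟨c, c.2, (innerB_iff K G c w w').2 h⟩
    · cases b' <;> simp only [stripB, vc, StripE, labT, Bool.false_eq_true, if_false, if_true,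
        Bool.not_eq_true', ne_eq] <;> exact decide_eq_false_iff_not
  · cases y <;> simp [stripB, vc, StripE]

theorem adjB_iff (K : ℕ) (G : List (List Pnt)) (x y : SVert (EltT K G) (K + 2)) :
    adjB K G (elts K G) (vc K G x) (vc K G y) = true ↔
      (stripGraph (labT K G) (keyT K G)).Adj x y := by
  simp only [adjB, Bool.and_eq_true, Bool.not_eq_true', decide_eq_false_iff_not,
    Bool.or_eq_true, stripB_iff, stripGraph, (vc_inj K G).eq_iff, ne_eq]

/-! ### The list of elements has no repetitions -/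

theorem nodup_flatMap' {α β : Type} (l : List β) (hl : l.Nodup) (f : β → List α)
    (hf : ∀ i ∈ l, (f i).Nodup)
    (hd : ∀ i ∈ l, ∀ j ∈ l, ∀ x, x ∈ f i → x ∈ f j → i = j) : (l.flatMap f).Nodup := by
  rw [List.nodup_flatMap]
  refine ⟨hf, hl.pairwise_of_forall_ne fun i hi j hj hij => ?_⟩
  intro x hx hx'
  exact hij (hd i hi j hj x hx hx')

theorem nodup_zipIdx {α : Type} (l : List α) (n : ℕ) : (l.zipIdx n).Nodup := by
  apply List.Nodup.of_map Prod.snd
  rw [List.zipIdx_map_snd]
  exact List.nodup_range'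

theorem zipIdx_eq {α : Type} {l : List α} {p q : α × ℕ} (hp : p ∈ l.zipIdx) (hq : q ∈ l.zipIdx)
    (h : p.2 = q.2) : p = q := by
  obtain ⟨a, i⟩ := p
  obtain ⟨b, j⟩ := q
  simp only at h
  subst h
  rw [List.mk_mem_zipIdx_iff_getElem?] at hp hq
  rw [hp] at hq
  simpa using hq

theorem elts_nodup (K : ℕ) (G : List (List Pnt)) : (elts K G).Nodup := by
  unfold elts
  rw [List.nodup_append]
  refine ⟨?_, ?_, ?_⟩
  · apply nodup_flatMap' _ List.nodup_range
    · intro a _
      refine List.Nodup.map (fun p q h => ?_) List.nodup_range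
      simpa using h
    · intro a _ b _ x hx hx'
      obtain ⟨p, _, rfl⟩ := List.mem_map.1 hx
      obtain ⟨q, _, h⟩ := List.mem_map.1 hx'
      simp only [Elt.dum.injEq] at h
      exact h.1.symm
  · apply nodup_flatMap' _ List.nodup_range
    · intro s _
      apply nodup_flatMap' _ (nodup_zipIdx G 0)
      · intro q _
        refine List.Nodup.map (fun i j h => ?_) List.nodup_range
        simpa using h
      · intro q hq q' hq' x hx hx'
        obtain ⟨i, _, rfl⟩ := List.mem_map.1 hx
        obtain ⟨j, _, h⟩ := List.mem_map.1 hx'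
        simp only [Elt.rep.injEq] at h
        exact zipIdx_eq hq hq' h.2.1.symm
    · intro s _ s' _ x hx hx'
      obtain ⟨q, _, hx⟩ := List.mem_flatMap.1 hx
      obtain ⟨q', _, hx'⟩ := List.mem_flatMap.1 hx'
      obtain ⟨i, _, rfl⟩ := List.mem_map.1 hx
      obtain ⟨j, _, h⟩ := List.mem_map.1 hx'
      simp only [Elt.rep.injEq] at h
      exact h.1.symm
  · intro x hx y hy hxy
    subst hxy
    obtain ⟨a, _, hx⟩ := List.mem_flatMap.1 hx
    obtain ⟨p, _, rfl⟩ := List.mem_map.1 hx
    obtain ⟨s, _, hy⟩ := List.mem_flatMap.1 hy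
    obtain ⟨q, _, hy⟩ := List.mem_flatMap.1 hy
    obtain ⟨i, _, h⟩ := List.mem_map.1 hy
    simp at h

theorem VL_nodup (K : ℕ) (E : List Elt) (hE : E.Nodup) : (VL K E).Nodup := by
  unfold VL
  rw [List.nodup_append]
  refine ⟨?_, ?_, ?_⟩
  · refine List.Nodup.map (fun w w' h => ?_) hE
    simpa using h
  · apply nodup_flatMap' _ List.nodup_range
    · intro c _
      simp
    · intro c _ c' _ x hx hx'
      simp only [List.mem_cons, List.not_mem_nil, or_false] at hx hx'
      rcases hx with rfl | rfl <;> rcases hx' with h | h <;> simp at h <;> exact h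
  · intro x hx y hy hxy
    subst hxy
    obtain ⟨w, _, rfl⟩ := List.mem_map.1 hx
    obtain ⟨c, _, hy⟩ := List.mem_flatMap.1 hy
    simp at hy

/-- The word of the graph. -/
def gword (K : ℕ) (G : List (List Pnt)) (E : List Elt) (V : List VC) : List Bool :=
  List.replicate V.length true ++ false :: (V.flatMap fun v => V.map fun v' => adjB K G E v v') ++
    List.replicate (K + 2) true

theorem gword_mem (K : ℕ) (G : List (List Pnt)) :
    gword K G (elts K G) (VL K (elts K G)) ∈ GT ↔
      GeometricThicknessLE (stripGraph (labT K G) (keyT K G)) (K + 2) :=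
  word_mem_iff (stripGraph (labT K G) (keyT K G)) (VL K (elts K G))
    (VL_nodup K _ (elts_nodup K G)) (vc K G) (vc_inj K G) (mem_VL K G)
    (adjB K G (elts K G)) (adjB_iff K G) (K + 2)

end Word

end Pool.Agent.Lib.MP_612bca_lc
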