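import Pool.Agent.Lib.MP_612bca_lc.Defs

/-!
# The word of a graph given by a list of vertex codes and a Boolean adjacency function
-/

namespace Pool.Agent.Lib.MP_612bca_lc

namespace Word

/-- Geometric thickness is invariant under isomorphisms. -/
theorem thickness_congr {V W : Type} {G : SimpleGraph V} {H : SimpleGraph W} (e : V ≃ W)
    (he : ∀ x y, G.Adj x y ↔ H.Adj (e x) (e y)) (k : ℕ) (h : GeometricThicknessLE H k) :
    GeometricThicknessLE G k := by
  obtain ⟨p, col, hd, hk, hc⟩ := h
  refine ⟨fun x => p (e x), fun s => col (s.map e), ⟨?_, ?_⟩, ?_, ?_⟩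
  · exact hd.inj.comp e.injective
  · intro u v w huv hw
    rcases hd.avoid (e u) (e v) (e w) ((he u v).1 huv) hw with h | h
    · exact Or.inl (e.injective h)
    · exact Or.inr (e.injective h)
  · intro s
    induction s using Sym2.ind with
    | _ x y =>
      intro hs
      exact hk _ ((he x y).1 hs)
  · intro a b c d hab hcd hne hcol hcr
    refine hc (e a) (e b) (e c) (e d) ((he a b).1 hab) ((he c d).1 hcd) ?_ hcol ?_
    · intro heq
      apply hne
      rw [Sym2.eq_iff] at heq ⊢
      rcases heq with ⟨h1, h2⟩ | ⟨h1, h2⟩
      · exact Or.inl ⟨e.injective h1, e.injective h2⟩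
      · exact Or.inr ⟨e.injective h1, e.injective h2⟩
    · exact hcr

theorem replicate_true_inj {n n' : ℕ} {l l' : List Bool}
    (h : List.replicate n true ++ false :: l = List.replicate n' true ++ false :: l') :
    n = n' ∧ l = l' := by
  induction n generalizing n' with
  | zero =>
    cases n' with
    | zero => simpa using h
    | succ n' => simp [List.replicate_succ] at h
  | succ n ih =>
    cases n' with
    | zero => simp [List.replicate_succ] at h
    | succ n' =>
      rw [List.replicate_succ, List.replicate_succ, List.cons_append, List.cons_append,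
        List.cons.injEq] at h
      obtain ⟨h1, h2⟩ := ih h.2
      exact ⟨by rw [h1], h2⟩

theorem matrix_length {n : ℕ} (f : Fin n → Fin n → Bool) :
    ((List.finRange n).flatMap fun i => (List.finRange n).map fun j => f i j).length = n * n := by
  rw [List.length_flatMap]
  simp

theorem flatMap_map_inj {α : Type} {m : ℕ} (L : List α) (f g : α → List Bool)
    (hf : ∀ x, (f x).length = m) (hg : ∀ x, (g x).length = m) (h : L.flatMap f = L.flatMap g) :
    ∀ x ∈ L, f x = g x := by
  induction L with
  | nil => intro x hx; simp at hx
  | cons y L ih =>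
    rw [List.flatMap_cons, List.flatMap_cons] at h
    have h1 := List.append_inj h (by rw [hf, hg])
    intro x hx
    rcases List.mem_cons.1 hx with rfl | hx
    · exact h1.1
    · exact ih h1.2 x hx

theorem matrix_inj {n : ℕ} {f g : Fin n → Fin n → Bool}
    (h : ((List.finRange n).flatMap fun i => (List.finRange n).map fun j => f i j) =
      ((List.finRange n).flatMap fun i => (List.finRange n).map fun j => g i j)) : f = g := by
  funext i j
  have h1 := flatMap_map_inj (m := n) (List.finRange n) _ _ (by simp) (by simp) h i
    (List.mem_finRange i)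
  exact (List.map_inj_left.1 h1) j (List.mem_finRange j)

theorem graphWord_inj {n n' : ℕ} {G : SimpleGraph (Fin n)} {G' : SimpleGraph (Fin n')} {k k' : ℕ}
    (h : graphWord n G k = graphWord n' G' k')
    (ht : GeometricThicknessLE G' k') : GeometricThicknessLE G k := by
  unfold graphWord at h
  rw [List.append_assoc, List.append_assoc, List.cons_append, List.cons_append] at h
  obtain ⟨rfl, h2⟩ := replicate_true_inj h
  have h3 := List.append_inj h2 (by rw [matrix_length, matrix_length])
  have h4 := matrix_inj h3.1
  have h5 : k = k' := by
    have := congrArg List.length h3.2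
    simpa using this
  subst h5
  have h6 : G = G' := by
    ext i j
    have := congrFun (congrFun h4 i) j
    simpa using this
  rw [h6]
  exact ht

theorem word_mem_iff {S β : Type} (Gr : SimpleGraph S) (VL : List β) (hnd : VL.Nodup) (vc : S → β)
    (hinj : Function.Injective vc) (hmem : ∀ v, v ∈ VL ↔ ∃ x, vc x = v) (adj : β → β → Bool)
    (hadj : ∀ x y, adj (vc x) (vc y) = true ↔ Gr.Adj x y) (k : ℕ) :
    (List.replicate VL.length true ++ false :: (VL.flatMap fun v => VL.map fun v' => adj v v') ++
      List.replicate k true) ∈ GT ↔ GeometricThicknessLE Gr k := by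
  classical
  have hget : ∀ i : Fin VL.length, ∃ x, vc x = VL.get i := fun i =>
    (hmem _).1 (List.get_mem VL i)
  choose φ hφ using hget
  have hbij : Function.Bijective φ := by
    constructor
    · intro i j hij
      have : VL.get i = VL.get j := by rw [← hφ, ← hφ, hij]
      exact (List.nodup_iff_injective_get.1 hnd) this
    · intro x
      obtain ⟨i, hi⟩ := List.mem_iff_get.1 ((hmem (vc x)).2 ⟨x, rfl⟩)
      exact ⟨i, hinj (by rw [hφ, hi])⟩
  let e : Fin VL.length ≃ S := Equiv.ofBijective φ hbij
  let G' : SimpleGraph (Fin VL.length) := Gr.comap e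
  have hG' : ∀ i j, G'.Adj i j ↔ Gr.Adj (φ i) (φ j) := fun i j => Iff.rfl
  have hw : graphWord VL.length G' k = List.replicate VL.length true ++
      false :: (VL.flatMap fun v => VL.map fun v' => adj v v') ++ List.replicate k true := by
    have h1 : ∀ i j (inst : Decidable (G'.Adj i j)), @decide (G'.Adj i j) inst =
        adj (VL.get i) (VL.get j) := by
      intro i j inst
      have h2 := hadj (φ i) (φ j)
      rw [hφ, hφ] at h2
      rw [Bool.eq_iff_iff, decide_eq_true_iff, hG', h2]
    have hL : (List.finRange VL.length).map VL.get = VL := by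
      rw [← List.ofFn_eq_map, List.ofFn_get]
    have h2 : (VL.flatMap fun v => VL.map fun v' => adj v v') =
        ((List.finRange VL.length).flatMap fun i => (List.finRange VL.length).map fun j =>
          adj (VL.get i) (VL.get j)) := by
      calc (VL.flatMap fun v => VL.map fun v' => adj v v')
          = ((List.finRange VL.length).map VL.get).flatMap fun v =>
            ((List.finRange VL.length).map VL.get).map fun v' => adj v v' := by rw [hL]
        _ = _ := by
          rw [List.flatMap_map]
          simp only [List.map_map, Function.comp_def]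
    rw [h2]
    unfold graphWord
    simp only [h1]
  rw [← hw]
  constructor
  · rintro ⟨n', H, k', h1, h2⟩
    have h3 := graphWord_inj h1 h2
    refine thickness_congr e.symm (H := G') (fun x y => ?_) k h3
    rw [hG']
    have : ∀ x, φ (e.symm x) = x := fun x => e.apply_symm_apply x
    rw [this, this]
  · intro h
    exact ⟨VL.length, G', k, rfl, thickness_congr e (fun _ _ => Iff.rfl) k h⟩

end Word

end Pool.Agent.Lib.MP_612bca_lc
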