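import Pool.Agent.Lib.MP_612bca_lc.Link
import Pool.Agent.Lib.MP_612bca_lc.Rank

/-!
# A zone of the strip: dummies, levels, and the data of the soundness proof
-/

namespace Pool.Agent.Lib.MP_612bca_lc

variable {K : ℕ} {G : List (List Pnt)}

/-! ### Arithmetic of the scale -/

theorem NN_pos (K : ℕ) : 1000 ≤ NN K := by unfold NN; omega

theorem NNz (K : ℕ) : (1000 : ℤ) ≤ NN K := by exact_mod_cast NN_pos K

theorem NN_K (K : ℕ) : (100 : ℤ) * K + 1000 ≤ NN K := by unfold NN; push_cast; omega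

/-- Powers of the base. -/
theorem pow_step (K m : ℕ) : (1000 : ℤ) * (NN K : ℤ) ^ m ≤ (NN K : ℤ) ^ (m + 1) := by
  have h1 := NNz K
  generalize (NN K : ℤ) = N at h1
  rw [pow_succ]
  have h2 : (0 : ℤ) ≤ N ^ m := pow_nonneg (by omega) _
  nlinarith

theorem pow_pos' (K m : ℕ) : (1 : ℤ) ≤ (NN K : ℤ) ^ m := by
  have h1 := NNz K
  exact one_le_pow₀ (by omega)

theorem slot_eq (K : ℕ) : (slot K : ℤ) = (NN K : ℤ) ^ 15 := by unfold slot; push_cast; rfl

theorem slot_pos (K : ℕ) : 0 < slot K := by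
  unfold slot
  exact pow_pos (by have := NN_pos K; omega) _

attribute [local irreducible] NN zones slot slo col

theorem col_abs {p : ℕ} (hp : p < 4) : |col K p| ≤ (NN K : ℤ) ^ 5 := by
  have e2 : 1000 * (NN K : ℤ) ^ 2 ≤ (NN K : ℤ) ^ 3 := pow_step K 2
  have e3 : 1000 * (NN K : ℤ) ^ 3 ≤ (NN K : ℤ) ^ 4 := pow_step K 3
  have e4 : 1000 * (NN K : ℤ) ^ 4 ≤ (NN K : ℤ) ^ 5 := pow_step K 4
  have p2 := pow_pos' K 2
  have hp' : p = 0 ∨ p = 1 ∨ p = 2 ∨ p = 3 := by omega
  rcases hp' with rfl | rfl | rfl | rfl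
  · rw [col_0, abs_le]; constructor <;> omega
  · rw [col_1, abs_le]; constructor <;> omega
  · rw [col_2, abs_le]; constructor <;> omega
  · rw [col_3, abs_le]; constructor <;> omega

theorem slo_le {c : ℕ} (hc : c ≤ K + 1) : 0 ≤ slo K c ∧ slo K c ≤ (NN K : ℤ) ^ 8 := by
  have h1 := NN_K K
  have h2 := NNz K
  by_cases h : c = K + 1
  · subst h
    rw [slo_inf]
    have := pow_pos' K 8
    constructor
    · omega
    · exact le_refl _
  · rw [slo_fin (by omega)]
    have h3 : (NN K : ℤ) ≤ (NN K : ℤ) ^ 8 := by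
      generalize (NN K : ℤ) = N at h2
      have h4 : (1 : ℤ) ≤ N ^ 7 := one_le_pow₀ (by omega)
      calc N = N * 1 := by ring
        _ ≤ N * N ^ 7 := by apply mul_le_mul_of_nonneg_left h4; omega
        _ = N ^ 8 := by ring
    constructor <;> omega

theorem shift_abs {c p : ℕ} (hc : c ≤ K + 1) (hp : p < 4) :
    |slo K c * col K p| ≤ (NN K : ℤ) ^ 13 := by
  have h1 := slo_le hc
  have h2 := col_abs (K := K) hp
  rw [abs_mul, abs_of_nonneg h1.1]
  have h3 := NNz K
  generalize (NN K : ℤ) = N at h1 h2 h3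
  generalize slo K c = a at *
  generalize |col K p| = b at *
  have h4 : (0 : ℤ) ≤ N ^ 5 := pow_nonneg (by omega) _
  calc a * b ≤ a * N ^ 5 := mul_le_mul_of_nonneg_left h2 h1.1
    _ ≤ N ^ 8 * N ^ 5 := mul_le_mul_of_nonneg_right h1.2 h4
    _ = N ^ 13 := by ring

/-! ### Zones -/

/-- First row of the zone `s`. -/
def zlo (K : ℕ) (G : List (List Pnt)) (s : ℕ) : ℤ := (slot K : ℤ) * (zlen G.length * s + 1)

/-- The row after the last one of the zone `s`. -/
def zhi (K : ℕ) (G : List (List Pnt)) (s : ℕ) : ℤ := (slot K : ℤ) * (zlen G.length * (s + 1) + 1)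

/-- Elements in the zone `s`. -/
def InZone (K : ℕ) (G : List (List Pnt)) (s : ℕ) (w : Elt) : Prop :=
  zlo K G s ≤ w.row K G ∧ (w.row K G : ℤ) < zhi K G s

theorem zlo_ge (s : ℕ) : (NN K : ℤ) ^ 15 ≤ zlo K G s := by
  unfold zlo
  rw [slot_eq]
  have h1 := pow_pos' K 15
  have h2 : (0 : ℤ) ≤ (zlen G.length : ℤ) * s := by positivity
  generalize (zlen G.length : ℤ) * s = x at h2
  generalize (NN K : ℤ) ^ 15 = y at h1
  nlinarith

theorem zhi_le {s : ℕ} (hs : s < zones K) : zhi K G s + (NN K : ℤ) ^ 15 ≤ rows K G.length := by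
  unfold zhi rows
  push_cast
  rw [slot_eq]
  have h1 := pow_pos' K 15
  have h3 : (s : ℤ) + 1 ≤ zones K := by exact_mod_cast hs
  have h4 : (0 : ℤ) ≤ (zlen G.length : ℤ) := by positivity
  generalize (zlen G.length : ℤ) = x at h4
  generalize (zones K : ℤ) = z at h3
  generalize (NN K : ℤ) ^ 15 = y at h1
  have h2 : x * (s + 1) ≤ x * z := mul_le_mul_of_nonneg_left h3 h4
  nlinarith

/-- Levels in the core of the zone `s`. -/
def CL (K : ℕ) (G : List (List Pnt)) (s : ℕ) (v : ℤ) : Prop :=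
  zlo K G s + (NN K : ℤ) ^ 14 ≤ v ∧ v + (NN K : ℤ) ^ 14 ≤ zhi K G s

theorem CL.reg {s : ℕ} (hs : s < zones K) {v : ℤ} (h : CL K G s v) : RegLev K G v := by
  have h1 := zlo_ge (K := K) (G := G) s
  have h2 := zhi_le (K := K) (G := G) hs
  have h3 : 1000 * (NN K : ℤ) ^ 14 ≤ (NN K : ℤ) ^ 15 := pow_step K 14
  have h4 := pow_pos' K 14
  obtain ⟨a, b⟩ := h
  constructor <;> omega

theorem elts_ne (K : ℕ) (G : List (List Pnt)) : Elt.dum 0 0 ∈ elts K G := by
  unfold elts
  rw [List.mem_append]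
  left
  rw [List.mem_flatMap]
  refine ⟨0, ?_, ?_⟩
  · rw [List.mem_range]
    unfold rows
    exact Nat.mul_pos (slot_pos K) (by omega)
  · simp

open Classical in
/-- The dummy of column `p` at level `v` of class `c`, as an element. -/
noncomputable def DD (K : ℕ) (G : List (List Pnt)) (c : ℕ) (v : ℤ) (p : ℕ) : EltT K G :=
  if h : dumAt K c v p ∈ elts K G then ⟨dumAt K c v p, h⟩ else ⟨.dum 0 0, elts_ne K G⟩

theorem DD_val (c : Fin (K + 2)) {v : ℤ} (hv : RegLev K G v) {p : ℕ} (hp : p < 4) :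
    (DD K G c v p).1 = dumAt K c v p := by
  unfold DD
  rw [dif_pos (dumAt_mem K G c v hv p hp).1]

theorem DD_lev (c : Fin (K + 2)) {v : ℤ} (hv : RegLev K G v) {p : ℕ} (hp : p < 4) :
    (DD K G c v p).1.lev K G c = v := by
  rw [DD_val c hv hp]
  exact (dumAt_mem K G c v hv p hp).2

theorem DD_key (c : Fin (K + 2)) {v : ℤ} (hv : RegLev K G v) {p : ℕ} (hp : p < 4) :
    keyT K G c (DD K G c v p) = 8 * v + p := by
  unfold keyT Elt.key
  rw [DD_lev c hv hp, DD_val c hv hp]
  rfl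

theorem DD_lab (c : Fin (K + 2)) {v : ℤ} (hv : RegLev K G v) {p : ℕ} (hp : p < 4) :
    labT K G (DD K G c v p) = p % 2 := by
  unfold labT
  rw [DD_val c hv hp]
  rfl

theorem DD_row (c : Fin (K + 2)) {v : ℤ} (hv : RegLev K G v) {p : ℕ} (hp : p < 4) :
    ((DD K G c v p).1.row K G : ℤ) = v + slo K c * col K p := by
  rw [DD_val c hv hp]
  have h := (dumAt_mem K G c v hv p hp).2
  unfold dumAt Elt.lev at h
  unfold dumAt Elt.row
  simp only at h ⊢
  linarith

theorem lab_cases (w : EltT K G) : labT K G w = 0 ∨ labT K G w = 1 ∨ labT K G w = 2 := by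
  unfold labT
  cases w.1 with
  | dum a p => simp only [Elt.lab]; omega
  | rep s j i => simp [Elt.lab]

/-- Membership of dummies. -/
theorem dum_mem {a p : ℕ} : Elt.dum a p ∈ elts K G ↔ a < rows K G.length ∧ p < 4 := by
  unfold elts
  simp only [List.mem_append, List.mem_flatMap, List.mem_range, List.mem_map, Elt.dum.injEq,
    reduceCtorEq, and_false, exists_false, or_false]
  constructor
  · rintro ⟨a', ha', p', hp', rfl, rfl⟩
    exact ⟨ha', hp'⟩
  · rintro ⟨h1, h2⟩
    exact ⟨a, h1, p, h2, rfl, rfl⟩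

/-- Membership of representatives. -/
theorem rep_mem {s j i : ℕ} : Elt.rep s j i ∈ elts K G ↔
    s < zones K ∧ j < G.length ∧ i < (G.getD j []).length := by
  unfold elts
  simp only [List.mem_append, List.mem_flatMap, List.mem_range, List.mem_map, Elt.rep.injEq,
    reduceCtorEq, and_false, exists_false, false_or]
  constructor
  · rintro ⟨s', hs', ⟨g, j'⟩, hq, i', hi', rfl, rfl, rfl⟩
    rw [List.mem_zipIdx_iff_getElem?] at hq
    simp only at hq hi'
    have h2 := List.getElem?_eq_some_iff.1 hq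
    obtain ⟨h3, h4⟩ := h2
    refine ⟨hs', h3, ?_⟩
    simp only [List.getD_eq_getElem?_getD, hq, Option.getD_some]
    exact hi'
  · rintro ⟨h1, h2, h3⟩
    refine ⟨s, h1, (G[j], j), ?_, i, ?_, rfl, rfl, rfl⟩
    · rw [List.mem_zipIdx_iff_getElem?]
      simp [h2]
    · simpa [List.getD_eq_getElem?_getD, h2] using h3

/-- A dummy of label `e` and a given class is the dummy at its level. -/
theorem eq_DD (c : Fin (K + 2)) (w : EltT K G) {a p : ℕ} (hw : w.1 = .dum a p)
    (hv : RegLev K G (w.1.lev K G c)) : w = DD K G c (w.1.lev K G c) p := by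
  have hp : p < 4 := by
    have := w.2
    rw [hw, dum_mem] at this
    exact this.2
  apply Subtype.ext
  rw [DD_val c hv hp]
  unfold dumAt
  rw [hw]
  simp only [Elt.lev]
  congr 1
  omega

end Pool.Agent.Lib.MP_612bca_lc
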